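import Mathlib
import Pool.Agent.Y417.FJ.Am

/-!
HNN extensions with a homomorphism to a group of the class which is injective on the base.
-/

set_option autoImplicit false

namespace Pool.Agent.X176.FJ

open Pool.Agent.Y110.FJ
open Pool.Agent.Y462.SS (Closed)
open Pool.Agent.Y417.FJ (permAut_mk reduced_map)

section normal

variable {M : Type} [Group M] {A B : Subgroup M} {φ : A ≃* B}

open HNNExtension

/-- the stable letter and its inverse -/
def tt (s : Bool) : HNNExtension M A B φ := if s then t else t⁻¹

/-- the subgroup of the elements which can be moved across `t` -/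
def KK (A B : Subgroup M) (s : Bool) : Subgroup M := if s then A else B

theorem tt_mul_of (s : Bool) (m : M) (hm : m ∈ KK A B s) :
    ∃ m' : M, (tt s : HNNExtension M A B φ) * of m = of m' * tt s := by
  cases s with
  | true => exact ⟨φ ⟨m, hm⟩, t_mul_of ⟨m, hm⟩⟩
  | false => exact ⟨φ.symm ⟨m, hm⟩, inv_t_mul_of ⟨m, hm⟩⟩

theorem tt_mul_tt (s s' : Bool) (h : s ≠ s') :
    (tt s : HNNExtension M A B φ) * tt s' = 1 := by
  cases s <;> cases s' <;> simp_all [tt]

/-- reduced products which begin with `t` (`s = true`) or `t⁻¹` (`s = false`) -/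
inductive Rd (M : Type) [Group M] (A B : Subgroup M) (φ : A ≃* B) :
    Bool → HNNExtension M A B φ → Prop
  | base (s : Bool) (m : M) : Rd M A B φ s (tt s * of m)
  | step (s s' : Bool) (m : M) (g : HNNExtension M A B φ) : (s ≠ s' → m ∉ KK A B s) →
      Rd M A B φ s' g → Rd M A B φ s (tt s * of m * g)

/-- the normal form -/
def NF (g : HNNExtension M A B φ) : Prop :=
  (∃ m, g = of m) ∨ ∃ m s h, Rd M A B φ s h ∧ g = of m * h

theorem nf_of_mul (m : M) (g : HNNExtension M A B φ) (hg : NF g) : NF (of m * g) := by
  rcases hg with ⟨m', rfl⟩ | ⟨m', s, h, hh, rfl⟩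
  · exact Or.inl ⟨m * m', by rw [map_mul]⟩
  · exact Or.inr ⟨m * m', s, h, hh, by rw [map_mul, mul_assoc]⟩

theorem nf_tt_mul (s : Bool) (g : HNNExtension M A B φ) (hg : NF g) : NF (tt s * g) := by
  rcases hg with ⟨m, rfl⟩ | ⟨m, s', h, hh, rfl⟩
  · exact Or.inr ⟨1, s, _, Rd.base s m, by rw [map_one, one_mul]⟩
  · by_cases hc : s ≠ s' → m ∉ KK A B s
    · exact Or.inr ⟨1, s, _, Rd.step s s' m h hc hh, by rw [map_one, one_mul, mul_assoc]⟩
    · push Not at hc
      obtain ⟨hs, hm⟩ := hc
      obtain ⟨m', hm'⟩ := tt_mul_of (φ := φ) s m hm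
      have e : tt s * (of m * h) = of m' * (tt s * h) := by
        rw [← mul_assoc, hm', mul_assoc]
      rw [e]
      apply nf_of_mul
      cases hh with
      | base _ m1 =>
        left
        exact ⟨m1, by rw [← mul_assoc, tt_mul_tt s s' hs, one_mul]⟩
      | step _ s'' m1 g1 h1 h2 =>
        right
        refine ⟨m1, s'', g1, h2, ?_⟩
        rw [← mul_assoc, ← mul_assoc, tt_mul_tt s s' hs, one_mul]

theorem nf_all (g : HNNExtension M A B φ) : NF g := by
  have key : ∀ x : HNNExtension M A B φ,
      (∀ g, NF g → NF (x * g)) ∧ (∀ g, NF g → NF (x⁻¹ * g)) := by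
    intro x
    induction x using HNNExtension.induction_on with
    | of m =>
      refine ⟨fun g hg => nf_of_mul m g hg, fun g hg => ?_⟩
      rw [← map_inv]
      exact nf_of_mul _ g hg
    | t =>
      exact ⟨fun g hg => nf_tt_mul true g hg, fun g hg => nf_tt_mul false g hg⟩
    | mul x y hx hy =>
      refine ⟨fun g hg => ?_, fun g hg => ?_⟩
      · rw [mul_assoc]; exact hx.1 _ (hy.1 _ hg)
      · rw [mul_inv_rev, mul_assoc]; exact hy.2 _ (hx.2 _ hg)
    | inv x hx =>
      refine ⟨hx.2, fun g hg => ?_⟩
      rw [inv_inv]; exact hx.1 g hg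
  have := (key g).1 1 (Or.inl ⟨1, (map_one _).symm⟩)
  rwa [mul_one] at this

end normal

theorem t_hnn (hperm : S_PERM) : S_HNN := by
  intro C hC M P _ _ A B φ f hf hCP
  classical
  let fm : M →* P := f.comp HNNExtension.of
  let p : P := f HNNExtension.t
  let X : Type := P ⧸ B.map fm
  let x1 : X := ((1 : P) : P ⧸ B.map fm)
  have hx1 : ∀ q : P, q • x1 = x1 ↔ q ∈ B.map fm := by
    intro q
    show ((q * 1 : P) : P ⧸ B.map fm) = ((1 : P) : P ⧸ B.map fm) ↔ _
    rw [mul_one, eq_comm, QuotientGroup.eq]
    simp
  let W : Type := FreeGroup X ⋊[permAut X P] P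
  have hact : ∀ q : P, q ∈ B.map fm → permAut X P q (FreeGroup.of x1) = FreeGroup.of x1 := by
    intro q hq
    have := permAut_mk q [((x1, true) : X × Bool)]
    have h2 : (permAut X P q) (FreeGroup.of x1) = FreeGroup.of (q • x1) := this
    rw [h2, (hx1 q).2 hq]
  let Θ : HNNExtension M A B φ →* FreeGroup X ⋊[permAut X P] P :=
    HNNExtension.lift (SemidirectProduct.inr.comp fm) ⟨FreeGroup.of x1, p⟩ (by
      intro a
      have e : p * fm a = fm (φ a) * p := by
        show f HNNExtension.t * f (HNNExtension.of (a : M)) =
          f (HNNExtension.of (φ a : M)) * f HNNExtension.t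
        rw [← map_mul, HNNExtension.t_mul_of, map_mul]
      apply SemidirectProduct.ext
      · simp only [MonoidHom.comp_apply, SemidirectProduct.mul_left, SemidirectProduct.left_inr,
          SemidirectProduct.right_inr, map_one, mul_one, one_mul]
        exact (hact _ ⟨_, (φ a).2, rfl⟩).symm
      · simp only [MonoidHom.comp_apply, SemidirectProduct.mul_right, SemidirectProduct.right_inr]
        exact e)
  have hΘof : ∀ m, Θ (HNNExtension.of m) = SemidirectProduct.inr (fm m) := fun m => by
    simp [Θ]
  have hΘt : Θ HNNExtension.t = ⟨FreeGroup.of x1, p⟩ := by simp [Θ]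
  have hright : ∀ g, (Θ g).right = f g := by
    intro g
    have : (SemidirectProduct.rightHom : FreeGroup X ⋊[permAut X P] P →* P).comp Θ = f := by
      apply HNNExtension.hom_ext
      · ext m
        simp [hΘof, fm]
      · simp [hΘt, p]
    exact DFunLike.congr_fun this g
  have hleft : ∀ g h, (Θ (g * h)).left = (Θ g).left * permAut X P (f g) (Θ h).left := by
    intro g h
    rw [map_mul, SemidirectProduct.mul_left, hright]
  have hlof : ∀ m, (Θ (HNNExtension.of m)).left = 1 := by
    intro m
    rw [hΘof]; simp
  let xs : Bool → X := fun s => if s then x1 else p⁻¹ • x1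
  have hltt : ∀ s, (Θ (tt s)).left = FreeGroup.mk [((xs s, s) : X × Bool)] := by
    intro s
    cases s with
    | true =>
      show (Θ HNNExtension.t).left = _
      rw [hΘt]; rfl
    | false =>
      show (Θ HNNExtension.t⁻¹).left = _
      rw [map_inv, hΘt]
      have := permAut_mk (X := X) p⁻¹ [((x1, false) : X × Bool)]
      simp only [SemidirectProduct.inv_left]
      rw [FreeGroup.of, FreeGroup.inv_mk]
      exact this
  have hftt : f (tt true) = p := rfl
  have hftt' : f (tt false) = p⁻¹ := map_inv f _
  have hrd : ∀ s h, Rd M A B φ s h → ∃ L : List (X × Bool),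
      FreeGroup.IsReduced ((xs s, s) :: L) ∧ (Θ h).left = FreeGroup.mk ((xs s, s) :: L) := by
    intro s h hh
    induction hh with
    | base s m =>
      refine ⟨[], FreeGroup.IsReduced.singleton, ?_⟩
      rw [hleft, hlof, map_one, mul_one, hltt]
    | step s s' m g hm hg ih =>
      obtain ⟨L, hL, hLg⟩ := ih
      refine ⟨((xs s', s') :: L).map (fun q => (f (tt s * HNNExtension.of m) • q.1, q.2)), ?_, ?_⟩
      · rw [List.map_cons, FreeGroup.isReduced_cons_cons]
        refine ⟨fun he => ?_, ?_⟩
        · by_contra hss
          have hmK := hm hss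
          have he' : xs s = f (tt s * HNNExtension.of m) • xs s' := he
          rw [map_mul, mul_smul] at he'
          have hfm : f (HNNExtension.of m) = fm m := rfl
          rw [hfm] at he'
          cases s with
          | true =>
            cases s' with
            | true => exact hss rfl
            | false =>
              rw [hftt] at he'
              have e1 : (p * fm m * p⁻¹) • x1 = x1 := by
                rw [mul_smul, mul_smul]; exact he'.symm
              obtain ⟨b, hb, hb'⟩ := (hx1 _).1 e1
              apply hmK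
              have e2 : fm m = p⁻¹ * fm b * p := by rw [hb']; group
              have e3 : p⁻¹ * fm b * p = fm (φ.symm ⟨b, hb⟩) := by
                show (f HNNExtension.t)⁻¹ * f (HNNExtension.of b) * f HNNExtension.t =
                  f (HNNExtension.of _)
                rw [← map_inv, ← map_mul, ← map_mul, HNNExtension.equiv_symm_eq_conj]
              have e4 : m = (φ.symm ⟨b, hb⟩ : A) := hf (e2.trans e3)
              rw [e4]
              exact (φ.symm ⟨b, hb⟩).2
          | false =>
            cases s' with
            | false => exact hss rfl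
            | true =>
              rw [hftt'] at he'
              have e1 : fm m • x1 = x1 := (MulAction.injective p⁻¹ he').symm
              obtain ⟨b, hb, hb'⟩ := (hx1 _).1 e1
              apply hmK
              have e4 : m = b := hf hb'.symm
              rw [e4]
              exact hb
        · have := reduced_map (f (tt s * HNNExtension.of m)) _ hL
          rwa [List.map_cons] at this
      · rw [hleft, hleft, hlof, map_one, mul_one, hltt, hLg, permAut_mk, FreeGroup.mul_mk]
        rfl
  have hinj : Function.Injective Θ := by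
    rw [injective_iff_map_eq_one]
    intro g hg
    rcases nf_all g with ⟨m, rfl⟩ | ⟨m, s, h, hh, rfl⟩
    · have h1 := hright (HNNExtension.of m)
      rw [hg] at h1
      have h2 : fm m = fm 1 := by rw [map_one]; exact h1.symm
      have h3 : m = 1 := hf h2
      rw [h3, map_one]
    · exfalso
      obtain ⟨L, hL, hLg⟩ := hrd s h hh
      have h1 := hleft (HNNExtension.of m) h
      rw [hg, hlof, one_mul, hLg, permAut_mk] at h1
      have h2 : FreeGroup.IsReduced
          (((xs s, s) :: L).map fun q => (f (HNNExtension.of m) • q.1, q.2)) :=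
        reduced_map _ _ hL
      have h3 : (1 : FreeGroup X).toWord =
          (((xs s, s) :: L).map fun q => (f (HNNExtension.of m) • q.1, q.2)) := by
        have h4 : (FreeGroup.mk (((xs s, s) :: L).map
            fun q => (f (HNNExtension.of m) • q.1, q.2))).toWord
            = (((xs s, s) :: L).map fun q => (f (HNNExtension.of m) • q.1, q.2)) := by
          rw [FreeGroup.toWord_mk]
          exact h2.reduce_eq
        rw [← h4]
        exact congrArg _ h1
      simp at h3
  exact hC.base.of_injective _ _ Θ hinj (hperm C hC X P hCP)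

end Pool.Agent.X176.FJ
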