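import Mathlib
import Pool.Agent.X176.FJ.Hnn

/-!
The group generated by a normal subgroup `N` and an element `g` of infinite order modulo `N` is a
directed colimit of HNN extensions of finitely generated subgroups of `N`.
-/

set_option autoImplicit false

namespace Pool.Agent.X176.FJ

open Pool.Agent.Y110.FJ
open Pool.Agent.Y462.SS (Closed)
open scoped Pointwise

section sys

variable {G : Type} [Group G] (g : G)

/-- the subgroup generated by `E` and `g E g⁻¹` -/
def Kc (E : Set G) : Subgroup G := Subgroup.closure (E ∪ (fun x => g * x * g⁻¹) '' E)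

theorem le_Kc (E : Set G) : Subgroup.closure E ≤ Kc g E :=
  Subgroup.closure_mono Set.subset_union_left

theorem Kc_mono {E F : Set G} (h : E ⊆ F) : Kc g E ≤ Kc g F :=
  Subgroup.closure_mono (Set.union_subset_union h (Set.image_mono h))

theorem conj_Kc {E : Set G} {x : G} (hx : x ∈ Subgroup.closure E) : g * x * g⁻¹ ∈ Kc g E := by
  induction hx using Subgroup.closure_induction with
  | mem x hx => exact Subgroup.subset_closure (Or.inr ⟨x, hx, rfl⟩)
  | one => simp [(Kc g E).one_mem]
  | mul x y _ _ hx hy =>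
    have : g * (x * y) * g⁻¹ = (g * x * g⁻¹) * (g * y * g⁻¹) := by group
    rw [this]; exact mul_mem hx hy
  | inv x _ hx =>
    have : g * x⁻¹ * g⁻¹ = (g * x * g⁻¹)⁻¹ := by group
    rw [this]; exact inv_mem hx

/-- the domain of the partial isomorphism -/
def Ac (E : Set G) : Subgroup (Kc g E) := (Subgroup.closure E).subgroupOf (Kc g E)

/-- conjugation by `g` -/
def cmap (E : Set G) : Ac g E →* Kc g E where
  toFun x := ⟨g * (x : Kc g E) * g⁻¹, conj_Kc g x.2⟩
  map_one' := by apply Subtype.ext; simp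
  map_mul' x y := by apply Subtype.ext; simp

theorem cmap_injective (E : Set G) : Function.Injective (cmap g E) := by
  intro x y h
  have h1 : g * ((x : Kc g E) : G) * g⁻¹ = g * ((y : Kc g E) : G) * g⁻¹ := congrArg Subtype.val h
  apply Subtype.ext
  apply Subtype.ext
  simpa using h1

/-- the partial isomorphism -/
noncomputable def piso (E : Set G) : Ac g E ≃* (cmap g E).range :=
  MonoidHom.ofInjective (cmap_injective g E)

/-- the HNN extension -/
abbrev Hc (E : Set G) : Type := HNNExtension (Kc g E) (Ac g E) (cmap g E).range (piso g E)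

open HNNExtension

theorem rel (E : Set G) (a : Ac g E) :
    (t : Hc g E) * of (a : Kc g E) = of (cmap g E a) * t := t_mul_of a

/-- the map of the HNN extensions -/
noncomputable def mc {E F : Set G} (h : E ⊆ F) : Hc g E →* Hc g F :=
  HNNExtension.lift (of.comp (Subgroup.inclusion (Kc_mono g h))) t (by
    intro a
    have ha : Subgroup.inclusion (Kc_mono g h) (a : Kc g E) ∈ Ac g F :=
      Subgroup.closure_mono h a.2
    exact rel g F ⟨_, ha⟩)

/-- the map to a subgroup containing everything -/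
noncomputable def gc {E : Set G} (L : Subgroup G) (hg : g ∈ L) (h : Kc g E ≤ L) : Hc g E →* L :=
  HNNExtension.lift (Subgroup.inclusion h) ⟨g, hg⟩ (by
    intro a
    apply Subtype.ext
    show g * ((a : Kc g E) : G) = g * ((a : Kc g E) : G) * g⁻¹ * g
    group)

theorem mc_of {E F : Set G} (h : E ⊆ F) (k : Kc g E) :
    mc g h (of k) = of (Subgroup.inclusion (Kc_mono g h) k) :=
  HNNExtension.lift_of _ _ _ k

theorem mc_t {E F : Set G} (h : E ⊆ F) : mc g h t = t := HNNExtension.lift_t _ _ _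

theorem gc_of {E : Set G} (L : Subgroup G) (hg : g ∈ L) (h : Kc g E ≤ L) (k : Kc g E) :
    ((gc g L hg h (of k) : L) : G) = k := by simp [gc]

theorem gc_t {E : Set G} (L : Subgroup G) (hg : g ∈ L) (h : Kc g E ≤ L) :
    ((gc g L hg h t : L) : G) = g := by simp [gc]

theorem mc_mc {E F F' : Set G} (h : E ⊆ F) (h' : F ⊆ F') (x : Hc g E) :
    mc g h' (mc g h x) = mc g (h.trans h') x := by
  have : (mc g h').comp (mc g h) = mc g (h.trans h') := by
    apply HNNExtension.hom_ext
    · ext k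
      simp only [MonoidHom.comp_apply, mc_of]
      rfl
    · simp only [MonoidHom.comp_apply, mc_t]
  exact DFunLike.congr_fun this x

theorem mc_id {E : Set G} (h : E ⊆ E) (x : Hc g E) : mc g h x = x := by
  have : mc g h = MonoidHom.id _ := by
    apply HNNExtension.hom_ext
    · ext k
      simp only [MonoidHom.comp_apply, mc_of]
      rfl
    · simp only [mc_t]; rfl
  exact DFunLike.congr_fun this x

theorem gc_mc {E F : Set G} (L : Subgroup G) (hg : g ∈ L) (h : E ⊆ F) (hE : Kc g E ≤ L)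
    (hF : Kc g F ≤ L) (x : Hc g E) : gc g L hg hF (mc g h x) = gc g L hg hE x := by
  have : (gc g L hg hF).comp (mc g h) = gc g L hg hE := by
    apply HNNExtension.hom_ext
    · ext k
      simp only [MonoidHom.comp_apply, mc_of, gc_of]
      rfl
    · apply Subtype.ext
      simp only [MonoidHom.comp_apply, mc_t, gc_t]
  exact DFunLike.congr_fun this x

end sys

section norm

variable {G : Type} [Group G] (g : G) (N : Subgroup G) [N.Normal]

open HNNExtension

/-- the index set -/
abbrev Ix (N : Subgroup G) : Type := {E : Set G // E.Finite ∧ E ⊆ N}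

theorem Kc_le {E : Set G} (hE : E ⊆ N) : Kc g E ≤ N := by
  unfold Kc
  rw [Subgroup.closure_le]
  rintro x (hx | ⟨y, hy, rfl⟩)
  · exact hE hx
  · exact Subgroup.Normal.conj_mem inferInstance _ (hE hy) g

/-- every element of `N` can be moved across a power of `t`, in a larger HNN extension -/
theorem move (n : ℤ) : ∀ (E : Ix N) (k : Kc g E.1), ∃ (F : Ix N) (h : E.1 ⊆ F.1) (k' : Kc g F.1),
    (t : Hc g F.1) ^ n * mc g h (of k) = of k' * t ^ n := by
  have up : ∀ (E : Ix N) (k : Kc g E.1), ∃ (F : Ix N) (h : E.1 ⊆ F.1) (k' : Kc g F.1),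
      (t : Hc g F.1) * mc g h (of k) = of k' * t := by
    intro E k
    refine ⟨⟨insert (k : G) E.1, E.2.1.insert _, ?_⟩, Set.subset_insert _ _, ?_⟩
    · rw [Set.insert_subset_iff]
      exact ⟨Kc_le g N E.2.2 k.2, E.2.2⟩
    · have hk : Subgroup.inclusion (Kc_mono g (Set.subset_insert (k : G) E.1)) k ∈
          Ac g (insert (k : G) E.1) := Subgroup.subset_closure (Set.mem_insert _ _)
      refine ⟨cmap g _ ⟨_, hk⟩, ?_⟩
      rw [mc_of]
      exact rel g _ ⟨_, hk⟩
  have down : ∀ (E : Ix N) (k : Kc g E.1), ∃ (F : Ix N) (h : E.1 ⊆ F.1) (k' : Kc g F.1),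
      (t : Hc g F.1)⁻¹ * mc g h (of k) = of k' * t⁻¹ := by
    intro E k
    have hkN : g⁻¹ * (k : G) * g ∈ N := by
      have := Subgroup.Normal.conj_mem (inferInstance : N.Normal) _ (Kc_le g N E.2.2 k.2) g⁻¹
      rwa [inv_inv] at this
    refine ⟨⟨insert (g⁻¹ * (k : G) * g) E.1, E.2.1.insert _, ?_⟩, Set.subset_insert _ _, ?_⟩
    · rw [Set.insert_subset_iff]
      exact ⟨hkN, E.2.2⟩
    · have hk1 : g⁻¹ * (k : G) * g ∈ Subgroup.closure (insert (g⁻¹ * (k : G) * g) E.1) :=
        Subgroup.subset_closure (Set.mem_insert _ _)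
      have hk : (⟨g⁻¹ * (k : G) * g, le_Kc g _ hk1⟩ : Kc g (insert (g⁻¹ * (k : G) * g) E.1)) ∈
          Ac g (insert (g⁻¹ * (k : G) * g) E.1) := hk1
      refine ⟨⟨g⁻¹ * (k : G) * g, le_Kc g _ hk1⟩, ?_⟩
      have h1 := rel g _ ⟨_, hk⟩
      have h2 : cmap g _ ⟨_, hk⟩ =
          Subgroup.inclusion (Kc_mono g (Set.subset_insert (g⁻¹ * (k : G) * g) E.1)) k := by
        apply Subtype.ext
        show g * (g⁻¹ * (k : G) * g) * g⁻¹ = k
        group
      rw [h2] at h1
      have h3 : (t : Hc g (insert (g⁻¹ * (k : G) * g) E.1)) * of ⟨g⁻¹ * (k : G) * g, le_Kc g _ hk1⟩ =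
        of (Subgroup.inclusion (Kc_mono g (Set.subset_insert (g⁻¹ * (k : G) * g) E.1)) k) * t := h1
      rw [mc_of, inv_mul_eq_iff_eq_mul, ← mul_assoc, h3, mul_inv_cancel_right]
  -- composition with a larger index
  induction n using Int.induction_on with
  | zero =>
    intro E k
    refine ⟨E, subset_rfl, k, ?_⟩
    rw [mc_id, zpow_zero, one_mul, mul_one]
  | succ i ih =>
    intro E k
    obtain ⟨F, h, k', hk'⟩ := ih E k
    obtain ⟨F', h', k'', hk''⟩ := up F k'
    refine ⟨F', h.trans h', k'', ?_⟩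
    have e1 := congrArg (mc g h') hk'
    rw [map_mul, map_mul, map_zpow, mc_t, mc_mc] at e1
    have e2 : (t : Hc g F'.1) ^ ((i : ℤ) + 1) = t * t ^ (i : ℤ) := by
      rw [add_comm, zpow_one_add]
    rw [e2, mul_assoc, e1, ← mul_assoc, hk'', mul_assoc]
  | pred i ih =>
    intro E k
    obtain ⟨F, h, k', hk'⟩ := ih E k
    obtain ⟨F', h', k'', hk''⟩ := down F k'
    refine ⟨F', h.trans h', k'', ?_⟩
    have e1 := congrArg (mc g h') hk'
    rw [map_mul, map_mul, map_zpow, mc_t, mc_mc] at e1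
    have e2 : (t : Hc g F'.1) ^ (-(i : ℤ) - 1) = t⁻¹ * t ^ (-(i : ℤ)) := by
      rw [sub_eq_neg_add, zpow_add, zpow_neg_one]
    rw [e2, mul_assoc, e1, ← mul_assoc, hk'', mul_assoc]

/-- every element becomes a product of an element of the base and a power of `t` -/
theorem straighten (E : Ix N) (x : Hc g E.1) : ∃ (F : Ix N) (h : E.1 ⊆ F.1) (k : Kc g F.1) (n : ℤ),
    mc g h x = of k * t ^ n := by
  induction x using HNNExtension.induction_on with
  | of k => exact ⟨E, subset_rfl, k, 0, by rw [mc_id, zpow_zero, mul_one]⟩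
  | t => exact ⟨E, subset_rfl, 1, 1, by rw [mc_id, map_one, one_mul, zpow_one]⟩
  | mul x y hx hy =>
    obtain ⟨F, h, k, n, hk⟩ := hx
    obtain ⟨F', h', k', n', hk'⟩ := hy
    let F'' : Ix N := ⟨F.1 ∪ F'.1, F.2.1.union F'.2.1, Set.union_subset F.2.2 F'.2.2⟩
    have a : F.1 ⊆ F''.1 := Set.subset_union_left
    have b : F'.1 ⊆ F''.1 := Set.subset_union_right
    obtain ⟨D, hD, k'', hk''⟩ := move g N n F'' (Subgroup.inclusion (Kc_mono g b) k')
    refine ⟨D, (h.trans a).trans hD,
      Subgroup.inclusion (Kc_mono g (a.trans hD)) k * k'', n + n', ?_⟩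
    have e1 := congrArg (mc g (a.trans hD)) hk
    have e2 := congrArg (mc g (b.trans hD)) hk'
    rw [map_mul, map_zpow, mc_t, mc_mc, mc_of] at e1 e2
    rw [← mc_of g b k', mc_mc, mc_of] at hk''
    rw [map_mul, e1, map_mul]
    have e3 : mc g ((h.trans a).trans hD) y = mc g (h'.trans (b.trans hD)) y := rfl
    rw [e3, e2, zpow_add]
    rw [mul_assoc, ← mul_assoc (t ^ n), hk'']
    simp only [mul_assoc]
  | inv x hx =>
    obtain ⟨F, h, k, n, hk⟩ := hx
    obtain ⟨D, hD, k', hk'⟩ := move g N (-n) F k⁻¹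
    refine ⟨D, h.trans hD, k', -n, ?_⟩
    have e1 := congrArg (mc g hD) hk
    rw [map_mul, map_zpow, mc_t, mc_mc] at e1
    rw [map_inv, e1, mul_inv_rev, ← hk', map_inv, map_inv, zpow_neg]

end norm

theorem t_col (hhnn : S_HNN) : S_COL := by
  intro C hC G _ N _ g hg hreal
  let L : Subgroup G := N ⊔ Subgroup.zpowers g
  have hgL : g ∈ L := (le_sup_right : Subgroup.zpowers g ≤ L) (Subgroup.mem_zpowers g)
  have hNL : N ≤ L := le_sup_left
  have hKL : ∀ E : Ix N, Kc g E.1 ≤ L := fun E => (Kc_le g N E.2.2).trans hNL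
  have : Nonempty (Ix N) := ⟨⟨∅, Set.finite_empty, Set.empty_subset _⟩⟩
  refine hC.base.colim (Ix N) (fun E F => ⟨⟨E.1 ∪ F.1, E.2.1.union F.2.1,
    Set.union_subset E.2.2 F.2.2⟩, Set.subset_union_left, Set.subset_union_right⟩)
    (fun E => Hc g E.1) (fun E F h => mc g h) L (fun E => gc g L hgL (hKL E)) ?_ ?_ ?_ ?_ ?_ ?_
  · intro E h x; exact mc_id g h x
  · intro E F F' h h' x; exact mc_mc g h h' x
  · intro E F h x; exact gc_mc g L hgL h (hKL E) (hKL F) x
  · rintro ⟨y, hy⟩
    have hy' : y ∈ (N : Set G) * (Subgroup.zpowers g : Set G) := by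
      rw [← Subgroup.normal_mul]; exact hy
    obtain ⟨n, hn, z, hz, rfl⟩ := Set.mem_mul.1 hy'
    obtain ⟨k, rfl⟩ := Subgroup.mem_zpowers_iff.1 hz
    refine ⟨⟨{n}, Set.finite_singleton n, by simpa using hn⟩,
      HNNExtension.of ⟨n, le_Kc g _ (Subgroup.subset_closure rfl)⟩ * HNNExtension.t ^ k, ?_⟩
    apply Subtype.ext
    rw [map_mul, map_zpow]
    simp only [Subgroup.coe_mul, Subgroup.coe_zpow, gc_of, gc_t]
  · intro E x hx
    obtain ⟨F, h, k, n, hk⟩ := straighten g N E x
    refine ⟨F, h, ?_⟩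
    have h1 := gc_mc g L hgL h (hKL E) (hKL F) x
    rw [hx, hk, map_mul, map_zpow] at h1
    have h2 : (k : G) * g ^ n = 1 := by
      have := congrArg Subtype.val h1
      simpa only [Subgroup.coe_mul, Subgroup.coe_zpow, gc_of, gc_t, Subgroup.coe_one] using this
    have hkN : (k : G) ∈ N := Kc_le g N F.2.2 k.2
    have hgn : g ^ n ∈ N := by
      have : g ^ n = (k : G)⁻¹ := eq_inv_of_mul_eq_one_right h2
      rw [this]; exact N.inv_mem hkN
    have hn0 : n = 0 := by
      by_contra hne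
      rcases lt_or_gt_of_ne hne with hlt | hgt
      · apply hg (-n).toNat (by omega)
        have : g ^ (-n).toNat = (g ^ n)⁻¹ := by
          rw [← zpow_natCast, Int.toNat_of_nonneg (by omega), zpow_neg]
        rw [this]; exact N.inv_mem hgn
      · apply hg n.toNat (by omega)
        have : g ^ n.toNat = g ^ n := by
          rw [← zpow_natCast, Int.toNat_of_nonneg (by omega)]
        rw [this]; exact hgn
    rw [hn0, zpow_zero, mul_one] at h2
    have hk1 : k = 1 := Subtype.ext h2
    show mc g h x = 1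
    rw [hk, hn0, hk1, map_one, zpow_zero, mul_one]
  · intro E
    have hreal' : ∃ (P : Type) (_ : Group P) (f : Kc g E.1 →* P) (p : P), C P ∧
        Function.Injective f ∧ ∀ x y : Kc g E.1, (x : G) ∈ E.1 → (y : G) = g * x * g⁻¹ →
          f y = p * f x * p⁻¹ := hreal E.1 E.2.1 E.2.2
    obtain ⟨P, _, f, p, hCP, hf, hfp⟩ := hreal'
    have hrel : ∀ a : Ac g E.1, p * f (a : Kc g E.1) = f (piso g E.1 a : Kc g E.1) * p := by
      have key : ∀ (x : G) (hx : x ∈ Subgroup.closure E.1),
          p * f ⟨x, le_Kc g _ hx⟩ = f ⟨g * x * g⁻¹, conj_Kc g hx⟩ * p := by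
        intro x hx
        induction hx using Subgroup.closure_induction with
        | mem x hx =>
          have := hfp ⟨x, le_Kc g _ (Subgroup.subset_closure hx)⟩
            ⟨g * x * g⁻¹, conj_Kc g (Subgroup.subset_closure hx)⟩ hx rfl
          rw [this]; group
        | one =>
          have e1 : (⟨1, le_Kc g _ (one_mem _)⟩ : Kc g E.1) = 1 := rfl
          have e2 : (⟨g * 1 * g⁻¹, conj_Kc g (one_mem _)⟩ : Kc g E.1) = 1 := by
            apply Subtype.ext; simp
          rw [e1, e2, map_one, one_mul, mul_one]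
        | mul x y hx hy ihx ihy =>
          have e1 : (⟨x * y, le_Kc g _ (mul_mem hx hy)⟩ : Kc g E.1) =
              ⟨x, le_Kc g _ hx⟩ * ⟨y, le_Kc g _ hy⟩ := rfl
          have e2 : (⟨g * (x * y) * g⁻¹, conj_Kc g (mul_mem hx hy)⟩ : Kc g E.1) =
              ⟨g * x * g⁻¹, conj_Kc g hx⟩ * ⟨g * y * g⁻¹, conj_Kc g hy⟩ := by
            apply Subtype.ext
            show g * (x * y) * g⁻¹ = g * x * g⁻¹ * (g * y * g⁻¹)
            group
          rw [e1, e2, map_mul, map_mul, ← mul_assoc, ihx, mul_assoc, ihy]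
          exact (mul_assoc _ _ _).symm
        | inv x hx ih =>
          have e1 : (⟨x⁻¹, le_Kc g _ (inv_mem hx)⟩ : Kc g E.1) = ⟨x, le_Kc g _ hx⟩⁻¹ := rfl
          have e2 : (⟨g * x⁻¹ * g⁻¹, conj_Kc g (inv_mem hx)⟩ : Kc g E.1) =
              ⟨g * x * g⁻¹, conj_Kc g hx⟩⁻¹ := by
            apply Subtype.ext
            show g * x⁻¹ * g⁻¹ = (g * x * g⁻¹)⁻¹
            group
          rw [e1, e2, map_inv, map_inv, mul_inv_eq_iff_eq_mul, mul_assoc, ih,
            inv_mul_cancel_left]
      rintro ⟨⟨x, hxK⟩, hx⟩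
      exact key x hx
    refine hhnn C hC (Kc g E.1) P (Ac g E.1) (cmap g E.1).range (piso g E.1)
      (HNNExtension.lift f p hrel) ?_ hCP
    intro x y hxy
    apply hf
    have h1 : HNNExtension.lift f p hrel (HNNExtension.of x) =
      HNNExtension.lift f p hrel (HNNExtension.of y) := hxy
    rwa [HNNExtension.lift_of, HNNExtension.lift_of] at h1

end Pool.Agent.X176.FJ
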