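import Mathlib
import Pool.Agent.X176.FJ.Col
import Pool.Agent.Y529.FJ.Ext
import Pool.Agent.Y961.FJ.Perm

/-!
The criterion for extensions whose kernel is acted on by locally realizable partial isomorphisms.
-/

set_option autoImplicit false

namespace Pool.Agent.X176.FJ

open Pool.Agent.Y110.FJ
open Pool.Agent.Y462.SS (Closed)

/-- groups all of whose finitely generated subgroups are in the class -/
theorem c_loc {C : ∀ (G : Type) [Group G], Prop} (hC : Closed C) {G : Type} [Group G]
    (h : ∀ E : Set G, E.Finite → C (Subgroup.closure E)) : C G := by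
  have : Nonempty {E : Set G // E.Finite} := ⟨⟨∅, Set.finite_empty⟩⟩
  refine hC.colim {E : Set G // E.Finite} (fun E F => ⟨⟨E.1 ∪ F.1, E.2.union F.2⟩,
    Set.subset_union_left, Set.subset_union_right⟩)
    (fun E => Subgroup.closure E.1) (fun E F h => Subgroup.inclusion (Subgroup.closure_mono h)) G
    (fun E => (Subgroup.closure E.1).subtype) ?_ ?_ ?_ ?_ ?_ ?_
  · intro E h x; rfl
  · intro E F F' h h' x; rfl
  · intro E F h x; rfl
  · intro y
    exact ⟨⟨{y}, Set.finite_singleton y⟩, ⟨y, Subgroup.subset_closure rfl⟩, rfl⟩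
  · intro E x hx
    refine ⟨E, le_refl E, ?_⟩
    exact Subtype.ext hx
  · intro E
    exact h E.1 E.2

theorem t_crit (hext : S_EXT) (hcol : S_COL) : S_CRIT := by
  intro C hC G _ N _ hQ hreal
  refine hext C hC G N ?_ hQ fun g hg => hcol C hC G N g hg (hreal g)
  apply c_loc hC.base
  intro E hE
  have hE' : ((Subtype.val : N → G) '' E).Finite := hE.image _
  have hsub : ((Subtype.val : N → G) '' E) ⊆ N := by rintro _ ⟨x, -, rfl⟩; exact x.2
  obtain ⟨P, _, f, p, hCP, hf, -⟩ := hreal 1 _ hE' hsub
  have hmem : ∀ x : Subgroup.closure E, ((x : N) : G) ∈ Subgroup.closure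
      ((Subtype.val : N → G) '' E ∪ (fun x => (1 : G) * x * 1⁻¹) '' ((Subtype.val : N → G) '' E)) := by
    intro x
    apply Subgroup.closure_mono Set.subset_union_left
    have h1 : ((Subgroup.closure E).map N.subtype) = Subgroup.closure (N.subtype '' E) :=
      MonoidHom.map_closure _ _
    have h2 : ((x : N) : G) ∈ (Subgroup.closure E).map N.subtype := ⟨x, x.2, rfl⟩
    rw [h1] at h2
    exact h2
  let j : Subgroup.closure E →* Subgroup.closure
      ((Subtype.val : N → G) '' E ∪ (fun x => (1 : G) * x * 1⁻¹) '' ((Subtype.val : N → G) '' E)) :=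
    { toFun := fun x => ⟨((x : N) : G), hmem x⟩
      map_one' := rfl
      map_mul' := fun _ _ => rfl }
  have hj : Function.Injective j := by
    intro x y h
    apply Subtype.ext
    apply Subtype.ext
    have h1 : ((j x : _) : G) = j y := congrArg Subtype.val h
    exact h1
  exact hC.base.of_injective _ P (f.comp j) (hf.comp hj) hCP

/-- the semidirect product of `N` and `ℤ` for an automorphism of finite order modulo inner ones -/
theorem c_torsion {C : ∀ (G : Type) [Group G], Prop} (hC : Closed C) {N : Type} [Group N]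
    (hN : C N) (σ : MulAut N) (k : ℕ) (hk : 0 < k) (n : N) (h : σ ^ k = MulAut.conj n) :
    C (N ⋊[zpowersHom (MulAut N) σ] Multiplicative ℤ) := by
  let φ := zpowersHom (MulAut N) σ
  let K : Subgroup (N ⋊[φ] Multiplicative ℤ) :=
    (Subgroup.zpowers (Multiplicative.ofAdd (k : ℤ))).comap SemidirectProduct.rightHom
  have hfi : K.FiniteIndex := by
    refine ⟨?_⟩
    rw [Subgroup.index_comap_of_surjective _ SemidirectProduct.rightHom_surjective]
    have h1 : (Subgroup.zpowers (Multiplicative.ofAdd (k : ℤ))).index ≠ 0 := by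
      have h2 := Int.index_zmultiples (k : ℤ)
      have h3 : (Subgroup.zpowers (Multiplicative.ofAdd (k : ℤ))).index =
          (AddSubgroup.zmultiples (k : ℤ)).index := rfl
      rw [h3, h2]
      simpa using hk.ne'
    exact h1
  refine hC.finiteIndex _ K hfi ?_
  -- the central element
  let z : N ⋊[φ] Multiplicative ℤ := ⟨n⁻¹, Multiplicative.ofAdd (k : ℤ)⟩
  have hφk : φ (Multiplicative.ofAdd (k : ℤ)) = MulAut.conj n := by
    show σ ^ (k : ℤ) = _
    rw [zpow_natCast, h]
  have hcomm : ∀ x : N, z * SemidirectProduct.inl x = SemidirectProduct.inl x * z := by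
    intro x
    apply SemidirectProduct.ext
    · simp only [SemidirectProduct.mul_left, SemidirectProduct.left_inl,
        SemidirectProduct.right_inl, z, hφk, map_one, MulAut.one_apply, MulAut.conj_apply]
      group
    · simp [z]
  let ψ : N × Multiplicative ℤ →* N ⋊[φ] Multiplicative ℤ :=
    MonoidHom.noncommCoprod SemidirectProduct.inl (zpowersHom _ z) (by
      intro x m
      show SemidirectProduct.inl x * z ^ (Multiplicative.toAdd m) =
        z ^ (Multiplicative.toAdd m) * SemidirectProduct.inl x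
      exact (show Commute z (SemidirectProduct.inl x) from hcomm x).zpow_left _ |>.symm.eq)
  have hψ : ∀ x m, ψ (x, m) = SemidirectProduct.inl x * z ^ (Multiplicative.toAdd m) := by
    intro x m
    rfl
  have hzr : ∀ m : ℤ, (z ^ m).right = Multiplicative.ofAdd ((k : ℤ) * m) := by
    intro m
    have : SemidirectProduct.rightHom (z ^ m) = (Multiplicative.ofAdd (k : ℤ)) ^ m := by
      rw [map_zpow]; rfl
    rw [← Int.ofAdd_mul] at this
    exact this
  have hrange : ψ.range = K := by
    ext w
    constructor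
    · rintro ⟨⟨x, m⟩, rfl⟩
      show SemidirectProduct.rightHom (ψ (x, m)) ∈ Subgroup.zpowers _
      rw [hψ, map_mul, SemidirectProduct.rightHom_inl, one_mul, map_zpow]
      exact Subgroup.zpow_mem_zpowers _ _
    · intro hw
      obtain ⟨m, hm⟩ := Subgroup.mem_zpowers_iff.1 hw
      have hm' : (Multiplicative.ofAdd (k : ℤ)) ^ m = w.right := hm
      refine ⟨(w.left * ((z ^ m).left)⁻¹, Multiplicative.ofAdd m), ?_⟩
      rw [hψ]
      apply SemidirectProduct.ext
      · simp [SemidirectProduct.mul_left]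
      · show 1 * (z ^ m).right = w.right
        rw [one_mul, hzr, ← hm', ← Int.ofAdd_mul]
  have hinj : Function.Injective ψ := by
    rw [injective_iff_map_eq_one]
    rintro ⟨x, m⟩ hxm
    rw [hψ] at hxm
    have h1 := congrArg SemidirectProduct.right hxm
    have h2 : Multiplicative.ofAdd ((k : ℤ) * Multiplicative.toAdd m) = 1 := by
      rw [← hzr]
      simpa using h1
    have h3 : (k : ℤ) * Multiplicative.toAdd m = 0 := congrArg Multiplicative.toAdd h2
    have h4 : Multiplicative.toAdd m = 0 := by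
      rcases mul_eq_zero.1 h3 with h5 | h5
      · exfalso; omega
      · exact h5
    rw [h4, zpow_zero, mul_one] at hxm
    have h5 : x = 1 := SemidirectProduct.inl_injective (hxm.trans (map_one _).symm)
    exact Prod.ext h5 h4
  have hCr : C ψ.range := by
    have e : N × Multiplicative ℤ ≃* ψ.range := MonoidHom.ofInjective hinj
    exact hC.of_injective _ _ e.symm.toMonoidHom e.symm.injective (hC.prod _ _ hN hC.int)
  rw [hrange] at hCr
  exact hCr

theorem t_inn (hcrit : S_CRIT) : S_INN := by
  intro C hC G _ N _ hN hQ h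
  refine hcrit C hC G N hQ fun g E hE hEN => ?_
  obtain ⟨σ, k, n, hk, hσ, hx⟩ := h g (Subtype.val ⁻¹' E) (hE.preimage Subtype.val_injective.injOn)
  have hle : Subgroup.closure (E ∪ (fun x => g * x * g⁻¹) '' E) ≤ N := by
    rw [Subgroup.closure_le]
    rintro x (hx | ⟨y, hy, rfl⟩)
    · exact hEN hx
    · exact Subgroup.Normal.conj_mem inferInstance _ (hEN hy) g
  refine ⟨N ⋊[zpowersHom (MulAut N) σ] Multiplicative ℤ, inferInstance,
    SemidirectProduct.inl.comp (Subgroup.inclusion hle),
    SemidirectProduct.inr (Multiplicative.ofAdd 1), c_torsion hC.base hN σ k hk n hσ,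
    SemidirectProduct.inl_injective.comp (Subgroup.inclusion_injective hle), ?_⟩
  intro x y hxE hy
  have h1 : Subgroup.inclusion hle y = σ (Subgroup.inclusion hle x) := by
    apply Subtype.ext
    rw [hx (Subgroup.inclusion hle x) hxE]
    exact hy
  have h2 : (zpowersHom (MulAut N) σ) (Multiplicative.ofAdd 1) = σ := by simp
  have h3 := SemidirectProduct.inl_aut (φ := zpowersHom (MulAut N) σ) (Multiplicative.ofAdd 1)
    (Subgroup.inclusion hle x)
  rw [h2, ← h1, map_inv] at h3
  exact h3

/-- a permutation agrees on a finite set with one of finite order -/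
theorem exists_fin_perm {Ω : Type} (π : Equiv.Perm Ω) (S : Set Ω) (hS : S.Finite) :
    ∃ (τ : Equiv.Perm Ω) (k : ℕ), 0 < k ∧ τ ^ k = 1 ∧ ∀ s ∈ S, τ s = π s := by
  classical
  let T : Set Ω := S ∪ π '' S
  have hT : T.Finite := hS.union (hS.image _)
  have := hT.fintype
  let e : {x : T // (x : Ω) ∈ S} ≃ {x : T // (x : Ω) ∈ π '' S} :=
    { toFun := fun x => ⟨⟨π x.1.1, Or.inr ⟨_, x.2, rfl⟩⟩, ⟨_, x.2, rfl⟩⟩
      invFun := fun x => ⟨⟨π.symm x.1.1, Or.inl (by
        obtain ⟨y, hy, hyx⟩ := x.2
        rw [← hyx, Equiv.symm_apply_apply]; exact hy)⟩, (by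
        obtain ⟨y, hy, hyx⟩ := x.2
        show π.symm x.1.1 ∈ S
        rw [← hyx, Equiv.symm_apply_apply]; exact hy)⟩
      left_inv := fun x => by
        apply Subtype.ext; apply Subtype.ext; simp
      right_inv := fun x => by
        apply Subtype.ext; apply Subtype.ext; simp }
  let ρ : Equiv.Perm T := e.extendSubtype
  let τ : Equiv.Perm Ω := Equiv.Perm.ofSubtype ρ
  refine ⟨τ, orderOf ρ, orderOf_pos ρ, ?_, ?_⟩
  · rw [← map_pow, pow_orderOf_eq_one, map_one]
  · intro s hs
    have h1 : τ s = ρ ⟨s, Or.inl hs⟩ := Equiv.Perm.ofSubtype_apply_coe ρ ⟨s, Or.inl hs⟩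
    rw [h1]
    have h2 := Equiv.extendSubtype_apply_of_mem e ⟨s, Or.inl hs⟩ hs
    show ((e.extendSubtype ⟨s, Or.inl hs⟩ : T) : Ω) = π s
    rw [h2]
    rfl

theorem conj_mul_pow {N : Type} [Group N] (n : N) (σ : MulAut N) (k : ℕ) :
    ∃ m : N, (MulAut.conj n * σ) ^ k = MulAut.conj m * σ ^ k := by
  induction k with
  | zero => exact ⟨1, by simp⟩
  | succ k ih =>
    obtain ⟨m, hm⟩ := ih
    refine ⟨m * (σ ^ k) n, ?_⟩
    rw [pow_succ, hm, pow_succ]
    have : σ ^ k * MulAut.conj n = MulAut.conj ((σ ^ k) n) * σ ^ k := by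
      ext x
      simp only [MulAut.mul_apply, MulAut.conj_apply, map_mul, map_inv]
    rw [map_mul, mul_assoc, ← mul_assoc (σ ^ k), this]
    simp only [mul_assoc]

theorem t_nom (hinn : S_INN) : S_NOM := by
  intro C hC Ω N Q _ _ α ρ hfin hN hQ
  let G := N ⋊[α.comp ρ] Q
  let N' : Subgroup G := (SemidirectProduct.inl : N →* G).range
  have hN'eq : N' = (SemidirectProduct.rightHom : G →* Q).ker :=
    SemidirectProduct.range_inl_eq_ker_rightHom
  have hnorm : N'.Normal := by rw [hN'eq]; infer_instance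
  let eN : N ≃* N' := MonoidHom.ofInjective SemidirectProduct.inl_injective
  have heN : ∀ n : N, ((eN n : N') : G) = SemidirectProduct.inl n := fun n => rfl
  have hCN' : C N' := hC.base.of_injective _ _ eN.symm.toMonoidHom eN.symm.injective hN
  have hCQ' : C (G ⧸ N') := by
    have e1 : G ⧸ N' ≃* G ⧸ (SemidirectProduct.rightHom : G →* Q).ker :=
      QuotientGroup.quotientMulEquivOfEq hN'eq
    have e2 : G ⧸ (SemidirectProduct.rightHom : G →* Q).ker ≃* Q :=
      QuotientGroup.quotientKerEquivOfSurjective _ SemidirectProduct.rightHom_surjective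
    exact hC.base.of_injective _ _ (e1.trans e2).toMonoidHom (e1.trans e2).injective hQ
  refine hinn C hC G N' hCN' hCQ' fun g E hE => ?_
  choose S hS1 hS2 using hfin
  let T : Set Ω := ⋃ x ∈ E, S (eN.symm x)
  have hT : T.Finite := hE.biUnion fun x _ => hS1 _
  obtain ⟨τ, k, hk, hτk, hτ⟩ := exists_fin_perm (ρ g.right) T hT
  obtain ⟨m, hm⟩ := conj_mul_pow g.left (α τ) k
  rw [← map_pow, hτk, map_one, mul_one] at hm
  let σ : MulAut N := MulAut.conj g.left * α τ
  refine ⟨MulAut.congr eN σ, k, eN m, hk, ?_, ?_⟩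
  · rw [← map_pow]
    show MulAut.congr eN (σ ^ k) = _
    rw [hm]
    apply MulEquiv.ext
    intro x
    obtain ⟨y, rfl⟩ := eN.surjective x
    show eN (m * (eN.symm (eN y)) * m⁻¹) = eN m * eN y * (eN m)⁻¹
    rw [MulEquiv.symm_apply_apply, map_mul, map_mul, map_inv]
  · intro x hx
    obtain ⟨n, rfl⟩ := eN.surjective x
    have h1 : (MulAut.congr eN σ) (eN n) = eN (σ n) := by simp [MulAut.congr]
    rw [h1, heN, heN]
    have h2 : α τ n = α (ρ g.right) n := by
      have h3 : ∀ s ∈ S n, ((ρ g.right)⁻¹ * τ) s = s := by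
        intro s hs
        have hsT : s ∈ T := by
          apply Set.mem_biUnion hx
          rw [MulEquiv.symm_apply_apply]; exact hs
        rw [Equiv.Perm.mul_apply, hτ s hsT]
        simp
      have h4 := hS2 n _ h3
      rw [map_mul, MulAut.mul_apply, map_inv] at h4
      have h5 := congrArg (α (ρ g.right)) h4
      rwa [MulAut.apply_inv_self] at h5
    have h6 := SemidirectProduct.inl_aut (φ := α.comp ρ) g.right n
    have h7 : (SemidirectProduct.inl (σ n) : G) = SemidirectProduct.inl g.left *
        SemidirectProduct.inl (α.comp ρ g.right n) * (SemidirectProduct.inl g.left)⁻¹ := by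
      rw [← map_inv, ← map_mul, ← map_mul]
      show SemidirectProduct.inl (g.left * (α τ n) * (g.left)⁻¹) = _
      rw [h2]
      rfl
    rw [h7, h6]
    conv_rhs => rw [← SemidirectProduct.inl_left_mul_inr_right g]
    rw [map_inv]
    group

theorem hnn : S_HNN := t_hnn (Pool.Agent.Y961.FJ.t_perm Pool.Agent.Y529.FJ.t_ext)
theorem col : S_COL := t_col hnn
theorem crit : S_CRIT := t_crit Pool.Agent.Y529.FJ.t_ext col
theorem inn : S_INN := t_inn crit
theorem nom : S_NOM := t_nom inn

end Pool.Agent.X176.FJ
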