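import Mathlib
import Pool.Agent.X176.FJ.Crit
import Pool.Agent.Y812.SS.Wr

/-!
Semidirect products `N ⋊ Γ` for groups `N` with retractions `e_S` indexed by the subsets of a
`Γ`-set.
-/

set_option autoImplicit false

namespace Pool.Agent.X176.FJ

open Pool.Agent.Y110.FJ
open Pool.Agent.Y462.SS (Closed Wr)
open scoped Pointwise

/-- A group `N` with an action of `Γ` and endomorphisms `e S` for the subsets `S` of a `Γ`-set `V`
with `e_S e_T = e_{S ∩ T}` and `γ e_S = e_{γ S} γ`, such that each element is fixed by `e_S` for some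
finite `S`. -/
structure RSys (Γ N V : Type) [Group Γ] [Group N] [MulAction Γ V] where
  /-- The action. -/
  φ : Γ →* MulAut N
  /-- The endomorphisms. -/
  e : Set V → (N →* N)
  inter : ∀ (S T : Set V) (n : N), e S (e T n) = e (S ∩ T) n
  equivariant : ∀ (γ : Γ) (S : Set V) (n : N), φ γ (e S n) = e (γ • S) (φ γ n)
  finite : ∀ n : N, ∃ S : Set V, S.Finite ∧ e S n = n

/-- An element of `Γ` which preserves a finite set `D` has a positive power which acts on the image
of `e_D` as an inner automorphism of `N`. -/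
def RSys.Tame {Γ N V : Type} [Group Γ] [Group N] [MulAction Γ V] (s : RSys Γ N V) : Prop :=
  ∀ (γ : Γ) (D : Set V), D.Finite → γ • D = D →
    ∃ k : ℕ, 0 < k ∧ ∃ m : N, ∀ n : N, s.φ (γ ^ k) (s.e D n) = m * s.e D n * m⁻¹

section

variable {Γ N V : Type} [Group Γ] [Group N] [MulAction Γ V] (s : RSys Γ N V)

/-- the partial maps -/
def um (γ : Γ) (S : Set V) : N →* N := (s.φ γ).toMonoidHom.comp (s.e S)

theorem um_apply (γ : Γ) (S : Set V) (n : N) : um s γ S n = s.φ γ (s.e S n) := rfl

/-- iterates -/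
def uit (γ : Γ) (S : Set V) : ℕ → (N →* N)
  | 0 => MonoidHom.id N
  | i + 1 => (uit γ S i).comp (um s γ S)

theorem uit_succ (γ : Γ) (S : Set V) (i : ℕ) (n : N) :
    uit s γ S (i + 1) n = uit s γ S i (um s γ S n) := rfl

/-- the domains -/
def dom (γ : Γ) (S : Set V) (i : ℕ) : Set V := {v | ∀ j ≤ i, γ ^ j • v ∈ S}

omit [Group N] in
theorem dom_succ (γ : Γ) (S : Set V) (i : ℕ) : dom γ S (i + 1) = S ∩ γ⁻¹ • dom γ S i := by
  ext v
  rw [Set.mem_inter_iff, Set.mem_inv_smul_set_iff]
  constructor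
  · intro h
    refine ⟨by simpa using h 0 (Nat.zero_le _), fun j hj => ?_⟩
    have := h (j + 1) (by omega)
    rwa [pow_succ, mul_smul] at this
  · rintro ⟨h1, h2⟩ j hj
    cases j with
    | zero => simpa using h1
    | succ j =>
      have := h2 j (by omega)
      rw [pow_succ, mul_smul]; exact this

theorem dom_zero (γ : Γ) (S : Set V) : dom γ S 0 = S := by
  ext v
  constructor
  · intro h; simpa using h 0 le_rfl
  · intro h j hj
    obtain rfl : j = 0 := by omega
    simpa using h

theorem dom_anti (γ : Γ) (S : Set V) : Antitone (dom γ S) :=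
  fun _ _ h _ hv k hk => hv k (hk.trans h)

theorem dom_le (γ : Γ) (S : Set V) (i : ℕ) : dom γ S i ⊆ S := by
  have := dom_anti γ S (Nat.zero_le i)
  rwa [dom_zero] at this

theorem uit_eq (γ : Γ) (S : Set V) (i : ℕ) (n : N) :
    uit s γ S (i + 1) n = s.φ (γ ^ (i + 1)) (s.e (dom γ S i) n) := by
  induction i generalizing n with
  | zero =>
    rw [dom_zero]
    simp [uit, um]
  | succ i ih =>
    rw [uit_succ, ih, um_apply]
    have h1 : s.e (dom γ S i) (s.φ γ (s.e S n)) = s.φ γ (s.e (γ⁻¹ • dom γ S i) (s.e S n)) := by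
      rw [s.equivariant γ (γ⁻¹ • dom γ S i), smul_inv_smul]
    rw [h1, s.inter, Set.inter_comm, ← MulAut.mul_apply, ← map_mul, ← pow_succ, ← dom_succ]

/-- the stable domain -/
def domI (γ : Γ) (S : Set V) : Set V := {v | ∀ j : ℕ, γ ^ j • v ∈ S}

theorem domI_le (γ : Γ) (S : Set V) : domI γ S ⊆ S := fun v hv => by simpa using hv 0

/-- the domains become constant -/
theorem dom_stab (γ : Γ) (S : Set V) (hS : S.Finite) :
    ∃ m, ∀ i, m ≤ i → dom γ S i = domI γ S := by
  have hfin : ∀ i, (dom γ S i).Finite := fun i => hS.subset (dom_le γ S i)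
  obtain ⟨c, ⟨m, rfl⟩, hmin⟩ := WellFounded.has_min (wellFounded_lt (α := ℕ))
    (Set.range fun i => (dom γ S i).ncard) ⟨_, 0, rfl⟩
  have hm : ∀ i, m ≤ i → dom γ S i = dom γ S m := by
    intro i hi
    apply Set.eq_of_subset_of_ncard_le (dom_anti γ S hi) _ (hfin m)
    exact not_lt.1 (hmin _ ⟨i, rfl⟩)
  refine ⟨m, fun i hi => ?_⟩
  apply Set.Subset.antisymm
  · intro v hv j
    have h1 : v ∈ dom γ S (max m j) := by
      rw [hm _ (le_max_left _ _), ← hm i hi]; exact hv
    exact h1 j (le_max_right _ _)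
  · intro v hv j _
    exact hv j

theorem domI_inv (γ : Γ) (S : Set V) (hS : S.Finite) : γ • domI γ S = domI γ S := by
  have h1 : γ • domI γ S ⊆ domI γ S := by
    rintro _ ⟨v, hv, rfl⟩ j
    have := hv (j + 1)
    rwa [pow_succ, mul_smul] at this
  exact Set.eq_of_subset_of_ncard_le h1 (by rw [Set.ncard_smul_set]) (hS.subset (domI_le γ S))

theorem zpow_smul_set (γ : Γ) (D : Set V) (h : γ • D = D) (j : ℕ) :
    γ ^ j • D = D ∧ γ⁻¹ ^ j • D = D := by
  have h' : γ⁻¹ • D = D := by conv_lhs => rw [← h, inv_smul_smul]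
  induction j with
  | zero => simp
  | succ j ih => exact ⟨by rw [pow_succ, mul_smul, h, ih.1], by rw [pow_succ, mul_smul, h', ih.2]⟩

theorem domI_inv' (γ : Γ) (S : Set V) (hS : S.Finite) : domI γ⁻¹ (γ • S) = domI γ S := by
  apply Set.Subset.antisymm
  · intro v hv j
    have hinv := domI_inv γ⁻¹ (γ • S) (hS.image _)
    have hinv' : γ • domI γ⁻¹ (γ • S) = domI γ⁻¹ (γ • S) := by
      conv_lhs => rw [← hinv, smul_inv_smul]
    have h1 : γ ^ (j + 1) • v ∈ domI γ⁻¹ (γ • S) := by
      have h2 : γ ^ (j + 1) • v ∈ γ ^ (j + 1) • domI γ⁻¹ (γ • S) := Set.smul_mem_smul_set hv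
      rwa [(zpow_smul_set γ _ hinv' (j + 1)).1] at h2
    have h3 := h1 0
    rw [pow_zero, one_smul, pow_succ', mul_smul] at h3
    exact (Set.smul_mem_smul_set_iff).1 h3
  · intro v hv j
    have hinv := domI_inv γ S hS
    have h1 : γ⁻¹ ^ j • v ∈ domI γ S := by
      have h2 : γ⁻¹ ^ j • v ∈ γ⁻¹ ^ j • domI γ S := Set.smul_mem_smul_set hv
      rwa [(zpow_smul_set γ _ hinv j).2] at h2
    rw [← hinv] at h1
    exact Set.smul_set_mono (domI_le γ S) h1

/-- powers of an element acting as an inner automorphism -/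
theorem tame_pow (δ : Γ) (D : Set V) (m : N)
    (h : ∀ n : N, s.φ δ (s.e D n) = m * s.e D n * m⁻¹) (j : ℕ) :
    ∃ m' : N, ∀ n : N, s.φ (δ ^ j) (s.e D n) = m' * s.e D n * m'⁻¹ := by
  induction j with
  | zero => exact ⟨1, fun n => by simp⟩
  | succ j ih =>
    obtain ⟨m', hm'⟩ := ih
    refine ⟨s.φ δ m' * m, fun n => ?_⟩
    rw [pow_succ', map_mul, MulAut.mul_apply, hm', map_mul, map_mul, map_inv, h]
    group

end

/-- **conjugation by an element of `Γ` is realized in a finite wreath product.** -/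
theorem supp_realized {C : ∀ (G : Type) [Group G], Prop} (hC : Closed C) {Γ N V : Type} [Group Γ]
    [Group N] [MulAction Γ V] (s : RSys Γ N V) (ht : s.Tame) (hN : C N) (γ : Γ) (S : Set V)
    (hS : S.Finite) : ∃ (P : Type) (_ : Group P) (f : N →* P) (p : P), C P ∧
      Function.Injective f ∧ ∀ n : N, s.e S n = n → f (s.φ γ n) = p * f n * p⁻¹ := by
  classical
  obtain ⟨m1, hm1⟩ := dom_stab γ S hS
  obtain ⟨m2, hm2⟩ := dom_stab γ⁻¹ (γ • S) (hS.image _)
  rw [domI_inv' γ S hS] at hm2
  have hDinv := domI_inv γ S hS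
  obtain ⟨k, hk, m, hm⟩ := ht γ (domI γ S) (hS.subset (domI_le γ S)) hDinv
  set D : Set V := domI γ S
  set M : ℕ := (m1 + m2 + 1) * k with hM
  have hMpos : m1 + m2 + 1 ≤ M := Nat.le_mul_of_pos_right _ hk
  obtain ⟨m', hm'⟩ := tame_pow s (γ ^ k) D m hm (2 * (m1 + m2 + 1))
  have hpow : (γ ^ k) ^ (2 * (m1 + m2 + 1)) = γ ^ (2 * M) := by
    rw [← pow_mul, hM]; congr 1; ring
  rw [hpow] at hm'
  -- the maps
  let F : ℕ → (N →* N) := fun j =>
    if j ≤ M then uit s γ⁻¹ (γ • S) (M - j) else uit s γ S (j - M)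
  have hFlow : ∀ j, j ≤ M → F j = uit s γ⁻¹ (γ • S) (M - j) := fun j hj => if_pos hj
  have hFhigh : ∀ j, M ≤ j → F j = uit s γ S (j - M) := by
    intro j hj
    rcases hj.eq_or_lt with h | h
    · subst h
      rw [hFlow M le_rfl, Nat.sub_self]
      rfl
    · exact if_neg (by omega)
  have hstep : ∀ j (n : N), s.e S n = n → F j (s.φ γ n) = F (j + 1) n := by
    intro j n hn
    by_cases hj : j < M
    · rw [hFlow j hj.le, hFlow (j + 1) hj]
      have e1 : M - j = (M - (j + 1)) + 1 := by omega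
      rw [e1, uit_succ, um_apply, ← s.equivariant, hn, ← MulAut.mul_apply, ← map_mul,
        inv_mul_cancel, map_one]
      rfl
    · push Not at hj
      rw [hFhigh j hj, hFhigh (j + 1) (by omega)]
      have e1 : j + 1 - M = (j - M) + 1 := by omega
      rw [e1, uit_succ, um_apply, hn]
  have h0 : ∀ n, F 0 n = s.φ (γ⁻¹ ^ M) (s.e D n) := by
    intro n
    rw [hFlow 0 (Nat.zero_le _), Nat.sub_zero]
    obtain ⟨M', hM'⟩ : ∃ M', M = M' + 1 := ⟨M - 1, by omega⟩
    rw [hM', uit_eq, hm2 M' (by omega)]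
  have h2 : ∀ n, F (2 * M) n = s.φ (γ ^ M) (s.e D n) := by
    intro n
    rw [hFhigh (2 * M) (by omega)]
    obtain ⟨M', hM'⟩ : ∃ M', M = M' + 1 := ⟨M - 1, by omega⟩
    have e1 : 2 * M - M = M' + 1 := by omega
    rw [e1, uit_eq, hm1 M' (by omega), ← hM']
  have hwrap : ∀ n, F (2 * M) n = m' * F 0 n * m'⁻¹ := by
    intro n
    rw [h2, h0]
    have e1 : s.φ (γ⁻¹ ^ M) (s.e D n) = s.e D (s.φ (γ⁻¹ ^ M) n) := by
      rw [s.equivariant, (zpow_smul_set γ D hDinv M).2]
    rw [e1, ← hm', ← e1, ← MulAut.mul_apply, ← map_mul]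
    congr 2
    congr 1
    rw [two_mul, pow_add, inv_pow, mul_inv_cancel_right]
  obtain ⟨L, hL⟩ : ∃ L, 2 * M = L + 1 := ⟨2 * M - 1, by omega⟩
  let f : N →* Wr (Fin (L + 1)) N :=
    { toFun := fun n => ⟨fun j => F j n, 1⟩
      map_one' := by
        apply Wr.ext
        · funext j; exact map_one _
        · rfl
      map_mul' := fun a b => by
        apply Wr.ext
        · funext j; exact map_mul _ _ _
        · rfl }
  have hfs : ∀ n j, (f n).s j = F j n := fun _ _ => rfl
  have hfp : ∀ n, (f n).p = 1 := fun _ => rfl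
  let p : Wr (Fin (L + 1)) N := ⟨fun j => if j = 0 then m' else 1, (finRotate (L + 1))⁻¹⟩
  refine ⟨Wr (Fin (L + 1)) N, inferInstance, f, p,
    Pool.Agent.Y812.SS.t_wr C hC _ _ inferInstance hN, ?_, ?_⟩
  · intro a b hab
    have h3 : F M a = F M b := by
      have h4 := congrFun (congrArg Wr.s hab) ⟨M, by omega⟩
      exact h4
    rw [hFlow M le_rfl, Nat.sub_self] at h3
    exact h3
  · intro n hn
    have hinv : p.p⁻¹ = finRotate (L + 1) := inv_inv _
    apply Wr.ext
    · funext y
      rw [Wr.mul_s, Wr.mul_s, Wr.inv_p, Wr.inv_s, hinv, hfp, Equiv.Perm.one_apply, hfs, hfs]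
      rw [hstep y n hn]
      by_cases hy : (y : ℕ) < L
      · have e1 : finRotate (L + 1) y = ⟨y + 1, Nat.succ_lt_succ hy⟩ := by
          have := finRotate_of_lt (n := L) (k := y) hy
          simpa using this
        rw [e1]
        have e2 : p.s ⟨y + 1, Nat.succ_lt_succ hy⟩ = 1 := by
          show (if (⟨y + 1, Nat.succ_lt_succ hy⟩ : Fin (L + 1)) = 0 then m' else 1) = 1
          apply if_neg
          intro h
          have := congrArg Fin.val h
          simp at this
        rw [e2]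
        simp
      · have e0 : y = Fin.last L := by
          apply Fin.ext
          have := y.2
          simp only [Fin.val_last]
          omega
        have e1 : finRotate (L + 1) y = 0 := by rw [e0, finRotate_last]
        rw [e1]
        have e2 : p.s 0 = m' := by
          show (if (0 : Fin (L + 1)) = 0 then m' else 1) = m'
          exact if_pos rfl
        have e3 : (y : ℕ) + 1 = 2 * M := by rw [e0, Fin.val_last, hL]
        rw [e2, e3, hwrap]
        rfl
    · rw [Wr.mul_p, Wr.mul_p, Wr.inv_p, hfp, hfp, mul_one, mul_inv_cancel]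

theorem conj_left {N Γ : Type} [Group N] [Group Γ] (φ : Γ →* MulAut N) (g x : N ⋊[φ] Γ)
    (hx : x.right = 1) : (g * x * g⁻¹).left = g.left * φ g.right x.left * g.left⁻¹ := by
  simp only [SemidirectProduct.mul_left, SemidirectProduct.mul_right, SemidirectProduct.inv_left,
    hx, mul_one, map_inv, MulAut.apply_inv_self]

/-- **semidirect products with systems of retractions** -/
theorem supp {C : ∀ (G : Type) [Group G], Prop} (hC : ClosedE C) {Γ N V : Type} [Group Γ]
    [Group N] [MulAction Γ V] (s : RSys Γ N V) (ht : s.Tame) (hN : C N) (hΓ : C Γ) :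
    C (N ⋊[s.φ] Γ) := by
  let G := N ⋊[s.φ] Γ
  let N' : Subgroup G := (SemidirectProduct.inl : N →* G).range
  have hN'eq : N' = (SemidirectProduct.rightHom : G →* Γ).ker :=
    SemidirectProduct.range_inl_eq_ker_rightHom
  have hnorm : N'.Normal := by rw [hN'eq]; infer_instance
  have hCQ' : C (G ⧸ N') := by
    have e1 : G ⧸ N' ≃* G ⧸ (SemidirectProduct.rightHom : G →* Γ).ker :=
      QuotientGroup.quotientMulEquivOfEq hN'eq
    have e2 : G ⧸ (SemidirectProduct.rightHom : G →* Γ).ker ≃* Γ :=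
      QuotientGroup.quotientKerEquivOfSurjective _ SemidirectProduct.rightHom_surjective
    exact hC.base.of_injective _ _ (e1.trans e2).toMonoidHom (e1.trans e2).injective hΓ
  refine crit C hC G N' hCQ' fun g E hE hEN => ?_
  -- the supports
  choose S hS1 hS2 using s.finite
  let T : Set V := ⋃ x ∈ E, S x.left
  have hT : T.Finite := hE.biUnion fun x _ => hS1 _
  have hTE : ∀ x ∈ E, s.e T x.left = x.left := by
    intro x hx
    have h1 : T ∩ S x.left = S x.left :=
      Set.inter_eq_right.2 (Set.subset_biUnion_of_mem (u := fun x : G => S x.left) hx)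
    conv_lhs => rw [← hS2 x.left, s.inter, h1]
    exact hS2 _
  obtain ⟨P, _, f, p, hCP, hf, hfp⟩ := supp_realized hC.base s ht hN g.right T hT
  have hle : Subgroup.closure (E ∪ (fun x => g * x * g⁻¹) '' E) ≤ N' := by
    rw [Subgroup.closure_le]
    rintro x (hx | ⟨y, hy, rfl⟩)
    · exact hEN hx
    · exact Subgroup.Normal.conj_mem hnorm _ (hEN hy) g
  have hr : ∀ x : N', (x : G).right = 1 := by
    rintro ⟨_, n, rfl⟩
    rfl
  let q : N' →* N :=
    { toFun := fun x => (x : G).left
      map_one' := rfl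
      map_mul' := fun a b => by
        show ((a : G) * b).left = _
        rw [SemidirectProduct.mul_left, hr a, map_one]
        rfl }
  have hq : Function.Injective q := by
    intro a b hab
    apply Subtype.ext
    apply SemidirectProduct.ext
    · exact hab
    · rw [hr, hr]
  refine ⟨P, inferInstance, (f.comp q).comp (Subgroup.inclusion hle), f g.left * p, hCP,
    (hf.comp hq).comp (Subgroup.inclusion_injective hle), ?_⟩
  intro x y hxE hy
  have h1 : (y : G).left = g.left * s.φ g.right (x : G).left * g.left⁻¹ := by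
    have hxr : (x : G).right = 1 := hr ⟨x, hle x.2⟩
    rw [hy]
    exact conj_left s.φ g x hxr
  show f (y : G).left = f g.left * p * f (x : G).left * (f g.left * p)⁻¹
  rw [h1, map_mul, map_mul, map_inv, hfp _ (hTE _ hxE)]
  group

end Pool.Agent.X176.FJ
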