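import Mathlib
import Pool.Agent.X176.FJ.Supp
import Pool.Agent.Y483.PW.Loc

/-!
Groups with retractions which are amalgamated products along pairs of indices which are not linked.
-/

set_option autoImplicit false

namespace Pool.Agent.X176.FJ

open Pool.Agent.Y110.FJ
open Pool.Agent.Y462.SS (Closed Wr)
open scoped Pointwise

theorem am : S_AM := Pool.Agent.Y417.FJ.t_am (Pool.Agent.Y961.FJ.t_perm Pool.Agent.Y529.FJ.t_ext)

section

variable {N V : Type} [Group N] (e : Set V → (N →* N))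

theorem range_le (hi : ∀ (S T : Set V) (n : N), e S (e T n) = e (S ∩ T) n) {S T : Set V}
    (h : S ⊆ T) : (e S).range ≤ (e T).range := by
  rintro _ ⟨n, rfl⟩
  exact ⟨e S n, by rw [hi, Set.inter_eq_right.2 h]⟩

theorem fix_range (hi : ∀ (S T : Set V) (n : N), e S (e T n) = e (S ∩ T) n) {S T : Set V}
    (h : S ⊆ T) {x : N} (hx : x ∈ (e S).range) : e T x = x := by
  obtain ⟨n, rfl⟩ := hx
  rw [hi, Set.inter_eq_right.2 h]

/-- the restriction of the amalgamated decomposition -/
theorem amg_res (hi : ∀ (S T : Set V) (n : N), e S (e T n) = e (S ∩ T) n) (A B K S : Set V)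
    (hAmg : Amg (e A).range (e B).range (e K).range) (hK : K = A ∩ B) :
    Amg ((e (S ∩ A)).range.subgroupOf (e S).range) ((e (S ∩ B)).range.subgroupOf (e S).range)
      ((e (S ∩ K)).range.subgroupOf (e S).range) where
  le_left := by
    intro x hx
    exact range_le e hi (Set.inter_subset_inter_right S (by rw [hK]; exact Set.inter_subset_left)) hx
  le_right := by
    intro x hx
    exact range_le e hi (Set.inter_subset_inter_right S (by rw [hK]; exact Set.inter_subset_right)) hx
  gen := by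
    have h1 : ((e A).range ⊔ (e B).range).map (e S).rangeRestrict =
        (⊤ : Subgroup N).map (e S).rangeRestrict := by rw [hAmg.gen]
    rw [Subgroup.map_sup, Subgroup.map_top_of_surjective _ (e S).rangeRestrict_surjective] at h1
    rw [eq_top_iff, ← h1]
    have key : ∀ D : Set V, (e D).range.map (e S).rangeRestrict ≤
        (e (S ∩ D)).range.subgroupOf (e S).range := by
      rintro D _ ⟨_, ⟨n, rfl⟩, rfl⟩
      refine ⟨n, ?_⟩
      show e (S ∩ D) n = e S (e D n)
      rw [hi]
    exact sup_le_sup (key A) (key B)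
  univ := by
    intro H _ f g hfg
    have hm : ∀ (D : Set V) (x : (e D).range), (e S).rangeRestrict (x : N) ∈
        (e (S ∩ D)).range.subgroupOf (e S).range := by
      rintro D ⟨_, n, rfl⟩
      refine ⟨n, ?_⟩
      show e (S ∩ D) n = e S (e D n)
      rw [hi]
    let rD : ∀ D : Set V, (e D).range →* (e (S ∩ D)).range.subgroupOf (e S).range := fun D =>
      { toFun := fun x => ⟨(e S).rangeRestrict (x : N), hm D x⟩
        map_one' := by
          apply Subtype.ext
          exact map_one _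
        map_mul' := fun a b => by
          apply Subtype.ext
          exact map_mul _ _ _ }
    obtain ⟨h, hA, hB⟩ := hAmg.univ H (f.comp (rD A)) (g.comp (rD B)) (by
      intro c hc
      have h2 : (e S).rangeRestrict c ∈ (e (S ∩ K)).range.subgroupOf (e S).range := hm K ⟨c, hc⟩
      exact hfg ((e S).rangeRestrict c) h2)
    refine ⟨h.comp (e S).range.subtype, ?_, ?_⟩
    · rintro ⟨⟨x, hxS⟩, hxA⟩
      have hx1 : x ∈ (e (S ∩ A)).range := hxA
      have hx2 : x ∈ (e A).range := range_le e hi Set.inter_subset_right hx1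
      have h3 := hA ⟨x, hx2⟩
      have h4 : rD A ⟨x, hx2⟩ = ⟨⟨x, hxS⟩, hxA⟩ := by
        apply Subtype.ext
        apply Subtype.ext
        exact fix_range e hi subset_rfl hxS
      show h x = _
      rw [h3, MonoidHom.comp_apply, h4]
    · rintro ⟨⟨x, hxS⟩, hxB⟩
      have hx1 : x ∈ (e (S ∩ B)).range := hxB
      have hx2 : x ∈ (e B).range := range_le e hi Set.inter_subset_right hx1
      have h3 := hB ⟨x, hx2⟩
      have h4 : rD B ⟨x, hx2⟩ = ⟨⟨x, hxS⟩, hxB⟩ := by
        apply Subtype.ext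
        apply Subtype.ext
        exact fix_range e hi subset_rfl hxS
      show h x = _
      rw [h3, MonoidHom.comp_apply, h4]

/-- finite sets of indices -/
theorem clique_fin {C : ∀ (G : Type) [Group G], Prop} (hC : ClosedE C)
    (hi : ∀ (S T : Set V) (n : N), e S (e T n) = e (S ∩ T) n) (Lk : V → V → Prop)
    (hAmg : ∀ u v, u ≠ v → ¬ Lk u v → Amg (e {u}ᶜ).range (e {v}ᶜ).range (e ({u}ᶜ ∩ {v}ᶜ)).range)
    (hcl : ∀ S : Set V, S.Finite → (∀ u ∈ S, ∀ v ∈ S, u ≠ v → Lk u v) → C (e S).range)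
    (n : ℕ) : ∀ S : Set V, S.Finite → S.ncard ≤ n → C (e S).range := by
  induction n with
  | zero =>
    intro S hS hc
    have h0 : S = ∅ := (Set.ncard_eq_zero hS).1 (by omega)
    exact hcl S hS (by rw [h0]; intro u hu; exact absurd hu (Set.notMem_empty u))
  | succ n ih =>
    intro S hS hc
    by_cases hall : ∀ u ∈ S, ∀ v ∈ S, u ≠ v → Lk u v
    · exact hcl S hS hall
    · push Not at hall
      obtain ⟨u, hu, v, hv, huv, hl⟩ := hall
      have hA := amg_res e hi {u}ᶜ {v}ᶜ ({u}ᶜ ∩ {v}ᶜ) S (hAmg u v huv hl) rfl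
      have hcard : ∀ w ∈ S, (S ∩ {w}ᶜ).ncard ≤ n := by
        intro w hw
        have h1 : S ∩ {w}ᶜ = S \ {w} := rfl
        rw [h1, Set.ncard_sdiff_singleton_of_mem hw]
        omega
      have hfin : ∀ w, (S ∩ {w}ᶜ).Finite := fun w => hS.subset Set.inter_subset_left
      have hCu : C (e (S ∩ {u}ᶜ)).range := ih _ (hfin u) (hcard u hu)
      have hCv : C (e (S ∩ {v}ᶜ)).range := ih _ (hfin v) (hcard v hv)
      let f : (e S).range →* (e (S ∩ {u}ᶜ)).range × (e (S ∩ {v}ᶜ)).range :=
        (((e (S ∩ {u}ᶜ)).rangeRestrict).comp (e S).range.subtype).prod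
          (((e (S ∩ {v}ᶜ)).rangeRestrict).comp (e S).range.subtype)
      refine am C hC (e S).range _ _ _ _ hA f ?_ ?_ (hC.base.prod _ _ hCu hCv)
      · rintro ⟨x, hxS⟩ hxA hfx
        have h1 : e (S ∩ {u}ᶜ) x = 1 := congrArg Subtype.val (congrArg Prod.fst hfx)
        have h2 : x ∈ (e (S ∩ {u}ᶜ)).range := hxA
        rw [fix_range e hi subset_rfl h2] at h1
        exact Subtype.ext h1
      · rintro ⟨x, hxS⟩ hxB hfx
        have h1 : e (S ∩ {v}ᶜ) x = 1 := congrArg Subtype.val (congrArg Prod.snd hfx)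
        have h2 : x ∈ (e (S ∩ {v}ᶜ)).range := hxB
        rw [fix_range e hi subset_rfl h2] at h1
        exact Subtype.ext h1

/-- **reduction to sets of pairwise linked indices** -/
theorem clique {C : ∀ (G : Type) [Group G], Prop} (hC : ClosedE C)
    (hi : ∀ (S T : Set V) (n : N), e S (e T n) = e (S ∩ T) n)
    (hf : ∀ n : N, ∃ S : Set V, S.Finite ∧ e S n = n) (Lk : V → V → Prop)
    (hAmg : ∀ u v, u ≠ v → ¬ Lk u v → Amg (e {u}ᶜ).range (e {v}ᶜ).range (e ({u}ᶜ ∩ {v}ᶜ)).range)
    (hcl : ∀ S : Set V, S.Finite → (∀ u ∈ S, ∀ v ∈ S, u ≠ v → Lk u v) → C (e S).range) :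
    C N := by
  apply c_loc hC.base
  intro E hE
  choose S hS1 hS2 using hf
  let T : Set V := ⋃ x ∈ E, S x
  have hT : T.Finite := hE.biUnion fun x _ => hS1 x
  have hle : Subgroup.closure E ≤ (e T).range := by
    rw [Subgroup.closure_le]
    intro x hx
    refine ⟨x, ?_⟩
    have h1 : T ∩ S x = S x := Set.inter_eq_right.2 (Set.subset_biUnion_of_mem (u := S) hx)
    conv_lhs => rw [← hS2 x, hi, h1]
    exact hS2 x
  exact hC.base.of_injective _ _ (Subgroup.inclusion hle) (Subgroup.inclusion_injective hle)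
    (clique_fin e hC hi Lk hAmg hcl T.ncard T hT le_rfl)

end

section loc

open Pool.Agent.Y110.KW (Quo IsLocal Linked ret ret_ret ret_finite fac ret_fac_mem amal)
open Pool.Agent.Y483.PW (Permutes Preserves qAct qAct_ret)
open Monoid

variable {V : Type} {P : V → Type} [∀ v, Group (P v)] {R : Set (CoprodI P)}

theorem amg_of_amal (hR : IsLocal R) {u v : V} (huv : u ≠ v) (hl : ¬ Linked R u v) :
    Amg (ret hR {u}ᶜ).range (ret hR {v}ᶜ).range (ret hR ({u}ᶜ ∩ {v}ᶜ)).range :=
  have h := amal hR huv hl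
  ⟨h.le_left, h.le_right, h.gen, h.univ⟩

/-- **quotients of free products by local relations** -/
theorem loc_quo {C : ∀ (G : Type) [Group G], Prop} (hC : ClosedE C) (hR : IsLocal R)
    (hcl : ∀ S : Set V, S.Finite → (∀ u ∈ S, ∀ v ∈ S, u ≠ v → Linked R u v) →
      C (ret hR S).range) : C (Quo R) :=
  clique (ret hR) hC (fun S T n => ret_ret hR S T n)
    (fun n => by
      obtain ⟨S, hS⟩ := ret_finite hR n
      exact ⟨S, S.finite_toSet, hS⟩)
    (Linked R) (fun u v huv hl => amg_of_amal hR huv hl) hcl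

/-- `Γ` acts on the factors through torsion: an element which fixes `v` has a positive power which
acts trivially on the factor `P v`. -/
def Untwisted {Γ V : Type} [Group Γ] [MulAction Γ V] {P : V → Type} [∀ v, Group (P v)]
    (ρ : Γ →* MulAut (CoprodI P)) : Prop :=
  ∀ (γ : Γ) (v : V), γ • v = v → ∃ k : ℕ, 0 < k ∧ ∀ x : P v, ρ (γ ^ k) (CoprodI.of x) = CoprodI.of x

/-- a permutation of a finite set has a power fixing the set pointwise -/
theorem exists_fix {Γ V : Type} [Group Γ] [MulAction Γ V] (γ : Γ) (D : Set V) (hD : D.Finite)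
    (h : γ • D = D) : ∃ k : ℕ, 0 < k ∧ ∀ v ∈ D, γ ^ k • v = v := by
  classical
  have hiff : ∀ v, v ∈ D ↔ MulAction.toPerm γ v ∈ D := by
    intro v
    show v ∈ D ↔ γ • v ∈ D
    conv_rhs => rw [← h]
    exact (Set.smul_mem_smul_set_iff).symm
  have := hD.fintype
  let σ : Equiv.Perm D := (MulAction.toPerm γ).subtypePerm (fun v => (hiff v).symm)
  refine ⟨orderOf σ, orderOf_pos σ, fun v hv => ?_⟩
  have h1 : ∀ j : ℕ, ((σ ^ j) ⟨v, hv⟩ : V) = γ ^ j • v := by
    intro j
    induction j with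
    | zero => simp
    | succ j ih =>
      rw [pow_succ', Equiv.Perm.mul_apply, pow_succ', mul_smul, ← ih]
      rfl
  rw [← h1, pow_orderOf_eq_one]
  rfl

variable {Γ : Type} [Group Γ] [MulAction Γ V] {ρ : Γ →* MulAut (CoprodI P)}

theorem tame_loc (hR : IsLocal R) (hI : Preserves ρ R) (hU : Untwisted ρ) (γ : Γ) (D : Set V)
    (hD : D.Finite) (h : γ • D = D) :
    ∃ k : ℕ, 0 < k ∧ ∀ n : Quo R, qAct hI (γ ^ k) (ret hR D n) = ret hR D n := by
  classical
  obtain ⟨k, hk, hkD⟩ := exists_fix γ D hD h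
  choose! m hm hm' using fun (v : V) (hv : v ∈ D) => hU (γ ^ k) v (hkD v hv)
  let K : ℕ := ∏ v ∈ hD.toFinset, m v
  have hK : 0 < K := Finset.prod_pos fun v hv => hm v (hD.mem_toFinset.1 hv)
  refine ⟨k * K, Nat.mul_pos hk hK, ?_⟩
  have hfac : ∀ v ∈ D, ∀ x : P v, ρ (γ ^ (k * K)) (CoprodI.of x) = CoprodI.of x := by
    intro v hv x
    obtain ⟨c, hc⟩ : m v ∣ K := Finset.dvd_prod_of_mem _ (hD.mem_toFinset.2 hv)
    rw [pow_mul, hc, pow_mul]
    have h1 : ∀ c : ℕ, ρ (((γ ^ k) ^ m v) ^ c) (CoprodI.of x) = CoprodI.of x := by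
      intro c
      induction c with
      | zero => simp
      | succ c ih => rw [pow_succ, map_mul, MulAut.mul_apply, hm' v hv, ih]
    exact h1 c
  have hhom : (qAct hI (γ ^ (k * K))).toMonoidHom.comp (ret hR D) = ret hR D := by
    apply Pool.Agent.Y110.KW.quo_ext
    intro v x
    by_cases hv : v ∈ D
    · rw [MonoidHom.comp_apply, ret_fac_mem hR hv]
      show (QuotientGroup.mk (ρ (γ ^ (k * K)) (CoprodI.of x)) : Quo R) = _
      rw [hfac v hv]
      rfl
    · rw [MonoidHom.comp_apply, Pool.Agent.Y110.KW.ret_fac_notMem hR hv, map_one]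
  intro n
  exact DFunLike.congr_fun hhom n

/-- **equivariant version** -/
theorem loc_semi {C : ∀ (G : Type) [Group G], Prop} (hC : ClosedE C) (hR : IsLocal R)
    (hP : Permutes ρ) (hI : Preserves ρ R) (hU : Untwisted ρ)
    (hcl : ∀ S : Set V, S.Finite → (∀ u ∈ S, ∀ v ∈ S, u ≠ v → Linked R u v) →
      C (ret hR S).range) (hΓ : C Γ) : C (Quo R ⋊[qAct hI] Γ) := by
  let s : RSys Γ (Quo R) V :=
    { φ := qAct hI
      e := ret hR
      inter := fun S T n => ret_ret hR S T n
      equivariant := fun γ S n => qAct_ret hR hP hI γ S n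
      finite := fun n => by
        obtain ⟨S, hS⟩ := ret_finite hR n
        exact ⟨S, S.finite_toSet, hS⟩ }
  refine supp hC s ?_ (loc_quo hC hR hcl) hΓ
  intro γ D hD h
  obtain ⟨k, hk, hk'⟩ := tame_loc hR hI hU γ D hD h
  exact ⟨k, hk, 1, fun n => by rw [one_mul, inv_one, mul_one]; exact hk' n⟩

end loc

end Pool.Agent.X176.FJ
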