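import Mathlib
import Pool.Agent.X176.FJ.Crit
import Pool.Agent.Y812.SS.Wr

/-!
Groups of monomial permutations modulo the finitary ones.
-/

set_option autoImplicit false

namespace Pool.Agent.X176.FJ

open Pool.Agent.Y110.FJ
open Pool.Agent.Y462.SS (Closed Wr)

section

variable {Ω A : Type} [Group A]

/-- the support of a monomial permutation -/
def wsupp (w : Wr Ω A) : Set Ω := {x | w.s x ≠ 1 ∨ w.p x ≠ x}

theorem not_wsupp {w : Wr Ω A} {x : Ω} : x ∉ wsupp w ↔ w.s x = 1 ∧ w.p x = x := by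
  unfold wsupp
  simp only [Set.mem_ofPred_eq, not_or, not_not]

/-- the group of the finitary monomial permutations -/
def finMon (Ω A : Type) [Group A] : Subgroup (Wr Ω A) where
  carrier := {w | (wsupp w).Finite}
  one_mem' := by
    have : wsupp (1 : Wr Ω A) = ∅ := by
      ext x
      simp [wsupp]
    show (wsupp (1 : Wr Ω A)).Finite
    rw [this]; exact Set.finite_empty
  mul_mem' := by
    intro a b ha hb
    refine Set.Finite.subset (Set.Finite.union ha hb) ?_
    intro x hx
    by_contra hn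
    rw [Set.mem_union, not_or] at hn
    obtain ⟨h1, h2⟩ := hn
    rw [not_wsupp] at h1 h2
    apply hx |> (not_wsupp.2 ?_)
    refine ⟨?_, ?_⟩
    · rw [Wr.mul_s, h2.2, h1.1, h2.1, mul_one]
    · rw [Wr.mul_p, Equiv.Perm.mul_apply, h2.2, h1.2]
  inv_mem' := by
    intro a ha
    refine Set.Finite.subset ha ?_
    intro x hx
    by_contra hn
    rw [not_wsupp] at hn
    have hp : a.p⁻¹ x = x := by rw [Equiv.Perm.inv_eq_iff_eq]; exact hn.2.symm
    apply hx |> (not_wsupp.2 ?_)
    refine ⟨?_, ?_⟩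
    · rw [Wr.inv_s, hp, hn.1, inv_one]
    · rw [Wr.inv_p, hp]

theorem mem_finMon {w : Wr Ω A} : w ∈ finMon Ω A ↔ (wsupp w).Finite := Iff.rfl

theorem conj_supp (g w : Wr Ω A) : wsupp (g * w * g⁻¹) ⊆ g.p '' (wsupp w) := by
  intro x hx
  by_contra hn
  have h1 : g.p⁻¹ x ∉ wsupp w := fun h => hn ⟨_, h, by simp⟩
  rw [not_wsupp] at h1
  apply hx |> (not_wsupp.2 ?_)
  refine ⟨?_, ?_⟩
  · rw [Wr.mul_s, Wr.mul_s, Wr.inv_p, Wr.inv_s, h1.2, h1.1, mul_one, mul_inv_cancel]
  · rw [Wr.mul_p, Wr.mul_p, Wr.inv_p, Equiv.Perm.mul_apply, Equiv.Perm.mul_apply, h1.2]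
    simp

instance finMon_normal : (finMon Ω A).Normal where
  conj_mem := by
    intro w hw g
    exact Set.Finite.subset (Set.Finite.image _ hw) (conj_supp g w)

/-- elements which are trivial on the support commute -/
theorem comm_of_triv {u x : Wr Ω A} {S : Set Ω} (hu : ∀ y ∈ S, u.s y = 1 ∧ u.p y = y)
    (hx : wsupp x ⊆ S) : u * x = x * u := by
  have hxo : ∀ y, y ∉ S → x.s y = 1 ∧ x.p y = y := fun y hy => not_wsupp.1 (fun h => hy (hx h))
  have hxS : ∀ y ∈ S, x.p y ∈ S := by
    intro y hy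
    by_contra hn
    have h1 := (hxo _ hn).2
    have h2 := x.p.injective h1
    rw [h2] at hn
    exact hn hy
  have huS : ∀ y, y ∉ S → u.p y ∉ S := by
    intro y hy hn
    have h1 := (hu _ hn).2
    have h2 := u.p.injective h1
    rw [h2] at hn
    exact hy hn
  apply Wr.ext
  · funext y
    rw [Wr.mul_s, Wr.mul_s]
    by_cases hy : y ∈ S
    · rw [(hu _ (hxS y hy)).1, (hu y hy).2, (hu y hy).1, one_mul, mul_one]
    · rw [(hxo y hy).2, (hxo y hy).1, (hxo _ (huS y hy)).1, one_mul, mul_one]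
  · apply Equiv.ext
    intro y
    rw [Wr.mul_p, Wr.mul_p, Equiv.Perm.mul_apply, Equiv.Perm.mul_apply]
    by_cases hy : y ∈ S
    · rw [(hu _ (hxS y hy)).2, (hu y hy).2]
    · rw [(hxo y hy).2, (hxo _ (huS y hy)).2]

/-- a monomial permutation agrees on a finite set with a finitary one -/
theorem exists_finMon (g : Wr Ω A) (S : Set Ω) (hS : S.Finite) :
    ∃ n ∈ finMon Ω A, ∀ y ∈ S, n.s y = g.s y ∧ n.p y = g.p y := by
  classical
  have hT : (S ∪ g.p '' S).Finite := hS.union (hS.image _)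
  -- a permutation with finite support
  have := hT.fintype
  let T : Set Ω := S ∪ g.p '' S
  let e : {x : T // (x : Ω) ∈ S} ≃ {x : T // (x : Ω) ∈ g.p '' S} :=
    { toFun := fun x => ⟨⟨g.p x.1.1, Or.inr ⟨_, x.2, rfl⟩⟩, ⟨_, x.2, rfl⟩⟩
      invFun := fun x => ⟨⟨g.p.symm x.1.1, Or.inl (by
        obtain ⟨y, hy, hyx⟩ := x.2
        rw [← hyx, Equiv.symm_apply_apply]; exact hy)⟩, (by
        obtain ⟨y, hy, hyx⟩ := x.2
        show g.p.symm x.1.1 ∈ S
        rw [← hyx, Equiv.symm_apply_apply]; exact hy)⟩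
      left_inv := fun x => by
        apply Subtype.ext; apply Subtype.ext; simp
      right_inv := fun x => by
        apply Subtype.ext; apply Subtype.ext; simp }
  let ρ : Equiv.Perm T := e.extendSubtype
  let τ : Equiv.Perm Ω := Equiv.Perm.ofSubtype ρ
  refine ⟨⟨fun y => if y ∈ S then g.s y else 1, τ⟩, ?_, ?_⟩
  · refine Set.Finite.subset hT ?_
    intro y hy
    by_contra hn
    apply hy |> (not_wsupp.2 ?_)
    refine ⟨?_, ?_⟩
    · exact if_neg (fun h => hn (Or.inl h))
    · exact Equiv.Perm.ofSubtype_apply_of_not_mem ρ hn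
  · intro y hy
    refine ⟨if_pos hy, ?_⟩
    have h1 : τ y = ρ ⟨y, Or.inl hy⟩ := Equiv.Perm.ofSubtype_apply_coe ρ ⟨y, Or.inl hy⟩
    show τ y = g.p y
    rw [h1]
    have h2 := Equiv.extendSubtype_apply_of_mem e ⟨y, Or.inl hy⟩ hy
    show ((e.extendSubtype ⟨y, Or.inl hy⟩ : T) : Ω) = g.p y
    rw [h2]
    rfl

/-- the finitary monomial group is in the class -/
theorem c_finMon {C : ∀ (G : Type) [Group G], Prop} (hC : Closed C) (hA : C A) :
    C (finMon Ω A) := by
  apply c_loc hC
  intro E hE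
  let S : Set Ω := ⋃ w ∈ E, wsupp (w : Wr Ω A)
  have hS : S.Finite := hE.biUnion fun w _ => w.2
  have : Finite S := hS
  -- every element of the closure is supported on `S`
  let K : Subgroup (finMon Ω A) :=
    { carrier := {w | wsupp (w : Wr Ω A) ⊆ S}
      one_mem' := by
        intro x hx
        exfalso
        exact (not_wsupp.2 ⟨rfl, rfl⟩) hx
      mul_mem' := by
        intro a b ha hb x hx
        by_contra hn
        have h1 := not_wsupp.1 (fun h => hn (ha h))
        have h2 := not_wsupp.1 (fun h => hn (hb h))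
        apply hx |> (not_wsupp.2 ?_)
        refine ⟨?_, ?_⟩
        · show ((a : Wr Ω A) * b).s x = 1
          rw [Wr.mul_s, h2.2, h1.1, h2.1, mul_one]
        · show ((a : Wr Ω A) * b).p x = x
          rw [Wr.mul_p, Equiv.Perm.mul_apply, h2.2, h1.2]
      inv_mem' := by
        intro a ha x hx
        by_contra hn
        have h1 := not_wsupp.1 (fun h => hn (ha h))
        have hp : (a : Wr Ω A).p⁻¹ x = x := by rw [Equiv.Perm.inv_eq_iff_eq]; exact h1.2.symm
        apply hx |> (not_wsupp.2 ?_)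
        refine ⟨?_, ?_⟩
        · show ((a : Wr Ω A)⁻¹).s x = 1
          rw [Wr.inv_s, hp, h1.1, inv_one]
        · show ((a : Wr Ω A)⁻¹).p x = x
          rw [Wr.inv_p, hp] }
  have hEK : Subgroup.closure E ≤ K := by
    rw [Subgroup.closure_le]
    intro w hw x hx
    exact Set.mem_biUnion hw hx
  have hpS : ∀ w ∈ K, ∀ x, x ∈ S ↔ (w : Wr Ω A).p x ∈ S := by
    intro w hw x
    constructor
    · intro hx
      by_contra hn
      have h1 := not_wsupp.1 (fun h => hn (hw h))
      have h2 := (w : Wr Ω A).p.injective h1.2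
      rw [h2] at hn
      exact hn hx
    · intro hx
      by_contra hn
      have h1 := not_wsupp.1 (fun h => hn (hw h))
      rw [h1.2] at hx
      exact hn hx
  let j : K →* Wr S A :=
    { toFun := fun w => ⟨fun x => (w : Wr Ω A).s x, (w : Wr Ω A).p.subtypePerm (fun x => (hpS w w.2 x).symm)⟩
      map_one' := by
        apply Wr.ext
        · rfl
        · ext x; rfl
      map_mul' := by
        intro a b
        apply Wr.ext
        · rfl
        · ext x; rfl }
  have hj : Function.Injective j := by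
    intro a b hab
    apply Subtype.ext
    apply Subtype.ext
    have h1 : ∀ x : S, ((a : finMon Ω A) : Wr Ω A).s x = ((b : finMon Ω A) : Wr Ω A).s x :=
      fun x => congrFun (congrArg Wr.s hab) x
    have h2 : ∀ x : S, ((a : finMon Ω A) : Wr Ω A).p x = ((b : finMon Ω A) : Wr Ω A).p x :=
      fun x => congrArg Subtype.val (DFunLike.congr_fun (congrArg Wr.p hab) x)
    apply Wr.ext
    · funext x
      by_cases hx : x ∈ S
      · exact h1 ⟨x, hx⟩
      · rw [(not_wsupp.1 (fun h => hx (a.2 h))).1, (not_wsupp.1 (fun h => hx (b.2 h))).1]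
    · apply Equiv.ext
      intro x
      by_cases hx : x ∈ S
      · exact h2 ⟨x, hx⟩
      · rw [(not_wsupp.1 (fun h => hx (a.2 h))).2, (not_wsupp.1 (fun h => hx (b.2 h))).2]
  have hCW : C (Wr S A) := Pool.Agent.Y812.SS.t_wr C hC S A inferInstance hA
  exact hC.of_injective _ _ (j.comp (Subgroup.inclusion hEK))
    (hj.comp (Subgroup.inclusion_injective hEK)) hCW

end

/-- **monomial groups** -/
theorem mono {C : ∀ (G : Type) [Group G], Prop} (hC : ClosedE C) {Ω A : Type} [Group A] (hA : C A)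
    (G : Subgroup (Wr Ω A)) (hG : C (G.map (QuotientGroup.mk' (finMon Ω A)))) : C G := by
  let W : Subgroup (Wr Ω A) := (G.map (QuotientGroup.mk' (finMon Ω A))).comap
    (QuotientGroup.mk' (finMon Ω A))
  have hGW : G ≤ W := Subgroup.le_comap_map _ _
  have hNW : finMon Ω A ≤ W := by
    intro x hx
    show QuotientGroup.mk' (finMon Ω A) x ∈ G.map (QuotientGroup.mk' (finMon Ω A))
    have : QuotientGroup.mk' (finMon Ω A) x = 1 := (QuotientGroup.eq_one_iff x).2 hx
    rw [this]; exact one_mem _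
  refine hC.base.of_injective _ _ (Subgroup.inclusion hGW) (Subgroup.inclusion_injective hGW) ?_
  let N : Subgroup W := (finMon Ω A).subgroupOf W
  have hN : C N := by
    refine hC.base.of_injective _ _ (Subgroup.subgroupOfEquivOfLe hNW).toMonoidHom
      (Subgroup.subgroupOfEquivOfLe hNW).injective (c_finMon hC.base hA)
  have hQ : C (W ⧸ N) := by
    -- the quotient embeds
    let q : W →* (G.map (QuotientGroup.mk' (finMon Ω A))) :=
      { toFun := fun w => ⟨QuotientGroup.mk' (finMon Ω A) w, w.2⟩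
        map_one' := by apply Subtype.ext; exact map_one _
        map_mul' := fun a b => by apply Subtype.ext; exact map_mul _ _ _ }
    have hker : N = q.ker := by
      ext w
      rw [MonoidHom.mem_ker, Subgroup.mem_subgroupOf]
      constructor
      · intro h
        apply Subtype.ext
        exact (QuotientGroup.eq_one_iff (w : Wr Ω A)).2 h
      · intro h
        exact (QuotientGroup.eq_one_iff (w : Wr Ω A)).1 (congrArg Subtype.val h)
    have e1 : W ⧸ N ≃* W ⧸ q.ker := QuotientGroup.quotientMulEquivOfEq hker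
    exact hC.base.of_injective _ _ ((QuotientGroup.kerLift q).comp e1.toMonoidHom)
      ((QuotientGroup.kerLift_injective q).comp e1.injective) hG
  refine inn C hC W N hN hQ fun g E hE => ?_
  let S : Set Ω := ⋃ x ∈ E, wsupp (((x : W) : Wr Ω A))
  have hS : S.Finite := by
    refine hE.biUnion fun x _ => ?_
    have h1 : ((x : W) : Wr Ω A) ∈ finMon Ω A := x.2
    exact h1
  obtain ⟨n, hn, hnS⟩ := exists_finMon (g : Wr Ω A) S hS
  let n' : N := ⟨⟨n, hNW hn⟩, hn⟩
  refine ⟨MulAut.conj n', 1, n', Nat.one_pos, pow_one _, fun x hx => ?_⟩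
  apply Subtype.ext
  have hxS : wsupp (((x : W) : Wr Ω A)) ⊆ S := fun y hy => Set.mem_biUnion hx hy
  have hu : ∀ y ∈ S, ((g : Wr Ω A)⁻¹ * n).s y = 1 ∧ ((g : Wr Ω A)⁻¹ * n).p y = y := by
    intro y hy
    obtain ⟨h1, h2⟩ := hnS y hy
    have h3 : (g : Wr Ω A).p⁻¹ ((g : Wr Ω A).p y) = y := by simp
    refine ⟨?_, ?_⟩
    · rw [Wr.mul_s, Wr.inv_s, h2, h3, h1, inv_mul_cancel]
    · rw [Wr.mul_p, Wr.inv_p, Equiv.Perm.mul_apply, h2, h3]
  have hcomm := comm_of_triv hu hxS
  show n * ((x : W) : Wr Ω A) * n⁻¹ = (g : Wr Ω A) * ((x : W) : Wr Ω A) * (g : Wr Ω A)⁻¹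
  have h4 : n = (g : Wr Ω A) * ((g : Wr Ω A)⁻¹ * n) := by group
  rw [mul_inv_eq_iff_eq_mul]
  calc n * ((x : W) : Wr Ω A) = (g : Wr Ω A) * (((g : Wr Ω A)⁻¹ * n) * ((x : W) : Wr Ω A)) := by group
    _ = (g : Wr Ω A) * (((x : W) : Wr Ω A) * ((g : Wr Ω A)⁻¹ * n)) := by rw [hcomm]
    _ = _ := by group

end Pool.Agent.X176.FJ
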