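import Mathlib
import Pool.Agent.X176.FJ.Clique
import Pool.Agent.X176.FJ.Mono

/-!
Semidirect products of free products with monomial actions, and amalgamated products over a retract
of one factor.
-/

set_option autoImplicit false

namespace Pool.Agent.X176.FJ

open Pool.Agent.Y110.FJ
open Pool.Agent.Y462.SS (Closed Wr)
open Pool.Agent.Y110.KW (keep keep_of_mem keep_of_notMem keep_inter keep_univ)
open Monoid
open scoped Pointwise

/-- passing from a power of an automorphism to the automorphism -/
theorem c_pow {C : ∀ (G : Type) [Group G], Prop} (hC : Closed C) {N : Type} [Group N]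
    (σ : MulAut N) (k : ℕ) (hk : 0 < k)
    (h : C (N ⋊[zpowersHom (MulAut N) (σ ^ k)] Multiplicative ℤ)) :
    C (N ⋊[zpowersHom (MulAut N) σ] Multiplicative ℤ) := by
  let φ := zpowersHom (MulAut N) σ
  let φk := zpowersHom (MulAut N) (σ ^ k)
  let K : Subgroup (N ⋊[φ] Multiplicative ℤ) :=
    (Subgroup.zpowers (Multiplicative.ofAdd (k : ℤ))).comap SemidirectProduct.rightHom
  have hfi : K.FiniteIndex := by
    refine ⟨?_⟩
    rw [Subgroup.index_comap_of_surjective _ SemidirectProduct.rightHom_surjective]
    have h1 : (Subgroup.zpowers (Multiplicative.ofAdd (k : ℤ))).index ≠ 0 := by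
      have h2 := Int.index_zmultiples (k : ℤ)
      have h3 : (Subgroup.zpowers (Multiplicative.ofAdd (k : ℤ))).index =
          (AddSubgroup.zmultiples (k : ℤ)).index := rfl
      rw [h3, h2]
      simpa using hk.ne'
    exact h1
  refine hC.finiteIndex _ K hfi ?_
  -- the embedding
  have hφ : ∀ m : ℤ, φk (Multiplicative.ofAdd m) = φ (Multiplicative.ofAdd (k * m)) := by
    intro m
    show (σ ^ k) ^ m = σ ^ ((k : ℤ) * m)
    rw [zpow_mul, zpow_natCast]
  let ψ : N ⋊[φk] Multiplicative ℤ →* N ⋊[φ] Multiplicative ℤ :=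
    { toFun := fun w => ⟨w.left, Multiplicative.ofAdd ((k : ℤ) * Multiplicative.toAdd w.right)⟩
      map_one' := by
        apply SemidirectProduct.ext
        · rfl
        · show Multiplicative.ofAdd ((k : ℤ) * 0) = 1
          rw [mul_zero]; rfl
      map_mul' := by
        intro a b
        apply SemidirectProduct.ext
        · show a.left * φk a.right b.left = a.left * φ _ b.left
          rw [← hφ]
          rfl
        · show Multiplicative.ofAdd ((k : ℤ) * (Multiplicative.toAdd a.right +
            Multiplicative.toAdd b.right)) = _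
          rw [mul_add]; rfl }
  have hψr : ∀ w, ψ w ∈ K := by
    intro w
    show Multiplicative.ofAdd ((k : ℤ) * Multiplicative.toAdd w.right) ∈ Subgroup.zpowers _
    rw [Int.ofAdd_mul]
    exact Subgroup.zpow_mem_zpowers _ _
  let ψ' : N ⋊[φk] Multiplicative ℤ →* K :=
    { toFun := fun w => ⟨ψ w, hψr w⟩
      map_one' := Subtype.ext (map_one ψ)
      map_mul' := fun a b => Subtype.ext (map_mul ψ a b) }
  have hinj : Function.Injective ψ' := by
    intro a b hab
    have h1 : ψ a = ψ b := congrArg Subtype.val hab
    have h3 : (ψ a).left = (ψ b).left := by rw [h1]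
    have h4 : (ψ a).right = (ψ b).right := by rw [h1]
    apply SemidirectProduct.ext
    · exact h3
    · have h2 : (k : ℤ) * Multiplicative.toAdd a.right = (k : ℤ) * Multiplicative.toAdd b.right := h4
      have hk' : (k : ℤ) ≠ 0 := by exact_mod_cast hk.ne'
      have h5 : Multiplicative.toAdd a.right = Multiplicative.toAdd b.right :=
        mul_left_cancel₀ hk' h2
      exact h5
  have hsurj : Function.Surjective ψ' := by
    rintro ⟨w, hw⟩
    obtain ⟨m, hm⟩ := Subgroup.mem_zpowers_iff.1 hw
    refine ⟨⟨w.left, Multiplicative.ofAdd m⟩, ?_⟩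
    apply Subtype.ext
    apply SemidirectProduct.ext
    · rfl
    · have hm' : (Multiplicative.ofAdd (k : ℤ)) ^ m = w.right := hm
      show Multiplicative.ofAdd ((k : ℤ) * m) = w.right
      rw [← hm', Int.ofAdd_mul]
  have e : N ⋊[φk] Multiplicative ℤ ≃* K := MulEquiv.ofBijective ψ' ⟨hinj, hsurj⟩
  exact hC.of_injective _ _ e.symm.toMonoidHom e.symm.injective h

/-- a permutation with finite support has finite order -/
theorem fin_order {Ω : Type} (π : Equiv.Perm Ω) (h : {x | π x ≠ x}.Finite) :
    ∃ k : ℕ, 0 < k ∧ π ^ k = 1 := by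
  classical
  have := h.fintype
  let σ : Equiv.Perm {x | π x ≠ x} := π.subtypePerm (fun x => by
    show (π (π x) ≠ π x) ↔ π x ≠ x
    constructor
    · intro h1 h2
      exact h1 (by rw [h2, h2])
    · intro h1 h2
      exact h1 (π.injective h2))
  refine ⟨orderOf σ, orderOf_pos σ, ?_⟩
  apply Equiv.ext
  intro x
  by_cases hx : π x = x
  · have : ∀ j : ℕ, (π ^ j) x = x := by
      intro j
      induction j with
      | zero => rfl
      | succ j ih => rw [pow_succ, Equiv.Perm.mul_apply, hx, ih]
    exact this _
  · have h1 : ∀ j : ℕ, ((σ ^ j) ⟨x, hx⟩ : Ω) = (π ^ j) x := by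
      intro j
      induction j with
      | zero => rfl
      | succ j ih =>
        rw [pow_succ', Equiv.Perm.mul_apply, pow_succ', Equiv.Perm.mul_apply, ← ih]
        rfl
    rw [← h1, pow_orderOf_eq_one]
    rfl

/-- **semidirect products**: if every automorphism given by an element of the acting group agrees on
each finite set with an automorphism `σ` for which the semidirect product with `ℤ` is in the class,
then the semidirect product is in the class -/
theorem semi_crit {C : ∀ (G : Type) [Group G], Prop} (hC : ClosedE C) {N B : Type} [Group N] [Group B]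
    (φ : B →* MulAut N) (hB : C B)
    (h : ∀ (b : B) (E : Set N), E.Finite → ∃ σ : MulAut N,
      C (N ⋊[zpowersHom (MulAut N) σ] Multiplicative ℤ) ∧ ∀ x ∈ E, σ x = φ b x) :
    C (N ⋊[φ] B) := by
  let G := N ⋊[φ] B
  let N' : Subgroup G := (SemidirectProduct.inl : N →* G).range
  have hN'eq : N' = (SemidirectProduct.rightHom : G →* B).ker :=
    SemidirectProduct.range_inl_eq_ker_rightHom
  have hnorm : N'.Normal := by rw [hN'eq]; infer_instance
  let eN : N ≃* N' := MonoidHom.ofInjective SemidirectProduct.inl_injective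
  have heN : ∀ n : N, ((eN n : N') : G) = SemidirectProduct.inl n := fun n => rfl
  have hCQ' : C (G ⧸ N') := by
    have e1 : G ⧸ N' ≃* G ⧸ (SemidirectProduct.rightHom : G →* B).ker :=
      QuotientGroup.quotientMulEquivOfEq hN'eq
    have e2 : G ⧸ (SemidirectProduct.rightHom : G →* B).ker ≃* B :=
      QuotientGroup.quotientKerEquivOfSurjective _ SemidirectProduct.rightHom_surjective
    exact hC.base.of_injective _ _ (e1.trans e2).toMonoidHom (e1.trans e2).injective hB
  refine crit C hC G N' hCQ' fun g E hE hEN => ?_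
  obtain ⟨σ, hσC, hσ⟩ := h g.right {n : N | (SemidirectProduct.inl n : G) ∈ E}
    (hE.preimage SemidirectProduct.inl_injective.injOn)
  have hle : Subgroup.closure (E ∪ (fun x => g * x * g⁻¹) '' E) ≤ N' := by
    rw [Subgroup.closure_le]
    rintro x (hx | ⟨y, hy, rfl⟩)
    · exact hEN hx
    · exact Subgroup.Normal.conj_mem inferInstance _ (hEN hy) g
  let ι : N →* N ⋊[zpowersHom (MulAut N) σ] Multiplicative ℤ := SemidirectProduct.inl
  let t : N ⋊[zpowersHom (MulAut N) σ] Multiplicative ℤ := SemidirectProduct.inr (Multiplicative.ofAdd 1)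
  have ht : ∀ n : N, t * ι n * t⁻¹ = ι (σ n) := by
    intro n
    show SemidirectProduct.inr _ * SemidirectProduct.inl n * (SemidirectProduct.inr _)⁻¹ = _
    rw [← map_inv, ← SemidirectProduct.inl_aut]
    show SemidirectProduct.inl ((σ ^ (1 : ℤ)) n) = _
    rw [zpow_one]
  refine ⟨N ⋊[zpowersHom (MulAut N) σ] Multiplicative ℤ, inferInstance,
    (ι.comp eN.symm.toMonoidHom).comp (Subgroup.inclusion hle), ι g.left * t, hσC, ?_, ?_⟩
  · exact (SemidirectProduct.inl_injective.comp eN.symm.injective).comp
      (Subgroup.inclusion_injective hle)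
  · rintro ⟨x, hx'⟩ ⟨y, hy'⟩ hx hy
    obtain ⟨n, hn⟩ := hEN hx
    have hn' : (SemidirectProduct.inl n : G) = x := hn
    have e1 : eN.symm ⟨x, hEN hx⟩ = n := by
      rw [MulEquiv.symm_apply_eq]
      exact Subtype.ext hn'.symm
    have hyn : y = SemidirectProduct.inl (g.left * (φ g.right n) * (g.left)⁻¹) := by
      have h6 := SemidirectProduct.inl_aut (φ := φ) g.right n
      have h8 : y = g * x * g⁻¹ := hy
      rw [h8, ← hn']
      conv_lhs => rw [← SemidirectProduct.inl_left_mul_inr_right g]
      rw [map_mul, map_mul, h6, map_inv, map_inv]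
      simp only [mul_inv_rev, mul_assoc]
    have e2 : eN.symm ⟨y, hle hy'⟩ = g.left * (φ g.right n) * (g.left)⁻¹ := by
      rw [MulEquiv.symm_apply_eq]
      exact Subtype.ext hyn
    show ι (eN.symm ⟨y, hle hy'⟩) = (ι g.left * t) * ι (eN.symm ⟨x, hEN hx⟩) * (ι g.left * t)⁻¹
    have hnE : n ∈ {n : N | (SemidirectProduct.inl n : G) ∈ E} := by
      show (SemidirectProduct.inl n : G) ∈ E
      rw [hn']; exact hx
    rw [e1, e2, ← hσ n hnE, map_mul, map_mul, ← ht, map_inv]
    group

section free

variable {V A : Type} [Group A]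

/-- the endomorphism of the free product given by a monomial permutation -/
def monHom (w : Wr V A) : CoprodI (fun _ : V => A) →* CoprodI (fun _ : V => A) :=
  CoprodI.lift fun x => (CoprodI.of (M := fun _ : V => A) (i := w.p x)).comp
    (MulAut.conj (w.s x)).toMonoidHom

theorem monHom_of (w : Wr V A) (x : V) (a : A) :
    monHom w (CoprodI.of (M := fun _ : V => A) (i := x) a) =
      CoprodI.of (M := fun _ : V => A) (i := w.p x) (w.s x * a * (w.s x)⁻¹) := by
  unfold monHom
  rw [CoprodI.lift_of]
  rfl

theorem monHom_mul (w w' : Wr V A) (n : CoprodI (fun _ : V => A)) :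
    monHom (w * w') n = monHom w (monHom w' n) := by
  have h : monHom (w * w') = (monHom w).comp (monHom w') := by
    apply CoprodI.ext_hom
    intro x
    ext1 a
    simp only [MonoidHom.comp_apply, monHom_of]
    show CoprodI.of (M := fun _ : V => A) (i := w.p (w'.p x)) (w.s (w'.p x) * w'.s x * a *
      (w.s (w'.p x) * w'.s x)⁻¹) = _
    congr 1
    group
  exact DFunLike.congr_fun h n

theorem monHom_one (n : CoprodI (fun _ : V => A)) : monHom (1 : Wr V A) n = n := by
  have h : monHom (1 : Wr V A) = MonoidHom.id _ := by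
    apply CoprodI.ext_hom
    intro x
    ext1 a
    simp only [MonoidHom.comp_apply, monHom_of]
    show CoprodI.of (M := fun _ : V => A) (i := x) (1 * a * 1⁻¹) = _
    rw [one_mul, inv_one, mul_one]
    rfl
  exact DFunLike.congr_fun h n

/-- the monomial automorphisms -/
def monAut (V A : Type) [Group A] : Wr V A →* MulAut (CoprodI (fun _ : V => A)) where
  toFun w :=
    { toFun := monHom w
      invFun := monHom w⁻¹
      left_inv := fun n => by rw [← monHom_mul, inv_mul_cancel, monHom_one]
      right_inv := fun n => by rw [← monHom_mul, mul_inv_cancel, monHom_one]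
      map_mul' := map_mul _ }
  map_one' := by
    apply MulEquiv.ext
    intro n
    exact monHom_one n
  map_mul' a b := by
    apply MulEquiv.ext
    intro n
    exact monHom_mul a b n

theorem monAut_apply (w : Wr V A) (n : CoprodI (fun _ : V => A)) : monAut V A w n = monHom w n := rfl

theorem kmem {S : Set V} {x : V} (h : x ∈ S) (a : A) :
    keep S (CoprodI.of (M := fun _ : V => A) (i := x) a) =
      CoprodI.of (M := fun _ : V => A) (i := x) a := keep_of_mem (P := fun _ : V => A) h a

theorem knot {S : Set V} {x : V} (h : x ∉ S) (a : A) :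
    keep S (CoprodI.of (M := fun _ : V => A) (i := x) a) = 1 :=
  keep_of_notMem (P := fun _ : V => A) h a

theorem monHom_keep (w : Wr V A) (hw : w.p = 1) (S : Set V) (n : CoprodI (fun _ : V => A)) :
    monHom w (keep S n) = keep S (monHom w n) := by
  have h : (monHom w).comp (keep S) = (keep S).comp (monHom w) := by
    apply CoprodI.ext_hom
    intro x
    ext1 a
    have hx : w.p x = x := by rw [hw]; rfl
    simp only [MonoidHom.comp_apply, monHom_of]
    by_cases hS : x ∈ S
    · rw [keep_of_mem hS, monHom_of, keep_of_mem (by rw [hx]; exact hS)]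
    · rw [keep_of_notMem hS, map_one, keep_of_notMem (by rw [hx]; exact hS)]
  exact DFunLike.congr_fun h n

/-- the semidirect product with `ℤ` acting by factorwise inner automorphisms -/
abbrev GZ (w : Wr V A) : Type :=
  CoprodI (fun _ : V => A) ⋊[zpowersHom (MulAut (CoprodI (fun _ : V => A))) (monAut V A w)]
    Multiplicative ℤ

theorem zact (w : Wr V A) (m : Multiplicative ℤ) :
    zpowersHom (MulAut (CoprodI (fun _ : V => A))) (monAut V A w) m =
      monAut V A (w ^ (Multiplicative.toAdd m)) := by
  rw [zpowersHom_apply, map_zpow]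

theorem zpow_p (w : Wr V A) (hw : w.p = 1) (m : ℤ) : (w ^ m).p = 1 := by
  let π : Wr V A →* Equiv.Perm V := { toFun := fun w => w.p, map_one' := rfl, map_mul' := fun _ _ => rfl }
  have : π (w ^ m) = (π w) ^ m := map_zpow π w m
  have h1 : π w = 1 := hw
  rw [h1, one_zpow] at this
  exact this

/-- the retractions -/
noncomputable def eZ (w : Wr V A) (hw : w.p = 1) (S : Set V) : GZ w →* GZ w where
  toFun g := ⟨keep S g.left, g.right⟩
  map_one' := by
    apply SemidirectProduct.ext
    · exact map_one _
    · rfl
  map_mul' a b := by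
    apply SemidirectProduct.ext
    · show keep S (a.left * _) = keep S a.left * _
      rw [map_mul, zact, monAut_apply, ← monHom_keep _ (zpow_p w hw _)]
      rfl
    · rfl

theorem mem_eZ (w : Wr V A) (hw : w.p = 1) (S : Set V) (g : GZ w) :
    g ∈ (eZ w hw S).range ↔ keep S g.left = g.left := by
  constructor
  · rintro ⟨g, rfl⟩
    show keep S (keep S g.left) = keep S g.left
    exact (DFunLike.congr_fun (keep_inter S S) g.left).trans (by rw [Set.inter_self])
  · intro h
    exact ⟨g, SemidirectProduct.ext h rfl⟩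

theorem keep_range_top (S T : Set V) (n : CoprodI (fun _ : V => A)) :
    keep S (keep T n) = keep (S ∩ T) n :=
  DFunLike.congr_fun (keep_inter (P := fun _ : V => A) S T) n

theorem eZ_inter (w : Wr V A) (hw : w.p = 1) (S T : Set V) (g : GZ w) :
    eZ w hw S (eZ w hw T g) = eZ w hw (S ∩ T) g :=
  SemidirectProduct.ext (keep_range_top S T g.left) rfl

theorem keep_fin (n : CoprodI (fun _ : V => A)) : ∃ S : Set V, S.Finite ∧ keep S n = n := by
  induction n using CoprodI.induction_on with
  | one => exact ⟨∅, Set.finite_empty, map_one _⟩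
  | of x a => exact ⟨{x}, Set.finite_singleton x, kmem (S := {x}) rfl a⟩
  | mul a b ha hb =>
    obtain ⟨S, hS, h1⟩ := ha
    obtain ⟨T, hT, h2⟩ := hb
    refine ⟨S ∪ T, hS.union hT, ?_⟩
    rw [map_mul]
    congr 1
    · conv_lhs => rw [← h1]
      rw [keep_range_top, Set.inter_eq_right.2 Set.subset_union_left, h1]
    · conv_lhs => rw [← h2]
      rw [keep_range_top, Set.inter_eq_right.2 Set.subset_union_right, h2]

set_option maxHeartbeats 4000000 in
/-- the amalgamated decomposition -/
theorem eZ_amg (w : Wr V A) (hw : w.p = 1) {u v : V} (huv : u ≠ v) :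
    Amg (eZ w hw {u}ᶜ).range (eZ w hw {v}ᶜ).range (eZ w hw ({u}ᶜ ∩ {v}ᶜ)).range where
  le_left := range_le (eZ w hw) (eZ_inter w hw) Set.inter_subset_left
  le_right := range_le (eZ w hw) (eZ_inter w hw) Set.inter_subset_right
  gen := by
    rw [eq_top_iff]
    rintro ⟨n, z⟩ -
    have hr : (⟨n, z⟩ : GZ w) = SemidirectProduct.inl n * SemidirectProduct.inr z := by
      apply SemidirectProduct.ext <;> simp
    rw [hr]
    apply mul_mem
    · induction n using CoprodI.induction_on with
      | one => rw [map_one]; exact one_mem _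
      | of x a =>
        by_cases hx : x = u
        · apply Subgroup.mem_sup_right
          rw [mem_eZ]
          have hm : x ∈ ({v}ᶜ : Set V) := by rw [hx]; simpa using huv
          exact kmem hm a
        · apply Subgroup.mem_sup_left
          rw [mem_eZ]
          have hm : x ∈ ({u}ᶜ : Set V) := by simpa using hx
          exact kmem hm a
      | mul a b ha hb => 
        rw [map_mul]
        exact mul_mem (ha (by apply SemidirectProduct.ext <;> simp))
          (hb (by apply SemidirectProduct.ext <;> simp))
    · apply Subgroup.mem_sup_left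
      rw [mem_eZ]
      exact map_one _
  univ := by
    intro H _ f g hfg
    classical
    have hof : ∀ (D : Set V) (x : V), x ∈ D → ∀ a : A,
        (SemidirectProduct.inl (CoprodI.of (M := fun _ : V => A) (i := x) a) : GZ w) ∈
          (eZ w hw D).range := fun D x hx a => (mem_eZ w hw D _).2 (kmem hx a)
    have hz : ∀ (D : Set V) (z : Multiplicative ℤ),
        (SemidirectProduct.inr z : GZ w) ∈ (eZ w hw D).range :=
      fun D z => (mem_eZ w hw D _).2 (map_one _)
    have hk : ∀ (D : Set V) (n : CoprodI (fun _ : V => A)),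
        (SemidirectProduct.inl (keep D n) : GZ w) ∈ (eZ w hw D).range := by
      intro D n
      rw [mem_eZ]
      show keep D (keep D n) = keep D n
      rw [keep_range_top, Set.inter_self]
    let iF : ∀ (D : Set V) (x : V), x ∈ D → A →* (eZ w hw D).range := fun D x hx =>
      { toFun := fun a => ⟨SemidirectProduct.inl (CoprodI.of (M := fun _ : V => A) (i := x) a),
          hof D x hx a⟩
        map_one' := by apply Subtype.ext; simp
        map_mul' := fun a b => by apply Subtype.ext; simp }
    let zF : ∀ D : Set V, Multiplicative ℤ →* (eZ w hw D).range := fun D =>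
      { toFun := fun z => ⟨SemidirectProduct.inr z, hz D z⟩
        map_one' := by apply Subtype.ext; simp
        map_mul' := fun a b => by apply Subtype.ext; simp }
    let kF : ∀ D : Set V, CoprodI (fun _ : V => A) →* (eZ w hw D).range := fun D =>
      { toFun := fun n => ⟨SemidirectProduct.inl (keep D n), hk D n⟩
        map_one' := by apply Subtype.ext; simp
        map_mul' := fun a b => by apply Subtype.ext; simp }
    have huv' : u ∈ ({v}ᶜ : Set V) := by simpa using huv
    let h1 : CoprodI (fun _ : V => A) →* H := CoprodI.lift fun x =>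
      if hx : x ∈ ({u}ᶜ : Set V) then f.comp (iF {u}ᶜ x hx)
      else g.comp (iF {v}ᶜ x (by
        have : x = u := by simpa using hx
        rw [this]; exact huv'))
    have h1f : ∀ (x : V) (hx : x ∈ ({u}ᶜ : Set V)) (a : A),
        h1 (CoprodI.of (M := fun _ : V => A) (i := x) a) = f (iF {u}ᶜ x hx a) := by
      intro x hx a
      show CoprodI.lift _ _ = _
      rw [CoprodI.lift_of, dif_pos hx]
      rfl
    have hagree : ∀ (x : V) (hxu : x ∈ ({u}ᶜ : Set V)) (hxv : x ∈ ({v}ᶜ : Set V)) (a : A),
        f (iF {u}ᶜ x hxu a) = g (iF {v}ᶜ x hxv a) := fun x hxu hxv a =>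
      hfg _ (hof ({u}ᶜ ∩ {v}ᶜ) x ⟨hxu, hxv⟩ a)
    have h1g : ∀ (x : V) (hx : x ∈ ({v}ᶜ : Set V)) (a : A),
        h1 (CoprodI.of (M := fun _ : V => A) (i := x) a) = g (iF {v}ᶜ x hx a) := by
      intro x hx a
      by_cases hxu : x ∈ ({u}ᶜ : Set V)
      · rw [h1f x hxu, hagree x hxu hx]
      · show CoprodI.lift _ _ = _
        rw [CoprodI.lift_of, dif_neg hxu]
        rfl
    have hzfg : ∀ z, f (zF {u}ᶜ z) = g (zF {v}ᶜ z) := fun z => hfg _ (hz ({u}ᶜ ∩ {v}ᶜ) z)
    have hconj : ∀ (D : Set V) (z : Multiplicative ℤ) (x : V) (hx : x ∈ D) (a : A),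
        zF D z * iF D x hx a * (zF D z)⁻¹ =
          iF D x hx ((w ^ (Multiplicative.toAdd z)).s x * a * ((w ^ (Multiplicative.toAdd z)).s x)⁻¹) := by
      intro D z x hx a
      apply Subtype.ext
      show (SemidirectProduct.inr z : GZ w) * SemidirectProduct.inl _ * (SemidirectProduct.inr z)⁻¹ = _
      rw [← map_inv, ← SemidirectProduct.inl_aut, zact, monAut_apply, monHom_of]
      have hp : (w ^ (Multiplicative.toAdd z)).p x = x := by rw [zpow_p w hw]; rfl
      have hcongr : ∀ (y : V) (hy : y = x) (b : A), CoprodI.of (M := fun _ : V => A) (i := y) b =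
          CoprodI.of (M := fun _ : V => A) (i := x) b := by
        rintro y rfl b; rfl
      rw [hcongr _ hp]
      rfl
    let h : GZ w →* H := SemidirectProduct.lift h1 (f.comp (zF {u}ᶜ)) (by
      intro z
      apply CoprodI.ext_hom
      intro x
      ext1 a
      have hp : (w ^ (Multiplicative.toAdd z)).p x = x := by rw [zpow_p w hw]; rfl
      have hcongr : ∀ (y : V) (hy : y = x) (b : A), CoprodI.of (M := fun _ : V => A) (i := y) b =
          CoprodI.of (M := fun _ : V => A) (i := x) b := by
        rintro y rfl b; rfl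
      show h1 ((zpowersHom (MulAut (CoprodI (fun _ : V => A))) (monAut V A w) z)
        (CoprodI.of (M := fun _ : V => A) (i := x) a)) =
        f (zF {u}ᶜ z) * h1 (CoprodI.of (M := fun _ : V => A) (i := x) a) * (f (zF {u}ᶜ z))⁻¹
      rw [zact, monAut_apply, monHom_of, hcongr _ hp]
      by_cases hx : x ∈ ({u}ᶜ : Set V)
      · rw [h1f x hx, h1f x hx, ← hconj {u}ᶜ z x hx a, map_mul, map_mul, map_inv]
      · have hxv : x ∈ ({v}ᶜ : Set V) := by
          have : x = u := by simpa using hx
          rw [this]; exact huv'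
        rw [h1g x hxv, h1g x hxv, hzfg, ← hconj {v}ᶜ z x hxv a, map_mul, map_mul, map_inv])
    have hkf : ∀ n, h1 (keep {u}ᶜ n) = f (kF {u}ᶜ n) := by
      have : h1.comp (keep {u}ᶜ) = f.comp (kF {u}ᶜ) := by
        apply CoprodI.ext_hom
        intro x
        ext1 a
        show h1 (keep {u}ᶜ (CoprodI.of (M := fun _ : V => A) (i := x) a)) = f (kF {u}ᶜ _)
        by_cases hx : x ∈ ({u}ᶜ : Set V)
        · rw [kmem hx, h1f x hx]
          congr 1
          apply Subtype.ext
          show _ = SemidirectProduct.inl (keep {u}ᶜ (CoprodI.of (M := fun _ : V => A) (i := x) a))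
          rw [kmem hx]
          rfl
        · rw [knot hx, map_one]
          have : kF {u}ᶜ (CoprodI.of (M := fun _ : V => A) (i := x) a) = 1 := by
            apply Subtype.ext
            show SemidirectProduct.inl (keep {u}ᶜ (CoprodI.of (M := fun _ : V => A) (i := x) a)) = _
            rw [knot hx, map_one]
            rfl
          rw [this, map_one]
      exact fun n => DFunLike.congr_fun this n
    have hkg : ∀ n, h1 (keep {v}ᶜ n) = g (kF {v}ᶜ n) := by
      have : h1.comp (keep {v}ᶜ) = g.comp (kF {v}ᶜ) := by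
        apply CoprodI.ext_hom
        intro x
        ext1 a
        show h1 (keep {v}ᶜ (CoprodI.of (M := fun _ : V => A) (i := x) a)) = g (kF {v}ᶜ _)
        by_cases hx : x ∈ ({v}ᶜ : Set V)
        · rw [kmem hx, h1g x hx]
          congr 1
          apply Subtype.ext
          show _ = SemidirectProduct.inl (keep {v}ᶜ (CoprodI.of (M := fun _ : V => A) (i := x) a))
          rw [kmem hx]
          rfl
        · rw [knot hx, map_one]
          have : kF {v}ᶜ (CoprodI.of (M := fun _ : V => A) (i := x) a) = 1 := by
            apply Subtype.ext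
            show SemidirectProduct.inl (keep {v}ᶜ (CoprodI.of (M := fun _ : V => A) (i := x) a)) = _
            rw [knot hx, map_one]
            rfl
          rw [this, map_one]
      exact fun n => DFunLike.congr_fun this n
    have hL : ∀ a : GZ w, h a = h1 a.left * f (zF {u}ᶜ a.right) := by
      intro a
      conv_lhs => rw [← SemidirectProduct.inl_left_mul_inr_right a, map_mul]
      rw [SemidirectProduct.lift_inl, SemidirectProduct.lift_inr]
      rfl
    refine ⟨h, ?_, ?_⟩
    · rintro ⟨a, ha⟩
      have ha' := (mem_eZ w hw _ a).1 ha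
      have e1 : (⟨a, ha⟩ : (eZ w hw {u}ᶜ).range) = kF {u}ᶜ a.left * zF {u}ᶜ a.right := by
        apply Subtype.ext
        show a = SemidirectProduct.inl (keep {u}ᶜ a.left) * SemidirectProduct.inr a.right
        rw [ha']
        exact (SemidirectProduct.inl_left_mul_inr_right a).symm
      have hR : f ⟨a, ha⟩ = h1 a.left * f (zF {u}ᶜ a.right) := by
        rw [e1, map_mul, ← hkf, ha']
      show h a = f ⟨a, ha⟩
      rw [hL, hR]
    · rintro ⟨a, ha⟩
      have ha' := (mem_eZ w hw _ a).1 ha
      have e1 : (⟨a, ha⟩ : (eZ w hw {v}ᶜ).range) = kF {v}ᶜ a.left * zF {v}ᶜ a.right := by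
        apply Subtype.ext
        show a = SemidirectProduct.inl (keep {v}ᶜ a.left) * SemidirectProduct.inr a.right
        rw [ha']
        exact (SemidirectProduct.inl_left_mul_inr_right a).symm
      have hR : g ⟨a, ha⟩ = h1 a.left * f (zF {u}ᶜ a.right) := by
        rw [e1, map_mul, ← hkg, ha', ← hzfg]
      show h a = g ⟨a, ha⟩
      rw [hL, hR]

open Classical in
/-- the projection to a factor -/
noncomputable def prX (A : Type) [Group A] (x : V) : CoprodI (fun _ : V => A) →* A :=
  CoprodI.lift (M := fun _ : V => A) (fun y => if y = x then MonoidHom.id A else 1)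

theorem prX_self (x : V) (a : A) : prX A x (CoprodI.of (M := fun _ : V => A) (i := x) a) = a := by
  unfold prX
  rw [CoprodI.lift_of, if_pos rfl]
  rfl

theorem prX_ne {x y : V} (h : y ≠ x) (a : A) :
    prX A x (CoprodI.of (M := fun _ : V => A) (i := y) a) = 1 := by
  unfold prX
  rw [CoprodI.lift_of, if_neg h]
  rfl

theorem of_congr {z y : V} (hz : z = y) (b : A) : CoprodI.of (M := fun _ : V => A) (i := z) b =
    CoprodI.of (M := fun _ : V => A) (i := y) b := by
  subst hz; rfl

theorem prX_monHom (w : Wr V A) (hw : w.p = 1) (x : V) (n : CoprodI (fun _ : V => A)) :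
    prX A x (monHom w n) = w.s x * prX A x n * (w.s x)⁻¹ := by
  have hh : (prX A x).comp (monHom w) = (MulAut.conj (w.s x)).toMonoidHom.comp (prX A x) := by
    apply CoprodI.ext_hom
    intro y
    ext1 a
    have hp : w.p y = y := by rw [hw]; rfl
    simp only [MonoidHom.comp_apply, monHom_of]
    rw [of_congr hp]
    by_cases hy : y = x
    · subst hy
      rw [prX_self, prX_self]
      rfl
    · rw [prX_ne hy, prX_ne hy, map_one]
  exact DFunLike.congr_fun hh n

theorem keep_prX (x : V) (n : CoprodI (fun _ : V => A)) :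
    keep {x} n = CoprodI.of (M := fun _ : V => A) (i := x) (prX A x n) := by
  have hh : keep {x} = (CoprodI.of (M := fun _ : V => A) (i := x)).comp (prX A x) := by
    apply CoprodI.ext_hom
    intro y
    ext1 a
    simp only [MonoidHom.comp_apply]
    by_cases hy : y = x
    · subst hy
      rw [prX_self, keep_of_mem (Set.mem_singleton y)]
    · rw [prX_ne hy, keep_of_notMem (by simpa using hy), map_one]
  exact DFunLike.congr_fun hh n

/-- the projection to a factor, extended by the conjugating element -/
noncomputable def prZ (w : Wr V A) (hw : w.p = 1) (x : V) : GZ w →* A × Multiplicative ℤ where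
  toFun g := (prX A x g.left * (w ^ (Multiplicative.toAdd g.right)).s x, g.right)
  map_one' := by
    apply Prod.ext
    · show prX A x 1 * (w ^ (0 : ℤ)).s x = 1
      rw [map_one, zpow_zero, one_mul]
      rfl
    · rfl
  map_mul' a b := by
    apply Prod.ext
    · show prX A x (a.left * _) * (w ^ (Multiplicative.toAdd a.right +
        Multiplicative.toAdd b.right)).s x = (prX A x a.left *
          (w ^ (Multiplicative.toAdd a.right)).s x) * (prX A x b.left *
          (w ^ (Multiplicative.toAdd b.right)).s x)
      rw [map_mul, zact, monAut_apply, prX_monHom _ (zpow_p w hw _), zpow_add, Wr.mul_s]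
      have hp : (w ^ (Multiplicative.toAdd b.right)).p x = x := by rw [zpow_p w hw]; rfl
      rw [hp]
      group
    · rfl

theorem prZ_inj (w : Wr V A) (hw : w.p = 1) (x : V) (g : GZ w) (h1 : keep {x} g.left = g.left)
    (h : prZ w hw x g = 1) : g = 1 := by
  have h2 : g.right = 1 := congrArg Prod.snd h
  have h3 : prX A x g.left = 1 := by
    have h5 : prX A x g.left * (w ^ (Multiplicative.toAdd g.right)).s x = 1 := congrArg Prod.fst h
    rw [h2] at h5
    have h6 : (w ^ (Multiplicative.toAdd (1 : Multiplicative ℤ))).s x = 1 := by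
      show (w ^ (0 : ℤ)).s x = 1
      rw [zpow_zero]; rfl
    rw [h6, mul_one] at h5
    exact h5
  apply SemidirectProduct.ext
  · rw [← h1, keep_prX, h3, map_one]
    rfl
  · exact h2

variable {C : ∀ (G : Type) [Group G], Prop}

theorem c_GZ (hC : ClosedE C) (hA : C A) (w : Wr V A) (hw : w.p = 1) : C (GZ w) := by
  have hZ : C (Multiplicative ℤ) := hC.base.int
  refine clique (eZ w hw) hC (eZ_inter w hw) ?_ (fun _ _ => False)
    (fun u v huv _ => eZ_amg w hw huv) ?_
  · intro n
    obtain ⟨S, hS, h⟩ := keep_fin n.left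
    exact ⟨S, hS, SemidirectProduct.ext h rfl⟩
  · intro S _ hS
    have hsub : S.Subsingleton := by
      intro u hu v hv
      by_contra hne
      exact hS u hu v hv hne
    rcases hsub.eq_empty_or_singleton with h0 | ⟨x, hx⟩
    · let f : (eZ w hw S).range →* Multiplicative ℤ :=
        SemidirectProduct.rightHom.comp (eZ w hw S).range.subtype
      refine hC.base.of_injective _ _ f ?_ hZ
      rw [injective_iff_map_eq_one]
      rintro ⟨g, hg⟩ h
      have h1 := (mem_eZ w hw S g).1 hg
      have h2 : g.right = 1 := h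
      apply Subtype.ext
      apply SemidirectProduct.ext
      · show g.left = 1
        rw [← h1, h0]
        have h3 : keep (∅ : Set V) = (1 : CoprodI (fun _ : V => A) →* _) := by
          apply CoprodI.ext_hom
          intro y
          ext1 a
          simp only [MonoidHom.comp_apply]
          rw [keep_of_notMem (Set.notMem_empty y), MonoidHom.one_apply]
        rw [h3]; rfl
      · exact h2
    · let f : (eZ w hw S).range →* A × Multiplicative ℤ :=
        (prZ w hw x).comp (eZ w hw S).range.subtype
      refine hC.base.of_injective _ _ f ?_ (hC.base.prod _ _ hA hZ)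
      rw [injective_iff_map_eq_one]
      rintro ⟨g, hg⟩ h
      have h1 := (mem_eZ w hw S g).1 hg
      rw [hx] at h1
      exact Subtype.ext (prZ_inj w hw x g h1 h)

theorem c_free (hC : ClosedE C) (hA : C A) : C (CoprodI (fun _ : V => A)) :=
  hC.base.of_injective _ _ (SemidirectProduct.inl : CoprodI (fun _ : V => A) →* GZ (1 : Wr V A))
    SemidirectProduct.inl_injective (c_GZ hC hA 1 rfl)

theorem c_finZ (hC : ClosedE C) (hA : C A) (w : Wr V A) (hw : w ∈ finMon V A) :
    C (CoprodI (fun _ : V => A) ⋊[zpowersHom (MulAut (CoprodI (fun _ : V => A))) (monAut V A w)]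
      Multiplicative ℤ) := by
  -- the permutation has finite order
  have hsupp : {x | w.p x ≠ x}.Finite := by
    refine Set.Finite.subset hw ?_
    intro x hx
    exact Or.inr hx
  obtain ⟨k, hk, hpow⟩ := Pool.Agent.X176.FJ.fin_order w.p hsupp
  have hp : (w ^ k).p = 1 := by
    let π : Wr V A →* Equiv.Perm V :=
      { toFun := fun w => w.p, map_one' := rfl, map_mul' := fun _ _ => rfl }
    have : π (w ^ k) = (π w) ^ k := map_pow π w k
    exact this.trans hpow
  refine c_pow hC.base (monAut V A w) k hk ?_
  rw [← map_pow]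
  exact c_GZ hC hA (w ^ k) hp

theorem monHom_congr (w w' : Wr V A) (S : Set V) (h : ∀ y ∈ S, w.s y = w'.s y ∧ w.p y = w'.p y)
    (n : CoprodI (fun _ : V => A)) (hn : keep S n = n) : monHom w n = monHom w' n := by
  have hh : (monHom w).comp (keep S) = (monHom w').comp (keep S) := by
    apply CoprodI.ext_hom
    intro y
    ext1 a
    simp only [MonoidHom.comp_apply]
    by_cases hy : y ∈ S
    · rw [keep_of_mem hy, monHom_of, monHom_of, (h y hy).1]
      exact of_congr (h y hy).2 _
    · rw [keep_of_notMem hy, map_one, map_one]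
  rw [← hn]
  exact DFunLike.congr_fun hh n

/-- **semidirect products of free products with monomial actions** -/
theorem c_semi (hC : ClosedE C) (hA : C A) {B : Type} [Group B] (hB : C B) (θ : B →* Wr V A) :
    C (CoprodI (fun _ : V => A) ⋊[(monAut V A).comp θ] B) := by
  refine semi_crit hC _ hB fun b E hE => ?_
  choose S hS1 hS2 using fun n : CoprodI (fun _ : V => A) => keep_fin n
  let T : Set V := ⋃ x ∈ E, S x
  have hT : T.Finite := hE.biUnion fun x _ => hS1 x
  obtain ⟨u, hu, huT⟩ := exists_finMon (θ b) T hT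
  refine ⟨monAut V A u, c_finZ hC hA u hu, fun x hx => ?_⟩
  refine monHom_congr u (θ b) T huT x ?_
  have h1 : T ∩ S x = S x := Set.inter_eq_right.2 (Set.subset_biUnion_of_mem (u := S) hx)
  conv_lhs => rw [← hS2 x, keep_range_top, h1]
  exact hS2 x

end free

section retract

variable {G : Type} [Group G] {A B K : Subgroup G}

/-- representatives of the cosets -/
noncomputable def rep (B K : Subgroup G) (x : B ⧸ K.subgroupOf B) : B :=
  letI := Classical.propDecidable (x = ((1 : B) : B ⧸ K.subgroupOf B))
  if x = ((1 : B) : B ⧸ K.subgroupOf B) then 1 else x.out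

theorem rep_mk (x : B ⧸ K.subgroupOf B) : ((rep B K x : B) : B ⧸ K.subgroupOf B) = x := by
  unfold rep
  by_cases h : x = ((1 : B) : B ⧸ K.subgroupOf B)
  · rw [if_pos h, h]
  · rw [if_neg h]
    exact x.out_eq'

theorem rep_one : rep B K ((1 : B) : B ⧸ K.subgroupOf B) = 1 := by
  unfold rep
  rw [if_pos rfl]

theorem rep_mem (b : B) (x : B ⧸ K.subgroupOf B) :
    (((rep B K (b • x))⁻¹ * b * rep B K x : B) : G) ∈ K := by
  have h : (rep B K (b • x))⁻¹ * (b * rep B K x) ∈ K.subgroupOf B := by
    rw [← QuotientGroup.eq, rep_mk]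
    show b • x = b • ((rep B K x : B) : B ⧸ K.subgroupOf B)
    rw [rep_mk]
  rw [← mul_assoc] at h
  exact h

/-- the monomial action of `B` -/
noncomputable def theta (hKA : K ≤ A) : B →* Wr (B ⧸ K.subgroupOf B) A where
  toFun b := ⟨fun x => ⟨_, hKA (rep_mem b x)⟩, MulAction.toPerm b⟩
  map_one' := by
    apply Wr.ext
    · funext x
      apply Subtype.ext
      show (((rep B K ((1 : B) • x))⁻¹ * 1 * rep B K x : B) : G) = 1
      rw [one_smul, mul_one, inv_mul_cancel]
      rfl
    · ext x
      show (1 : B) • x = x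
      exact one_smul _ x
  map_mul' a b := by
    apply Wr.ext
    · funext x
      apply Subtype.ext
      show (((rep B K ((a * b) • x))⁻¹ * (a * b) * rep B K x : B) : G) =
        (((rep B K (a • (b • x)))⁻¹ * a * rep B K (b • x) : B) : G) *
          (((rep B K (b • x))⁻¹ * b * rep B K x : B) : G)
      rw [mul_smul, ← Subgroup.coe_mul]
      congr 1
      group
    · ext x
      show (a * b) • x = a • (b • x)
      exact mul_smul _ _ x

theorem c_retract {C : ∀ (G : Type) [Group G], Prop} (hC : ClosedE C) (hAmg : Amg A B K)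
    (r : A →* K) (hr : ∀ k : K, r ⟨k, hAmg.le_left k.2⟩ = k) (hA : C A) (hB : C B) : C G := by
  let V := B ⧸ K.subgroupOf B
  let x0 : V := ((1 : B) : V)
  let θ : B →* Wr V A := theta hAmg.le_left
  let W := CoprodI (fun _ : V => A) ⋊[(monAut V A).comp θ] B
  have hW : C W := c_semi hC hA hB θ
  let ι : CoprodI (fun _ : V => A) →* W := SemidirectProduct.inl
  let j : B →* W := SemidirectProduct.inr
  let o : A →* CoprodI (fun _ : V => A) := CoprodI.of (M := fun _ : V => A) (i := x0)
  let m : A →* W := ι.comp o
  let kB : K →* B := Subgroup.inclusion hAmg.le_right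
  let kA : K →* A := Subgroup.inclusion hAmg.le_left
  have hm : Function.Injective m :=
    SemidirectProduct.inl_injective.comp (CoprodI.of_injective (M := fun _ : V => A) x0)
  have hmr : ∀ a : A, (m a).right = 1 := fun a => rfl
  have hconj : ∀ (k : K) (a : A), j (kB k) * m a * (j (kB k))⁻¹ = m (kA k * a * (kA k)⁻¹) := by
    intro k a
    show SemidirectProduct.inr _ * SemidirectProduct.inl _ * (SemidirectProduct.inr _)⁻¹ = _
    rw [← map_inv, ← SemidirectProduct.inl_aut]
    show SemidirectProduct.inl (monHom (θ (kB k)) (CoprodI.of (M := fun _ : V => A) (i := x0) a)) = _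
    rw [monHom_of]
    have h1 : (θ (kB k)).p x0 = x0 := by
      show ((kB k * 1 : B) : V) = ((1 : B) : V)
      rw [mul_one, QuotientGroup.eq, mul_one, Subgroup.mem_subgroupOf]
      show ((kB k : B) : G)⁻¹ ∈ K
      exact inv_mem k.2
    have h2 : (θ (kB k)).s x0 = kA k := by
      apply Subtype.ext
      show (((rep B K (kB k • x0))⁻¹ * kB k * rep B K x0 : B) : G) = k
      have h3 : kB k • x0 = x0 := h1
      rw [h3, rep_one, inv_one, one_mul, mul_one]
      rfl
    rw [of_congr (V := V) (A := A) h1, h2]
    rfl
  let fA : A →* W :=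
    { toFun := fun a => m (a * (kA (r a))⁻¹) * j (kB (r a))
      map_one' := by
        simp only [map_one, inv_one, mul_one]
      map_mul' := by
        intro a b
        have h1 := hconj (r a) (b * (kA (r b))⁻¹)
        rw [mul_inv_eq_iff_eq_mul] at h1
        rw [map_mul r, map_mul kB, map_mul j]
        calc m (a * b * (kA (r a * r b))⁻¹) * (j (kB (r a)) * j (kB (r b)))
            = m (a * (kA (r a))⁻¹) * (m (kA (r a) * (b * (kA (r b))⁻¹) * (kA (r a))⁻¹) *
                j (kB (r a))) * j (kB (r b)) := by
              rw [← mul_assoc, ← mul_assoc (m (a * _)), ← map_mul m]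
              congr 3
              rw [map_mul kA]
              group
          _ = m (a * (kA (r a))⁻¹) * (j (kB (r a)) * m (b * (kA (r b))⁻¹)) * j (kB (r b)) := by
              rw [← h1]
          _ = _ := by group }
  have hag : ∀ (c : G) (hc : c ∈ K), fA ⟨c, hAmg.le_left hc⟩ = j ⟨c, hAmg.le_right hc⟩ := by
    intro c hc
    have h1 : r ⟨c, hAmg.le_left hc⟩ = ⟨c, hc⟩ := hr ⟨c, hc⟩
    show m (_ * (kA (r _))⁻¹) * j (kB (r _)) = _
    rw [h1]
    have h2 : (⟨c, hAmg.le_left hc⟩ : A) * (kA ⟨c, hc⟩)⁻¹ = 1 := by
      rw [mul_inv_eq_one]; rfl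
    rw [h2, map_one, one_mul]
    rfl
  obtain ⟨f, hfA, hfB⟩ := hAmg.univ W fA j hag
  refine am C hC G W A B K hAmg f ?_ ?_ hW
  · intro a ha h
    have h1 : fA ⟨a, ha⟩ = 1 := (hfA ⟨a, ha⟩).symm.trans h
    have h4 : m (⟨a, ha⟩ * (kA (r ⟨a, ha⟩))⁻¹) * j (kB (r ⟨a, ha⟩)) = 1 := h1
    have h2 : kB (r ⟨a, ha⟩) = 1 := by
      have := congrArg SemidirectProduct.right h4
      rw [SemidirectProduct.mul_right, hmr, one_mul] at this
      exact this
    have h3 : r ⟨a, ha⟩ = 1 := Subgroup.inclusion_injective hAmg.le_right (h2.trans (map_one _).symm)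
    rw [h3, map_one, map_one, map_one, inv_one, mul_one, mul_one] at h4
    exact congrArg Subtype.val (hm (h4.trans (map_one _).symm))
  · intro b hb h
    have h1 : j ⟨b, hb⟩ = 1 := (hfB ⟨b, hb⟩).symm.trans h
    have h2 : (⟨b, hb⟩ : B) = 1 := SemidirectProduct.inr_injective (h1.trans (map_one _).symm)
    exact congrArg Subtype.val h2

end retract

end Pool.Agent.X176.FJ
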