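import Mathlib
import Pool.Agent.X176.FJ.Retr

/-!
Groups of functions with finitely many values and group actions on them.
-/

set_option autoImplicit false

namespace Pool.Agent.X176.FJ

open Pool.Agent.Y110.FJ
open Pool.Agent.Y462.SS (Closed Wr)

/-- elements which agree on the support of `x` conjugate `x` in the same way -/
theorem conj_agree {Ω A : Type} [Group A] {g n x : Wr Ω A} {S : Set Ω}
    (h : ∀ y ∈ S, n.s y = g.s y ∧ n.p y = g.p y) (hx : wsupp x ⊆ S) :
    n * x * n⁻¹ = g * x * g⁻¹ := by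
  have hu : ∀ y ∈ S, (g⁻¹ * n).s y = 1 ∧ (g⁻¹ * n).p y = y := by
    intro y hy
    obtain ⟨h1, h2⟩ := h y hy
    have h3 : g.p⁻¹ (g.p y) = y := by simp
    refine ⟨?_, ?_⟩
    · rw [Wr.mul_s, Wr.inv_s, h2, h3, h1, inv_mul_cancel]
    · rw [Wr.mul_p, Wr.inv_p, Equiv.Perm.mul_apply, h2, h3]
  have hcomm := comm_of_triv hu hx
  rw [mul_inv_eq_iff_eq_mul]
  calc n * x = g * ((g⁻¹ * n) * x) := by group
    _ = g * (x * (g⁻¹ * n)) := by rw [hcomm]
    _ = _ := by group

/-- **monomial representations which are finitary on the kernel of a homomorphism to a group in the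
class** -/
theorem mono2 {C : ∀ (G : Type) [Group G], Prop} (hC : ClosedE C) {Ω A P R : Type} [Group A]
    [Group P] [Group R] (hA : C A) (hR : C R) (ρ : P →* Wr Ω A) (π : P →* R)
    (h1 : ∀ x, π x = 1 → ρ x ∈ finMon Ω A) (h2 : ∀ x, π x = 1 → ρ x = 1 → x = 1) : C P := by
  have hQ : C (P ⧸ π.ker) :=
    hC.base.of_injective _ _ (QuotientGroup.kerLift π) (QuotientGroup.kerLift_injective π) hR
  refine crit C hC P π.ker hQ fun g E hE hEN => ?_
  let S : Set Ω := ⋃ x ∈ E, wsupp (ρ x)
  have hS : S.Finite := hE.biUnion fun x hx => h1 x (hEN hx)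
  obtain ⟨n, hn, hnS⟩ := exists_finMon (ρ g) S hS
  have hle : Subgroup.closure (E ∪ (fun x => g * x * g⁻¹) '' E) ≤ π.ker := by
    rw [Subgroup.closure_le]
    rintro x (hx | ⟨y, hy, rfl⟩)
    · exact hEN hx
    · exact Subgroup.Normal.conj_mem inferInstance _ (hEN hy) g
  let f : ↥(Subgroup.closure (E ∪ (fun x => g * x * g⁻¹) '' E)) →* finMon Ω A :=
    { toFun := fun x => ⟨ρ x, h1 x (hle x.2)⟩
      map_one' := Subtype.ext (map_one ρ)
      map_mul' := fun a b => Subtype.ext (map_mul ρ _ _) }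
  refine ⟨finMon Ω A, inferInstance, f, ⟨n, hn⟩, c_finMon hC.base hA, ?_, ?_⟩
  · rw [injective_iff_map_eq_one]
    rintro ⟨x, hx⟩ h
    exact Subtype.ext (h2 x (hle hx) (congrArg Subtype.val h))
  · rintro ⟨x, hx'⟩ ⟨y, hy'⟩ hx hy
    apply Subtype.ext
    show ρ y = n * ρ x * n⁻¹
    have hyx : y = g * x * g⁻¹ := hy
    rw [hyx, map_mul, map_mul, map_inv]
    exact (conj_agree hnS (Set.subset_biUnion_of_mem (u := fun x => wsupp (ρ x)) hx)).symm

/-- the criterion for semidirect products -/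
theorem semi_real {C : ∀ (G : Type) [Group G], Prop} (hC : ClosedE C) {N B : Type} [Group N] [Group B]
    (φ : B →* MulAut N) (hB : C B)
    (h : ∀ (b : B) (E : Set N), E.Finite → ∃ (M : Subgroup N) (P : Type) (_ : Group P) (f : M →* P)
      (p : P), C P ∧ Function.Injective f ∧ ∀ x ∈ E, ∃ (h1 : x ∈ M) (h2 : φ b x ∈ M),
        f ⟨φ b x, h2⟩ = p * f ⟨x, h1⟩ * p⁻¹) :
    C (N ⋊[φ] B) := by
  let G := N ⋊[φ] B
  let N' : Subgroup G := (SemidirectProduct.inl : N →* G).range
  have hN'eq : N' = (SemidirectProduct.rightHom : G →* B).ker :=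
    SemidirectProduct.range_inl_eq_ker_rightHom
  have hnorm : N'.Normal := by rw [hN'eq]; infer_instance
  let eN : N ≃* N' := MonoidHom.ofInjective SemidirectProduct.inl_injective
  have heN : ∀ n : N, ((eN n : N') : G) = SemidirectProduct.inl n := fun n => rfl
  have hCQ' : C (G ⧸ N') := by
    have e1 : G ⧸ N' ≃* G ⧸ (SemidirectProduct.rightHom : G →* B).ker :=
      QuotientGroup.quotientMulEquivOfEq hN'eq
    have e2 : G ⧸ (SemidirectProduct.rightHom : G →* B).ker ≃* B :=
      QuotientGroup.quotientKerEquivOfSurjective _ SemidirectProduct.rightHom_surjective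
    exact hC.base.of_injective _ _ (e1.trans e2).toMonoidHom (e1.trans e2).injective hB
  refine crit C hC G N' hCQ' fun g E hE hEN => ?_
  let E0 : Set N := {n : N | (SemidirectProduct.inl n : G) ∈ E}
  have hE0 : E0.Finite := hE.preimage SemidirectProduct.inl_injective.injOn
  obtain ⟨M, P, hP, f, p, hCP, hf, hMp⟩ := h g.right (insert g.left E0) (hE0.insert _)
  have hgM : g.left ∈ M := (hMp _ (Set.mem_insert _ _)).1
  have hEM : ∀ n ∈ E0, n ∈ M := fun n hn => (hMp _ (Set.mem_insert_of_mem _ hn)).1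
  have hconj : ∀ n : N, g * SemidirectProduct.inl n * g⁻¹ =
      SemidirectProduct.inl (g.left * (φ g.right n) * (g.left)⁻¹) := by
    intro n
    have h6 := SemidirectProduct.inl_aut (φ := φ) g.right n
    conv_lhs => rw [← SemidirectProduct.inl_left_mul_inr_right g]
    rw [map_mul, map_mul, h6, map_inv, map_inv]
    simp only [mul_inv_rev, mul_assoc]
  have hle : Subgroup.closure (E ∪ (fun x => g * x * g⁻¹) '' E) ≤
      M.map (SemidirectProduct.inl : N →* G) := by
    rw [Subgroup.closure_le]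
    rintro x (hx | ⟨y, hy, rfl⟩)
    · obtain ⟨n, rfl⟩ := hEN hx
      exact ⟨n, hEM n hx, rfl⟩
    · obtain ⟨n, rfl⟩ := hEN hy
      have hn : n ∈ E0 := hy
      obtain ⟨h1, h2, -⟩ := hMp n (Set.mem_insert_of_mem _ hn)
      refine ⟨g.left * (φ g.right n) * (g.left)⁻¹, mul_mem (mul_mem hgM h2) (inv_mem hgM), ?_⟩
      exact (hconj n).symm
  let eM : M ≃* M.map (SemidirectProduct.inl : N →* G) :=
    M.equivMapOfInjective _ SemidirectProduct.inl_injective
  refine ⟨P, hP, (f.comp eM.symm.toMonoidHom).comp (Subgroup.inclusion hle), f ⟨g.left, hgM⟩ * p,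
    hCP, ?_, ?_⟩
  · exact (hf.comp eM.symm.injective).comp (Subgroup.inclusion_injective hle)
  · rintro ⟨x, hx'⟩ ⟨y, hy'⟩ hx hy
    obtain ⟨n, hn⟩ := hEN hx
    have hn' : (SemidirectProduct.inl n : G) = x := hn
    have hn0 : n ∈ E0 := by
      show (SemidirectProduct.inl n : G) ∈ E
      rw [hn']; exact hx
    obtain ⟨h1, h2, h3⟩ := hMp n (Set.mem_insert_of_mem _ hn0)
    have e1 : eM.symm ⟨x, hle hx'⟩ = ⟨n, h1⟩ := by
      rw [MulEquiv.symm_apply_eq]
      exact Subtype.ext hn'.symm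
    have hyn : y = SemidirectProduct.inl (g.left * (φ g.right n) * (g.left)⁻¹) := by
      have h8 : y = g * x * g⁻¹ := hy
      rw [h8, ← hn', hconj]
    have e2 : eM.symm ⟨y, hle hy'⟩ = ⟨g.left, hgM⟩ * ⟨φ g.right n, h2⟩ * (⟨g.left, hgM⟩)⁻¹ := by
      rw [MulEquiv.symm_apply_eq]
      exact Subtype.ext hyn
    show f (eM.symm ⟨y, hle hy'⟩) = (f ⟨g.left, hgM⟩ * p) * f (eM.symm ⟨x, hle hx'⟩) *
      (f ⟨g.left, hgM⟩ * p)⁻¹
    rw [e1, e2, map_mul, map_mul, h3, map_inv]
    group

/-! ### functions with finitely many values -/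

section range

variable {X G : Type} [Group G]

theorem fr_one : (Set.range (fun _ : X => (1 : G))).Finite := by
  refine Set.Finite.subset (Set.finite_singleton (1 : G)) ?_
  rintro _ ⟨x, rfl⟩
  rfl

theorem fr_mul {a b : X → G} (ha : (Set.range a).Finite) (hb : (Set.range b).Finite) :
    (Set.range fun x => a x * b x).Finite := by
  refine Set.Finite.subset (Set.Finite.image2 (fun x y => x * y) ha hb) ?_
  rintro _ ⟨x, rfl⟩
  exact ⟨a x, ⟨x, rfl⟩, b x, ⟨x, rfl⟩, rfl⟩

theorem fr_inv {a : X → G} (ha : (Set.range a).Finite) : (Set.range fun x => (a x)⁻¹).Finite := by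
  refine Set.Finite.subset (ha.image (fun x => x⁻¹)) ?_
  rintro _ ⟨x, rfl⟩
  exact ⟨a x, ⟨x, rfl⟩, rfl⟩

/-- functions `X → G` with finitely many values -/
@[ext] structure FR (X G : Type) where
  /-- the function -/
  f : X → G
  /-- it has finitely many values -/
  fin : (Set.range f).Finite

instance : Mul (FR X G) := ⟨fun a b => ⟨fun x => a.f x * b.f x, fr_mul a.fin b.fin⟩⟩
instance : One (FR X G) := ⟨⟨fun _ => 1, fr_one⟩⟩
instance : Inv (FR X G) := ⟨fun a => ⟨fun x => (a.f x)⁻¹, fr_inv a.fin⟩⟩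

theorem FR.assoc (a b c : FR X G) : a * b * c = a * (b * c) := by
  apply FR.ext
  funext x
  exact mul_assoc _ _ _

theorem FR.one_mul' (a : FR X G) : 1 * a = a := by
  apply FR.ext
  funext x
  exact one_mul _

theorem FR.inv_mul' (a : FR X G) : a⁻¹ * a = 1 := by
  apply FR.ext
  funext x
  exact inv_mul_cancel _

/-- the group of the functions `X → G` with finitely many values -/
instance : Group (FR X G) := Group.ofLeftAxioms FR.assoc FR.one_mul' FR.inv_mul'

variable {Q : Type} [Group Q] [MulAction Q X]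

theorem fr_act {Y : Type} (u : Y → X) (θ : MulAut G) {f : X → G} (h : (Set.range f).Finite) :
    (Set.range fun y => θ (f (u y))).Finite := by
  refine Set.Finite.subset (h.image θ) ?_
  rintro _ ⟨x, rfl⟩
  exact ⟨_, ⟨_, rfl⟩, rfl⟩

/-- translation by an element of the acting group and the automorphism of the coefficients -/
def frMap (θ : Q →* MulAut G) (q : Q) (a : FR X G) : FR X G :=
  ⟨fun x => θ q (a.f (q⁻¹ • x)), fr_act _ _ a.fin⟩

theorem frMap_mul' (θ : Q →* MulAut G) (q : Q) (a b : FR X G) :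
    frMap θ q (a * b) = frMap θ q a * frMap θ q b := by
  apply FR.ext
  funext x
  exact map_mul (θ q) _ _

theorem frMap_mul (θ : Q →* MulAut G) (q q' : Q) (a : FR X G) :
    frMap θ (q * q') a = frMap θ q (frMap θ q' a) := by
  apply FR.ext
  funext x
  show θ (q * q') (a.f ((q * q')⁻¹ • x)) = θ q (θ q' (a.f (q'⁻¹ • q⁻¹ • x)))
  rw [map_mul, MulAut.mul_apply, mul_inv_rev, mul_smul]

theorem frMap_one (θ : Q →* MulAut G) (a : FR X G) : frMap θ 1 a = a := by
  apply FR.ext
  funext x
  show θ 1 (a.f ((1 : Q)⁻¹ • x)) = a.f x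
  rw [map_one, MulAut.one_apply, inv_one, one_smul]

theorem frMap_left (θ : Q →* MulAut G) (q : Q) (a : FR X G) : frMap θ q⁻¹ (frMap θ q a) = a := by
  rw [← frMap_mul, inv_mul_cancel, frMap_one]

theorem frMap_right (θ : Q →* MulAut G) (q : Q) (a : FR X G) : frMap θ q (frMap θ q⁻¹ a) = a := by
  rw [← frMap_mul, mul_inv_cancel, frMap_one]

/-- translation as an automorphism -/
def frAut (X : Type) [MulAction Q X] (θ : Q →* MulAut G) (q : Q) : MulAut (FR X G) :=
  ⟨⟨frMap θ q, frMap θ q⁻¹, frMap_left θ q, frMap_right θ q⟩, frMap_mul' θ q⟩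

theorem frAut_one (θ : Q →* MulAut G) : frAut X θ 1 = 1 := by
  apply MulEquiv.ext
  intro f
  exact frMap_one θ f

theorem frAut_mul (θ : Q →* MulAut G) (q q' : Q) : frAut X θ (q * q') = frAut X θ q * frAut X θ q' := by
  apply MulEquiv.ext
  intro f
  exact frMap_mul θ q q' f

/-- the action of `Q` on the group of the functions with finitely many values, given by an action on
`X` and an action on `G` -/
def frAct (X : Type) [MulAction Q X] (θ : Q →* MulAut G) : Q →* MulAut (FR X G) :=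
  ⟨⟨frAut X θ, frAut_one θ⟩, frAut_mul θ⟩

end range

/-! ### eventually periodic walks -/

section walk

/-- the iterates of `u` are periodic with period `K` from `K` on -/
def Per {J : Type} (u : J → J) (K : ℕ) : Prop := ∀ m, K ≤ m → u^[m + K] = u^[m]

theorem Per.add_mul {J : Type} {u : J → J} {K : ℕ} (h : Per u K) {m : ℕ} (hm : K ≤ m) (q : ℕ) :
    u^[m + K * q] = u^[m] := by
  induction q with
  | zero => rfl
  | succ q ih =>
    have : m + K * (q + 1) = (m + K * q) + K := by ring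
    rw [this, h _ (by omega), ih]

theorem Per.mul {J : Type} {u : J → J} {K : ℕ} (h : Per u K) (L : ℕ) (hL : 0 < L) :
    Per u (K * L) := by
  intro m hm
  exact h.add_mul (le_trans (Nat.le_mul_of_pos_right K hL) hm) L

theorem exists_per {J : Type} [Finite J] (u : J → J) : ∃ K : ℕ, 0 < K ∧ Per u K := by
  obtain ⟨a, b, hab, h⟩ : ∃ a b : ℕ, a < b ∧ u^[a] = u^[b] := by
    obtain ⟨a, b, hne, h⟩ := Finite.exists_ne_map_eq_of_infinite (fun n : ℕ => (u^[n] : J → J))
    rcases lt_or_gt_of_ne hne with h1 | h1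
    · exact ⟨a, b, h1, h⟩
    · exact ⟨b, a, h1, h.symm⟩
  have h1 : ∀ m, a ≤ m → u^[m + (b - a)] = u^[m] := by
    intro m hm
    have e1 : m + (b - a) = (m - a) + b := by omega
    have e2 : m = (m - a) + a := by omega
    rw [e1, Function.iterate_add, ← h, ← Function.iterate_add, ← e2]
  have h2 : ∀ q m, a ≤ m → u^[m + (b - a) * q] = u^[m] := by
    intro q
    induction q with
    | zero => intro m _; rfl
    | succ q ih =>
      intro m hm
      have : m + (b - a) * (q + 1) = (m + (b - a) * q) + (b - a) := by ring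
      rw [this, h1 _ (by omega), ih m hm]
  refine ⟨(b - a) * (a + 1), Nat.mul_pos (by omega) (by omega), ?_⟩
  intro m hm
  refine h2 (a + 1) m (le_trans ?_ hm)
  have : 1 * (a + 1) ≤ (b - a) * (a + 1) := Nat.mul_le_mul_right _ (by omega)
  omega

theorem Per.cast {J : Type} {u : J → J} {K : ℕ} [NeZero K] (h : Per u K) (n : ℤ) (hn : (K : ℤ) ≤ n) :
    u^[n.toNat] = u^[K + ((n : ZMod K)).val] := by
  have hK : (0 : ℤ) < K := by exact_mod_cast Nat.pos_of_ne_zero (NeZero.ne K)
  have h1 : (((n : ZMod K).val : ℕ) : ℤ) = n % K := ZMod.val_intCast n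
  have h2 : n = K * (n / K) + n % K := (Int.mul_ediv_add_emod n K).symm
  have h3 : 1 ≤ n / K := by
    rw [Int.le_ediv_iff_mul_le hK]
    linarith
  obtain ⟨q, hq⟩ := Int.eq_ofNat_of_zero_le (show 0 ≤ n / K - 1 by linarith)
  have h4 : n.toNat = (K + (n : ZMod K).val) + K * q := by
    have : n = (((K + (n : ZMod K).val) + K * q : ℕ) : ℤ) := by
      push_cast
      rw [h1]
      have h5 : n / K = q + 1 := by linarith
      conv_lhs => rw [h2, h5]
      ring
    conv_lhs => rw [this]
    exact Int.toNat_natCast _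
  rw [h4]
  exact h.add_mul (Nat.le_add_right _ _) q

variable {J : Type}

/-- the walk through `j` -/
def walk (nx pv : J → J) (j : J) (n : ℤ) : J := if 0 ≤ n then nx^[n.toNat] j else pv^[(-n).toNat] j

theorem walk_zero (nx pv : J → J) (j : J) : walk nx pv j 0 = j := rfl

theorem walk_step {A : Type} {a b : J → A} {nx pv : J → J} (h1 : ∀ j, b (nx j) = a j)
    (h2 : ∀ j, a (pv j) = b j) (j : J) (n : ℤ) :
    b (walk nx pv j n) = a (walk nx pv j (n - 1)) := by
  unfold walk
  by_cases hn : 0 ≤ n - 1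
  · rw [if_pos hn, if_pos (by linarith)]
    have : n.toNat = (n - 1).toNat + 1 := by omega
    rw [this, Function.iterate_succ', Function.comp_apply, h1]
  · rw [if_neg hn]
    have : (-(n - 1)).toNat = (-n).toNat + 1 := by omega
    rw [this, Function.iterate_succ', Function.comp_apply, h2]
    by_cases hn' : 0 ≤ n
    · rw [if_pos hn']
      have h0 : n = 0 := by omega
      subst h0
      rfl
    · rw [if_neg hn']

end walk

/-! ### the group of the eventually periodic monomial transformations -/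

section evper

variable (J G : Type) [Group G] (K : ℕ)

/-- the shift -/
def sh (J : Type) {Z : Type} [AddCommGroup Z] (k : Z) : Equiv.Perm (J × Z) :=
  Equiv.prodCongr (Equiv.refl J) (Equiv.addRight k)

theorem sh_apply {J Z : Type} [AddCommGroup Z] (k : Z) (j : J) (n : Z) : sh J k (j, n) = (j, n + k) :=
  rfl

theorem sh_mul {J Z : Type} [AddCommGroup Z] (k l : Z) : sh J k * sh J l = sh J (k + l) := by
  apply Equiv.ext
  rintro ⟨j, n⟩
  show (j, n + l + k) = (j, n + (k + l))
  rw [add_assoc, add_comm l k]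

theorem sh_zero {J Z : Type} [AddCommGroup Z] : sh J (0 : Z) = 1 := by
  apply Equiv.ext
  rintro ⟨j, n⟩
  show (j, n + 0) = (j, n)
  rw [add_zero]

theorem sh_inv {J Z : Type} [AddCommGroup Z] (k : Z) : (sh J k)⁻¹ = sh J (-k) := by
  rw [inv_eq_iff_mul_eq_one, sh_mul, add_neg_cancel, sh_zero]

/-- the ambient group -/
abbrev Amb : Type := Wr (J × ℤ) G × (Wr (J × ZMod K) G × Wr (J × ZMod K) G × Multiplicative ℤ)

/-- membership in the group of the eventually periodic monomial transformations -/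
structure IsEv (x : Amb J G K) : Prop where
  p0 : x.1.p = sh J (Multiplicative.toAdd x.2.2.2)
  p1 : x.2.1.p = sh J ((Multiplicative.toAdd x.2.2.2 : ℤ) : ZMod K)
  p2 : x.2.2.1.p = sh J ((Multiplicative.toAdd x.2.2.2 : ℤ) : ZMod K)
  lim : ∃ T : ℤ, ∀ (j : J) (n : ℤ), T ≤ n → x.1.s (j, n) = x.2.1.s (j, (n : ZMod K)) ∧
    x.1.s (j, -n) = x.2.2.1.s (j, ((-n : ℤ) : ZMod K))

/-- the group of the eventually periodic monomial transformations -/
def Ev : Subgroup (Amb J G K) where
  carrier := {x | IsEv J G K x}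
  one_mem' := by
    refine ⟨?_, ?_, ?_, 0, fun j n _ => ⟨rfl, rfl⟩⟩
    · show (1 : Equiv.Perm (J × ℤ)) = sh J (0 : ℤ)
      rw [sh_zero]
    · show (1 : Equiv.Perm (J × ZMod K)) = sh J ((0 : ℤ) : ZMod K)
      rw [Int.cast_zero, sh_zero]
    · show (1 : Equiv.Perm (J × ZMod K)) = sh J ((0 : ℤ) : ZMod K)
      rw [Int.cast_zero, sh_zero]
  mul_mem' := by
    intro x y hx hy
    have hx' : IsEv J G K x := hx
    have hy' : IsEv J G K y := hy
    obtain ⟨T, hT⟩ := hx'.lim
    obtain ⟨S, hS⟩ := hy'.lim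
    refine ⟨?_, ?_, ?_, max (T + |Multiplicative.toAdd y.2.2.2|) S, fun j n hn => ⟨?_, ?_⟩⟩
    · show x.1.p * y.1.p = sh J (Multiplicative.toAdd x.2.2.2 + Multiplicative.toAdd y.2.2.2)
      rw [hx'.p0, hy'.p0, sh_mul]
    · show x.2.1.p * y.2.1.p =
        sh J ((Multiplicative.toAdd x.2.2.2 + Multiplicative.toAdd y.2.2.2 : ℤ) : ZMod K)
      rw [hx'.p1, hy'.p1, sh_mul, Int.cast_add]
    · show x.2.2.1.p * y.2.2.1.p =
        sh J ((Multiplicative.toAdd x.2.2.2 + Multiplicative.toAdd y.2.2.2 : ℤ) : ZMod K)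
      rw [hx'.p2, hy'.p2, sh_mul, Int.cast_add]
    · show x.1.s (y.1.p (j, n)) * y.1.s (j, n) =
        x.2.1.s (y.2.1.p (j, (n : ZMod K))) * y.2.1.s (j, (n : ZMod K))
      rw [hy'.p0, hy'.p1, sh_apply, sh_apply, (hS j n (le_trans (le_max_right _ _) hn)).1]
      have h1 : T ≤ n + Multiplicative.toAdd y.2.2.2 := by
        have := neg_abs_le (Multiplicative.toAdd y.2.2.2)
        have := le_trans (le_max_left _ _) hn
        linarith
      rw [(hT j _ h1).1, Int.cast_add]
    · show x.1.s (y.1.p (j, -n)) * y.1.s (j, -n) =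
        x.2.2.1.s (y.2.2.1.p (j, ((-n : ℤ) : ZMod K))) * y.2.2.1.s (j, ((-n : ℤ) : ZMod K))
      rw [hy'.p0, hy'.p2, sh_apply, sh_apply, (hS j n (le_trans (le_max_right _ _) hn)).2]
      have h1 : T ≤ n - Multiplicative.toAdd y.2.2.2 := by
        have := le_abs_self (Multiplicative.toAdd y.2.2.2)
        have := le_trans (le_max_left _ _) hn
        linarith
      have h2 := (hT j _ h1).2
      have h3 : -(n - Multiplicative.toAdd y.2.2.2) = -n + Multiplicative.toAdd y.2.2.2 := by ring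
      rw [h3] at h2
      rw [h2, Int.cast_add]
  inv_mem' := by
    intro x hx
    have hx' : IsEv J G K x := hx
    obtain ⟨T, hT⟩ := hx'.lim
    refine ⟨?_, ?_, ?_, T + |Multiplicative.toAdd x.2.2.2|, fun j n hn => ⟨?_, ?_⟩⟩
    · show (x.1.p)⁻¹ = sh J (-Multiplicative.toAdd x.2.2.2)
      rw [hx'.p0, sh_inv]
    · show (x.2.1.p)⁻¹ = sh J ((-Multiplicative.toAdd x.2.2.2 : ℤ) : ZMod K)
      rw [hx'.p1, sh_inv, Int.cast_neg]
    · show (x.2.2.1.p)⁻¹ = sh J ((-Multiplicative.toAdd x.2.2.2 : ℤ) : ZMod K)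
      rw [hx'.p2, sh_inv, Int.cast_neg]
    · show (x.1.s ((x.1.p)⁻¹ (j, n)))⁻¹ = (x.2.1.s ((x.2.1.p)⁻¹ (j, (n : ZMod K))))⁻¹
      rw [hx'.p0, hx'.p1, sh_inv, sh_inv, sh_apply, sh_apply]
      have h1 : T ≤ n + -Multiplicative.toAdd x.2.2.2 := by
        have := le_abs_self (Multiplicative.toAdd x.2.2.2)
        linarith
      rw [(hT j _ h1).1, Int.cast_add, Int.cast_neg]
    · show (x.1.s ((x.1.p)⁻¹ (j, -n)))⁻¹ = (x.2.2.1.s ((x.2.2.1.p)⁻¹ (j, ((-n : ℤ) : ZMod K))))⁻¹
      rw [hx'.p0, hx'.p2, sh_inv, sh_inv, sh_apply, sh_apply]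
      have h1 : T ≤ n + Multiplicative.toAdd x.2.2.2 := by
        have := neg_abs_le (Multiplicative.toAdd x.2.2.2)
        linarith
      have h2 := (hT j _ h1).2
      have h3 : -(n + Multiplicative.toAdd x.2.2.2) = -n + -Multiplicative.toAdd x.2.2.2 := by ring
      rw [h3] at h2
      rw [h2]
      simp only [Int.cast_add, Int.cast_neg]

variable {J G K}

/-- elements of the group are determined by the first and the last component -/
theorem Ev.ext [NeZero K] {x y : Amb J G K} (hx : x ∈ Ev J G K) (hy : y ∈ Ev J G K)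
    (h1 : x.1 = y.1) (h2 : x.2.2.2 = y.2.2.2) : x = y := by
  have hx' : IsEv J G K x := hx
  have hy' : IsEv J G K y := hy
  obtain ⟨T, hT⟩ := hx'.lim
  obtain ⟨S, hS⟩ := hy'.lim
  have hK : (0 : ℤ) < K := by exact_mod_cast Nat.pos_of_ne_zero (NeZero.ne K)
  -- large representatives
  have hrep : ∀ (c : ZMod K) (B : ℤ), ∃ n : ℤ, B ≤ n ∧ (n : ZMod K) = c := by
    intro c B
    refine ⟨(c.val : ℤ) + K * |B|, ?_, ?_⟩
    · have h3 : B ≤ |B| := le_abs_self B
      have h4 : |B| ≤ K * |B| := by nlinarith [abs_nonneg B]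
      have h5 : (0 : ℤ) ≤ (c.val : ℤ) := by positivity
      linarith
    · push_cast
      simp
  apply Prod.ext h1
  apply Prod.ext
  · apply Wr.ext
    · funext ⟨j, c⟩
      obtain ⟨n, hn, hc⟩ := hrep c (max T S)
      have e1 := (hT j n (le_trans (le_max_left _ _) hn)).1
      have e2 := (hS j n (le_trans (le_max_right _ _) hn)).1
      rw [hc] at e1 e2
      rw [← e1, ← e2, h1]
    · rw [hx'.p1, hy'.p1, h2]
  · apply Prod.ext
    · apply Wr.ext
      · funext ⟨j, c⟩
        obtain ⟨n, hn, hc⟩ := hrep (-c) (max T S)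
        have e1 := (hT j n (le_trans (le_max_left _ _) hn)).2
        have e2 := (hS j n (le_trans (le_max_right _ _) hn)).2
        have hc' : ((-n : ℤ) : ZMod K) = c := by rw [Int.cast_neg, hc, neg_neg]
        rw [hc'] at e1 e2
        rw [← e1, ← e2, h1]
      · rw [hx'.p2, hy'.p2, h2]
    · exact h2

/-- the group is in the class -/
theorem c_Ev {C : ∀ (G : Type) [Group G], Prop} (hC : ClosedE C) (hG : C G) [Finite J] [NeZero K] :
    C (Ev J G K) := by
  have hW : C (Wr (J × ZMod K) G) :=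
    Pool.Agent.Y812.SS.t_wr C hC.base (J × ZMod K) G inferInstance hG
  let ρ : Ev J G K →* Wr (J × ℤ) G := (MonoidHom.fst _ _).comp (Ev J G K).subtype
  let π : Ev J G K →* (Wr (J × ZMod K) G × Wr (J × ZMod K) G × Multiplicative ℤ) :=
    (MonoidHom.snd _ _).comp (Ev J G K).subtype
  refine mono2 hC hG (hC.base.prod _ _ hW (hC.base.prod _ _ hW hC.base.int)) ρ π ?_ ?_
  · rintro ⟨x, hx⟩ h
    have hx' : IsEv J G K x := hx
    obtain ⟨T, hT⟩ := hx'.lim
    have h' : x.2 = 1 := h
    have hfin : ((Set.univ : Set J) ×ˢ Set.Icc (-T) T).Finite :=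
      Set.Finite.prod Set.finite_univ (Set.finite_Icc _ _)
    refine Set.Finite.subset hfin ?_
    rintro ⟨j, n⟩ hn
    by_contra hcon
    have hcon' : ¬ (-T ≤ n ∧ n ≤ T) := fun hh => hcon ⟨Set.mem_univ _, hh⟩
    apply hn |> (not_wsupp.2 ?_)
    have hp : x.1.p = 1 := by
      rw [hx'.p0, h']
      exact sh_zero
    refine ⟨?_, by
      show x.1.p (j, n) = (j, n)
      rw [hp]; rfl⟩
    show x.1.s (j, n) = 1
    by_cases h1 : T ≤ n
    · rw [(hT j n h1).1, h']
      rfl
    · have h2 : T ≤ -n := by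
        by_contra h3
        apply hcon'
        constructor <;> omega
      have h3 := (hT j (-n) h2).2
      rw [neg_neg] at h3
      rw [h3, h']
      rfl
  · rintro ⟨x, hx⟩ h1 h2
    apply Subtype.ext
    exact Prod.ext h2 h1

/-- **the realization** -/
theorem walk_real {C : ∀ (G : Type) [Group G], Prop} (hC : ClosedE C) (hG : C G) [Finite J]
    {A : Type} (a b : J → A) (h1 : ∀ j, ∃ j', b j' = a j) (h2 : ∀ j, ∃ j', a j' = b j) :
    ∃ (P : Type) (_ : Group P) (F : (J → G) →* P) (p : P), C P ∧ Function.Injective F ∧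
      ∀ h : A → G, F (fun j => h (b j)) = p * F (fun j => h (a j)) * p⁻¹ := by
  choose nx hnx using h1
  choose pv hpv using h2
  obtain ⟨K1, hK1, hP1⟩ := exists_per nx
  obtain ⟨K2, hK2, hP2⟩ := exists_per pv
  let K := K1 * K2
  have hK : 0 < K := Nat.mul_pos hK1 hK2
  have : NeZero K := ⟨hK.ne'⟩
  have hPn : Per nx K := hP1.mul K2 hK2
  have hPp : Per pv K := by
    show Per pv (K1 * K2)
    rw [mul_comm]
    exact hP2.mul K1 hK1
  let w : J → ℤ → J := walk nx pv
  let w1 : J × ZMod K → J := fun x => nx^[K + x.2.val] x.1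
  let w2 : J × ZMod K → J := fun x => pv^[K + (-x.2).val] x.1
  have hw1 : ∀ (j : J) (n : ℤ), (K : ℤ) ≤ n → w j n = w1 (j, (n : ZMod K)) := by
    intro j n hn
    show walk nx pv j n = nx^[K + (n : ZMod K).val] j
    have h0 : 0 ≤ n := le_trans (by positivity) hn
    unfold walk
    rw [if_pos h0, hPn.cast n hn]
  have hw2 : ∀ (j : J) (n : ℤ), (K : ℤ) ≤ n → w j (-n) = w2 (j, ((-n : ℤ) : ZMod K)) := by
    intro j n hn
    show walk nx pv j (-n) = pv^[K + (-(((-n : ℤ) : ZMod K))).val] j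
    have h0 : ¬ (0 ≤ -n) := by
      have : (0 : ℤ) < K := by exact_mod_cast hK
      omega
    unfold walk
    rw [if_neg h0, neg_neg, hPp.cast n hn, Int.cast_neg, neg_neg]
  let F0 : (J → G) → Amb J G K := fun h =>
    (⟨fun x => h (w x.1 x.2), 1⟩, ⟨fun x => h (w1 x), 1⟩, ⟨fun x => h (w2 x), 1⟩, 1)
  have hF0 : ∀ h, F0 h ∈ Ev J G K := by
    intro h
    refine ⟨?_, ?_, ?_, K, fun j n hn => ⟨?_, ?_⟩⟩
    · show (1 : Equiv.Perm (J × ℤ)) = sh J (0 : ℤ)
      rw [sh_zero]
    · show (1 : Equiv.Perm (J × ZMod K)) = sh J ((0 : ℤ) : ZMod K)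
      rw [Int.cast_zero, sh_zero]
    · show (1 : Equiv.Perm (J × ZMod K)) = sh J ((0 : ℤ) : ZMod K)
      rw [Int.cast_zero, sh_zero]
    · show h (w j n) = h (w1 (j, (n : ZMod K)))
      rw [hw1 j n hn]
    · show h (w j (-n)) = h (w2 (j, ((-n : ℤ) : ZMod K)))
      rw [hw2 j n hn]
  let F : (J → G) →* Ev J G K :=
    { toFun := fun h => ⟨F0 h, hF0 h⟩
      map_one' := rfl
      map_mul' := fun h h' => rfl }
  let p0 : Amb J G K := (⟨fun _ => 1, sh J 1⟩, ⟨fun _ => 1, sh J 1⟩, ⟨fun _ => 1, sh J 1⟩,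
    Multiplicative.ofAdd 1)
  have hp0 : p0 ∈ Ev J G K := by
    refine ⟨rfl, ?_, ?_, 0, fun j n _ => ⟨rfl, rfl⟩⟩
    · show sh J (1 : ZMod K) = sh J ((1 : ℤ) : ZMod K)
      rw [Int.cast_one]
    · show sh J (1 : ZMod K) = sh J ((1 : ℤ) : ZMod K)
      rw [Int.cast_one]
  refine ⟨Ev J G K, inferInstance, F, ⟨p0, hp0⟩, c_Ev hC hG, ?_, ?_⟩
  · intro h h' hh
    funext j
    have e1 : F0 h = F0 h' := congrArg Subtype.val hh
    have e2 : (F0 h).1.s (j, 0) = (F0 h').1.s (j, 0) := by rw [e1]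
    exact e2
  · intro h
    apply Subtype.ext
    refine Ev.ext (hF0 fun j => h (b j)) (mul_mem (mul_mem hp0 (hF0 fun j => h (a j))) (inv_mem hp0)) ?_ ?_
    · apply Wr.ext
      · funext ⟨j, n⟩
        show h (b (w j n)) = (p0.1 * (F0 fun j => h (a j)).1 * (p0.1)⁻¹).s (j, n)
        have e3 : (p0.1)⁻¹.p (j, n) = (j, n - 1) := by
          show (sh J (1 : ℤ))⁻¹ (j, n) = (j, n - 1)
          rw [sh_inv, sh_apply, sub_eq_add_neg]
        rw [Wr.mul_s, e3, Wr.mul_s]
        show _ = 1 * h (a (w j (n - 1))) * 1⁻¹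
        rw [one_mul, inv_one, mul_one, ← walk_step hnx hpv j n]
      · show (1 : Equiv.Perm (J × ℤ)) = sh J (1 : ℤ) * 1 * (sh J (1 : ℤ))⁻¹
        rw [mul_one, mul_inv_cancel]
    · show (1 : Multiplicative ℤ) = Multiplicative.ofAdd 1 * 1 * (Multiplicative.ofAdd 1)⁻¹
      rw [mul_one, mul_inv_cancel]

end evper

/-! ### the main theorem -/

section main

variable {X G Q : Type} [Group G] [Group Q] [MulAction Q X]
variable {C : ∀ (G : Type) [Group G], Prop}

/-- functions with finitely many values, untwisted actions -/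
theorem c_fr (hC : ClosedE C) (hG : C G) (hQ : C Q) :
    C (FR X G ⋊[frAct X (1 : Q →* MulAut G)] Q) := by
  refine semi_real hC _ hQ fun q E hE => ?_
  have : Finite E := hE.to_subtype
  let α : X → (E → G) := fun x e => (e : FR X G).f x
  have hα : (Set.range α).Finite := by
    refine Set.Finite.subset (Set.Finite.pi (t := fun e : E => Set.range (e : FR X G).f)
      (fun e => (e : FR X G).fin)) ?_
    rintro _ ⟨x, rfl⟩ e _
    exact ⟨x, rfl⟩
  let J : Set ((E → G) × (E → G)) := Set.range fun x => (α x, α (q⁻¹ • x))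
  have hJ : J.Finite := by
    refine Set.Finite.subset (hα.prod hα) ?_
    rintro _ ⟨x, rfl⟩
    exact ⟨⟨x, rfl⟩, ⟨_, rfl⟩⟩
  have : Finite J := hJ.to_subtype
  let pr : X → J := fun x => ⟨_, ⟨x, rfl⟩⟩
  have hpr : Function.Surjective pr := by
    rintro ⟨_, ⟨x, rfl⟩⟩
    exact ⟨x, rfl⟩
  let ι : (J → G) →* FR X G :=
    { toFun := fun h => ⟨fun x => h (pr x), by
        refine Set.Finite.subset (Set.finite_range h) ?_
        rintro _ ⟨x, rfl⟩
        exact ⟨_, rfl⟩⟩
      map_one' := rfl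
      map_mul' := fun h h' => rfl }
  have hι : Function.Injective ι := by
    intro h h' hh
    funext j
    obtain ⟨x, rfl⟩ := hpr j
    exact congrFun (congrArg FR.f hh) x
  let eι : (J → G) ≃* ι.range := MonoidHom.ofInjective hι
  obtain ⟨P, hP, F, p, hCP, hF, hrel⟩ := walk_real hC hG (J := J)
    (fun j => j.1.1) (fun j => j.1.2) (by
      intro j
      obtain ⟨x, rfl⟩ := hpr j
      refine ⟨pr (q • x), ?_⟩
      show α (q⁻¹ • q • x) = α x
      rw [inv_smul_smul]) (by
      intro j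
      obtain ⟨x, rfl⟩ := hpr j
      exact ⟨pr (q⁻¹ • x), rfl⟩)
  refine ⟨ι.range, P, hP, F.comp eι.symm.toMonoidHom, p, hCP, hF.comp eι.symm.injective,
    fun e he => ?_⟩
  let h : (E → G) → G := fun v => v ⟨e, he⟩
  have h1 : ι (fun j => h (j.1.1)) = e := rfl
  have h2 : ι (fun j => h (j.1.2)) = frAct X (1 : Q →* MulAut G) q e := rfl
  refine ⟨⟨_, h1⟩, ⟨_, h2⟩, ?_⟩
  have e1 : eι.symm ⟨e, ⟨_, h1⟩⟩ = fun j => h (j.1.1) := by
    rw [MulEquiv.symm_apply_eq]
    exact Subtype.ext h1.symm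
  have e2 : eι.symm ⟨frAct X (1 : Q →* MulAut G) q e, ⟨_, h2⟩⟩ = fun j => h (j.1.2) := by
    rw [MulEquiv.symm_apply_eq]
    exact Subtype.ext h2.symm
  show F (eι.symm ⟨frAct X (1 : Q →* MulAut G) q e, _⟩) = p * F (eι.symm ⟨e, _⟩) * p⁻¹
  rw [e1, e2]
  exact hrel h

/-- the embedding which untwists the action -/
def untwist (X : Type) [MulAction Q X] (θ : Q →* MulAut G) : FR X G ⋊[frAct X θ] Q →*
    FR X (G ⋊[θ] Q) ⋊[frAct X (1 : Q →* MulAut (G ⋊[θ] Q))] Q where
  toFun w := ⟨⟨fun x => ⟨w.left.f x, w.right⟩, by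
    refine Set.Finite.subset (w.left.fin.image fun y => (⟨y, w.right⟩ : G ⋊[θ] Q)) ?_
    rintro _ ⟨x, rfl⟩
    exact ⟨_, ⟨x, rfl⟩, rfl⟩⟩, w.right⟩
  map_one' := rfl
  map_mul' w w' := rfl

theorem untwist_injective (θ : Q →* MulAut G) : Function.Injective (untwist X θ) := by
  intro w w' h
  have h1 : (untwist X θ w).right = (untwist X θ w').right := by rw [h]
  have h2 : (untwist X θ w).left = (untwist X θ w').left := by rw [h]
  apply SemidirectProduct.ext
  · apply FR.ext
    funext x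
    exact congrArg SemidirectProduct.left (congrFun (congrArg FR.f h2) x)
  · exact h1

/-- the constant functions -/
def constS (X : Type) [MulAction Q X] (θ : Q →* MulAut G) : G ⋊[θ] Q →* FR X G ⋊[frAct X θ] Q where
  toFun w := ⟨⟨fun _ => w.left, Set.Finite.subset (Set.finite_singleton w.left) (by
    rintro _ ⟨x, rfl⟩; rfl)⟩, w.right⟩
  map_one' := rfl
  map_mul' w w' := rfl

theorem constS_injective [Nonempty X] (θ : Q →* MulAut G) : Function.Injective (constS X θ) := by
  intro w w' h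
  have h2 : (constS X θ w).left = (constS X θ w').left := by rw [h]
  have h1 : (constS X θ w).right = (constS X θ w').right := by rw [h]
  apply SemidirectProduct.ext
  · exact congrFun (congrArg FR.f h2) (Classical.arbitrary X)
  · exact h1

/-- **functions with finitely many values** -/
theorem fr_iff (hC : ClosedE C) [Nonempty X] (θ : Q →* MulAut G) :
    C (FR X G ⋊[frAct X θ] Q) ↔ C (G ⋊[θ] Q) := by
  constructor
  · intro h
    exact hC.base.of_injective _ _ (constS X θ) (constS_injective θ) h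
  · intro h
    have hQ : C Q := hC.base.of_injective _ _ (SemidirectProduct.inr : Q →* G ⋊[θ] Q)
      SemidirectProduct.inr_injective h
    exact hC.base.of_injective _ _ (untwist X θ) (untwist_injective θ) (c_fr hC h hQ)

end main

/-! ### diagonal HNN extensions -/

section diag

variable {J K G : Type} [Group G]

theorem dg_one' (a : J → Option K) : (fun j => (a j).elim (1 : G) (1 : K → G)) = 1 := by
  funext j
  cases a j <;> rfl

theorem dg_mul' (a : J → Option K) (h h' : K → G) : (fun j => (a j).elim (1 : G) (h * h')) =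
    (fun j => (a j).elim 1 h) * fun j => (a j).elim 1 h' := by
  funext j
  show (a j).elim 1 (h * h') = (a j).elim 1 h * (a j).elim 1 h'
  cases a j with
  | none => simp
  | some k => rfl

/-- the homomorphism `G^K → G^J` given by a map to `K`, defined on a part of `J`: the value at `j` is the
value at the image of `j`, and it is `1` outside of the domain of the map. -/
def dg (a : J → Option K) : (K → G) →* (J → G) where
  toFun h j := (a j).elim 1 h
  map_one' := dg_one' a
  map_mul' := dg_mul' a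

/-- extension by `1` to a further coordinate -/
def extO : (J → G) →* (Option J → G) where
  toFun y j := j.elim 1 y
  map_one' := by
    funext j
    cases j <;> rfl
  map_mul' h h' := by
    funext j
    cases j with
    | none => exact (mul_one _).symm
    | some k => rfl

theorem diag_real {C : ∀ (G : Type) [Group G], Prop} (hC : ClosedE C) (hG : C G) [Finite J]
    (a b : J → Option K) (ha : ∀ k, ∃ j, a j = some k) (hb : ∀ k, ∃ j, b j = some k) :
    ∃ (P : Type) (_ : Group P) (F : (J → G) →* P) (p : P), C P ∧ Function.Injective F ∧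
      ∀ h : K → G, F (dg b h) = p * F (dg a h) * p⁻¹ := by
  obtain ⟨P, hP, F, p, hCP, hF, hrel⟩ := walk_real hC hG (J := Option J) (A := Option K)
    (fun j => j.bind a) (fun j => j.bind b) (by
      intro j
      cases hj : j.bind a with
      | none => exact ⟨none, rfl⟩
      | some k =>
        obtain ⟨i, hi⟩ := hb k
        exact ⟨some i, hi⟩) (by
      intro j
      cases hj : j.bind b with
      | none => exact ⟨none, rfl⟩
      | some k =>
        obtain ⟨i, hi⟩ := ha k
        exact ⟨some i, hi⟩)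
  have hext : Function.Injective (extO : (J → G) →* (Option J → G)) := by
    intro y y' h
    funext j
    exact congrFun h (some j)
  have hdg : ∀ (c : J → Option K) (h : K → G),
      extO (dg c h) = fun j : Option J => (fun k : Option K => k.elim 1 h) (j.bind c) := by
    intro c h
    funext j
    cases j <;> rfl
  refine ⟨P, hP, F.comp extO, p, hCP, hF.comp hext, fun h => ?_⟩
  rw [MonoidHom.comp_apply, MonoidHom.comp_apply, hdg, hdg]
  exact hrel (fun k : Option K => k.elim 1 h)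

/-- **diagonal HNN extensions** -/
theorem diag_hnn {C : ∀ (G : Type) [Group G], Prop} (hC : ClosedE C) (hG : C G) [Finite J]
    (a b : J → Option K) (ha : ∀ k, ∃ j, a j = some k) (hb : ∀ k, ∃ j, b j = some k)
    (A B : Subgroup (J → G)) (φ : A ≃* B)
    (hφ : ∀ x : A, ∃ h : K → G, (x : J → G) = dg a h ∧ (φ x : J → G) = dg b h) :
    C (HNNExtension (J → G) A B φ) := by
  obtain ⟨P, hP, F, p, hCP, hF, hrel⟩ := diag_real hC hG a b ha hb
  let f : HNNExtension (J → G) A B φ →* P := HNNExtension.lift F p (by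
    intro x
    obtain ⟨h, e1, e2⟩ := hφ x
    rw [e1, e2, hrel]
    group)
  refine hnn C hC _ P A B φ f ?_ hCP
  have : f.comp HNNExtension.of = F := by
    ext1 y
    simp [f]
  rw [this]
  exact hF

end diag


end Pool.Agent.X176.FJ
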