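import Mathlib
import Pool.Agent.X176.FJ.Clique
import Pool.Agent.X176.FJ.Hnn

/-!
Subgroups of amalgamated products with a homomorphism to a group of the class which is injective on
the intersections with the conjugates of the factors.
-/

set_option autoImplicit false

namespace Pool.Agent.X176.FJ

open Pool.Agent.Y110.FJ
open Pool.Agent.Y462.SS (Closed)
open Pool.Agent.Y417.FJ (permAut_mk reduced_map Alt nf_all)

section ind

variable {G P : Type} [Group G] [Group P] (H : Subgroup G) (f : H →* P) (X : Type) [MulAction G X]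

/-- the relation which defines the induced `P`-set -/
def indSetoid : Setoid (P × X) where
  r a b := ∃ h : H, a.1 = b.1 * f h ∧ b.2 = (h : G) • a.2
  iseqv := by
    refine ⟨fun a => ⟨1, by simp, by simp⟩, ?_, ?_⟩
    · rintro a b ⟨h, h1, h2⟩
      refine ⟨h⁻¹, by rw [map_inv, h1, mul_inv_cancel_right], ?_⟩
      rw [h2, Subgroup.coe_inv, inv_smul_smul]
    · rintro a b c ⟨h, h1, h2⟩ ⟨h', h3, h4⟩
      refine ⟨h' * h, by rw [map_mul, h1, h3, mul_assoc], ?_⟩
      rw [h4, h2, Subgroup.coe_mul, mul_smul]

/-- the induced `P`-set -/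
def Ind : Type := Quotient (indSetoid H f X)

instance : MulAction P (Ind H f X) where
  smul p := Quotient.map' (s₁ := indSetoid H f X) (s₂ := indSetoid H f X) (fun a => (p * a.1, a.2)) (by
    rintro a b ⟨h, h1, h2⟩
    exact ⟨h, by show p * a.1 = p * b.1 * f h; rw [h1, mul_assoc], h2⟩)
  one_smul a := by
    induction a using Quotient.inductionOn' with
    | h a => exact congrArg (Quotient.mk (indSetoid H f X)) (Prod.ext (one_mul _) rfl)
  mul_smul p q a := by
    induction a using Quotient.inductionOn' with
    | h a => exact congrArg (Quotient.mk (indSetoid H f X)) (Prod.ext (mul_assoc _ _ _) rfl)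

/-- the canonical map to the induced `P`-set -/
def toInd (x : X) : Ind H f X := Quotient.mk (indSetoid H f X) (1, x)

theorem toInd_smul (h : H) (x : X) : toInd H f X ((h : G) • x) = f h • toInd H f X x := by
  apply Quotient.sound
  refine ⟨h⁻¹, ?_, ?_⟩
  · show (1 : P) = f h * 1 * f h⁻¹
    rw [mul_one, map_inv, mul_inv_cancel]
  · show x = ((h⁻¹ : H) : G) • ((h : G) • x)
    rw [Subgroup.coe_inv, inv_smul_smul]

theorem toInd_eq {x y : X} (h : toInd H f X x = toInd H f X y) :
    ∃ k : H, f k = 1 ∧ y = (k : G) • x := by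
  obtain ⟨k, h1, h2⟩ := Quotient.exact h
  exact ⟨k, by simpa using h1.symm, h2⟩

end ind

/-- **subgroups of amalgamated products** -/
theorem sub_am {C : ∀ (G : Type) [Group G], Prop} (hC : ClosedE C) {G P : Type} [Group G] [Group P]
    {A B K : Subgroup G} (hamg : Amg A B K) (H : Subgroup G) (f : H →* P)
    (hfA : ∀ (g : G), ∀ a ∈ A, ∀ h : g * a * g⁻¹ ∈ H, f ⟨_, h⟩ = 1 → a = 1)
    (hfB : ∀ (g : G), ∀ b ∈ B, ∀ h : g * b * g⁻¹ ∈ H, f ⟨_, h⟩ = 1 → b = 1)
    (hCP : C P) : C H := by
  classical
  let X : Type := G ⧸ K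
  let x1 : X := ((1 : G) : G ⧸ K)
  let z : FreeGroup X ⋊[permAut X G] G := SemidirectProduct.inl (FreeGroup.of x1)
  have hx1 : ∀ p : G, p • x1 = x1 ↔ p ∈ K := by
    intro p
    show ((p * 1 : G) : G ⧸ K) = ((1 : G) : G ⧸ K) ↔ _
    rw [mul_one, eq_comm, QuotientGroup.eq]
    simp
  have hz : ∀ p : G, p ∈ K →
      z * SemidirectProduct.inr p * z⁻¹ = (SemidirectProduct.inr p : FreeGroup X ⋊[permAut X G] G) := by
    intro p hp
    have h1 : (permAut X G p) (FreeGroup.of x1) = FreeGroup.of x1 := by
      have := permAut_mk p [((x1, true) : X × Bool)]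
      have h2 : (permAut X G p) (FreeGroup.of x1) = FreeGroup.of (p • x1) := this
      rw [h2, (hx1 p).2 hp]
    have h3 : (SemidirectProduct.inr p : FreeGroup X ⋊[permAut X G] G) * z * (SemidirectProduct.inr p)⁻¹ = z := by
      rw [← map_inv, ← SemidirectProduct.inl_aut, h1]
    have h4 : (SemidirectProduct.inr p : FreeGroup X ⋊[permAut X G] G) * z = z * SemidirectProduct.inr p := by
      rw [mul_inv_eq_iff_eq_mul] at h3; exact h3
    rw [← h4, mul_inv_cancel_right]
  let fA : A →* FreeGroup X ⋊[permAut X G] G := SemidirectProduct.inr.comp A.subtype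
  let fB : B →* FreeGroup X ⋊[permAut X G] G :=
    ((MulAut.conj z).toMonoidHom.comp SemidirectProduct.inr).comp B.subtype
  obtain ⟨Θ, hΘA, hΘB⟩ := hamg.univ (FreeGroup X ⋊[permAut X G] G) fA fB (by
    intro c hc
    show SemidirectProduct.inr c = z * SemidirectProduct.inr c * z⁻¹
    rw [hz c hc])
  have hA' : ∀ a ∈ A, Θ a = SemidirectProduct.inr a := fun a ha => hΘA ⟨a, ha⟩
  have hB' : ∀ b ∈ B, Θ b = z * SemidirectProduct.inr b * z⁻¹ := fun b hb => hΘB ⟨b, hb⟩
  have hright : ∀ g : G, (Θ g).right = g := by
    intro g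
    have hg : g ∈ Subgroup.closure ((A : Set G) ∪ B) := by
      rw [← Subgroup.sup_eq_closure, hamg.gen]; trivial
    induction hg using Subgroup.closure_induction with
    | mem x hx =>
      rcases hx with hx | hx
      · rw [hA' x hx]; simp
      · rw [hB' x hx]; simp [z]
    | one => simp
    | mul x y _ _ hx hy => rw [map_mul, SemidirectProduct.mul_right, hx, hy]
    | inv x _ hx => rw [map_inv, SemidirectProduct.inv_right, hx]
  let w : G → FreeGroup X := fun g => (Θ g).left
  have hleft : ∀ g h : G, w (g * h) = w g * permAut X G g (w h) := by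
    intro g h
    show (Θ (g * h)).left = _
    rw [map_mul, SemidirectProduct.mul_left, hright]
  have hlA : ∀ a ∈ A, w a = 1 := by
    intro a ha
    show (Θ a).left = 1
    rw [hA' a ha]; simp
  have hlB : ∀ b ∈ B, w b = FreeGroup.mk [(x1, true), (b • x1, false)] := by
    intro b hb
    show (Θ b).left = _
    rw [hB' b hb]
    have h1 : (z * SemidirectProduct.inr b * z⁻¹).left
        = FreeGroup.of x1 * permAut X G b (FreeGroup.of x1)⁻¹ := by
      simp [z, SemidirectProduct.mul_left]
    have h2 : permAut X G b (FreeGroup.of x1)⁻¹ = FreeGroup.mk [((b • x1, false) : X × Bool)] := by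
      have := permAut_mk b [((x1, false) : X × Bool)]
      rw [FreeGroup.of, FreeGroup.inv_mk]
      exact this
    rw [h1, h2, FreeGroup.of, FreeGroup.mul_mk]
    rfl
  let π : X → Ind H f X := toInd H f X
  let push : List (X × Bool) → List (Ind H f X × Bool) := fun L => L.map fun q => (π q.1, q.2)
  have hpush : ∀ L, FreeGroup.map π (FreeGroup.mk L) = FreeGroup.mk (push L) := fun L =>
    FreeGroup.map.mk
  have hmapsm : ∀ (h : H) (u : FreeGroup X), FreeGroup.map π (permAut X G h u) =
      permAut (Ind H f X) P (f h) (FreeGroup.map π u) := by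
    intro h u
    have : (FreeGroup.map π).comp (permAut X G (h : G)).toMonoidHom =
        (permAut (Ind H f X) P (f h)).toMonoidHom.comp (FreeGroup.map π) := by
      apply FreeGroup.ext_hom
      intro x
      show FreeGroup.map π (permAut X G h (FreeGroup.of x)) =
        permAut (Ind H f X) P (f h) (FreeGroup.map π (FreeGroup.of x))
      have e1 : permAut X G h (FreeGroup.of x) = FreeGroup.of ((h : G) • x) :=
        permAut_mk (h : G) [((x, true) : X × Bool)]
      have e2 : permAut (Ind H f X) P (f h) (FreeGroup.of (π x)) = FreeGroup.of (f h • π x) :=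
        permAut_mk (f h) [((π x, true) : Ind H f X × Bool)]
      rw [e1, FreeGroup.map.of, FreeGroup.map.of, e2]
      exact congrArg _ (toInd_smul H f X h x)
    exact DFunLike.congr_fun this u
  let Ψ : H →* FreeGroup (Ind H f X) ⋊[permAut (Ind H f X) P] P :=
    { toFun := fun h => ⟨FreeGroup.map π (w h), f h⟩
      map_one' := by
        apply SemidirectProduct.ext
        · show FreeGroup.map π (w 1) = 1
          rw [hlA 1 A.one_mem, map_one]
        · exact map_one f
      map_mul' := fun g h => by
        apply SemidirectProduct.ext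
        · show FreeGroup.map π (w (g * h)) = FreeGroup.map π (w g) * permAut (Ind H f X) P (f g)
            (FreeGroup.map π (w h))
          rw [hleft, map_mul, hmapsm]
        · exact map_mul f g h }
  -- cancellations
  have key : ∀ (c m : G), π (c • x1) = π ((c * m) • x1) → ∀ D : Subgroup G, K ≤ D →
      (∀ (g : G), ∀ a ∈ D, ∀ h : g * a * g⁻¹ ∈ H, f ⟨_, h⟩ = 1 → a = 1) → m ∈ D → m ∈ K := by
    intro c m h D hKD hD hm
    obtain ⟨k, hk1, hk2⟩ := toInd_eq H f X h
    have h2 : ((k : G) * c) • x1 = (c * m) • x1 := by rw [hk2, mul_smul]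
    have h3 : ((c * m)⁻¹ * ((k : G) * c)) • x1 = x1 := by
      rw [mul_smul, h2, inv_smul_smul]
    have h4 := (hx1 _).1 h3
    have h5 : m * ((c * m)⁻¹ * ((k : G) * c)) ∈ D := D.mul_mem hm (hKD h4)
    have h6 : c * (m * ((c * m)⁻¹ * ((k : G) * c))) * c⁻¹ = k := by group
    have h7 : c * (m * ((c * m)⁻¹ * ((k : G) * c))) * c⁻¹ ∈ H := by rw [h6]; exact k.2
    have h8 := hD c _ h5 h7 (by
      have : (⟨_, h7⟩ : H) = k := Subtype.ext h6
      rw [this]; exact hk1)
    have h9 : m = ((c * m)⁻¹ * ((k : G) * c))⁻¹ := eq_inv_of_mul_eq_one_left h8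
    rw [h9]
    exact K.inv_mem h4
  have halt : ∀ g, Alt A B K g → ∃ L : List (X × Bool), w g = FreeGroup.mk ((x1, true) :: L) ∧
      ∀ c : G, FreeGroup.IsReduced (push (((x1, true) :: L).map fun q => (c • q.1, q.2))) := by
    intro g hg
    induction hg with
    | base b a hb hbK ha =>
      refine ⟨[(b • x1, false)], ?_, fun c => ?_⟩
      · rw [hleft, hlA a ha, map_one, mul_one, hlB b hb]
      · show FreeGroup.IsReduced [(π (c • x1), true), (π (c • b • x1), false)]
        rw [FreeGroup.isReduced_cons_cons]
        refine ⟨fun h => ?_, FreeGroup.IsReduced.singleton⟩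
        rw [← mul_smul] at h
        exact absurd (key c b h B hamg.le_right hfB hb) hbK
    | step b a g hb hbK ha haK hg ih =>
      obtain ⟨L, hLg, hL⟩ := ih
      refine ⟨(b • x1, false) :: ((x1, true) :: L).map (fun q => ((b * a) • q.1, q.2)), ?_, fun c => ?_⟩
      · have h1 : w (b * a) = FreeGroup.mk [(x1, true), (b • x1, false)] := by
          rw [hleft, hlA a ha, map_one, mul_one, hlB b hb]
        rw [hleft, h1, hLg, permAut_mk, FreeGroup.mul_mk]
        rfl
      · show FreeGroup.IsReduced ((π (c • x1), true) :: (π (c • b • x1), false) ::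
          push ((((x1, true) :: L).map (fun q => ((b * a) • q.1, q.2))).map
            (fun q => (c • q.1, q.2))))
        rw [FreeGroup.isReduced_cons_cons]
        refine ⟨fun h => ?_, ?_⟩
        · rw [← mul_smul] at h
          exact absurd (key c b h B hamg.le_right hfB hb) hbK
        · have e1 : push ((((x1, true) :: L).map (fun q => ((b * a) • q.1, q.2))).map
              (fun q => (c • q.1, q.2))) = push (((x1, true) :: L).map
              (fun q => ((c * (b * a)) • q.1, q.2))) := by
            rw [List.map_map]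
            congr 1
            apply List.map_congr_left
            rintro ⟨x, s⟩ _
            show (c • (b * a) • x, s) = ((c * (b * a)) • x, s)
            rw [mul_smul c]
          have e2 := hL (c * (b * a))
          rw [e1]
          show FreeGroup.IsReduced ((π (c • b • x1), false) ::
            (π ((c * (b * a)) • x1), true) :: push (L.map (fun q => ((c * (b * a)) • q.1, q.2))))
          rw [FreeGroup.isReduced_cons_cons]
          refine ⟨fun h => ?_, e2⟩
          exfalso
          rw [← mul_smul, ← mul_assoc] at h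
          exact haK (key (c * b) a h A hamg.le_left hfA ha)
  have hinj : Function.Injective Ψ := by
    rw [injective_iff_map_eq_one]
    intro g hg
    have hg1 : FreeGroup.map π (w g) = 1 := congrArg SemidirectProduct.left hg
    have hg2 : f g = 1 := congrArg SemidirectProduct.right hg
    rcases Pool.Agent.Y417.FJ.nf_all A B K hamg.le_left hamg.le_right hamg.gen g with hgA | ⟨a, ha, h, hh, hah⟩
    · have h7 : (1 : G) * (g : G) * (1 : G)⁻¹ ∈ H := by
        rw [one_mul, inv_one, mul_one]; exact g.2
      have := hfA 1 g hgA h7 (by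
        have : (⟨_, h7⟩ : H) = g := Subtype.ext (by simp)
        rw [this]; exact hg2)
      exact Subtype.ext this
    · exfalso
      obtain ⟨L, hLg, hL⟩ := halt h hh
      have h1 := hleft a h
      rw [← hah, hlA a ha, one_mul, hLg, permAut_mk] at h1
      rw [h1, hpush] at hg1
      have h2 := hL a
      have h3 := congrArg FreeGroup.toWord hg1
      rw [FreeGroup.toWord_mk, h2.reduce_eq, FreeGroup.toWord_one] at h3
      simp [push] at h3
  exact hC.base.of_injective H _ Ψ hinj
    (Pool.Agent.Y961.FJ.t_perm Pool.Agent.Y529.FJ.t_ext C hC (Ind H f X) P hCP)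

end Pool.Agent.X176.FJ
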