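import Mathlib
import Pool.Agent.X176.FJ.Sub

/-!
Amalgamated products `A *_K B` with a homomorphism to a group in the class which is injective on `K`.
-/

set_option autoImplicit false

namespace Pool.Agent.X176.FJ

open Pool.Agent.Y110.FJ
open Pool.Agent.Y462.SS (Closed)

theorem amg_symm {G : Type} [Group G] {A B K : Subgroup G} (h : Amg A B K) : Amg B A K where
  le_left := h.le_right
  le_right := h.le_left
  gen := by rw [sup_comm]; exact h.gen
  univ := by
    intro H _ f g hfg
    obtain ⟨u, h1, h2⟩ := h.univ H g f fun c hc => (hfg c hc).symm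
    exact ⟨u, h2, h1⟩

/-- trivializing a cocycle on the orbits -/
theorem gauge {K P Y : Type} [Group K] [Group P] [MulAction K Y] (c : K → Y → P)
    (hc : ∀ k l y, c (k * l) y = c k (l • y) * c l y) (α : K →* P)
    (h : ∀ (k : K) (y : Y), k • y = y → c k y = α k) :
    ∃ u : Y → P, ∀ (k : K) (y : Y), u (k • y) * c k y * (u y)⁻¹ = α k := by
  classical
  let r : Y → Y := fun y => (Quotient.out (Quotient.mk (MulAction.orbitRel K Y) y))
  have hr : ∀ y, ∃ k : K, k • r y = y := by
    intro y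
    have h1 : (MulAction.orbitRel K Y) (r y) y := Quotient.exact (Quotient.out_eq _)
    have h2 : (MulAction.orbitRel K Y) y (r y) := Setoid.symm' _ h1
    exact h2
  choose κ hκ using hr
  have hrk : ∀ (k : K) (y : Y), r (k • y) = r y := by
    intro k y
    have : Quotient.mk (MulAction.orbitRel K Y) (k • y) = Quotient.mk (MulAction.orbitRel K Y) y :=
      Quotient.sound ⟨k, rfl⟩
    show Quotient.out (Quotient.mk (MulAction.orbitRel K Y) (k • y)) = _
    rw [this]
  refine ⟨fun y => α (κ y) * (c (κ y) (r y))⁻¹, fun k y => ?_⟩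
  obtain ⟨l, hl⟩ : ∃ l : K, l = (κ y)⁻¹ * k⁻¹ * κ (k • y) := ⟨_, rfl⟩
  have hlr : l • r y = r y := by
    have h1 := hκ (k • y)
    rw [hrk] at h1
    have h2 : k⁻¹ • (κ (k • y) • r y) = y := by rw [h1, inv_smul_smul]
    have h3 : (κ y)⁻¹ • (k⁻¹ • (κ (k • y) • r y)) = r y := by
      rw [h2]
      exact inv_smul_eq_iff.2 (hκ y).symm
    rw [hl, mul_smul, mul_smul]
    exact h3
  have hk : κ (k • y) = k * κ y * l := by rw [hl]; group
  have h1 : c (κ (k • y)) (r y) = c k y * c (κ y) (r y) * α l := by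
    rw [hk, hc, hc, hlr, hκ, h l _ hlr]
  show α (κ (k • y)) * (c (κ (k • y)) (r (k • y)))⁻¹ * c k y * (α (κ y) * (c (κ y) (r y))⁻¹)⁻¹ = α k
  rw [hrk, h1, hk, map_mul, map_mul]
  group

section coc

variable {G P : Type} [Group G] [Group P] {A B K : Subgroup G}

/-- homomorphisms of stabilizers given by cocycles -/
theorem coc_hom (hamg : Amg A B K) (Y : Type) [MulAction G Y] (y0 : Y)
    (cA : A → Y → P) (hcA : ∀ a a' y, cA (a * a') y = cA a ((a' : G) • y) * cA a' y)
    (cB : B → Y → P) (hcB : ∀ a a' y, cB (a * a') y = cB a ((a' : G) • y) * cB a' y)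
    (hK : ∀ (k : G) (hk : k ∈ K) (y : Y), cA ⟨k, hamg.le_left hk⟩ y = cB ⟨k, hamg.le_right hk⟩ y) :
    ∃ f : MulAction.stabilizer G y0 →* P,
      ∀ (g a : G) (ha : a ∈ A) (h : g * a * g⁻¹ ∈ MulAction.stabilizer G y0),
        ∃ q : P, f ⟨_, h⟩ = q⁻¹ * cA ⟨a, ha⟩ (g⁻¹ • y0) * q := by
  classical
  have hcA1 : ∀ y, cA 1 y = 1 := by
    intro y
    have := hcA 1 1 y
    rw [mul_one, Subgroup.coe_one, one_smul] at this
    exact (left_eq_mul.1 this)
  have hcB1 : ∀ y, cB 1 y = 1 := by
    intro y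
    have := hcB 1 1 y
    rw [mul_one, Subgroup.coe_one, one_smul] at this
    exact (left_eq_mul.1 this)
  let ΦA : A →* Equiv.Perm (Y × P) := MonoidHom.toHomPerm
    { toFun := fun a => (fun x => ((a : G) • x.1, cA a x.1 * x.2) : Y × P → Y × P)
      map_one' := by
        funext x
        show (((1 : A) : G) • x.1, cA 1 x.1 * x.2) = x
        rw [hcA1, Subgroup.coe_one, one_smul, one_mul]
      map_mul' := fun a a' => by
        funext x
        show (((a * a' : A) : G) • x.1, cA (a * a') x.1 * x.2) =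
          ((a : G) • (a' : G) • x.1, cA a ((a' : G) • x.1) * (cA a' x.1 * x.2))
        rw [hcA, Subgroup.coe_mul, mul_smul, mul_assoc] }
  let ΦB : B →* Equiv.Perm (Y × P) := MonoidHom.toHomPerm
    { toFun := fun a => (fun x => ((a : G) • x.1, cB a x.1 * x.2) : Y × P → Y × P)
      map_one' := by
        funext x
        show (((1 : B) : G) • x.1, cB 1 x.1 * x.2) = x
        rw [hcB1, Subgroup.coe_one, one_smul, one_mul]
      map_mul' := fun a a' => by
        funext x
        show (((a * a' : B) : G) • x.1, cB (a * a') x.1 * x.2) =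
          ((a : G) • (a' : G) • x.1, cB a ((a' : G) • x.1) * (cB a' x.1 * x.2))
        rw [hcB, Subgroup.coe_mul, mul_smul, mul_assoc] }
  have hΦA : ∀ a x, ΦA a x = ((a : G) • x.1, cA a x.1 * x.2) := fun a x => rfl
  have hΦB : ∀ b x, ΦB b x = ((b : G) • x.1, cB b x.1 * x.2) := fun a x => rfl
  obtain ⟨Φ, hΦa, hΦb⟩ := hamg.univ (Equiv.Perm (Y × P)) ΦA ΦB (by
    intro k hk
    apply Equiv.ext
    intro x
    rw [hΦA, hΦB, hK k hk])
  let R : P → Equiv.Perm (Y × P) := fun q => (Equiv.refl Y).prodCongr (Equiv.mulRight q)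
  have hR : ∀ q x, R q x = (x.1, x.2 * q) := fun q x => rfl
  have hcomm : ∀ (g : G) (q : P), Commute (Φ g) (R q) := by
    intro g q
    have hg : g ∈ Subgroup.closure ((A : Set G) ∪ B) := by
      rw [← Subgroup.sup_eq_closure, hamg.gen]; trivial
    induction hg using Subgroup.closure_induction with
    | mem x hx =>
      apply Equiv.ext
      intro y
      rcases hx with hx | hx
      · have e1 := hΦa ⟨x, hx⟩
        show Φ x (R q y) = R q (Φ x y)
        rw [show Φ x = ΦA ⟨x, hx⟩ from e1, hR, hR, hΦA, hΦA]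
        exact Prod.ext rfl (mul_assoc _ _ _).symm
      · have e1 := hΦb ⟨x, hx⟩
        show Φ x (R q y) = R q (Φ x y)
        rw [show Φ x = ΦB ⟨x, hx⟩ from e1, hR, hR, hΦB, hΦB]
        exact Prod.ext rfl (mul_assoc _ _ _).symm
    | one => rw [map_one]; exact Commute.one_left _
    | mul x y _ _ hx hy => rw [map_mul]; exact Commute.mul_left hx hy
    | inv x _ hx => rw [map_inv]; exact Commute.inv_left hx
  have heq : ∀ (g : G) (y : Y) (p q : P), Φ g (y, p * q) = ((Φ g (y, p)).1, (Φ g (y, p)).2 * q) := by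
    intro g y p q
    have := DFunLike.congr_fun (hcomm g q).eq (y, p)
    exact this
  have hfst : ∀ (g : G) (x : Y × P), (Φ g x).1 = g • x.1 := by
    intro g
    have hg : g ∈ Subgroup.closure ((A : Set G) ∪ B) := by
      rw [← Subgroup.sup_eq_closure, hamg.gen]; trivial
    induction hg using Subgroup.closure_induction with
    | mem x hx =>
      intro y
      rcases hx with hx | hx
      · rw [show Φ x = ΦA ⟨x, hx⟩ from hΦa ⟨x, hx⟩, hΦA]
      · rw [show Φ x = ΦB ⟨x, hx⟩ from hΦb ⟨x, hx⟩, hΦB]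
    | one => intro y; rw [map_one, one_smul]; rfl
    | mul x y _ _ hx hy =>
      intro z
      rw [map_mul, mul_smul, ← hy, ← hx]
      rfl
    | inv x _ hx =>
      intro z
      have h1 := hx (Φ x⁻¹ z)
      have h2 : Φ x (Φ x⁻¹ z) = z := by
        rw [map_inv]; exact Equiv.apply_symm_apply _ _
      rw [h2] at h1
      rw [h1, inv_smul_smul]
  let H : Subgroup G := MulAction.stabilizer G y0
  have hfix : ∀ (g : G), g ∈ H → ∀ p : P, (Φ g (y0, p)).1 = y0 := by
    intro g hg p
    rw [hfst]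
    exact hg
  let f0 : H →* P :=
    { toFun := fun g => (Φ g (y0, 1)).2
      map_one' := by
        show (Φ ((1 : H) : G) (y0, 1)).2 = 1
        rw [Subgroup.coe_one, map_one]; rfl
      map_mul' := fun g g' => by
        show (Φ ((g * g' : H) : G) (y0, 1)).2 = (Φ g (y0, 1)).2 * (Φ g' (y0, 1)).2
        rw [Subgroup.coe_mul, map_mul]
        have h1 : Φ (g' : G) (y0, 1) = (y0, 1 * (Φ (g' : G) (y0, 1)).2) :=
          Prod.ext (hfix g' g'.2 1) (one_mul _).symm
        show (Φ (g : G) (Φ (g' : G) (y0, 1))).2 = _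
        rw [h1, heq, one_mul] }
  refine ⟨f0, fun g a ha hm => ?_⟩
  have h0 : (Φ g⁻¹ (y0, 1)).1 = g⁻¹ • y0 := hfst _ _
  refine ⟨(Φ g⁻¹ (y0, 1)).2, ?_⟩
  obtain ⟨y, q, hyq⟩ : ∃ y q, Φ g⁻¹ (y0, 1) = (y, q) := ⟨_, _, rfl⟩
  rw [hyq] at h0 ⊢
  have h0' : y = g⁻¹ • y0 := h0
  show (Φ (g * a * g⁻¹) (y0, 1)).2 = q⁻¹ * cA ⟨a, ha⟩ (g⁻¹ • y0) * q
  rw [← h0']
  have h3 : Φ g (y, q) = (y0, 1) := by
    rw [← hyq, map_inv]; exact Equiv.apply_symm_apply _ _
  have hay : a • y = y := by
    have h5 : (g * a * g⁻¹) • y0 = y0 := hm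
    rw [mul_smul, mul_smul, ← h0'] at h5
    have h6 := congrArg (fun z => g⁻¹ • z) h5
    simp only [inv_smul_smul] at h6
    rw [h6, ← h0']
  have h4 : Φ a (y, q) = (y, cA ⟨a, ha⟩ y * q) := by
    rw [show Φ a = ΦA ⟨a, ha⟩ from hΦa ⟨a, ha⟩, hΦA]
    exact Prod.ext hay rfl
  rw [map_mul, map_mul]
  show (Φ g (Φ a (Φ g⁻¹ (y0, 1)))).2 = _
  rw [hyq, h4]
  have h6 : cA ⟨a, ha⟩ y * q = q * (q⁻¹ * cA ⟨a, ha⟩ y * q) := by group
  rw [h6, heq, h3, one_mul]

/-- a homomorphism from a stabilizer to `A` which is injective on the conjugates of `A` -/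
theorem one_side (hamg : Amg A B K) (Y : Type) [MulAction G Y] (y0 : Y)
    (cB : B → Y → A) (hcB : ∀ a a' y, cB (a * a') y = cB a ((a' : G) • y) * cB a' y)
    (hK : ∀ (k : G) (hk : k ∈ K) (y : Y), k • y = y → (cB ⟨k, hamg.le_right hk⟩ y : G) = k) :
    ∃ f : MulAction.stabilizer G y0 →* A,
      ∀ (g a : G), a ∈ A → ∀ (h : g * a * g⁻¹ ∈ MulAction.stabilizer G y0), f ⟨_, h⟩ = 1 → a = 1 := by
  obtain ⟨u, hu⟩ := gauge (K := K) (P := A) (Y := Y)
    (fun k y => cB (Subgroup.inclusion hamg.le_right k) y)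
    (fun k l y => hcB (Subgroup.inclusion hamg.le_right k) (Subgroup.inclusion hamg.le_right l) y)
    (Subgroup.inclusion hamg.le_left) (fun k y hk => Subtype.ext (hK k k.2 y hk))
  obtain ⟨f, hf⟩ := coc_hom hamg Y y0 (fun a _ => a) (fun a a' y => rfl)
    (fun b y => u ((b : G) • y) * cB b y * (u y)⁻¹) (fun b b' y => by
      rw [hcB, Subgroup.coe_mul, mul_smul]; group) (fun k hk y => (hu ⟨k, hk⟩ y).symm)
  refine ⟨f, fun g a ha h h1 => ?_⟩
  obtain ⟨q, hq⟩ := hf g a ha h
  rw [hq] at h1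
  have h2 : (⟨a, ha⟩ : A) = 1 := by
    have : (⟨a, ha⟩ : A) = q * (q⁻¹ * ⟨a, ha⟩ * q) * q⁻¹ := by group
    rw [this, h1, mul_one, mul_inv_cancel]
  exact congrArg Subtype.val h2

end coc

section main

variable {G P : Type} [Group G] [Group P] {A B K : Subgroup G}

theorem two_side {C : ∀ (G : Type) [Group G], Prop} (hC : ClosedE C) (hamg : Amg A B K)
    (hA : C A) (hB : C B) (Y : Type) [MulAction G Y] (y0 : Y)
    (cB : B → Y → A) (hcB : ∀ a a' y, cB (a * a') y = cB a ((a' : G) • y) * cB a' y)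
    (hKB : ∀ (k : G) (hk : k ∈ K) (y : Y), k • y = y → (cB ⟨k, hamg.le_right hk⟩ y : G) = k)
    (cA : A → Y → B) (hcA : ∀ a a' y, cA (a * a') y = cA a ((a' : G) • y) * cA a' y)
    (hKA : ∀ (k : G) (hk : k ∈ K) (y : Y), k • y = y → (cA ⟨k, hamg.le_left hk⟩ y : G) = k) :
    C (MulAction.stabilizer G y0) := by
  obtain ⟨f, hf⟩ := one_side hamg Y y0 cB hcB hKB
  obtain ⟨f', hf'⟩ := one_side (amg_symm hamg) Y y0 cA hcA hKA
  refine sub_am hC hamg _ (f.prod f') ?_ ?_ (hC.base.prod _ _ hA hB)
  · intro g a ha h h1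
    exact hf g a ha h (congrArg Prod.fst h1)
  · intro g a ha h h1
    exact hf' g a ha h (congrArg Prod.snd h1)

/-- the preimage of a subgroup whose conjugates meet the image of `K` trivially -/
theorem pre_free {C : ∀ (G : Type) [Group G], Prop} (hC : ClosedE C) (hamg : Amg A B K)
    (hA : C A) (hB : C B) (f : G →* P) (D : Subgroup P)
    (hD : ∀ k ∈ K, ∀ x : P, x⁻¹ * f k * x ∈ D → k = 1) : C (D.comap f : Subgroup G) := by
  let act : MulAction G (P ⧸ D) := MulAction.compHom (P ⧸ D) f
  have hact : ∀ (g : G) (x : P), g • ((x : P) : P ⧸ D) = ((f g * x : P) : P ⧸ D) := fun g x => rfl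
  have hfix : ∀ k ∈ K, ∀ y : P ⧸ D, k • y = y → k = 1 := by
    intro k hk y hy
    obtain ⟨x, rfl⟩ := QuotientGroup.mk_surjective y
    have h1 : ((f k * x : P) : P ⧸ D) = ((x : P) : P ⧸ D) := hy
    have h2 := QuotientGroup.eq.1 h1.symm
    exact hD k hk x (by rwa [← mul_assoc] at h2)
  have h1 := two_side hC hamg hA hB (P ⧸ D) ((1 : P) : P ⧸ D) (fun _ _ => 1)
    (fun _ _ _ => (one_mul _).symm) (fun k hk y hy => by rw [hfix k hk y hy]; rfl)
    (fun _ _ => 1) (fun _ _ _ => (one_mul _).symm) (fun k hk y hy => by rw [hfix k hk y hy]; rfl)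
  have h2 : MulAction.stabilizer G (((1 : P) : P ⧸ D)) = D.comap f := by
    ext g
    rw [MulAction.mem_stabilizer_iff, hact, Subgroup.mem_comap, mul_one, eq_comm, QuotientGroup.eq]
    simp
  rwa [h2] at h1

/-- the preimage of the subgroup generated by a central element of the image of `K` -/
theorem pre_center {C : ∀ (G : Type) [Group G], Prop} (hC : ClosedE C) (hamg : Amg A B K)
    (hA : C A) (hB : C B) (f : G →* P) (hf : ∀ k ∈ K, f k = 1 → k = 1) (κ : G) (hκ : κ ∈ K)
    (hz : ∀ x : P, x * f κ = f κ * x) (hinf : ∀ n : ℤ, f κ ^ n = 1 → n = 0) :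
    C ((Subgroup.zpowers (f κ)).comap f : Subgroup G) := by
  classical
  let D : Subgroup P := Subgroup.zpowers (f κ)
  let act : MulAction G (P ⧸ D) := MulAction.compHom (P ⧸ D) f
  have hact : ∀ (g : G) (x : P), g • ((x : P) : P ⧸ D) = ((f g * x : P) : P ⧸ D) := fun g x => rfl
  let s : P ⧸ D → P := Quotient.out
  have hs : ∀ y : P ⧸ D, ((s y : P) : P ⧸ D) = y := fun y => Quotient.out_eq' y
  have hex : ∀ (g : G) (y : P ⧸ D), ∃ e : ℤ, f κ ^ e = (s (g • y))⁻¹ * f g * s y := by
    intro g y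
    have h1 : ((s (g • y) : P) : P ⧸ D) = ((f g * s y : P) : P ⧸ D) := by
      rw [hs, ← hact, hs]
    have h2 := QuotientGroup.eq.1 h1
    rw [← mul_assoc] at h2
    exact Subgroup.mem_zpowers_iff.1 h2
  choose e he using hex
  have hinj : ∀ m n : ℤ, f κ ^ m = f κ ^ n → m = n := by
    intro m n h
    have := hinf (m - n) (by rw [zpow_sub, h, mul_inv_cancel])
    omega
  have hadd : ∀ (g g' : G) (y : P ⧸ D), e (g * g') y = e g (g' • y) + e g' y := by
    intro g g' y
    apply hinj
    rw [zpow_add, he, he, he, mul_smul, map_mul]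
    group
  have hfixed : ∀ k ∈ K, ∀ y : P ⧸ D, k • y = y → k = κ ^ e k y := by
    intro k hk y hy
    have h1 := he k y
    rw [hy] at h1
    have h2 : Commute (s y) (f κ ^ e k y) := (show Commute (s y) (f κ) from hz (s y)).zpow_right _
    have h3 : f k = f κ ^ e k y := by
      have h4 : f k = s y * ((s y)⁻¹ * f k * s y) * (s y)⁻¹ := by group
      rw [h4, ← h1, h2.eq, mul_inv_cancel_right]
    have h5 : f (k * (κ ^ e k y)⁻¹) = 1 := by
      rw [map_mul, map_inv, map_zpow, h3, mul_inv_cancel]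
    have h6 := hf _ (K.mul_mem hk (K.inv_mem (K.zpow_mem hκ _))) h5
    exact mul_inv_eq_one.1 h6
  have h1 := two_side hC hamg hA hB (P ⧸ D) ((1 : P) : P ⧸ D)
    (fun b y => (⟨κ, hamg.le_left hκ⟩ : A) ^ e b y)
    (fun a a' y => by rw [Subgroup.coe_mul, hadd, zpow_add])
    (fun k hk y hy => by rw [Subgroup.coe_zpow]; exact (hfixed k hk y hy).symm)
    (fun b y => (⟨κ, hamg.le_right hκ⟩ : B) ^ e b y)
    (fun a a' y => by rw [Subgroup.coe_mul, hadd, zpow_add])
    (fun k hk y hy => by rw [Subgroup.coe_zpow]; exact (hfixed k hk y hy).symm)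
  have h2 : MulAction.stabilizer G (((1 : P) : P ⧸ D)) = D.comap f := by
    ext g
    rw [MulAction.mem_stabilizer_iff, hact, Subgroup.mem_comap, mul_one, eq_comm, QuotientGroup.eq]
    simp
  rwa [h2] at h1

/-- **amalgamated products with a homomorphism which is injective on the amalgamated subgroup** -/
theorem cedge_am {C : ∀ (G : Type) [Group G], Prop} (hC : ClosedE C) (hamg : Amg A B K)
    (hA : C A) (hB : C B) (f : G →* P) (hP : C P) (hf : ∀ k ∈ K, f k = 1 → k = 1)
    (hcen : ∀ k ∈ K, (∀ n : ℕ, 0 < n → k ^ n ≠ 1) → ∀ x : P, x * f k = f k * x) : C G := by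
  have hCN : C (f.ker : Subgroup G) := by
    have h1 := pre_free hC hamg hA hB f ⊥ (by
      intro k hk x hx
      apply hf k hk
      have h2 : x⁻¹ * f k * x = 1 := hx
      have h3 : f k = x * (x⁻¹ * f k * x) * x⁻¹ := by group
      rw [h3, h2, mul_one, mul_inv_cancel])
    exact h1
  refine Pool.Agent.Y529.FJ.t_ext C hC G f.ker hCN ?_ ?_
  · exact hC.base.of_injective _ _ (QuotientGroup.kerLift f) (QuotientGroup.kerLift_injective f) hP
  · intro g hg
    have hpz : ∀ n : ℤ, f g ^ n = 1 → n = 0 := by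
      intro n hn
      by_contra h0
      have h2 : g ^ n ∈ f.ker := by
        show f (g ^ n) = 1
        rw [map_zpow, hn]
      have h3 : g ^ n.natAbs ∈ f.ker := by
        rcases Int.natAbs_eq n with h | h
        · rw [h, zpow_natCast] at h2; exact h2
        · rw [h, zpow_neg, zpow_natCast] at h2
          exact inv_mem_iff.1 h2
      exact hg _ (Int.natAbs_pos.2 h0) h3
    have hle : f.ker ⊔ Subgroup.zpowers g = (Subgroup.zpowers (f g)).comap f := by
      rw [← MonoidHom.map_zpowers, Subgroup.comap_map_eq, sup_comm]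
    rw [hle]
    by_cases hcase : ∀ k ∈ K, ∀ x : P, x⁻¹ * f k * x ∈ Subgroup.zpowers (f g) → k = 1
    · exact pre_free hC hamg hA hB f _ hcase
    · push Not at hcase
      obtain ⟨κ, hκ, x, hx, hκ1⟩ := hcase
      obtain ⟨n, hn⟩ := Subgroup.mem_zpowers_iff.1 hx
      have hn0 : n ≠ 0 := by
        rintro rfl
        rw [zpow_zero] at hn
        apply hκ1
        apply hf κ hκ
        have h3 : f κ = x * (x⁻¹ * f κ * x) * x⁻¹ := by group
        rw [h3, ← hn, mul_one, mul_inv_cancel]
      have hκinf : ∀ m : ℕ, 0 < m → κ ^ m ≠ 1 := by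
        intro m hm h1
        have h2 : (x⁻¹ * f κ * x) ^ m = 1 := by
          have h4 : (x⁻¹ * f κ * x) ^ m = x⁻¹ * (f κ) ^ m * x := by
            have := conj_pow (i := m) (a := x⁻¹) (b := f κ)
            rw [inv_inv] at this
            exact this
          rw [h4, ← map_pow, h1, map_one, mul_one, inv_mul_cancel]
        rw [← hn, ← zpow_natCast, ← zpow_mul] at h2
        have h5 := hpz _ h2
        rcases mul_eq_zero.1 h5 with h6 | h6
        · exact hn0 h6
        · have : m = 0 := by exact_mod_cast h6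
          omega
      have hc := hcen κ hκ hκinf
      have hκn : f κ = f g ^ n := by
        rw [hn]
        have h3 : x⁻¹ * f κ = f κ * x⁻¹ := hc x⁻¹
        rw [h3, inv_mul_cancel_right]
      have hinf : ∀ m : ℤ, f κ ^ m = 1 → m = 0 := by
        intro m hm
        rw [hκn, ← zpow_mul] at hm
        rcases mul_eq_zero.1 (hpz _ hm) with h6 | h6
        · exact absurd h6 hn0
        · exact h6
      have h7 := pre_center hC hamg hA hB f hf κ hκ hc hinf
      -- finite index
      let L : Subgroup G := (Subgroup.zpowers (f g)).comap f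
      let L' : Subgroup G := (Subgroup.zpowers (f κ)).comap f
      have hL'L : L' ≤ L := by
        apply Subgroup.comap_mono
        rw [Subgroup.zpowers_le, hκn]
        exact Subgroup.zpow_mem_zpowers _ _
      have hfi : (L'.subgroupOf L).FiniteIndex := by
        refine ⟨?_⟩
        show L'.relIndex L ≠ 0
        have h8 : L'.relIndex L = (Subgroup.zpowers (f κ)).relIndex (L.map f) :=
          Subgroup.relIndex_comap _ f L
        have h9 : L.map f = Subgroup.zpowers (f g) := by
          show ((Subgroup.zpowers (f g)).comap f).map f = _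
          rw [Subgroup.map_comap_eq, inf_eq_right, Subgroup.zpowers_le]
          exact ⟨g, rfl⟩
        rw [h8, h9]
        have h10 := Subgroup.relIndex_map_map_of_injective
          (Subgroup.zpowers (Multiplicative.ofAdd (n : ℤ))) (⊤ : Subgroup (Multiplicative ℤ))
          (f := zpowersHom P (f g)) (by
            rw [injective_iff_map_eq_one]
            intro m hm
            exact hpz _ hm)
        have h11 : (Subgroup.zpowers (Multiplicative.ofAdd (n : ℤ))).map (zpowersHom P (f g)) =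
            Subgroup.zpowers (f κ) := by
          rw [MonoidHom.map_zpowers, hκn]
          rfl
        have h12 : (⊤ : Subgroup (Multiplicative ℤ)).map (zpowersHom P (f g)) =
            Subgroup.zpowers (f g) := by
          rw [← MonoidHom.range_eq_map]
          rfl
        rw [h11, h12] at h10
        rw [h10, Subgroup.relIndex_top_right]
        have h13 := Int.index_zmultiples n
        have h14 : (Subgroup.zpowers (Multiplicative.ofAdd (n : ℤ))).index =
            (AddSubgroup.zmultiples (n : ℤ)).index := rfl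
        rw [h14, h13]
        simpa using hn0
      refine hC.base.finiteIndex _ (L'.subgroupOf L) hfi ?_
      exact hC.base.of_injective _ _ (Subgroup.subgroupOfEquivOfLe hL'L).toMonoidHom
        (Subgroup.subgroupOfEquivOfLe hL'L).injective h7

end main

end Pool.Agent.X176.FJ
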