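import Mathlib
import Pool.Agent.X176.FJ.Clique

/-!
Local criteria for HNN extensions and amalgamated products.
-/

set_option autoImplicit false

namespace Pool.Agent.X176.FJ

open Pool.Agent.Y110.FJ
open Pool.Agent.Y462.SS (Closed)

/-- colimits given by their universal property -/
theorem c_univ {C : ∀ (G : Type) [Group G], Prop} (hC : Closed C) (I : Type) [Preorder I] [Nonempty I]
    (hdir : ∀ i j : I, ∃ k, i ≤ k ∧ j ≤ k)
    (G : I → Type) [∀ i, Group (G i)] (f : ∀ i j, i ≤ j → G i →* G j)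
    (L : Type) [Group L] (g : ∀ i, G i →* L)
    (h1 : ∀ i (h : i ≤ i) (x : G i), f i i h x = x)
    (h2 : ∀ i j k (h : i ≤ j) (h' : j ≤ k) (x : G i), f j k h' (f i j h x) = f i k (h.trans h') x)
    (h3 : ∀ i j (h : i ≤ j) (x : G i), g j (f i j h x) = g i x)
    (h4 : ∀ y : L, ∃ i, ∃ x : G i, g i x = y)
    (huniv : ∀ (D : Type) [Group D] (d : ∀ i, G i →* D),
      (∀ i j (h : i ≤ j) (x : G i), d j (f i j h x) = d i x) →
      ∃ u : L →* D, ∀ i (x : G i), u (g i x) = d i x)
    (hCG : ∀ i, C (G i)) : C L := by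
  have : IsDirectedOrder I := ⟨hdir⟩
  have : DirectedSystem G (fun _ _ h => f _ _ h) :=
    { map_self := fun i x => h1 i le_rfl x
      map_map := fun k j i h h' x => h2 i j k h h' x }
  refine hC.colim I hdir G f L g h1 h2 h3 h4 ?_ hCG
  intro i x hx
  let D := DirectLimit G f
  let d : ∀ i, G i →* D := fun i =>
    { toFun := fun x => (⟦⟨i, x⟩⟧ : DirectLimit G f)
      map_one' := (DirectLimit.one_def i).symm
      map_mul' := fun x y => (DirectLimit.mul_def (f := f) i x y).symm }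
  obtain ⟨u, hu⟩ := huniv D d (fun i j h x => DirectLimit.mk_apply _ _ _ _)
  have hd : d i x = d i 1 := by rw [← hu, hx, map_one, map_one]
  obtain ⟨j, hij, hij', hj⟩ := Quotient.eq.mp hd
  exact ⟨j, hij, hj.trans (map_one _)⟩

/-! ### HNN extensions -/

section hnn

variable {M : Type} [Group M] (A B : Subgroup M) (φ : A ≃* B)

open HNNExtension

theorem phi_one (h : (1 : M) ∈ A) : ((φ ⟨1, h⟩ : B) : M) = 1 := by
  have h1 : φ ⟨1, h⟩ = 1 := map_one φ
  rw [h1]; rfl

theorem phi_mul {x y : M} (hx : x ∈ A) (hy : y ∈ A) (hxy : x * y ∈ A) :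
    ((φ ⟨x * y, hxy⟩ : B) : M) = φ ⟨x, hx⟩ * φ ⟨y, hy⟩ := by
  have h1 : φ (⟨x, hx⟩ * ⟨y, hy⟩) = φ ⟨x, hx⟩ * φ ⟨y, hy⟩ := map_mul φ _ _
  rw [← Subgroup.coe_mul, ← h1]; rfl

theorem phi_inv {x : M} (hx : x ∈ A) (hx' : x⁻¹ ∈ A) :
    ((φ ⟨x⁻¹, hx'⟩ : B) : M) = (φ ⟨x, hx⟩ : M)⁻¹ := by
  have h1 : φ (⟨x, hx⟩⁻¹) = (φ ⟨x, hx⟩)⁻¹ := map_inv φ _
  rw [← Subgroup.coe_inv, ← h1]; rfl

/-- the elements of the finite set `F` which are moved by `φ` inside `F` -/
def mv (F : Set M) : Set M := {a | a ∈ F ∧ ∃ ha : a ∈ A, ((φ ⟨a, ha⟩ : B) : M) ∈ F}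

theorem mv_mono {F F' : Set M} (h : F ⊆ F') : mv A B φ F ⊆ mv A B φ F' :=
  fun _ ha => ⟨h ha.1, ha.2.1, h ha.2.2⟩

theorem mv_le (F : Set M) : Subgroup.closure (mv A B φ F) ≤ A :=
  (Subgroup.closure_le _).2 fun _ ha => ha.2.1

theorem mv_phi (F : Set M) (a : M) (ha : a ∈ Subgroup.closure (mv A B φ F)) :
    ((φ ⟨a, mv_le A B φ F ha⟩ : B) : M) ∈ Subgroup.closure F := by
  induction ha using Subgroup.closure_induction with
  | mem x hx => exact Subgroup.subset_closure hx.2.2
  | one =>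
    rw [phi_one]
    exact Subgroup.one_mem _
  | mul x y hx hy h1 h2 =>
    rw [phi_mul A B φ (mv_le A B φ F hx) (mv_le A B φ F hy)]
    exact Subgroup.mul_mem _ h1 h2
  | inv x hx h1 =>
    rw [phi_inv A B φ (mv_le A B φ F hx)]
    exact Subgroup.inv_mem _ h1

/-- the base of a stage -/
abbrev LF (F : Set M) : Type := ↥(Subgroup.closure F)

/-- the domain at a stage -/
def AF (F : Set M) : Subgroup (LF F) := (Subgroup.closure (mv A B φ F)).subgroupOf (Subgroup.closure F)

/-- the restriction of `φ` -/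
def phF (F : Set M) : AF A B φ F →* LF F where
  toFun a := ⟨φ ⟨((a : LF F) : M), mv_le A B φ F a.2⟩, mv_phi A B φ F _ a.2⟩
  map_one' := Subtype.ext (phi_one A B φ _)
  map_mul' a b := Subtype.ext (phi_mul A B φ (mv_le A B φ F a.2) (mv_le A B φ F b.2) _)

theorem phF_coe (F : Set M) (a : AF A B φ F) :
    (phF A B φ F a : M) = φ ⟨((a : LF F) : M), mv_le A B φ F a.2⟩ := rfl

theorem phF_inj (F : Set M) : Function.Injective (phF A B φ F) := by
  intro a b h
  have h0 : (phF A B φ F a : M) = phF A B φ F b := congrArg Subtype.val h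
  rw [phF_coe, phF_coe] at h0
  have h1 : φ ⟨((a : LF F) : M), mv_le A B φ F a.2⟩ = φ ⟨((b : LF F) : M), mv_le A B φ F b.2⟩ :=
    Subtype.ext h0
  have h2 := congrArg Subtype.val (φ.injective h1)
  exact Subtype.ext (Subtype.ext h2)

/-- the group of a stage -/
abbrev GF (F : Set M) : Type :=
  HNNExtension (LF F) (AF A B φ F) (phF A B φ F).range (MonoidHom.ofInjective (phF_inj A B φ F))

/-- homomorphisms of a stage to a group -/
noncomputable def liftF {D : Type} [Group D] (F : Set M) (u : LF F →* D) (s : D)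
    (h : ∀ a : AF A B φ F, s * u a = u (phF A B φ F a) * s) : GF A B φ F →* D :=
  HNNExtension.lift u s fun a => h a

theorem rel_GF (F : Set M) (a : M) (ha : a ∈ Subgroup.closure (mv A B φ F))
    (ha' : a ∈ Subgroup.closure F) :
    (t : GF A B φ F) * of ⟨a, ha'⟩ = of ⟨φ ⟨a, mv_le A B φ F ha⟩, mv_phi A B φ F a ha⟩ * t :=
  HNNExtension.t_mul_of (φ := MonoidHom.ofInjective (phF_inj A B φ F))
    (⟨⟨a, ha'⟩, ha⟩ : AF A B φ F)

theorem bF_rel {F F' : Set M} (h : F ⊆ F') (a : AF A B φ F) :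
    (t : GF A B φ F') * of.comp (Subgroup.inclusion (Subgroup.closure_mono h)) (a : LF F) =
      of.comp (Subgroup.inclusion (Subgroup.closure_mono h)) (phF A B φ F a) * t :=
  rel_GF A B φ F' ((a : LF F) : M) (Subgroup.closure_mono (mv_mono A B φ h) a.2) _

/-- the bonding maps -/
noncomputable def bF {F F' : Set M} (h : F ⊆ F') : GF A B φ F →* GF A B φ F' :=
  liftF A B φ F (of.comp (Subgroup.inclusion (Subgroup.closure_mono h))) t (bF_rel A B φ h)

theorem gF_rel (F : Set M) (a : AF A B φ F) :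
    (t : HNNExtension M A B φ) * of.comp (Subgroup.closure F).subtype (a : LF F) =
      of.comp (Subgroup.closure F).subtype (phF A B φ F a) * t :=
  HNNExtension.t_mul_of (φ := φ) ⟨((a : LF F) : M), mv_le A B φ F a.2⟩

/-- the maps to the HNN extension -/
noncomputable def gF (F : Set M) : GF A B φ F →* HNNExtension M A B φ :=
  liftF A B φ F (of.comp (Subgroup.closure F).subtype) t (gF_rel A B φ F)

theorem liftF_of {D : Type} [Group D] (F : Set M) (u : LF F →* D) (s : D)
    (h : ∀ a : AF A B φ F, s * u a = u (phF A B φ F a) * s) (x : LF F) :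
    liftF A B φ F u s h (of x) = u x := HNNExtension.lift_of _ _ _ _

theorem liftF_t {D : Type} [Group D] (F : Set M) (u : LF F →* D) (s : D)
    (h : ∀ a : AF A B φ F, s * u a = u (phF A B φ F a) * s) :
    liftF A B φ F u s h t = s := HNNExtension.lift_t _ _ _

theorem gF_of (F : Set M) (x : LF F) : gF A B φ F (of x) = of (x : M) :=
  liftF_of A B φ F _ _ _ x

theorem gF_t (F : Set M) : gF A B φ F t = t := liftF_t A B φ F _ _ _

theorem bF_of {F F' : Set M} (h : F ⊆ F') (x : LF F) :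
    bF A B φ h (of x) = of (Subgroup.inclusion (Subgroup.closure_mono h) x) :=
  liftF_of A B φ F _ _ _ x

theorem bF_t {F F' : Set M} (h : F ⊆ F') : bF A B φ h (t : GF A B φ F) = t := liftF_t A B φ F _ _ _

/-- the conjugation condition at a finite set is realized in a group of the class -/
def HReal (C : ∀ (G : Type) [Group G], Prop) (F : Set M) : Prop :=
  ∃ (P : Type) (_ : Group P) (f : LF F →* P) (p : P), C P ∧ Function.Injective f ∧
    ∀ (a : A) (ha : (a : M) ∈ F) (hb : ((φ a : B) : M) ∈ F),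
      f ⟨φ a, Subgroup.subset_closure hb⟩ = p * f ⟨a, Subgroup.subset_closure ha⟩ * p⁻¹

theorem real_all {P : Type} [Group P] (F : Set M) (f : LF F →* P) (p : P)
    (h : ∀ (a : A) (ha : (a : M) ∈ F) (hb : ((φ a : B) : M) ∈ F),
      f ⟨φ a, Subgroup.subset_closure hb⟩ = p * f ⟨a, Subgroup.subset_closure ha⟩ * p⁻¹)
    (a : M) (ha : a ∈ Subgroup.closure (mv A B φ F)) :
    f ⟨φ ⟨a, mv_le A B φ F ha⟩, mv_phi A B φ F a ha⟩ =
      p * f ⟨a, Subgroup.closure_mono (fun _ h => h.1) ha⟩ * p⁻¹ := by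
  induction ha using Subgroup.closure_induction with
  | mem x hx => exact h ⟨x, hx.2.1⟩ hx.1 hx.2.2
  | one =>
    have h1 : (⟨φ ⟨1, mv_le A B φ F (Subgroup.one_mem _)⟩, mv_phi A B φ F 1 (Subgroup.one_mem _)⟩ :
        LF F) = 1 := Subtype.ext (phi_one A B φ _)
    have h2 : (⟨1, Subgroup.one_mem _⟩ : LF F) = 1 := rfl
    rw [h1, h2, map_one]
    simp
  | mul x y hx hy h1 h2 =>
    have h3 : (⟨φ ⟨x * y, mv_le A B φ F (Subgroup.mul_mem _ hx hy)⟩,
        mv_phi A B φ F _ (Subgroup.mul_mem _ hx hy)⟩ : LF F) =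
        ⟨φ ⟨x, mv_le A B φ F hx⟩, mv_phi A B φ F x hx⟩ *
          ⟨φ ⟨y, mv_le A B φ F hy⟩, mv_phi A B φ F y hy⟩ :=
      Subtype.ext (phi_mul A B φ (mv_le A B φ F hx) (mv_le A B φ F hy) _)
    have h4 : (⟨x * y, Subgroup.closure_mono (fun _ h => h.1) (Subgroup.mul_mem _ hx hy)⟩ : LF F) =
        ⟨x, Subgroup.closure_mono (fun _ h => h.1) hx⟩ *
          ⟨y, Subgroup.closure_mono (fun _ h => h.1) hy⟩ := rfl
    rw [h3, h4, map_mul, map_mul, h1, h2]
    group
  | inv x hx h1 =>
    have h3 : (⟨φ ⟨x⁻¹, mv_le A B φ F (Subgroup.inv_mem _ hx)⟩,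
        mv_phi A B φ F _ (Subgroup.inv_mem _ hx)⟩ : LF F) =
        (⟨φ ⟨x, mv_le A B φ F hx⟩, mv_phi A B φ F x hx⟩)⁻¹ :=
      Subtype.ext (phi_inv A B φ (mv_le A B φ F hx) _)
    have h4 : (⟨x⁻¹, Subgroup.closure_mono (fun _ h => h.1) (Subgroup.inv_mem _ hx)⟩ : LF F) =
        (⟨x, Subgroup.closure_mono (fun _ h => h.1) hx⟩)⁻¹ := rfl
    rw [h3, h4, map_inv, map_inv, h1]
    group

/-- **local criterion for HNN extensions** -/
theorem hnn_local {C : ∀ (G : Type) [Group G], Prop} (hC : ClosedE C)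
    (h : ∀ F : Set M, F.Finite → HReal A B φ C F) : C (HNNExtension M A B φ) := by
  have : Nonempty {F : Set M // F.Finite} := ⟨⟨∅, Set.finite_empty⟩⟩
  have hdir : ∀ i j : {F : Set M // F.Finite}, ∃ k, i ≤ k ∧ j ≤ k := fun E F =>
    ⟨⟨E.1 ∪ F.1, E.2.union F.2⟩, Set.subset_union_left, Set.subset_union_right⟩
  have hgb : ∀ (F F' : Set M) (h : F ⊆ F') (x : GF A B φ F),
      gF A B φ F' (bF A B φ h x) = gF A B φ F x := by
    intro F F' h x
    have : (gF A B φ F').comp (bF A B φ h) = gF A B φ F := by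
      apply HNNExtension.hom_ext
      · ext x
        simp only [MonoidHom.comp_apply, bF_of, gF_of]
        rfl
      · simp only [MonoidHom.comp_apply, bF_t, gF_t]
    exact DFunLike.congr_fun this x
  refine c_univ hC.base {F : Set M // F.Finite} hdir
    (fun F => GF A B φ F.1) (fun E F h => bF A B φ h) (HNNExtension M A B φ)
    (fun F => gF A B φ F.1) ?_ ?_ ?_ ?_ ?_ ?_
  · intro F hF x
    have : bF A B φ hF = MonoidHom.id (GF A B φ F.1) := by
      apply HNNExtension.hom_ext
      · ext x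
        rw [MonoidHom.comp_apply, bF_of]
        rfl
      · rw [bF_t]; rfl
    exact DFunLike.congr_fun this x
  · intro F F' F'' h h' x
    have : (bF A B φ h').comp (bF A B φ h) = bF A B φ (h.trans h') := by
      apply HNNExtension.hom_ext
      · ext x
        simp only [MonoidHom.comp_apply, bF_of]
        rfl
      · simp only [MonoidHom.comp_apply, bF_t]
    exact DFunLike.congr_fun this x
  · intro F F' h x
    exact hgb _ _ h x
  · intro y
    induction y using HNNExtension.induction_on with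
    | of m =>
      exact ⟨⟨{m}, Set.finite_singleton m⟩, of ⟨m, Subgroup.subset_closure rfl⟩, gF_of A B φ _ _⟩
    | t => exact ⟨⟨∅, Set.finite_empty⟩, t, gF_t A B φ _⟩
    | mul x y hx hy =>
      obtain ⟨i, x', rfl⟩ := hx
      obtain ⟨j, y', rfl⟩ := hy
      refine ⟨⟨i.1 ∪ j.1, i.2.union j.2⟩, bF A B φ Set.subset_union_left x' *
        bF A B φ Set.subset_union_right y', ?_⟩
      rw [map_mul, hgb _ _ Set.subset_union_left, hgb _ _ Set.subset_union_right]
    | inv x hx =>
      obtain ⟨i, x', rfl⟩ := hx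
      exact ⟨i, x'⁻¹, map_inv _ _⟩
  · intro D _ d hd
    let s1 : M → {F : Set M // F.Finite} := fun m => ⟨{m}, Set.finite_singleton m⟩
    have hs1 : ∀ m : M, m ∈ Subgroup.closure (s1 m).1 := fun m =>
      Subgroup.subset_closure (Set.mem_singleton m)
    let uf : M → D := fun m => d (s1 m) (of ⟨m, hs1 m⟩)
    have huf : ∀ (F : {F : Set M // F.Finite}) (m : M) (hm : m ∈ F.1),
        uf m = d F (of ⟨m, Subgroup.subset_closure hm⟩) := by
      intro F m hm
      have hle : s1 m ≤ F := Set.singleton_subset_iff.2 hm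
      have h5 := hd _ _ hle (of ⟨m, hs1 m⟩)
      rw [bF_of] at h5
      exact h5.symm
    have huf2 : ∀ (F : {F : Set M // F.Finite}) (m : M) (hm : m ∈ Subgroup.closure F.1),
        uf m = d F (of ⟨m, hm⟩) := by
      intro F m hm
      have hF' : (insert m F.1).Finite := F.2.insert m
      have hle : F ≤ ⟨insert m F.1, hF'⟩ := Set.subset_insert _ _
      rw [← hd _ _ hle, bF_of]
      exact huf ⟨insert m F.1, hF'⟩ m (Set.mem_insert _ _)
    let u0 : M →* D :=
      { toFun := uf
        map_one' := by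
          rw [huf2 ⟨∅, Set.finite_empty⟩ 1 (Subgroup.one_mem _)]
          have : (⟨1, Subgroup.one_mem _⟩ : LF (∅ : Set M)) = 1 := rfl
          rw [this, map_one, map_one]
        map_mul' := by
          intro x y
          have hF : ({x, y} : Set M).Finite := Set.toFinite _
          have hx : x ∈ Subgroup.closure ({x, y} : Set M) := Subgroup.subset_closure (by simp)
          have hy : y ∈ Subgroup.closure ({x, y} : Set M) := Subgroup.subset_closure (by simp)
          rw [huf2 ⟨_, hF⟩ x hx, huf2 ⟨_, hF⟩ y hy, huf2 ⟨_, hF⟩ (x * y) (Subgroup.mul_mem _ hx hy),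
            ← map_mul, ← map_mul]
          rfl }
    have ht : ∀ F : {F : Set M // F.Finite}, d F t = d ⟨∅, Set.finite_empty⟩ t := by
      intro F
      have hle : (⟨∅, Set.finite_empty⟩ : {F : Set M // F.Finite}) ≤ F := Set.empty_subset _
      rw [← hd _ _ hle, bF_t]
    have hrel : ∀ a : A, d ⟨∅, Set.finite_empty⟩ t * u0 a =
        u0 (φ a : M) * d ⟨∅, Set.finite_empty⟩ t := by
      intro a
      let F : {F : Set M // F.Finite} := ⟨{(a : M), ((φ a : B) : M)}, Set.toFinite _⟩
      have h1 : (a : M) ∈ mv A B φ F.1 := ⟨by simp [F], a.2, by simp [F]⟩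
      have h2 := rel_GF A B φ F.1 (a : M) (Subgroup.subset_closure h1)
        (Subgroup.subset_closure (by simp [F]))
      have h3 := congrArg (d F) h2
      rw [map_mul, map_mul, ← huf2 F, ← huf2 F, ht F] at h3
      exact h3
    refine ⟨HNNExtension.lift u0 (d ⟨∅, Set.finite_empty⟩ t) hrel, ?_⟩
    intro F x
    have : (HNNExtension.lift u0 (d ⟨∅, Set.finite_empty⟩ t) hrel).comp (gF A B φ F.1) = d F := by
      apply HNNExtension.hom_ext
      · ext x
        simp only [MonoidHom.comp_apply, gF_of, HNNExtension.lift_of]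
        exact huf2 F x x.2
      · simp only [MonoidHom.comp_apply, gF_t, HNNExtension.lift_t]
        exact (ht F).symm
    exact DFunLike.congr_fun this x
  · intro F
    obtain ⟨P, _, f, p, hP, hf, hp⟩ := h F.1 F.2
    let Φ : GF A B φ F.1 →* P := liftF A B φ F.1 f p fun a => by
      have h1 := real_all A B φ F.1 f p hp ((a : LF F.1) : M) a.2
      have h2 : f (phF A B φ F.1 a) = p * f a * p⁻¹ := h1
      rw [h2]; group
    refine (t_hnn (Pool.Agent.Y961.FJ.t_perm Pool.Agent.Y529.FJ.t_ext)) C hC _ P _ _ _ Φ ?_ hP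
    intro x y hxy
    apply hf
    have h3 : ∀ x, Φ (of x) = f x := fun x => liftF_of A B φ F.1 _ _ _ x
    exact (h3 x).symm.trans (hxy.trans (h3 y))

end hnn

/-! ### amalgamated products -/

section amg

variable {G : Type} [Group G] {A B K : Subgroup G}

open Monoid

/-- the factor of a stage -/
abbrev LA (A : Subgroup G) (F : Set G) : Type := ↥(Subgroup.closure (F ∩ (A : Set G)))

theorem la_le (A : Subgroup G) (F : Set G) : Subgroup.closure (F ∩ (A : Set G)) ≤ A :=
  (Subgroup.closure_le _).2 Set.inter_subset_right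

theorem la_mono (A : Subgroup G) {F F' : Set G} (h : F ⊆ F') :
    Subgroup.closure (F ∩ (A : Set G)) ≤ Subgroup.closure (F' ∩ (A : Set G)) :=
  Subgroup.closure_mono (Set.inter_subset_inter_left _ h)

/-- the relations of a stage -/
def rP (A B K : Subgroup G) (F : Set G) : Set (Coprod (LA A F) (LA B F)) :=
  {x | ∃ (c : G) (_ : c ∈ F) (_ : c ∈ K) (ha : c ∈ Subgroup.closure (F ∩ (A : Set G)))
    (hb : c ∈ Subgroup.closure (F ∩ (B : Set G))),
      x = Coprod.inl ⟨c, ha⟩ * (Coprod.inr ⟨c, hb⟩)⁻¹}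

/-- the group of a stage -/
abbrev PF (A B K : Subgroup G) (F : Set G) : Type :=
  Coprod (LA A F) (LA B F) ⧸ Subgroup.normalClosure (rP A B K F)

/-- the first factor -/
def pA (A B K : Subgroup G) (F : Set G) : LA A F →* PF A B K F :=
  (QuotientGroup.mk' _).comp Coprod.inl

/-- the second factor -/
def pB (A B K : Subgroup G) (F : Set G) : LA B F →* PF A B K F :=
  (QuotientGroup.mk' _).comp Coprod.inr

theorem p_eq (F : Set G) (c : G) (hF : c ∈ F) (hK : c ∈ K)
    (ha : c ∈ Subgroup.closure (F ∩ (A : Set G))) (hb : c ∈ Subgroup.closure (F ∩ (B : Set G))) :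
    pA A B K F ⟨c, ha⟩ = pB A B K F ⟨c, hb⟩ := by
  have h1 : (QuotientGroup.mk' (Subgroup.normalClosure (rP A B K F)))
      (Coprod.inl ⟨c, ha⟩ * (Coprod.inr ⟨c, hb⟩)⁻¹) = 1 :=
    (QuotientGroup.eq_one_iff _).2 (Subgroup.subset_normalClosure ⟨c, hF, hK, ha, hb, rfl⟩)
  rw [map_mul, map_inv, mul_inv_eq_one] at h1
  exact h1

/-- homomorphisms of a stage -/
def liftP {D : Type} [Group D] (F : Set G) (u : LA A F →* D) (v : LA B F →* D)
    (h : ∀ (c : G) (_ : c ∈ F) (_ : c ∈ K) (ha : c ∈ Subgroup.closure (F ∩ (A : Set G)))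
      (hb : c ∈ Subgroup.closure (F ∩ (B : Set G))), u ⟨c, ha⟩ = v ⟨c, hb⟩) : PF A B K F →* D :=
  QuotientGroup.lift _ (Coprod.lift u v) (by
    have h1 : Subgroup.normalClosure (rP A B K F) ≤ (Coprod.lift u v).ker := by
      apply Subgroup.normalClosure_le_normal
      rintro x ⟨c, h1, h2, ha, hb, rfl⟩
      show Coprod.lift u v _ = 1
      rw [map_mul, map_inv, Coprod.lift_apply_inl, Coprod.lift_apply_inr, h c h1 h2 ha hb,
        mul_inv_cancel]
    intro x hx
    exact h1 hx)

section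

variable {D : Type} [Group D] (F : Set G) (u : LA A F →* D) (v : LA B F →* D)
    (h : ∀ (c : G) (_ : c ∈ F) (_ : c ∈ K) (ha : c ∈ Subgroup.closure (F ∩ (A : Set G)))
      (hb : c ∈ Subgroup.closure (F ∩ (B : Set G))), u ⟨c, ha⟩ = v ⟨c, hb⟩)

theorem liftP_A (x : LA A F) : liftP (K := K) F u v h (pA A B K F x) = u x :=
  Coprod.lift_apply_inl u v x

theorem liftP_B (x : LA B F) : liftP (K := K) F u v h (pB A B K F x) = v x :=
  Coprod.lift_apply_inr u v x

end

theorem PF_ext {D : Type} [Group D] {F : Set G} {u v : PF A B K F →* D}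
    (h1 : ∀ x, u (pA A B K F x) = v (pA A B K F x)) (h2 : ∀ x, u (pB A B K F x) = v (pB A B K F x)) :
    u = v := by
  apply QuotientGroup.monoidHom_ext
  apply Coprod.hom_ext
  · exact MonoidHom.ext h1
  · exact MonoidHom.ext h2

theorem bP_rel {F F' : Set G} (h : F ⊆ F') (c : G) (h1 : c ∈ F) (h2 : c ∈ K)
    (ha : c ∈ Subgroup.closure (F ∩ (A : Set G))) (hb : c ∈ Subgroup.closure (F ∩ (B : Set G))) :
    (pA A B K F').comp (Subgroup.inclusion (la_mono A h)) ⟨c, ha⟩ =
      (pB A B K F').comp (Subgroup.inclusion (la_mono B h)) ⟨c, hb⟩ := by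
  show pA A B K F' ⟨c, la_mono A h ha⟩ = pB A B K F' ⟨c, la_mono B h hb⟩
  exact p_eq F' c (h h1) h2 _ _

/-- the bonding maps -/
def bP {F F' : Set G} (h : F ⊆ F') : PF A B K F →* PF A B K F' :=
  liftP F ((pA A B K F').comp (Subgroup.inclusion (la_mono A h)))
    ((pB A B K F').comp (Subgroup.inclusion (la_mono B h))) (bP_rel h)

/-- the maps to the amalgamated product -/
def gP (F : Set G) : PF A B K F →* G :=
  liftP F (Subgroup.closure (F ∩ (A : Set G))).subtype (Subgroup.closure (F ∩ (B : Set G))).subtype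
    (fun _ _ _ _ _ => rfl)

theorem lk_le {D : Subgroup G} (hKA : K ≤ D) (F : Set G) :
    Subgroup.closure (F ∩ (K : Set G)) ≤ Subgroup.closure (F ∩ (D : Set G)) :=
  Subgroup.closure_mono (Set.inter_subset_inter_right F hKA)

theorem p_eq' (hKA : K ≤ A) (hKB : K ≤ B) (F : Set G) (c : G)
    (hc : c ∈ Subgroup.closure (F ∩ (K : Set G))) :
    pA A B K F ⟨c, lk_le hKA F hc⟩ = pB A B K F ⟨c, lk_le hKB F hc⟩ := by
  induction hc using Subgroup.closure_induction with
  | mem x hx => exact p_eq F x hx.1 hx.2 _ _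
  | one => exact (map_one (pA A B K F)).trans (map_one (pB A B K F)).symm
  | mul x y hx hy h1 h2 =>
    exact (map_mul (pA A B K F) ⟨x, lk_le hKA F hx⟩ ⟨y, lk_le hKA F hy⟩).trans
      ((congrArg₂ (· * ·) h1 h2).trans
        (map_mul (pB A B K F) ⟨x, lk_le hKB F hx⟩ ⟨y, lk_le hKB F hy⟩).symm)
  | inv x hx h1 =>
    exact (map_inv (pA A B K F) ⟨x, lk_le hKA F hx⟩).trans
      ((congrArg (·⁻¹) h1).trans (map_inv (pB A B K F) ⟨x, lk_le hKB F hx⟩).symm)

/-- a stage is an amalgamated product -/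
theorem amg_PF (hKA : K ≤ A) (hKB : K ≤ B) (F : Set G) :
    Amg (pA A B K F).range (pB A B K F).range
      (((Subgroup.closure (F ∩ (K : Set G))).subgroupOf (Subgroup.closure (F ∩ (A : Set G)))).map
        (pA A B K F)) where
  le_left := by
    rintro _ ⟨x, -, rfl⟩
    exact ⟨x, rfl⟩
  le_right := by
    rintro _ ⟨x, hx, rfl⟩
    exact ⟨⟨x, lk_le hKB F hx⟩, (p_eq' hKA hKB F x hx).symm⟩
  gen := by
    have h1 := congrArg (Subgroup.map (QuotientGroup.mk' (Subgroup.normalClosure (rP A B K F))))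
      (Coprod.range_inl_sup_range_inr (G := LA A F) (H := LA B F))
    rw [Subgroup.map_sup, Subgroup.map_top_of_surjective _ (QuotientGroup.mk'_surjective _),
      ← MonoidHom.range_comp, ← MonoidHom.range_comp] at h1
    exact h1
  univ := by
    intro H _ f g hfg
    have hc : ∀ (c : G) (_ : c ∈ F) (_ : c ∈ K) (ha : c ∈ Subgroup.closure (F ∩ (A : Set G)))
        (hb : c ∈ Subgroup.closure (F ∩ (B : Set G))),
        f.comp (pA A B K F).rangeRestrict ⟨c, ha⟩ = g.comp (pB A B K F).rangeRestrict ⟨c, hb⟩ := by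
      intro c h1 h2 ha hb
      have h3 : pA A B K F ⟨c, ha⟩ ∈
          ((Subgroup.closure (F ∩ (K : Set G))).subgroupOf (Subgroup.closure (F ∩ (A : Set G)))).map
            (pA A B K F) := ⟨⟨c, ha⟩, Subgroup.subset_closure ⟨h1, h2⟩, rfl⟩
      have h4 := hfg _ h3
      have h5 : (pB A B K F).rangeRestrict ⟨c, hb⟩ = ⟨pA A B K F ⟨c, ha⟩, ⟨⟨c, hb⟩,
          (p_eq F c h1 h2 ha hb).symm⟩⟩ := Subtype.ext (p_eq F c h1 h2 ha hb).symm
      show f ((pA A B K F).rangeRestrict ⟨c, ha⟩) = g ((pB A B K F).rangeRestrict ⟨c, hb⟩)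
      rw [h5]
      exact h4
    refine ⟨liftP F _ _ hc, ?_, ?_⟩
    · rintro ⟨_, x, rfl⟩
      rw [liftP_A]
      rfl
    · rintro ⟨_, x, rfl⟩
      rw [liftP_B]
      rfl

/-- the amalgam is realized at a finite set in a group of the class -/
def AReal (C : ∀ (G : Type) [Group G], Prop) (A B K : Subgroup G) (F : Set G) : Prop :=
  ∃ (P : Type) (_ : Group P) (u : LA A F →* P) (v : LA B F →* P), C P ∧ Function.Injective u ∧
    Function.Injective v ∧
    ∀ (c : G) (_ : c ∈ F) (_ : c ∈ K) (ha : c ∈ Subgroup.closure (F ∩ (A : Set G)))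
      (hb : c ∈ Subgroup.closure (F ∩ (B : Set G))), u ⟨c, ha⟩ = v ⟨c, hb⟩

/-- **local criterion for amalgamated products** -/
theorem amg_local {C : ∀ (G : Type) [Group G], Prop} (hC : ClosedE C) (hA : Amg A B K)
    (h : ∀ F : Set G, F.Finite → AReal C A B K F) : C G := by
  have : Nonempty {F : Set G // F.Finite} := ⟨⟨∅, Set.finite_empty⟩⟩
  have hdir : ∀ i j : {F : Set G // F.Finite}, ∃ k, i ≤ k ∧ j ≤ k := fun E F =>
    ⟨⟨E.1 ∪ F.1, E.2.union F.2⟩, Set.subset_union_left, Set.subset_union_right⟩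
  have hgb : ∀ (F F' : Set G) (h : F ⊆ F') (x : PF A B K F),
      gP (A := A) (B := B) (K := K) F' (bP h x) = gP F x := by
    intro F F' h x
    have : (gP (A := A) (B := B) (K := K) F').comp (bP h) = gP F := by
      apply PF_ext
      · intro x
        simp only [MonoidHom.comp_apply, bP, gP, liftP_A]
        rfl
      · intro x
        simp only [MonoidHom.comp_apply, bP, gP, liftP_B]
        rfl
    exact DFunLike.congr_fun this x
  refine c_univ hC.base {F : Set G // F.Finite} hdir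
    (fun F => PF A B K F.1) (fun E F h => bP h) G (fun F => gP F.1) ?_ ?_ ?_ ?_ ?_ ?_
  · intro F hF x
    have : bP (A := A) (B := B) (K := K) hF = MonoidHom.id (PF A B K F.1) := by
      apply PF_ext
      · intro x
        simp only [bP, liftP_A]
        rfl
      · intro x
        simp only [bP, liftP_B]
        rfl
    exact DFunLike.congr_fun this x
  · intro F F' F'' h h' x
    have : (bP (A := A) (B := B) (K := K) h').comp (bP h) = bP (h.trans h') := by
      apply PF_ext
      · intro x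
        simp only [MonoidHom.comp_apply, bP, liftP_A]
        rfl
      · intro x
        simp only [MonoidHom.comp_apply, bP, liftP_B]
        rfl
    exact DFunLike.congr_fun this x
  · intro F F' h x
    exact hgb _ _ h x
  · let R : Subgroup G :=
      { carrier := {y | ∃ (F : {F : Set G // F.Finite}) (x : PF A B K F.1), gP F.1 x = y}
        one_mem' := ⟨⟨∅, Set.finite_empty⟩, 1, map_one _⟩
        mul_mem' := by
          rintro _ _ ⟨i, x', rfl⟩ ⟨j, y', rfl⟩
          refine ⟨⟨i.1 ∪ j.1, i.2.union j.2⟩, bP Set.subset_union_left x' *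
            bP Set.subset_union_right y', ?_⟩
          rw [map_mul, hgb _ _ Set.subset_union_left, hgb _ _ Set.subset_union_right]
        inv_mem' := by
          rintro _ ⟨i, x', rfl⟩
          exact ⟨i, x'⁻¹, map_inv _ _⟩ }
    have hR : (⊤ : Subgroup G) ≤ R := by
      rw [← hA.gen, sup_le_iff]
      constructor
      · intro a ha
        exact ⟨⟨{a}, Set.finite_singleton a⟩, pA A B K {a} ⟨a, Subgroup.subset_closure ⟨rfl, ha⟩⟩,
          liftP_A _ _ _ _ _⟩
      · intro a ha
        exact ⟨⟨{a}, Set.finite_singleton a⟩, pB A B K {a} ⟨a, Subgroup.subset_closure ⟨rfl, ha⟩⟩,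
          liftP_B _ _ _ _ _⟩
    intro y
    exact hR (Subgroup.mem_top y)
  · intro D _ d hd
    have hs1 : ∀ (T : Subgroup G) (m : T), (m : G) ∈ Subgroup.closure ({(m : G)} ∩ (T : Set G)) :=
      fun T m => Subgroup.subset_closure ⟨rfl, m.2⟩
    let s1 : G → {F : Set G // F.Finite} := fun m => ⟨{m}, Set.finite_singleton m⟩
    -- the first factor
    have hA2 : ∀ (F : {F : Set G // F.Finite}) (m : G) (hm : m ∈ Subgroup.closure (F.1 ∩ (A : Set G))),
        d (s1 m) (pA A B K _ ⟨m, hs1 A ⟨m, la_le A _ hm⟩⟩) = d F (pA A B K _ ⟨m, hm⟩) := by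
      intro F m hm
      have hF' : (insert m F.1).Finite := F.2.insert m
      have hle : F ≤ ⟨insert m F.1, hF'⟩ := Set.subset_insert _ _
      have hle' : s1 m ≤ ⟨insert m F.1, hF'⟩ :=
        Set.singleton_subset_iff.2 (Set.mem_insert _ _)
      rw [← hd _ _ hle, ← hd _ _ hle', bP, bP, liftP_A, liftP_A]
      rfl
    have hB2 : ∀ (F : {F : Set G // F.Finite}) (m : G) (hm : m ∈ Subgroup.closure (F.1 ∩ (B : Set G))),
        d (s1 m) (pB A B K _ ⟨m, hs1 B ⟨m, la_le B _ hm⟩⟩) = d F (pB A B K _ ⟨m, hm⟩) := by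
      intro F m hm
      have hF' : (insert m F.1).Finite := F.2.insert m
      have hle : F ≤ ⟨insert m F.1, hF'⟩ := Set.subset_insert _ _
      have hle' : s1 m ≤ ⟨insert m F.1, hF'⟩ :=
        Set.singleton_subset_iff.2 (Set.mem_insert _ _)
      rw [← hd _ _ hle, ← hd _ _ hle', bP, bP, liftP_B, liftP_B]
      rfl
    let uA : A →* D :=
      { toFun := fun m => d (s1 m) (pA A B K _ ⟨m, hs1 A m⟩)
        map_one' := by
          have h1 := hA2 ⟨∅, Set.finite_empty⟩ 1 (Subgroup.one_mem _)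
          have h2 : (⟨1, Subgroup.one_mem _⟩ : LA A (∅ : Set G)) = 1 := rfl
          rw [h2, map_one, map_one] at h1
          exact h1
        map_mul' := by
          intro x y
          have hF : ({(x : G), (y : G)} : Set G).Finite := Set.toFinite _
          have hx : (x : G) ∈ Subgroup.closure (({(x : G), (y : G)} : Set G) ∩ (A : Set G)) :=
            Subgroup.subset_closure ⟨by simp, x.2⟩
          have hy : (y : G) ∈ Subgroup.closure (({(x : G), (y : G)} : Set G) ∩ (A : Set G)) :=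
            Subgroup.subset_closure ⟨by simp, y.2⟩
          have h1 := hA2 ⟨_, hF⟩ x hx
          have h2 := hA2 ⟨_, hF⟩ y hy
          have h3 := hA2 ⟨_, hF⟩ ((x * y : A) : G) (Subgroup.mul_mem _ hx hy)
          refine h3.trans ?_
          rw [h1, h2, ← map_mul, ← map_mul]
          rfl }
    let uB : B →* D :=
      { toFun := fun m => d (s1 m) (pB A B K _ ⟨m, hs1 B m⟩)
        map_one' := by
          have h1 := hB2 ⟨∅, Set.finite_empty⟩ 1 (Subgroup.one_mem _)
          have h2 : (⟨1, Subgroup.one_mem _⟩ : LA B (∅ : Set G)) = 1 := rfl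
          rw [h2, map_one, map_one] at h1
          exact h1
        map_mul' := by
          intro x y
          have hF : ({(x : G), (y : G)} : Set G).Finite := Set.toFinite _
          have hx : (x : G) ∈ Subgroup.closure (({(x : G), (y : G)} : Set G) ∩ (B : Set G)) :=
            Subgroup.subset_closure ⟨by simp, x.2⟩
          have hy : (y : G) ∈ Subgroup.closure (({(x : G), (y : G)} : Set G) ∩ (B : Set G)) :=
            Subgroup.subset_closure ⟨by simp, y.2⟩
          have h1 := hB2 ⟨_, hF⟩ x hx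
          have h2 := hB2 ⟨_, hF⟩ y hy
          have h3 := hB2 ⟨_, hF⟩ ((x * y : B) : G) (Subgroup.mul_mem _ hx hy)
          refine h3.trans ?_
          rw [h1, h2, ← map_mul, ← map_mul]
          rfl }
    obtain ⟨w, hw1, hw2⟩ := hA.univ D uA uB (by
      intro c hc
      exact congrArg (d (s1 c)) (p_eq {c} c rfl hc _ _))
    refine ⟨w, fun F x => ?_⟩
    have : w.comp (gP F.1) = d F := by
      apply PF_ext
      · intro x
        simp only [MonoidHom.comp_apply, gP]
        exact (hw1 ⟨x, la_le A _ x.2⟩).trans (hA2 F x x.2)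
      · intro x
        simp only [MonoidHom.comp_apply, gP]
        exact (hw2 ⟨x, la_le B _ x.2⟩).trans (hB2 F x x.2)
    exact DFunLike.congr_fun this x
  · intro F
    obtain ⟨P, _, u, v, hP, hu, hv, huv⟩ := h F.1 F.2
    refine am C hC _ P _ _ _ (amg_PF hA.le_left hA.le_right F.1) (liftP F.1 u v huv) ?_ ?_ hP
    · rintro _ ⟨x, rfl⟩ hx
      rw [liftP_A] at hx
      have h1 : x = 1 := hu (hx.trans (map_one u).symm)
      rw [h1, map_one]
    · rintro _ ⟨x, rfl⟩ hx
      rw [liftP_B] at hx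
      have h1 : x = 1 := hv (hx.trans (map_one v).symm)
      rw [h1, map_one]

end amg

/-! ### locally finite groups -/

section fin

/-- finite groups -/
theorem c_finite {C : ∀ (G : Type) [Group G], Prop} (hC : Closed C) (G : Type) [Group G] [Finite G] :
    C G := by
  refine hC.finiteIndex G ⊥ ⟨?_⟩ ?_
  · rw [Subgroup.index_bot]
    exact Nat.card_pos.ne'
  · refine hC.of_injective _ (Multiplicative ℤ) 1 ?_ hC.int
    intro a b _
    exact Subsingleton.elim a b

/-- the right regular representation -/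
def rR (L : Type) [Group L] : L →* Equiv.Perm L where
  toFun g := Equiv.mulRight g⁻¹
  map_one' := by ext x; simp
  map_mul' a b := by
    ext x
    simp [mul_assoc]

theorem rR_apply (L : Type) [Group L] (g x : L) : rR L g x = x * g⁻¹ := rfl

theorem rR_inj (L : Type) [Group L] : Function.Injective (rR L) := by
  intro a b h
  have h1 := DFunLike.congr_fun h 1
  rw [rR_apply, rR_apply, one_mul, one_mul, inv_inj] at h1
  exact h1

/-- a partial isomorphism of a finite group is a conjugation of permutations of the group -/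
theorem conj_fin (L : Type) [Group L] [Finite L] (A : Subgroup L) (ψ : A →* L)
    (hψ : Function.Injective ψ) : ∃ p : Equiv.Perm L, ∀ a : A, rR L (ψ a) = p * rR L a * p⁻¹ := by
  classical
  have hcard : Nat.card (L ⧸ A) = Nat.card (L ⧸ ψ.range) := by
    have h1 := A.card_mul_index
    have h2 := ψ.range.card_mul_index
    have h3 : Nat.card ψ.range = Nat.card A :=
      (Nat.card_congr (MonoidHom.ofInjective hψ).toEquiv).symm
    rw [h3, ← h1] at h2
    have h4 : 0 < Nat.card A := Nat.card_pos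
    have h5 := Nat.eq_of_mul_eq_mul_left h4 h2
    exact h5.symm
  obtain ⟨τ⟩ : Nonempty ((L ⧸ A) ≃ (L ⧸ ψ.range)) := Finite.card_eq.1 hcard
  have hq : ∀ x : L, (Quotient.out (x : L ⧸ A))⁻¹ * x ∈ A := fun x =>
    QuotientGroup.eq.1 (Quotient.out_eq' (x : L ⧸ A))
  let pf : L → L := fun x => Quotient.out (τ (x : L ⧸ A)) * ψ ⟨_, hq x⟩
  have hpf : ∀ x : L, ((pf x : L) : L ⧸ ψ.range) = τ (x : L ⧸ A) := by
    intro x
    have h1 : ((pf x : L) : L ⧸ ψ.range) = ((Quotient.out (τ (x : L ⧸ A)) : L) : L ⧸ ψ.range) := by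
      rw [eq_comm, QuotientGroup.eq]
      show _⁻¹ * (_ * _) ∈ _
      rw [inv_mul_cancel_left]
      exact ⟨_, rfl⟩
    rw [h1]
    exact Quotient.out_eq' _
  have hinj : Function.Injective pf := by
    intro x y hxy
    have h1 : (x : L ⧸ A) = (y : L ⧸ A) := by
      apply τ.injective
      rw [← hpf, ← hpf, hxy]
    have h2 : ψ ⟨_, hq x⟩ = ψ ⟨_, hq y⟩ := by
      have h3 : Quotient.out (τ (x : L ⧸ A)) * ψ ⟨_, hq x⟩ =
        Quotient.out (τ (y : L ⧸ A)) * ψ ⟨_, hq y⟩ := hxy
      have h6 : Quotient.out (τ (x : L ⧸ A)) = Quotient.out (τ (y : L ⧸ A)) := by rw [h1]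
      rw [h6] at h3
      exact mul_left_cancel h3
    have h5 := congrArg Subtype.val (hψ h2)
    simp only [h1] at h5
    exact mul_left_cancel h5
  let p : Equiv.Perm L := Equiv.ofBijective pf (Finite.injective_iff_bijective.1 hinj)
  refine ⟨p, fun a => ?_⟩
  rw [eq_mul_inv_iff_mul_eq]
  ext x
  show pf x * (ψ a)⁻¹ = pf (x * (a : L)⁻¹)
  have h1 : ((x * (a : L)⁻¹ : L) : L ⧸ A) = (x : L ⧸ A) := by
    rw [eq_comm, QuotientGroup.eq, inv_mul_cancel_left]
    exact A.inv_mem a.2
  have h2 : (⟨_, hq (x * (a : L)⁻¹)⟩ : A) = ⟨_, hq x⟩ * a⁻¹ := by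
    apply Subtype.ext
    show (Quotient.out ((x * (a : L)⁻¹ : L) : L ⧸ A))⁻¹ * (x * (a : L)⁻¹) =
      (Quotient.out (x : L ⧸ A))⁻¹ * x * (a : L)⁻¹
    rw [h1, mul_assoc]
  show Quotient.out (τ (x : L ⧸ A)) * ψ ⟨_, hq x⟩ * (ψ a)⁻¹ =
    Quotient.out (τ ((x * (a : L)⁻¹ : L) : L ⧸ A)) * ψ ⟨_, hq (x * (a : L)⁻¹)⟩
  rw [h2, map_mul, map_inv, h1, mul_assoc]

/-- HNN extensions of locally finite groups -/
theorem hnn_lf {C : ∀ (G : Type) [Group G], Prop} (hC : ClosedE C) {M : Type} [Group M]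
    (hM : ∀ F : Set M, F.Finite → Finite (Subgroup.closure F)) (A B : Subgroup M) (φ : A ≃* B) :
    C (HNNExtension M A B φ) := by
  apply hnn_local A B φ hC
  intro F hF
  have := hM F hF
  obtain ⟨p, hp⟩ := conj_fin (LF F) (AF A B φ F) (phF A B φ F) (phF_inj A B φ F)
  refine ⟨Equiv.Perm (LF F), inferInstance, rR (LF F), p, c_finite hC.base _, rR_inj _, ?_⟩
  intro a ha hb
  exact hp ⟨⟨a, Subgroup.subset_closure ha⟩, Subgroup.subset_closure ⟨ha, a.2, hb⟩⟩

/-- amalgamated products of locally finite groups -/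
theorem amg_lf {C : ∀ (G : Type) [Group G], Prop} (hC : ClosedE C) {G : Type} [Group G]
    {A B K : Subgroup G} (hA : Amg A B K)
    (h1 : ∀ F : Set G, F.Finite → F ⊆ A → Finite (Subgroup.closure F))
    (h2 : ∀ F : Set G, F.Finite → F ⊆ B → Finite (Subgroup.closure F)) : C G := by
  apply amg_local hC hA
  intro F hF
  have hfa : Finite (LA A F) := h1 _ (hF.subset Set.inter_subset_left) Set.inter_subset_right
  have hfb : Finite (LA B F) := h2 _ (hF.subset Set.inter_subset_left) Set.inter_subset_right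
  let L : Type := LA A F × LA B F
  let KF : Subgroup (LA A F) := (Subgroup.closure (F ∩ (K : Set G))).subgroupOf _
  let A' : Subgroup L := KF.map (MonoidHom.inl (LA A F) (LA B F))
  have hmem : ∀ a : A', ((a : L).1 : G) ∈ Subgroup.closure (F ∩ (K : Set G)) := by
    rintro ⟨_, x, hx, rfl⟩
    exact hx
  have hsnd : ∀ a : A', (a : L).2 = 1 := by
    rintro ⟨_, x, hx, rfl⟩
    rfl
  let ψ : A' →* L :=
    { toFun := fun a => (1, ⟨((a : L).1 : G), lk_le hA.le_right F (hmem a)⟩)
      map_one' := rfl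
      map_mul' := fun a b => Prod.ext (one_mul _).symm (Subtype.ext rfl) }
  have hψ : Function.Injective ψ := by
    intro a b hab
    have h3 := congrArg (fun x : L => (x.2 : G)) hab
    apply Subtype.ext
    apply Prod.ext
    · exact Subtype.ext h3
    · rw [hsnd, hsnd]
  obtain ⟨p, hp⟩ := conj_fin L A' ψ hψ
  refine ⟨Equiv.Perm L, inferInstance,
    (MulAut.conj p).toMonoidHom.comp ((rR L).comp (MonoidHom.inl _ _)),
    (rR L).comp (MonoidHom.inr _ _), c_finite hC.base _, ?_, ?_, ?_⟩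
  · intro x y hxy
    have h3 := rR_inj L ((MulAut.conj p).injective hxy)
    exact congrArg Prod.fst h3
  · intro x y hxy
    have h3 := rR_inj L hxy
    exact congrArg Prod.snd h3
  · intro c hc hK ha hb
    have hx : (⟨c, ha⟩ : LA A F) ∈ KF := Subgroup.subset_closure ⟨hc, hK⟩
    exact (hp ⟨(⟨c, ha⟩, 1), ⟨⟨c, ha⟩, hx, rfl⟩⟩).symm

end fin

end Pool.Agent.X176.FJ
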