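import Mathlib
import Pool.Agent.X176.FJ.Local

/-!
Commutative groups are in the class.
-/

set_option autoImplicit false

namespace Pool.Agent.X176.FJ

open Pool.Agent.Y110.FJ
open Pool.Agent.Y462.SS (Closed)

theorem c_powFin {C : ∀ (G : Type) [Group G], Prop} (hC : Closed C) (A : Type) [Group A] (hA : C A)
    (n : ℕ) : C (Fin n → A) := by
  induction n with
  | zero => exact c_finite hC _
  | succ n ih =>
    let f : (Fin (n + 1) → A) →* A × (Fin n → A) :=
      { toFun := fun x => (x 0, fun i => x i.succ)
        map_one' := rfl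
        map_mul' := fun _ _ => rfl }
    refine hC.of_injective _ _ f ?_ (hC.prod _ _ hA ih)
    intro x y h
    funext i
    refine Fin.cases ?_ (fun i => ?_) i
    · exact congrArg Prod.fst h
    · exact congrFun (congrArg Prod.snd h) i

/-- **commutative groups** -/
theorem c_comm {C : ∀ (G : Type) [Group G], Prop} (hC : Closed C) (G : Type) [CommGroup G] : C G := by
  apply c_loc hC
  intro E hE
  have h1 : (Subgroup.closure E).FG := ⟨hE.toFinset, by simp⟩
  have h2 : Group.FG (Subgroup.closure E) := (Group.fg_iff_subgroup_fg _).2 h1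
  obtain ⟨ι, j, _, _, p, hp, e, ⟨u⟩⟩ :=
    CommGroup.equiv_free_prod_prod_multiplicative_zmod (Subgroup.closure E)
  have h3 : C (j → Multiplicative ℤ) := by
    let f : (j → Multiplicative ℤ) →* (Fin (Fintype.card j) → Multiplicative ℤ) :=
      { toFun := fun x i => x ((Fintype.equivFin j).symm i)
        map_one' := rfl
        map_mul' := fun _ _ => rfl }
    refine hC.of_injective _ _ f ?_ (c_powFin hC _ hC.int _)
    intro x y h
    funext i
    have := congrFun h (Fintype.equivFin j i)
    simpa [f] using this
  have h4 : C ((i : ι) → Multiplicative (ZMod (p i ^ e i))) := by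
    have : ∀ i, NeZero (p i ^ e i) := fun i => ⟨pow_ne_zero _ (hp i).ne_zero⟩
    have h5 : ∀ i, Finite (Multiplicative (ZMod (p i ^ e i))) := fun i =>
      inferInstanceAs (Finite (ZMod (p i ^ e i)))
    exact c_finite hC _
  exact hC.of_injective _ _ u.toMonoidHom u.injective (hC.prod _ _ h3 h4)

end Pool.Agent.X176.FJ
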