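import Mathlib
import Pool.Agent.X176.FJ.RfF

/-!
Finitely generated abelian subgroups of centreless residually free normal subgroups.
-/

set_option autoImplicit false

namespace Pool.Agent.X176.FJ

/-- For all large primes `p` there is a finite quotient of exponent `p` in which an element of `E` is central
only if it is a `p`-th power in `E`, and such that `E` meets the commutator subgroups of the subgroups with
central image trivially. -/
def GoodC (A : Type) [Group A] (E : Subgroup A) : Prop :=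
  ∃ N : ℕ, ∀ p : ℕ, p.Prime → N ≤ p → ∃ (S : Type) (_ : Group S) (f : A →* S), Finite S ∧
    (∀ s : S, s ^ p = 1) ∧ (∀ x ∈ E, (∀ a, f x * f a = f a * f x) → ∃ y ∈ E, x = y ^ p) ∧
      (∀ W : Subgroup A, (∀ w ∈ W, ∀ a, f w * f a = f a * f w) → ∀ x ∈ E, x ∈ ⁅W, W⁆ → x = 1)

theorem free_com' {X S : Type} [Group S] (g : FreeGroup X →* S) (w : FreeGroup X) (hw : g w ≠ 1)
    (W : Subgroup (FreeGroup X)) (hW : ∀ a ∈ W, ∀ b ∈ W, g a * g b = g b * g a)
    (hWw : ∀ a ∈ W, g a * g w = g w * g a) (k : ℤ) (hk : w ^ k ∈ ⁅W, W⁆) : k = 0 := by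
  by_contra hk0
  let X0 : Set S := insert (g w) (g '' (W : Set (FreeGroup X)))
  have hX0 : ∀ a ∈ X0, ∀ b ∈ X0, a * b = b * a := by
    rintro a (rfl | ⟨a, ha, rfl⟩) b (rfl | ⟨b, hb, rfl⟩)
    · rfl
    · exact (hWw b hb).symm
    · exact hWw a ha
    · exact hW a ha b hb
  have hcl : ∀ a ∈ Subgroup.closure X0, ∀ b ∈ Subgroup.closure X0, a * b = b * a := by
    intro a ha b hb
    have h1 : a ∈ Subgroup.centralizer (X0 : Set S) := by
      refine (Subgroup.closure_le _).2 ?_ ha
      intro x hx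
      rw [SetLike.mem_coe, Subgroup.mem_centralizer_iff]
      intro y hy
      exact hX0 y hy x hx
    have h2 : b ∈ Subgroup.centralizer ({a} : Set S) := by
      refine (Subgroup.closure_le _).2 ?_ hb
      intro x hx
      rw [SetLike.mem_coe, Subgroup.mem_centralizer_iff]
      rintro y rfl
      exact ((Subgroup.mem_centralizer_iff.1 h1) x hx).symm
    exact (Subgroup.mem_centralizer_iff.1 h2) a rfl
  let H : Subgroup (FreeGroup X) := (Subgroup.closure X0).comap g
  have hWH : W ≤ H := fun x hx => Subgroup.subset_closure (Or.inr ⟨x, hx, rfl⟩)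
  let wH : H := ⟨w, Subgroup.subset_closure (Or.inl rfl)⟩
  have h1 : w ^ k ∈ ⁅H, H⁆ := Subgroup.commutator_mono hWH hWH hk
  have h2 : wH ^ k ∈ commutator H := by
    have h3 : (commutator H).map H.subtype = ⁅H, H⁆ := by
      rw [commutator_def, Subgroup.map_commutator, ← MonoidHom.range_eq_map, Subgroup.range_subtype]
    rw [← h3] at h1
    obtain ⟨y, hy, hyw⟩ := h1
    have h4 : y = wH ^ k := Subtype.ext hyw
    rwa [h4] at hy
  have h3 : wH ∈ commutator H := by
    refine free_abtf' wH k.natAbs (Int.natAbs_pos.2 hk0) ?_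
    rcases Int.natAbs_eq k with h4 | h4
    · rw [h4, zpow_natCast] at h2
      exact h2
    · rw [h4, zpow_neg, zpow_natCast, inv_mem_iff] at h2
      exact h2
  have h4 : commutator H ≤ (g.comp H.subtype).ker := by
    rw [commutator_def, Subgroup.commutator_le]
    rintro a - b -
    rw [MonoidHom.mem_ker]
    show g ((a * b * a⁻¹ * b⁻¹ : H) : FreeGroup X) = 1
    rw [Subgroup.coe_mul, Subgroup.coe_mul, Subgroup.coe_mul, Subgroup.coe_inv, Subgroup.coe_inv,
      map_mul, map_mul, map_mul, map_inv, map_inv, hcl _ a.2 _ b.2]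
    group
  exact hw (h4 h3)

theorem goodC_step {G X : Type} [Group G] {E E' : Subgroup G} (f : G →* FreeGroup X) (x' y : G)
    (hx'E : x' ∈ E) (hcomm : ∀ x ∈ E, ∀ y ∈ E, x * y = y * x) (hgen : ∀ x ∈ E, ∃ k : ℤ, f x = (f x') ^ k)
    (hxy : f x' * f y ≠ f y * f x') (hE' : ∀ x, x ∈ E' ↔ x ∈ E ∧ f x = 1) (h : GoodC G E') :
    GoodC G E := by
  obtain ⟨N, hN⟩ := h
  have hc : f x' * f y * (f x')⁻¹ * (f y)⁻¹ ≠ 1 := by
    intro h
    rw [mul_inv_eq_one, mul_inv_eq_iff_eq_mul] at h
    exact hxy h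
  obtain ⟨M, hM⟩ := free_surv _ hc
  refine ⟨max N M, fun p hp hNp => ?_⟩
  obtain ⟨S, _, g, hfin, hexp, hker, hcom⟩ := hN p hp (le_trans (le_max_left _ _) hNp)
  obtain ⟨S', _, g', hfin', hexp', hw⟩ := hM p hp (le_trans (le_max_right _ _) hNp)
  have hpf : Fact p.Prime := ⟨hp⟩
  have hnc : g' (f x') * g' (f y) ≠ g' (f y) * g' (f x') := by
    intro h
    apply hw
    rw [map_mul, map_mul, map_mul, map_inv, map_inv, h]
    group
  have hw1 : g' (f x') ≠ 1 := by
    intro h
    apply hnc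
    rw [h, one_mul, mul_one]
  let F : G →* S × S' := g.prod (g'.comp f)
  have hF1 : ∀ x, (∀ a, F x * F a = F a * F x) → ∀ a, g x * g a = g a * g x :=
    fun x hx a => congrArg Prod.fst (hx a)
  have hF2 : ∀ x, (∀ a, F x * F a = F a * F x) → ∀ a, g' (f x) * g' (f a) = g' (f a) * g' (f x) :=
    fun x hx a => congrArg Prod.snd (hx a)
  refine ⟨S × S', inferInstance, F, inferInstance,
    fun s => Prod.ext (hexp s.1) (hexp' s.2), ?_, ?_⟩
  · intro x hx hFx
    obtain ⟨k, hk⟩ := hgen x hx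
    have h1 := hF2 x hFx y
    rw [hk, map_zpow] at h1
    have hpk : (p : ℤ) ∣ k := by
      by_contra hpk
      have hcop : IsCoprime (p : ℤ) k := (Prime.coprime_iff_not_dvd (Nat.prime_iff_prime_int.1 hp)).2 hpk
      obtain ⟨a, b, hab⟩ := hcop
      apply hnc
      have h2 : g' (f x') = (g' (f x') ^ k) ^ b := by
        have h3 : g' (f x') ^ (a * p + b * k) = g' (f x') := by rw [hab, zpow_one]
        rw [zpow_add, mul_comm a, zpow_mul, zpow_natCast, hexp', one_zpow, one_mul, mul_comm b,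
          zpow_mul] at h3
        exact h3.symm
      have h3 : Commute (g' (f x') ^ k) (g' (f y)) := h1
      rw [h2]
      exact h3.zpow_left b
    obtain ⟨l, hl⟩ := hpk
    have hyE : x' ^ (-k) * x ∈ E := E.mul_mem (E.zpow_mem hx'E _) hx
    have hy : x' ^ (-k) * x ∈ E' := by
      rw [hE']
      refine ⟨hyE, ?_⟩
      rw [map_mul, map_zpow, hk, zpow_neg, inv_mul_cancel]
    have hgy : g (x' ^ (-k) * x) = g x := by
      rw [map_mul, map_zpow, hl, zpow_neg, zpow_mul, zpow_natCast, hexp, one_zpow,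
        inv_one, one_mul]
    obtain ⟨t, ht, hyt⟩ := hker _ hy (fun a => by rw [hgy]; exact hF1 x hFx a)
    have htE : t ∈ E := ((hE' t).1 ht).1
    refine ⟨x' ^ l * t, E.mul_mem (E.zpow_mem hx'E _) htE, ?_⟩
    have hc : Commute (x' ^ l) t := hcomm _ (E.zpow_mem hx'E _) _ htE
    rw [hc.mul_pow, ← hyt, ← zpow_natCast, ← zpow_mul, mul_comm l, ← hl, zpow_neg, mul_inv_cancel_left]
  · intro W hW x hx hxW
    have h3 : f x ∈ ⁅W.map f, W.map f⁆ := by
      rw [← Subgroup.map_commutator]
      exact ⟨x, hxW, rfl⟩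
    obtain ⟨k, hk⟩ := hgen x hx
    rw [hk] at h3
    have h4 := free_com' g' (f x') hw1 (W.map f) (by
      rintro _ ⟨a, ha, rfl⟩ _ ⟨b, hb, rfl⟩
      exact hF2 a (hW a ha) b) (by
      rintro _ ⟨a, ha, rfl⟩
      exact hF2 a (hW a ha) x') k h3
    rw [h4, zpow_zero] at hk
    exact hcom W (fun w hw' => hF1 w (hW w hw')) x ((hE' x).2 ⟨hx, hk⟩) hxW

theorem goodC_bot (G : Type) [Group G] : GoodC G (⊥ : Subgroup G) :=
  ⟨0, fun p _ _ => ⟨PUnit, inferInstance, 1, inferInstance, fun _ => rfl,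
    fun x hx _ => ⟨1, one_mem _, by rw [one_pow]; exact hx⟩, fun _ _ x hx _ => hx⟩⟩

theorem goodC_desc {G : Type} [Group G] (hG : ResFree G) (M : Type) [AddCommGroup M]
    (j : Multiplicative M →* G) (x0 : M)
    (hx0 : ∃ y, j (Multiplicative.ofAdd x0) * y ≠ y * j (Multiplicative.ofAdd x0)) :
    ∃ ν : M →+ ℤ, ν ≠ 0 ∧ (GoodC G (j.comp (AddMonoidHom.toMultiplicative ν.ker.subtype)).range →
      GoodC G j.range) := by
  classical
  obtain ⟨y, hy⟩ := hx0
  obtain ⟨X, f, hf0⟩ := hG (j (Multiplicative.ofAdd x0) * y * (j (Multiplicative.ofAdd x0))⁻¹ * y⁻¹) (by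
    intro h
    rw [mul_inv_eq_one, mul_inv_eq_iff_eq_mul] at h
    exact hy h)
  have hfc : f (j (Multiplicative.ofAdd x0)) * f y ≠ f y * f (j (Multiplicative.ofAdd x0)) := by
    intro h
    apply hf0
    rw [map_mul, map_mul, map_mul, map_inv, map_inv, h]
    group
  have hf : f (j (Multiplicative.ofAdd x0)) ≠ 1 := by
    intro h
    apply hfc
    rw [h, one_mul, mul_one]
  let Q : Subgroup (FreeGroup X) := (f.comp j).range
  obtain ⟨⟨_, m', rfl⟩, hg⟩ := free_cyc (M := Q) (by
    rintro ⟨_, a, rfl⟩ ⟨_, b, rfl⟩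
    apply Subtype.ext
    show (f.comp j) a * (f.comp j) b = (f.comp j) b * (f.comp j) a
    rw [← map_mul, ← map_mul, mul_comm])
  have hgen : ∀ m : Multiplicative M, ∃ k : ℤ, f (j m) = (f (j m')) ^ k := by
    intro m
    obtain ⟨k, hk⟩ := hg ⟨_, m, rfl⟩
    exact ⟨k, congrArg Subtype.val hk⟩
  have hw : f (j m') ≠ 1 := by
    intro h
    obtain ⟨k, hk⟩ := hgen (Multiplicative.ofAdd x0)
    rw [h, one_zpow] at hk
    exact hf hk
  have hwy : f (j m') * f y ≠ f y * f (j m') := by
    intro h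
    obtain ⟨k, hk⟩ := hgen (Multiplicative.ofAdd x0)
    apply hfc
    rw [hk]
    have h1 : Commute (f (j m')) (f y) := h
    exact h1.zpow_left k
  choose κ hκ using hgen
  let ν : M →+ ℤ :=
    { toFun := fun m => κ (Multiplicative.ofAdd m)
      map_zero' := by
        apply zpow_inj _ hw
        rw [← hκ, ofAdd_zero, map_one, map_one, zpow_zero]
      map_add' := fun a b => by
        apply zpow_inj _ hw
        rw [zpow_add, ← hκ, ← hκ, ← hκ, ofAdd_add, map_mul, map_mul] }
  have hν : ∀ m : M, f (j (Multiplicative.ofAdd m)) = (f (j m')) ^ (ν m) := fun m => hκ _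
  refine ⟨ν, ?_, ?_⟩
  · intro h
    have h2 := hν x0
    rw [h] at h2
    exact hf (h2.trans (zpow_zero _))
  · refine goodC_step f (j m') y ⟨m', rfl⟩ ?_ ?_ hwy ?_
    · rintro _ ⟨a, rfl⟩ _ ⟨b, rfl⟩
      rw [← map_mul, ← map_mul, mul_comm]
    · rintro _ ⟨a, rfl⟩
      exact ⟨κ a, hκ a⟩
    · intro x
      constructor
      · rintro ⟨a, rfl⟩
        refine ⟨⟨_, rfl⟩, ?_⟩
        have h2 : ν ((Multiplicative.toAdd a : ν.ker) : M) = 0 := (Multiplicative.toAdd a).2
        have h3 := hν ((Multiplicative.toAdd a : ν.ker) : M)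
        rw [h2, zpow_zero] at h3
        exact h3
      · rintro ⟨⟨a, rfl⟩, h2⟩
        have h3 : ν (Multiplicative.toAdd a) = 0 := by
          apply zpow_inj _ hw
          rw [← hν, zpow_zero]
          exact h2
        exact ⟨Multiplicative.ofAdd ⟨Multiplicative.toAdd a, h3⟩, rfl⟩

theorem rank_desc {M : Type} [AddCommGroup M] [Module.Finite ℤ M] (ν : M →+ ℤ) (hν : ν ≠ 0) :
    Module.Finite ℤ ν.ker ∧ Module.finrank ℤ ν.ker < Module.finrank ℤ M := by
  let L : M →ₗ[ℤ] ℤ := ν.toIntLinearMap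
  have h1 := (LinearMap.ker L).finrank_quotient_add_finrank
  rw [LinearEquiv.finrank_eq L.quotKerEquivRange] at h1
  have h2 : 0 < Module.finrank ℤ (LinearMap.range L) := by
    have h3 : Nontrivial (LinearMap.range L) := by
      rw [Submodule.nontrivial_iff_ne_bot, Ne, LinearMap.range_eq_bot]
      intro h
      apply hν
      ext x
      exact LinearMap.congr_fun h x
    exact Module.finrank_pos
  have h4 : Module.Finite ℤ (LinearMap.ker L) := inferInstance
  let e : LinearMap.ker L ≃+ ν.ker :=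
    { toFun := fun x => ⟨x.1, x.2⟩
      invFun := fun x => ⟨x.1, x.2⟩
      left_inv := fun _ => rfl
      right_inv := fun _ => rfl
      map_add' := fun _ _ => rfl }
  have h5 : Module.finrank ℤ ν.ker = Module.finrank ℤ (LinearMap.ker L) :=
    (LinearEquiv.finrank_eq e.toIntLinearEquiv).symm
  exact ⟨Module.Finite.equiv e.toIntLinearEquiv, by omega⟩

theorem goodC_aux {G : Type} [Group G] (hG : ResFree G) : ∀ (n : ℕ) (M : Type) [AddCommGroup M]
    [Module.Finite ℤ M] (j : Multiplicative M →* G),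
      (∀ m : M, m ≠ 0 → ∃ y, j (Multiplicative.ofAdd m) * y ≠ y * j (Multiplicative.ofAdd m)) →
      Module.finrank ℤ M < n → GoodC G j.range := by
  intro n
  induction n with
  | zero =>
    intro M _ _ j hj hn
    omega
  | succ n ih =>
    intro M _ _ j hj hn
    by_cases hM : ∃ x0 : M, x0 ≠ 0
    · obtain ⟨x0, hx0⟩ := hM
      obtain ⟨ν, hν, hstep⟩ := goodC_desc hG M j x0 (hj x0 hx0)
      obtain ⟨h1, h2⟩ := rank_desc ν hν
      refine hstep (ih ν.ker (j.comp (AddMonoidHom.toMultiplicative ν.ker.subtype)) ?_ (by omega))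
      intro m hm
      exact hj m (fun h => hm (Subtype.ext h))
    · have h1 : j.range = ⊥ := by
        rw [eq_bot_iff]
        rintro _ ⟨a, rfl⟩
        have h2 : Multiplicative.toAdd a = 0 := by
          by_contra h
          exact hM ⟨_, h⟩
        have h3 : a = 1 := h2
        rw [h3, map_one]
        exact one_mem _
      rw [h1]
      exact goodC_bot G

/-- finitely generated abelian subgroups of centreless residually free groups -/
theorem goodC_fgab {G : Type} [Group G] (hG : ResFree G) (hZ : ∀ x : G, (∀ y, x * y = y * x) → x = 1)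
    (E : Subgroup G) (hfg : E.FG) (hc : ∀ a ∈ E, ∀ b ∈ E, a * b = b * a) : GoodC G E := by
  let _ : CommGroup E := { (inferInstance : Group E) with
    mul_comm := fun a b => Subtype.ext (hc a a.2 b b.2) }
  have h1 : Group.FG E := (Group.fg_iff_subgroup_fg E).2 hfg
  have h2 : AddGroup.FG (Additive E) := inferInstance
  have h3 : Module.Finite ℤ (Additive E) := Module.Finite.iff_addGroup_fg.2 h2
  have h4 := goodC_aux hG (Module.finrank ℤ (Additive E) + 1) (Additive E) E.subtype
    (fun m hm => by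
      by_contra h
      push Not at h
      have h6 := hZ ((Additive.toMul m : E) : G) h
      exact hm (Subtype.ext h6)) (Nat.lt_succ_self _)
  have h5 : (E.subtype).range = E := Subgroup.range_subtype E
  rw [← h5]
  exact h4

section rel

/-- relative version for a normal subgroup -/
def GoodN (G : Type) [Group G] (A E : Subgroup G) : Prop :=
  ∃ N : ℕ, ∀ p : ℕ, p.Prime → N ≤ p → ∃ (S : Type) (_ : Group S) (f : G →* S), Finite S ∧
    (∀ a ∈ A, f a ^ p = 1) ∧ (∀ x ∈ E, f x = 1 → ∃ y ∈ E, x = y ^ p) ∧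
      (∀ x ∈ E, x ∈ ⁅f.ker ⊓ A, f.ker ⊓ A⁆ → x = 1)

/-- the action on the homomorphisms of a normal subgroup -/
def hact {G : Type} [Group G] (A : Subgroup G) [A.Normal] (S : Type) [Group S] :
    G →* Equiv.Perm (A →* S) where
  toFun g :=
    { toFun := fun h => h.comp (MulAut.conjNormal g⁻¹).toMonoidHom
      invFun := fun h => h.comp (MulAut.conjNormal g).toMonoidHom
      left_inv := fun h => by
        ext x
        show h (MulAut.conjNormal g⁻¹ (MulAut.conjNormal g x)) = h x
        rw [map_inv]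
        exact congrArg h (MulEquiv.symm_apply_apply _ _)
      right_inv := fun h => by
        ext x
        show h (MulAut.conjNormal g (MulAut.conjNormal g⁻¹ x)) = h x
        rw [map_inv]
        exact congrArg h (MulEquiv.apply_symm_apply _ _) }
  map_one' := by
    ext h x
    show h (MulAut.conjNormal (1 : G)⁻¹ x) = h x
    rw [inv_one, map_one]
    rfl
  map_mul' a b := by
    ext h x
    show h (MulAut.conjNormal (a * b)⁻¹ x) = h (MulAut.conjNormal b⁻¹ (MulAut.conjNormal a⁻¹ x))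
    rw [mul_inv_rev, map_mul]
    rfl

theorem hact_apply {G : Type} [Group G] (A : Subgroup G) [A.Normal] (S : Type) [Group S] (g : G)
    (h : A →* S) (x : A) : hact A S g h x = h (MulAut.conjNormal g⁻¹ x) := rfl

theorem finite_hom {A S : Type} [Group A] [Group S] [Finite S] (hA : Group.FG A) : Finite (A →* S) := by
  obtain ⟨T, hT⟩ := hA.out
  refine Finite.of_injective (fun (h : A →* S) (t : T) => h t) ?_
  intro h k hk
  refine MonoidHom.eq_of_eqOn_dense hT ?_
  intro x hx
  exact congrFun hk ⟨x, hx⟩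

theorem goodN_of {G : Type} [Group G] (A E : Subgroup G) [A.Normal] (hA : A.FG) (hEA : E ≤ A)
    (h : GoodC A (E.subgroupOf A)) : GoodN G A E := by
  obtain ⟨N, hN⟩ := h
  refine ⟨N, fun p hp hNp => ?_⟩
  obtain ⟨S, _, f, hfin, hexp, hker, hcom⟩ := hN p hp hNp
  have hA' : Group.FG A := (Group.fg_iff_subgroup_fg A).2 hA
  have hfin' : Finite (A →* S) := finite_hom hA'
  have key : ∀ x : A, hact A S (x : G) f = f → ∀ a, f x * f a = f a * f x := by
    intro x hx a
    have h1 := DFunLike.congr_fun hx (x * a * x⁻¹)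
    rw [hact_apply] at h1
    have h2 : MulAut.conjNormal (x : G)⁻¹ (x * a * x⁻¹) = a := by
      apply Subtype.ext
      rw [MulAut.conjNormal_apply]
      show (x : G)⁻¹ * ((x : G) * a * (x : G)⁻¹) * (x : G)⁻¹⁻¹ = a
      group
    rw [h2, map_mul, map_mul, map_inv, eq_mul_inv_iff_mul_eq] at h1
    exact h1.symm
  refine ⟨Equiv.Perm (A →* S), inferInstance, hact A S, inferInstance, ?_, ?_, ?_⟩
  · intro a ha
    rw [← map_pow]
    ext h x
    rw [hact_apply, Equiv.Perm.one_apply]
    have h1 : MulAut.conjNormal (a ^ p)⁻¹ x = (⟨a, ha⟩ : A) ^ (-(p : ℤ)) * x * (⟨a, ha⟩ : A) ^ (p : ℤ) := by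
      apply Subtype.ext
      rw [MulAut.conjNormal_apply]
      show (a ^ p)⁻¹ * (x : G) * (a ^ p)⁻¹⁻¹ = a ^ (-(p : ℤ)) * (x : G) * a ^ (p : ℤ)
      rw [zpow_neg, zpow_natCast, inv_inv]
    rw [h1, map_mul, map_mul, map_zpow, map_zpow, zpow_neg, zpow_natCast, hexp, inv_one, one_mul, mul_one]
  · intro x hx h1
    obtain ⟨y, hy, hxy⟩ := hker ⟨x, hEA hx⟩ hx (key ⟨x, hEA hx⟩ (by
      show hact A S x f = f
      rw [h1]; rfl))
    exact ⟨y, hy, congrArg Subtype.val hxy⟩
  · intro x hx h1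
    let W : Subgroup A := ((hact A S).ker ⊓ A).subgroupOf A
    have h2 : W.map A.subtype = (hact A S).ker ⊓ A :=
      Subgroup.map_subgroupOf_eq_of_le inf_le_right
    rw [← h2, ← Subgroup.map_commutator] at h1
    obtain ⟨y, hy, rfl⟩ := h1
    have h3 := hcom W (by
      intro w hw
      refine key w ?_
      have h4 : hact A S (w : G) = 1 := hw.1
      rw [h4]; rfl) y hx hy
    rw [h3, map_one]

end rel

end Pool.Agent.X176.FJ
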