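import Mathlib
import Pool.Agent.X176.FJ.Bool
import Pool.Agent.X176.FJ.Local

/-!
Semidirect products of free products with triangular actions.
-/

set_option autoImplicit false

namespace Pool.Agent.X176.FJ

open Pool.Agent.Y110.FJ
open Pool.Agent.Y462.SS (Closed Wr)
open Pool.Agent.Y110.KW (keep keep_of_mem keep_of_notMem keep_inter keep_univ)
open Monoid

/-! ### homomorphisms from semidirect products with `ℤ` -/

section liftZ

variable {N H : Type} [Group N] [Group H]

/-- the semidirect product of `N` and `ℤ` given by an automorphism -/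
abbrev SZ (σ : MulAut N) : Type := N ⋊[zpowersHom (MulAut N) σ] Multiplicative ℤ

theorem conj_zpow (σ : MulAut N) (f : N →* H) (t : H) (h : ∀ n, t * f n * t⁻¹ = f (σ n)) (m : ℤ) (n : N) :
    t ^ m * f n * (t ^ m)⁻¹ = f ((σ ^ m) n) := by
  induction m using Int.induction_on generalizing n with
  | zero => simp
  | succ m ih =>
    rw [zpow_add_one, zpow_add_one]
    show t ^ (m : ℤ) * t * f n * (t ^ (m : ℤ) * t)⁻¹ = f ((σ ^ (m : ℤ)) (σ n))
    rw [← ih (σ n), ← h n]
    group
  | pred m ih =>
    rw [zpow_sub_one, zpow_sub_one]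
    show t ^ (-m : ℤ) * t⁻¹ * f n * (t ^ (-m : ℤ) * t⁻¹)⁻¹ = f ((σ ^ (-m : ℤ)) (σ⁻¹ n))
    have h1 : t⁻¹ * f n * t = f (σ⁻¹ n) := by
      have h2 := h (σ⁻¹ n)
      rw [MulAut.apply_inv_self] at h2
      rw [← h2]
      group
    rw [← ih (σ⁻¹ n), ← h1]
    group

/-- homomorphisms from the semidirect product with `ℤ` -/
def liftZ (σ : MulAut N) (f : N →* H) (t : H) (h : ∀ n, t * f n * t⁻¹ = f (σ n)) : SZ σ →* H :=
  SemidirectProduct.lift f (zpowersHom H t) (by
    intro m
    ext n
    exact (conj_zpow σ f t h (Multiplicative.toAdd m) n).symm)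

variable (σ : MulAut N) (f : N →* H) (t : H) (h : ∀ n, t * f n * t⁻¹ = f (σ n))

theorem liftZ_inl (n : N) : liftZ σ f t h (SemidirectProduct.inl n) = f n :=
  SemidirectProduct.lift_inl _ _ _ _

theorem liftZ_inr (m : Multiplicative ℤ) :
    liftZ σ f t h (SemidirectProduct.inr m) = t ^ (Multiplicative.toAdd m) :=
  SemidirectProduct.lift_inr _ _ _ _

/-- the stable letter -/
def tZ (σ : MulAut N) : SZ σ := SemidirectProduct.inr (Multiplicative.ofAdd 1)

theorem liftZ_t : liftZ σ f t h (tZ σ) = t := by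
  rw [tZ, liftZ_inr, toAdd_ofAdd, zpow_one]

theorem tZ_conj (n : N) : tZ σ * SemidirectProduct.inl n * (tZ σ)⁻¹ = SemidirectProduct.inl (σ n) := by
  rw [tZ, ← map_inv, ← SemidirectProduct.inl_aut]
  congr 1

theorem inr_eq (m : Multiplicative ℤ) :
    (SemidirectProduct.inr m : SZ σ) = (tZ σ) ^ (Multiplicative.toAdd m) := by
  rw [tZ, ← map_zpow, ← Int.ofAdd_mul, one_mul]
  rfl

theorem SZ_ext {u v : SZ σ →* H} (h1 : ∀ n, u (SemidirectProduct.inl n) = v (SemidirectProduct.inl n))
    (h2 : u (tZ σ) = v (tZ σ)) : u = v := by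
  apply SemidirectProduct.hom_ext
  · exact MonoidHom.ext h1
  · apply MonoidHom.ext
    intro m
    show u (SemidirectProduct.inr m) = v (SemidirectProduct.inr m)
    rw [inr_eq, map_zpow, map_zpow, h2]

end liftZ

/-! ### elementary automorphisms of a free product -/

section elem

variable {ι : Type} {G : ι → Type} [∀ i, Group (G i)]

open Classical in
/-- the elementary endomorphism -/
noncomputable def elH (w : ι → CoprodI G) (τ : ∀ i, MulAut (G i)) (k : ι) : CoprodI G →* CoprodI G :=
  CoprodI.lift fun i => if i = k then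
    (MulAut.conj (w i)).toMonoidHom.comp ((CoprodI.of (M := G) (i := i)).comp (τ i).toMonoidHom)
    else CoprodI.of

theorem elH_self (w : ι → CoprodI G) (τ : ∀ i, MulAut (G i)) (k : ι) (g : G k) :
    elH w τ k (CoprodI.of g) = w k * CoprodI.of (τ k g) * (w k)⁻¹ := by
  rw [elH, CoprodI.lift_of, if_pos rfl]
  rfl

theorem elH_ne (w : ι → CoprodI G) (τ : ∀ i, MulAut (G i)) (k : ι) {i : ι} (hi : i ≠ k) (g : G i) :
    elH w τ k (CoprodI.of g) = CoprodI.of g := by
  rw [elH, CoprodI.lift_of, if_neg hi]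

theorem elH_keep (w : ι → CoprodI G) (τ : ∀ i, MulAut (G i)) (k : ι) (n : CoprodI G)
    (hn : keep {k}ᶜ n = n) : elH w τ k n = n := by
  have h1 : (elH w τ k).comp (keep {k}ᶜ) = keep {k}ᶜ := by
    apply CoprodI.ext_hom
    intro i
    ext1 g
    simp only [MonoidHom.comp_apply]
    by_cases hi : i ∈ ({k}ᶜ : Set ι)
    · rw [keep_of_mem hi, elH_ne w τ k hi]
    · rw [keep_of_notMem hi, map_one]
  have h2 := DFunLike.congr_fun h1 n
  rw [MonoidHom.comp_apply, hn] at h2
  exact h2

theorem elH_elH (w w' : ι → CoprodI G) (τ τ' : ∀ i, MulAut (G i)) (k : ι)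
    (hw' : keep {k}ᶜ (w' k) = w' k) (h1 : w' k * w k = 1) (h2 : ∀ g, τ k (τ' k g) = g) (n : CoprodI G) :
    elH w τ k (elH w' τ' k n) = n := by
  have h3 : (elH w τ k).comp (elH w' τ' k) = MonoidHom.id _ := by
    apply CoprodI.ext_hom
    intro i
    ext1 g
    simp only [MonoidHom.comp_apply, MonoidHom.id_apply]
    by_cases hi : i = k
    · subst hi
      rw [elH_self, map_mul, map_mul, map_inv, elH_keep w τ i _ hw', elH_self, h2]
      have h4 : w i = (w' i)⁻¹ := by rw [eq_inv_iff_mul_eq_one, ← h1, mul_eq_one_iff_eq_inv.1 h1]; group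
      rw [h4]
      group
    · rw [elH_ne w' τ' k hi, elH_ne w τ k hi]
  exact DFunLike.congr_fun h3 n

/-- the elementary automorphism: it maps `g` in the factor `k` to `w τ(g) w⁻¹` and fixes the other
factors -/
noncomputable def elA (w : ι → CoprodI G) (τ : ∀ i, MulAut (G i)) (k : ι)
    (hw : keep {k}ᶜ (w k) = w k) : MulAut (CoprodI G) :=
  MonoidHom.toMulEquiv (elH w τ k) (elH (fun i => (w i)⁻¹) (fun i => (τ i)⁻¹) k)
    (MonoidHom.ext fun n =>
      elH_elH (fun i => (w i)⁻¹) w (fun i => (τ i)⁻¹) τ k hw (mul_inv_cancel _)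
        (fun g => MulAut.inv_apply_self _ (τ k) g) n)
    (MonoidHom.ext fun n =>
      elH_elH w (fun i => (w i)⁻¹) τ (fun i => (τ i)⁻¹) k (by rw [map_inv, hw]) (inv_mul_cancel _)
        (fun g => MulAut.apply_inv_self _ (τ k) g) n)

theorem elA_apply (w : ι → CoprodI G) (τ : ∀ i, MulAut (G i)) (k : ι)
    (hw : keep {k}ᶜ (w k) = w k) (n : CoprodI G) : elA w τ k hw n = elH w τ k n := rfl

/-! ### the step -/

/-- the projection to the factor `k` -/
noncomputable def prK (k : ι) : CoprodI G →* G k :=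
  open Classical in
  CoprodI.lift fun i => if h : i = k then (by rw [h]; exact MonoidHom.id _) else 1

theorem prK_self (k : ι) (g : G k) : prK k (CoprodI.of g) = g := by
  rw [prK, CoprodI.lift_of, dif_pos rfl]
  rfl

theorem prK_ne (k : ι) {i : ι} (hi : i ≠ k) (g : G i) : prK k (CoprodI.of g) = 1 := by
  rw [prK, CoprodI.lift_of, dif_neg hi]
  rfl

theorem prK_keep (k : ι) (n : CoprodI G) (hn : keep {k}ᶜ n = n) : prK k n = 1 := by
  have h1 : (prK k).comp (keep {k}ᶜ) = (1 : CoprodI G →* G k) := by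
    apply CoprodI.ext_hom
    intro i
    ext1 g
    simp only [MonoidHom.comp_apply, MonoidHom.one_apply]
    by_cases hi : i ∈ ({k}ᶜ : Set ι)
    · rw [keep_of_mem hi, prK_ne k hi]
    · rw [keep_of_notMem hi, map_one]
  have h2 := DFunLike.congr_fun h1 n
  rw [MonoidHom.comp_apply, hn] at h2
  exact h2

section step

variable {w : ι → CoprodI G} {τ : ∀ i, MulAut (G i)} {k : ι} (hw : keep {k}ᶜ (w k) = w k)
  {β : MulAut (CoprodI G)}

theorem keep_keep (n : CoprodI G) : keep {k}ᶜ (keep {k}ᶜ n) = keep {k}ᶜ n := by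
  have := DFunLike.congr_fun (keep_inter (P := G) {k}ᶜ {k}ᶜ) n
  rw [MonoidHom.comp_apply, Set.inter_self] at this
  exact this

theorem keep_el (n : CoprodI G) (hw : keep {k}ᶜ (w k) = w k) :
    keep {k}ᶜ (elH w τ k n) = keep {k}ᶜ n := by
  have h1 : (keep {k}ᶜ).comp (elH w τ k) = keep (P := G) {k}ᶜ := by
    apply CoprodI.ext_hom
    intro i
    ext1 g
    simp only [MonoidHom.comp_apply]
    by_cases hi : i = k
    · subst hi
      have h2 : i ∉ ({i}ᶜ : Set ι) := fun h => h rfl
      rw [elH_self, map_mul, map_mul, map_inv, hw, keep_of_notMem h2, keep_of_notMem h2]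
      group
    · rw [elH_ne w τ k hi]
  exact DFunLike.congr_fun h1 n

theorem keep_beta (h1 : ∀ j, j ≠ k → ∀ g : G j, keep {k}ᶜ (β (CoprodI.of g)) = β (CoprodI.of g))
    (h2 : ∀ g : G k, β (CoprodI.of g) = CoprodI.of g) (n : CoprodI G) :
    keep {k}ᶜ (β n) = β (keep {k}ᶜ n) := by
  have h3 : (keep {k}ᶜ).comp β.toMonoidHom = β.toMonoidHom.comp (keep {k}ᶜ) := by
    apply CoprodI.ext_hom
    intro i
    ext1 g
    show keep {k}ᶜ (β (CoprodI.of g)) = β (keep {k}ᶜ (CoprodI.of g))
    by_cases hi : i = k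
    · subst hi
      have h2' : i ∉ ({i}ᶜ : Set ι) := fun h => h rfl
      rw [h2, keep_of_notMem h2', map_one]
    · have h2' : i ∈ ({k}ᶜ : Set ι) := hi
      rw [h1 i hi, keep_of_mem h2']
  exact DFunLike.congr_fun h3 n

theorem zpow_comm_of {N : Type} [Group N] {σ σ' : MulAut N} {e : N →* N} (h : ∀ n, e (σ n) = σ' (e n)) (m : ℤ) (n : N) :
    e ((σ ^ m) n) = (σ' ^ m) (e n) := by
  induction m using Int.induction_on generalizing n with
  | zero => simp
  | succ m ih =>
    rw [zpow_add_one, zpow_add_one]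
    show e ((σ ^ (m : ℤ)) (σ n)) = (σ' ^ (m : ℤ)) (σ' (e n))
    rw [ih, h]
  | pred m ih =>
    rw [zpow_sub_one, zpow_sub_one]
    show e ((σ ^ (-m : ℤ)) (σ⁻¹ n)) = (σ' ^ (-m : ℤ)) (σ'⁻¹ (e n))
    rw [ih]
    congr 1
    have h1 := h (σ⁻¹ n)
    rw [MulAut.apply_inv_self] at h1
    rw [h1, MulAut.inv_apply_self]

/-- a homomorphism which intertwines two automorphisms -/
def mapZ {N N' : Type} [Group N] [Group N'] (σ : MulAut N) (σ' : MulAut N') (e : N →* N')
    (h : ∀ n, e (σ n) = σ' (e n)) : SZ σ →* SZ σ' :=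
  liftZ σ ((SemidirectProduct.inl : N' →* SZ σ').comp e) (tZ σ') fun n => by
    rw [MonoidHom.comp_apply, tZ_conj, ← h]
    rfl

theorem mapZ_inl {N N' : Type} [Group N] [Group N'] (σ : MulAut N) (σ' : MulAut N') (e : N →* N')
    (h : ∀ n, e (σ n) = σ' (e n)) (n : N) :
    mapZ σ σ' e h (SemidirectProduct.inl n) = SemidirectProduct.inl (e n) := liftZ_inl _ _ _ _ n

theorem mapZ_t {N N' : Type} [Group N] [Group N'] (σ : MulAut N) (σ' : MulAut N') (e : N →* N')
    (h : ∀ n, e (σ n) = σ' (e n)) : mapZ σ σ' e h (tZ σ) = tZ σ' := liftZ_t _ _ _ _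

theorem mapZ_apply {N N' : Type} [Group N] [Group N'] (σ : MulAut N) (σ' : MulAut N') (e : N →* N')
    (h : ∀ n, e (σ n) = σ' (e n)) (x : SZ σ) : mapZ σ σ' e h x = ⟨e x.left, x.right⟩ := by
  conv_lhs => rw [← SemidirectProduct.inl_left_mul_inr_right x]
  rw [map_mul, mapZ_inl, inr_eq, map_zpow, mapZ_t, ← inr_eq]
  exact SemidirectProduct.ext (by simp) (by simp)

theorem gid1 {H : Type} [Group H] (a t x : H) :
    (a⁻¹ * t) * x * (a⁻¹ * t)⁻¹ = a⁻¹ * (t * x * t⁻¹) * a := by group

theorem gid2 {H : Type} [Group H] (a x : H) : a⁻¹ * (a * x * a⁻¹) * a = x := by group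

/-- **the step**: adding the factor `k` to a triangular automorphism -/
theorem tri_step {C : ∀ (G : Type) [Group G], Prop} (hC : ClosedE C)
    (hAk : C (SZ (τ k)))
    (h1 : ∀ j, j ≠ k → ∀ g : G j, keep {k}ᶜ (β (CoprodI.of g)) = β (CoprodI.of g))
    (h2 : ∀ g : G k, β (CoprodI.of g) = CoprodI.of g) (hCβ : C (SZ β)) :
    C (SZ (elA w τ k hw * β)) := by
  classical
  set β' : MulAut (CoprodI G) := elA w τ k hw * β with hβ'
  have hβa : ∀ n, β' n = elH w τ k (β n) := fun n => rfl
  have hkb := keep_beta h1 h2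
  have hkb' : ∀ n, keep {k}ᶜ (β' n) = β (keep {k}ᶜ n) := by
    intro n
    rw [hβa, keep_el _ hw, hkb]
  have hkT : ∀ n, keep {k}ᶜ n = n → β' n = β n := by
    intro n hn
    rw [hβa]
    apply elH_keep
    rw [hkb, hn]
  have hkb'' : ∀ n, keep {k}ᶜ (β' n) = β' (keep {k}ᶜ n) := by
    intro n
    rw [hkb', hkT _ (keep_keep n)]
  have hnk : k ∉ ({k}ᶜ : Set ι) := fun h => h rfl
  have hβk : ∀ g : G k, β' (CoprodI.of g) = w k * CoprodI.of (τ k g) * (w k)⁻¹ := by
    intro g
    rw [hβa, h2, elH_self]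
  let H := SZ β'
  let inl' : CoprodI G →* H := SemidirectProduct.inl
  let t : H := tZ β'
  let s : H := (inl' (w k))⁻¹ * t
  -- the retraction to `B`
  let eB : H →* H := mapZ β' β' (keep {k}ᶜ) hkb''
  have heB : ∀ n, eB (inl' n) = inl' (keep {k}ᶜ n) := fun n => mapZ_inl _ _ _ _ n
  have heBt : eB t = t := mapZ_t _ _ _ _
  have heBB : ∀ x, eB (eB x) = eB x := by
    intro x
    have : eB.comp eB = eB := by
      apply SZ_ext
      · intro n
        rw [MonoidHom.comp_apply]
        show eB (eB (inl' n)) = eB (inl' n)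
        rw [heB, heB, keep_keep]
      · rw [MonoidHom.comp_apply]
        show eB (eB t) = eB t
        rw [heBt, heBt]
    exact DFunLike.congr_fun this x
  let B : Subgroup H := eB.range
  have hBmem : ∀ x, x ∈ B ↔ eB x = x := fun x => ⟨by rintro ⟨y, rfl⟩; exact heBB y, fun h => ⟨x, h⟩⟩
  -- the subgroup `A`
  have hsg : ∀ g : G k, s * inl' (CoprodI.of g) * s⁻¹ = inl' (CoprodI.of (τ k g)) := by
    intro g
    have h3 : t * inl' (CoprodI.of g) * t⁻¹ = inl' (β' (CoprodI.of g)) := tZ_conj β' _
    have h3' : inl' (β' (CoprodI.of g)) = inl' (w k) * inl' (CoprodI.of (τ k g)) * (inl' (w k))⁻¹ := by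
      rw [← map_inv, ← map_mul, ← map_mul]
      exact congrArg inl' (hβk g)
    exact (gid1 _ _ _).trans ((congrArg (fun x => (inl' (w k))⁻¹ * x * inl' (w k))
      (h3.trans h3')).trans (gid2 _ _))
  let α : SZ (τ k) →* H := liftZ (τ k) (inl'.comp CoprodI.of) s hsg
  have hαl : ∀ g, α (SemidirectProduct.inl g) = inl' (CoprodI.of g) := fun g => liftZ_inl _ _ _ _ g
  have hαt : α (tZ (τ k)) = s := liftZ_t _ _ _ _
  have hpr : ∀ n, prK k (β' n) = τ k (prK k n) := by
    have h3 : (prK k).comp β'.toMonoidHom = (τ k).toMonoidHom.comp (prK k) := by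
      apply CoprodI.ext_hom
      intro i
      ext1 g
      show prK k (β' (CoprodI.of g)) = τ k (prK k (CoprodI.of g))
      by_cases hi : i = k
      · subst hi
        rw [hβk, map_mul, map_mul, map_inv, prK_keep i _ hw, prK_self, prK_self]
        group
      · have h4 : keep {k}ᶜ (CoprodI.of g) = CoprodI.of g := keep_of_mem (show i ∈ ({k}ᶜ : Set ι) from hi) g
        have h5 : keep {k}ᶜ (β' (CoprodI.of g)) = β' (CoprodI.of g) := by
          rw [hkb'', h4]
        rw [prK_keep k _ h5, prK_ne k hi, map_one]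
    exact fun n => DFunLike.congr_fun h3 n
  let κ : H →* SZ (τ k) := mapZ β' (τ k) (prK k) hpr
  have hκs : κ s = tZ (τ k) := by
    show κ ((inl' (w k))⁻¹ * t) = _
    rw [map_mul, map_inv]
    have h3 : κ (inl' (w k)) = 1 := by
      rw [show κ (inl' (w k)) = _ from mapZ_inl _ _ _ _ _, prK_keep k _ hw, map_one]
    have h4 : κ t = tZ (τ k) := mapZ_t _ _ _ _
    rw [h3, h4, inv_one, one_mul]
  have hκα : ∀ y, κ (α y) = y := by
    intro y
    have : κ.comp α = MonoidHom.id _ := by
      apply SZ_ext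
      · intro n
        rw [MonoidHom.comp_apply, hαl, show κ (inl' (CoprodI.of n)) = _ from mapZ_inl _ _ _ _ _,
          prK_self]
        rfl
      · rw [MonoidHom.comp_apply, hαt, hκs]
        rfl
    exact DFunLike.congr_fun this y
  let A : Subgroup H := α.range
  let K : Subgroup H := Subgroup.zpowers s
  have hsB : s ∈ B := by
    rw [hBmem]
    show eB ((inl' (w k))⁻¹ * t) = _
    rw [map_mul, map_inv, heB, hw, heBt]
  have hsA : s ∈ A := ⟨_, hαt⟩
  have htB : t ∈ B := ⟨t, heBt⟩
  have hlB : ∀ n, keep {k}ᶜ n = n → inl' n ∈ B := fun n hn => ⟨inl' n, by rw [heB, hn]⟩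
  have hgA : ∀ g : G k, inl' (CoprodI.of g) ∈ A := fun g => ⟨_, hαl g⟩
  have hαz : ∀ m : Multiplicative ℤ, α (SemidirectProduct.inr m) = s ^ (Multiplicative.toAdd m) := by
    intro m
    rw [inr_eq, map_zpow, hαt]
  have hBinj : ∀ x ∈ B, mapZ β' β (keep {k}ᶜ) hkb' x = 1 → x = 1 := by
    intro x hx h3
    rw [mapZ_apply] at h3
    have h4 : keep {k}ᶜ x.left = 1 := congrArg SemidirectProduct.left h3
    have h5 : x.right = 1 := congrArg SemidirectProduct.right h3
    have h6 : eB x = x := (hBmem x).1 hx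
    rw [← h6]
    show mapZ β' β' (keep {k}ᶜ) hkb'' x = 1
    rw [mapZ_apply, h4, h5]
    rfl
  have hCB : C B := by
    refine hC.base.of_injective _ _ ((mapZ β' β (keep {k}ᶜ) hkb').comp B.subtype) ?_ hCβ
    rw [injective_iff_map_eq_one]
    intro x hx
    exact Subtype.ext (hBinj x x.2 hx)
  have hCA : C A := by
    refine hC.base.of_injective _ _ (κ.comp A.subtype) ?_ hAk
    rw [injective_iff_map_eq_one]
    rintro ⟨_, y, rfl⟩ hx
    have h3 : κ (α y) = 1 := hx
    rw [hκα] at h3
    apply Subtype.ext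
    show α y = 1
    rw [h3, map_one]
  have hAmg : Amg A B K := by
    refine ⟨?_, ?_, ?_, ?_⟩
    · exact (Subgroup.zpowers_le).2 hsA
    · exact (Subgroup.zpowers_le).2 hsB
    · rw [eq_top_iff]
      intro x _
      have h3 : ∀ n : CoprodI G, inl' n ∈ A ⊔ B := by
        intro n
        induction n using CoprodI.induction_on with
        | one => rw [map_one]; exact Subgroup.one_mem _
        | of i g =>
          by_cases hi : i = k
          · subst hi
            exact Subgroup.mem_sup_left (hgA g)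
          · exact Subgroup.mem_sup_right (hlB _ (keep_of_mem (show i ∈ ({k}ᶜ : Set ι) from hi) g))
        | mul x y hx hy =>
          rw [map_mul inl' x y]
          exact Subgroup.mul_mem _ hx hy
      have h4 : x = inl' x.left * t ^ (Multiplicative.toAdd x.right) := by
        have h5 := SemidirectProduct.inl_left_mul_inr_right x
        rw [inr_eq] at h5
        exact h5.symm
      rw [h4]
      exact Subgroup.mul_mem _ (h3 _) (Subgroup.zpow_mem _ (Subgroup.mem_sup_right htB) _)
    · intro H' _ u v huv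
      have hmk : ∀ i (hi : i = k) (g : G i), inl' (CoprodI.of g) ∈ A := by
        intro i hi g
        subst hi
        exact hgA g
      have hmi : ∀ i (hi : i ≠ k) (g : G i), inl' (CoprodI.of g) ∈ B := fun i hi g =>
        hlB _ (keep_of_mem (show i ∈ ({k}ᶜ : Set ι) from hi) g)
      let uk : ∀ i, i = k → (G i →* H') := fun i hi =>
        u.comp ((inl'.comp (CoprodI.of (M := G) (i := i))).codRestrict A (hmk i hi))
      let vi : ∀ i, i ≠ k → (G i →* H') := fun i hi =>
        v.comp ((inl'.comp (CoprodI.of (M := G) (i := i))).codRestrict B (hmi i hi))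
      let F0 : CoprodI G →* H' := CoprodI.lift fun i => if h : i = k then uk i h else vi i h
      have hF0k : ∀ g : G k, F0 (CoprodI.of g) = u ⟨inl' (CoprodI.of g), hgA g⟩ := by
        intro g
        have h3 : F0 (CoprodI.of g) = (if h : k = k then uk k h else vi k h) g := CoprodI.lift_of ..
        rw [h3, dif_pos rfl]
        rfl
      have hF0i : ∀ i (hi : i ≠ k) (g : G i), F0 (CoprodI.of g) =
          v ⟨inl' (CoprodI.of g), hmi i hi g⟩ := by
        intro i hi g
        have h3 : F0 (CoprodI.of g) = (if h : i = k then uk i h else vi i h) g := CoprodI.lift_of ..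
        rw [h3, dif_neg hi]
        rfl
      have hF0T : ∀ n, F0 (keep {k}ᶜ n) = v (eB.rangeRestrict (inl' n)) := by
        have h3 : F0.comp (keep {k}ᶜ) = v.comp (eB.rangeRestrict.comp inl') := by
          apply CoprodI.ext_hom
          intro i
          ext1 g
          show F0 (keep {k}ᶜ (CoprodI.of g)) = v (eB.rangeRestrict (inl' (CoprodI.of g)))
          by_cases hi : i = k
          · subst hi
            have h5 : eB.rangeRestrict (inl' (CoprodI.of g)) = 1 := by
              apply Subtype.ext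
              show eB (inl' (CoprodI.of g)) = 1
              rw [heB, keep_of_notMem hnk, map_one inl']
            rw [keep_of_notMem hnk, map_one, h5, map_one]
          · have h4 : keep {k}ᶜ (CoprodI.of g) = CoprodI.of g :=
              keep_of_mem (show i ∈ ({k}ᶜ : Set ι) from hi) g
            rw [h4, hF0i i hi]
            congr 1
            apply Subtype.ext
            show inl' (CoprodI.of g) = eB (inl' (CoprodI.of g))
            rw [heB, h4]
        exact fun n => DFunLike.congr_fun h3 n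
      have hF0T' : ∀ n (hn : keep {k}ᶜ n = n), F0 n = v ⟨inl' n, hlB n hn⟩ := by
        intro n hn
        have h3 := hF0T n
        rw [hn] at h3
        rw [h3]
        congr 1
        apply Subtype.ext
        show eB (inl' n) = inl' n
        rw [heB, hn]
      let T0 : H' := v ⟨t, htB⟩
      have hT0 : T0 = F0 (w k) * u ⟨s, hsA⟩ := by
        have h3 : u ⟨s, hsA⟩ = v ⟨s, hsB⟩ := huv s (Subgroup.mem_zpowers s)
        rw [h3, hF0T' _ hw, ← map_mul v]
        show v ⟨t, htB⟩ = _
        congr 1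
        apply Subtype.ext
        show t = inl' (w k) * ((inl' (w k))⁻¹ * t)
        exact (mul_inv_cancel_left _ _).symm
      have hus : ∀ g : G k, u ⟨s, hsA⟩ * u ⟨inl' (CoprodI.of g), hgA g⟩ * (u ⟨s, hsA⟩)⁻¹ =
          u ⟨inl' (CoprodI.of (τ k g)), hgA _⟩ := by
        intro g
        rw [← map_inv u, ← map_mul u, ← map_mul u]
        congr 1
        exact Subtype.ext (hsg g)
      have hrel : ∀ n, T0 * F0 n * T0⁻¹ = F0 (β' n) := by
        have h3 : (MulAut.conj T0).toMonoidHom.comp F0 = F0.comp β'.toMonoidHom := by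
          apply CoprodI.ext_hom
          intro i
          ext1 g
          show T0 * F0 (CoprodI.of g) * T0⁻¹ = F0 (β' (CoprodI.of g))
          by_cases hi : i = k
          · subst hi
            rw [hβk, map_mul F0, map_mul F0, map_inv F0, hF0k, hF0k, ← hus, hT0]
            group
          · have h4 : keep {k}ᶜ (CoprodI.of g) = CoprodI.of g :=
              keep_of_mem (show i ∈ ({k}ᶜ : Set ι) from hi) g
            have h5 : keep {k}ᶜ (β' (CoprodI.of g)) = β' (CoprodI.of g) := by
              rw [hkb'', h4]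
            rw [hF0T' _ h5, hF0i i hi]
            show v ⟨t, htB⟩ * _ * (v ⟨t, htB⟩)⁻¹ = _
            rw [← map_inv v, ← map_mul v, ← map_mul v]
            congr 1
            exact Subtype.ext (tZ_conj β' _)
        exact fun n => DFunLike.congr_fun h3 n
      let W : H →* H' := liftZ β' F0 T0 hrel
      have hWl : ∀ n, W (inl' n) = F0 n := fun n => liftZ_inl _ _ _ _ n
      have hWt : W t = T0 := liftZ_t _ _ _ _
      refine ⟨W, ?_, ?_⟩
      · have h3 : W.comp α = u.comp α.rangeRestrict := by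
          apply SZ_ext
          · intro g
            show W (α (SemidirectProduct.inl g)) = u (α.rangeRestrict (SemidirectProduct.inl g))
            have h5 : α.rangeRestrict (SemidirectProduct.inl g) =
                ⟨inl' (CoprodI.of g), hgA g⟩ := Subtype.ext (hαl g)
            rw [hαl, hWl, hF0k, h5]
          · show W (α (tZ (τ k))) = u (α.rangeRestrict (tZ (τ k)))
            have h5 : α.rangeRestrict (tZ (τ k)) = ⟨s, hsA⟩ := Subtype.ext hαt
            rw [hαt, h5]
            show W ((inl' (w k))⁻¹ * t) = _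
            rw [map_mul W, map_inv W, hWl, hWt, hT0, inv_mul_cancel_left]
        rintro ⟨_, y, rfl⟩
        exact DFunLike.congr_fun h3 y
      · have h3 : W.comp eB = v.comp eB.rangeRestrict := by
          apply SZ_ext
          · intro n
            show W (eB (inl' n)) = v (eB.rangeRestrict (inl' n))
            rw [heB, hWl, hF0T]
          · show W (eB t) = v (eB.rangeRestrict t)
            have h5 : eB.rangeRestrict t = ⟨t, htB⟩ := Subtype.ext heBt
            rw [heBt, hWt, h5]
        rintro ⟨_, y, rfl⟩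
        exact DFunLike.congr_fun h3 y
  -- the retraction to `K`
  let rh : H →* Multiplicative ℤ := SemidirectProduct.rightHom
  have hrs : rh s = Multiplicative.ofAdd 1 := by
    show rh ((inl' (w k))⁻¹ * t) = _
    rw [map_mul rh, map_inv rh]
    have h3 : rh (inl' (w k)) = 1 := SemidirectProduct.rightHom_inl _
    have h4 : rh t = Multiplicative.ofAdd 1 := SemidirectProduct.rightHom_inr _
    rw [h3, h4, inv_one, one_mul]
  let sK : K := ⟨s, Subgroup.mem_zpowers s⟩
  let r : A →* K := (zpowersHom K sK).comp (rh.comp A.subtype)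
  refine c_retract hC hAmg r ?_ hCA hCB
  rintro ⟨_, m, rfl⟩
  show (zpowersHom K sK) (rh (s ^ m)) = _
  rw [map_zpow rh, hrs, ← Int.ofAdd_mul, one_mul]
  rfl

end step

/-! ### free products -/

theorem keep_finG (n : CoprodI G) : ∃ S : Set ι, S.Finite ∧ ∀ T : Set ι, S ⊆ T → keep T n = n := by
  induction n using CoprodI.induction_on with
  | one => exact ⟨∅, Set.finite_empty, fun T _ => map_one _⟩
  | of i g => exact ⟨{i}, Set.finite_singleton i, fun T hT => keep_of_mem (hT rfl) g⟩
  | mul x y hx hy =>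
    obtain ⟨S, hS, h1⟩ := hx
    obtain ⟨T, hT, h2⟩ := hy
    exact ⟨S ∪ T, hS.union hT, fun U hU => by
      rw [map_mul, h1 U (Set.subset_union_left.trans hU), h2 U (Set.subset_union_right.trans hU)]⟩

theorem c_keep {C : ∀ (G : Type) [Group G], Prop} (hC : Closed C) (hG : ∀ i, C (G i)) (S : Set ι)
    (hS : S.Finite) : C (keep (P := G) S).range := by
  classical
  induction S, hS using Set.Finite.induction_on with
  | empty =>
    refine hC.of_injective _ (Multiplicative ℤ) 1 ?_ hC.int
    rw [injective_iff_map_eq_one]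
    rintro ⟨_, x, rfl⟩ _
    apply Subtype.ext
    show keep (∅ : Set ι) x = 1
    rw [Pool.Agent.Y110.KW.keep_empty]
    rfl
  | @insert k S hk _ ih =>
    let Φ : CoprodI G →* Coprod (keep (P := G) S).range (G k) := CoprodI.lift fun i =>
      if h : i = k then (Coprod.inr).comp (by rw [h]; exact MonoidHom.id _) else
        (Coprod.inl).comp ((keep S).rangeRestrict.comp CoprodI.of)
    let L : Coprod (keep (P := G) S).range (G k) →* CoprodI G :=
      Coprod.lift (keep (P := G) S).range.subtype CoprodI.of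
    have hLΦ : ∀ n, L (Φ n) = keep (insert k S) n := by
      have h1 : L.comp Φ = keep (insert k S) := by
        apply CoprodI.ext_hom
        intro i
        ext1 g
        show L (Φ (CoprodI.of g)) = keep (insert k S) (CoprodI.of g)
        by_cases hi : i = k
        · subst hi
          have h2 : Φ (CoprodI.of g) = Coprod.inr g := by
            show CoprodI.lift _ (CoprodI.of g) = _
            rw [CoprodI.lift_of, dif_pos rfl]
            rfl
          rw [h2, keep_of_mem (Set.mem_insert _ _)]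
          exact Coprod.lift_apply_inr _ _ _
        · have h2 : Φ (CoprodI.of g) = Coprod.inl ((keep S).rangeRestrict (CoprodI.of g)) := by
            show CoprodI.lift _ (CoprodI.of g) = _
            rw [CoprodI.lift_of, dif_neg hi]
            rfl
          rw [h2, show L (Coprod.inl ((keep S).rangeRestrict (CoprodI.of g))) =
            keep S (CoprodI.of g) from Coprod.lift_apply_inl _ _ _]
          by_cases hi2 : i ∈ S
          · rw [keep_of_mem hi2, keep_of_mem (Set.mem_insert_of_mem _ hi2)]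
          · rw [keep_of_notMem hi2, keep_of_notMem (fun h => h.elim hi hi2)]
      exact fun n => DFunLike.congr_fun h1 n
    have hkk : ∀ n, keep (P := G) (insert k S) (keep (insert k S) n) = keep (insert k S) n := by
      intro n
      have := DFunLike.congr_fun (keep_inter (P := G) (insert k S) (insert k S)) n
      rw [MonoidHom.comp_apply, Set.inter_self] at this
      exact this
    refine hC.of_injective _ _ (Φ.comp (keep (P := G) (insert k S)).range.subtype) ?_
      (hC.coprod _ _ ih (hG k))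
    rintro ⟨_, x, rfl⟩ ⟨_, y, rfl⟩ hxy
    have h3 : L (Φ (keep (insert k S) x)) = L (Φ (keep (insert k S) y)) := congrArg L hxy
    rw [hLΦ, hLΦ, hkk, hkk] at h3
    exact Subtype.ext h3

/-- free products of groups of the class -/
theorem c_coprodI {C : ∀ (G : Type) [Group G], Prop} (hC : Closed C) (hG : ∀ i, C (G i)) :
    C (CoprodI G) := by
  apply c_loc hC
  intro E hE
  choose S hS1 hS2 using keep_finG (G := G)
  let T : Set ι := ⋃ x ∈ E, S x
  have hT : T.Finite := hE.biUnion fun x _ => hS1 x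
  have hle : Subgroup.closure E ≤ (keep (P := G) T).range := by
    rw [Subgroup.closure_le]
    intro x hx
    exact ⟨x, hS2 x T (Set.subset_biUnion_of_mem (u := S) hx)⟩
  exact hC.of_injective _ _ (Subgroup.inclusion hle) (Subgroup.inclusion_injective hle)
    (c_keep hC hG T hT)

/-! ### triangular automorphisms -/

/-- the subgroup generated by the factors `G j`, `j < i`, in a strict order `r` -/
def lowR (r : ι → ι → Prop) (i : ι) : Subgroup (CoprodI G) :=
  Subgroup.closure {x | ∃ j, r j i ∧ ∃ g : G j, x = CoprodI.of g}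

theorem keep_low (r : ι → ι → Prop) (i : ι) (T : Set ι) (hT : ∀ j, r j i → j ∈ T) (x : CoprodI G)
    (hx : x ∈ lowR r i) : keep T x = x := by
  have h1 : lowR r i ≤ (keep (P := G) T).eqLocus (MonoidHom.id _) := by
    rw [lowR, Subgroup.closure_le]
    rintro _ ⟨j, hj, g, rfl⟩
    exact keep_of_mem (hT j hj) g
  exact h1 hx

/-- finite triangular automorphisms -/
theorem tri_fin {C : ∀ (G : Type) [Group G], Prop} (hC : ClosedE C) (r : ι → ι → Prop)
    [IsStrictOrder ι r] (w : ι → CoprodI G) (τ : ∀ i, MulAut (G i)) (hw : ∀ i, w i ∈ lowR r i)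
    (hτ : ∀ i, C (SZ (τ i))) (n : ℕ) : ∀ S : Finset ι, S.card = n →
    ∃ β : MulAut (CoprodI G), C (SZ β) ∧
      (∀ i ∈ S, ∀ g : G i, β (CoprodI.of g) = w i * CoprodI.of (τ i g) * (w i)⁻¹) ∧
      ∀ i ∉ S, ∀ g : G i, β (CoprodI.of g) = CoprodI.of g := by
  classical
  have hG : ∀ i, C (G i) := fun i => hC.base.of_injective _ _
    (SemidirectProduct.inl : G i →* SZ (τ i)) SemidirectProduct.inl_injective (hτ i)
  induction n with
  | zero =>
    intro S hS
    have h0 : S = ∅ := Finset.card_eq_zero.1 hS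
    subst h0
    refine ⟨1, ?_, fun i hi => absurd hi (Finset.notMem_empty i), fun i _ g => rfl⟩
    have h1 : C (CoprodI G) := c_coprodI hC.base hG
    exact c_torsion hC.base h1 1 1 one_pos 1 (by rw [one_pow, map_one])
  | succ n ih =>
    intro S hS
    -- a maximal element
    have hne : S.Nonempty := by
      rw [← Finset.card_pos]
      omega
    obtain ⟨k, hk, hmax⟩ : ∃ k ∈ S, ∀ j ∈ S, ¬ r k j := by
      have hwf : WellFounded (fun a b : S => r b a) := by
        have : IsTrans S (fun a b : S => r b a) := ⟨fun a b c h1 h2 => _root_.trans h2 h1⟩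
        have : Std.Irrefl (fun a b : S => r b a) := ⟨fun a h => irrefl _ h⟩
        exact Finite.wellFounded_of_trans_of_irrefl _
      obtain ⟨k, -, hk⟩ := hwf.has_min Set.univ ⟨⟨hne.choose, hne.choose_spec⟩, trivial⟩
      exact ⟨k, k.2, fun j hj => hk ⟨j, hj⟩ trivial⟩
    obtain ⟨β, hβC, hβS, hβn⟩ := ih (S.erase k) (by rw [Finset.card_erase_of_mem hk, hS]; rfl)
    have hwk : keep {k}ᶜ (w k) = w k := by
      refine keep_low r k ({k}ᶜ) (fun j hj => ?_) _ (hw k)
      intro (h : j = k)
      subst h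
      exact irrefl _ hj
    have hwj : ∀ j ∈ S, keep {k}ᶜ (w j) = w j := by
      intro j hj
      refine keep_low r j ({k}ᶜ) (fun i hi => ?_) _ (hw j)
      intro (h : i = k)
      subst h
      exact hmax j hj hi
    have h1 : ∀ j, j ≠ k → ∀ g : G j, keep {k}ᶜ (β (CoprodI.of g)) = β (CoprodI.of g) := by
      intro j hj g
      by_cases hjS : j ∈ S.erase k
      · rw [hβS j hjS, map_mul, map_mul, map_inv, hwj j (Finset.mem_of_mem_erase hjS),
          keep_of_mem (show j ∈ ({k}ᶜ : Set ι) from hj)]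
      · rw [hβn j hjS, keep_of_mem (show j ∈ ({k}ᶜ : Set ι) from hj)]
    have h2 : ∀ g : G k, β (CoprodI.of g) = CoprodI.of g := hβn k (Finset.notMem_erase k S)
    refine ⟨elA w τ k hwk * β, tri_step hwk hC (hτ k) h1 h2 hβC, ?_, ?_⟩
    · intro i hi g
      show elH w τ k (β (CoprodI.of g)) = _
      by_cases hik : i = k
      · subst hik
        rw [h2, elH_self]
      · have hiS : i ∈ S.erase k := Finset.mem_erase.2 ⟨hik, hi⟩
        rw [elH_keep w τ k _ (h1 i hik g), hβS i hiS]
    · intro i hi g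
      have hik : i ≠ k := fun h => hi (h ▸ hk)
      have hiS : i ∉ S.erase k := fun h => hi (Finset.mem_of_mem_erase h)
      show elH w τ k (β (CoprodI.of g)) = _
      rw [hβn i hiS, elH_ne w τ k hik]

/-- the local criterion for one automorphism -/
theorem c_locZ {C : ∀ (G : Type) [Group G], Prop} (hC : ClosedE C) {N : Type} [Group N]
    (σ : MulAut N) (h : ∀ E : Set N, E.Finite → ∃ σ' : MulAut N, C (SZ σ') ∧ ∀ x ∈ E, σ' x = σ x) :
    C (SZ σ) := by
  let G' := SZ σ
  let N' : Subgroup G' := (SemidirectProduct.inl : N →* G').range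
  have hN'eq : N' = (SemidirectProduct.rightHom : G' →* Multiplicative ℤ).ker :=
    SemidirectProduct.range_inl_eq_ker_rightHom
  have hnorm : N'.Normal := by rw [hN'eq]; infer_instance
  let eN : N ≃* N' := MonoidHom.ofInjective SemidirectProduct.inl_injective
  let g : G' := tZ σ
  have hg : ∀ n : ℕ, 0 < n → g ^ n ∉ N' := by
    intro n hn hmem
    rw [hN'eq] at hmem
    have h1 : SemidirectProduct.rightHom (g ^ n) = (1 : Multiplicative ℤ) := hmem
    rw [map_pow] at h1
    have h2 : (SemidirectProduct.rightHom g : Multiplicative ℤ) = Multiplicative.ofAdd 1 :=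
      SemidirectProduct.rightHom_inr _
    rw [h2] at h1
    have h3 : ((n : ℤ) : ℤ) = 0 := by
      have h4 := congrArg Multiplicative.toAdd h1
      rw [toAdd_pow, toAdd_ofAdd, toAdd_one, nsmul_one] at h4
      exact h4
    omega
  have hmain : C ↥(N' ⊔ Subgroup.zpowers g) := by
    refine col C hC G' N' g hg fun E hE hEN => ?_
    obtain ⟨σ', hσC, hσ⟩ := h {n : N | (SemidirectProduct.inl n : G') ∈ E}
      (hE.preimage SemidirectProduct.inl_injective.injOn)
    have hle : Subgroup.closure (E ∪ (fun x => g * x * g⁻¹) '' E) ≤ N' := by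
      rw [Subgroup.closure_le]
      rintro x (hx | ⟨y, hy, rfl⟩)
      · exact hEN hx
      · exact Subgroup.Normal.conj_mem inferInstance _ (hEN hy) g
    let ι' : N →* SZ σ' := SemidirectProduct.inl
    refine ⟨SZ σ', inferInstance, (ι'.comp eN.symm.toMonoidHom).comp (Subgroup.inclusion hle),
      tZ σ', hσC, ?_, ?_⟩
    · exact (SemidirectProduct.inl_injective.comp eN.symm.injective).comp
        (Subgroup.inclusion_injective hle)
    · rintro ⟨x, hx'⟩ ⟨y, hy'⟩ hx hy
      obtain ⟨n, hn⟩ := hEN hx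
      have hn' : (SemidirectProduct.inl n : G') = x := hn
      have e1 : eN.symm ⟨x, hEN hx⟩ = n := by
        rw [MulEquiv.symm_apply_eq]
        exact Subtype.ext hn'.symm
      have hyn : y = SemidirectProduct.inl (σ n) := by
        have h8 : y = g * x * g⁻¹ := hy
        rw [h8, ← hn']
        exact tZ_conj σ n
      have e2 : eN.symm ⟨y, hle hy'⟩ = σ n := by
        rw [MulEquiv.symm_apply_eq]
        exact Subtype.ext hyn
      show ι' (eN.symm ⟨y, hle hy'⟩) = tZ σ' * ι' (eN.symm ⟨x, hEN hx⟩) * (tZ σ')⁻¹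
      have hnE : n ∈ {n : N | (SemidirectProduct.inl n : G') ∈ E} := by
        show (SemidirectProduct.inl n : G') ∈ E
        rw [hn']; exact hx
      rw [e1, e2, ← hσ n hnE]
      exact (tZ_conj σ' n).symm
  have htop : ∀ x : G', x ∈ N' ⊔ Subgroup.zpowers g := by
    intro x
    have h5 := SemidirectProduct.inl_left_mul_inr_right x
    rw [inr_eq] at h5
    rw [← h5]
    exact Subgroup.mul_mem _ (Subgroup.mem_sup_left ⟨_, rfl⟩)
      (Subgroup.mem_sup_right ⟨_, rfl⟩)
  exact hC.base.of_injective _ _ ((MonoidHom.id G').codRestrict _ htop)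
    (fun a b hab => congrArg Subtype.val hab) hmain

/-- triangular automorphisms -/
def IsTri (C : ∀ (G : Type) [Group G], Prop) (σ : MulAut (CoprodI G)) : Prop :=
  ∃ r : ι → ι → Prop, IsStrictOrder ι r ∧ ∀ i, ∃ (w : CoprodI G) (τ : MulAut (G i)),
    w ∈ lowR r i ∧ C (SZ τ) ∧ ∀ g : G i, σ (CoprodI.of g) = w * CoprodI.of (τ g) * w⁻¹

theorem c_tri {C : ∀ (G : Type) [Group G], Prop} (hC : ClosedE C) (σ : MulAut (CoprodI G))
    (h : IsTri C σ) : C (SZ σ) := by
  obtain ⟨r, hr, hd⟩ := h
  choose w τ hw hτ hσ using hd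
  apply c_locZ hC
  intro E hE
  choose S hS1 hS2 using keep_finG (G := G)
  let T : Set ι := ⋃ x ∈ E, S x
  have hT : T.Finite := hE.biUnion fun x _ => hS1 x
  obtain ⟨β, hβC, hβ1, hβ2⟩ := tri_fin hC r w τ hw hτ hT.toFinset.card hT.toFinset rfl
  refine ⟨β, hβC, fun x hx => ?_⟩
  have h1 : β.toMonoidHom.comp (keep T) = σ.toMonoidHom.comp (keep T) := by
    apply CoprodI.ext_hom
    intro i
    ext1 g
    show β (keep T (CoprodI.of g)) = σ (keep T (CoprodI.of g))
    by_cases hi : i ∈ T
    · rw [keep_of_mem hi, hβ1 i (hT.mem_toFinset.2 hi), hσ]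
    · rw [keep_of_notMem hi, map_one, map_one]
  have h2 : keep T x = x := hS2 x T (Set.subset_biUnion_of_mem (u := S) hx)
  have h3 := DFunLike.congr_fun h1 x
  have h4 : β (keep T x) = σ (keep T x) := h3
  rw [h2] at h4
  exact h4

/-- **semidirect products of free products with locally triangular actions** -/
theorem semi_tri {C : ∀ (G : Type) [Group G], Prop} (hC : ClosedE C) {Q : Type} [Group Q]
    (hQ : C Q) (φ : Q →* MulAut (CoprodI G)) (h : ∀ q : Q, ∃ m : ℕ, 0 < m ∧ IsTri C ((φ q) ^ m)) :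
    C (CoprodI G ⋊[φ] Q) := by
  refine semi_crit hC φ hQ fun b E _ => ⟨φ b, ?_, fun _ _ => rfl⟩
  obtain ⟨m, hm, hT⟩ := h b
  exact c_pow hC.base (φ b) m hm (c_tri hC _ hT)

end elem

end Pool.Agent.X176.FJ
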