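import Mathlib
import Pool.Agent.X201.FJ.Univ
import Pool.Agent.X201.FJ.TreeInv
import Pool.Agent.X176.FJ.Tri

/-!
A group of the class in which partial isomorphisms of abelian normal subquotients are inner.
-/

set_option autoImplicit false

namespace Pool.Agent.X176.FJ

open Pool.Agent.Y110.FJ Pool.Agent.X201.FJ
open Pool.Agent.Y462.SS (Closed)
open Monoid

namespace NU

section kk

variable {G D : Type} [Group G] [CommGroup D] (A : Subgroup G) [A.Normal]

theorem kk_mem (g : G) (x : G ⧸ A) :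
    (Quotient.out x)⁻¹ * g * Quotient.out ((g : G ⧸ A)⁻¹ * x) ∈ A := by
  rw [← QuotientGroup.eq_one_iff, QuotientGroup.mk_mul, QuotientGroup.mk_mul, QuotientGroup.mk_inv,
    QuotientGroup.out_eq', QuotientGroup.out_eq']
  group

/-- the cocycle of the monomial representation -/
noncomputable def kk (χ : A →* D) (g : G) (x : G ⧸ A) : D := χ ⟨_, kk_mem A g x⟩

theorem kk_mul (χ : A →* D) (g h : G) (x : G ⧸ A) :
    kk A χ (g * h) x = kk A χ g x * kk A χ h ((g : G ⧸ A)⁻¹ * x) := by
  have h1 : ((g * h : G) : G ⧸ A)⁻¹ * x = (h : G ⧸ A)⁻¹ * ((g : G ⧸ A)⁻¹ * x) := by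
    rw [QuotientGroup.mk_mul, mul_inv_rev, mul_assoc]
  unfold kk
  rw [← map_mul]
  congr 1
  apply Subtype.ext
  show (Quotient.out x)⁻¹ * (g * h) * Quotient.out (((g * h : G) : G ⧸ A)⁻¹ * x) =
    ((Quotient.out x)⁻¹ * g * Quotient.out ((g : G ⧸ A)⁻¹ * x)) *
      ((Quotient.out ((g : G ⧸ A)⁻¹ * x))⁻¹ * h *
        Quotient.out ((h : G ⧸ A)⁻¹ * ((g : G ⧸ A)⁻¹ * x)))
  rw [h1]
  group

end kk

theorem injAb_equiv {D D' : Type} [CommGroup D] [CommGroup D'] (e : D ≃* D') (h : InjAb D) : InjAb D' := by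
  intro A _ E f
  obtain ⟨f', hf'⟩ := h A E (e.symm.toMonoidHom.comp f)
  refine ⟨e.toMonoidHom.comp f', fun x => ?_⟩
  show e (f' x) = f x
  rw [hf']
  exact e.apply_symm_apply _

/-- the circle -/
abbrev D0 : Type := Multiplicative (AddCircle (1 : ℚ))

theorem injAb_fun (Ω : Type) : InjAb (Ω → D0) := by
  refine injAb_equiv (D := BigD (fun _ : PUnit.{1} => Ω)) ?_ (injAb_BigD _)
  exact
    { toFun := fun F ω => Multiplicative.ofAdd ((Multiplicative.toAdd F) PUnit.unit ω)
      invFun := fun F => Multiplicative.ofAdd (fun _ ω => Multiplicative.toAdd (F ω))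
      left_inv := fun _ => rfl
      right_inv := fun _ => rfl
      map_mul' := fun _ _ => rfl }

/-- permutations of the coordinates -/
def pact (Ω : Type) : Equiv.Perm Ω →* MulAut ((Ω → D0) × (Ω → D0)) where
  toFun π :=
    { toFun := fun m => (fun ω => m.1 (π⁻¹ ω), m.2)
      invFun := fun m => (fun ω => m.1 (π ω), m.2)
      left_inv := fun m => by
        apply Prod.ext
        · funext ω
          exact congrArg m.1 (π.symm_apply_apply ω)
        · rfl
      right_inv := fun m => by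
        apply Prod.ext
        · funext ω
          exact congrArg m.1 (π.apply_symm_apply ω)
        · rfl
      map_mul' := fun _ _ => rfl }
  map_one' := rfl
  map_mul' π ρ := by
    ext m
    · show m.1 ((π * ρ)⁻¹ _) = m.1 (ρ⁻¹ (π⁻¹ _))
      rw [mul_inv_rev]
      rfl
    · rfl

theorem pact_apply {Ω : Type} (π : Equiv.Perm Ω) (m : (Ω → D0) × (Ω → D0)) :
    pact Ω π m = (fun ω => m.1 (π⁻¹ ω), m.2) := rfl

section fam

variable {I : Type} (G : I → Type) [∀ i, Group (G i)] (A : ∀ i, Subgroup (G i)) [hA : ∀ i, (A i).Normal]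

/-- the characters -/
abbrev Ch (i : I) : Type := CharacterModule (Additive (Abelianization (A i)))

/-- the coordinates which belong to `i` -/
abbrev K (i : I) : Type := (G i ⧸ A i) × Ch G A i

/-- all coordinates -/
abbrev Om : Type := Σ i, K G A i

/-- the character with values in a product -/
noncomputable def ch (i : I) : A i →* (Ch G A i → D0) where
  toFun a c := Multiplicative.ofAdd (c (Additive.ofMul (Abelianization.of a)))
  map_one' := by
    funext c
    show Multiplicative.ofAdd (c (Additive.ofMul (Abelianization.of (1 : A i)))) = 1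
    rw [map_one]
    exact congrArg Multiplicative.ofAdd (map_zero c)
  map_mul' a b := by
    funext c
    show Multiplicative.ofAdd (c (Additive.ofMul (Abelianization.of (a * b)))) = _
    rw [map_mul]
    exact congrArg Multiplicative.ofAdd (map_add c _ _)

theorem ch_eq_one (i : I) (a : A i) : ch G A i a = 1 ↔ a ∈ commutator (A i) := by
  constructor
  · intro h
    have h1 : Additive.ofMul (Abelianization.of a) = 0 :=
      CharacterModule.eq_zero_of_character_apply fun c => congrArg Multiplicative.toAdd (congrFun h c)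
    exact (QuotientGroup.eq_one_iff a).1 (h1 : Abelianization.of a = 1)
  · intro h
    have h1 : Abelianization.of a = 1 := (QuotientGroup.eq_one_iff a).2 h
    funext c
    show Multiplicative.ofAdd (c (Additive.ofMul (Abelianization.of a))) = 1
    rw [h1]
    exact congrArg Multiplicative.ofAdd (map_zero c)

/-- the function with support in one block -/
noncomputable def blk [DecidableEq I] (i : I) (F : K G A i → D0) : Om G A → D0 :=
  fun ω => (Pi.mulSingle i F : ∀ j, K G A j → D0) ω.1 ω.2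

theorem blk_same [DecidableEq I] (i : I) (F : K G A i → D0) (y : K G A i) :
    blk G A i F ⟨i, y⟩ = F y := by
  show (Pi.mulSingle i F : ∀ j, K G A j → D0) i y = F y
  rw [Pi.mulSingle_eq_same]

theorem blk_ne [DecidableEq I] (i j : I) (h : j ≠ i) (F : K G A i → D0) (y : K G A j) :
    blk G A i F ⟨j, y⟩ = 1 := by
  show (Pi.mulSingle i F : ∀ j, K G A j → D0) j y = 1
  rw [Pi.mulSingle_eq_of_ne h]
  rfl

/-- the cocycle -/
noncomputable def kap0 (i : I) (g : G i) : K G A i → D0 := fun y => kk (A i) (ch G A i) g y.1 y.2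

/-- left multiplication on a block -/
def lm (i : I) : (G i ⧸ A i) →* Equiv.Perm (K G A i) where
  toFun q := Equiv.prodCongr (Equiv.mulLeft q) (Equiv.refl _)
  map_one' := by
    ext y
    · show 1 * y.1 = y.1
      rw [one_mul]
    · rfl
  map_mul' q r := by
    ext y
    · show q * r * y.1 = q * (r * y.1)
      rw [mul_assoc]
    · rfl

/-- the action on the coordinates -/
noncomputable def pm [DecidableEq I] (i : I) : (G i ⧸ A i) →* Equiv.Perm (Om G A) :=
  (Equiv.Perm.sigmaCongrRightHom (K G A)).comp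
    ((MonoidHom.mulSingle (fun j => Equiv.Perm (K G A j)) i).comp (lm G A i))

theorem pm_same [DecidableEq I] (i : I) (q : G i ⧸ A i) (y : K G A i) :
    pm G A i q ⟨i, y⟩ = ⟨i, (q * y.1, y.2)⟩ := by
  show (⟨i, (Pi.mulSingle i (lm G A i q) : ∀ j, Equiv.Perm (K G A j)) i y⟩ : Om G A) = _
  rw [Pi.mulSingle_eq_same]
  rfl

theorem pm_ne [DecidableEq I] (i j : I) (h : j ≠ i) (q : G i ⧸ A i) (y : K G A j) :
    pm G A i q ⟨j, y⟩ = ⟨j, y⟩ := by
  show (⟨j, (Pi.mulSingle i (lm G A i q) : ∀ j, Equiv.Perm (K G A j)) j y⟩ : Om G A) = _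
  rw [Pi.mulSingle_eq_of_ne h]
  rfl

theorem kap_mul [DecidableEq I] (i : I) (g h : G i) :
    blk G A i (kap0 G A i (g * h)) = blk G A i (kap0 G A i g) *
      fun ω => blk G A i (kap0 G A i h) ((pm G A i (g : G i ⧸ A i))⁻¹ ω) := by
  funext ω
  obtain ⟨j, y⟩ := ω
  show blk G A i (kap0 G A i (g * h)) ⟨j, y⟩ = blk G A i (kap0 G A i g) ⟨j, y⟩ *
    blk G A i (kap0 G A i h) ((pm G A i (g : G i ⧸ A i))⁻¹ ⟨j, y⟩)
  rw [← map_inv]
  by_cases hj : j = i
  · subst hj
    rw [blk_same, blk_same, pm_same, blk_same]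
    exact congrFun (kk_mul (A j) (ch G A j) g h y.1) y.2
  · rw [blk_ne G A i j hj, blk_ne G A i j hj, pm_ne G A i j hj, blk_ne G A i j hj, one_mul]

/-- the group which acts -/
abbrev L : Type :=
  Coprod (FreeGroup (MulAut ((Om G A → D0) × (Om G A → D0)))) (CoprodI fun i => G i ⧸ A i)

/-- its action -/
noncomputable def act [DecidableEq I] : L G A →* MulAut ((Om G A → D0) × (Om G A → D0)) :=
  Coprod.lift (FreeGroup.lift fun θ => θ) (CoprodI.lift fun i => (pact (Om G A)).comp (pm G A i))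

theorem act_inl [DecidableEq I] (θ : MulAut ((Om G A → D0) × (Om G A → D0))) :
    act G A (Coprod.inl (FreeGroup.of θ)) = θ := by
  unfold act
  rw [Coprod.lift_apply_inl, FreeGroup.lift_apply_of]

theorem act_inr [DecidableEq I] (i : I) (q : G i ⧸ A i) :
    act G A (Coprod.inr (CoprodI.of q)) = pact (Om G A) (pm G A i q) := by
  unfold act
  rw [Coprod.lift_apply_inr, CoprodI.lift_of]
  rfl

/-- the universal group -/
abbrev PU [DecidableEq I] : Type := ((Om G A → D0) × (Om G A → D0)) ⋊[act G A] L G A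

/-- the homomorphisms -/
noncomputable def emb [DecidableEq I] (i : I) : G i →* PU G A :=
  MonoidHom.mk' (fun g => ⟨(blk G A i (kap0 G A i g), 1), Coprod.inr (CoprodI.of (g : G i ⧸ A i))⟩) (by
    intro g h
    apply SemidirectProduct.ext
    · rw [SemidirectProduct.mul_left]
      show (blk G A i (kap0 G A i (g * h)), 1) = (blk G A i (kap0 G A i g), 1) *
        (act G A (Coprod.inr (CoprodI.of (g : G i ⧸ A i)))) (blk G A i (kap0 G A i h), 1)
      rw [act_inr, pact_apply, kap_mul]
      apply Prod.ext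
      · rfl
      · exact (one_mul 1).symm
    · rw [SemidirectProduct.mul_right]
      show Coprod.inr (CoprodI.of (M := fun i => G i ⧸ A i) (i := i) ((g * h : G i) : G i ⧸ A i)) =
        Coprod.inr (CoprodI.of (M := fun i => G i ⧸ A i) (i := i) (g : G i ⧸ A i)) *
        Coprod.inr (CoprodI.of (M := fun i => G i ⧸ A i) (i := i) (h : G i ⧸ A i))
      rw [← map_mul, ← map_mul]
      rfl)

theorem emb_of_mem [DecidableEq I] (i : I) (a : G i) (ha : a ∈ A i) :
    emb G A i a = SemidirectProduct.inl (blk G A i (kap0 G A i a), 1) := by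
  apply SemidirectProduct.ext
  · rfl
  · show Coprod.inr (CoprodI.of (M := fun i => G i ⧸ A i) (i := i) (a : G i ⧸ A i)) = 1
    rw [(QuotientGroup.eq_one_iff a).2 ha, map_one, map_one]

theorem com_mem (B : Type) [Group B] (A : Subgroup B) (a : B) (ha : a ∈ A) :
    (⟨a, ha⟩ : A) ∈ commutator A ↔ a ∈ ⁅A, A⁆ := by
  have h1 : (commutator A).map A.subtype = ⁅A, A⁆ := by
    rw [commutator_def, Subgroup.map_commutator, ← MonoidHom.range_eq_map, Subgroup.range_subtype]
  rw [← h1]
  constructor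
  · intro h
    exact ⟨_, h, rfl⟩
  · rintro ⟨x, hx, hxa⟩
    have h2 : x = ⟨a, ha⟩ := Subtype.ext hxa
    rwa [← h2]

theorem kap_eq_one [DecidableEq I] (i : I) (a : G i) (ha : a ∈ A i) :
    blk G A i (kap0 G A i a) = 1 ↔ a ∈ ⁅A i, A i⁆ := by
  have ha1 : (a : G i ⧸ A i) = 1 := (QuotientGroup.eq_one_iff a).2 ha
  constructor
  · intro h
    let s : G i := Quotient.out (1 : G i ⧸ A i)
    have hs : s ∈ A i := by
      rw [← QuotientGroup.eq_one_iff]
      exact QuotientGroup.out_eq' _
    have h1 : ch G A i ⟨_, kk_mem (A i) a 1⟩ = 1 := by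
      funext c
      have h2 := congrFun h ⟨i, (1, c)⟩
      rw [blk_same] at h2
      exact h2
    rw [ch_eq_one, com_mem] at h1
    have h3 : (Quotient.out ((a : G i ⧸ A i)⁻¹ * 1) : G i) = s := by
      rw [ha1, inv_one, one_mul]
    rw [h3] at h1
    have h4 : s * (s⁻¹ * a * s) * s⁻¹ ∈ ⁅A i, A i⁆ := by
      have h5 : (⁅A i, A i⁆).Normal := inferInstance
      exact h5.conj_mem _ h1 s
    have h6 : s * (s⁻¹ * a * s) * s⁻¹ = a := by group
    rwa [h6] at h4
  · intro h
    funext ω
    obtain ⟨j, y⟩ := ω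
    show blk G A i (kap0 G A i a) ⟨j, y⟩ = 1
    by_cases hj : j = i
    · subst hj
      rw [blk_same]
      have h1 : ch G A j ⟨_, kk_mem (A j) a y.1⟩ = 1 := by
        rw [ch_eq_one, com_mem, ha1, inv_one, one_mul]
        have h5 : (⁅A j, A j⁆).Normal := inferInstance
        have h6 := h5.conj_mem _ h (Quotient.out y.1)⁻¹
        rwa [inv_inv] at h6
      exact congrFun h1 y.2
    · rw [blk_ne G A i j hj]

variable {C : ∀ (G : Type) [Group G], Prop}

theorem c_PU [DecidableEq I] (hC : ClosedE C) (hab : AbCyc C) (hQ : ∀ i, C (G i ⧸ A i)) : C (PU G A) := by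
  let ρ : PU G A →* L G A := SemidirectProduct.rightHom
  refine c_abker hC hab ρ.ker ?_ ?_
  · intro a ha b hb
    have ha' : a.right = 1 := MonoidHom.mem_ker.1 ha
    have hb' : b.right = 1 := MonoidHom.mem_ker.1 hb
    apply SemidirectProduct.ext
    · rw [SemidirectProduct.mul_left, SemidirectProduct.mul_left, ha', hb', map_one,
        MulAut.one_apply, MulAut.one_apply, mul_comm]
    · rw [SemidirectProduct.mul_right, SemidirectProduct.mul_right, ha', hb']
  · exact hC.base.of_injective _ _ (QuotientGroup.kerLift ρ) (QuotientGroup.kerLift_injective ρ)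
      (hC.base.coprod _ _ (Pool.Agent.Y179.SS.t_free C hC.base _) (c_coprodI hC.base hQ))

/-- **the universal group** -/
theorem exists_univ (hC : ClosedE C) (hab : AbCyc C) (hQ : ∀ i, C (G i ⧸ A i)) :
    ∃ (P : Type) (_ : Group P) (φ : ∀ i, G i →* P), C P ∧
      (∀ i, ∀ a ∈ A i, φ i a = 1 ↔ a ∈ ⁅A i, A i⁆) ∧
      ∀ (i j : I) (S : Type) [Group S] (α : S →* G i) (β : S →* G j), (∀ s, α s ∈ A i) →
        (∀ s, β s ∈ A j) → (∀ s, α s ∈ ⁅A i, A i⁆ ↔ β s ∈ ⁅A j, A j⁆) →
        ∃ p : P, ∀ s, φ i (α s) = p * φ j (β s) * p⁻¹ := by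
  classical
  refine ⟨PU G A, inferInstance, emb G A, c_PU G A hC hab hQ, ?_, ?_⟩
  · intro i a ha
    rw [emb_of_mem G A i a ha, ← kap_eq_one G A i a ha]
    constructor
    · intro h
      have h1 := SemidirectProduct.inl_injective (h.trans (map_one _).symm)
      exact congrArg Prod.fst h1
    · intro h
      rw [h]
      exact map_one _
  · intro i j S _ α β hα hβ hαβ
    have hm : ∀ (i : I) (α : S →* G i), (∀ s, α s ∈ A i) →
        ∃ ψ : S →* (Om G A → D0), ∀ s, ψ s = blk G A i (kap0 G A i (α s)) := by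
      intro i α hα
      refine ⟨MonoidHom.mk' (fun s => blk G A i (kap0 G A i (α s))) (fun s t => ?_), fun _ => rfl⟩
      rw [map_mul, kap_mul, (QuotientGroup.eq_one_iff (α s)).2 (hα s), map_one, inv_one]
      rfl
    obtain ⟨ψ₁, hψ₁⟩ := hm i α hα
    obtain ⟨ψ₂, hψ₂⟩ := hm j β hβ
    obtain ⟨θ, hθ⟩ := exists_aut (injAb_fun (Om G A)) ψ₁ ψ₂ (fun s => by
      rw [hψ₁, hψ₂, kap_eq_one G A i _ (hα s), kap_eq_one G A j _ (hβ s)]
      exact hαβ s)
    refine ⟨SemidirectProduct.inr (Coprod.inl (FreeGroup.of θ)), fun s => ?_⟩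
    rw [emb_of_mem G A i _ (hα s), emb_of_mem G A j _ (hβ s), ← hψ₁, ← hψ₂]
    have h1 := SemidirectProduct.inl_aut (φ := act G A) (Coprod.inl (FreeGroup.of θ))
      ((ψ₂ s, 1) : (Om G A → D0) × (Om G A → D0))
    rw [act_inl, hθ] at h1
    rw [h1, map_inv]

end fam

end NU

end Pool.Agent.X176.FJ
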