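import Mathlib
import Pool.Agent.X176.FJ.NU
import Pool.Agent.X201.FJ.TreeAb
import Pool.Agent.X201.FJ.TreeEach

/-!
Groups acting on trees: edge stabilizers in normal subgroups of the vertex stabilizers.
-/

set_option autoImplicit false

namespace Pool.Agent.X176.FJ

open Pool.Agent.Y110.FJ Pool.Agent.X201.FJ
open Pool.Agent.Y462.SS (Closed)
open SimpleGraph

variable {C : ∀ (G : Type) [Group G], Prop}

/-- **edge stabilizers in normal subgroups**, no inversions -/
theorem norm_tree0 (hC : ClosedE C) (hab : AbCyc C) {Γ V : Type} [Group Γ] [MulAction Γ V]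
    {T : SimpleGraph V} (hT : T.IsTree)
    (hadj : ∀ (g : Γ) (u v : V), T.Adj u v → T.Adj (g • u) (g • v))
    (hinv : ∀ (g : Γ) (u : V), T.Adj u (g • u) → g • g • u ≠ u)
    (Q : V → Type) [∀ v, Group (Q v)] (f : (v : V) → MulAction.stabilizer Γ v →* Q v)
    (hQ : ∀ v, C (Q v))
    (hE1 : ∀ u v : V, T.Adj u v → ∀ g : MulAction.stabilizer Γ u, (g : Γ) • v = v → f u g = 1)
    (hE2 : ∀ u v : V, T.Adj u v → ∀ g : MulAction.stabilizer Γ u, (g : Γ) • v = v →
      g ∈ ⁅(f u).ker, (f u).ker⁆ → g = 1)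
    (hv : ∀ v : V, C (MulAction.stabilizer Γ v)) : C Γ := by
  classical
  obtain ⟨P, _, φ, hP, hφ1, hφ2⟩ := NU.exists_univ (fun v : V => MulAction.stabilizer Γ v)
    (fun v => (f v).ker) hC hab (fun v => hC.base.of_injective _ _ (QuotientGroup.kerLift (f v))
      (QuotientGroup.kerLift_injective (f v)) (hQ v))
  obtain ⟨rep, h, hh, hrep⟩ := Tr.exists_rep_vertex Γ V
  have hfix : ∀ (v : V) (s : Γ), s • v = v → ((h v)⁻¹ * s * h v) • rep v = rep v := by
    intro v s hs
    rw [mul_smul, mul_smul, hh, hs, inv_smul_eq_iff, hh]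
  let F : (r : V) → Γ → P := fun r s =>
    if hs : s ∈ MulAction.stabilizer Γ r then φ r ⟨s, hs⟩ else 1
  have hF : ∀ (r : V) (s : Γ) (hs : s • r = r), F r s = φ r ⟨s, hs⟩ := fun r s hs => dif_pos hs
  have hFm : ∀ (r : V) (s t : Γ), s • r = r → t • r = r → F r (s * t) = F r s * F r t := by
    intro r s t hs ht
    have h1 : (s * t) • r = r := by rw [mul_smul, ht, hs]
    rw [hF r s hs, hF r t ht, hF r _ h1, ← map_mul]
    rfl
  let ψ : V → Γ → P := fun v s => F (rep v) ((h v)⁻¹ * s * h v)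
  -- the edges
  have hadj' : ∀ u v : V, T.Adj u v → T.Adj (rep u) ((h u)⁻¹ • v) := by
    intro u v huv
    have h1 := hadj (h u)⁻¹ _ _ huv
    have h2 : (h u)⁻¹ • u = rep u := by rw [inv_smul_eq_iff, hh]
    rwa [h2] at h1
  have hfix' : ∀ (u v : V) (s : Γ), s • v = v → ((h u)⁻¹ * s * h u) • (h u)⁻¹ • v = (h u)⁻¹ • v := by
    intro u v s hs
    rw [mul_smul, smul_inv_smul, mul_smul, hs]
  refine tree_local hC hT hadj hinv hP ψ ?_ ?_ ?_ ?_ hv
  · intro v s t hs ht
    show F (rep v) _ = F (rep v) _ * F (rep v) _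
    rw [← hFm _ _ _ (hfix v s hs) (hfix v t ht)]
    congr 1
    group
  · intro g v
    have hk : ((h (g • v))⁻¹ * g * h v) • rep v = rep v := by
      rw [mul_smul, mul_smul, hh, inv_smul_eq_iff]
      have h1 := hh (g • v)
      rw [hrep] at h1
      exact h1.symm
    have h3 : ((h (g • v))⁻¹ * g * h v)⁻¹ • rep v = rep v := by
      rw [inv_smul_eq_iff]; exact hk.symm
    refine ⟨F (rep v) ((h (g • v))⁻¹ * g * h v), fun s hs => ?_⟩
    show F (rep (g • v)) _ = _ * F (rep v) _ * _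
    rw [hrep]
    have h2 : F (rep v) (((h (g • v))⁻¹ * g * h v)⁻¹) = (F (rep v) ((h (g • v))⁻¹ * g * h v))⁻¹ := by
      rw [eq_inv_iff_mul_eq_one, ← hFm _ _ _ h3 hk, inv_mul_cancel, hF _ 1 (one_smul _ _)]
      exact map_one (φ (rep v))
    rw [← h2, ← hFm _ _ _ hk (hfix v s hs), ← hFm]
    · congr 1
      group
    · rw [mul_smul, hfix v s hs, hk]
    · exact h3
  · intro u v huv
    let E : Subgroup Γ := MulAction.stabilizer Γ u ⊓ MulAction.stabilizer Γ v
    have key : ∀ u v : V, T.Adj u v → ∀ (S : Type) [Group S] (ι : S →* Γ),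
        (∀ s, ι s • u = u) → (∀ s, ι s • v = v) → Function.Injective ι →
        ∃ α : S →* MulAction.stabilizer Γ (rep u), (∀ s, ψ u (ι s) = φ (rep u) (α s)) ∧
          (∀ s, α s ∈ (f (rep u)).ker) ∧ ∀ s, α s ∈ ⁅(f (rep u)).ker, (f (rep u)).ker⁆ → s = 1 := by
      intro u v huv S _ ι hu hv' hι
      let α : S →* MulAction.stabilizer Γ (rep u) :=
        MonoidHom.mk' (fun s => ⟨(h u)⁻¹ * ι s * h u, hfix u (ι s) (hu s)⟩) (fun s t => by
          apply Subtype.ext
          show (h u)⁻¹ * ι (s * t) * h u = ((h u)⁻¹ * ι s * h u) * ((h u)⁻¹ * ι t * h u)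
          rw [map_mul]
          group)
      refine ⟨α, fun s => ?_, fun s => ?_, fun s hs => ?_⟩
      · exact hF _ _ (hfix u (ι s) (hu s))
      · rw [MonoidHom.mem_ker]
        exact hE1 _ _ (hadj' u v huv) (α s) (hfix' u v (ι s) (hv' s))
      · have h1 := hE2 _ _ (hadj' u v huv) (α s) (hfix' u v (ι s) (hv' s)) hs
        have h2 : (h u)⁻¹ * ι s * h u = 1 := congrArg Subtype.val h1
        apply hι
        rw [map_one]
        have h3 : ι s = h u * ((h u)⁻¹ * ι s * h u) * (h u)⁻¹ := by group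
        rw [h3, h2, mul_one, mul_inv_cancel]
    obtain ⟨α, hα1, hα2, hα3⟩ := key u v huv E E.subtype (fun s => s.2.1) (fun s => s.2.2)
      E.subtype_injective
    obtain ⟨β, hβ1, hβ2, hβ3⟩ := key v u huv.symm E E.subtype (fun s => s.2.2) (fun s => s.2.1)
      E.subtype_injective
    obtain ⟨p, hp⟩ := hφ2 (rep u) (rep v) E α β hα2 hβ2 (fun s =>
      ⟨fun hs => by rw [hα3 s hs, map_one]; exact one_mem _,
        fun hs => by rw [hβ3 s hs, map_one]; exact one_mem _⟩)
    refine ⟨p, fun s hu hv' => ?_⟩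
    have h1 := hp ⟨s, hu, hv'⟩
    rw [← hα1, ← hβ1] at h1
    exact h1
  · intro u v s huv hu hv' hs
    have h1 := hF (rep u) _ (hfix u s hu)
    have h2 : φ (rep u) ⟨_, hfix u s hu⟩ = 1 := by rw [← h1]; exact hs
    have h3 : (⟨(h u)⁻¹ * s * h u, hfix u s hu⟩ : MulAction.stabilizer Γ (rep u)) ∈ (f (rep u)).ker := by
      rw [MonoidHom.mem_ker]
      exact hE1 _ _ (hadj' u v huv) _ (hfix' u v s hv')
    have h4 := hE2 _ _ (hadj' u v huv) _ (hfix' u v s hv') ((hφ1 _ _ h3).1 h2)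
    have h5 : (h u)⁻¹ * s * h u = 1 := congrArg Subtype.val h4
    have h6 : s = h u * ((h u)⁻¹ * s * h u) * (h u)⁻¹ := by group
    rw [h6, h5, mul_one, mul_inv_cancel]

/-- **edge stabilizers in normal subgroups** -/
theorem norm_tree (hC : ClosedE C) (hab : AbCyc C) {Γ V : Type} [Group Γ] [MulAction Γ V]
    {T : SimpleGraph V} (hT : T.IsTree)
    (hadj : ∀ (g : Γ) (u v : V), T.Adj u v → T.Adj (g • u) (g • v))
    (Q : V → Type) [∀ v, Group (Q v)] (f : (v : V) → MulAction.stabilizer Γ v →* Q v)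
    (hQ : ∀ v, C (Q v))
    (hE1 : ∀ u v : V, T.Adj u v → ∀ g : MulAction.stabilizer Γ u, (g : Γ) • v = v → f u g = 1)
    (hE2 : ∀ u v : V, T.Adj u v → ∀ g : MulAction.stabilizer Γ u, (g : Γ) • v = v →
      g ∈ ⁅(f u).ker, (f u).ker⁆ → g = 1) :
    C Γ ↔ ∀ v : V, C (MulAction.stabilizer Γ v) := by
  constructor
  · intro h v
    exact hC.base.of_injective _ _ (MulAction.stabilizer Γ v).subtype
      (MulAction.stabilizer Γ v).subtype_injective h
  intro hv
  refine of_noinv hC hT hadj hv fun K _ hinv hvK => ?_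
  let ι : (v : V) → MulAction.stabilizer K v →* MulAction.stabilizer Γ v := fun v =>
    { toFun := fun x => ⟨((x : K) : Γ), x.2⟩
      map_one' := rfl
      map_mul' := fun _ _ => rfl }
  refine norm_tree0 (Γ := K) hC hab hT (fun g u v h => hadj (g : Γ) u v h) hinv Q
    (fun v => (f v).comp (ι v)) hQ ?_ ?_ hvK
  · intro u v huv g hg
    exact hE1 u v huv (ι u g) hg
  · intro u v huv g hg hgc
    have h1 : (((f u).comp (ι u)).ker).map (ι u) ≤ (f u).ker := by
      rintro _ ⟨x, hx, rfl⟩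
      exact hx
    have h2 : ι u g ∈ ⁅(f u).ker, (f u).ker⁆ := by
      refine Subgroup.commutator_mono h1 h1 ?_
      rw [← Subgroup.map_commutator]
      exact ⟨g, hgc, rfl⟩
    have h3 := hE2 u v huv (ι u g) hg h2
    apply Subtype.ext
    apply Subtype.ext
    exact congrArg (fun z : MulAction.stabilizer Γ u => (z : Γ)) h3

end Pool.Agent.X176.FJ
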