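import Mathlib
import Pool.Agent.X176.FJ.GC
import Pool.Agent.X176.FJ.NT

/-!
Groups acting on trees: abelian edge stabilizers in centreless residually free normal subgroups.
-/

set_option autoImplicit false

namespace Pool.Agent.X176.FJ

open Pool.Agent.Y110.FJ Pool.Agent.X201.FJ
open Pool.Agent.Y462.SS (Closed)
open SimpleGraph

variable {C : ∀ (G : Type) [Group G], Prop}

section fin

/-- finite quotients of the vertex stabilizers which agree on the edge stabilizers, relative version -/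
theorem gn_fin (hC : ClosedE C) (hab : AbCyc C) {Γ V : Type} [Group Γ] [MulAction Γ V]
    {T : SimpleGraph V} (hT : T.IsTree)
    (hadj : ∀ (g : Γ) (u v : V), T.Adj u v → T.Adj (g • u) (g • v))
    (hinv : ∀ (g : Γ) (u : V), T.Adj u (g • u) → g • g • u ≠ u)
    (Q : V → Type) [∀ v, Group (Q v)] (f : (v : V) → MulAction.stabilizer Γ v →* Q v)
    (hQ : ∀ v, C (Q v))
    (hE : ∀ u v : V, T.Adj u v → ∀ g : MulAction.stabilizer Γ u, (g : Γ) • v = v → f u g = 1)
    {S : Type} [Group S] [Finite S] (φ : V → Γ → S)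
    (hmul : ∀ (v : V) (a b : Γ), a • v = v → b • v = v → φ v (a * b) = φ v a * φ v b)
    (hconj : ∀ (g : Γ) (v : V), ∃ q : S, ∀ s : Γ, s • v = v →
      φ (g • v) (g * s * g⁻¹) = q * φ v s * q⁻¹)
    (hker : ∀ u v : V, T.Adj u v → ∀ s : Γ, s • u = u → s • v = v → φ u s = 1 → φ v s = 1)
    (hcm : ∀ u v : V, T.Adj u v → ∀ H : Subgroup (MulAction.stabilizer Γ u),
      (∀ s ∈ H, φ u (s : Γ) = 1 ∧ f u s = 1) → ∀ s ∈ ⁅H, H⁆, (s : Γ) • v = v → s = 1)
    (hv : ∀ v : V, C (MulAction.stabilizer Γ v)) : C Γ := by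
  classical
  let F : (v : V) → MulAction.stabilizer Γ v →* S := fun v =>
    MonoidHom.mk' (fun s => φ v (s : Γ)) (fun a b => hmul v a b a.2 b.2)
  obtain ⟨ρ, hρ⟩ := Tr.exists_glue hT hadj hinv (fun v s => rrep S (φ v s)) (by
      intro v a b ha hb
      rw [hmul v a b ha hb, map_mul]) (by
      intro g v
      obtain ⟨q, hq⟩ := hconj g v
      refine ⟨rrep S q, fun s hs => ?_⟩
      rw [hq s hs, map_mul, map_mul, map_inv]) (by
      intro u v huv
      let E : Subgroup Γ := MulAction.stabilizer Γ u ⊓ MulAction.stabilizer Γ v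
      let α : E →* S := (F u).comp (Subgroup.inclusion inf_le_left)
      let β : E →* S := (F v).comp (Subgroup.inclusion inf_le_right)
      obtain ⟨σ, hσ⟩ := exists_rconj' α β fun s =>
        ⟨fun h => hker u v huv (s : Γ) s.2.1 s.2.2 h, fun h => hker v u huv.symm (s : Γ) s.2.2 s.2.1 h⟩
      exact ⟨σ, fun s hu hv' => hσ ⟨s, hu, hv'⟩⟩)
  let K : Subgroup Γ := ρ.ker
  have hKf : K.FiniteIndex := by
    have h1 : Finite (Γ ⧸ K) := Finite.of_injective _ (QuotientGroup.kerLift_injective ρ)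
    exact Subgroup.finiteIndex_of_finite_quotient
  have hKφ : ∀ (v : V) (s : Γ), s ∈ K → s • v = v → φ v s = 1 := by
    intro v s hs hsv
    obtain ⟨q, hq⟩ := hρ v
    have h1 := hq s hsv
    rw [MonoidHom.mem_ker.1 hs] at h1
    apply rrep_injective S
    rw [map_one]
    have h2 : rrep S (φ v s) = q⁻¹ * (q * rrep S (φ v s) * q⁻¹) * q := by group
    rw [h2, ← h1, mul_one, inv_mul_cancel]
  refine hC.base.finiteIndex Γ K hKf ?_
  let ι : (v : V) → MulAction.stabilizer K v →* MulAction.stabilizer Γ v := fun v =>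
    { toFun := fun x => ⟨((x : K) : Γ), x.2⟩
      map_one' := rfl
      map_mul' := fun _ _ => rfl }
  have hι : ∀ v, Function.Injective (ι v) := by
    intro v x y hxy
    apply Subtype.ext
    apply Subtype.ext
    exact congrArg (fun z : MulAction.stabilizer Γ v => (z : Γ)) hxy
  refine norm_tree0 (Γ := K) hC hab hT (fun g u v h => hadj (g : Γ) u v h)
    (fun g u h => hinv (g : Γ) u h) Q (fun v => (f v).comp (ι v)) hQ ?_ ?_ ?_
  · intro u v huv g hg
    exact hE u v huv (ι u g) hg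
  · intro u v huv g hgv hg
    have h1 : ι u g ∈ ⁅((f u).comp (ι u)).ker.map (ι u), ((f u).comp (ι u)).ker.map (ι u)⁆ := by
      rw [← Subgroup.map_commutator]
      exact ⟨g, hg, rfl⟩
    have h3 := hcm u v huv _ (by
      rintro _ ⟨x, hx, rfl⟩
      exact ⟨hKφ u _ (x : K).2 x.2, hx⟩) (ι u g) h1 hgv
    exact hι u (h3.trans (map_one _).symm)
  · intro v
    exact hC.base.of_injective _ _ (ι v) (hι v) (hv v)

end fin

section loc

variable {Γ V : Type} [Group Γ] [MulAction Γ V]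

/-- local homomorphisms to a finite group, of exponent `p` on the edge stabilizers -/
structure Loc2 (T : SimpleGraph V) (p : ℕ) (S : Type) [Group S] (φ : V → Γ → S) : Prop where
  exp : ∀ u v : V, T.Adj u v → ∀ s : Γ, s • u = u → s • v = v → φ u s ^ p = 1
  mul : ∀ (v : V) (a b : Γ), a • v = v → b • v = v → φ v (a * b) = φ v a * φ v b
  conj : ∀ (g : Γ) (v : V), ∃ q : S, ∀ s : Γ, s • v = v → φ (g • v) (g * s * g⁻¹) = q * φ v s * q⁻¹

/-- the property of local homomorphisms at an edge; `B u s` means that `s` is in the normal subgroup of the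
stabilizer of `u` -/
structure PE2 (B : V → Γ → Prop) (p : ℕ) {S : Type} [Group S] (φ : V → Γ → S) (u v : V) : Prop where
  ker : ∀ s : Γ, s • u = u → s • v = v → φ u s = 1 → ∃ t : Γ, t • u = u ∧ t • v = v ∧ s = t ^ p
  com : ∀ H : Subgroup Γ, (∀ s ∈ H, s • u = u ∧ φ u s = 1 ∧ B u s) → ∀ s ∈ ⁅H, H⁆, s • v = v → s = 1

theorem PE2.smul {T : SimpleGraph V} {B : V → Γ → Prop}
    (hB : ∀ (k : Γ) (v : V) (s : Γ), s • v = v → B v s → B (k • v) (k * s * k⁻¹))
    {p : ℕ} {S : Type} [Group S] {φ : V → Γ → S} (hφ : Loc2 T p S φ) {u v : V}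
    (h : PE2 B p φ u v) (k : Γ) : PE2 B p φ (k • u) (k • v) := by
  have hfx : ∀ (s : Γ) (x : V), s • k • x = k • x → (k⁻¹ * s * k) • x = x := by
    intro s x hx
    rw [mul_smul, mul_smul, hx, inv_smul_smul]
  have hφk : ∀ s : Γ, s • k • u = k • u → φ (k • u) s = 1 → φ u (k⁻¹ * s * k) = 1 := by
    intro s hs h1
    obtain ⟨q, hq⟩ := hφ.conj k u
    have h2 := hq (k⁻¹ * s * k) (hfx s u hs)
    have h3 : k * (k⁻¹ * s * k) * k⁻¹ = s := by group
    rw [h3, h1] at h2
    have h4 : φ u (k⁻¹ * s * k) = q⁻¹ * (q * φ u (k⁻¹ * s * k) * q⁻¹) * q := by group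
    rw [h4, ← h2, mul_one, inv_mul_cancel]
  constructor
  · intro s hu hv h1
    obtain ⟨t, ht1, ht2, ht3⟩ := h.ker _ (hfx s u hu) (hfx s v hv) (hφk s hu h1)
    refine ⟨k * t * k⁻¹, ?_, ?_, ?_⟩
    · rw [mul_smul, mul_smul, inv_smul_smul, ht1]
    · rw [mul_smul, mul_smul, inv_smul_smul, ht2]
    · rw [conj_pow, ← ht3]
      group
  · intro H hH s hs hsv
    let c : Γ →* Γ := (MulAut.conj k⁻¹).toMonoidHom
    have hc : ∀ x, c x = k⁻¹ * x * k := by
      intro x
      show k⁻¹ * x * k⁻¹⁻¹ = _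
      rw [inv_inv]
    have h1 : c s ∈ ⁅H.map c, H.map c⁆ := by
      rw [← Subgroup.map_commutator]
      exact ⟨s, hs, rfl⟩
    have h2 := h.com (H.map c) (by
      rintro _ ⟨x, hx, rfl⟩
      obtain ⟨hx1, hx2, hx3⟩ := hH x hx
      rw [hc]
      refine ⟨hfx x u hx1, hφk x hx1 hx2, ?_⟩
      have h3 := hB k⁻¹ (k • u) x hx1 hx3
      rwa [inv_smul_smul, inv_inv] at h3) (c s) h1 (by rw [hc]; exact hfx s v hsv)
    rw [hc] at h2
    have h3 : s = k * (k⁻¹ * s * k) * k⁻¹ := by group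
    rw [h3, h2, mul_one, mul_inv_cancel]

/-- extension of a homomorphism from one vertex stabilizer -/
theorem loc_at2 {T : SimpleGraph V}
    (hadj : ∀ (g : Γ) (u v : V), T.Adj u v → T.Adj (g • u) (g • v)) (a : V) {p : ℕ} {S : Type} [Group S]
    (f : MulAction.stabilizer Γ a →* S)
    (hexp : ∀ w : V, T.Adj a w → ∀ s : MulAction.stabilizer Γ a, (s : Γ) • w = w → f s ^ p = 1) :
    ∃ φ : V → Γ → S, Loc2 T p S φ ∧ ∀ (s : Γ) (hs : s • a = a), φ a s = f ⟨s, hs⟩ := by
  classical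
  let h : V → Γ := fun v => if v = a then 1 else
    if hv : ∃ g : Γ, g • a = v then hv.choose else 1
  have hh : ∀ v : V, (∃ g : Γ, g • a = v) → h v • a = v := by
    intro v hv
    by_cases hva : v = a
    · have h1 : h v = 1 := if_pos hva
      rw [h1, one_smul, hva]
    · have h1 : h v = hv.choose := by
        show (if v = a then 1 else if hv : ∃ g : Γ, g • a = v then hv.choose else 1) = _
        rw [if_neg hva, dif_pos hv]
      rw [h1]
      exact hv.choose_spec
  have hfix : ∀ (v : V), (∃ g : Γ, g • a = v) → ∀ (s : Γ), s • v = v → ((h v)⁻¹ * s * h v) • a = a := by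
    intro v hv s hs
    rw [mul_smul, mul_smul, hh v hv, hs, inv_smul_eq_iff, hh v hv]
  let F : Γ → S := fun s => if hs : s ∈ MulAction.stabilizer Γ a then f ⟨s, hs⟩ else 1
  have hF : ∀ (s : Γ) (hs : s • a = a), F s = f ⟨s, hs⟩ := fun s hs => dif_pos hs
  have hFm : ∀ s t : Γ, s • a = a → t • a = a → F (s * t) = F s * F t := by
    intro s t hs ht
    have h1 : (s * t) • a = a := by rw [mul_smul, ht, hs]
    rw [hF s hs, hF t ht, hF _ h1, ← map_mul]
    rfl
  let φ : V → Γ → S := fun v s => if ∃ g : Γ, g • a = v then F ((h v)⁻¹ * s * h v) else 1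
  have hφ1 : ∀ (v : V) (s : Γ), (∃ g : Γ, g • a = v) → φ v s = F ((h v)⁻¹ * s * h v) :=
    fun v s hv => if_pos hv
  have hφ2 : ∀ (v : V) (s : Γ), (¬ ∃ g : Γ, g • a = v) → φ v s = 1 := fun v s hv => if_neg hv
  refine ⟨φ, ⟨?_, ?_, ?_⟩, ?_⟩
  · intro u v huv s hu hv'
    by_cases hu' : ∃ g : Γ, g • a = u
    · rw [hφ1 u _ hu', hF _ (hfix u hu' s hu)]
      refine hexp ((h u)⁻¹ • v) ?_ _ ?_
      · have h1 := hadj (h u)⁻¹ _ _ huv
        have h2 : (h u)⁻¹ • u = a := by rw [inv_smul_eq_iff, hh u hu']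
        rwa [h2] at h1
      · show ((h u)⁻¹ * s * h u) • (h u)⁻¹ • v = (h u)⁻¹ • v
        rw [mul_smul, smul_inv_smul, mul_smul, hv']
    · rw [hφ2 u _ hu', one_pow]
  · intro v s t hs ht
    by_cases hv : ∃ g : Γ, g • a = v
    · rw [hφ1 v _ hv, hφ1 v _ hv, hφ1 v _ hv, ← hFm _ _ (hfix v hv s hs) (hfix v hv t ht)]
      congr 1
      group
    · rw [hφ2 v _ hv, hφ2 v _ hv, hφ2 v _ hv, one_mul]
  · intro g v
    by_cases hv : ∃ g : Γ, g • a = v
    · have hgv : ∃ g' : Γ, g' • a = g • v := by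
        obtain ⟨x, hx⟩ := hv
        exact ⟨g * x, by rw [mul_smul, hx]⟩
      have hk : ((h (g • v))⁻¹ * g * h v) • a = a := by
        rw [mul_smul, mul_smul, hh v hv, inv_smul_eq_iff, hh _ hgv]
      refine ⟨F ((h (g • v))⁻¹ * g * h v), fun s hs => ?_⟩
      have h1 : ((h v)⁻¹ * s * h v) • a = a := hfix v hv s hs
      rw [hφ1 _ _ hgv, hφ1 v _ hv]
      have h3 : ((h (g • v))⁻¹ * g * h v)⁻¹ • a = a := by
        rw [inv_smul_eq_iff]; exact hk.symm
      have h2 : F (((h (g • v))⁻¹ * g * h v)⁻¹) = (F ((h (g • v))⁻¹ * g * h v))⁻¹ := by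
        rw [eq_inv_iff_mul_eq_one, ← hFm _ _ h3 hk, inv_mul_cancel]
        rw [hF 1 (one_smul _ _)]
        exact map_one f
      rw [← h2, ← hFm _ _ hk h1, ← hFm]
      · congr 1
        group
      · rw [mul_smul, h1, hk]
      · exact h3
    · have hgv : ¬ ∃ g' : Γ, g' • a = g • v := by
        rintro ⟨x, hx⟩
        exact hv ⟨g⁻¹ * x, by rw [mul_smul, hx, inv_smul_smul]⟩
      refine ⟨1, fun s _ => ?_⟩
      rw [hφ2 _ _ hgv, hφ2 v _ hv, one_mul, inv_one, one_mul]
  · intro s hs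
    have h1 : h a = 1 := if_pos rfl
    rw [hφ1 a s ⟨1, one_smul _ _⟩, h1, inv_one, one_mul, mul_one, hF s hs]

theorem gn_one {T : SimpleGraph V}
    (hadj : ∀ (g : Γ) (u v : V), T.Adj u v → T.Adj (g • u) (g • v))
    (A : (v : V) → Subgroup (MulAction.stabilizer Γ v))
    (hEA : ∀ u v : V, T.Adj u v → ∀ s : MulAction.stabilizer Γ u, (s : Γ) • v = v → s ∈ A u)
    (B : V → Γ → Prop)
    (hB : ∀ (v : V) (s : MulAction.stabilizer Γ v), B v (s : Γ) → s ∈ A v) {u v : V}
    (hg : GoodN (MulAction.stabilizer Γ u) (A u)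
      ((MulAction.stabilizer Γ v).subgroupOf (MulAction.stabilizer Γ u))) :
    ∃ N : ℕ, ∀ p : ℕ, p.Prime → N ≤ p →
      ∃ (S : Type) (_ : Group S) (φ : V → Γ → S), Finite S ∧ Loc2 T p S φ ∧ PE2 B p φ u v := by
  obtain ⟨N, hN⟩ := hg
  refine ⟨N, fun p hp hNp => ?_⟩
  obtain ⟨S, _, f, hfin, hexp, hker, hcom⟩ := hN p hp hNp
  obtain ⟨φ, hφ, hφf⟩ := loc_at2 hadj u f (fun w hw s hs => hexp s (hEA u w hw s hs))
  refine ⟨S, _, φ, hfin, hφ, ?_, ?_⟩
  · intro s hu hv h1
    rw [hφf s hu] at h1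
    obtain ⟨t, ht, hst⟩ := hker ⟨s, hu⟩ hv h1
    exact ⟨t, t.2, ht, congrArg Subtype.val hst⟩
  · intro H hH s hs hsv
    let H' : Subgroup (MulAction.stabilizer Γ u) := H.subgroupOf (MulAction.stabilizer Γ u)
    have h1 : H'.map (MulAction.stabilizer Γ u).subtype = H := by
      rw [Subgroup.map_subgroupOf_eq_of_le]
      intro x hx
      exact (hH x hx).1
    have h2 : H' ≤ f.ker ⊓ A u := by
      intro x hx
      refine ⟨?_, hB u x (hH (x : Γ) hx).2.2⟩
      show f x = 1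
      have h3 := (hH (x : Γ) hx).2.1
      rw [hφf (x : Γ) x.2] at h3
      exact h3
    rw [← h1, ← Subgroup.map_commutator] at hs
    obtain ⟨x, hx, rfl⟩ := hs
    have h4 := hcom x hsv (Subgroup.commutator_mono h2 h2 hx)
    rw [h4, map_one]

theorem gn_many {T : SimpleGraph V}
    (hadj : ∀ (g : Γ) (u v : V), T.Adj u v → T.Adj (g • u) (g • v))
    (A : (v : V) → Subgroup (MulAction.stabilizer Γ v))
    (hEA : ∀ u v : V, T.Adj u v → ∀ s : MulAction.stabilizer Γ u, (s : Γ) • v = v → s ∈ A u)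
    (B : V → Γ → Prop)
    (hB : ∀ (v : V) (s : MulAction.stabilizer Γ v), B v (s : Γ) → s ∈ A v)
    (D : Set (V × V)) (hD : D.Finite)
    (hg : ∀ q ∈ D, GoodN (MulAction.stabilizer Γ q.1) (A q.1)
      ((MulAction.stabilizer Γ q.2).subgroupOf (MulAction.stabilizer Γ q.1))) :
    ∃ N : ℕ, ∀ p : ℕ, p.Prime → N ≤ p →
      ∃ (S : Type) (_ : Group S) (φ : V → Γ → S), Finite S ∧ Loc2 T p S φ ∧
        ∀ q ∈ D, PE2 B p φ q.1 q.2 := by
  induction D, hD using Set.Finite.induction_on with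
  | empty =>
    refine ⟨0, fun p _ _ => ⟨PUnit, inferInstance, fun _ _ => 1, inferInstance,
      ⟨fun _ _ _ _ _ _ => rfl, fun _ _ _ _ _ => rfl, fun _ _ => ⟨1, fun _ _ => rfl⟩⟩,
      fun e he => absurd he (Set.notMem_empty e)⟩⟩
  | @insert e D _ _ ih =>
    obtain ⟨N, hN⟩ := ih fun e' he' => hg e' (Set.mem_insert_of_mem _ he')
    obtain ⟨M, hM⟩ := gn_one hadj A hEA B hB (hg e (Set.mem_insert _ _))
    refine ⟨max N M, fun p hp hNp => ?_⟩
    obtain ⟨S, _, φ, hfin, hφ, hφE⟩ := hN p hp (le_trans (le_max_left _ _) hNp)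
    obtain ⟨S', _, φ', hfin', hφ', hφe⟩ := hM p hp (le_trans (le_max_right _ _) hNp)
    refine ⟨S × S', inferInstance, fun v s => (φ v s, φ' v s), inferInstance, ⟨?_, ?_, ?_⟩, ?_⟩
    · intro u v huv s hu hv
      exact Prod.ext (hφ.exp u v huv s hu hv) (hφ'.exp u v huv s hu hv)
    · intro v a b ha hb
      exact Prod.ext (hφ.mul v a b ha hb) (hφ'.mul v a b ha hb)
    · intro g v
      obtain ⟨q, hq⟩ := hφ.conj g v
      obtain ⟨q', hq'⟩ := hφ'.conj g v
      exact ⟨(q, q'), fun s hs => Prod.ext (hq s hs) (hq' s hs)⟩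
    · rintro e' (rfl | he')
      · exact ⟨fun s hu hv h => hφe.ker s hu hv (congrArg Prod.snd h),
          fun H hH => hφe.com H fun s hs =>
            ⟨(hH s hs).1, congrArg Prod.snd (hH s hs).2.1, (hH s hs).2.2⟩⟩
      · exact ⟨fun s hu hv h => (hφE e' he').ker s hu hv (congrArg Prod.fst h),
          fun H hH => (hφE e' he').com H fun s hs =>
            ⟨(hH s hs).1, congrArg Prod.fst (hH s hs).2.1, (hH s hs).2.2⟩⟩

end loc

section tree

/-- the tree theorem for an equivariant family of homomorphisms, no inversions -/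
theorem gn_tree0 (hC : ClosedE C) (hab : AbCyc C) {Γ V : Type} [Group Γ] [MulAction Γ V]
    {T : SimpleGraph V} (hT : T.IsTree)
    (hadj : ∀ (g : Γ) (u v : V), T.Adj u v → T.Adj (g • u) (g • v))
    (hinv : ∀ (g : Γ) (u : V), T.Adj u (g • u) → g • g • u ≠ u)
    (Q : V → Type) [∀ v, Group (Q v)] (f : (v : V) → MulAction.stabilizer Γ v →* Q v)
    (hQ : ∀ v, C (Q v))
    (hE : ∀ u v : V, T.Adj u v → ∀ g : MulAction.stabilizer Γ u, (g : Γ) • v = v → f u g = 1)
    (heq : ∀ (k : Γ) (v : V) (s : MulAction.stabilizer Γ v) (t : MulAction.stabilizer Γ (k • v)),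
      (t : Γ) = k * s * k⁻¹ → f v s = 1 → f (k • v) t = 1)
    (hg : ∀ u v : V, T.Adj u v → GoodN (MulAction.stabilizer Γ u) (f u).ker
      ((MulAction.stabilizer Γ v).subgroupOf (MulAction.stabilizer Γ u)))
    (hv : ∀ v : V, C (MulAction.stabilizer Γ v)) : C Γ := by
  classical
  have hne : Nonempty V := hT.connected.nonempty
  let r : V := Classical.arbitrary V
  let B : V → Γ → Prop := fun v s => ∃ hs : s • v = v, f v ⟨s, hs⟩ = 1
  have hB1 : ∀ (k : Γ) (v : V) (s : Γ), s • v = v → B v s → B (k • v) (k * s * k⁻¹) := by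
    rintro k v s - ⟨hs, h1⟩
    have h2 : (k * s * k⁻¹) • k • v = k • v := by
      rw [mul_smul, mul_smul, inv_smul_smul, hs]
    exact ⟨h2, heq k v ⟨s, hs⟩ ⟨_, h2⟩ rfl h1⟩
  have hstab : ∀ D : Set (V × V), D.Finite → C (compStab hadj D r) := by
    intro D hD
    let D' : Set (V × V) := (D ∪ Prod.swap '' D) ∩ {q | T.Adj q.1 q.2}
    have hD' : D'.Finite := (hD.union (hD.image _)).inter_of_left _
    obtain ⟨N, hN⟩ := gn_many hadj (fun v => (f v).ker) (fun u v huv s hs => hE u v huv s hs) B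
      (fun v s hs => hs.2) D' hD' (fun q hq => hg q.1 q.2 hq.2)
    obtain ⟨p, hNp, hp⟩ := Nat.exists_infinite_primes N
    obtain ⟨S, _, φ, hfin, hφ, hφE⟩ := hN p hp hNp
    let F : SimpleGraph V := orbG (Γ := Γ) T D
    let c : F.ConnectedComponent := F.connectedComponentMk r
    have hF : F.IsAcyclic := hT.isAcyclic.anti (orbG_le T D)
    have hTc := hF.isTree_connectedComponent c
    have hmem : ∀ x : V, x ∈ c ↔ F.Reachable x r := fun x =>
      ConnectedComponent.eq (G := F) (v := x) (w := r)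
    letI : MulAction (compStab hadj D r) c :=
      { smul := fun g x => ⟨(g : Γ) • (x : V), by
          rw [hmem]
          exact (orbG_reach hadj D (g : Γ) _ _ ((hmem x).1 x.2)).trans (Reachable.symm g.2)⟩
        one_smul := fun x => Subtype.ext (one_smul Γ (x : V))
        mul_smul := fun a b x => Subtype.ext (mul_smul (a : Γ) (b : Γ) (x : V)) }
    -- the edges of the component
    have hPE : ∀ u v : V, F.Adj u v → PE2 B p φ u v := by
      rintro u v ⟨huv, q, hq, k, hk⟩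
      rcases hk with ⟨h1, h2⟩ | ⟨h1, h2⟩
      · have hqa : T.Adj q.1 q.2 := by
          rw [h1, h2] at huv
          have h3 := hadj k⁻¹ _ _ huv
          rwa [inv_smul_smul, inv_smul_smul] at h3
        rw [h1, h2]
        exact (hφE q ⟨Or.inl hq, hqa⟩).smul hB1 hφ k
      · have hqa : T.Adj q.2 q.1 := by
          rw [h1, h2] at huv
          have h3 := hadj k⁻¹ _ _ huv
          rwa [inv_smul_smul, inv_smul_smul] at h3
        rw [h1, h2]
        exact (hφE q.swap ⟨Or.inr ⟨q, hq, rfl⟩, hqa⟩).smul hB1 hφ k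
    have hpow : ∀ (u v : V), T.Adj u v → ∀ (t : Γ), t • u = u → t • v = v → φ u (t ^ p) = 1 := by
      intro u v huv t ht ht'
      have h1 : ∀ n : ℕ, φ u (t ^ n) = φ u t ^ n ∧ t ^ n • u = u := by
        intro n
        induction n with
        | zero =>
          rw [pow_zero, pow_zero, one_smul]
          have h2 := hφ.mul u 1 1 (one_smul _ _) (one_smul _ _)
          rw [mul_one] at h2
          exact ⟨(mul_eq_left.1 h2.symm), rfl⟩
        | succ n ih =>
          rw [pow_succ, pow_succ, hφ.mul u _ _ ih.2 ht, ih.1, mul_smul, ht]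
          exact ⟨rfl, ih.2⟩
      rw [(h1 p).1, hφ.exp u v huv t ht ht']
    let j : (x : c) → MulAction.stabilizer (compStab hadj D r) x →* MulAction.stabilizer Γ (x : V) :=
      fun x =>
      { toFun := fun g => ⟨((g : compStab hadj D r) : Γ), congrArg Subtype.val g.2⟩
        map_one' := rfl
        map_mul' := fun _ _ => rfl }
    have hj : ∀ x, Function.Injective (j x) := by
      intro x a b hab'
      have h0 := congrArg Subtype.val hab'
      have h1 : ((a : compStab hadj D r) : Γ) = ((b : compStab hadj D r) : Γ) := h0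
      exact Subtype.ext (Subtype.ext h1)
    refine gn_fin (Γ := compStab hadj D r) (V := c) hC hab hTc ?_ ?_
      (fun x => Q (x : V)) (fun x => (f (x : V)).comp (j x)) (fun x => hQ x) ?_
      (fun x g => φ (x : V) (g : Γ)) ?_ ?_ ?_ ?_ ?_
    · intro g u v huv
      exact orbG_adj hadj D (g : Γ) _ _ huv
    · intro g u huv h1
      have h2 : F.Adj (u : V) ((g : Γ) • (u : V)) := huv
      exact hinv (g : Γ) (u : V) h2.1 (congrArg Subtype.val h1)
    · intro u v huv g hgv
      have h2 : F.Adj (u : V) (v : V) := huv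
      exact hE u v h2.1 (j u g) (congrArg Subtype.val hgv)
    · intro v a b ha hb
      exact hφ.mul (v : V) (a : Γ) (b : Γ) (congrArg Subtype.val ha) (congrArg Subtype.val hb)
    · intro g v
      obtain ⟨q, hq⟩ := hφ.conj (g : Γ) (v : V)
      exact ⟨q, fun s hs' => hq (s : Γ) (congrArg Subtype.val hs')⟩
    · intro u v huv s hu hv' h1
      have h2 : F.Adj (u : V) (v : V) := huv
      obtain ⟨t, ht1, ht2, ht3⟩ := (hPE u v huv).ker (s : Γ) (congrArg Subtype.val hu)
        (congrArg Subtype.val hv') h1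
      show φ (v : V) (s : Γ) = 1
      rw [ht3]
      exact hpow v u h2.1.symm t ht2 ht1
    · intro u v huv H hH s hs hsv
      let ι : MulAction.stabilizer (compStab hadj D r) u →* Γ :=
        (MulAction.stabilizer Γ (u : V)).subtype.comp (j u)
      have h1 : ι s ∈ ⁅H.map ι, H.map ι⁆ := by
        rw [← Subgroup.map_commutator]
        exact ⟨s, hs, rfl⟩
      have h2 := (hPE u v huv).com (H.map ι) (by
        rintro _ ⟨x, hx, rfl⟩
        exact ⟨(j u x).2, (hH x hx).1, (j u x).2, (hH x hx).2⟩) (ι s) h1 (congrArg Subtype.val hsv)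
      apply hj u
      rw [map_one]
      exact Subtype.ext h2
    · intro x
      exact hC.base.of_injective _ _ (j x) (hj x) (hv x)
  -- the directed union
  let c : Set (Subgroup Γ) := {H | ∃ D : Set (V × V), D.Finite ∧ H = compStab hadj D r}
  have hmono : ∀ D D' : Set (V × V), D ⊆ D' → compStab hadj D r ≤ compStab hadj D' r :=
    fun D D' h g hg => Reachable.mono (orbG_mono T h) hg
  have hdir : DirectedOn (· ≤ ·) c := by
    rintro _ ⟨D, hD, rfl⟩ _ ⟨D', hD', rfl⟩
    exact ⟨_, ⟨D ∪ D', hD.union hD', rfl⟩, hmono _ _ Set.subset_union_left,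
      hmono _ _ Set.subset_union_right⟩
  have h1 := c_dir hC.base c hdir ⟨_, ∅, Set.finite_empty, rfl⟩ 1 (by
    rintro _ ⟨D, hD, rfl⟩
    rw [Subgroup.zpowers_one_eq_bot, sup_bot_eq]
    exact hstab D hD)
  have h2 : ∀ g : Γ, g ∈ sSup c ⊔ Subgroup.zpowers (1 : Γ) := by
    intro g
    obtain ⟨p⟩ := hT.connected.preconnected r (g • r)
    obtain ⟨D, hD, hr⟩ := walk_orb (Γ := Γ) p
    have h3 : compStab hadj D r ≤ sSup c := le_sSup ⟨D, hD, rfl⟩
    exact Subgroup.mem_sup_left (h3 hr)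
  refine hC.base.of_injective _ _
    (MonoidHom.codRestrict (MonoidHom.id Γ) (sSup c ⊔ Subgroup.zpowers (1 : Γ)) h2) ?_ h1
  intro a b hab'
  exact congrArg Subtype.val hab'

end tree

end Pool.Agent.X176.FJ
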