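import Mathlib
import Pool.Agent.X176.FJ.GT
import Pool.Agent.X176.FJ.RfC

/-!
Groups acting on trees: abelian edge stabilizers in centreless residually free normal subgroups.
-/

set_option autoImplicit false

namespace Pool.Agent.X176.FJ

open Pool.Agent.Y110.FJ Pool.Agent.X201.FJ
open Pool.Agent.Y462.SS (Closed)
open SimpleGraph

variable {C : ∀ (G : Type) [Group G], Prop}

theorem GoodN.of_equiv {A B : Type} [Group A] [Group B] (e : A ≃* B) {N E : Subgroup A}
    {N' E' : Subgroup B} (hN : ∀ x, x ∈ N ↔ e x ∈ N') (hE : ∀ x, x ∈ E ↔ e x ∈ E') (h : GoodN A N E) :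
    GoodN B N' E' := by
  obtain ⟨M, hM⟩ := h
  refine ⟨M, fun p hp hNp => ?_⟩
  obtain ⟨S, _, f, hfin, hexp, hker, hcom⟩ := hM p hp hNp
  have hmem : ∀ y, y ∈ E' ↔ e.symm y ∈ E := by
    intro y
    rw [hE, MulEquiv.apply_symm_apply]
  have hmemN : ∀ y, y ∈ N' ↔ e.symm y ∈ N := by
    intro y
    rw [hN, MulEquiv.apply_symm_apply]
  refine ⟨S, _, f.comp e.symm.toMonoidHom, hfin, fun a ha => hexp _ ((hmemN a).1 ha),
    fun x hx h1 => ?_, fun x hx h1 => ?_⟩
  · obtain ⟨y, hy, hxy⟩ := hker (e.symm x) ((hmem x).1 hx) h1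
    refine ⟨e y, (hE y).1 hy, ?_⟩
    rw [← map_pow, ← hxy, MulEquiv.apply_symm_apply]
  · have h2 : (f.comp e.symm.toMonoidHom).ker ⊓ N' = (f.ker ⊓ N).map e.toMonoidHom := by
      ext z
      rw [Subgroup.mem_inf, MonoidHom.mem_ker, Subgroup.mem_map]
      constructor
      · intro hz
        exact ⟨e.symm z, ⟨hz.1, (hmemN z).1 hz.2⟩, e.apply_symm_apply z⟩
      · rintro ⟨w, hw, rfl⟩
        refine ⟨?_, (hN w).1 hw.2⟩
        show f (e.symm (e w)) = 1
        rw [MulEquiv.symm_apply_apply]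
        exact hw.1
    rw [h2, ← Subgroup.map_commutator] at h1
    obtain ⟨w, hw, rfl⟩ := h1
    have h3 := hcom w ((hE w).2 hx) hw
    show e w = 1
    rw [h3, map_one]

/-- no inversions, arbitrary families -/
theorem gn_tree1 (hC : ClosedE C) (hab : AbCyc C) {Γ V : Type} [Group Γ] [MulAction Γ V]
    {T : SimpleGraph V} (hT : T.IsTree)
    (hadj : ∀ (g : Γ) (u v : V), T.Adj u v → T.Adj (g • u) (g • v))
    (hinv : ∀ (g : Γ) (u : V), T.Adj u (g • u) → g • g • u ≠ u)
    (Q : V → Type) [∀ v, Group (Q v)] (f : (v : V) → MulAction.stabilizer Γ v →* Q v)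
    (hQ : ∀ v, C (Q v))
    (hE : ∀ u v : V, T.Adj u v → ∀ g : MulAction.stabilizer Γ u, (g : Γ) • v = v → f u g = 1)
    (hg : ∀ u v : V, T.Adj u v → GoodN (MulAction.stabilizer Γ u) (f u).ker
      ((MulAction.stabilizer Γ v).subgroupOf (MulAction.stabilizer Γ u)))
    (hv : ∀ v : V, C (MulAction.stabilizer Γ v)) : C Γ := by
  classical
  obtain ⟨rep, h, hh, hrep⟩ := Tr.exists_rep_vertex Γ V
  have hfix : ∀ (v : V) (s : Γ), s • v = v → ((h v)⁻¹ * s * h v) • rep v = rep v := by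
    intro v s hs
    rw [mul_smul, mul_smul, hh, hs, inv_smul_eq_iff, hh]
  have hfix2 : ∀ (v : V) (s : Γ), s • rep v = rep v → (h v * s * (h v)⁻¹) • v = v := by
    intro v s hs
    have h1 : (h v)⁻¹ • v = rep v := by rw [inv_smul_eq_iff, hh]
    rw [mul_smul, mul_smul, h1, hs, hh]
  let e : (v : V) → MulAction.stabilizer Γ (rep v) ≃* MulAction.stabilizer Γ v := fun v =>
    { toFun := fun s => ⟨h v * s * (h v)⁻¹, hfix2 v s s.2⟩
      invFun := fun s => ⟨(h v)⁻¹ * s * h v, hfix v s s.2⟩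
      left_inv := fun s => by
        apply Subtype.ext
        show (h v)⁻¹ * (h v * (s : Γ) * (h v)⁻¹) * h v = s
        group
      right_inv := fun s => by
        apply Subtype.ext
        show h v * ((h v)⁻¹ * (s : Γ) * h v) * (h v)⁻¹ = s
        group
      map_mul' := fun s t => by
        apply Subtype.ext
        show h v * ((s : Γ) * (t : Γ)) * (h v)⁻¹ = (h v * (s : Γ) * (h v)⁻¹) * (h v * (t : Γ) * (h v)⁻¹)
        group }
  have hadj' : ∀ u v : V, T.Adj u v → T.Adj (rep u) ((h u)⁻¹ • v) := by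
    intro u v huv
    have h1 := hadj (h u)⁻¹ _ _ huv
    have h2 : (h u)⁻¹ • u = rep u := by rw [inv_smul_eq_iff, hh]
    rwa [h2] at h1
  have hfr : ∀ (r r' : V) (x : Γ) (hx : x • r = r) (hx' : x • r' = r'), r = r' → f r ⟨x, hx⟩ = 1 →
      f r' ⟨x, hx'⟩ = 1 := by
    intro r r' x hx hx' hr h1
    subst hr
    exact h1
  refine gn_tree0 hC hab hT hadj hinv (fun v => Q (rep v))
    (fun v => (f (rep v)).comp (e v).symm.toMonoidHom) (fun v => hQ _) ?_ ?_ ?_ hv
  · intro u v huv g hgv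
    refine hE (rep u) ((h u)⁻¹ • v) (hadj' u v huv) _ ?_
    show ((h u)⁻¹ * (g : Γ) * h u) • (h u)⁻¹ • v = (h u)⁻¹ • v
    rw [mul_smul, smul_inv_smul, mul_smul, hgv]
  · intro k v s t ht hs
    have hm : ((h (k • v))⁻¹ * k * h v) • rep v = rep v := by
      rw [mul_smul, mul_smul, hh, inv_smul_eq_iff]
      have h1 := hh (k • v)
      rw [hrep] at h1
      exact h1.symm
    let m : MulAction.stabilizer Γ (rep v) := ⟨_, hm⟩
    let x : MulAction.stabilizer Γ (rep v) := (e v).symm s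
    have h1 : f (rep v) x = 1 := hs
    have h2 : f (rep v) (m * x * m⁻¹) = 1 := by
      rw [map_mul, map_mul, h1, mul_one, ← map_mul, mul_inv_cancel, map_one]
    have h3 : ((m * x * m⁻¹ : MulAction.stabilizer Γ (rep v)) : Γ) =
        ((e (k • v)).symm t : MulAction.stabilizer Γ (rep (k • v))) := by
      show ((h (k • v))⁻¹ * k * h v) * ((h v)⁻¹ * (s : Γ) * h v) * ((h (k • v))⁻¹ * k * h v)⁻¹ =
        (h (k • v))⁻¹ * (t : Γ) * h (k • v)
      rw [ht]
      group
    have h4 := hfr (rep v) (rep (k • v)) ((m * x * m⁻¹ : MulAction.stabilizer Γ (rep v)) : Γ)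
      (m * x * m⁻¹).2 (by rw [h3]; exact ((e (k • v)).symm t).2) (hrep k v).symm h2
    have h5 : (⟨((m * x * m⁻¹ : MulAction.stabilizer Γ (rep v)) : Γ), by
      rw [h3]; exact ((e (k • v)).symm t).2⟩ : MulAction.stabilizer Γ (rep (k • v))) =
        (e (k • v)).symm t := Subtype.ext h3
    rw [h5] at h4
    exact h4
  · intro u v huv
    refine GoodN.of_equiv (e u) (fun x => ?_) (fun x => ?_) (hg (rep u) ((h u)⁻¹ • v) (hadj' u v huv))
    · rw [MonoidHom.mem_ker, MonoidHom.mem_ker]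
      show f (rep u) x = 1 ↔ f (rep u) ((e u).symm (e u x)) = 1
      rw [MulEquiv.symm_apply_apply]
    · show (x : Γ) • (h u)⁻¹ • v = (h u)⁻¹ • v ↔ (h u * (x : Γ) * (h u)⁻¹) • v = v
      rw [mul_smul, mul_smul, eq_inv_smul_iff]

/-- inversions allowed -/
theorem gn_tree (hC : ClosedE C) (hab : AbCyc C) {Γ V : Type} [Group Γ] [MulAction Γ V]
    {T : SimpleGraph V} (hT : T.IsTree)
    (hadj : ∀ (g : Γ) (u v : V), T.Adj u v → T.Adj (g • u) (g • v))
    (Q : V → Type) [∀ v, Group (Q v)] (f : (v : V) → MulAction.stabilizer Γ v →* Q v)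
    (hQ : ∀ v, C (Q v))
    (hE : ∀ u v : V, T.Adj u v → ∀ g : MulAction.stabilizer Γ u, (g : Γ) • v = v → f u g = 1)
    (hg : ∀ u v : V, T.Adj u v → GoodN (MulAction.stabilizer Γ u) (f u).ker
      ((MulAction.stabilizer Γ v).subgroupOf (MulAction.stabilizer Γ u))) :
    C Γ ↔ ∀ v : V, C (MulAction.stabilizer Γ v) := by
  constructor
  · intro h v
    exact hC.base.of_injective _ _ (MulAction.stabilizer Γ v).subtype
      (MulAction.stabilizer Γ v).subtype_injective h
  intro hv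
  refine of_noinv hC hT hadj hv fun K hK hinv hvK => ?_
  let je : (x : V) → MulAction.stabilizer Γ x ≃* MulAction.stabilizer K x := fun x =>
      { toFun := fun g => ⟨⟨(g : Γ), hK x g.2⟩, g.2⟩
        invFun := fun g => ⟨((g : K) : Γ), g.2⟩
        left_inv := fun _ => rfl
        right_inv := fun _ => rfl
        map_mul' := fun _ _ => rfl }
  refine gn_tree1 (Γ := K) hC hab hT (fun g u v h => hadj (g : Γ) u v h) hinv Q
    (fun v => (f v).comp (je v).symm.toMonoidHom) hQ ?_ ?_ hvK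
  · intro u v huv g hg'
    exact hE u v huv ((je u).symm g) hg'
  · intro u v huv
    exact GoodN.of_equiv (je u) (fun x => Iff.rfl) (fun x => Iff.rfl) (hg u v huv)

/-- **abelian edge stabilizers in centreless residually free normal subgroups** -/
theorem cr_tree (hC : ClosedE C) (hab : AbCyc C) {Γ V : Type} [Group Γ] [MulAction Γ V]
    {T : SimpleGraph V} (hT : T.IsTree)
    (hadj : ∀ (g : Γ) (u v : V), T.Adj u v → T.Adj (g • u) (g • v))
    (hfg : ∀ u v : V, T.Adj u v → (MulAction.stabilizer Γ u ⊓ MulAction.stabilizer Γ v).FG)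
    (hc : ∀ u v : V, T.Adj u v → ∀ a ∈ MulAction.stabilizer Γ u ⊓ MulAction.stabilizer Γ v,
      ∀ b ∈ MulAction.stabilizer Γ u ⊓ MulAction.stabilizer Γ v, a * b = b * a)
    (Q : V → Type) [∀ v, Group (Q v)] (f : (v : V) → MulAction.stabilizer Γ v →* Q v)
    (hQ : ∀ v, C (Q v))
    (hE : ∀ u v : V, T.Adj u v → ∀ g : MulAction.stabilizer Γ u, (g : Γ) • v = v → f u g = 1)
    (hA : ∀ v, (f v).ker.FG) (hR : ∀ v, ResFree (f v).ker)
    (hZ : ∀ v, ∀ x : (f v).ker, (∀ y, x * y = y * x) → x = 1) :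
    C Γ ↔ ∀ v : V, C (MulAction.stabilizer Γ v) := by
  refine gn_tree hC hab hT hadj Q f hQ hE fun u v huv => ?_
  let E : Subgroup (MulAction.stabilizer Γ u) :=
    (MulAction.stabilizer Γ v).subgroupOf (MulAction.stabilizer Γ u)
  have hEA : E ≤ (f u).ker := fun x hx => hE u v huv x hx
  have hEfg : E.FG := subgroupOf_fg _ _ (hfg u v huv)
  have hEc : ∀ a ∈ E, ∀ b ∈ E, a * b = b * a := by
    intro a ha b hb
    exact Subtype.ext (hc u v huv a ⟨a.2, ha⟩ b ⟨b.2, hb⟩)
  refine goodN_of _ _ (hA u) hEA (goodC_fgab (hR u) (hZ u) _ ?_ ?_)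
  · refine subgroupOf_fg _ _ ?_
    rw [inf_eq_right.2 hEA]
    exact hEfg
  · intro a ha b hb
    exact Subtype.ext (hEc a ha b hb)

end Pool.Agent.X176.FJ
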