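import Mathlib
import Pool.Agent.X176.FJ.Sub
import Pool.Agent.X176.FJ.Tri

/-!
Amalgamated products `A *_K B` where `K` is normal in `A`.
-/

set_option autoImplicit false

namespace Pool.Agent.X176.FJ

open Pool.Agent.Y110.FJ
open Pool.Agent.Y462.SS (Closed)

section ind

variable {G P Q : Type} [Group G] [Group P] [Group Q] {A B K : Subgroup G}

/-- **preimages of subgroups**: `D ≤ A` with a homomorphism to `P` which is compatible with embeddings
of `B` in `P` -/
theorem ind_am {C : ∀ (G : Type) [Group G], Prop} (hC : ClosedE C) (hamg : Amg A B K)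
    (hN : ∀ a ∈ A, ∀ k ∈ K, a * k * a⁻¹ ∈ K) (hQ : C Q) (π : G →* Q)
    (hπA : ∀ a ∈ A, π a = 1 → a ∈ K) (hπB : ∀ b ∈ B, π b = 1)
    (D : Subgroup G) (hKD : K ≤ D) (hDA : D ≤ A) (hP : C P) (h : D →* P)
    (j : A → (B →* P)) (hji : ∀ a, Function.Injective (j a))
    (hjk : ∀ (a : A) (k : G) (hk : k ∈ K) (hk' : (a : G)⁻¹ * k * a ∈ D),
      j a ⟨k, hamg.le_right hk⟩ = h ⟨_, hk'⟩) :
    C ((D.map π).comap π : Subgroup G) := by
  classical
  let Y : Type := A ⧸ D.subgroupOf A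
  let s : Y → A := Quotient.out
  have hs : ∀ y : Y, ((s y : A) : A ⧸ D.subgroupOf A) = y := fun y => Quotient.out_eq' y
  have hcc : ∀ (a : A) (y : Y), ((s (a • y) : A) : G)⁻¹ * ((a : G) * (s y : A)) ∈ D := by
    intro a y
    have h1 : ((s (a • y) : A) : A ⧸ D.subgroupOf A) = ((a * s y : A) : A ⧸ D.subgroupOf A) := by
      rw [hs]
      conv_lhs => rw [← hs y]
      rfl
    exact (QuotientGroup.eq (s := D.subgroupOf A)).1 h1
  let cc : A → Y → D := fun a y => ⟨_, hcc a y⟩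
  have hcc1 : ∀ (a a' : A) (y : Y), cc (a * a') y = cc a (a' • y) * cc a' y := by
    intro a a' y
    apply Subtype.ext
    show ((s ((a * a') • y) : A) : G)⁻¹ * (((a * a' : A) : G) * (s y : A)) =
      (((s (a • a' • y) : A) : G)⁻¹ * ((a : G) * (s (a' • y) : A))) *
      (((s (a' • y) : A) : G)⁻¹ * ((a' : G) * (s y : A)))
    rw [mul_smul, Subgroup.coe_mul]
    group
  have hcc0 : ∀ y : Y, cc 1 y = 1 := by
    intro y
    apply Subtype.ext
    show ((s ((1 : A) • y) : A) : G)⁻¹ * (((1 : A) : G) * (s y : A)) = 1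
    rw [one_smul, Subgroup.coe_one]
    group
  let ΦA : A →* Equiv.Perm (Y × P) := MonoidHom.toHomPerm
    { toFun := fun a => (fun x => (a • x.1, h (cc a x.1) * x.2) : Y × P → Y × P)
      map_one' := by
        funext x
        show ((1 : A) • x.1, h (cc 1 x.1) * x.2) = x
        rw [hcc0, map_one, one_smul, one_mul]
      map_mul' := fun a a' => by
        funext x
        show ((a * a') • x.1, h (cc (a * a') x.1) * x.2) =
          (a • a' • x.1, h (cc a (a' • x.1)) * (h (cc a' x.1) * x.2))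
        rw [hcc1, map_mul, mul_smul, mul_assoc] }
  let ΦB : B →* Equiv.Perm (Y × P) := MonoidHom.toHomPerm
    { toFun := fun b => (fun x => (x.1, j (s x.1) b * x.2) : Y × P → Y × P)
      map_one' := by
        funext x
        show (x.1, j (s x.1) 1 * x.2) = x
        rw [map_one, one_mul]
      map_mul' := fun a a' => by
        funext x
        show (x.1, j (s x.1) (a * a') * x.2) = (x.1, j (s x.1) a * (j (s x.1) a' * x.2))
        rw [map_mul, mul_assoc] }
  have hΦA : ∀ a x, ΦA a x = (a • x.1, h (cc a x.1) * x.2) := fun a x => rfl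
  have hΦB : ∀ b x, ΦB b x = (x.1, j (s x.1) b * x.2) := fun a x => rfl
  have hKy : ∀ (k : G) (hk : k ∈ K) (y : Y), (⟨k, hamg.le_left hk⟩ : A) • y = y := by
    intro k hk y
    conv_lhs => rw [← hs y]
    conv_rhs => rw [← hs y]
    apply (QuotientGroup.eq (s := D.subgroupOf A)).2
    show (((⟨k, hamg.le_left hk⟩ : A) * s y : A) : G)⁻¹ * (s y : A) ∈ D
    have h1 : ((s y : A) : G)⁻¹ * k⁻¹ * (((s y : A) : G)⁻¹)⁻¹ ∈ K :=
      hN _ (A.inv_mem (s y).2) _ (K.inv_mem hk)
    rw [inv_inv] at h1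
    have h2 : (((⟨k, hamg.le_left hk⟩ : A) * s y : A) : G)⁻¹ * (s y : A) =
        ((s y : A) : G)⁻¹ * k⁻¹ * ((s y : A) : G) := by
      rw [Subgroup.coe_mul, mul_inv_rev]
    rw [h2]
    exact hKD h1
  obtain ⟨Φ, hΦa, hΦb⟩ := hamg.univ (Equiv.Perm (Y × P)) ΦA ΦB (by
    intro k hk
    apply Equiv.ext
    intro x
    rw [hΦA, hΦB, hKy k hk]
    refine Prod.ext rfl ?_
    show h (cc _ x.1) * x.2 = j (s x.1) _ * x.2
    have h1 : ((s x.1 : A) : G)⁻¹ * k * (s x.1 : A) ∈ D := by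
      have h1 : ((s x.1 : A) : G)⁻¹ * k * (((s x.1 : A) : G)⁻¹)⁻¹ ∈ K :=
        hN _ (A.inv_mem (s x.1).2) _ hk
      rw [inv_inv] at h1
      exact hKD h1
    rw [hjk (s x.1) k hk h1]
    congr 2
    apply Subtype.ext
    show ((s ((⟨k, hamg.le_left hk⟩ : A) • x.1) : A) : G)⁻¹ * (k * (s x.1 : A)) =
      ((s x.1 : A) : G)⁻¹ * k * (s x.1 : A)
    rw [hKy k hk, mul_assoc])
  -- the right multiplications
  let R : P → Equiv.Perm (Y × P) := fun q => (Equiv.refl Y).prodCongr (Equiv.mulRight q)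
  have hR : ∀ q x, R q x = (x.1, x.2 * q) := fun q x => rfl
  have hcomm : ∀ (g : G) (q : P), Commute (Φ g) (R q) := by
    intro g q
    have hg : g ∈ Subgroup.closure ((A : Set G) ∪ B) := by
      rw [← Subgroup.sup_eq_closure, hamg.gen]; trivial
    induction hg using Subgroup.closure_induction with
    | mem x hx =>
      apply Equiv.ext
      intro y
      rcases hx with hx | hx
      · have e1 := hΦa ⟨x, hx⟩
        show Φ x (R q y) = R q (Φ x y)
        rw [show Φ x = ΦA ⟨x, hx⟩ from e1, hR, hR, hΦA, hΦA]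
        exact Prod.ext rfl (mul_assoc _ _ _).symm
      · have e1 := hΦb ⟨x, hx⟩
        show Φ x (R q y) = R q (Φ x y)
        rw [show Φ x = ΦB ⟨x, hx⟩ from e1, hR, hR, hΦB, hΦB]
        exact Prod.ext rfl (mul_assoc _ _ _).symm
    | one => rw [map_one]; exact Commute.one_left _
    | mul x y _ _ hx hy => rw [map_mul]; exact Commute.mul_left hx hy
    | inv x _ hx => rw [map_inv]; exact Commute.inv_left hx
  have heq : ∀ (g : G) (y : Y) (p q : P), Φ g (y, p * q) = ((Φ g (y, p)).1, (Φ g (y, p)).2 * q) := by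
    intro g y p q
    have := DFunLike.congr_fun (hcomm g q).eq (y, p)
    exact this
  have hfst : ∀ g : G, ∃ a : A, π g = π a ∧ ∀ x, (Φ g x).1 = a • x.1 := by
    intro g
    have hg : g ∈ Subgroup.closure ((A : Set G) ∪ B) := by
      rw [← Subgroup.sup_eq_closure, hamg.gen]; trivial
    induction hg using Subgroup.closure_induction with
    | mem x hx =>
      rcases hx with hx | hx
      · refine ⟨⟨x, hx⟩, rfl, fun y => ?_⟩
        rw [show Φ x = ΦA ⟨x, hx⟩ from hΦa ⟨x, hx⟩, hΦA]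
      · refine ⟨1, ?_, fun y => ?_⟩
        · rw [hπB x hx, Subgroup.coe_one, map_one]
        · rw [show Φ x = ΦB ⟨x, hx⟩ from hΦb ⟨x, hx⟩, hΦB, one_smul]
    | one => exact ⟨1, by simp, fun y => by rw [map_one, one_smul]; rfl⟩
    | mul x y _ _ hx hy =>
      obtain ⟨a, ha, hax⟩ := hx
      obtain ⟨b, hb, hbx⟩ := hy
      refine ⟨a * b, by rw [map_mul, ha, hb, Subgroup.coe_mul, map_mul], fun z => ?_⟩
      rw [map_mul, mul_smul, ← hbx, ← hax]
      rfl
    | inv x _ hx =>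
      obtain ⟨a, ha, hax⟩ := hx
      refine ⟨a⁻¹, by rw [map_inv, ha, Subgroup.coe_inv, map_inv], fun z => ?_⟩
      have h1 := hax (Φ x⁻¹ z)
      have h2 : Φ x (Φ x⁻¹ z) = z := by
        rw [map_inv]; exact Equiv.apply_symm_apply _ _
      rw [h2] at h1
      rw [h1, inv_smul_smul]
  let H : Subgroup G := (D.map π).comap π
  let y0 : Y := ((1 : A) : A ⧸ D.subgroupOf A)
  have hfix : ∀ (g : G), g ∈ H → ∀ p : P, (Φ g (y0, p)).1 = y0 := by
    intro g hg p
    obtain ⟨a, ha, hax⟩ := hfst g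
    rw [hax]
    obtain ⟨d, hd, hdg⟩ := hg
    show a • y0 = y0
    show ((a * 1 : A) : A ⧸ D.subgroupOf A) = ((1 : A) : A ⧸ D.subgroupOf A)
    rw [mul_one, QuotientGroup.eq, mul_one]
    show (a : G)⁻¹ ∈ D
    have h1 : (a : G)⁻¹ * d ∈ K := by
      apply hπA _ (A.mul_mem (A.inv_mem a.2) (hDA hd))
      rw [map_mul, map_inv, hdg, ha, inv_mul_cancel]
    have h2 := D.mul_mem (hKD h1) (D.inv_mem hd)
    rwa [mul_inv_cancel_right] at h2
  let f0 : H →* P :=
    { toFun := fun g => (Φ g (y0, 1)).2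
      map_one' := by
        show (Φ ((1 : H) : G) (y0, 1)).2 = 1
        rw [Subgroup.coe_one, map_one]; rfl
      map_mul' := fun g g' => by
        show (Φ ((g * g' : H) : G) (y0, 1)).2 = (Φ g (y0, 1)).2 * (Φ g' (y0, 1)).2
        rw [Subgroup.coe_mul, map_mul]
        have h1 : Φ (g' : G) (y0, 1) = (y0, 1 * (Φ (g' : G) (y0, 1)).2) :=
          Prod.ext (hfix g' g'.2 1) (one_mul _).symm
        show (Φ (g : G) (Φ (g' : G) (y0, 1))).2 = _
        rw [h1, heq, one_mul] }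
  let f : H →* P × Q := f0.prod (π.comp H.subtype)
  have hfB : ∀ (g : G), ∀ b ∈ B, ∀ h : g * b * g⁻¹ ∈ H, f ⟨_, h⟩ = 1 → b = 1 := by
    intro g b hb hm h1
    have h2 : (Φ (g * b * g⁻¹) (y0, 1)).2 = 1 := congrArg Prod.fst h1
    obtain ⟨y, q, hyq⟩ : ∃ y q, Φ g⁻¹ (y0, 1) = (y, q) := ⟨_, _, rfl⟩
    have h3 : Φ g (y, q) = (y0, 1) := by
      rw [← hyq, map_inv]; exact Equiv.apply_symm_apply _ _
    have h4 : Φ b (y, q) = (y, j (s y) ⟨b, hb⟩ * q) := by
      rw [show Φ b = ΦB ⟨b, hb⟩ from hΦb ⟨b, hb⟩, hΦB]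
    have h5 : Φ (g * b * g⁻¹) (y0, 1) = (y0, 1 * (q⁻¹ * j (s y) ⟨b, hb⟩ * q)) := by
      rw [map_mul, map_mul]
      show Φ g (Φ b (Φ g⁻¹ (y0, 1))) = _
      rw [hyq, h4]
      have h6 : j (s y) ⟨b, hb⟩ * q = q * (q⁻¹ * j (s y) ⟨b, hb⟩ * q) := by group
      rw [h6, heq, h3]
    rw [h5] at h2
    have h7 : q⁻¹ * j (s y) ⟨b, hb⟩ * q = 1 := by simpa using h2
    have h8 : j (s y) ⟨b, hb⟩ = 1 := by
      have : j (s y) ⟨b, hb⟩ = q * (q⁻¹ * j (s y) ⟨b, hb⟩ * q) * q⁻¹ := by group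
      rw [this, h7, mul_one, mul_inv_cancel]
    have h9 : (⟨b, hb⟩ : B) = 1 := hji (s y) (h8.trans (map_one _).symm)
    exact congrArg Subtype.val h9
  have hfA : ∀ (g : G), ∀ a ∈ A, ∀ h : g * a * g⁻¹ ∈ H, f ⟨_, h⟩ = 1 → a = 1 := by
    intro g a ha hm h1
    have h2 : π (g * a * g⁻¹) = 1 := congrArg Prod.snd h1
    have h3 : π a = 1 := by
      rw [map_mul, map_mul, map_inv] at h2
      have h4 := conj_eq_one_iff.1 h2
      exact h4
    exact hfB g a (hamg.le_right (hπA a ha h3)) hm h1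
  exact sub_am hC hamg H f hfA hfB (hC.base.prod _ _ hP hQ)

end ind

section main

variable {G : Type} [Group G] {A B K : Subgroup G}

/-- conjugation by `a` on `K` -/
def conjK (K : Subgroup G) (a : G) (h1 : ∀ k ∈ K, a * k * a⁻¹ ∈ K) (h2 : ∀ k ∈ K, a⁻¹ * k * a ∈ K) :
    MulAut K where
  toFun k := ⟨a * k * a⁻¹, h1 k k.2⟩
  invFun k := ⟨a⁻¹ * k * a, h2 k k.2⟩
  left_inv k := Subtype.ext (by show a⁻¹ * (a * k * a⁻¹) * a = k; group)
  right_inv k := Subtype.ext (by show a * (a⁻¹ * k * a) * a⁻¹ = k; group)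
  map_mul' k l := Subtype.ext (by
    show a * ((k * l : K) : G) * a⁻¹ = (a * k * a⁻¹) * (a * l * a⁻¹)
    rw [Subgroup.coe_mul]; group)

/-- **amalgamated products over a normal subgroup of one factor** -/
theorem normal_am {C : ∀ (G : Type) [Group G], Prop} (hC : ClosedE C) (hamg : Amg A B K)
    (hN : (K.subgroupOf A).Normal) (hQ : C (A ⧸ K.subgroupOf A))
    (hβ : ∀ a ∈ A, ∃ β : MulAut B, (∀ (k : G) (hk : k ∈ K), (β ⟨k, hamg.le_right hk⟩ : G) = a * k * a⁻¹) ∧
      C (SZ β)) : C G := by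
  classical
  have hN' : ∀ a ∈ A, ∀ k ∈ K, a * k * a⁻¹ ∈ K := fun a ha k hk =>
    hN.conj_mem ⟨k, hamg.le_left hk⟩ hk ⟨a, ha⟩
  have hN'' : ∀ a ∈ A, ∀ k ∈ K, a⁻¹ * k * a ∈ K := fun a ha k hk => by
    have := hN' a⁻¹ (A.inv_mem ha) k hk
    rwa [inv_inv] at this
  choose! β hβk hβC using hβ
  have hCB : C B := hC.base.of_injective _ _ (SemidirectProduct.inl : B →* SZ (β 1))
    SemidirectProduct.inl_injective (hβC 1 A.one_mem)
  obtain ⟨π, hπA', hπB'⟩ := hamg.univ (A ⧸ K.subgroupOf A) (QuotientGroup.mk' _) 1 (by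
    intro c hc
    exact (QuotientGroup.eq_one_iff _).2 hc)
  have hπA : ∀ a ∈ A, π a = 1 → a ∈ K := by
    intro a ha h1
    rw [hπA' ⟨a, ha⟩] at h1
    exact (QuotientGroup.eq_one_iff (N := K.subgroupOf A) ⟨a, ha⟩).1 h1
  have hπK : ∀ k ∈ K, π k = 1 := by
    intro k hk
    rw [hπA' ⟨k, hamg.le_left hk⟩]
    exact (QuotientGroup.eq_one_iff _).2 hk
  have hπB : ∀ b ∈ B, π b = 1 := fun b hb => hπB' ⟨b, hb⟩
  have hβinv : ∀ (a : A) (k : G) (hk : k ∈ K),
      (((β a)⁻¹ ⟨k, hamg.le_right hk⟩ : B) : G) = (a : G)⁻¹ * k * a := by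
    intro a k hk
    have h1 : (β a) ⟨(a : G)⁻¹ * k * a, hamg.le_right (hN'' a a.2 k hk)⟩ = ⟨k, hamg.le_right hk⟩ := by
      apply Subtype.ext
      rw [hβk a a.2 _ (hN'' a a.2 k hk)]
      group
    rw [← h1, MulAut.inv_apply_self]
  -- the kernel
  have hCN : C (π.ker : Subgroup G) := by
    have h1 := ind_am hC hamg hN' hQ π hπA hπB K le_rfl hamg.le_left hCB
      (Subgroup.inclusion hamg.le_right) (fun a => ((β a)⁻¹).toMonoidHom)
      (fun a => ((β a)⁻¹).injective) (by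
        intro a k hk hk'
        apply Subtype.ext
        show (((β a)⁻¹ ⟨k, hamg.le_right hk⟩ : B) : G) = _
        rw [hβinv a k hk]
        rfl)
    have h2 : (K.map π).comap π = π.ker := by
      rw [Subgroup.comap_map_eq]
      apply sup_eq_right.2
      intro k hk
      exact hπK k hk
    rwa [h2] at h1
  refine Pool.Agent.Y529.FJ.t_ext C hC G π.ker hCN ?_ ?_
  · exact hC.base.of_injective _ _ (QuotientGroup.kerLift π) (QuotientGroup.kerLift_injective π) hQ
  · intro g hg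
    have hsurj : ∀ g : G, ∃ a ∈ A, π g = π a := by
      intro g
      obtain ⟨a, ha⟩ := QuotientGroup.mk_surjective (π g)
      exact ⟨a, a.2, by rw [hπA' a]; exact ha.symm⟩
    obtain ⟨a, ha, hga⟩ := hsurj g
    have hnz : ∀ n : ℤ, a ^ n ∈ K → n = 0 := by
      intro n hn
      by_contra h0
      have h1 : π (g ^ n) = 1 := by
        rw [map_zpow, hga, ← map_zpow]; exact hπK _ hn
      have h2 : g ^ n ∈ π.ker := h1
      have h3 : g ^ n.natAbs ∈ π.ker := by
        rcases Int.natAbs_eq n with h | h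
        · rw [h, zpow_natCast] at h2; exact h2
        · rw [h, zpow_neg, zpow_natCast] at h2
          exact inv_mem_iff.1 h2
      exact hg _ (Int.natAbs_pos.2 h0) h3
    let D : Subgroup G := K ⊔ Subgroup.zpowers a
    have hKD : K ≤ D := le_sup_left
    have haD : a ∈ D := (le_sup_right : Subgroup.zpowers a ≤ D) (Subgroup.mem_zpowers a)
    have hDA : D ≤ A := sup_le hamg.le_left (by rw [Subgroup.zpowers_le]; exact ha)
    let σ : MulAut K := conjK K a (hN' a ha) (hN'' a ha)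
    have hψ0 : ∀ n, (⟨a, haD⟩ : D) * Subgroup.inclusion hKD n * (⟨a, haD⟩ : D)⁻¹ =
        Subgroup.inclusion hKD (σ n) := fun n => Subtype.ext rfl
    let ψ : SZ σ →* D := liftZ σ (Subgroup.inclusion hKD) ⟨a, haD⟩ hψ0
    have hψ : ∀ x : SZ σ, ((ψ x : D) : G) = (x.left : G) * a ^ (Multiplicative.toAdd x.right) := by
      intro x
      have h1 : ψ x = ψ (SemidirectProduct.inl x.left) * ψ (SemidirectProduct.inr x.right) := by
        rw [← map_mul, SemidirectProduct.inl_left_mul_inr_right]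
      rw [h1, Subgroup.coe_mul]
      have h2 : ψ (SemidirectProduct.inl x.left) = Subgroup.inclusion hKD x.left := liftZ_inl _ _ _ _ _
      have h3 : ψ (SemidirectProduct.inr x.right) = (⟨a, haD⟩ : D) ^ (Multiplicative.toAdd x.right) :=
        liftZ_inr _ _ _ _ _
      rw [h2, h3, Subgroup.coe_zpow]
      rfl
    have hψi : Function.Injective ψ := by
      rw [injective_iff_map_eq_one]
      intro x hx
      have h1 := hψ x
      rw [hx, Subgroup.coe_one] at h1
      have h2 : a ^ (Multiplicative.toAdd x.right) = (x.left : G)⁻¹ := by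
        exact eq_inv_of_mul_eq_one_right h1.symm
      have h5 : Multiplicative.toAdd x.right = 0 := hnz _ (by rw [h2]; exact K.inv_mem x.left.2)
      rw [h5, zpow_zero, mul_one] at h1
      exact SemidirectProduct.ext (Subtype.ext h1.symm) h5
    have hψs : Function.Surjective ψ := by
      rintro ⟨d, hd⟩
      have h1 : D ≤ ψ.range.map D.subtype := by
        refine sup_le ?_ ?_
        · intro k hk
          refine ⟨⟨k, hKD hk⟩, ⟨SemidirectProduct.inl ⟨k, hk⟩, ?_⟩, rfl⟩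
          exact liftZ_inl _ _ _ _ _
        · rw [Subgroup.zpowers_le]
          exact ⟨⟨a, haD⟩, ⟨tZ σ, liftZ_t _ _ _ _⟩, rfl⟩
      obtain ⟨d', ⟨x, hx⟩, hd'⟩ := h1 hd
      exact ⟨x, hx.trans (Subtype.ext hd')⟩
    let e : SZ σ ≃* D := MulEquiv.ofBijective ψ ⟨hψi, hψs⟩
    let m : SZ σ →* SZ (β a) := mapZ σ (β a) (Subgroup.inclusion hamg.le_right) (by
      intro n
      apply Subtype.ext
      rw [show (Subgroup.inclusion hamg.le_right n) = (⟨(n : G), hamg.le_right n.2⟩ : B) from rfl,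
        hβk a ha n n.2]
      rfl)
    have h1 := ind_am hC hamg hN' hQ π hπA hπB D hKD hDA (hβC a ha) (m.comp e.symm.toMonoidHom)
      (fun a' => (SemidirectProduct.inl : B →* SZ (β a)).comp ((β a')⁻¹).toMonoidHom)
      (fun a' => SemidirectProduct.inl_injective.comp ((β a')⁻¹).injective) (by
        intro a' k hk hk'
        have h2 := hN'' a' a'.2 k hk
        have h3 : e.symm ⟨(a' : G)⁻¹ * k * a', hk'⟩ = SemidirectProduct.inl ⟨(a' : G)⁻¹ * k * a', h2⟩ := by
          rw [MulEquiv.symm_apply_eq]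
          symm
          exact liftZ_inl σ (Subgroup.inclusion hKD) ⟨a, haD⟩ hψ0 ⟨(a' : G)⁻¹ * k * a', h2⟩
        show (SemidirectProduct.inl ((β a')⁻¹ ⟨k, hamg.le_right hk⟩) : SZ (β a)) =
          m (e.symm ⟨(a' : G)⁻¹ * k * a', hk'⟩)
        rw [h3]
        have h4 : m (SemidirectProduct.inl ⟨(a' : G)⁻¹ * k * a', h2⟩) = SemidirectProduct.inl
            (Subgroup.inclusion hamg.le_right ⟨(a' : G)⁻¹ * k * a', h2⟩) := mapZ_inl _ _ _ _ _
        rw [h4]
        congr 1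
        apply Subtype.ext
        rw [hβinv a' k hk]
        rfl)
    have h2 : (D.map π).comap π = π.ker ⊔ Subgroup.zpowers g := by
      rw [sup_comm, ← Subgroup.comap_map_eq, MonoidHom.map_zpowers, hga, Subgroup.map_sup,
        MonoidHom.map_zpowers]
      congr 1
      apply sup_eq_right.2
      rintro _ ⟨k, hk, rfl⟩
      rw [hπK k hk]
      exact Subgroup.one_mem _
    rwa [h2] at h1

end main

end Pool.Agent.X176.FJ
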