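import Mathlib
import Pool.Agent.Y110.KW.Pres

/-!
Relative graph products: definition.
-/

set_option autoImplicit false

namespace Pool.Agent.X176.FJ

open Monoid

variable {V : Type} (Λ : SimpleGraph V) (P : V → Type) [∀ v, Group (P v)] (K : ∀ v, Subgroup (P v))

/-- the relation which says that `k` and `l` commute -/
def comRel {P : V → Type} [∀ v, Group (P v)] (v w : V) (k : P v) (l : P w) : CoprodI P :=
  CoprodI.of k * CoprodI.of l * (CoprodI.of k)⁻¹ * (CoprodI.of l)⁻¹

/-- the relations: `K v` commutes with `K w` if `v` and `w` are adjacent -/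
def rgR : Set (CoprodI P) :=
  {r | ∃ (v w : V) (k : P v) (l : P w), Λ.Adj v w ∧ k ∈ K v ∧ l ∈ K w ∧ r = comRel v w k l}

/-- the relative graph product of the pairs `(P v, K v)` -/
abbrev RG : Type := Pool.Agent.Y110.KW.Quo (rgR Λ P K)

end Pool.Agent.X176.FJ
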