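import Mathlib
import Pool.Agent.X176.FJ.Retr
import Pool.Agent.X176.FJ.RgpDef

/-!
Free products with commuting subgroups and relative graph products.
-/

set_option autoImplicit false

namespace Pool.Agent.X176.FJ

open Pool.Agent.Y110.FJ
open Pool.Agent.Y462.SS (Closed)
open Monoid

section fpc

variable {A B : Type} [Group A] [Group B] (K : Subgroup A) (L : Subgroup B)

/-- the relations: `K` commutes with `L` -/
def cR : Set (Coprod A B) :=
  {r | ∃ k ∈ K, ∃ l ∈ L, r = Coprod.inl k * Coprod.inr l * (Coprod.inl k)⁻¹ * (Coprod.inr l)⁻¹}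

/-- the free product of `A` and `B` with commuting subgroups `K` and `L` -/
abbrev FP : Type := Coprod A B ⧸ Subgroup.normalClosure (cR K L)

/-- the factor `A` -/
def fpA : A →* FP K L := (QuotientGroup.mk' _).comp Coprod.inl

/-- the factor `B` -/
def fpB : B →* FP K L := (QuotientGroup.mk' _).comp Coprod.inr

theorem fp_comm {k : A} {l : B} (hk : k ∈ K) (hl : l ∈ L) : Commute (fpA K L k) (fpB K L l) := by
  have h : (QuotientGroup.mk (Coprod.inl k * Coprod.inr l * (Coprod.inl k)⁻¹ * (Coprod.inr l)⁻¹) :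
      FP K L) = 1 := (QuotientGroup.eq_one_iff _).2 (Subgroup.subset_normalClosure ⟨k, hk, l, hl, rfl⟩)
  have h2 : fpA K L k * fpB K L l * (fpA K L k)⁻¹ * (fpB K L l)⁻¹ = 1 := h
  show fpA K L k * fpB K L l = fpB K L l * fpA K L k
  rw [mul_inv_eq_one, mul_inv_eq_iff_eq_mul] at h2
  exact h2

variable {H : Type} [Group H]

/-- homomorphisms -/
def fpLift (u : A →* H) (v : B →* H) (h : ∀ k ∈ K, ∀ l ∈ L, Commute (u k) (v l)) : FP K L →* H :=
  QuotientGroup.lift _ (Coprod.lift u v) (by
    intro x hx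
    have h1 : Subgroup.normalClosure (cR K L) ≤ (Coprod.lift u v).ker := by
      apply Subgroup.normalClosure_le_normal
      rintro _ ⟨k, hk, l, hl, rfl⟩
      show Coprod.lift u v _ = 1
      simp only [map_mul, map_inv, Coprod.lift_apply_inl, Coprod.lift_apply_inr]
      rw [(h k hk l hl).eq]
      group
    exact h1 hx)

theorem fpLift_A (u : A →* H) (v : B →* H) (h : ∀ k ∈ K, ∀ l ∈ L, Commute (u k) (v l)) (a : A) :
    fpLift K L u v h (fpA K L a) = u a := Coprod.lift_apply_inl u v a
theorem fpLift_B (u : A →* H) (v : B →* H) (h : ∀ k ∈ K, ∀ l ∈ L, Commute (u k) (v l)) (b : B) :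
    fpLift K L u v h (fpB K L b) = v b := Coprod.lift_apply_inr u v b

theorem fp_ext {f g : FP K L →* H} (h1 : ∀ a, f (fpA K L a) = g (fpA K L a))
    (h2 : ∀ b, f (fpB K L b) = g (fpB K L b)) : f = g := by
  apply QuotientGroup.monoidHom_ext
  apply Coprod.hom_ext
  · ext a; exact h1 a
  · ext b; exact h2 b

theorem fp_gen : (fpA K L).range ⊔ (fpB K L).range = ⊤ := by
  rw [eq_top_iff]
  rintro x -
  obtain ⟨y, rfl⟩ := QuotientGroup.mk_surjective x
  induction y using Coprod.induction_on with
  | inl a => exact (le_sup_left : (fpA K L).range ≤ _) ⟨a, rfl⟩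
  | inr b => exact (le_sup_right : (fpB K L).range ≤ _) ⟨b, rfl⟩
  | mul x y hx hy => exact Subgroup.mul_mem _ hx hy

/-- the projection to the direct product -/
def fpP : FP K L →* A × B := fpLift K L (MonoidHom.inl A B) (MonoidHom.inr A B)
  (fun _ _ _ _ => Prod.ext (by simp) (by simp))

theorem fpP_A (a : A) : fpP K L (fpA K L a) = (a, 1) := fpLift_A _ _ _ _ _ _
theorem fpP_B (b : B) : fpP K L (fpB K L b) = (1, b) := fpLift_B _ _ _ _ _ _

theorem fpA_inj : Function.Injective (fpA K L) := by
  intro a b hab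
  have := congrArg (fpP K L) hab
  rw [fpP_A, fpP_A] at this
  exact congrArg Prod.fst this

theorem fpB_inj : Function.Injective (fpB K L) := by
  intro a b hab
  have := congrArg (fpP K L) hab
  rw [fpP_B, fpP_B] at this
  exact congrArg Prod.snd this

/-- the amalgamated decomposition -/
theorem fp_amg :
    Amg ((fpA K L).range ⊔ L.map (fpB K L)) (fpB K L).range (L.map (fpB K L)) where
  le_left := le_sup_right
  le_right := by rintro _ ⟨l, _, rfl⟩; exact ⟨l, rfl⟩
  gen := by
    rw [eq_top_iff, ← fp_gen K L]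
    exact sup_le (le_sup_left.trans le_sup_left) le_sup_right
  univ := by
    intro H _ f g hfg
    have hA : ∀ a, fpA K L a ∈ (fpA K L).range ⊔ L.map (fpB K L) := fun a =>
      (le_sup_left : (fpA K L).range ≤ _) ⟨a, rfl⟩
    have hL : ∀ l ∈ L, fpB K L l ∈ (fpA K L).range ⊔ L.map (fpB K L) := fun l hl =>
      (le_sup_right : L.map (fpB K L) ≤ _) ⟨l, hl, rfl⟩
    let u : A →* H := f.comp ((fpA K L).codRestrict _ hA)
    let v : B →* H := g.comp (fpB K L).rangeRestrict
    have hv : ∀ (l : B) (hl : l ∈ L), v l = f ⟨fpB K L l, hL l hl⟩ := fun l hl =>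
      (hfg (fpB K L l) ⟨l, hl, rfl⟩).symm
    have hcomm : ∀ k ∈ K, ∀ l ∈ L, Commute (u k) (v l) := by
      intro k hk l hl
      rw [hv l hl]
      show Commute (f ⟨fpA K L k, hA k⟩) (f ⟨fpB K L l, hL l hl⟩)
      exact (show Commute (⟨fpA K L k, hA k⟩ : ↥((fpA K L).range ⊔ L.map (fpB K L)))
        ⟨fpB K L l, hL l hl⟩ from Subtype.ext (fp_comm K L hk hl).eq).map f
    let F : FP K L →* H := fpLift K L u v hcomm
    refine ⟨F, ?_, ?_⟩
    · have key : (fpA K L).range ⊔ L.map (fpB K L) ≤
          ((F.comp ((fpA K L).range ⊔ L.map (fpB K L)).subtype).eqLocus f).map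
            ((fpA K L).range ⊔ L.map (fpB K L)).subtype := by
        refine sup_le ?_ ?_
        · rintro _ ⟨a, rfl⟩
          exact ⟨⟨fpA K L a, hA a⟩, fpLift_A K L u v hcomm a, rfl⟩
        · rintro _ ⟨l, hl, rfl⟩
          exact ⟨⟨fpB K L l, hL l hl⟩, (fpLift_B K L u v hcomm l).trans (hv l hl), rfl⟩
      rintro ⟨a, ha⟩
      obtain ⟨⟨a', ha'⟩, h1, h2⟩ := key ha
      have h3 : a' = a := h2
      subst h3
      exact h1
    · rintro ⟨_, b, rfl⟩
      exact fpLift_B K L u v hcomm b

/-- the case in which all of `A` commutes with `L` -/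
theorem c_fp_top {C : ∀ (G : Type) [Group G], Prop} (hC : ClosedE C) (hK : K = ⊤) (hA : C A) (hB : C B) :
    C (FP K L) := by
  refine am C hC (FP K L) (A × B) _ _ _ (fp_amg K L) (fpP K L) ?_ ?_ (hC.base.prod _ _ hA hB)
  · have key : (fpA K L).range ⊔ L.map (fpB K L) ≤
        { carrier := {x | ∃ a, ∃ l ∈ L, x = fpA K L a * fpB K L l}
          one_mem' := ⟨1, 1, L.one_mem, by simp⟩
          mul_mem' := by
            rintro _ _ ⟨a, l, hl, rfl⟩ ⟨b, m, hm, rfl⟩
            refine ⟨a * b, l * m, L.mul_mem hl hm, ?_⟩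
            have h1 : Commute (fpA K L b) (fpB K L l) := fp_comm K L (by rw [hK]; trivial) hl
            rw [map_mul, map_mul, mul_assoc, mul_assoc, ← mul_assoc (fpB K L l), ← h1.eq]
            simp only [mul_assoc]
          inv_mem' := by
            rintro _ ⟨a, l, hl, rfl⟩
            refine ⟨a⁻¹, l⁻¹, L.inv_mem hl, ?_⟩
            have h1 : Commute (fpA K L a) (fpB K L l) := fp_comm K L (by rw [hK]; trivial) hl
            rw [h1.eq, mul_inv_rev, map_inv, map_inv] : Subgroup (FP K L)} := by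
      refine sup_le ?_ ?_
      · rintro _ ⟨a, rfl⟩
        exact ⟨a, 1, L.one_mem, by simp⟩
      · rintro _ ⟨l, hl, rfl⟩
        exact ⟨1, l, hl, by simp⟩
    intro x hx hx1
    obtain ⟨a, l, hl, rfl⟩ := key hx
    rw [map_mul, fpP_A, fpP_B] at hx1
    have h1 : a = 1 := by simpa using congrArg Prod.fst hx1
    have h2 : l = 1 := by simpa using congrArg Prod.snd hx1
    rw [h1, h2, map_one, map_one, one_mul]
  · rintro _ ⟨b, rfl⟩ hx1
    rw [fpP_B] at hx1
    have h2 : b = 1 := congrArg Prod.snd hx1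
    rw [h2, map_one]

/-- exchange of the factors -/
def fpSwap : FP K L →* FP L K := fpLift K L (fpB L K) (fpA L K)
  (fun _ hk _ hl => (fp_comm L K hl hk).symm)

theorem fpSwap_A (a : A) : fpSwap K L (fpA K L a) = fpB L K a := fpLift_A _ _ _ _ _ _
theorem fpSwap_B (b : B) : fpSwap K L (fpB K L b) = fpA L K b := fpLift_B _ _ _ _ _ _

theorem fpSwap_swap (x : FP K L) : fpSwap L K (fpSwap K L x) = x := by
  have : (fpSwap L K).comp (fpSwap K L) = MonoidHom.id _ := by
    apply fp_ext
    · intro a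
      show fpSwap L K (fpSwap K L (fpA K L a)) = fpA K L a
      rw [fpSwap_A, fpSwap_B]
    · intro b
      show fpSwap L K (fpSwap K L (fpB K L b)) = fpB K L b
      rw [fpSwap_B, fpSwap_A]
  exact DFunLike.congr_fun this x

theorem fpSwap_inj : Function.Injective (fpSwap K L) := by
  intro x y h
  rw [← fpSwap_swap K L x, h, fpSwap_swap]

/-- the case in which all of `B` commutes with `K` -/
theorem c_fp_top' {C : ∀ (G : Type) [Group G], Prop} (hC : ClosedE C) (hL : L = ⊤) (hA : C A) (hB : C B) :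
    C (FP K L) :=
  hC.base.of_injective _ _ (fpSwap K L) (fpSwap_inj K L) (c_fp_top L K hC hL hB hA)

/-- a family of two types -/
def Fm (X Y : Type) : Bool → Type
  | true => X
  | false => Y

instance FmGrp (X Y : Type) [Group X] [Group Y] : ∀ b, Group (Fm X Y b)
  | true => inferInstanceAs (Group X)
  | false => inferInstanceAs (Group Y)

/-- the inclusions of the amalgamated subgroup -/
def Fmφ {X Y Z : Type} [Group X] [Group Y] [Group Z] (i : Z →* X) (j : Z →* Y) : ∀ b, Z →* Fm X Y b
  | true => i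
  | false => j

/-- the part of the group generated by `A` and `L` -/
def fpM : FP K (⊤ : Subgroup L) →* FP K L :=
  fpLift K ⊤ (fpA K L) ((fpB K L).comp L.subtype) (fun _ hk l _ => fp_comm K L hk l.2)

theorem fpM_inj : Function.Injective (fpM K L) := by
  let i : L →* B := L.subtype
  let j : L →* FP K (⊤ : Subgroup L) := fpB K ⊤
  let φ := Fmφ i j
  have hφ : ∀ b, Function.Injective (φ b) := by
    intro b
    cases b with
    | true => exact L.subtype_injective
    | false => exact fpB_inj K ⊤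
  let oB : B →* PushoutI φ := PushoutI.of (φ := φ) true
  let oM : FP K (⊤ : Subgroup L) →* PushoutI φ := PushoutI.of (φ := φ) false
  have hoM : Function.Injective oM := PushoutI.of_injective hφ false
  have hag : ∀ l : L, oB l = oM (fpB K ⊤ l) := by
    intro l
    have e1 : PushoutI.of (φ := φ) true (φ true l) = PushoutI.base φ l :=
      PushoutI.of_apply_eq_base φ true _
    have e2 : PushoutI.of (φ := φ) false (φ false l) = PushoutI.base φ l :=
      PushoutI.of_apply_eq_base φ false _
    exact e1.trans e2.symm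
  let u : FP K L →* PushoutI φ := fpLift K L (oM.comp (fpA K ⊤)) oB (by
    intro k hk l hl
    have h1 := hag ⟨l, hl⟩
    rw [show oB l = oM (fpB K ⊤ ⟨l, hl⟩) from h1]
    exact (fp_comm K (⊤ : Subgroup L) hk (Subgroup.mem_top _)).map oM)
  have hu : u.comp (fpM K L) = oM := by
    apply fp_ext
    · intro a
      show u (fpM K L (fpA K ⊤ a)) = _
      rw [fpM, fpLift_A]
      exact fpLift_A _ _ _ _ _ a
    · intro l
      show u (fpM K L (fpB K ⊤ l)) = _
      rw [fpM, fpLift_B]
      exact (fpLift_B _ _ _ _ _ (l : B)).trans (hag l)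
  intro x y h
  apply hoM
  rw [← hu]
  exact congrArg u h

/-- **free products with commuting subgroups** -/
theorem c_fp {C : ∀ (G : Type) [Group G], Prop} (hC : ClosedE C) (hA : C A) (hB : C B) :
    C (FP K L) := by
  let M : Subgroup (FP K L) := (fpA K L).range ⊔ L.map (fpB K L)
  have hM : M ≤ (fpM K L).range := by
    refine sup_le ?_ ?_
    · rintro _ ⟨a, rfl⟩
      exact ⟨fpA K ⊤ a, fpLift_A _ _ _ _ _ a⟩
    · rintro _ ⟨l, hl, rfl⟩
      exact ⟨fpB K ⊤ ⟨l, hl⟩, fpLift_B _ _ _ _ _ _⟩
  have hCM1 : C (FP K (⊤ : Subgroup L)) := c_fp_top' K ⊤ hC rfl hA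
    (hC.base.of_injective _ _ L.subtype L.subtype_injective hB)
  have hCM : C M := by
    let e := MonoidHom.ofInjective (fpM_inj K L)
    refine hC.base.of_injective _ _ (e.symm.toMonoidHom.comp (Subgroup.inclusion hM)) ?_ hCM1
    exact e.symm.injective.comp (Subgroup.inclusion_injective hM)
  -- the retraction
  have hr : ∀ x ∈ M, (fpP K L x).2 ∈ L := by
    intro x hx
    have h1 : M ≤ (L.comap ((MonoidHom.snd A B).comp (fpP K L))) := by
      refine sup_le ?_ ?_
      · rintro _ ⟨a, rfl⟩
        show (fpP K L (fpA K L a)).2 ∈ L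
        rw [fpP_A]; exact L.one_mem
      · rintro _ ⟨l, hl, rfl⟩
        show (fpP K L (fpB K L l)).2 ∈ L
        rw [fpP_B]; exact hl
    exact h1 hx
  let r : M →* (L.map (fpB K L) : Subgroup (FP K L)) :=
    ((fpB K L).comp ((MonoidHom.snd A B).comp ((fpP K L).comp M.subtype))).codRestrict _
      (fun x => ⟨_, hr x x.2, rfl⟩)
  refine c_retract hC (fp_amg K L) r ?_ hCM (hC.base.of_injective _ _
    (MonoidHom.ofInjective (fpB_inj K L)).symm.toMonoidHom
    (MonoidHom.ofInjective (fpB_inj K L)).symm.injective hB)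
  rintro ⟨_, l, hl, rfl⟩
  apply Subtype.ext
  show fpB K L (fpP K L (fpB K L l)).2 = fpB K L l
  rw [fpP_B]

end fpc

section rg

open Pool.Agent.Y110.KW (Quo IsLocal Linked ret ret_ret ret_finite fac ret_fac_mem ret_fac_notMem quo_ext
  quoLift mk_rel keep keep_of_mem keep_of_notMem)
open Pool.Agent.Y483.PW (Permutes Preserves qAct)

variable {V : Type} (Λ : SimpleGraph V) (P : V → Type) [∀ v, Group (P v)] (K : ∀ v, Subgroup (P v))

theorem rg_comm {v w : V} (h : Λ.Adj v w) {k : P v} {l : P w} (hk : k ∈ K v) (hl : l ∈ K w) :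
    Commute (fac (rgR Λ P K) v k) (fac (rgR Λ P K) w l) := by
  have h2 : fac (rgR Λ P K) v k * fac (rgR Λ P K) w l * (fac (rgR Λ P K) v k)⁻¹ *
      (fac (rgR Λ P K) w l)⁻¹ = 1 := mk_rel (R := rgR Λ P K) ⟨v, w, k, l, h, hk, hl, rfl⟩
  show fac (rgR Λ P K) v k * fac (rgR Λ P K) w l = fac (rgR Λ P K) w l * fac (rgR Λ P K) v k
  rw [mul_inv_eq_one, mul_inv_eq_iff_eq_mul] at h2
  exact h2

theorem rg_local : IsLocal (rgR Λ P K) := by
  rintro _ ⟨v, w, k, l, h, hk, hl, rfl⟩ S
  unfold comRel
  by_cases hv : v ∈ S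
  · by_cases hw : w ∈ S
    · left
      simp only [map_mul, map_inv, keep_of_mem hv, keep_of_mem hw]
    · right
      simp only [map_mul, map_inv, keep_of_mem hv, keep_of_notMem hw]
      group
  · right
    simp only [map_mul, map_inv, keep_of_notMem hv]
    group

variable {H : Type} [Group H]

/-- homomorphisms out of the relative graph product -/
def rgLift (u : ∀ v, P v →* H) (h : ∀ v w, Λ.Adj v w → ∀ k ∈ K v, ∀ l ∈ K w, Commute (u v k) (u w l)) :
    RG Λ P K →* H :=
  quoLift (CoprodI.lift u) (by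
    rintro _ ⟨v, w, k, l, hvw, hk, hl, rfl⟩
    unfold comRel
    simp only [map_mul, map_inv, CoprodI.lift_of]
    rw [(h v w hvw k hk l hl).eq]
    group)

theorem rgLift_fac (u : ∀ v, P v →* H)
    (h : ∀ v w, Λ.Adj v w → ∀ k ∈ K v, ∀ l ∈ K w, Commute (u v k) (u w l)) (v : V) (x : P v) :
    rgLift Λ P K u h (fac _ v x) = u v x := CoprodI.lift_of _ _

/-- transport between equal factors -/
def castH {v u : V} (h : v = u) : P v →* P u := h ▸ MonoidHom.id (P v)

theorem castH_rfl (v : V) (x : P v) : castH P (rfl : v = v) x = x := rfl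

theorem c_rg_fin {C : ∀ (G : Type) [Group G], Prop} (hC : ClosedE C) (n : ℕ) :
    ∀ (V : Type) [Finite V] (_ : Nat.card V = n) (Λ : SimpleGraph V) (P : V → Type)
      [∀ v, Group (P v)] (K : ∀ v, Subgroup (P v)), (∀ v, C (P v)) → C (RG Λ P K) := by
  induction n with
  | zero =>
    intro V _ hn Λ P _ K _
    have hV : IsEmpty V := Finite.card_eq_zero_iff.1 hn
    have h1 : MonoidHom.id (RG Λ P K) = 1 := quo_ext fun v => isEmptyElim v
    refine hC.base.of_injective _ (Multiplicative ℤ) 1 ?_ hC.base.int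
    intro x y _
    rw [show x = 1 from DFunLike.congr_fun h1 x, show y = 1 from DFunLike.congr_fun h1 y]
  | succ n ih =>
    intro V _ hn Λ P _ K hP
    classical
    have hne : Nonempty V := by
      by_contra h
      rw [not_nonempty_iff] at h
      rw [Nat.card_of_isEmpty] at hn
      omega
    obtain ⟨u⟩ := hne
    let V' : Type := {v : V // v ≠ u}
    have hcard : Nat.card V' = n := by
      have h1 : Nat.card V' + 1 = Nat.card V := by
        have := Fintype.ofFinite V
        rw [Nat.card_eq_fintype_card, Nat.card_eq_fintype_card]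
        have h2 := Fintype.card_subtype_compl (fun v : V => v = u)
        have h3 : Fintype.card {v : V // v = u} = 1 := Fintype.card_subtype_eq u
        have h4 : 0 < Fintype.card V := Fintype.card_pos_iff.2 ⟨u⟩
        rw [h3] at h2
        have h5 : Fintype.card V' = Fintype.card {v : V // ¬ v = u} := rfl
        rw [h5, h2]
        omega
      omega
    let Λ' : SimpleGraph V' := Λ.comap Subtype.val
    let P' : V' → Type := fun v => P v.1
    let _ : ∀ v, Group (P' v) := fun v => inferInstanceAs (Group (P v.1))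
    let K' : ∀ v, Subgroup (P' v) := fun v => K v.1
    have hC' : C (RG Λ' P' K') := ih V' hcard Λ' P' K' (fun v => hP v.1)
    let L : Subgroup (RG Λ' P' K') :=
      Subgroup.closure {x | ∃ v : V', Λ.Adj v.1 u ∧ ∃ k ∈ K' v, x = fac (rgR Λ' P' K') v k}
    let e : ∀ v, P v →* FP L (K u) := fun v =>
      if h : v = u then (fpB L (K u)).comp (castH P h) else (fpA L (K u)).comp (fac (rgR Λ' P' K') ⟨v, h⟩)
    have heu : ∀ x : P u, e u x = fpB L (K u) x := by
      intro x
      simp only [e, dif_pos]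
      rfl
    have hev : ∀ (v : V) (h : v ≠ u) (x : P v), e v x = fpA L (K u) (fac (rgR Λ' P' K') ⟨v, h⟩ x) := by
      intro v h x
      simp only [e, dif_neg h]
      rfl
    have hL : ∀ (v : V) (h : v ≠ u), Λ.Adj v u → ∀ k ∈ K v, fac (rgR Λ' P' K') ⟨v, h⟩ k ∈ L :=
      fun v h hvu k hk => Subgroup.subset_closure ⟨⟨v, h⟩, hvu, k, hk, rfl⟩
    let F : RG Λ P K →* FP L (K u) := rgLift Λ P K e (by
      intro v w hvw k hk l hl
      by_cases hv : v = u
      · subst hv
        have hw : w ≠ v := hvw.ne'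
        rw [heu, hev w hw]
        exact (fp_comm L (K v) (hL w hw hvw.symm l hl) hk).symm
      · by_cases hw : w = u
        · subst hw
          rw [heu, hev v hv]
          exact fp_comm L (K w) (hL v hv hvw k hk) hl
        · rw [hev v hv, hev w hw]
          exact (rg_comm Λ' P' K' (v := ⟨v, hv⟩) (w := ⟨w, hw⟩) hvw hk hl).map _)
    let ι : RG Λ' P' K' →* RG Λ P K := rgLift Λ' P' K' (fun v => fac (rgR Λ P K) v.1)
      (fun v w hvw k hk l hl => rg_comm Λ P K hvw hk hl)
    let G : FP L (K u) →* RG Λ P K := fpLift L (K u) ι (fac (rgR Λ P K) u) (by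
      intro x hx l hl
      have h1 : L ≤ (Subgroup.centralizer {fac (rgR Λ P K) u l}).comap ι := by
        rw [Subgroup.closure_le]
        rintro _ ⟨v, hvu, k, hk, rfl⟩
        show ι _ ∈ Subgroup.centralizer _
        rw [Subgroup.mem_centralizer_singleton_iff]
        rw [show ι (fac (rgR Λ' P' K') v k) = fac (rgR Λ P K) v.1 k from rgLift_fac _ _ _ _ _ _ _]
        exact (rg_comm Λ P K hvu hk hl).eq
      have h2 := h1 hx
      exact Subgroup.mem_centralizer_singleton_iff.1 h2)
    have hGF : G.comp F = MonoidHom.id _ := by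
      apply quo_ext
      intro v x
      show G (F (fac _ v x)) = fac _ v x
      rw [show F (fac _ v x) = e v x from rgLift_fac _ _ _ _ _ _ _]
      by_cases hv : v = u
      · subst hv
        rw [heu]
        exact fpLift_B _ _ _ _ _ _
      · rw [hev v hv]
        exact (fpLift_A _ _ _ _ _ _).trans (rgLift_fac _ _ _ _ _ _ _)
    refine hC.base.of_injective _ _ F ?_ (c_fp L (K u) hC hC' (hP u))
    intro x y hxy
    have h1 := congrArg G hxy
    rw [show G (F x) = x from DFunLike.congr_fun hGF x, show G (F y) = y from DFunLike.congr_fun hGF y] at h1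
    exact h1

/-- **relative graph products** -/
theorem c_rg {C : ∀ (G : Type) [Group G], Prop} (hC : ClosedE C) (hP : ∀ v, C (P v)) :
    C (RG Λ P K) := by
  classical
  have hR := rg_local Λ P K
  apply c_loc hC.base
  intro E hE
  choose S hS using fun n : RG Λ P K => ret_finite hR n
  let T : Set V := ⋃ x ∈ E, (S x : Set V)
  have hT : T.Finite := hE.biUnion fun x _ => (S x).finite_toSet
  have : Finite T := hT
  let Λ' : SimpleGraph T := Λ.comap Subtype.val
  let P' : T → Type := fun v => P v.1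
  let _ : ∀ v, Group (P' v) := fun v => inferInstanceAs (Group (P v.1))
  let K' : ∀ v, Subgroup (P' v) := fun v => K v.1
  have hC' : C (RG Λ' P' K') := c_rg_fin hC _ T rfl Λ' P' K' (fun v => hP v.1)
  let ι : RG Λ' P' K' →* RG Λ P K := rgLift Λ' P' K' (fun v => fac (rgR Λ P K) v.1)
    (fun v w hvw k hk l hl => rg_comm Λ P K hvw hk hl)
  let e : ∀ v, P v →* RG Λ' P' K' := fun v => if h : v ∈ T then fac (rgR Λ' P' K') ⟨v, h⟩ else 1
  have he1 : ∀ (v : V) (h : v ∈ T) (x : P v), e v x = fac (rgR Λ' P' K') ⟨v, h⟩ x := by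
    intro v h x
    simp only [e, dif_pos h]
  have he2 : ∀ (v : V) (h : v ∉ T) (x : P v), e v x = 1 := by
    intro v h x
    simp only [e, dif_neg h]
    rfl
  let ρ : RG Λ P K →* RG Λ' P' K' := rgLift Λ P K e (by
    intro v w hvw k hk l hl
    by_cases hv : v ∈ T
    · by_cases hw : w ∈ T
      · rw [he1 v hv, he1 w hw]
        exact rg_comm Λ' P' K' (v := ⟨v, hv⟩) (w := ⟨w, hw⟩) hvw hk hl
      · rw [he2 w hw]; exact Commute.one_right _
    · rw [he2 v hv]; exact Commute.one_left _)
  have hιρ : ι.comp ρ = ret hR T := by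
    apply quo_ext
    intro v x
    show ι (ρ (fac _ v x)) = _
    rw [show ρ (fac _ v x) = e v x from rgLift_fac _ _ _ _ _ _ _]
    by_cases hv : v ∈ T
    · rw [he1 v hv, ret_fac_mem hR hv]
      exact rgLift_fac _ _ _ _ _ _ _
    · rw [he2 v hv, ret_fac_notMem hR hv, map_one]
  have hfix : ∀ x ∈ Subgroup.closure E, ret hR T x = x := by
    intro x hx
    have h1 : Subgroup.closure E ≤ (ret hR T).eqLocus (MonoidHom.id _) := by
      rw [Subgroup.closure_le]
      intro y hy
      show ret hR T y = y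
      have h2 : T ∩ (S y : Set V) = S y := Set.inter_eq_right.2 (Set.subset_biUnion_of_mem (u := fun x => (S x : Set V)) hy)
      conv_lhs => rw [← hS y, ret_ret, h2]
      exact hS y
    exact h1 hx
  refine hC.base.of_injective _ _ (ρ.comp (Subgroup.closure E).subtype) ?_ hC'
  intro x y hxy
  have h1 : ι (ρ (x : RG Λ P K)) = ι (ρ (y : RG Λ P K)) := congrArg ι hxy
  rw [show ι (ρ (x : RG Λ P K)) = ret hR T x from DFunLike.congr_fun hιρ _,
    show ι (ρ (y : RG Λ P K)) = ret hR T y from DFunLike.congr_fun hιρ _, hfix x x.2, hfix y y.2] at h1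
  exact Subtype.ext h1

end rg

end Pool.Agent.X176.FJ
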