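import Mathlib
import Pool.Agent.X176.FJ.CEdge
import Pool.Agent.X176.FJ.NEdge
import Pool.Agent.X176.FJ.Comm
import Pool.Agent.X176.FJ.Rgp

/-!
Amalgamated products `A *_K B` where `K` embeds in the abelianization of `B` modulo torsion and
elements of `K` are conjugate in `A` only if they are equal.
-/

set_option autoImplicit false

namespace Pool.Agent.X176.FJ

open Pool.Agent.Y110.FJ
open Pool.Agent.Y462.SS (Closed)

section chi

variable {G : Type} [Group G] {A K : Subgroup G} {D : Type} [AddCommGroup D] [Module ℚ D]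
  (ι : K →* Multiplicative D)

/-- a positive power of `s` is conjugate in `A` to an element of `K`; `x` is the root of its image -/
def Rl (A : Subgroup G) (s : G) (x : D) : Prop :=
  ∃ (i : ℕ) (a : G) (k : K), 0 < i ∧ a ∈ A ∧ a * s ^ i * a⁻¹ = k ∧
    (i : ℚ) • x = Multiplicative.toAdd (ι k)

theorem rl_unique (hsep : ∀ a ∈ A, ∀ k ∈ K, ∀ l ∈ K, a * k * a⁻¹ = l → k = l) {s : G} {x y : D}
    (hx : Rl ι A s x) (hy : Rl ι A s y) : x = y := by
  obtain ⟨i, a, k, hi, ha, hk, hx⟩ := hx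
  obtain ⟨j, b, l, hj, hb, hl, hy⟩ := hy
  have h1 : (b * a⁻¹) * ((k ^ j : K) : G) * (b * a⁻¹)⁻¹ = ((l ^ i : K) : G) := by
    rw [Subgroup.coe_pow, Subgroup.coe_pow, ← hk, ← hl, conj_pow, conj_pow, ← pow_mul, ← pow_mul,
      mul_comm i j]
    group
  have h2 : ((k ^ j : K) : G) = ((l ^ i : K) : G) :=
    hsep _ (A.mul_mem hb (A.inv_mem ha)) _ (k ^ j).2 _ (l ^ i).2 h1
  have h3 : (j : ℚ) • Multiplicative.toAdd (ι k) = (i : ℚ) • Multiplicative.toAdd (ι l) := by
    have h4 := congrArg (fun z => Multiplicative.toAdd (ι z)) (Subtype.ext h2)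
    simp only [map_pow, toAdd_pow] at h4
    rw [Nat.cast_smul_eq_nsmul, Nat.cast_smul_eq_nsmul]
    exact h4
  rw [← hx, ← hy, smul_smul, smul_smul, mul_comm] at h3
  have hi' : (i : ℚ) ≠ 0 := by exact_mod_cast hi.ne'
  have hj' : (j : ℚ) ≠ 0 := by exact_mod_cast hj.ne'
  have h5 := congrArg (fun z => ((i : ℚ) * j)⁻¹ • z) h3
  simp only [smul_smul] at h5
  rw [inv_mul_cancel₀ (mul_ne_zero hi' hj'), one_smul, one_smul] at h5
  exact h5

open Classical in
/-- the character -/
noncomputable def chi (A : Subgroup G) (s : G) : D := if h : ∃ x, Rl ι A s x then h.choose else 0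

variable (hsep : ∀ a ∈ A, ∀ k ∈ K, ∀ l ∈ K, a * k * a⁻¹ = l → k = l)
include hsep

theorem chi_eq {s : G} {x : D} (hx : Rl ι A s x) : chi ι A s = x := by
  have h : ∃ x, Rl ι A s x := ⟨x, hx⟩
  rw [chi, dif_pos h]
  exact rl_unique ι hsep h.choose_spec hx

theorem chi_K (k : K) : chi ι A (k : G) = Multiplicative.toAdd (ι k) :=
  chi_eq ι hsep ⟨1, 1, k, one_pos, A.one_mem, by simp, by simp⟩

theorem chi_one : chi ι A (1 : G) = 0 := by
  have := chi_K ι hsep 1
  rw [map_one, Subgroup.coe_one] at this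
  exact this

omit hsep in
theorem rl_conj {s : G} {x : D} {c : G} (hc : c ∈ A) (hx : Rl ι A s x) : Rl ι A (c * s * c⁻¹) x := by
  obtain ⟨i, a, k, hi, ha, hk, hx⟩ := hx
  refine ⟨i, a * c⁻¹, k, hi, A.mul_mem ha (A.inv_mem hc), ?_, hx⟩
  rw [← hk, conj_pow]
  group

theorem chi_conj (s : G) {c : G} (hc : c ∈ A) : chi ι A (c * s * c⁻¹) = chi ι A s := by
  by_cases h : ∃ x, Rl ι A s x
  · obtain ⟨x, hx⟩ := h
    rw [chi_eq ι hsep hx, chi_eq ι hsep (rl_conj ι hc hx)]
  · have h' : ¬ ∃ x, Rl ι A (c * s * c⁻¹) x := by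
      rintro ⟨x, hx⟩
      apply h
      have h1 := rl_conj ι (A.inv_mem hc) hx
      have e : c⁻¹ * (c * s * c⁻¹) * c⁻¹⁻¹ = s := by group
      rw [e] at h1
      exact ⟨x, h1⟩
    rw [chi, chi, dif_neg h, dif_neg h']

omit hsep in
theorem rl_zpow {s : G} {x : D} (m : ℤ) (hx : Rl ι A s x) : Rl ι A (s ^ m) ((m : ℚ) • x) := by
  obtain ⟨i, a, k, hi, ha, hk, hx⟩ := hx
  refine ⟨i, a, k ^ m, hi, ha, ?_, ?_⟩
  · rw [Subgroup.coe_zpow, ← hk]
    have e := _root_.conj_zpow (a := a) (b := s ^ i) (i := m)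
    rw [e]
    congr 2
    rw [← zpow_natCast, ← zpow_natCast, ← zpow_mul, ← zpow_mul, mul_comm m]
  · rw [smul_comm, hx, map_zpow, toAdd_zpow, Int.cast_smul_eq_zsmul]

omit hsep in
theorem rl_of_zpow {s : G} {x : D} (m : ℤ) (hm : m ≠ 0) (hx : Rl ι A (s ^ m) x) :
    ∃ y, Rl ι A s y := by
  obtain ⟨i, a, k, hi, ha, hk, hx⟩ := hx
  have hN : 0 < m.natAbs * i := Nat.mul_pos (Int.natAbs_pos.2 hm) hi
  rcases Int.natAbs_eq m with h | h
  · refine ⟨((m.natAbs * i : ℕ) : ℚ)⁻¹ • Multiplicative.toAdd (ι k), m.natAbs * i, a, k, hN, ha, ?_, ?_⟩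
    · rw [← hk]
      congr 2
      rw [← zpow_natCast, ← zpow_natCast, ← zpow_mul]
      congr 1
      rw [Nat.cast_mul, ← h]
    · rw [smul_smul, mul_inv_cancel₀ (by exact_mod_cast hN.ne'), one_smul]
  · refine ⟨((m.natAbs * i : ℕ) : ℚ)⁻¹ • Multiplicative.toAdd (ι k⁻¹), m.natAbs * i, a, k⁻¹, hN, ha, ?_, ?_⟩
    · rw [Subgroup.coe_inv, ← hk]
      have e : (a * (s ^ m) ^ i * a⁻¹)⁻¹ = a * ((s ^ m) ^ i)⁻¹ * a⁻¹ := by group
      rw [e]
      congr 2
      rw [← zpow_natCast, ← zpow_natCast, ← zpow_mul, ← zpow_neg]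
      congr 1
      rw [Nat.cast_mul, ← neg_mul]
      congr 1
      omega
    · rw [smul_smul, mul_inv_cancel₀ (by exact_mod_cast hN.ne'), one_smul]

theorem chi_zpow (s : G) (m : ℤ) : chi ι A (s ^ m) = (m : ℚ) • chi ι A s := by
  by_cases h : ∃ x, Rl ι A s x
  · obtain ⟨x, hx⟩ := h
    rw [chi_eq ι hsep hx, chi_eq ι hsep (rl_zpow ι m hx)]
  · by_cases hm : m = 0
    · rw [hm, zpow_zero, chi_one ι hsep, Int.cast_zero, zero_smul]
    · have h' : ¬ ∃ x, Rl ι A (s ^ m) x := by
        rintro ⟨x, hx⟩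
        exact h (rl_of_zpow ι m hm hx)
      rw [chi, chi, dif_neg h, dif_neg h', smul_zero]

/-- additivity on cyclic groups -/
theorem chi_mul {s t : G} {m n : ℤ} (h0 : m = 0 → s = 1) (h1 : s ^ n = t ^ m)
    (h2 : (s * t) ^ m = s ^ (m + n)) : chi ι A (s * t) = chi ι A s + chi ι A t := by
  by_cases hm : m = 0
  · rw [h0 hm, one_mul, chi_one ι hsep, zero_add]
  · have e1 : (m : ℚ) • chi ι A (s * t) = (m : ℚ) • (chi ι A s + chi ι A t) := by
      have e2 := chi_zpow ι hsep s n
      have e3 := chi_zpow ι hsep t m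
      rw [h1] at e2
      rw [← chi_zpow ι hsep, h2, chi_zpow ι hsep, smul_add, ← e3, e2, ← add_smul]
      push_cast
      rfl
    have hm' : (m : ℚ) ≠ 0 := by exact_mod_cast hm
    have e4 := congrArg (fun z => (m : ℚ)⁻¹ • z) e1
    simp only [smul_smul] at e4
    rwa [inv_mul_cancel₀ hm', one_smul, one_smul] at e4

end chi

section main

variable {G : Type} [Group G] {A B K : Subgroup G}

/-- a homomorphism from a stabilizer to `P` which is injective on the conjugates of `A` -/
theorem one_side' {P : Type} [Group P] (hamg : Amg A B K) (Y : Type) [MulAction G Y] (y0 : Y)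
    (α : A →* P) (hα : Function.Injective α)
    (cB : B → Y → P) (hcB : ∀ a a' y, cB (a * a') y = cB a ((a' : G) • y) * cB a' y)
    (hK : ∀ (k : G) (hk : k ∈ K) (y : Y), k • y = y →
      cB ⟨k, hamg.le_right hk⟩ y = α ⟨k, hamg.le_left hk⟩) :
    ∃ f : MulAction.stabilizer G y0 →* P,
      ∀ (g a : G), a ∈ A → ∀ (h : g * a * g⁻¹ ∈ MulAction.stabilizer G y0), f ⟨_, h⟩ = 1 → a = 1 := by
  obtain ⟨u, hu⟩ := gauge (K := K) (P := P) (Y := Y)
    (fun k y => cB (Subgroup.inclusion hamg.le_right k) y)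
    (fun k l y => hcB (Subgroup.inclusion hamg.le_right k) (Subgroup.inclusion hamg.le_right l) y)
    (α.comp (Subgroup.inclusion hamg.le_left)) (fun k y hk => hK k k.2 y hk)
  obtain ⟨f, hf⟩ := coc_hom hamg Y y0 (fun a _ => α a) (fun a a' y => map_mul α a a')
    (fun b y => u ((b : G) • y) * cB b y * (u y)⁻¹) (fun b b' y => by
      rw [hcB, Subgroup.coe_mul, mul_smul]; group) (fun k hk y => (hu ⟨k, hk⟩ y).symm)
  refine ⟨f, fun g a ha h h1 => ?_⟩
  obtain ⟨q, hq⟩ := hf g a ha h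
  rw [hq] at h1
  have h2 : α ⟨a, ha⟩ = 1 := by
    have : α ⟨a, ha⟩ = q * (q⁻¹ * α ⟨a, ha⟩ * q) * q⁻¹ := by group
    rw [this, h1, mul_one, mul_inv_cancel]
  exact congrArg Subtype.val (hα (h2.trans (map_one α).symm))

end main

section main2

variable {G P : Type} [Group G] [Group P] {A B K : Subgroup G} {D : Type} [AddCommGroup D] [Module ℚ D]

/-- additivity of the character on the preimages of conjugates of a cyclic group -/
theorem chi_stab (ι : K →* Multiplicative D) (hsep : ∀ a ∈ A, ∀ k ∈ K, ∀ l ∈ K, a * k * a⁻¹ = l → k = l)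
    (f : G →* P) (hfA : ∀ a ∈ A, f a = 1 → a = 1) (p x : P) {s t : G} (hs : s ∈ A) (ht : t ∈ A)
    (hfs : x⁻¹ * f s * x ∈ Subgroup.zpowers p) (hft : x⁻¹ * f t * x ∈ Subgroup.zpowers p) :
    chi ι A (s * t) = chi ι A s + chi ι A t := by
  obtain ⟨m, hm⟩ := Subgroup.mem_zpowers_iff.1 hfs
  obtain ⟨n, hn⟩ := Subgroup.mem_zpowers_iff.1 hft
  have hinj : ∀ a ∈ A, ∀ b ∈ A, f a = f b → a = b := by
    intro a ha b hb h
    have := hfA (a * b⁻¹) (A.mul_mem ha (A.inv_mem hb)) (by rw [map_mul, map_inv, h, mul_inv_cancel])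
    exact mul_inv_eq_one.1 this
  have hs' : f s = x * p ^ m * x⁻¹ := by rw [hm]; group
  have ht' : f t = x * p ^ n * x⁻¹ := by rw [hn]; group
  have hz : ∀ (y : P) (i : ℤ), (x * y * x⁻¹) ^ i = x * y ^ i * x⁻¹ := fun y i => _root_.conj_zpow
  apply chi_mul ι hsep (m := m) (n := n)
  · intro h0
    apply hfA s hs
    rw [hs', h0, zpow_zero]
    group
  · apply hinj _ (A.zpow_mem hs n) _ (A.zpow_mem ht m)
    rw [map_zpow, map_zpow, hs', ht', hz, hz, ← zpow_mul, ← zpow_mul, mul_comm m]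
  · apply hinj _ (A.zpow_mem (A.mul_mem hs ht) m) _ (A.zpow_mem hs _)
    rw [map_zpow, map_zpow, map_mul, hs', ht']
    have e : x * p ^ m * x⁻¹ * (x * p ^ n * x⁻¹) = x * p ^ (m + n) * x⁻¹ := by
      rw [zpow_add]; group
    rw [e, hz, hz, ← zpow_mul, ← zpow_mul, mul_comm m]

/-- the preimage of a cyclic group -/
theorem os_pre {C : ∀ (G : Type) [Group G], Prop} (hC : ClosedE C) (hamg : Amg A B K)
    (f : G →* P) (hP : C P) (hfA : ∀ a ∈ A, f a = 1 → a = 1) (ι : K →* Multiplicative D)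
    (hsep : ∀ a ∈ A, ∀ k ∈ K, ∀ l ∈ K, a * k * a⁻¹ = l → k = l)
    {Bh : Type} [Group Bh] (hBh : C Bh) (b : B →* Bh) (hb : Function.Injective b)
    (d : Multiplicative D →* Bh) (hbd : ∀ (k : G) (hk : k ∈ K), b ⟨k, hamg.le_right hk⟩ = d (ι ⟨k, hk⟩))
    (p : P) : C ((Subgroup.zpowers p).comap f : Subgroup G) := by
  classical
  let Z : Subgroup P := Subgroup.zpowers p
  let act : MulAction G (P ⧸ Z) := MulAction.compHom (P ⧸ Z) f
  have hact : ∀ (g : G) (x : P), g • ((x : P) : P ⧸ Z) = ((f g * x : P) : P ⧸ Z) := fun g x => rfl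
  let Y : Type := P ⧸ Z
  let r : Y → Y := fun y => (Quotient.out (Quotient.mk (MulAction.orbitRel A Y) y))
  have hr : ∀ y, ∃ k : A, k • r y = y := by
    intro y
    have h1 : (MulAction.orbitRel A Y) (r y) y := Quotient.exact (Quotient.out_eq _)
    have h2 : (MulAction.orbitRel A Y) y (r y) := Setoid.symm' _ h1
    exact h2
  choose κ hκ using hr
  have hrk : ∀ (k : A) (y : Y), r (k • y) = r y := by
    intro k y
    have : Quotient.mk (MulAction.orbitRel A Y) (k • y) = Quotient.mk (MulAction.orbitRel A Y) y :=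
      Quotient.sound ⟨k, rfl⟩
    show Quotient.out (Quotient.mk (MulAction.orbitRel A Y) (k • y)) = _
    rw [this]
  let x : Y → P := fun y => Quotient.out (r y)
  have hx : ∀ y, ((x y : P) : P ⧸ Z) = r y := fun y => Quotient.out_eq' _
  have hstab : ∀ (a : A) (y : Y), (x y)⁻¹ * f (((κ (a • y))⁻¹ * a * κ y : A) : G) * x y ∈ Z := by
    intro a y
    have h1 : ((κ (a • y))⁻¹ * a * κ y : A) • r y = r y := by
      rw [mul_smul, mul_smul, hκ, inv_smul_eq_iff]
      have := hκ (a • y)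
      rw [hrk] at this
      exact this.symm
    rw [← hx y] at h1
    have h2 : ((f (((κ (a • y))⁻¹ * a * κ y : A) : G) * x y : P) : P ⧸ Z) = ((x y : P) : P ⧸ Z) := h1
    have h3 := QuotientGroup.eq.1 h2.symm
    rwa [← mul_assoc] at h3
  let c : A → Y → D := fun a y => chi ι A (((κ (a • y))⁻¹ * a * κ y : A) : G)
  have hc : ∀ (a a' : A) (y : Y), c (a * a') y = c a (a' • y) + c a' y := by
    intro a a' y
    have h1 : (((κ ((a * a') • y))⁻¹ * (a * a') * κ y : A) : G) =
        (((κ (a • a' • y))⁻¹ * a * κ (a' • y) : A) : G) * (((κ (a' • y))⁻¹ * a' * κ y : A) : G) := by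
      rw [← Subgroup.coe_mul]
      congr 1
      rw [mul_smul]
      group
    show chi ι A (((κ ((a * a') • y))⁻¹ * (a * a') * κ y : A) : G) = _
    rw [h1]
    have hxy : x (a' • y) = x y := by
      show Quotient.out (r (a' • y)) = Quotient.out (r y)
      rw [hrk]
    refine chi_stab ι hsep f hfA p (x y) (SetLike.coe_mem _) (SetLike.coe_mem _) ?_ (hstab a' y)
    have h2 := hstab a (a' • y)
    rwa [hxy] at h2
  obtain ⟨f2, hf2⟩ := one_side' (amg_symm hamg) Y ((1 : P) : P ⧸ Z) b hb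
    (fun a y => d (Multiplicative.ofAdd (c a y)))
    (fun a a' y => by
      rw [hc, ofAdd_add, map_mul]
      rfl)
    (fun k hk y hy => by
      rw [hbd k hk]
      congr 1
      show Multiplicative.ofAdd (c ⟨k, _⟩ y) = _
      have h1 : c ⟨k, hamg.le_left hk⟩ y = chi ι A k := by
        show chi ι A (((κ ((⟨k, hamg.le_left hk⟩ : A) • y))⁻¹ * ⟨k, hamg.le_left hk⟩ * κ y : A) : G) = _
        rw [show (⟨k, hamg.le_left hk⟩ : A) • y = y from hy]
        have h2 := chi_conj ι hsep k (A.inv_mem (κ y).2)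
        rw [inv_inv] at h2
        exact h2
      rw [h1]
      exact congrArg Multiplicative.ofAdd (chi_K ι hsep ⟨k, hk⟩))
  have h2 : MulAction.stabilizer G (((1 : P) : P ⧸ Z)) = Z.comap f := by
    ext g
    rw [MulAction.mem_stabilizer_iff, hact, Subgroup.mem_comap, mul_one, eq_comm, QuotientGroup.eq]
    simp
  have h3 : C (MulAction.stabilizer G (((1 : P) : P ⧸ Z))) := by
    refine sub_am hC hamg _ ((f.comp (Subgroup.subtype _)).prod f2) ?_ ?_ (hC.base.prod _ _ hP hBh)
    · intro g a ha h h1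
      have h4 : f (g * a * g⁻¹) = 1 := congrArg Prod.fst h1
      rw [map_mul, map_mul, map_inv] at h4
      exact hfA a ha (conj_eq_one_iff.1 h4)
    · intro g a ha h h1
      exact hf2 g a ha h (congrArg Prod.snd h1)
  rwa [h2] at h3

theorem os_am {C : ∀ (G : Type) [Group G], Prop} (hC : ClosedE C) (hamg : Amg A B K)
    (hB : C B) (f : G →* P) (hP : C P) (hfA : ∀ a ∈ A, f a = 1 → a = 1) (ι : K →* Multiplicative D)
    (hsep : ∀ a ∈ A, ∀ k ∈ K, ∀ l ∈ K, a * k * a⁻¹ = l → k = l)
    {Bh : Type} [Group Bh] (hBh : C Bh) (b : B →* Bh) (hb : Function.Injective b)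
    (d : Multiplicative D →* Bh)
    (hbd : ∀ (k : G) (hk : k ∈ K), b ⟨k, hamg.le_right hk⟩ = d (ι ⟨k, hk⟩)) : C G := by
  have hA : C A := hC.base.of_injective _ _ (f.comp A.subtype) (by
    rw [injective_iff_map_eq_one]
    intro a ha
    exact Subtype.ext (hfA a a.2 ha)) hP
  have hCN : C (f.ker : Subgroup G) :=
    pre_free hC hamg hA hB f ⊥ (by
      intro k hk x hx
      apply hfA k (hamg.le_left hk)
      have h2 : x⁻¹ * f k * x = 1 := hx
      have h3 : f k = x * (x⁻¹ * f k * x) * x⁻¹ := by group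
      rw [h3, h2, mul_one, mul_inv_cancel])
  refine Pool.Agent.Y529.FJ.t_ext C hC G f.ker hCN ?_ ?_
  · exact hC.base.of_injective _ _ (QuotientGroup.kerLift f) (QuotientGroup.kerLift_injective f) hP
  · intro g _
    have hle : f.ker ⊔ Subgroup.zpowers g = (Subgroup.zpowers (f g)).comap f := by
      rw [← MonoidHom.map_zpowers, Subgroup.comap_map_eq, sup_comm]
    rw [hle]
    exact os_pre hC hamg f hP hfA ι hsep hBh b hb d hbd (f g)

end main2

section push

open Monoid

variable {X Y Z : Type} [Group X] [Group Y] [Group Z] (i : Z →* X) (j : Z →* Y)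

/-- the external amalgamated product -/
abbrev PU : Type := PushoutI (Fmφ i j)

/-- the factor `X` -/
def puX : X →* PU i j := PushoutI.of (φ := Fmφ i j) true

/-- the factor `Y` -/
def puY : Y →* PU i j := PushoutI.of (φ := Fmφ i j) false

theorem pu_eq (z : Z) : puX i j (i z) = puY i j (j z) := by
  have e1 : PushoutI.of (φ := Fmφ i j) true (Fmφ i j true z) = PushoutI.base (Fmφ i j) z :=
    PushoutI.of_apply_eq_base (Fmφ i j) true _
  have e2 : PushoutI.of (φ := Fmφ i j) false (Fmφ i j false z) = PushoutI.base (Fmφ i j) z :=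
    PushoutI.of_apply_eq_base (Fmφ i j) false _
  exact e1.trans e2.symm

variable (hi : Function.Injective i) (hj : Function.Injective j)
include hi hj

theorem pu_inj : ∀ b, Function.Injective (Fmφ i j b)
  | true => hi
  | false => hj

theorem puX_inj : Function.Injective (puX i j) := PushoutI.of_injective (pu_inj i j hi hj) true
theorem puY_inj : Function.Injective (puY i j) := PushoutI.of_injective (pu_inj i j hi hj) false

theorem pu_amg : Amg (puY i j).range (puX i j).range ((puY i j).comp j).range where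
  le_left := by rintro _ ⟨z, rfl⟩; exact ⟨j z, rfl⟩
  le_right := by rintro _ ⟨z, rfl⟩; exact ⟨i z, pu_eq i j z⟩
  gen := by
    rw [eq_top_iff]
    rintro x -
    induction x using PushoutI.induction_on with
    | of b x =>
      cases b with
      | true => exact (le_sup_right : (puX i j).range ≤ _) ⟨x, rfl⟩
      | false => exact (le_sup_left : (puY i j).range ≤ _) ⟨x, rfl⟩
    | base z =>
      have e2 : PushoutI.of (φ := Fmφ i j) false (Fmφ i j false z) = PushoutI.base (Fmφ i j) z :=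
        PushoutI.of_apply_eq_base (Fmφ i j) false _
      rw [← e2]
      exact (le_sup_left : (puY i j).range ≤ _) ⟨_, rfl⟩
    | mul x y hx hy => exact Subgroup.mul_mem _ hx hy
  univ := by
    intro H _ f g hfg
    let u : ∀ b, Fm X Y b →* H := fun b => match b with
      | true => g.comp (puX i j).rangeRestrict
      | false => f.comp (puY i j).rangeRestrict
    let k : Z →* H := (f.comp (puY i j).rangeRestrict).comp j
    refine ⟨PushoutI.lift u k ?_, ?_, ?_⟩
    · intro b
      cases b with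
      | true =>
        ext z
        have h1 := hfg (puY i j (j z)) ⟨z, rfl⟩
        show g ⟨puX i j (i z), _⟩ = f ⟨puY i j (j z), _⟩
        rw [h1]
        congr 1
        exact Subtype.ext (pu_eq i j z)
      | false => rfl
    · rintro ⟨_, y, rfl⟩
      exact PushoutI.lift_of (φ := Fmφ i j) u _ _ (i := false) y
    · rintro ⟨_, y, rfl⟩
      exact PushoutI.lift_of (φ := Fmφ i j) u _ _ (i := true) y

end push

/-- amalgamated products over a central subgroup of a commutative factor -/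
theorem c_pu {C : ∀ (G : Type) [Group G], Prop} (hC : ClosedE C) {X Y Z : Type} [Group X] [CommGroup Y]
    [Group Z] (i : Z →* X) (j : Z →* Y) (hi : Function.Injective i) (hj : Function.Injective j)
    (hX : C X) : C (PU i j) := by
  let A0 : Subgroup (PU i j) := (puY i j).range
  let K0 : Subgroup (PU i j) := ((puY i j).comp j).range
  have hcomm : ∀ a ∈ A0, ∀ b ∈ A0, a * b = b * a := by
    rintro _ ⟨a, rfl⟩ _ ⟨b, rfl⟩
    rw [← map_mul, ← map_mul, mul_comm]
  have hKA : K0 ≤ A0 := by rintro _ ⟨z, rfl⟩; exact ⟨j z, rfl⟩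
  have hn : (K0.subgroupOf A0).Normal := by
    refine ⟨fun n hn g => ?_⟩
    have : g * n * g⁻¹ = n := by
      apply Subtype.ext
      show (g : PU i j) * n * (g : PU i j)⁻¹ = n
      rw [hcomm _ g.2 _ n.2, mul_inv_cancel_right]
    rwa [this]
  have hXr : C (puX i j).range := hC.base.of_injective _ _
    (MonoidHom.ofInjective (puX_inj i j hi hj)).symm.toMonoidHom
    (MonoidHom.ofInjective (puX_inj i j hi hj)).symm.injective hX
  refine normal_am hC (pu_amg i j hi hj) hn ?_ ?_
  · let cg : CommGroup (A0 ⧸ K0.subgroupOf A0) :=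
      { (inferInstance : Group (A0 ⧸ K0.subgroupOf A0)) with
        mul_comm := by
          intro x y
          obtain ⟨x, rfl⟩ := QuotientGroup.mk_surjective x
          obtain ⟨y, rfl⟩ := QuotientGroup.mk_surjective y
          exact congrArg (QuotientGroup.mk (s := K0.subgroupOf A0))
            (Subtype.ext (hcomm _ x.2 _ y.2)) }
    exact @c_comm C hC.base (A0 ⧸ K0.subgroupOf A0) cg
  · intro a ha
    refine ⟨1, fun k hk => ?_, c_torsion hC.base hXr 1 1 one_pos 1 (by rw [pow_one, map_one])⟩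
    rw [hcomm a ha k (hKA hk), mul_inv_cancel_right]
    rfl

/-- **one-sided amalgamated products** -/
theorem os_main {C : ∀ (G : Type) [Group G], Prop} (hC : ClosedE C) {G : Type} [Group G]
    {A B K : Subgroup G} (hamg : Amg A B K) (hA : C A) (hB : C B) {D : Type} [AddCommGroup D]
    [Module ℚ D] (β : B →* Multiplicative D)
    (hβ : ∀ (k : G) (hk : k ∈ K), β ⟨k, hamg.le_right hk⟩ = 1 → k = 1)
    (hsep : ∀ a ∈ A, ∀ k ∈ K, ∀ l ∈ K, a * k * a⁻¹ = l → k = l) : C G := by
  let ι : K →* Multiplicative D := β.comp (Subgroup.inclusion hamg.le_right)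
  have hι : Function.Injective ι := by
    rw [injective_iff_map_eq_one]
    intro k hk
    exact Subtype.ext (hβ k k.2 hk)
  let iA : K →* A := Subgroup.inclusion hamg.le_left
  let iB : K →* B := Subgroup.inclusion hamg.le_right
  have hiA : Function.Injective iA := Subgroup.inclusion_injective _
  have hiB : Function.Injective iB := Subgroup.inclusion_injective _
  obtain ⟨f, hf1, hf2⟩ := hamg.univ (PU iA ι) (puX iA ι) ((puY iA ι).comp β) (by
    intro c hc
    exact pu_eq iA ι ⟨c, hc⟩)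
  refine os_am hC hamg hB f (c_pu hC iA ι hiA hι hA) ?_ ι hsep (c_pu hC iB ι hiB hι hB)
    (puX iB ι) (puX_inj iB ι hiB hι) (puY iB ι) (fun k hk => pu_eq iB ι ⟨k, hk⟩)
  intro a ha h1
  have h2 : puX iA ι ⟨a, ha⟩ = 1 := (hf1 ⟨a, ha⟩).symm.trans h1
  have h3 : (⟨a, ha⟩ : A) = 1 := puX_inj iA ι hiA hι (h2.trans (map_one _).symm)
  exact congrArg Subtype.val h3

/-- a homomorphism to a rational vector space which is injective modulo torsion of the abelianization -/
theorem exists_rat (B : Type) [Group B] : ∃ (D : Type) (_ : AddCommGroup D) (_ : Module ℚ D)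
    (β : B →* Multiplicative D), ∀ b : B, β b = 1 → ∃ n : ℕ, 0 < n ∧ b ^ n ∈ commutator B := by
  let M : Type := Additive (Abelianization B)
  let D : Type := TensorProduct ℤ ℚ M
  let f : M →ₗ[ℤ] D := TensorProduct.mk ℤ ℚ M 1
  have hloc : IsLocalizedModule (nonZeroDivisors ℤ) f :=
    (isLocalizedModule_iff_isBaseChange (nonZeroDivisors ℤ) ℚ f).2 (TensorProduct.isBaseChange ℤ M ℚ)
  let β : B →* Multiplicative D :=
    { toFun := fun b => Multiplicative.ofAdd (f (Additive.ofMul (Abelianization.of b)))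
      map_one' := by rw [map_one, ofMul_one, map_zero, ofAdd_zero]
      map_mul' := fun a b => by rw [map_mul, ofMul_mul, map_add, ofAdd_add] }
  refine ⟨D, inferInstance, inferInstance, β, fun b hb => ?_⟩
  have h1 : f (Additive.ofMul (Abelianization.of b)) = 0 := hb
  obtain ⟨⟨c, hc⟩, h2⟩ := (IsLocalizedModule.eq_zero_iff (nonZeroDivisors ℤ) f).1 h1
  have hc0 : c ≠ 0 := nonZeroDivisors.ne_zero hc
  have h3 : (Abelianization.of b) ^ c = 1 := h2
  have h4 : b ^ c ∈ commutator B := by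
    rw [← Abelianization.ker_of]
    show Abelianization.of (b ^ c) = 1
    rw [map_zpow]
    exact h3
  refine ⟨c.natAbs, Int.natAbs_pos.2 hc0, ?_⟩
  rcases Int.natAbs_eq c with h | h
  · rw [h, zpow_natCast] at h4; exact h4
  · rw [h, zpow_neg, zpow_natCast] at h4
    exact inv_mem_iff.1 h4

end Pool.Agent.X176.FJ
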