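import Mathlib
import Pool.Agent.X201.FJ.TreeInv
import Pool.Agent.Helper270.HNN
import Pool.Agent.X176.FJ.OneS

/-!
HNN extensions and amalgamated products with a homomorphism to a group of the class which is
injective on the edge group (from the Bass-Serre tree of an HNN extension).
-/

set_option autoImplicit false

namespace Pool.Agent.X176.FJ

open Pool.Agent.Y110.FJ
open Pool.Agent.Y462.SS (Closed)

section hnn

open HNNExtension Pool.Agent.Helper270.HNN

/-- subgroups contained in an isomorphic image -/
theorem c_le_range {C : ∀ (G : Type) [Group G], Prop} (hC : Closed C) {G H : Type} [Group G]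
    [Group H] (f : G →* H) (hf : Function.Injective f) (K : Subgroup H) (hK : K ≤ f.range)
    (hG : C G) : C K := by
  have h1 : C f.range := hC.of_injective _ _ (MonoidHom.ofInjective hf).symm.toMonoidHom
    (MonoidHom.ofInjective hf).symm.injective hG
  exact hC.of_injective _ _ (Subgroup.inclusion hK) (Subgroup.inclusion_injective hK) h1

/-- **HNN extensions** with a homomorphism to a group of the class which is injective on the
associated subgroup -/
theorem hnn_edge {C : ∀ (G : Type) [Group G], Prop} (hC : ClosedE C) {G P : Type} [Group G]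
    [Group P] {A B : Subgroup G} {φ : A ≃* B} (f : HNNExtension G A B φ →* P) (hP : C P)
    (hf : ∀ a ∈ A, f (of a) = 1 → a = 1) (hG : C G) : C (HNNExtension G A B φ) := by
  have hT := treeAct (φ := φ)
  refine (Pool.Agent.X201.FJ.tree_edge_iff hC (T := graph φ) isTree
    (fun g u v h => hT.adj g u v h) f hP ?_).2 ?_
  · intro g u v huv hu hv hg
    have key : ∀ k : HNNExtension G A B φ, g • k • (vt 1 : Vert φ) = k • vt 1 →
        g • k • (vt t⁻¹ : Vert φ) = k • vt t⁻¹ → g = 1 := by
      intro k h1 h2
      have h3 : k⁻¹ * g * k ∈ MulAction.stabilizer (HNNExtension G A B φ) (vt 1 : Vert φ) ⊓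
          MulAction.stabilizer (HNNExtension G A B φ) (vt t⁻¹ : Vert φ) := by
        rw [Subgroup.mem_inf, MulAction.mem_stabilizer_iff, MulAction.mem_stabilizer_iff]
        constructor
        · rw [mul_smul, mul_smul, h1, inv_smul_smul]
        · rw [mul_smul, mul_smul, h2, inv_smul_smul]
      rw [stab_edge] at h3
      obtain ⟨a, ha, hak⟩ := h3
      have h4 : f (of a) = 1 := by
        have : f (of a) = f (k⁻¹ * g * k) := congrArg f hak
        rw [this, map_mul, map_mul, hg, mul_one, ← map_mul, inv_mul_cancel, map_one]
      have h5 := hf a ha h4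
      have h6 : k⁻¹ * g * k = 1 := by
        rw [← hak, h5]
        exact map_one of
      have h7 : g = k * (k⁻¹ * g * k) * k⁻¹ := by group
      rw [h7, h6, mul_one, mul_inv_cancel]
    obtain ⟨k, hk⟩ := one_orbit huv
    rcases hk with ⟨h1, h2⟩ | ⟨h1, h2⟩
    · exact key k (by rw [h1, hu]) (by rw [h2, hv])
    · exact key k (by rw [h1, hv]) (by rw [h2, hu])
  · intro v
    obtain ⟨k, rfl⟩ := exists_vt v
    refine c_le_range hC.base (((MulAut.conj k).toMonoidHom).comp of)
      ((MulAut.conj k).injective.comp (HNNExtension.of_injective φ)) _ ?_ hG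
    intro g hg
    rw [MulAction.mem_stabilizer_iff] at hg
    have h1 : (k⁻¹ * g * k) • (vt 1 : Vert φ) = vt 1 := by
      have h2 : (vt k : Vert φ) = k • vt 1 := by rw [smul_vt, mul_one]
      rw [h2] at hg
      rw [mul_smul, mul_smul, hg, inv_smul_smul]
    obtain ⟨x, hx⟩ := (stab_one _).1 h1
    refine ⟨x, ?_⟩
    show k * of x * k⁻¹ = g
    rw [← hx]
    group

end hnn

section pu

open Monoid HNNExtension

variable {X Y Z : Type} [Group X] [Group Y] [Group Z] (i : Z →* X) (j : Z →* Y)

/-- homomorphisms from the external amalgamated product -/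
theorem pu_lift {H : Type} [Group H] (f : X →* H) (g : Y →* H) (h : ∀ z, f (i z) = g (j z)) :
    ∃ F : PU i j →* H, (∀ x, F (puX i j x) = f x) ∧ ∀ y, F (puY i j y) = g y := by
  let u : ∀ b, Fm X Y b →* H := fun b => match b with
    | true => f
    | false => g
  let k : Z →* H := g.comp j
  refine ⟨PushoutI.lift u k ?_, ?_, ?_⟩
  · intro b
    cases b with
    | true => ext z; exact h z
    | false => rfl
  · intro x
    exact PushoutI.lift_of (φ := Fmφ i j) u _ _ (i := true) x
  · intro y
    exact PushoutI.lift_of (φ := Fmφ i j) u _ _ (i := false) y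

theorem pu_ext {H : Type} [Group H] {f g : PU i j →* H} (h1 : ∀ x, f (puX i j x) = g (puX i j x))
    (h2 : ∀ y, f (puY i j y) = g (puY i j y)) : f = g := by
  refine MonoidHom.ext fun x => ?_
  induction x using PushoutI.induction_on with
  | of b x =>
    cases b with
    | true => exact h1 x
    | false => exact h2 x
  | base z =>
    have e2 : PushoutI.of (φ := Fmφ i j) false (Fmφ i j false z) = PushoutI.base (Fmφ i j) z :=
      PushoutI.of_apply_eq_base (Fmφ i j) false _
    rw [← e2]
    exact h2 _
  | mul x y hx hy => rw [map_mul, map_mul, hx, hy]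

variable {C : ∀ (G : Type) [Group G], Prop}

/-- **amalgamated products** with a homomorphism to a group of the class which is injective on the
amalgamated subgroup -/
theorem pu_edge (hC : ClosedE C) (hi : Function.Injective i) (hj : Function.Injective j) {P : Type}
    [Group P] (f : PU i j →* P) (hP : C P) (hf : ∀ z, f (puX i j (i z)) = 1 → z = 1)
    (hX : C X) (hY : C Y) : C (PU i j) := by
  let cX : X →* Coprod X Y := Coprod.inl
  let cY : Y →* Coprod X Y := Coprod.inr
  have hcX : Function.Injective cX := Coprod.inl_injective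
  have hcY : Function.Injective cY := Coprod.inr_injective
  let a : Z →* Coprod X Y := cY.comp j
  let b : Z →* Coprod X Y := cX.comp i
  have ha : Function.Injective a := hcY.comp hj
  have hb : Function.Injective b := hcX.comp hi
  let φ : a.range ≃* b.range := (MonoidHom.ofInjective ha).symm.trans (MonoidHom.ofInjective hb)
  have hφ : ∀ z, ((φ ⟨a z, z, rfl⟩ : b.range) : Coprod X Y) = b z := by
    intro z
    have h1 : (MonoidHom.ofInjective ha).symm ⟨a z, z, rfl⟩ = z := by
      rw [MulEquiv.symm_apply_eq]; rfl
    show ((MonoidHom.ofInjective hb ((MonoidHom.ofInjective ha).symm ⟨a z, z, rfl⟩) : b.range) :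
      Coprod X Y) = b z
    rw [h1]; rfl
  let H := HNNExtension (Coprod X Y) a.range b.range φ
  -- the homomorphism from `H` to the amalgamated product
  let r0 : Coprod X Y →* PU i j := Coprod.lift (puX i j) (puY i j)
  let r : H →* PU i j := HNNExtension.lift r0 1 (by
    rintro ⟨_, z, rfl⟩
    rw [hφ z, one_mul, mul_one]
    show r0 (cY (j z)) = r0 (cX (i z))
    rw [Coprod.lift_apply_inl, Coprod.lift_apply_inr, pu_eq])
  have hr : ∀ x, r (of x) = r0 x := fun x => HNNExtension.lift_of _ _ _ _
  have hrt : r t = 1 := HNNExtension.lift_t _ _ _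
  -- the homomorphism to `H`
  obtain ⟨s, hs1, hs2⟩ := pu_lift i j (H := H) ((of : Coprod X Y →* H).comp cX)
    ((MulAut.conj (t : H)).toMonoidHom.comp ((of : Coprod X Y →* H).comp cY)) (by
      intro z
      show (of (cX (i z)) : H) = t * of (cY (j z)) * t⁻¹
      have h1 := HNNExtension.equiv_eq_conj (φ := φ) ⟨a z, z, rfl⟩
      rw [hφ z] at h1
      exact h1)
  have hrs : ∀ x, r (s x) = x := by
    have h1 : r.comp s = MonoidHom.id _ := by
      apply pu_ext
      · intro x
        show r (s (puX i j x)) = puX i j x
        rw [hs1]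
        show r (of (cX x)) = puX i j x
        rw [hr, Coprod.lift_apply_inl]
      · intro y
        show r (s (puY i j y)) = puY i j y
        rw [hs2]
        show r (t * of (cY y) * t⁻¹) = puY i j y
        rw [map_mul, map_mul, map_inv, hrt, hr, Coprod.lift_apply_inr]
        group
    exact fun x => DFunLike.congr_fun h1 x
  have hH : C H := by
    refine hnn_edge hC (f.comp r) hP ?_ (hC.base.coprod X Y hX hY)
    rintro _ ⟨z, rfl⟩ h1
    have h2 : f (puX i j (i z)) = 1 := by
      rw [← h1]
      show f (puX i j (i z)) = f (r (of (cY (j z))))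
      rw [hr, Coprod.lift_apply_inr, pu_eq]
    rw [hf z h2, map_one]
  exact hC.base.of_injective _ _ s (Function.LeftInverse.injective hrs) hH

/-- the internal form -/
theorem amg_edge (hC : ClosedE C) {G P : Type} [Group G] [Group P] {A B K : Subgroup G}
    (hamg : Amg A B K) (f : G →* P) (hP : C P) (hf : ∀ k ∈ K, f k = 1 → k = 1) (hA : C A)
    (hB : C B) : C G := by
  let i : K →* A := Subgroup.inclusion hamg.le_left
  let j : K →* B := Subgroup.inclusion hamg.le_right
  have hi : Function.Injective i := Subgroup.inclusion_injective _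
  have hj : Function.Injective j := Subgroup.inclusion_injective _
  obtain ⟨F, hF1, hF2⟩ := pu_lift i j A.subtype B.subtype (fun _ => rfl)
  obtain ⟨g, hg1, hg2⟩ := hamg.univ (PU i j) (puX i j) (puY i j) (fun c hc => pu_eq i j ⟨c, hc⟩)
  have hFg : ∀ x, F (g x) = x := by
    have h1 : F.comp g = MonoidHom.id G := by
      have h2 : A ⊔ B ≤ (F.comp g).eqLocus (MonoidHom.id G) := by
        rw [sup_le_iff]
        constructor
        · intro x hx
          show F (g x) = x
          rw [hg1 ⟨x, hx⟩, hF1]; rfl
        · intro x hx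
          show F (g x) = x
          rw [hg2 ⟨x, hx⟩, hF2]; rfl
      rw [hamg.gen, top_le_iff] at h2
      exact MonoidHom.eq_of_eqOn_top (fun x _ => by
        have : x ∈ (F.comp g).eqLocus (MonoidHom.id G) := by rw [h2]; trivial
        exact this)
    exact fun x => DFunLike.congr_fun h1 x
  refine hC.base.of_injective _ _ g (Function.LeftInverse.injective hFg) ?_
  refine pu_edge i j hC hi hj (f.comp F) hP ?_ hA hB
  intro z hz
  have h1 : f (z : G) = 1 := by
    rw [← hz]
    show f z = f (F (puX i j (i z)))
    rw [hF1]; rfl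
  exact Subtype.ext (hf z z.2 h1)

end pu

end Pool.Agent.X176.FJ
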