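import Mathlib
import Pool.Agent.X176.FJ.TreeA
import Pool.Agent.X176.FJ.Tri
import Pool.Agent.Y179.SS.Free

/-!
Free products `H * F(X)` with automorphisms which map each letter `x` to `u x v` with `u`, `v` in the
subgroup generated by `H` and smaller letters.
-/

set_option autoImplicit false

namespace Pool.Agent.X176.FJ

open Pool.Agent.Y110.FJ Monoid
open Pool.Agent.Y462.SS (Closed)

variable {C : ∀ (G : Type) [Group G], Prop}

section basic

variable {H X : Type} [Group H]

/-- the free product of `H` and the free group on `X` -/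
abbrev HF (H X : Type) [Group H] : Type := Coprod H (FreeGroup X)

/-- the inclusion of `H` -/
def hh : H →* HF H X := Coprod.inl

/-- the letters -/
def lt (x : X) : HF H X := Coprod.inr (FreeGroup.of x)

/-- homomorphisms from `H * F(X)` -/
def liftHF {D : Type} [Group D] (f : H →* D) (g : X → D) : HF H X →* D :=
  Coprod.lift f (FreeGroup.lift g)

variable {D : Type} [Group D] (f : H →* D) (g : X → D)

theorem liftHF_hh (h : H) : liftHF f g (hh h : HF H X) = f h := Coprod.lift_apply_inl _ _ _

theorem liftHF_lt (x : X) : liftHF f g (lt x : HF H X) = g x := by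
  rw [liftHF, lt, Coprod.lift_apply_inr, FreeGroup.lift_apply_of]

theorem HF_ext {u v : HF H X →* D} (h1 : ∀ h, u (hh h) = v (hh h)) (h2 : ∀ x, u (lt x) = v (lt x)) :
    u = v := by
  apply Coprod.hom_ext
  · ext h
    exact h1 h
  · ext x
    exact h2 x

open Classical in
/-- kill the letters outside `S` -/
noncomputable def kX (S : Set X) : HF H X →* HF H X := liftHF hh (fun x => if x ∈ S then lt x else 1)

theorem kX_hh (S : Set X) (h : H) : kX S (hh h) = (hh h : HF H X) := liftHF_hh _ _ _

theorem kX_mem {S : Set X} {x : X} (hx : x ∈ S) : kX S (lt x) = (lt x : HF H X) := by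
  rw [kX, liftHF_lt, if_pos hx]

theorem kX_not {S : Set X} {x : X} (hx : x ∉ S) : kX S (lt x) = (1 : HF H X) := by
  rw [kX, liftHF_lt, if_neg hx]

theorem kX_kX (S : Set X) (n : HF H X) : kX S (kX S n) = kX S n := by
  have h1 : (kX S).comp (kX S) = (kX S : HF H X →* HF H X) := by
    apply HF_ext
    · intro h
      rw [MonoidHom.comp_apply, kX_hh, kX_hh]
    · intro x
      rw [MonoidHom.comp_apply]
      by_cases hx : x ∈ S
      · rw [kX_mem hx, kX_mem hx]
      · rw [kX_not hx, map_one]
  exact DFunLike.congr_fun h1 n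

/-- the elementary endomorphism `x ↦ a x b` -/
noncomputable def elX (x : X) (a b : HF H X) : HF H X →* HF H X :=
  open Classical in liftHF hh (fun y => if y = x then a * lt x * b else lt y)

theorem elX_hh (x : X) (a b : HF H X) (h : H) : elX x a b (hh h) = hh h := liftHF_hh _ _ _

theorem elX_self (x : X) (a b : HF H X) : elX x a b (lt x) = a * lt x * b := by
  rw [elX, liftHF_lt, if_pos rfl]

theorem elX_ne {x y : X} (a b : HF H X) (h : y ≠ x) : elX x a b (lt y) = lt y := by
  rw [elX, liftHF_lt, if_neg h]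

theorem elX_keep (x : X) (a b n : HF H X) (hn : kX {x}ᶜ n = n) : elX x a b n = n := by
  have h1 : (elX x a b).comp (kX {x}ᶜ) = kX {x}ᶜ := by
    apply HF_ext
    · intro h
      rw [MonoidHom.comp_apply, kX_hh, elX_hh]
    · intro y
      rw [MonoidHom.comp_apply]
      by_cases hy : y = x
      · have : y ∉ ({x}ᶜ : Set X) := fun h => h hy
        rw [kX_not this, map_one]
      · have : y ∈ ({x}ᶜ : Set X) := hy
        rw [kX_mem this, elX_ne _ _ hy]
  have h2 := DFunLike.congr_fun h1 n
  rw [MonoidHom.comp_apply, hn] at h2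
  exact h2

theorem elX_elX (x : X) (a b a' b' : HF H X) (ha : kX {x}ᶜ a' = a') (hb : kX {x}ᶜ b' = b')
    (h1 : a' * a = 1) (h2 : b * b' = 1) (n : HF H X) : elX x a b (elX x a' b' n) = n := by
  have h3 : (elX x a b).comp (elX x a' b') = MonoidHom.id _ := by
    apply HF_ext
    · intro h
      rw [MonoidHom.comp_apply, elX_hh, elX_hh]; rfl
    · intro y
      rw [MonoidHom.comp_apply, MonoidHom.id_apply]
      by_cases hy : y = x
      · subst hy
        rw [elX_self, map_mul, map_mul, elX_keep _ _ _ _ ha, elX_keep _ _ _ _ hb, elX_self]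
        have e : a' * (a * lt y * b) * b' = (a' * a) * lt y * (b * b') := by group
        rw [e, h1, h2, one_mul, mul_one]
      · rw [elX_ne _ _ hy, elX_ne _ _ hy]
  exact DFunLike.congr_fun h3 n

/-- the elementary automorphism -/
noncomputable def elXA (x : X) (a b : HF H X) (ha : kX {x}ᶜ a = a) (hb : kX {x}ᶜ b = b) :
    MulAut (HF H X) :=
  MonoidHom.toMulEquiv (elX x a b) (elX x a⁻¹ b⁻¹)
    (MonoidHom.ext fun n => elX_elX x a⁻¹ b⁻¹ a b ha hb (mul_inv_cancel _) (inv_mul_cancel _) n)
    (MonoidHom.ext fun n => elX_elX x a b a⁻¹ b⁻¹ (by rw [map_inv, ha]) (by rw [map_inv, hb])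
      (inv_mul_cancel _) (mul_inv_cancel _) n)

end basic

section step

variable {H X : Type} [Group H] {x : X} {a b : HF H X} (ha : kX {x}ᶜ a = a) (hb : kX {x}ᶜ b = b)
  {β : MulAut (HF H X)}

theorem tZ_zpow_right {N : Type} [Group N] (σ : MulAut N) (n : N) (m : ℤ) :
    SemidirectProduct.rightHom (((SemidirectProduct.inl n : SZ σ) * tZ σ) ^ m) =
      Multiplicative.ofAdd m := by
  rw [map_zpow, map_mul, SemidirectProduct.rightHom_inl, one_mul, tZ,
    SemidirectProduct.rightHom_inr, ← ofAdd_zsmul, smul_eq_mul, mul_one]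

/-- **the step** -/
theorem let_step (hC : ClosedE C) (h1 : ∀ h, kX {x}ᶜ (β (hh h)) = β (hh h))
    (h2 : ∀ y, y ≠ x → kX {x}ᶜ (β (lt y)) = β (lt y)) (h3 : β (lt x) = lt x)
    (hβ : C (SZ β)) : C (SZ (elXA x a b ha hb * β)) := by
  set β' : MulAut (HF H X) := elXA x a b ha hb * β with hβ'
  have hβa : ∀ n, β' n = elX x a b (β n) := fun n => rfl
  -- `β` on the retract
  have hkb : ∀ n, kX {x}ᶜ (β (kX {x}ᶜ n)) = β (kX {x}ᶜ n) := by
    have h4 : ((kX {x}ᶜ).comp β.toMonoidHom).comp (kX {x}ᶜ) = β.toMonoidHom.comp (kX {x}ᶜ) := by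
      apply HF_ext
      · intro h
        show kX {x}ᶜ (β (kX {x}ᶜ (hh h))) = β (kX {x}ᶜ (hh h))
        rw [kX_hh, h1]
      · intro y
        show kX {x}ᶜ (β (kX {x}ᶜ (lt y))) = β (kX {x}ᶜ (lt y))
        by_cases hy : y = x
        · have : y ∉ ({x}ᶜ : Set X) := fun h => h hy
          rw [kX_not this, map_one, map_one]
        · have : y ∈ ({x}ᶜ : Set X) := hy
          rw [kX_mem this, h2 y hy]
    exact fun n => DFunLike.congr_fun h4 n
  have hkb2 : ∀ n, kX {x}ᶜ (β n) = β (kX {x}ᶜ n) := by
    have h4 : (kX {x}ᶜ).comp β.toMonoidHom = β.toMonoidHom.comp (kX {x}ᶜ) := by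
      apply HF_ext
      · intro h
        show kX {x}ᶜ (β (hh h)) = β (kX {x}ᶜ (hh h))
        rw [kX_hh, h1]
      · intro y
        show kX {x}ᶜ (β (lt y)) = β (kX {x}ᶜ (lt y))
        by_cases hy : y = x
        · have : y ∉ ({x}ᶜ : Set X) := fun h => h hy
          rw [kX_not this, map_one, hy, h3]
          exact kX_not (S := ({x}ᶜ : Set X)) (fun (h : x ∈ ({x}ᶜ : Set X)) => h rfl)
        · have : y ∈ ({x}ᶜ : Set X) := hy
          rw [kX_mem this, h2 y hy]
    exact fun n => DFunLike.congr_fun h4 n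
  have hkT : ∀ n, kX {x}ᶜ n = n → β' n = β n := by
    intro n hn
    rw [hβa]
    apply elX_keep
    rw [hkb2, hn]
  have hkb3 : ∀ n, kX {x}ᶜ (β n) = β' (kX {x}ᶜ n) := by
    intro n
    rw [hkT _ (kX_kX _ _), hkb2]
  have hβx : β' (lt x) = a * lt x * b := by rw [hβa, h3, elX_self]
  -- the associated subgroups
  let M := SZ β
  let inlM : HF H X →* M := SemidirectProduct.inl
  let pa : M := inlM a⁻¹ * tZ β
  let pb : M := inlM b * tZ β
  let za : Multiplicative ℤ →* M := zpowersHom M pa
  let zb : Multiplicative ℤ →* M := zpowersHom M pb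
  have hza : ∀ m : Multiplicative ℤ, SemidirectProduct.rightHom (za m) = m := fun m =>
    tZ_zpow_right β _ (Multiplicative.toAdd m)
  have hzb : ∀ m : Multiplicative ℤ, SemidirectProduct.rightHom (zb m) = m := fun m =>
    tZ_zpow_right β _ (Multiplicative.toAdd m)
  have hia : Function.Injective za := Function.LeftInverse.injective hza
  have hib : Function.Injective zb := Function.LeftInverse.injective hzb
  -- the stable letter conjugates `b t` to `a⁻¹ t`
  let φ : zb.range ≃* za.range := (MonoidHom.ofInjective hib).symm.trans (MonoidHom.ofInjective hia)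
  have hφ : ∀ z, ((φ ⟨zb z, z, rfl⟩ : za.range) : M) = za z := by
    intro z
    have h4 : (MonoidHom.ofInjective hib).symm ⟨zb z, z, rfl⟩ = z := by
      rw [MulEquiv.symm_apply_eq]; rfl
    show ((MonoidHom.ofInjective hia ((MonoidHom.ofInjective hib).symm ⟨zb z, z, rfl⟩) : za.range) :
      M) = za z
    rw [h4]; rfl
  let E := HNNExtension M zb.range za.range φ
  let ofE : M →* E := HNNExtension.of
  let s : E := HNNExtension.t
  have hs : s * ofE pb * s⁻¹ = ofE pa := by
    have h4 := HNNExtension.equiv_eq_conj (φ := φ) ⟨zb (Multiplicative.ofAdd 1), _, rfl⟩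
    rw [hφ] at h4
    have h5 : zb (Multiplicative.ofAdd 1) = pb := zpow_one pb
    have h6 : za (Multiplicative.ofAdd 1) = pa := zpow_one pa
    rw [h6] at h4
    have h7 : ((⟨zb (Multiplicative.ofAdd 1), Multiplicative.ofAdd 1, rfl⟩ : zb.range) : M) = pb := h5
    rw [h7] at h4
    exact h4.symm
  -- the homomorphism to `E`
  open Classical in
  let γ : HF H X →* E := liftHF ((ofE.comp inlM).comp hh)
    (fun y => if y = x then s else ofE (inlM (lt y)))
  have hγh : ∀ h, γ (hh h) = ofE (inlM (hh h)) := fun h => liftHF_hh _ _ h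
  have hγx : γ (lt x) = s := by
    show liftHF _ _ (lt x) = s
    rw [liftHF_lt, if_pos rfl]
  have hγy : ∀ y, y ≠ x → γ (lt y) = ofE (inlM (lt y)) := by
    intro y hy
    show liftHF _ _ (lt y) = _
    rw [liftHF_lt, if_neg hy]
  have hγk : ∀ n, kX {x}ᶜ n = n → γ n = ofE (inlM n) := by
    have h4 : γ.comp (kX {x}ᶜ) = (ofE.comp inlM).comp (kX {x}ᶜ) := by
      apply HF_ext
      · intro h
        show γ (kX {x}ᶜ (hh h)) = ofE (inlM (kX {x}ᶜ (hh h)))
        rw [kX_hh, hγh]
      · intro y
        show γ (kX {x}ᶜ (lt y)) = ofE (inlM (kX {x}ᶜ (lt y)))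
        by_cases hy : y = x
        · have : y ∉ ({x}ᶜ : Set X) := fun h => h hy
          rw [kX_not this, map_one, map_one, map_one]
        · have : y ∈ ({x}ᶜ : Set X) := hy
          rw [kX_mem this, hγy y hy]
    intro n hn
    have h5 := DFunLike.congr_fun h4 n
    have h6 : γ (kX {x}ᶜ n) = ofE (inlM (kX {x}ᶜ n)) := h5
    rwa [hn] at h6
  have hrel : ∀ n, ofE (tZ β) * γ n * (ofE (tZ β))⁻¹ = γ (β' n) := by
    have h4 : (MulAut.conj (ofE (tZ β))).toMonoidHom.comp γ = γ.comp β'.toMonoidHom := by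
      apply HF_ext
      · intro h
        show ofE (tZ β) * γ (hh h) * (ofE (tZ β))⁻¹ = γ (β' (hh h))
        rw [hkT _ (kX_hh _ h), hγh, hγk _ (h1 h), ← tZ_conj, map_mul, map_mul, map_inv]
      · intro y
        show ofE (tZ β) * γ (lt y) * (ofE (tZ β))⁻¹ = γ (β' (lt y))
        by_cases hy : y = x
        · subst hy
          rw [hβx, map_mul, map_mul, hγx, hγk _ ha, hγk _ hb]
          have h5 : ofE pb = ofE (inlM b) * ofE (tZ β) := map_mul _ _ _
          have h6 : ofE pa = (ofE (inlM a))⁻¹ * ofE (tZ β) := by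
            rw [show pa = inlM a⁻¹ * tZ β from rfl, map_mul, map_inv, map_inv]
          rw [h5, h6] at hs
          have h7 : ofE (tZ β) = ofE (inlM a) * (s * (ofE (inlM b) * ofE (tZ β)) * s⁻¹) := by
            rw [hs]; group
          have h8 : ofE (tZ β) * s * (ofE (tZ β))⁻¹ =
              (ofE (inlM a) * (s * (ofE (inlM b) * ofE (tZ β)) * s⁻¹)) * s * (ofE (tZ β))⁻¹ :=
            congrArg (fun z => z * s * (ofE (tZ β))⁻¹) h7
          rw [h8]
          group
        · have : y ∈ ({x}ᶜ : Set X) := hy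
          rw [hkT _ (kX_mem this), hγy y hy, hγk _ (h2 y hy), ← tZ_conj, map_mul, map_mul, map_inv]
    exact fun n => DFunLike.congr_fun h4 n
  let S : SZ β' →* E := liftZ β' γ (ofE (tZ β)) hrel
  -- the left inverse
  let rM : M →* SZ β' := mapZ β β' (kX {x}ᶜ) hkb3
  have hrM : ∀ n, rM (inlM n) = SemidirectProduct.inl (kX {x}ᶜ n) := fun n => mapZ_inl _ _ _ _ n
  have hrMt : rM (tZ β) = tZ β' := mapZ_t _ _ _ _
  let inl' : HF H X →* SZ β' := SemidirectProduct.inl
  have hpab : inl' (lt x) * rM pb = rM pa * inl' (lt x) := by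
    have h4 : tZ β' * inl' (lt x) * (tZ β')⁻¹ = inl' (a * lt x * b) := by
      rw [← hβx]; exact tZ_conj β' _
    have h5 : rM pb = inl' b * tZ β' := by
      rw [show pb = inlM b * tZ β from rfl, map_mul, hrM, hrMt, hb]
    have h6 : rM pa = (inl' a)⁻¹ * tZ β' := by
      rw [show pa = inlM a⁻¹ * tZ β from rfl, map_mul, hrM, hrMt, map_inv (kX {x}ᶜ), ha]
      rfl
    rw [h5, h6]
    rw [map_mul inl', map_mul inl'] at h4
    have h7 : tZ β' * inl' (lt x) = inl' a * inl' (lt x) * inl' b * tZ β' := by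
      rw [← h4]; group
    rw [mul_assoc, h7]
    group
  let R : E →* SZ β' := HNNExtension.lift rM (inl' (lt x)) (by
    rintro ⟨_, z, rfl⟩
    rw [hφ z]
    show inl' (lt x) * rM (pb ^ (Multiplicative.toAdd z)) = rM (pa ^ (Multiplicative.toAdd z)) *
      inl' (lt x)
    have h4 : inl' (lt x) * rM pb * (inl' (lt x))⁻¹ = rM pa := by
      rw [hpab, mul_inv_cancel_right]
    rw [map_zpow, map_zpow, ← h4, _root_.conj_zpow, inv_mul_cancel_right])
  have hR : ∀ m, R (ofE m) = rM m := fun m => HNNExtension.lift_of _ _ _ _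
  have hRs : R s = inl' (lt x) := HNNExtension.lift_t _ _ _
  have hRS : ∀ z, R (S z) = z := by
    have h4 : R.comp S = MonoidHom.id _ := by
      apply SZ_ext
      · intro n
        show R (S (SemidirectProduct.inl n)) = SemidirectProduct.inl n
        have h5 : S (SemidirectProduct.inl n) = γ n := liftZ_inl _ _ _ _ n
        rw [h5]
        have h6 : R.comp γ = inl' := by
          apply HF_ext
          · intro h
            show R (γ (hh h)) = inl' (hh h)
            rw [hγh, hR, hrM, kX_hh]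
          · intro y
            show R (γ (lt y)) = inl' (lt y)
            by_cases hy : y = x
            · subst hy
              rw [hγx, hRs]
            · have : y ∈ ({x}ᶜ : Set X) := hy
              rw [hγy y hy, hR, hrM, kX_mem this]
        exact DFunLike.congr_fun h6 n
      · show R (S (tZ β')) = tZ β'
        have h5 : S (tZ β') = ofE (tZ β) := liftZ_t _ _ _ _
        rw [h5, hR, hrMt]
    exact fun z => DFunLike.congr_fun h4 z
  refine hC.base.of_injective _ _ S (Function.LeftInverse.injective hRS) ?_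
  refine hnn_edge hC ((SemidirectProduct.rightHom : SZ β' →* Multiplicative ℤ).comp R) hC.base.int
    ?_ hβ
  rintro _ ⟨z, rfl⟩ h4
  have h5 : SemidirectProduct.rightHom (R (ofE (zb z))) = (1 : Multiplicative ℤ) := h4
  rw [hR] at h5
  have h6 : SemidirectProduct.rightHom (rM (zb z)) = z := by
    have h7 : rM (zb z) = (SemidirectProduct.inl b * tZ β') ^ (Multiplicative.toAdd z) := by
      have h8 : rM pb = SemidirectProduct.inl b * tZ β' := by
        rw [show pb = inlM b * tZ β from rfl, map_mul, hrM, hrMt, hb]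
      show rM (pb ^ (Multiplicative.toAdd z)) = _
      rw [map_zpow, h8]
    rw [h7]
    exact tZ_zpow_right β' b _
  rw [h6] at h5
  rw [h5, map_one]

end step

section main

variable {H X : Type} [Group H]

/-- the automorphism which extends `τ` and fixes the letters -/
def extA (τ : MulAut H) : MulAut (HF H X) :=
  MonoidHom.toMulEquiv (liftHF (hh.comp τ.toMonoidHom) lt) (liftHF (hh.comp (τ⁻¹).toMonoidHom) lt)
    (by
      apply HF_ext
      · intro h
        show liftHF (hh.comp (τ⁻¹).toMonoidHom) lt (liftHF (hh.comp τ.toMonoidHom) lt (hh h)) = hh h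
        rw [liftHF_hh]
        show liftHF (hh.comp (τ⁻¹).toMonoidHom) lt (hh (τ h)) = hh h
        rw [liftHF_hh]
        show hh (τ⁻¹ (τ h)) = hh h
        rw [MulAut.inv_apply_self]
      · intro x
        show liftHF (hh.comp (τ⁻¹).toMonoidHom) lt (liftHF (hh.comp τ.toMonoidHom) lt (lt x)) = lt x
        rw [liftHF_lt, liftHF_lt])
    (by
      apply HF_ext
      · intro h
        show liftHF (hh.comp τ.toMonoidHom) lt (liftHF (hh.comp (τ⁻¹).toMonoidHom) lt (hh h)) = hh h
        rw [liftHF_hh]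
        show liftHF (hh.comp τ.toMonoidHom) lt (hh (τ⁻¹ h)) = hh h
        rw [liftHF_hh]
        show hh (τ (τ⁻¹ h)) = hh h
        rw [MulAut.apply_inv_self]
      · intro x
        show liftHF (hh.comp τ.toMonoidHom) lt (liftHF (hh.comp (τ⁻¹).toMonoidHom) lt (lt x)) = lt x
        rw [liftHF_lt, liftHF_lt])

theorem extA_hh (τ : MulAut H) (h : H) : (extA τ : MulAut (HF H X)) (hh h) = hh (τ h) :=
  liftHF_hh (hh.comp τ.toMonoidHom) lt h

theorem extA_lt (τ : MulAut H) (x : X) : (extA τ : MulAut (HF H X)) (lt x) = lt x :=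
  liftHF_lt (hh.comp τ.toMonoidHom) lt x

theorem c_extA (hC : ClosedE C) (τ : MulAut H) (hτ : C (SZ τ)) :
    C (SZ (extA τ : MulAut (HF H X))) := by
  set β : MulAut (HF H X) := extA τ with hβ
  have hβh : ∀ h, β (hh h) = hh (τ h) := extA_hh τ
  have hβl : ∀ x, β (lt x) = lt x := extA_lt τ
  let Z := Multiplicative ℤ
  let Y := Z × FreeGroup X
  let i : Z →* SZ τ := zpowersHom _ (tZ τ)
  let j : Z →* Y := MonoidHom.inl Z (FreeGroup X)
  have hir : ∀ z : Z, SemidirectProduct.rightHom (i z) = z := by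
    intro z
    have h1 := tZ_zpow_right τ 1 (Multiplicative.toAdd z)
    rw [map_one, one_mul] at h1
    exact h1
  have hi : Function.Injective i := Function.LeftInverse.injective hir
  have hj : Function.Injective j := fun a b h => congrArg Prod.fst h
  let T : PU i j := puX i j (tZ τ)
  have hT : T = puY i j (Multiplicative.ofAdd 1, 1) := by
    have h1 := pu_eq i j (Multiplicative.ofAdd 1)
    have h2 : i (Multiplicative.ofAdd 1) = tZ τ := zpow_one _
    rw [h2] at h1
    exact h1
  let γ : HF H X →* PU i j := liftHF ((puX i j).comp SemidirectProduct.inl)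
    (fun x => puY i j (1, FreeGroup.of x))
  have hγh : ∀ h, γ (hh h) = puX i j (SemidirectProduct.inl h) := fun h => liftHF_hh _ _ h
  have hγl : ∀ x, γ (lt x) = puY i j (1, FreeGroup.of x) := fun x => liftHF_lt _ _ x
  have hrel : ∀ n, T * γ n * T⁻¹ = γ (β n) := by
    have h4 : (MulAut.conj T).toMonoidHom.comp γ = γ.comp β.toMonoidHom := by
      apply HF_ext
      · intro h
        show T * γ (hh h) * T⁻¹ = γ (β (hh h))
        rw [hβh, hγh, hγh, ← tZ_conj, map_mul, map_mul, map_inv]
      · intro x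
        show T * γ (lt x) * T⁻¹ = γ (β (lt x))
        rw [hβl, hγl, hT, ← map_inv, ← map_mul, ← map_mul]
        have h5 : ((Multiplicative.ofAdd 1, 1) : Y) * (1, FreeGroup.of x) *
            (Multiplicative.ofAdd 1, 1)⁻¹ = (1, FreeGroup.of x) := by
          apply Prod.ext
          · show Multiplicative.ofAdd 1 * 1 * (Multiplicative.ofAdd 1)⁻¹ = (1 : Z)
            rfl
          · show 1 * FreeGroup.of x * 1⁻¹ = FreeGroup.of x
            rw [one_mul, inv_one, mul_one]
        exact congrArg (puY i j) h5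
    exact fun n => DFunLike.congr_fun h4 n
  let S : SZ β →* PU i j := liftZ β γ T hrel
  -- the left inverse
  let inl' : HF H X →* SZ β := SemidirectProduct.inl
  let rX : SZ τ →* SZ β := mapZ τ β hh (fun h => (hβh h).symm)
  have hrXl : ∀ h, rX (SemidirectProduct.inl h) = inl' (hh h) := fun h => mapZ_inl _ _ _ _ h
  have hrXt : rX (tZ τ) = tZ β := mapZ_t _ _ _ _
  have hcomm : ∀ (m : Z) (w : FreeGroup X), Commute (zpowersHom (SZ β) (tZ β) m)
      ((inl'.comp Coprod.inr) w) := by
    intro m w
    have h1 : ∀ w : FreeGroup X, tZ β * inl' (Coprod.inr w) * (tZ β)⁻¹ = inl' (Coprod.inr w) := by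
      intro w
      have h2 : (MulAut.conj (tZ β)).toMonoidHom.comp (inl'.comp Coprod.inr) =
          inl'.comp (Coprod.inr : FreeGroup X →* HF H X) := by
        apply FreeGroup.ext_hom
        intro x
        show tZ β * inl' (lt x) * (tZ β)⁻¹ = inl' (lt x)
        have h3 : tZ β * inl' (lt x) * (tZ β)⁻¹ = inl' (β (lt x)) := tZ_conj β _
        rw [h3, hβl]
      exact DFunLike.congr_fun h2 w
    have h2 : Commute (tZ β) (inl' (Coprod.inr w)) := by
      have h3 := h1 w
      exact (mul_inv_eq_iff_eq_mul.1 h3)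
    exact h2.zpow_left _
  let rY : Y →* SZ β := MonoidHom.noncommCoprod (zpowersHom (SZ β) (tZ β)) (inl'.comp Coprod.inr)
    hcomm
  have hrY : ∀ (m : Z) (w : FreeGroup X), rY (m, w) = zpowersHom (SZ β) (tZ β) m *
      inl' (Coprod.inr w) := fun m w => rfl
  obtain ⟨R, hR1, hR2⟩ := pu_lift i j rX rY (by
    intro z
    show rX (tZ τ ^ (Multiplicative.toAdd z)) = rY (z, 1)
    rw [map_zpow, hrXt, hrY, map_one, map_one, mul_one]
    rfl)
  have hRS : ∀ z, R (S z) = z := by
    have h4 : R.comp S = MonoidHom.id _ := by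
      apply SZ_ext
      · intro n
        show R (S (SemidirectProduct.inl n)) = SemidirectProduct.inl n
        have h5 : S (SemidirectProduct.inl n) = γ n := liftZ_inl _ _ _ _ n
        rw [h5]
        have h6 : R.comp γ = inl' := by
          apply HF_ext
          · intro h
            show R (γ (hh h)) = inl' (hh h)
            rw [hγh, hR1, hrXl]
          · intro y
            show R (γ (lt y)) = inl' (lt y)
            rw [hγl, hR2, hrY, map_one, one_mul]
            rfl
        exact DFunLike.congr_fun h6 n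
      · show R (S (tZ β)) = tZ β
        have h5 : S (tZ β) = T := liftZ_t _ _ _ _
        rw [h5]
        show R (puX i j (tZ τ)) = tZ β
        rw [hR1, hrXt]
    exact fun z => DFunLike.congr_fun h4 z
  refine hC.base.of_injective _ _ S (Function.LeftInverse.injective hRS) ?_
  refine pu_edge i j hC hi hj ((SemidirectProduct.rightHom : SZ β →* Z).comp R) hC.base.int ?_ hτ
    (hC.base.prod _ _ hC.base.int (Pool.Agent.Y179.SS.t_free C hC.base X))
  intro z hz
  have h5 : SemidirectProduct.rightHom (R (puX i j (i z))) = (1 : Z) := hz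
  rw [hR1] at h5
  have h6 : SemidirectProduct.rightHom (rX (i z)) = z := by
    have h7 : rX (i z) = (SemidirectProduct.inl 1 * tZ β) ^ (Multiplicative.toAdd z) := by
      show rX (tZ τ ^ (Multiplicative.toAdd z)) = _
      rw [map_zpow, hrXt, map_one, one_mul]
    rw [h7]
    exact tZ_zpow_right β 1 _
  rwa [h6] at h5

/-- the subgroup generated by `H` and the letters smaller than `x` -/
def lowX (r : X → X → Prop) (x : X) : Subgroup (HF H X) :=
  Subgroup.closure ({n | ∃ h : H, n = hh h} ∪ {n | ∃ y, r y x ∧ n = lt y})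

theorem kX_low (r : X → X → Prop) (x : X) (T : Set X) (hT : ∀ y, r y x → y ∈ T) (n : HF H X)
    (hn : n ∈ lowX r x) : kX T n = n := by
  have h1 : lowX r x ≤ (kX T : HF H X →* HF H X).eqLocus (MonoidHom.id _) := by
    rw [lowX, Subgroup.closure_le]
    rintro _ (⟨h, rfl⟩ | ⟨y, hy, rfl⟩)
    · exact kX_hh T h
    · exact kX_mem (hT y hy)
  exact h1 hn

theorem let_fin (hC : ClosedE C) (r : X → X → Prop) [IsStrictOrder X r] (τ : MulAut H)
    (hτ : C (SZ τ)) (u v : X → HF H X) (hu : ∀ x, u x ∈ lowX r x) (hv : ∀ x, v x ∈ lowX r x)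
    (n : ℕ) : ∀ S : Finset X, S.card = n →
    ∃ β : MulAut (HF H X), C (SZ β) ∧ (∀ h, β (hh h) = hh (τ h)) ∧
      (∀ x ∈ S, β (lt x) = u x * lt x * v x) ∧ ∀ x ∉ S, β (lt x) = lt x := by
  classical
  induction n with
  | zero =>
    intro S hS
    have h0 : S = ∅ := Finset.card_eq_zero.1 hS
    subst h0
    exact ⟨extA τ, c_extA hC τ hτ, extA_hh τ, fun x hx => absurd hx (Finset.notMem_empty x),
      fun x _ => extA_lt τ x⟩
  | succ n ih =>
    intro S hS
    have hne : S.Nonempty := by
      rw [← Finset.card_pos]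
      omega
    obtain ⟨k, hk, hmax⟩ : ∃ k ∈ S, ∀ j ∈ S, ¬ r k j := by
      have hwf : WellFounded (fun a b : S => r b a) := by
        have : IsTrans S (fun a b : S => r b a) := ⟨fun a b c h1 h2 => _root_.trans h2 h1⟩
        have : Std.Irrefl (fun a b : S => r b a) := ⟨fun a h => irrefl _ h⟩
        exact Finite.wellFounded_of_trans_of_irrefl _
      obtain ⟨k, -, hk⟩ := hwf.has_min Set.univ ⟨⟨hne.choose, hne.choose_spec⟩, trivial⟩
      exact ⟨k, k.2, fun j hj => hk ⟨j, hj⟩ trivial⟩
    obtain ⟨β, hβC, hβh, hβS, hβn⟩ := ih (S.erase k) (by rw [Finset.card_erase_of_mem hk, hS]; rfl)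
    have hsk : ∀ y, r y k → y ∈ ({k}ᶜ : Set X) := by
      intro y hy (h : y = k)
      subst h
      exact irrefl _ hy
    have hsj : ∀ j ∈ S, ∀ y, r y j → y ∈ ({k}ᶜ : Set X) := by
      intro j hj y hy (h : y = k)
      subst h
      exact hmax j hj hy
    have hak := kX_low r k _ hsk (u k) (hu k)
    have hbk := kX_low r k _ hsk (v k) (hv k)
    have h1 : ∀ h, kX {k}ᶜ (β (hh h)) = β (hh h) := by
      intro h
      rw [hβh, kX_hh]
    have h2 : ∀ y, y ≠ k → kX {k}ᶜ (β (lt y)) = β (lt y) := by
      intro y hy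
      have hy' : y ∈ ({k}ᶜ : Set X) := hy
      by_cases hyS : y ∈ S.erase k
      · have hyS' := Finset.mem_of_mem_erase hyS
        rw [hβS y hyS, map_mul, map_mul, kX_low r y _ (hsj y hyS') _ (hu y),
          kX_low r y _ (hsj y hyS') _ (hv y), kX_mem hy']
      · rw [hβn y hyS, kX_mem hy']
    have h3 : β (lt k) = lt k := hβn k (Finset.notMem_erase k S)
    refine ⟨elXA k (u k) (v k) hak hbk * β, let_step hak hbk hC h1 h2 h3 hβC, ?_, ?_, ?_⟩
    · intro h
      show elX k (u k) (v k) (β (hh h)) = _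
      rw [hβh, elX_hh]
    · intro y hy
      show elX k (u k) (v k) (β (lt y)) = _
      by_cases hyk : y = k
      · subst hyk
        rw [h3, elX_self]
      · have hyS : y ∈ S.erase k := Finset.mem_erase.2 ⟨hyk, hy⟩
        rw [elX_keep k _ _ _ (h2 y hyk), hβS y hyS]
    · intro y hy
      have hyk : y ≠ k := fun h => hy (h ▸ hk)
      have hyS : y ∉ S.erase k := fun h => hy (Finset.mem_of_mem_erase h)
      show elX k (u k) (v k) (β (lt y)) = _
      rw [hβn y hyS, elX_ne _ _ hyk]

theorem kX_fin (n : HF H X) : ∃ S : Set X, S.Finite ∧ ∀ T : Set X, S ⊆ T → kX T n = n := by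
  let P : Subgroup (HF H X) :=
    { carrier := {n | ∃ S : Set X, S.Finite ∧ ∀ T : Set X, S ⊆ T → kX T n = n}
      one_mem' := ⟨∅, Set.finite_empty, fun T _ => map_one _⟩
      mul_mem' := by
        rintro x y ⟨S, hS, hx⟩ ⟨S', hS', hy⟩
        refine ⟨S ∪ S', hS.union hS', fun T hT => ?_⟩
        rw [map_mul, hx T (Set.subset_union_left.trans hT), hy T (Set.subset_union_right.trans hT)]
      inv_mem' := by
        rintro x ⟨S, hS, hx⟩
        exact ⟨S, hS, fun T hT => by rw [map_inv, hx T hT]⟩ }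
  have h1 : ∀ h, hh h ∈ P := fun h => ⟨∅, Set.finite_empty, fun T _ => kX_hh T h⟩
  have h2 : ∀ x, lt x ∈ P := fun x => ⟨{x}, Set.finite_singleton x, fun T hT =>
    kX_mem (hT rfl)⟩
  have h3 : P.subtype.comp (liftHF (H := H) (X := X)
      ({ toFun := fun h => ⟨hh h, h1 h⟩
         map_one' := Subtype.ext (map_one hh)
         map_mul' := fun a b => Subtype.ext (map_mul hh a b) } : H →* P)
      (fun x => ⟨lt x, h2 x⟩)) = MonoidHom.id _ := by
    apply HF_ext
    · intro h
      rw [MonoidHom.comp_apply, liftHF_hh]; rfl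
    · intro x
      rw [MonoidHom.comp_apply, liftHF_lt]; rfl
  have h4 := DFunLike.congr_fun h3 n
  have h5 : n ∈ P := by
    have : (P.subtype.comp (liftHF (H := H) (X := X)
      ({ toFun := fun h => ⟨hh h, h1 h⟩
         map_one' := Subtype.ext (map_one hh)
         map_mul' := fun a b => Subtype.ext (map_mul hh a b) } : H →* P)
      (fun x => ⟨lt x, h2 x⟩))) n ∈ P := Subtype.property _
    rw [h4] at this
    exact this
  exact h5

/-- `σ` maps `H` to itself by `τ` and each letter `x` to `u x v` with `u` and `v` in the subgroup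
generated by `H` and smaller letters, in a strict partial order `r` -/
def LetFor (r : X → X → Prop) (τ : MulAut H) (σ : MulAut (HF H X)) : Prop :=
  (∀ h, σ (hh h) = hh (τ h)) ∧ ∀ x, ∃ u ∈ lowX r x, ∃ v ∈ lowX r x, σ (lt x) = u * lt x * v

theorem c_let (hC : ClosedE C) (r : X → X → Prop) (hr : IsStrictOrder X r) (τ : MulAut H)
    (hτ : C (SZ τ)) (σ : MulAut (HF H X)) (h : LetFor r τ σ) : C (SZ σ) := by
  obtain ⟨hh', h2⟩ := h
  choose u hu v hv hσ using h2
  apply c_locZ hC
  intro E hE
  choose S hS1 hS2 using kX_fin (H := H) (X := X)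
  let T : Set X := ⋃ x ∈ E, S x
  have hT : T.Finite := hE.biUnion fun x _ => hS1 x
  obtain ⟨β, hβC, hβh, hβ1, hβ2⟩ := let_fin hC r τ hτ u v hu hv hT.toFinset.card hT.toFinset rfl
  refine ⟨β, hβC, fun x hx => ?_⟩
  have h1 : β.toMonoidHom.comp (kX T) = σ.toMonoidHom.comp (kX T) := by
    apply HF_ext
    · intro h
      show β (kX T (hh h)) = σ (kX T (hh h))
      rw [kX_hh, hβh, hh']
    · intro y
      show β (kX T (lt y)) = σ (kX T (lt y))
      by_cases hy : y ∈ T
      · rw [kX_mem hy, hβ1 y (hT.mem_toFinset.2 hy), hσ]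
      · rw [kX_not hy, map_one, map_one]
  have h2 : kX T x = x := hS2 x T (Set.subset_biUnion_of_mem (u := S) hx)
  have h3 := DFunLike.congr_fun h1 x
  have h4 : β (kX T x) = σ (kX T x) := h3
  rw [h2] at h4
  exact h4

end main

end Pool.Agent.X176.FJ
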