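import Mathlib
import Pool.Agent.X176.FJ.Lett

/-!
Semidirect products `(H * F(X)) ⋊ Q`.
-/

set_option autoImplicit false

namespace Pool.Agent.X176.FJ

open Pool.Agent.Y110.FJ Monoid
open Pool.Agent.Y462.SS (Closed)

variable {C : ∀ (G : Type) [Group G], Prop} {H X Q : Type} [Group H] [Group Q]

/-- the action of `Q` on `H * F(X)` extends the action on `H` -/
def ExtendsAct (ψ : Q →* MulAut H) (φ : Q →* MulAut (HF H X)) : Prop :=
  ∀ q h, φ q (hh h) = hh (ψ q h)

/-- each `q` has a positive power which maps each letter `x` to `u x v` with `u`, `v` in the subgroup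
generated by `H` and the letters smaller than `x` in a strict partial order depending on `q` -/
def LetTri (φ : Q →* MulAut (HF H X)) : Prop :=
  ∀ q : Q, ∃ (m : ℕ) (r : X → X → Prop), 0 < m ∧ IsStrictOrder X r ∧
    ∀ x, ∃ u ∈ lowX r x, ∃ v ∈ lowX r x, ((φ q) ^ m) (lt x) = u * lt x * v

/-- each `q` has a positive power which maps `H` to itself by an automorphism `τ` with `H ⋊_τ ℤ` in
the class and each letter `x` to `u x v` as above -/
def LetTriC (C : ∀ (G : Type) [Group G], Prop) (φ : Q →* MulAut (HF H X)) : Prop :=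
  ∀ q : Q, ∃ (m : ℕ) (r : X → X → Prop) (τ : MulAut H), 0 < m ∧ IsStrictOrder X r ∧ C (SZ τ) ∧
    LetFor r τ ((φ q) ^ m)

theorem semi_letC (hC : ClosedE C) (φ : Q →* MulAut (HF H X)) (h : LetTriC C φ) :
    C (HF H X ⋊[φ] Q) ↔ C Q := by
  constructor
  · intro h1
    exact hC.base.of_injective _ _ (SemidirectProduct.inr : Q →* HF H X ⋊[φ] Q)
      SemidirectProduct.inr_injective h1
  · intro hQ
    refine semi_crit hC φ hQ fun q E _ => ⟨φ q, ?_, fun _ _ => rfl⟩
    obtain ⟨m, r, τ, hm, hr, hτ, hL⟩ := h q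
    exact c_pow hC.base (φ q) m hm (c_let hC r hr τ hτ _ hL)

/-- the semidirect product with one power of `q` -/
theorem sz_of_semi (hC : Closed C) (ψ : Q →* MulAut H) (q : Q) (h : C (H ⋊[ψ] Q)) :
    C (SZ (ψ q)) := by
  let D := (H ⋊[ψ] Q) × Multiplicative ℤ
  let f : H →* D := (MonoidHom.inl (H ⋊[ψ] Q) (Multiplicative ℤ)).comp SemidirectProduct.inl
  let t : D := (SemidirectProduct.inr q, Multiplicative.ofAdd 1)
  have hrel : ∀ n, t * f n * t⁻¹ = f (ψ q n) := by
    intro n
    apply Prod.ext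
    · show (SemidirectProduct.inr q : H ⋊[ψ] Q) * SemidirectProduct.inl n *
        (SemidirectProduct.inr q)⁻¹ = SemidirectProduct.inl (ψ q n)
      rw [SemidirectProduct.inl_aut, map_inv]
    · show Multiplicative.ofAdd (1 : ℤ) * 1 * (Multiplicative.ofAdd (1 : ℤ))⁻¹ = 1
      rfl
  have h1 : C D := hC.prod _ _ h hC.int
  refine hC.of_injective _ _ (liftZ (ψ q) f t hrel) ?_ h1
  rw [injective_iff_map_eq_one]
  intro x hx
  have h2 : ∀ y : SZ (ψ q), (liftZ (ψ q) f t hrel y).2 = y.right := by
    have h3 : (MonoidHom.snd (H ⋊[ψ] Q) (Multiplicative ℤ)).comp (liftZ (ψ q) f t hrel) =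
        SemidirectProduct.rightHom := by
      apply SZ_ext
      · intro n
        rw [MonoidHom.comp_apply, liftZ_inl, SemidirectProduct.rightHom_inl]
        rfl
      · rw [MonoidHom.comp_apply, liftZ_t]
        rfl
    exact fun y => DFunLike.congr_fun h3 y
  have h4 : x.right = 1 := by rw [← h2, hx]; rfl
  have h5 : x = SemidirectProduct.inl x.left := by
    apply SemidirectProduct.ext
    · rw [SemidirectProduct.left_inl]
    · rw [SemidirectProduct.right_inl, h4]
  rw [h5, liftZ_inl] at hx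
  have h6 : (SemidirectProduct.inl x.left : H ⋊[ψ] Q) = 1 := congrArg Prod.fst hx
  have h7 : x.left = 1 := by
    have := congrArg SemidirectProduct.left h6
    rwa [SemidirectProduct.left_inl] at this
  rw [h5, h7, map_one]

/-- **main theorem** -/
theorem semi_let (hC : ClosedE C) (ψ : Q →* MulAut H) (φ : Q →* MulAut (HF H X))
    (hext : ExtendsAct ψ φ) (h : LetTri φ) : C (HF H X ⋊[φ] Q) ↔ C (H ⋊[ψ] Q) := by
  constructor
  · intro h1
    refine hC.base.of_injective _ _ (SemidirectProduct.map (φ₁ := ψ) (φ₂ := φ)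
      (hh : H →* HF H X) (MonoidHom.id Q) (fun q => ?_)) ?_ h1
    · ext1 n
      exact (hext q n).symm
    · intro a b hab
      have h2 := congrArg SemidirectProduct.left hab
      have h3 := congrArg SemidirectProduct.right hab
      exact SemidirectProduct.ext (Coprod.inl_injective h2) h3
  · intro h1
    have hQ : C Q := hC.base.of_injective _ _ (SemidirectProduct.inr : Q →* H ⋊[ψ] Q)
      SemidirectProduct.inr_injective h1
    refine (semi_letC hC φ ?_).2 hQ
    intro q
    obtain ⟨m, r, hm, hr, hx⟩ := h q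
    refine ⟨m, r, ψ (q ^ m), hm, hr, sz_of_semi hC.base ψ (q ^ m) h1, ?_, hx⟩
    intro n
    rw [← map_pow, hext]

end Pool.Agent.X176.FJ
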