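import Mathlib
import Pool.Agent.X176.FJ.LettM

/-!
The groups of triangular transvections of `H * F(X)`.
-/

set_option autoImplicit false

namespace Pool.Agent.X176.FJ

open Pool.Agent.Y110.FJ Monoid
open Pool.Agent.Y462.SS (Closed)

section defs

variable {H X : Type} [Group H]

theorem lowX_mono {r r' : X → X → Prop} {x x' : X} (h : ∀ y, r y x → r' y x') :
    lowX (H := H) r x ≤ lowX r' x' := by
  rw [lowX, Subgroup.closure_le]
  rintro n (⟨a, rfl⟩ | ⟨y, hy, rfl⟩)
  · exact Subgroup.subset_closure (Or.inl ⟨a, rfl⟩)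
  · exact Subgroup.subset_closure (Or.inr ⟨y, h y hy, rfl⟩)

theorem lowX_hh (r : X → X → Prop) (x : X) (a : H) : hh a ∈ lowX (H := H) r x :=
  Subgroup.subset_closure (Or.inl ⟨a, rfl⟩)

/-- `σ` maps `H` to itself by an automorphism in `T`, and each letter `x` to `u x v` with `u` and `v`
in the subgroup generated by `H` and the letters `y` with `r y x` -/
def LetT (r : X → X → Prop) (T : Subgroup (MulAut H)) (σ : MulAut (HF H X)) : Prop :=
  ∃ τ ∈ T, LetFor r τ σ

theorem letFor_low {r : X → X → Prop} (htr : ∀ a b c, r a b → r b c → r a c) {τ : MulAut H}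
    {σ : MulAut (HF H X)} (h : LetFor r τ σ) (x : X) (n : HF H X) (hn : n ∈ lowX (H := H) r x) :
    σ n ∈ lowX (H := H) r x := by
  have h1 : lowX (H := H) r x ≤ (lowX (H := H) r x).comap σ.toMonoidHom := by
    conv_lhs => rw [lowX]
    rw [Subgroup.closure_le]
    rintro n (⟨a, rfl⟩ | ⟨y, hy, rfl⟩)
    · show σ (hh a) ∈ lowX (H := H) r x
      rw [h.1]
      exact lowX_hh r x _
    · obtain ⟨u, hu, v, hv, h2⟩ := h.2 y
      show σ (lt y) ∈ lowX (H := H) r x
      rw [h2]
      have hm : lowX (H := H) r y ≤ lowX r x := lowX_mono (fun z hz => htr _ _ _ hz hy)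
      exact Subgroup.mul_mem _ (Subgroup.mul_mem _ (hm hu)
        (Subgroup.subset_closure (Or.inr ⟨y, hy, rfl⟩))) (hm hv)
  exact h1 hn

theorem letFor_mul {r : X → X → Prop} (htr : ∀ a b c, r a b → r b c → r a c) {τ τ' : MulAut H}
    {σ σ' : MulAut (HF H X)} (h : LetFor r τ σ) (h' : LetFor r τ' σ') :
    LetFor r (τ * τ') (σ * σ') := by
  refine ⟨fun a => ?_, fun x => ?_⟩
  · rw [MulAut.mul_apply, h'.1, h.1, MulAut.mul_apply]
  · obtain ⟨u, hu, v, hv, h2⟩ := h.2 x
    obtain ⟨u', hu', v', hv', h3⟩ := h'.2 x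
    refine ⟨σ u' * u, Subgroup.mul_mem _ (letFor_low htr h x _ hu') hu, v * σ v',
      Subgroup.mul_mem _ hv (letFor_low htr h x _ hv'), ?_⟩
    rw [MulAut.mul_apply, h3, map_mul, map_mul, h2]
    group

theorem letFor_one (r : X → X → Prop) : LetFor r (1 : MulAut H) (1 : MulAut (HF H X)) :=
  ⟨fun _ => rfl, fun x => ⟨1, Subgroup.one_mem _, 1, Subgroup.one_mem _, by simp⟩⟩

theorem letT_mul {r : X → X → Prop} (htr : ∀ a b c, r a b → r b c → r a c)
    {T : Subgroup (MulAut H)} {σ σ' : MulAut (HF H X)} (h : LetT r T σ) (h' : LetT r T σ') :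
    LetT r T (σ * σ') := by
  obtain ⟨τ, hτ, h⟩ := h
  obtain ⟨τ', hτ', h'⟩ := h'
  exact ⟨τ * τ', T.mul_mem hτ hτ', letFor_mul htr h h'⟩

theorem letT_one (r : X → X → Prop) (T : Subgroup (MulAut H)) :
    LetT r T (1 : MulAut (HF H X)) := ⟨1, T.one_mem, letFor_one r⟩

/-- all but finitely many letters are fixed -/
def FinLet (σ : MulAut (HF H X)) : Prop := {x | σ (lt x) ≠ lt x}.Finite

theorem finLet_mul {σ σ' : MulAut (HF H X)} (h : FinLet σ) (h' : FinLet σ') :
    FinLet (σ * σ') := by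
  refine (h.union h').subset ?_
  intro x hx
  by_contra hcon
  have h1 : σ (lt x) = lt x := by
    by_contra h2; exact hcon (Or.inl h2)
  have h2 : σ' (lt x) = lt x := by
    by_contra h2; exact hcon (Or.inr h2)
  exact hx (by rw [MulAut.mul_apply, h2, h1])

theorem finLet_inv {σ : MulAut (HF H X)} (h : FinLet σ) : FinLet σ⁻¹ := by
  refine h.subset ?_
  intro x hx
  by_contra hcon
  have h1 : σ (lt x) = lt x := by
    by_contra h2; exact hcon h2
  exact hx (by conv_lhs => rw [← h1, MulAut.inv_apply_self])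

/-- the group of the automorphisms of `H * F(X)` which move only finitely many letters, map `H` to
itself by an automorphism in `T` and each letter `x` to `u x v`, with `u`, `v` in the subgroup
generated by `H` and the letters smaller than `x`, and have an inverse of this form -/
def TVG (r : X → X → Prop) [IsStrictOrder X r] (T : Subgroup (MulAut H)) :
    Subgroup (MulAut (HF H X)) where
  carrier := {σ | LetT r T σ ∧ LetT r T σ⁻¹ ∧ FinLet σ}
  mul_mem' := by
    rintro σ σ' ⟨h1, h2, h3⟩ ⟨h4, h5, h6⟩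
    refine ⟨letT_mul (fun _ _ _ => _root_.trans) h1 h4, ?_, finLet_mul h3 h6⟩
    rw [mul_inv_rev]
    exact letT_mul (fun _ _ _ => _root_.trans) h5 h2
  one_mem' := by
    refine ⟨letT_one r T, by rw [inv_one]; exact letT_one r T, ?_⟩
    have h1 : {x : X | (1 : MulAut (HF H X)) (lt x) ≠ lt x} = ∅ := by
      ext i; simp
    show Set.Finite _
    rw [h1]
    exact Set.finite_empty
  inv_mem' := by
    rintro σ ⟨h1, h2, h3⟩
    exact ⟨h2, by rw [inv_inv]; exact h1, finLet_inv h3⟩

end defs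

end Pool.Agent.X176.FJ
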