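import Mathlib
import Pool.Agent.X176.FJ.Tri

/-!
Groups of triangular automorphisms of free products: definitions.
-/

set_option autoImplicit false

namespace Pool.Agent.X176.FJ

open Monoid

variable {ι : Type} {G : ι → Type} [∀ i, Group (G i)]

/-- `σ` maps `g` in the factor `G i` to `w τ(g) w⁻¹` with `w` in the subgroup `lowR r i` generated by
the factors below `i` and an automorphism `τ` of `G i` in `T i` -/
def TriFor (r : ι → ι → Prop) (T : ∀ i, Subgroup (MulAut (G i))) (σ : MulAut (CoprodI G)) : Prop :=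
  ∀ i, ∃ w ∈ lowR (G := G) r i, ∃ τ ∈ T i, ∀ g : G i, σ (CoprodI.of g) = w * CoprodI.of (τ g) * w⁻¹

/-- the automorphism `σ` moves only finitely many factors -/
def FinMoved (σ : MulAut (CoprodI G)) : Prop := {i | ∃ g : G i, σ (CoprodI.of g) ≠ CoprodI.of g}.Finite

theorem lowR_mono {r r' : ι → ι → Prop} {i i' : ι} (h : ∀ j, r j i → r' j i') :
    lowR (G := G) r i ≤ lowR r' i' := by
  apply Subgroup.closure_mono
  rintro x ⟨j, hj, g, rfl⟩
  exact ⟨j, h j hj, g, rfl⟩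

theorem tri_low {r : ι → ι → Prop} (htr : ∀ a b c, r a b → r b c → r a c)
    {T : ∀ i, Subgroup (MulAut (G i))} {σ : MulAut (CoprodI G)} (hσ : TriFor r T σ) (i : ι) :
    ∀ x ∈ lowR (G := G) r i, σ x ∈ lowR (G := G) r i := by
  intro x hx
  have h1 : lowR (G := G) r i ≤ (lowR (G := G) r i).comap σ.toMonoidHom := by
    conv_lhs => rw [lowR]
    rw [Subgroup.closure_le]
    rintro _ ⟨j, hj, g, rfl⟩
    obtain ⟨w, hw, τ, -, h⟩ := hσ j
    show σ (CoprodI.of g) ∈ lowR r i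
    rw [h g]
    have hw' : w ∈ lowR (G := G) r i := lowR_mono (fun k hk => htr k j i hk hj) hw
    exact Subgroup.mul_mem _ (Subgroup.mul_mem _ hw' (Subgroup.subset_closure ⟨j, hj, _, rfl⟩))
      (Subgroup.inv_mem _ hw')
  exact h1 hx

theorem tri_mul {r : ι → ι → Prop} (htr : ∀ a b c, r a b → r b c → r a c)
    {T : ∀ i, Subgroup (MulAut (G i))} {σ σ' : MulAut (CoprodI G)} (hσ : TriFor r T σ)
    (hσ' : TriFor r T σ') : TriFor r T (σ * σ') := by
  intro i
  obtain ⟨w, hw, τ, hτ, h⟩ := hσ i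
  obtain ⟨w', hw', τ', hτ', h'⟩ := hσ' i
  refine ⟨σ w' * w, Subgroup.mul_mem _ (tri_low htr hσ i _ hw') hw, τ * τ', (T i).mul_mem hτ hτ',
    fun g => ?_⟩
  rw [MulAut.mul_apply, h', map_mul, map_mul, map_inv, h, MulAut.mul_apply]
  group

/-- the group of triangular automorphisms -/
def TG (r : ι → ι → Prop) (htr : ∀ a b c, r a b → r b c → r a c)
    (T : ∀ i, Subgroup (MulAut (G i))) : Subgroup (MulAut (CoprodI G)) where
  carrier := {σ | TriFor r T σ ∧ TriFor r T σ⁻¹}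
  mul_mem' := by
    rintro σ σ' ⟨h1, h2⟩ ⟨h3, h4⟩
    refine ⟨tri_mul htr h1 h3, ?_⟩
    rw [mul_inv_rev]
    exact tri_mul htr h4 h2
  one_mem' := by
    have h : TriFor r T (1 : MulAut (CoprodI G)) := fun i =>
      ⟨1, Subgroup.one_mem _, 1, (T i).one_mem, fun g => by simp⟩
    exact ⟨h, by rw [inv_one]; exact h⟩
  inv_mem' := by
    rintro σ ⟨h1, h2⟩
    exact ⟨h2, by rw [inv_inv]; exact h1⟩


theorem fm_mul {σ σ' : MulAut (CoprodI G)} (h : FinMoved σ) (h' : FinMoved σ') :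
    FinMoved (σ * σ') := by
  refine (h.union h').subset ?_
  rintro i ⟨g, hg⟩
  by_contra hcon
  have h1 : ∀ g : G i, σ (CoprodI.of g) = CoprodI.of g := fun g => by
    by_contra h2; exact hcon (Or.inl ⟨g, h2⟩)
  have h2 : ∀ g : G i, σ' (CoprodI.of g) = CoprodI.of g := fun g => by
    by_contra h2; exact hcon (Or.inr ⟨g, h2⟩)
  exact hg (by rw [MulAut.mul_apply, h2, h1])

theorem fm_inv {σ : MulAut (CoprodI G)} (h : FinMoved σ) : FinMoved σ⁻¹ := by
  refine h.subset ?_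
  rintro i ⟨g, hg⟩
  by_contra hcon
  have h1 : ∀ g : G i, σ (CoprodI.of g) = CoprodI.of g := fun g => by
    by_contra h2; exact hcon ⟨g, h2⟩
  exact hg (by conv_lhs => rw [← h1 g, MulAut.inv_apply_self])

/-- triangular automorphisms which move only finitely many factors -/
def IsTF (r : ι → ι → Prop) (T : ∀ i, Subgroup (MulAut (G i))) (σ : MulAut (CoprodI G)) : Prop :=
  TriFor r T σ ∧ TriFor r T σ⁻¹ ∧ FinMoved σ

theorem isTF_mul (r : ι → ι → Prop) [IsStrictOrder ι r] (T : ∀ i, Subgroup (MulAut (G i)))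
    {σ σ' : MulAut (CoprodI G)} (h : IsTF r T σ) (h' : IsTF r T σ') : IsTF r T (σ * σ') := by
  obtain ⟨h1, h2, h3⟩ := h
  obtain ⟨h4, h5, h6⟩ := h'
  refine ⟨tri_mul (fun _ _ _ => _root_.trans) h1 h4, ?_, fm_mul h3 h6⟩
  rw [mul_inv_rev]
  exact tri_mul (fun _ _ _ => _root_.trans) h5 h2

theorem isTF_one (r : ι → ι → Prop) (T : ∀ i, Subgroup (MulAut (G i))) :
    IsTF r T (1 : MulAut (CoprodI G)) := by
  have h : TriFor r T (1 : MulAut (CoprodI G)) := fun i =>
    ⟨1, Subgroup.one_mem _, 1, (T i).one_mem, fun g => by simp⟩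
  refine ⟨h, by rw [inv_one]; exact h, ?_⟩
  have h1 : {i | ∃ g : G i, (1 : MulAut (CoprodI G)) (CoprodI.of g) ≠ CoprodI.of g} = ∅ := by
    ext i; simp
  show Set.Finite _
  rw [h1]
  exact Set.finite_empty

theorem isTF_inv (r : ι → ι → Prop) (T : ∀ i, Subgroup (MulAut (G i)))
    {σ : MulAut (CoprodI G)} (h : IsTF r T σ) : IsTF r T σ⁻¹ := by
  obtain ⟨h1, h2, h3⟩ := h
  exact ⟨h2, by rw [inv_inv]; exact h1, fm_inv h3⟩

/-- the group of the triangular automorphisms which move only finitely many factors -/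
def TF (r : ι → ι → Prop) [IsStrictOrder ι r] (T : ∀ i, Subgroup (MulAut (G i))) :
    Subgroup (MulAut (CoprodI G)) where
  carrier := {σ | IsTF r T σ}
  mul_mem' := isTF_mul r T
  one_mem' := isTF_one r T
  inv_mem' := isTF_inv r T

end Pool.Agent.X176.FJ
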