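import Mathlib
import Pool.Agent.X176.FJ.TAutDef

/-!
Groups of triangular automorphisms of free products.
-/

set_option autoImplicit false

namespace Pool.Agent.X176.FJ

open Pool.Agent.Y110.FJ
open Pool.Agent.Y462.SS (Closed Wr)
open Pool.Agent.Y110.KW (keep keep_of_mem keep_of_notMem keep_inter keep_univ)
open Monoid

section taut

variable {ι : Type} {G : ι → Type} [∀ i, Group (G i)]

/-! ### uniqueness -/

open Classical in
/-- the retraction to the factor `G k` -/
noncomputable def toFac (k : ι) : CoprodI G →* G k :=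
  CoprodI.lift fun i => if h : i = k then h ▸ MonoidHom.id _ else 1

theorem toFac_self (k : ι) (g : G k) : toFac k (CoprodI.of g) = g := by
  rw [toFac, CoprodI.lift_of, dif_pos rfl]
  rfl

theorem toFac_ne {i k : ι} (h : i ≠ k) (g : G i) : toFac k (CoprodI.of g) = 1 := by
  rw [toFac, CoprodI.lift_of, dif_neg h]
  rfl

theorem toFac_keep (k : ι) (x : CoprodI G) : toFac k (keep {k}ᶜ x) = 1 := by
  have h1 : (toFac k).comp (keep (P := G) {k}ᶜ) = 1 := by
    apply CoprodI.ext_hom
    intro i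
    ext1 g
    show toFac k (keep {k}ᶜ (CoprodI.of g)) = 1
    by_cases hi : i = k
    · subst hi
      rw [keep_of_notMem (by simp), map_one]
    · rw [keep_of_mem (show i ∈ ({k}ᶜ : Set ι) from hi), toFac_ne hi]
  exact DFunLike.congr_fun h1 x

open Classical in
/-- the homomorphism to the wreath product -/
noncomputable def toWr (k : ι) :
    CoprodI G →* (CoprodI G → G k) ⋊[mulAutArrow (G := CoprodI G) (A := CoprodI G) (M := G k)] CoprodI G :=
  CoprodI.lift fun i => if h : i = k then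
    SemidirectProduct.inl.comp ((MonoidHom.mulSingle (fun _ : CoprodI G => G k) 1).comp
      (h ▸ MonoidHom.id _)) else SemidirectProduct.inr.comp CoprodI.of

open Classical in
theorem toWr_self (k : ι) (g : G k) :
    toWr (G := G) k (CoprodI.of g) = SemidirectProduct.inl (Pi.mulSingle 1 g) := by
  rw [toWr, CoprodI.lift_of, dif_pos rfl]
  rfl

theorem toWr_ne {i k : ι} (h : i ≠ k) (g : G i) :
    toWr k (CoprodI.of g) = SemidirectProduct.inr (CoprodI.of g) := by
  rw [toWr, CoprodI.lift_of, dif_neg h]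
  rfl

theorem toWr_keep (k : ι) (x : CoprodI G) :
    toWr k (keep {k}ᶜ x) = SemidirectProduct.inr (keep {k}ᶜ x) := by
  have h1 : (toWr k).comp (keep (P := G) {k}ᶜ) = SemidirectProduct.inr.comp (keep {k}ᶜ) := by
    apply CoprodI.ext_hom
    intro i
    ext1 g
    show toWr k (keep {k}ᶜ (CoprodI.of g)) = SemidirectProduct.inr (keep {k}ᶜ (CoprodI.of g))
    by_cases hi : i = k
    · subst hi
      rw [keep_of_notMem (by simp), map_one, map_one]
    · rw [keep_of_mem (show i ∈ ({k}ᶜ : Set ι) from hi), toWr_ne hi]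
  exact DFunLike.congr_fun h1 x

theorem cen_eq (k : ι) (v : CoprodI G) (hv : keep {k}ᶜ v = v) (x : G k) (hx : x ≠ 1)
    (h : v * CoprodI.of x * v⁻¹ = CoprodI.of x) : v = 1 := by
  classical
  have h1 := congrArg (toWr k) h
  have h2 : toWr k v = SemidirectProduct.inr v := by
    have := toWr_keep k v
    rwa [hv] at this
  rw [map_mul, map_mul, map_inv, h2, toWr_self, ← map_inv, ← SemidirectProduct.inl_aut] at h1
  have h3 := SemidirectProduct.inl_injective h1
  have h4 := congrFun h3 v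
  have h5 : (mulAutArrow (G := CoprodI G) (A := CoprodI G) (M := G k) v (Pi.mulSingle 1 x)) v = x := by
    show (Pi.mulSingle 1 x : CoprodI G → G k) (v⁻¹ • v) = x
    rw [smul_eq_mul, inv_mul_cancel, Pi.mulSingle_eq_same]
  rw [h5] at h4
  by_contra hv1
  rw [Pi.mulSingle_eq_of_ne hv1] at h4
  exact hx h4

theorem uniq (k : ι) {w w' : CoprodI G} (hw : keep {k}ᶜ w = w) (hw' : keep {k}ᶜ w' = w')
    {τ τ' : MulAut (G k)}
    (h : ∀ g : G k, w * CoprodI.of (τ g) * w⁻¹ = w' * CoprodI.of (τ' g) * w'⁻¹) :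
    τ = τ' ∧ (Nontrivial (G k) → w = w') := by
  have hp : ∀ x : CoprodI G, keep {k}ᶜ x = x → toFac k x = 1 := by
    intro x hx
    rw [← hx]
    exact toFac_keep k x
  have h1 : τ = τ' := by
    ext g
    have h2 := congrArg (toFac k) (h g)
    rw [map_mul, map_mul, map_mul, map_mul, map_inv, map_inv, hp w hw, hp w' hw', toFac_self,
      toFac_self] at h2
    simpa using h2
  refine ⟨h1, fun hnt => ?_⟩
  obtain ⟨x, hx⟩ := exists_ne (1 : G k)
  have h2 := h (τ.symm x)
  subst h1
  rw [MulEquiv.apply_symm_apply] at h2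
  have h3 : w'⁻¹ * w = 1 := by
    refine cen_eq k _ (by rw [map_mul, map_inv, hw, hw']) x hx ?_
    have h4 : w'⁻¹ * w * CoprodI.of x * (w'⁻¹ * w)⁻¹ = w'⁻¹ * (w * CoprodI.of x * w⁻¹) * w' := by group
    rw [h4, h2]
    group
  exact (inv_mul_eq_one.1 h3).symm

/-! ### the induction step -/

open Classical in
/-- the endomorphism equal to `σ` on the factors other than `G k` and the identity on `G k` -/
noncomputable def eH (k : ι) (σ : MulAut (CoprodI G)) : CoprodI G →* CoprodI G :=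
  CoprodI.lift fun i => if i = k then CoprodI.of else σ.toMonoidHom.comp CoprodI.of

theorem eH_self (k : ι) (σ : MulAut (CoprodI G)) (g : G k) :
    eH k σ (CoprodI.of g) = CoprodI.of g := by
  rw [eH, CoprodI.lift_of, if_pos rfl]

theorem eH_ne {i k : ι} (h : i ≠ k) (σ : MulAut (CoprodI G)) (g : G i) :
    eH k σ (CoprodI.of g) = σ (CoprodI.of g) := by
  rw [eH, CoprodI.lift_of, if_neg h]
  rfl

theorem eH_keep (k : ι) (σ : MulAut (CoprodI G)) (x : CoprodI G) (hx : keep {k}ᶜ x = x) :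
    eH k σ x = σ x := by
  have h1 : (eH k σ).comp (keep (P := G) {k}ᶜ) = σ.toMonoidHom.comp (keep {k}ᶜ) := by
    apply CoprodI.ext_hom
    intro i
    ext1 g
    show eH k σ (keep {k}ᶜ (CoprodI.of g)) = σ (keep {k}ᶜ (CoprodI.of g))
    by_cases hi : i = k
    · subst hi
      rw [keep_of_notMem (by simp), map_one, map_one]
    · rw [keep_of_mem (show i ∈ ({k}ᶜ : Set ι) from hi), eH_ne hi]
  have h2 := DFunLike.congr_fun h1 x
  have h3 : eH k σ (keep {k}ᶜ x) = σ (keep {k}ᶜ x) := h2
  rwa [hx] at h3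

/-- `σ` preserves the subgroup generated by the factors other than `G k` -/
def Gd (k : ι) (σ : MulAut (CoprodI G)) : Prop :=
  ∀ i, i ≠ k → ∀ g : G i, keep {k}ᶜ (σ (CoprodI.of g)) = σ (CoprodI.of g)

theorem gd_keep {k : ι} {σ : MulAut (CoprodI G)} (h : Gd k σ) (x : CoprodI G)
    (hx : keep {k}ᶜ x = x) : keep {k}ᶜ (σ x) = σ x := by
  have h1 : ((keep (P := G) {k}ᶜ).comp σ.toMonoidHom).comp (keep {k}ᶜ) =
      σ.toMonoidHom.comp (keep {k}ᶜ) := by
    apply CoprodI.ext_hom
    intro i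
    ext1 g
    show keep {k}ᶜ (σ (keep {k}ᶜ (CoprodI.of g))) = σ (keep {k}ᶜ (CoprodI.of g))
    by_cases hi : i = k
    · subst hi
      rw [keep_of_notMem (by simp), map_one, map_one]
    · rw [keep_of_mem (show i ∈ ({k}ᶜ : Set ι) from hi), h i hi]
  have h2 := DFunLike.congr_fun h1 x
  have h3 : keep {k}ᶜ (σ (keep {k}ᶜ x)) = σ (keep {k}ᶜ x) := h2
  rwa [hx] at h3

theorem eH_comp {k : ι} (σ : MulAut (CoprodI G)) {σ' : MulAut (CoprodI G)} (h : Gd k σ')
    (x : CoprodI G) : eH k σ (eH k σ' x) = eH k (σ * σ') x := by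
  have h1 : (eH k σ).comp (eH k σ') = eH k (σ * σ') := by
    apply CoprodI.ext_hom
    intro i
    ext1 g
    show eH k σ (eH k σ' (CoprodI.of g)) = eH k (σ * σ') (CoprodI.of g)
    by_cases hi : i = k
    · subst hi
      rw [eH_self, eH_self, eH_self]
    · rw [eH_ne hi, eH_ne hi, eH_keep k σ _ (h i hi g), MulAut.mul_apply]
  exact DFunLike.congr_fun h1 x

theorem eH_one (k : ι) (x : CoprodI G) : eH k 1 x = x := by
  have h1 : eH k (1 : MulAut (CoprodI G)) = MonoidHom.id _ := by
    apply CoprodI.ext_hom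
    intro i
    ext1 g
    show eH k 1 (CoprodI.of g) = CoprodI.of g
    by_cases hi : i = k
    · subst hi
      rw [eH_self]
    · rw [eH_ne hi]; rfl
  exact DFunLike.congr_fun h1 x

/-- the automorphism -/
noncomputable def eA (k : ι) (σ : MulAut (CoprodI G)) (h : Gd k σ) (h' : Gd k σ⁻¹) :
    MulAut (CoprodI G) :=
  { eH k σ with
    invFun := eH k σ⁻¹
    left_inv := fun x => by
      show eH k σ⁻¹ (eH k σ x) = x
      rw [eH_comp _ h, inv_mul_cancel, eH_one]
    right_inv := fun x => by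
      show eH k σ (eH k σ⁻¹ x) = x
      rw [eH_comp _ h', mul_inv_cancel, eH_one] }

theorem eA_apply (k : ι) (σ : MulAut (CoprodI G)) (h : Gd k σ) (h' : Gd k σ⁻¹) (x : CoprodI G) :
    eA k σ h h' x = eH k σ x := rfl

theorem eA_inv_apply (k : ι) (σ : MulAut (CoprodI G)) (h : Gd k σ) (h' : Gd k σ⁻¹) (x : CoprodI G) :
    (eA k σ h h')⁻¹ x = eH k σ⁻¹ x := rfl

/-- the relation restricted to a finite set -/
def rS (r : ι → ι → Prop) (S : Set ι) : ι → ι → Prop := fun j i => r j i ∧ j ∈ S ∧ i ∈ S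

theorem rS_trans {r : ι → ι → Prop} (htr : ∀ a b c, r a b → r b c → r a c) (S : Set ι) :
    ∀ a b c, rS r S a b → rS r S b c → rS r S a c :=
  fun a b c h1 h2 => ⟨htr a b c h1.1 h2.1, h1.2.1, h2.2.2⟩

open Classical in
/-- the restricted family -/
noncomputable def TS (T : ∀ i, Subgroup (MulAut (G i))) (S : Set ι) (i : ι) : Subgroup (MulAut (G i)) :=
  if i ∈ S then T i else ⊥

theorem TS_mem (T : ∀ i, Subgroup (MulAut (G i))) {S : Set ι} {i : ι} (h : i ∈ S) : TS T S i = T i :=
  if_pos h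

theorem TS_notMem (T : ∀ i, Subgroup (MulAut (G i))) {S : Set ι} {i : ι} (h : i ∉ S) :
    TS T S i = ⊥ := if_neg h

theorem TS_le (T : ∀ i, Subgroup (MulAut (G i))) {S S' : Set ι} (h : S ⊆ S') (i : ι) :
    TS T S i ≤ TS T S' i := by
  by_cases hi : i ∈ S
  · rw [TS_mem T hi, TS_mem T (h hi)]
  · rw [TS_notMem T hi]; exact bot_le

theorem TS_le' (T : ∀ i, Subgroup (MulAut (G i))) (S : Set ι) (i : ι) : TS T S i ≤ T i := by
  by_cases hi : i ∈ S
  · rw [TS_mem T hi]
  · rw [TS_notMem T hi]; exact bot_le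

theorem tri_mono {r r' : ι → ι → Prop} {T T' : ∀ i, Subgroup (MulAut (G i))}
    (hr : ∀ i j, r j i → r' j i) (hT : ∀ i, T i ≤ T' i) {σ : MulAut (CoprodI G)}
    (h : TriFor r T σ) : TriFor r' T' σ := by
  intro i
  obtain ⟨w, hw, τ, hτ, h'⟩ := h i
  exact ⟨w, lowR_mono (hr i) hw, τ, hT i hτ, h'⟩

theorem szC {C : ∀ (G : Type) [Group G], Prop} (hC : Closed C) {A : Type} [Group A]
    (T : Subgroup (MulAut A)) (h : C (A ⋊[T.subtype] T)) (τ : MulAut A) (hτ : τ ∈ T) : C (SZ τ) := by
  let f : A →* (A ⋊[T.subtype] T) × Multiplicative ℤ := (SemidirectProduct.inl).prod 1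
  let t : (A ⋊[T.subtype] T) × Multiplicative ℤ :=
    (SemidirectProduct.inr ⟨τ, hτ⟩, Multiplicative.ofAdd 1)
  have ht : ∀ n, t * f n * t⁻¹ = f (τ n) := by
    intro n
    apply Prod.ext
    · show SemidirectProduct.inr (⟨τ, hτ⟩ : T) * SemidirectProduct.inl n *
        (SemidirectProduct.inr (⟨τ, hτ⟩ : T))⁻¹ = (SemidirectProduct.inl (τ n) : A ⋊[T.subtype] T)
      rw [← map_inv, ← SemidirectProduct.inl_aut]
      rfl
    · show Multiplicative.ofAdd (1 : ℤ) * 1 * (Multiplicative.ofAdd (1 : ℤ))⁻¹ = 1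
      rw [mul_one, mul_inv_cancel]
  refine hC.of_injective _ _ (liftZ τ f t ht) ?_ (hC.prod _ _ h hC.int)
  rw [injective_iff_map_eq_one]
  intro x hx
  have hx' := SemidirectProduct.inl_left_mul_inr_right x
  rw [← hx', map_mul, liftZ_inl, liftZ_inr] at hx
  have h2 := congrArg (MonoidHom.snd (A ⋊[T.subtype] T) (Multiplicative ℤ)) hx
  have h3 : Multiplicative.toAdd x.right = 0 := by
    rw [map_mul, map_zpow, map_one] at h2
    have h4 : (1 : Multiplicative ℤ) * Multiplicative.ofAdd (1 : ℤ) ^ (Multiplicative.toAdd x.right) = 1 :=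
      h2
    rw [one_mul, ← Int.ofAdd_mul, one_mul] at h4
    exact h4
  have h5 := congrArg Prod.fst hx
  rw [h3, zpow_zero, mul_one] at h5
  have h6 : x.left = 1 := SemidirectProduct.inl_injective (h5.trans (map_one _).symm)
  rw [← hx', h6, map_one, one_mul]
  have h7 : x.right = 1 := h3
  rw [h7, map_one]

theorem tg_fin {C : ∀ (G : Type) [Group G], Prop} (hC : ClosedE C) (r : ι → ι → Prop)
    [IsStrictOrder ι r] (htr : ∀ a b c, r a b → r b c → r a c) (T : ∀ i, Subgroup (MulAut (G i)))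
    (hT : ∀ i, C (G i ⋊[(T i).subtype] T i)) (n : ℕ) : ∀ S : Finset ι, S.card = n →
    C (TG (rS r (S : Set ι)) (rS_trans htr _) (TS T (S : Set ι))) := by
  classical
  have hG : ∀ i, C (G i) := fun i => hC.base.of_injective _ _
    (SemidirectProduct.inl : G i →* G i ⋊[(T i).subtype] T i) SemidirectProduct.inl_injective (hT i)
  have hTi : ∀ i, C (T i) := fun i => hC.base.of_injective _ _
    (SemidirectProduct.inr : T i →* G i ⋊[(T i).subtype] T i) SemidirectProduct.inr_injective (hT i)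
  induction n with
  | zero =>
    intro S hS
    have h0 : S = ∅ := Finset.card_eq_zero.1 hS
    subst h0
    refine hC.base.of_injective _ (Multiplicative ℤ) 1 ?_ hC.base.int
    rw [injective_iff_map_eq_one]
    rintro ⟨σ, hσ, _⟩ _
    apply Subtype.ext
    show σ = 1
    apply MulEquiv.toMonoidHom_injective
    apply CoprodI.ext_hom
    intro i
    ext1 g
    show σ (CoprodI.of g) = CoprodI.of g
    obtain ⟨w, hw, τ, hτ, h⟩ := hσ i
    have hw1 : w = 1 := by
      have h1 : lowR (G := G) (rS r ((∅ : Finset ι) : Set ι)) i ≤ ⊥ := by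
        rw [lowR, Subgroup.closure_le]
        rintro x ⟨j, hj, -⟩
        exact absurd hj.2.1 (by simp)
      exact Subgroup.mem_bot.1 (h1 hw)
    have hτ1 : τ = 1 := by
      rw [TS_notMem T (by simp)] at hτ
      exact Subgroup.mem_bot.1 hτ
    rw [h g, hw1, hτ1]
    simp
  | succ n ih =>
    intro S hS
    have hne : S.Nonempty := by
      rw [← Finset.card_pos]
      omega
    obtain ⟨k, hk, hmax⟩ : ∃ k ∈ S, ∀ j ∈ S, ¬ r k j := by
      have hwf : WellFounded (fun a b : S => r b a) := by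
        have : IsTrans S (fun a b : S => r b a) := ⟨fun a b c h1 h2 => _root_.trans h2 h1⟩
        have : Std.Irrefl (fun a b : S => r b a) := ⟨fun a h => irrefl _ h⟩
        exact Finite.wellFounded_of_trans_of_irrefl _
      obtain ⟨k, -, hk⟩ := hwf.has_min Set.univ ⟨⟨hne.choose, hne.choose_spec⟩, trivial⟩
      exact ⟨k, k.2, fun j hj => hk ⟨j, hj⟩ trivial⟩
    have hcard : (S.erase k).card = n := by rw [Finset.card_erase_of_mem hk, hS]; rfl
    have hih := ih (S.erase k) hcard
    have hrr : ∀ i, i ≠ k → ∀ j, rS r (S : Set ι) j i → rS r ((S.erase k : Finset ι) : Set ι) j i := by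
      rintro i hi j ⟨h1, h2, h3⟩
      refine ⟨h1, ?_, ?_⟩
      · rw [Finset.mem_coe, Finset.mem_erase]
        exact ⟨fun h => hmax i h3 (h ▸ h1), h2⟩
      · rw [Finset.mem_coe, Finset.mem_erase]
        exact ⟨hi, h3⟩
    have hTT : ∀ i, i ≠ k → TS T (S : Set ι) i ≤ TS T ((S.erase k : Finset ι) : Set ι) i := by
      intro i hi
      by_cases hiS : i ∈ S
      · rw [TS_mem T (Finset.mem_coe.2 hiS), TS_mem T (by
          rw [Finset.mem_coe, Finset.mem_erase]; exact ⟨hi, hiS⟩)]
      · rw [TS_notMem T (fun h => hiS (Finset.mem_coe.1 h))]; exact bot_le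
    have hkeep : ∀ i (x : CoprodI G), x ∈ lowR (G := G) (rS r (S : Set ι)) i → keep {k}ᶜ x = x := by
      intro i x hx
      refine keep_low (rS r (S : Set ι)) i ({k}ᶜ) (fun j hj => ?_) x hx
      intro (h : j = k)
      exact hmax i hj.2.2 (h ▸ hj.1)
    have hgd : ∀ σ : MulAut (CoprodI G), TriFor (rS r (S : Set ι)) (TS T (S : Set ι)) σ → Gd k σ := by
      intro σ hσ i hi g
      obtain ⟨w, hw, τ, -, h⟩ := hσ i
      rw [h, map_mul, map_mul, map_inv, hkeep i w hw, keep_of_mem (show i ∈ ({k}ᶜ : Set ι) from hi)]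
    -- the restriction
    have htri : ∀ σ : MulAut (CoprodI G), TriFor (rS r (S : Set ι)) (TS T (S : Set ι)) σ →
        ∀ β : MulAut (CoprodI G), (∀ x, β x = eH k σ x) →
        TriFor (rS r ((S.erase k : Finset ι) : Set ι)) (TS T ((S.erase k : Finset ι) : Set ι)) β := by
      intro σ hσ β hβ i
      by_cases hi : i = k
      · subst hi
        exact ⟨1, Subgroup.one_mem _, 1, Subgroup.one_mem _, fun g => by rw [hβ, eH_self]; simp⟩
      · obtain ⟨w, hw, τ, hτ, h⟩ := hσ i
        exact ⟨w, lowR_mono (hrr i hi) hw, τ, hTT i hi hτ, fun g => by rw [hβ, eH_ne hi, h]⟩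
    let U := TG (rS r (S : Set ι)) (rS_trans htr _) (TS T (S : Set ι))
    let U' := TG (rS r ((S.erase k : Finset ι) : Set ι)) (rS_trans htr _)
      (TS T ((S.erase k : Finset ι) : Set ι))
    let e : U → U' := fun σ => ⟨eA k σ.1 (hgd _ σ.2.1) (hgd _ σ.2.2),
      htri _ σ.2.1 _ (fun x => rfl), htri _ σ.2.2 _ (fun x => rfl)⟩
    have hemul : ∀ σ σ' : U, e (σ * σ') = e σ * e σ' := by
      intro σ σ'
      apply Subtype.ext
      apply MulEquiv.ext
      intro x
      show eH k (σ.1 * σ'.1) x = eH k σ.1 (eH k σ'.1 x)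
      exact (eH_comp _ (hgd _ σ'.2.1) x).symm
    have hsemi : C (CoprodI G ⋊[U'.subtype] U') := by
      refine semi_tri hC hih U'.subtype fun q => ⟨1, one_pos, ?_⟩
      rw [pow_one]
      refine ⟨r, inferInstance, fun i => ?_⟩
      obtain ⟨w, hw, τ, hτ, h⟩ := q.2.1 i
      exact ⟨w, τ, lowR_mono (fun j hj => hj.1) hw,
        szC hC.base (T i) (hT i) τ (TS_le' T _ i hτ), h⟩
    by_cases hnt : Nontrivial (G k)
    · choose wk hwk τk hτk hk' using fun σ : U => σ.2.1 k
      have hfix : ∀ σ : U, keep {k}ᶜ (wk σ) = wk σ := fun σ => hkeep k _ (hwk σ)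
      have hmul : ∀ σ σ' : U, τk (σ * σ') = τk σ * τk σ' ∧ wk (σ * σ') = σ.1 (wk σ') * wk σ := by
        intro σ σ'
        have h1 := uniq k (hfix (σ * σ')) (w' := σ.1 (wk σ') * wk σ) (by
          rw [map_mul, hfix, gd_keep (hgd _ σ.2.1) _ (hfix σ')]) (τ := τk (σ * σ'))
          (τ' := τk σ * τk σ') (fun g => by
            rw [← hk' (σ * σ') g]
            show σ.1 (σ'.1 (CoprodI.of g)) = _
            rw [hk' σ' g, map_mul, map_mul, map_inv, hk' σ]
            show _ = σ.1 (wk σ') * wk σ * CoprodI.of (τk σ (τk σ' g)) * _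
            group)
        exact ⟨h1.1, h1.2 hnt⟩
      have hTk : TS T (S : Set ι) k = T k := TS_mem T (Finset.mem_coe.2 hk)
      let Φ : U →* (CoprodI G ⋊[U'.subtype] U') × T k := MonoidHom.mk'
        (fun σ => (⟨(wk σ)⁻¹, e σ⟩, ⟨τk σ, hTk ▸ hτk σ⟩)) (by
          intro σ σ'
          apply Prod.ext
          · apply SemidirectProduct.ext
            · show (wk (σ * σ'))⁻¹ = (wk σ)⁻¹ * eH k σ.1 (wk σ')⁻¹
              rw [(hmul σ σ').2, mul_inv_rev, map_inv, eH_keep k σ.1 _ (hfix σ')]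
            · exact hemul σ σ'
          · apply Subtype.ext
            exact (hmul σ σ').1)
      refine hC.base.of_injective _ _ Φ ?_ (hC.base.prod _ _ hsemi (hTi k))
      rw [injective_iff_map_eq_one]
      intro σ hσ
      have h1 : (wk σ)⁻¹ = 1 := congrArg (fun x => x.1.left) hσ
      have h2 : e σ = 1 := congrArg (fun x => x.1.right) hσ
      have h3 : τk σ = 1 := congrArg (fun x => (x.2 : MulAut (G k))) hσ
      apply Subtype.ext
      show σ.1 = 1
      apply MulEquiv.toMonoidHom_injective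
      apply CoprodI.ext_hom
      intro i
      ext1 g
      show σ.1 (CoprodI.of g) = CoprodI.of g
      by_cases hi : i = k
      · subst hi
        rw [hk', inv_eq_one.1 h1, h3]
        simp
      · have h4 : (e σ).1 (CoprodI.of g) = CoprodI.of g := by rw [h2]; rfl
        rw [← eH_ne hi]
        exact h4
    · rw [not_nontrivial_iff_subsingleton] at hnt
      have hone : ∀ g : G k, (CoprodI.of g : CoprodI G) = 1 := fun g => by
        rw [Subsingleton.elim g 1, map_one]
      have hle : U ≤ U' := by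
        have h1 : ∀ σ : MulAut (CoprodI G), TriFor (rS r (S : Set ι)) (TS T (S : Set ι)) σ →
            TriFor (rS r ((S.erase k : Finset ι) : Set ι)) (TS T ((S.erase k : Finset ι) : Set ι)) σ := by
          intro σ hσ i
          by_cases hi : i = k
          · subst hi
            exact ⟨1, Subgroup.one_mem _, 1, Subgroup.one_mem _, fun g => by rw [hone, hone]; simp⟩
          · obtain ⟨w, hw, τ, hτ, h⟩ := hσ i
            exact ⟨w, lowR_mono (hrr i hi) hw, τ, hTT i hi hτ, h⟩
        exact fun σ hσ => ⟨h1 _ hσ.1, h1 _ hσ.2⟩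
      exact hC.base.of_injective _ _ (Subgroup.inclusion hle) (Subgroup.inclusion_injective hle) hih

/-! ### the finitary group -/

theorem low_keep {r : ι → ι → Prop} {i : ι} {S : Set ι} (hi : i ∈ S) (x : CoprodI G)
    (hx : x ∈ lowR (G := G) r i) : keep S x ∈ lowR (G := G) (rS r S) i := by
  have h1 : lowR (G := G) r i ≤ (lowR (G := G) (rS r S) i).comap (keep S) := by
    conv_lhs => rw [lowR]
    rw [Subgroup.closure_le]
    rintro _ ⟨j, hj, g, rfl⟩
    show keep S (CoprodI.of g) ∈ lowR (rS r S) i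
    by_cases hjS : j ∈ S
    · rw [keep_of_mem hjS]
      exact Subgroup.subset_closure ⟨j, ⟨hj, hjS, hi⟩, g, rfl⟩
    · rw [keep_of_notMem hjS]
      exact Subgroup.one_mem _
  exact h1 hx

theorem tri_S {r : ι → ι → Prop} {T : ∀ i, Subgroup (MulAut (G i))} {σ : MulAut (CoprodI G)}
    (h : TriFor r T σ) (F : Set ι) (hF : F.Finite)
    (hm : ∀ i ∉ F, ∀ g : G i, σ (CoprodI.of g) = CoprodI.of g) :
    ∃ S : Set ι, S.Finite ∧ ∀ S' : Set ι, S ⊆ S' → TriFor (rS r S') (TS T S') σ := by
  choose w hw τ hτ hσ using h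
  choose s hs1 hs2 using keep_finG (G := G)
  refine ⟨F ∪ ⋃ i ∈ F, s (w i), hF.union (hF.biUnion fun i _ => hs1 _), fun S' hS' i => ?_⟩
  by_cases hi : i ∈ F
  · have hiS : i ∈ S' := hS' (Or.inl hi)
    have h1 : keep S' (w i) = w i := hs2 (w i) S' (fun j hj =>
      hS' (Or.inr (Set.mem_biUnion hi hj)))
    refine ⟨w i, ?_, τ i, ?_, hσ i⟩
    · rw [← h1]
      exact low_keep hiS _ (hw i)
    · rw [TS_mem T hiS]
      exact hτ i
  · exact ⟨1, Subgroup.one_mem _, 1, Subgroup.one_mem _, fun g => by rw [hm i hi g]; simp⟩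

theorem tf_S {r : ι → ι → Prop} [IsStrictOrder ι r] {T : ∀ i, Subgroup (MulAut (G i))}
    {σ : MulAut (CoprodI G)} (h : σ ∈ TF r T) :
    ∃ S : Set ι, S.Finite ∧ ∀ S' : Set ι, S ⊆ S' →
      σ ∈ TG (rS r S') (rS_trans (fun _ _ _ => _root_.trans) S') (TS T S') := by
  obtain ⟨h1, h2, h3⟩ := h
  have hm : ∀ i ∉ {i | ∃ g : G i, σ (CoprodI.of g) ≠ CoprodI.of g}, ∀ g : G i,
      σ (CoprodI.of g) = CoprodI.of g := by
    intro i hi g
    by_contra h4
    exact hi ⟨g, h4⟩
  have hm' : ∀ i ∉ {i | ∃ g : G i, σ (CoprodI.of g) ≠ CoprodI.of g}, ∀ g : G i,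
      σ⁻¹ (CoprodI.of g) = CoprodI.of g := by
    intro i hi g
    conv_lhs => rw [← hm i hi g, MulAut.inv_apply_self]
  obtain ⟨S1, hS1, hS1'⟩ := tri_S h1 _ h3 hm
  obtain ⟨S2, hS2, hS2'⟩ := tri_S h2 _ h3 hm'
  exact ⟨S1 ∪ S2, hS1.union hS2, fun S' hS' => ⟨hS1' S' (Set.subset_union_left.trans hS'),
    hS2' S' (Set.subset_union_right.trans hS')⟩⟩

/-- **the group of finitary triangular automorphisms** -/
theorem tf_c {C : ∀ (G : Type) [Group G], Prop} (hC : ClosedE C) (r : ι → ι → Prop)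
    [IsStrictOrder ι r] (T : ∀ i, Subgroup (MulAut (G i)))
    (hT : ∀ i, C (G i ⋊[(T i).subtype] T i)) : C (TF r T) := by
  classical
  apply c_loc hC.base
  intro E hE
  choose s hs1 hs2 using fun x : TF (G := G) r T => tf_S x.2
  let S : Set ι := ⋃ x ∈ E, s x
  have hS : S.Finite := hE.biUnion fun x _ => hs1 x
  have hfin : ((hS.toFinset : Finset ι) : Set ι) = S := hS.coe_toFinset
  have h1 := tg_fin hC r (fun _ _ _ => _root_.trans) T hT _ hS.toFinset rfl
  rw [hfin] at h1
  have hle : Subgroup.closure E ≤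
      (TG (rS r S) (rS_trans (fun _ _ _ => _root_.trans) S) (TS T S)).comap (TF r T).subtype := by
    rw [Subgroup.closure_le]
    intro x hx
    exact hs2 x S (Set.subset_biUnion_of_mem (u := s) hx)
  refine hC.base.of_injective _ _ (((TF (G := G) r T).subtype.comp (Subgroup.closure E).subtype).codRestrict
    (TG (rS r S) (rS_trans (fun _ _ _ => _root_.trans) S) (TS T S)) (fun x => hle x.2)) ?_ h1
  intro x y hxy
  apply Subtype.ext
  apply Subtype.ext
  have h2 := congrArg Subtype.val hxy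
  exact h2

/-- the semidirect product of the free product with the group of finitary triangular automorphisms -/
theorem tf_semi {C : ∀ (G : Type) [Group G], Prop} (hC : ClosedE C) (r : ι → ι → Prop)
    [IsStrictOrder ι r] (T : ∀ i, Subgroup (MulAut (G i)))
    (hT : ∀ i, C (G i ⋊[(T i).subtype] T i)) : C (CoprodI G ⋊[(TF r T).subtype] TF r T) := by
  refine semi_tri hC (tf_c hC r T hT) _ fun q => ⟨1, one_pos, ?_⟩
  rw [pow_one]
  refine ⟨r, inferInstance, fun i => ?_⟩
  obtain ⟨w, hw, τ, hτ, h⟩ := q.2.1 i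
  exact ⟨w, τ, hw, szC hC.base (T i) (hT i) τ hτ, h⟩

/-! ### the factors -/

open Classical in
/-- the automorphism of one factor -/
noncomputable def fH (k : ι) (τ : MulAut (G k)) : CoprodI G →* CoprodI G :=
  CoprodI.lift fun i => if h : i = k then
    (h ▸ (CoprodI.of (M := G) (i := k)).comp τ.toMonoidHom) else CoprodI.of

theorem fH_self (k : ι) (τ : MulAut (G k)) (g : G k) : fH k τ (CoprodI.of g) = CoprodI.of (τ g) := by
  rw [fH, CoprodI.lift_of, dif_pos rfl]
  rfl

theorem fH_ne {i k : ι} (h : i ≠ k) (τ : MulAut (G k)) (g : G i) :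
    fH k τ (CoprodI.of g) = CoprodI.of g := by
  rw [fH, CoprodI.lift_of, dif_neg h]

theorem fH_mul (k : ι) (τ τ' : MulAut (G k)) (x : CoprodI G) :
    fH k τ (fH k τ' x) = fH k (τ * τ') x := by
  have h1 : (fH k τ).comp (fH k τ') = fH k (τ * τ') := by
    apply CoprodI.ext_hom
    intro i
    ext1 g
    show fH k τ (fH k τ' (CoprodI.of g)) = fH k (τ * τ') (CoprodI.of g)
    by_cases hi : i = k
    · subst hi
      rw [fH_self, fH_self, fH_self, MulAut.mul_apply]
    · rw [fH_ne hi, fH_ne hi, fH_ne hi]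
  exact DFunLike.congr_fun h1 x

theorem fH_one (k : ι) (x : CoprodI G) : fH k 1 x = x := by
  have h1 : fH k (1 : MulAut (G k)) = MonoidHom.id _ := by
    apply CoprodI.ext_hom
    intro i
    ext1 g
    show fH k 1 (CoprodI.of g) = CoprodI.of g
    by_cases hi : i = k
    · subst hi
      rw [fH_self, MulAut.one_apply]
    · rw [fH_ne hi]
  exact DFunLike.congr_fun h1 x

/-- the automorphism of one factor, extended to the free product -/
noncomputable def fA (k : ι) : MulAut (G k) →* MulAut (CoprodI G) :=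
  MonoidHom.mk' (fun τ => { fH k τ with
    invFun := fH k τ⁻¹
    left_inv := fun x => by
      show fH k τ⁻¹ (fH k τ x) = x
      rw [fH_mul, inv_mul_cancel, fH_one]
    right_inv := fun x => by
      show fH k τ (fH k τ⁻¹ x) = x
      rw [fH_mul, mul_inv_cancel, fH_one] }) (fun τ τ' => by
    apply MulEquiv.ext
    intro x
    exact (fH_mul k τ τ' x).symm)

theorem fA_apply (k : ι) (τ : MulAut (G k)) (x : CoprodI G) : fA k τ x = fH k τ x := rfl

theorem fA_tri (r : ι → ι → Prop) (T : ∀ i, Subgroup (MulAut (G i))) (k : ι) (τ : MulAut (G k))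
    (hτ : τ ∈ T k) : TriFor r T (fA k τ) := by
  intro i
  by_cases hi : i = k
  · subst hi
    exact ⟨1, Subgroup.one_mem _, τ, hτ, fun g => by rw [fA_apply, fH_self]; simp⟩
  · exact ⟨1, Subgroup.one_mem _, 1, Subgroup.one_mem _, fun g => by rw [fA_apply, fH_ne hi]; simp⟩

theorem fA_mem (r : ι → ι → Prop) [IsStrictOrder ι r] (T : ∀ i, Subgroup (MulAut (G i))) (k : ι)
    (τ : MulAut (G k)) (hτ : τ ∈ T k) : fA k τ ∈ TF r T := by
  refine ⟨fA_tri r T k τ hτ, ?_, ?_⟩
  · rw [← map_inv]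
    exact fA_tri r T k _ ((T k).inv_mem hτ)
  · refine (Set.finite_singleton k).subset ?_
    rintro i ⟨g, hg⟩
    by_contra hi
    exact hg (by rw [fA_apply, fH_ne hi])

theorem of_tf_semi {C : ∀ (G : Type) [Group G], Prop} (hC : Closed C) (r : ι → ι → Prop)
    [IsStrictOrder ι r] (T : ∀ i, Subgroup (MulAut (G i)))
    (h : C (CoprodI G ⋊[(TF r T).subtype] TF r T)) (k : ι) : C (G k ⋊[(T k).subtype] T k) := by
  let f2 : T k →* TF (G := G) r T := ((fA k).comp (T k).subtype).codRestrict _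
    (fun τ => fA_mem r T k τ τ.2)
  let F : G k ⋊[(T k).subtype] T k →* CoprodI G ⋊[(TF r T).subtype] TF r T :=
    SemidirectProduct.map CoprodI.of f2 (by
      intro τ
      ext1 g
      show CoprodI.of ((τ : MulAut (G k)) g) = fA k τ (CoprodI.of g)
      rw [fA_apply, fH_self])
  refine hC.of_injective _ _ F ?_ h
  rw [injective_iff_map_eq_one]
  intro x hx
  have h1 : (CoprodI.of x.left : CoprodI G) = 1 := by
    have := congrArg SemidirectProduct.left hx
    exact this
  have h2 : x.left = 1 := CoprodI.of_injective _ (h1.trans (map_one _).symm)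
  have h3 : f2 x.right = 1 := congrArg SemidirectProduct.right hx
  have h4 : x.right = 1 := by
    apply Subtype.ext
    apply MulEquiv.ext
    intro g
    have h5 : fA k (x.right : MulAut (G k)) = 1 := congrArg Subtype.val h3
    have h6 : fA k (x.right : MulAut (G k)) (CoprodI.of g) = CoprodI.of g := by rw [h5]; rfl
    rw [fA_apply, fH_self] at h6
    exact CoprodI.of_injective _ h6
  exact SemidirectProduct.ext h2 h4

end taut

end Pool.Agent.X176.FJ
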