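import Mathlib
import Pool.Agent.X176.FJ.LetGDef
import Pool.Agent.X176.FJ.TAut

/-!
The groups of triangular transvections of `H * F(X)` are in the class.
-/

set_option autoImplicit false

namespace Pool.Agent.X176.FJ

open Pool.Agent.Y110.FJ Monoid
open Pool.Agent.Y462.SS (Closed)

section letg

variable {H X : Type} [Group H]

/-! ### uniqueness -/

/-- the swap of the factors -/
def swA (N : Type) [Group N] : MulAut (N × N) := MulEquiv.prodComm

open Classical in
/-- the homomorphism which separates the two sides of the letter `k` -/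
noncomputable def sepX (k : X) : HF H X →* SZ (swA (HF H X)) :=
  liftHF (SemidirectProduct.inl.comp ((MonoidHom.inl (HF H X) (HF H X)).comp hh))
    (fun y => if y = k then SemidirectProduct.inl (lt k, 1) * tZ _ else SemidirectProduct.inl (lt y, 1))

theorem sepX_keep (k : X) (n : HF H X) (hn : kX {k}ᶜ n = n) :
    sepX k n = SemidirectProduct.inl (n, 1) := by
  classical
  have h1 : (sepX k).comp (kX {k}ᶜ) = (SemidirectProduct.inl.comp
      (MonoidHom.inl (HF H X) (HF H X))).comp (kX {k}ᶜ) := by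
    apply HF_ext
    · intro h
      show sepX k (kX {k}ᶜ (hh h)) = SemidirectProduct.inl (kX {k}ᶜ (hh h), 1)
      rw [kX_hh, sepX, liftHF_hh]
      rfl
    · intro y
      show sepX k (kX {k}ᶜ (lt y)) = SemidirectProduct.inl (kX {k}ᶜ (lt y), 1)
      by_cases hy : y = k
      · have : y ∉ ({k}ᶜ : Set X) := fun h => h hy
        rw [kX_not this, map_one]
        exact (map_one (SemidirectProduct.inl : HF H X × HF H X →* SZ (swA (HF H X)))).symm
      · have : y ∈ ({k}ᶜ : Set X) := hy
        rw [kX_mem this, sepX, liftHF_lt, if_neg hy]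
  have h2 := DFunLike.congr_fun h1 n
  have h3 : sepX k (kX {k}ᶜ n) = SemidirectProduct.inl (kX {k}ᶜ n, 1) := h2
  rwa [hn] at h3

theorem sepX_self (k : X) : (sepX k (lt k) : SZ (swA (HF H X))) =
    SemidirectProduct.inl (lt k, 1) * tZ _ := by
  rw [sepX, liftHF_lt, if_pos rfl]

theorem sepX_word (k : X) (u v : HF H X) (hu : kX {k}ᶜ u = u) (hv : kX {k}ᶜ v = v) :
    (sepX k (u * lt k * v)).left = (u * lt k, v) := by
  rw [map_mul, map_mul, sepX_keep k u hu, sepX_keep k v hv, sepX_self]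
  have h1 : tZ (swA (HF H X)) * SemidirectProduct.inl (v, 1) =
      SemidirectProduct.inl ((1, v) : HF H X × HF H X) * tZ (swA (HF H X)) := by
    have h2 := tZ_conj (swA (HF H X)) (v, 1)
    rw [mul_inv_eq_iff_eq_mul] at h2
    exact h2
  rw [mul_assoc, mul_assoc, h1, ← mul_assoc, ← mul_assoc, ← map_mul, ← map_mul]
  show ((SemidirectProduct.inl _ : SZ (swA (HF H X))) * SemidirectProduct.inr _).left = _
  rw [SemidirectProduct.mul_left, SemidirectProduct.left_inr, map_one, mul_one,
    SemidirectProduct.left_inl]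
  apply Prod.ext
  · show u * lt k * 1 = u * lt k
    rw [mul_one]
  · show 1 * 1 * v = v
    rw [one_mul, one_mul]

theorem uniqX (k : X) {u v u' v' : HF H X} (hu : kX {k}ᶜ u = u) (hv : kX {k}ᶜ v = v)
    (hu' : kX {k}ᶜ u' = u') (hv' : kX {k}ᶜ v' = v') (h : u * lt k * v = u' * lt k * v') :
    u = u' ∧ v = v' := by
  have h1 := sepX_word k u v hu hv
  have h2 := sepX_word k u' v' hu' hv'
  rw [h, h2] at h1
  exact ⟨(mul_right_cancel (congrArg Prod.fst h1)).symm, (congrArg Prod.snd h1).symm⟩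

/-! ### the induction step -/

open Classical in
/-- the endomorphism equal to `σ` on `H` and the letters other than `k`, which fixes `k` -/
noncomputable def eL (k : X) (σ : MulAut (HF H X)) : HF H X →* HF H X :=
  liftHF (σ.toMonoidHom.comp hh) (fun y => if y = k then lt k else σ (lt y))

theorem eL_hh (k : X) (σ : MulAut (HF H X)) (h : H) : eL k σ (hh h) = σ (hh h) := liftHF_hh _ _ _

theorem eL_self (k : X) (σ : MulAut (HF H X)) : eL k σ (lt k) = lt k := by
  rw [eL, liftHF_lt, if_pos rfl]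

theorem eL_ne {k y : X} (h : y ≠ k) (σ : MulAut (HF H X)) : eL k σ (lt y) = σ (lt y) := by
  rw [eL, liftHF_lt, if_neg h]

theorem eL_keep (k : X) (σ : MulAut (HF H X)) (n : HF H X) (hn : kX {k}ᶜ n = n) :
    eL k σ n = σ n := by
  have h1 : (eL k σ).comp (kX {k}ᶜ) = σ.toMonoidHom.comp (kX {k}ᶜ) := by
    apply HF_ext
    · intro h
      show eL k σ (kX {k}ᶜ (hh h)) = σ (kX {k}ᶜ (hh h))
      rw [kX_hh, eL_hh]
    · intro y
      show eL k σ (kX {k}ᶜ (lt y)) = σ (kX {k}ᶜ (lt y))
      by_cases hy : y = k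
      · have : y ∉ ({k}ᶜ : Set X) := fun h => h hy
        rw [kX_not this, map_one, map_one]
      · have : y ∈ ({k}ᶜ : Set X) := hy
        rw [kX_mem this, eL_ne hy]
  have h2 := DFunLike.congr_fun h1 n
  have h3 : eL k σ (kX {k}ᶜ n) = σ (kX {k}ᶜ n) := h2
  rwa [hn] at h3

/-- `σ` preserves the subgroup generated by `H` and the letters other than `k` -/
def GdX (k : X) (σ : MulAut (HF H X)) : Prop :=
  (∀ h, kX {k}ᶜ (σ (hh h)) = σ (hh h)) ∧ ∀ y, y ≠ k → kX {k}ᶜ (σ (lt y)) = σ (lt y)

theorem gdX_keep {k : X} {σ : MulAut (HF H X)} (h : GdX k σ) (n : HF H X)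
    (hn : kX {k}ᶜ n = n) : kX {k}ᶜ (σ n) = σ n := by
  have h1 : ((kX {k}ᶜ).comp σ.toMonoidHom).comp (kX {k}ᶜ) = σ.toMonoidHom.comp (kX {k}ᶜ) := by
    apply HF_ext
    · intro a
      show kX {k}ᶜ (σ (kX {k}ᶜ (hh a))) = σ (kX {k}ᶜ (hh a))
      rw [kX_hh, h.1]
    · intro y
      show kX {k}ᶜ (σ (kX {k}ᶜ (lt y))) = σ (kX {k}ᶜ (lt y))
      by_cases hy : y = k
      · have : y ∉ ({k}ᶜ : Set X) := fun h => h hy
        rw [kX_not this, map_one, map_one]
      · have : y ∈ ({k}ᶜ : Set X) := hy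
        rw [kX_mem this, h.2 y hy]
  have h2 := DFunLike.congr_fun h1 n
  have h3 : kX {k}ᶜ (σ (kX {k}ᶜ n)) = σ (kX {k}ᶜ n) := h2
  rwa [hn] at h3

theorem eL_comp {k : X} (σ : MulAut (HF H X)) {σ' : MulAut (HF H X)} (h : GdX k σ')
    (n : HF H X) : eL k σ (eL k σ' n) = eL k (σ * σ') n := by
  have h1 : (eL k σ).comp (eL k σ') = eL k (σ * σ') := by
    apply HF_ext
    · intro a
      show eL k σ (eL k σ' (hh a)) = eL k (σ * σ') (hh a)
      rw [eL_hh, eL_hh, eL_keep k σ _ (h.1 a), MulAut.mul_apply]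
    · intro y
      show eL k σ (eL k σ' (lt y)) = eL k (σ * σ') (lt y)
      by_cases hy : y = k
      · subst hy
        rw [eL_self, eL_self, eL_self]
      · rw [eL_ne hy, eL_ne hy, eL_keep k σ _ (h.2 y hy), MulAut.mul_apply]
  exact DFunLike.congr_fun h1 n

theorem eL_one (k : X) (n : HF H X) : eL k 1 n = n := by
  have h1 : eL k (1 : MulAut (HF H X)) = MonoidHom.id _ := by
    apply HF_ext
    · intro a
      show eL k 1 (hh a) = hh a
      rw [eL_hh]; rfl
    · intro y
      show eL k 1 (lt y) = lt y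
      by_cases hy : y = k
      · subst hy
        rw [eL_self]
      · rw [eL_ne hy]; rfl
  exact DFunLike.congr_fun h1 n

/-- the automorphism -/
noncomputable def eLA (k : X) (σ : MulAut (HF H X)) (h : GdX k σ) (h' : GdX k σ⁻¹) :
    MulAut (HF H X) :=
  { eL k σ with
    invFun := eL k σ⁻¹
    left_inv := fun x => by
      show eL k σ⁻¹ (eL k σ x) = x
      rw [eL_comp _ h, inv_mul_cancel, eL_one]
    right_inv := fun x => by
      show eL k σ (eL k σ⁻¹ x) = x
      rw [eL_comp _ h', mul_inv_cancel, eL_one] }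

/-- the groups of the stages -/
def SG (r : X → X → Prop) (htr : ∀ a b c, r a b → r b c → r a c) (T : Subgroup (MulAut H))
    (S : Set X) : Subgroup (MulAut (HF H X)) where
  carrier := {σ | LetT (rS r S) T σ ∧ LetT (rS r S) T σ⁻¹ ∧ ∀ x ∉ S, σ (lt x) = lt x}
  mul_mem' := by
    rintro σ σ' ⟨h1, h2, h3⟩ ⟨h4, h5, h6⟩
    refine ⟨letT_mul (rS_trans htr S) h1 h4, ?_, fun x hx => ?_⟩
    · rw [mul_inv_rev]
      exact letT_mul (rS_trans htr S) h5 h2
    · rw [MulAut.mul_apply, h6 x hx, h3 x hx]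
  one_mem' := ⟨letT_one _ T, by rw [inv_one]; exact letT_one _ T, fun _ _ => rfl⟩
  inv_mem' := by
    rintro σ ⟨h1, h2, h3⟩
    exact ⟨h2, by rw [inv_inv]; exact h1, fun x hx => by
      conv_lhs => rw [← h3 x hx, MulAut.inv_apply_self]⟩

theorem hh_injective : Function.Injective (hh : H →* HF H X) := Coprod.inl_injective

/-- **the groups of the stages are in the class** -/
theorem sg_fin {C : ∀ (G : Type) [Group G], Prop} (hC : ClosedE C) (r : X → X → Prop)
    [IsStrictOrder X r] (htr : ∀ a b c, r a b → r b c → r a c) (T : Subgroup (MulAut H))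
    (hT : C (H ⋊[T.subtype] T)) (n : ℕ) : ∀ S : Finset X, S.card = n →
    C (SG r htr T (S : Set X)) := by
  classical
  have hCT : C T := hC.base.of_injective _ _
    (SemidirectProduct.inr : T →* H ⋊[T.subtype] T) SemidirectProduct.inr_injective hT
  induction n with
  | zero =>
    intro S hS
    have h0 : S = ∅ := Finset.card_eq_zero.1 hS
    subst h0
    choose τ hτ hL using fun σ : SG r htr T ((∅ : Finset X) : Set X) => σ.2.1
    let f : SG r htr T ((∅ : Finset X) : Set X) →* T := MonoidHom.mk' (fun σ => ⟨τ σ, hτ σ⟩) (by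
      intro σ σ'
      apply Subtype.ext
      apply MulEquiv.ext
      intro a
      apply hh_injective (X := X)
      show hh (τ (σ * σ') a) = hh (τ σ (τ σ' a))
      rw [← (hL (σ * σ')).1, ← (hL σ).1, ← (hL σ').1]
      rfl)
    refine hC.base.of_injective _ _ f ?_ hCT
    rw [injective_iff_map_eq_one]
    intro σ hσ
    apply Subtype.ext
    apply MulEquiv.toMonoidHom_injective
    have h1 : τ σ = 1 := congrArg Subtype.val hσ
    apply HF_ext
    · intro a
      show σ.1 (hh a) = hh a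
      rw [(hL σ).1, h1]; rfl
    · intro y
      exact σ.2.2.2 y (by simp)
  | succ n ih =>
    intro S hS
    have hne : S.Nonempty := by
      rw [← Finset.card_pos]
      omega
    obtain ⟨k, hk, hmax⟩ : ∃ k ∈ S, ∀ j ∈ S, ¬ r k j := by
      have hwf : WellFounded (fun a b : S => r b a) := by
        have : IsTrans S (fun a b : S => r b a) := ⟨fun a b c h1 h2 => _root_.trans h2 h1⟩
        have : Std.Irrefl (fun a b : S => r b a) := ⟨fun a h => irrefl _ h⟩
        exact Finite.wellFounded_of_trans_of_irrefl _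
      obtain ⟨k, -, hk⟩ := hwf.has_min Set.univ ⟨⟨hne.choose, hne.choose_spec⟩, trivial⟩
      exact ⟨k, k.2, fun j hj => hk ⟨j, hj⟩ trivial⟩
    have hcard : (S.erase k).card = n := by rw [Finset.card_erase_of_mem hk, hS]; rfl
    have hih := ih (S.erase k) hcard
    have hrr : ∀ i, i ≠ k → ∀ j, rS r (S : Set X) j i → rS r ((S.erase k : Finset X) : Set X) j i := by
      rintro i hi j ⟨h1, h2, h3⟩
      refine ⟨h1, ?_, ?_⟩
      · rw [Finset.mem_coe, Finset.mem_erase]
        exact ⟨fun h => hmax i h3 (h ▸ h1), h2⟩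
      · rw [Finset.mem_coe, Finset.mem_erase]
        exact ⟨hi, h3⟩
    have hkeep : ∀ i (x : HF H X), x ∈ lowX (H := H) (rS r (S : Set X)) i → kX {k}ᶜ x = x := by
      intro i x hx
      refine kX_low (rS r (S : Set X)) i ({k}ᶜ) (fun j hj => ?_) x hx
      intro (h : j = k)
      exact hmax i hj.2.2 (h ▸ hj.1)
    have hgd : ∀ σ : MulAut (HF H X), LetT (rS r (S : Set X)) T σ → GdX k σ := by
      rintro σ ⟨τ, -, hσ⟩
      refine ⟨fun a => by rw [hσ.1, kX_hh], fun i hi => ?_⟩
      obtain ⟨u, hu, v, hv, h⟩ := hσ.2 i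
      rw [h, map_mul, map_mul, hkeep i u hu, hkeep i v hv,
        kX_mem (show i ∈ ({k}ᶜ : Set X) from hi)]
    -- the restriction
    have htri : ∀ σ : MulAut (HF H X), LetT (rS r (S : Set X)) T σ →
        ∀ β : MulAut (HF H X), (∀ x, β x = eL k σ x) →
        LetT (rS r ((S.erase k : Finset X) : Set X)) T β := by
      rintro σ ⟨τ, hτ, hσ⟩ β hβ
      refine ⟨τ, hτ, fun a => by rw [hβ, eL_hh, hσ.1], fun i => ?_⟩
      by_cases hi : i = k
      · subst hi
        exact ⟨1, Subgroup.one_mem _, 1, Subgroup.one_mem _, by rw [hβ, eL_self]; simp⟩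
      · obtain ⟨u, hu, v, hv, h⟩ := hσ.2 i
        exact ⟨u, lowX_mono (hrr i hi) hu, v, lowX_mono (hrr i hi) hv, by rw [hβ, eL_ne hi, h]⟩
    let U := SG r htr T (S : Set X)
    let U' := SG r htr T ((S.erase k : Finset X) : Set X)
    let e : U → U' := fun σ => ⟨eLA k σ.1 (hgd _ σ.2.1) (hgd _ σ.2.2.1),
      htri _ σ.2.1 _ (fun x => rfl), htri _ σ.2.2.1 _ (fun x => rfl), fun x hx => by
        show eL k σ.1 (lt x) = lt x
        by_cases hxk : x = k
        · subst hxk
          rw [eL_self]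
        · rw [eL_ne hxk]
          refine σ.2.2.2 x fun h => hx ?_
          rw [Finset.mem_coe, Finset.mem_erase]
          exact ⟨hxk, h⟩⟩
    have hemul : ∀ σ σ' : U, e (σ * σ') = e σ * e σ' := by
      intro σ σ'
      apply Subtype.ext
      apply MulEquiv.ext
      intro x
      show eL k (σ.1 * σ'.1) x = eL k σ.1 (eL k σ'.1 x)
      exact (eL_comp _ (hgd _ σ'.2.1) x).symm
    have hsemi : C (HF H X ⋊[U'.subtype] U') := by
      refine (semi_letC hC U'.subtype fun q => ?_).2 hih
      obtain ⟨τ, hτ, hq⟩ := q.2.1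
      refine ⟨1, r, τ, one_pos, inferInstance, szC hC.base T hT τ hτ, ?_⟩
      rw [pow_one]
      refine ⟨hq.1, fun x => ?_⟩
      obtain ⟨u, hu, v, hv, h⟩ := hq.2 x
      exact ⟨u, lowX_mono (fun j hj => hj.1) hu, v, lowX_mono (fun j hj => hj.1) hv, h⟩
    choose τ hτ hL using fun σ : U => σ.2.1
    choose u hu v hv huv using fun σ : U => (hL σ).2 k
    have hfu : ∀ σ : U, kX {k}ᶜ (u σ) = u σ := fun σ => hkeep k _ (hu σ)
    have hfv : ∀ σ : U, kX {k}ᶜ (v σ) = v σ := fun σ => hkeep k _ (hv σ)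
    have hmul : ∀ σ σ' : U, u (σ * σ') = σ.1 (u σ') * u σ ∧ v (σ * σ') = v σ * σ.1 (v σ') := by
      intro σ σ'
      refine uniqX k (hfu _) (hfv _) (by rw [map_mul, hfu, gdX_keep (hgd _ σ.2.1) _ (hfu σ')])
        (by rw [map_mul, hfv, gdX_keep (hgd _ σ.2.1) _ (hfv σ')]) ?_
      rw [← huv (σ * σ')]
      show σ.1 (σ'.1 (lt k)) = _
      rw [huv σ', map_mul, map_mul, huv σ]
      group
    let Φ : U →* (HF H X ⋊[U'.subtype] U') × (HF H X ⋊[U'.subtype] U') := MonoidHom.mk'
      (fun σ => (⟨(u σ)⁻¹, e σ⟩, ⟨v σ, e σ⟩)) (by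
        intro σ σ'
        apply Prod.ext
        · apply SemidirectProduct.ext
          · show (u (σ * σ'))⁻¹ = (u σ)⁻¹ * eL k σ.1 (u σ')⁻¹
            rw [(hmul σ σ').1, mul_inv_rev, map_inv, eL_keep k σ.1 _ (hfu σ')]
          · exact hemul σ σ'
        · apply SemidirectProduct.ext
          · show v (σ * σ') = v σ * eL k σ.1 (v σ')
            rw [(hmul σ σ').2, eL_keep k σ.1 _ (hfv σ')]
          · exact hemul σ σ')
    refine hC.base.of_injective _ _ Φ ?_ (hC.base.prod _ _ hsemi hsemi)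
    rw [injective_iff_map_eq_one]
    intro σ hσ
    have h1 : (u σ)⁻¹ = 1 := congrArg (fun x => x.1.left) hσ
    have h2 : v σ = 1 := congrArg (fun x => x.2.left) hσ
    have h3 : e σ = 1 := congrArg (fun x => x.1.right) hσ
    apply Subtype.ext
    apply MulEquiv.toMonoidHom_injective
    apply HF_ext
    · intro a
      show σ.1 (hh a) = hh a
      have h4 : (e σ).1 (hh a) = hh a := by rw [h3]; rfl
      rw [← eL_hh k]
      exact h4
    · intro y
      show σ.1 (lt y) = lt y
      by_cases hy : y = k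
      · subst hy
        rw [huv, inv_eq_one.1 h1, h2, one_mul, mul_one]
      · have h4 : (e σ).1 (lt y) = lt y := by rw [h3]; rfl
        rw [← eL_ne hy]
        exact h4

/-! ### the finitary group -/

theorem lowX_keep {r : X → X → Prop} {i : X} {S : Set X} (hi : i ∈ S) (x : HF H X)
    (hx : x ∈ lowX (H := H) r i) : kX S x ∈ lowX (H := H) (rS r S) i := by
  have h1 : lowX (H := H) r i ≤ (lowX (H := H) (rS r S) i).comap (kX S) := by
    conv_lhs => rw [lowX]
    rw [Subgroup.closure_le]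
    rintro n (⟨a, rfl⟩ | ⟨j, hj, rfl⟩)
    · show kX S (hh a) ∈ lowX (H := H) (rS r S) i
      rw [kX_hh]
      exact lowX_hh _ _ a
    · show kX S (lt j) ∈ lowX (H := H) (rS r S) i
      by_cases hjS : j ∈ S
      · rw [kX_mem hjS]
        exact Subgroup.subset_closure (Or.inr ⟨j, ⟨hj, hjS, hi⟩, rfl⟩)
      · rw [kX_not hjS]
        exact Subgroup.one_mem _
  exact h1 hx

theorem let_S {r : X → X → Prop} {T : Subgroup (MulAut H)} {σ : MulAut (HF H X)}
    (h : LetT r T σ) (F : Set X) (hF : F.Finite) (hm : ∀ i ∉ F, σ (lt i) = lt i) :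
    ∃ S : Set X, S.Finite ∧ ∀ S' : Set X, S ⊆ S' → LetT (rS r S') T σ := by
  obtain ⟨τ, hτ, h1, h2⟩ := h
  choose u hu v hv hσ using h2
  choose s hs1 hs2 using kX_fin (H := H) (X := X)
  refine ⟨F ∪ ⋃ i ∈ F, (s (u i) ∪ s (v i)), hF.union (hF.biUnion fun i _ =>
    (hs1 _).union (hs1 _)), fun S' hS' => ⟨τ, hτ, h1, fun i => ?_⟩⟩
  by_cases hi : i ∈ F
  · have hiS : i ∈ S' := hS' (Or.inl hi)
    have h3 : kX S' (u i) = u i := hs2 (u i) S' (fun j hj =>
      hS' (Or.inr (Set.mem_biUnion hi (Or.inl hj))))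
    have h4 : kX S' (v i) = v i := hs2 (v i) S' (fun j hj =>
      hS' (Or.inr (Set.mem_biUnion hi (Or.inr hj))))
    refine ⟨u i, ?_, v i, ?_, hσ i⟩
    · rw [← h3]
      exact lowX_keep hiS _ (hu i)
    · rw [← h4]
      exact lowX_keep hiS _ (hv i)
  · exact ⟨1, Subgroup.one_mem _, 1, Subgroup.one_mem _, by rw [hm i hi]; simp⟩

theorem tvg_S {r : X → X → Prop} [IsStrictOrder X r] {T : Subgroup (MulAut H)}
    {σ : MulAut (HF H X)} (h : σ ∈ TVG r T) :
    ∃ S : Set X, S.Finite ∧ ∀ S' : Set X, S ⊆ S' →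
      σ ∈ SG r (fun _ _ _ => _root_.trans) T S' := by
  obtain ⟨h1, h2, h3⟩ := h
  have hm : ∀ i ∉ {i | σ (lt i) ≠ lt i}, σ (lt i) = lt i := by
    intro i hi
    by_contra h4
    exact hi h4
  have hm' : ∀ i ∉ {i | σ (lt i) ≠ lt i}, σ⁻¹ (lt i) = lt i := by
    intro i hi
    conv_lhs => rw [← hm i hi, MulAut.inv_apply_self]
  obtain ⟨S1, hS1, hS1'⟩ := let_S h1 _ h3 hm
  obtain ⟨S2, hS2, hS2'⟩ := let_S h2 _ h3 hm'
  refine ⟨S1 ∪ S2 ∪ {i | σ (lt i) ≠ lt i}, (hS1.union hS2).union h3, fun S' hS' =>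
    ⟨hS1' S' (fun x hx => hS' (Or.inl (Or.inl hx))),
     hS2' S' (fun x hx => hS' (Or.inl (Or.inr hx))), fun x hx => ?_⟩⟩
  exact hm x fun h => hx (hS' (Or.inr h))

/-- **the group of finitary triangular transvections** -/
theorem tvg_c {C : ∀ (G : Type) [Group G], Prop} (hC : ClosedE C) (r : X → X → Prop)
    [IsStrictOrder X r] (T : Subgroup (MulAut H)) (hT : C (H ⋊[T.subtype] T)) : C (TVG r T) := by
  classical
  apply c_loc hC.base
  intro E hE
  choose s hs1 hs2 using fun x : TVG (H := H) r T => tvg_S x.2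
  let S : Set X := ⋃ x ∈ E, s x
  have hS : S.Finite := hE.biUnion fun x _ => hs1 x
  have hfin : ((hS.toFinset : Finset X) : Set X) = S := hS.coe_toFinset
  have h1 := sg_fin hC r (fun _ _ _ => _root_.trans) T hT _ hS.toFinset rfl
  rw [hfin] at h1
  have hle : Subgroup.closure E ≤
      (SG r (fun _ _ _ => _root_.trans) T S).comap (TVG r T).subtype := by
    rw [Subgroup.closure_le]
    intro x hx
    exact hs2 x S (Set.subset_biUnion_of_mem (u := s) hx)
  refine hC.base.of_injective _ _ (((TVG (H := H) r T).subtype.comp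
    (Subgroup.closure E).subtype).codRestrict
    (SG r (fun _ _ _ => _root_.trans) T S) (fun x => hle x.2)) ?_ h1
  intro x y hxy
  apply Subtype.ext
  apply Subtype.ext
  have h2 := congrArg Subtype.val hxy
  exact h2

theorem extA_tvg (r : X → X → Prop) [IsStrictOrder X r] (T : Subgroup (MulAut H)) (τ : T) :
    (extA (τ : MulAut H) : MulAut (HF H X)) ∈ TVG r T := by
  have h1 : ∀ τ : T, LetT r T (extA (τ : MulAut H) : MulAut (HF H X)) := fun τ =>
    ⟨τ, τ.2, extA_hh _, fun x => ⟨1, Subgroup.one_mem _, 1, Subgroup.one_mem _, by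
      rw [extA_lt]; simp⟩⟩
  refine ⟨h1 τ, ?_, ?_⟩
  · have h2 : (extA (τ : MulAut H) : MulAut (HF H X))⁻¹ = extA ((τ⁻¹ : T) : MulAut H) := by
      rw [inv_eq_iff_mul_eq_one]
      apply MulEquiv.toMonoidHom_injective
      apply HF_ext
      · intro a
        show extA (τ : MulAut H) (extA ((τ⁻¹ : T) : MulAut H) (hh a)) = hh a
        rw [extA_hh, extA_hh, Subgroup.coe_inv, MulAut.apply_inv_self]
      · intro y
        show extA (τ : MulAut H) (extA ((τ⁻¹ : T) : MulAut H) (lt y)) = lt y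
        rw [extA_lt, extA_lt]
    rw [h2]
    exact h1 _
  · have h2 : {x : X | (extA (τ : MulAut H) : MulAut (HF H X)) (lt x) ≠ lt x} = ∅ := by
      ext x
      simp [extA_lt]
    show Set.Finite _
    rw [h2]
    exact Set.finite_empty

/-- the inclusion of `T` -/
def extH (r : X → X → Prop) [IsStrictOrder X r] (T : Subgroup (MulAut H)) :
    T →* TVG (H := H) r T := MonoidHom.mk' (fun τ => ⟨extA (τ : MulAut H), extA_tvg r T τ⟩) (by
  intro τ τ'
  apply Subtype.ext
  apply MulEquiv.toMonoidHom_injective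
  apply HF_ext
  · intro a
    show extA ((τ * τ' : T) : MulAut H) (hh a) =
      extA (τ : MulAut H) (extA (τ' : MulAut H) (hh a))
    rw [extA_hh, extA_hh, extA_hh]; rfl
  · intro y
    show extA ((τ * τ' : T) : MulAut H) (lt y) =
      extA (τ : MulAut H) (extA (τ' : MulAut H) (lt y))
    rw [extA_lt, extA_lt, extA_lt])

/-- the transvection `x ↦ a⁻¹ x` -/
noncomputable def mvA (x : X) (a : H) : MulAut (HF H X) :=
  elXA x (hh a)⁻¹ 1 (by rw [map_inv, kX_hh]) (map_one _)

theorem mvA_hh (x : X) (a b : H) : mvA x a (hh b) = hh b := elX_hh x (hh a)⁻¹ 1 b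

theorem mvA_self (x : X) (a : H) : mvA x a (lt x) = (hh a)⁻¹ * lt x := by
  show elX x (hh a)⁻¹ 1 (lt x) = _
  rw [elX_self, mul_one]

theorem mvA_ne (x : X) (a : H) {y : X} (h : y ≠ x) : mvA x a (lt y) = lt y := elX_ne (hh a)⁻¹ 1 h

theorem mvA_mul (x : X) (a b : H) : mvA x (a * b) = mvA x a * mvA x b := by
  apply MulEquiv.toMonoidHom_injective
  apply HF_ext
  · intro c
    show mvA x (a * b) (hh c) = mvA x a (mvA x b (hh c))
    rw [mvA_hh, mvA_hh, mvA_hh]
  · intro y
    show mvA x (a * b) (lt y) = mvA x a (mvA x b (lt y))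
    by_cases hy : y = x
    · subst hy
      rw [mvA_self, mvA_self, map_mul (mvA y a), map_inv (mvA y a), mvA_hh, mvA_self, map_mul hh,
        mul_inv_rev, mul_assoc]
    · rw [mvA_ne x _ hy, mvA_ne x _ hy, mvA_ne x _ hy]

theorem mvA_tvg (r : X → X → Prop) [IsStrictOrder X r] (T : Subgroup (MulAut H)) (x : X) (a : H) :
    mvA x a ∈ TVG r T := by
  have h1 : ∀ a : H, LetT r T (mvA x a) := by
    intro a
    refine ⟨1, T.one_mem, fun b => mvA_hh x a b, fun y => ?_⟩
    by_cases hy : y = x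
    · subst hy
      exact ⟨(hh a)⁻¹, Subgroup.inv_mem _ (lowX_hh _ _ a), 1, Subgroup.one_mem _, by
        rw [mvA_self, mul_one]⟩
    · exact ⟨1, Subgroup.one_mem _, 1, Subgroup.one_mem _, by rw [mvA_ne x a hy]; simp⟩
  refine ⟨h1 a, ?_, ?_⟩
  · have h2 : (mvA x a : MulAut (HF H X))⁻¹ = mvA x a⁻¹ := by
      rw [inv_eq_iff_mul_eq_one, ← mvA_mul, mul_inv_cancel]
      apply MulEquiv.toMonoidHom_injective
      apply HF_ext
      · intro c
        exact mvA_hh x 1 c
      · intro y
        show mvA x 1 (lt y) = lt y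
        by_cases hy : y = x
        · subst hy
          rw [mvA_self, map_one, inv_one, one_mul]
        · rw [mvA_ne x _ hy]
    rw [h2]
    exact h1 _
  · refine (Set.finite_singleton x).subset ?_
    intro y hy
    by_contra hyx
    exact hy (mvA_ne x a hyx)

/-- the embedding of `H ⋊ T` -/
theorem of_tvg {C : ∀ (G : Type) [Group G], Prop} (hC : Closed C) (r : X → X → Prop)
    [IsStrictOrder X r] (T : Subgroup (MulAut H)) (x : X) (h : C (TVG (H := H) r T)) :
    C (H ⋊[T.subtype] T) := by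
  let f1 : H →* TVG (H := H) r T := MonoidHom.mk' (fun a => ⟨mvA x a, mvA_tvg r T x a⟩)
    (fun a b => Subtype.ext (mvA_mul x a b))
  let F : H ⋊[T.subtype] T →* TVG (H := H) r T := SemidirectProduct.lift f1 (extH r T) (by
    intro τ
    apply MonoidHom.ext
    intro a
    apply Subtype.ext
    apply MulEquiv.toMonoidHom_injective
    have e1 : ((extH (X := X) r T τ * f1 a * (extH (X := X) r T τ)⁻¹ : TVG (H := H) r T) :
        MulAut (HF H X)) = extA (τ : MulAut H) * mvA x a * extA ((τ⁻¹ : T) : MulAut H) := by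
      rw [← map_inv]; rfl
    apply HF_ext
    · intro b
      show mvA x ((τ : MulAut H) a) (hh b) =
        ((extH (X := X) r T τ * f1 a * (extH (X := X) r T τ)⁻¹ : TVG (H := H) r T) :
        MulAut (HF H X)) (hh b)
      rw [e1]
      show mvA x ((τ : MulAut H) a) (hh b) =
        extA (τ : MulAut H) (mvA x a (extA ((τ⁻¹ : T) : MulAut H) (hh b)))
      rw [mvA_hh, extA_hh, mvA_hh, extA_hh, Subgroup.coe_inv, MulAut.apply_inv_self]
    · intro y
      show mvA x ((τ : MulAut H) a) (lt y) =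
        ((extH (X := X) r T τ * f1 a * (extH (X := X) r T τ)⁻¹ : TVG (H := H) r T) :
        MulAut (HF H X)) (lt y)
      rw [e1]
      show mvA x ((τ : MulAut H) a) (lt y) =
        extA (τ : MulAut H) (mvA x a (extA ((τ⁻¹ : T) : MulAut H) (lt y)))
      by_cases hy : y = x
      · subst hy
        rw [extA_lt, mvA_self, mvA_self, map_mul (extA (τ : MulAut H)),
          map_inv (extA (τ : MulAut H)), extA_hh, extA_lt]
      · rw [extA_lt, mvA_ne x _ hy, mvA_ne x _ hy, extA_lt])
  refine hC.of_injective _ _ F ?_ h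
  rw [injective_iff_map_eq_one]
  intro z hz
  have hF : ((F z : TVG (H := H) r T) : MulAut (HF H X)) =
      mvA x z.left * extA (z.right : MulAut H) := rfl
  have h1 : ∀ n, mvA x z.left (extA (z.right : MulAut H) n) = n := by
    intro n
    have h2 : ((F z : TVG (H := H) r T) : MulAut (HF H X)) n = n := by rw [hz]; rfl
    rw [hF] at h2
    exact h2
  refine SemidirectProduct.ext ?_ ?_
  · have h2 := h1 (lt x)
    rw [extA_lt, mvA_self] at h2
    have h3 : (hh z.left : HF H X)⁻¹ = 1 := by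
      have h4 := congrArg (fun w => w * (lt x : HF H X)⁻¹) h2
      simpa using h4
    exact hh_injective (X := X) ((inv_eq_one.1 h3).trans (map_one _).symm)
  · apply Subtype.ext
    apply MulEquiv.ext
    intro a
    have h2 := h1 (hh a)
    rw [extA_hh, mvA_hh] at h2
    exact hh_injective h2

/-- the semidirect product with the group of finitary triangular transvections -/
theorem tvg_semi {C : ∀ (G : Type) [Group G], Prop} (hC : ClosedE C) (r : X → X → Prop)
    [IsStrictOrder X r] (T : Subgroup (MulAut H)) :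
    C (HF H X ⋊[(TVG r T).subtype] TVG r T) ↔ C (H ⋊[T.subtype] T) := by
  constructor
  · intro h
    refine hC.base.of_injective _ _ (SemidirectProduct.map (φ₁ := T.subtype)
      (φ₂ := (TVG (H := H) r T).subtype) (hh : H →* HF H X) (extH r T) (fun τ => ?_)) ?_ h
    · ext1 a
      exact (extA_hh (τ : MulAut H) a).symm
    · intro a b hab
      have h2 : hh a.left = (hh b.left : HF H X) := congrArg SemidirectProduct.left hab
      have h3 : extH (X := X) r T a.right = extH r T b.right := congrArg SemidirectProduct.right hab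
      refine SemidirectProduct.ext (hh_injective h2) ?_
      apply Subtype.ext
      apply MulEquiv.ext
      intro x
      apply hh_injective (X := X)
      have h4 := congrArg (fun z : TVG (H := H) r T => (z : MulAut (HF H X)) (hh x)) h3
      have h5 : extA (a.right : MulAut H) (hh x) = (extA (b.right : MulAut H) : MulAut (HF H X)) (hh x) :=
        h4
      rwa [extA_hh, extA_hh] at h5
  · intro hT
    refine (semi_letC hC _ fun q => ?_).2 (tvg_c hC r T hT)
    obtain ⟨τ, hτ, hq⟩ := q.2.1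
    refine ⟨1, r, τ, one_pos, inferInstance, szC hC.base T hT τ hτ, ?_⟩
    rw [pow_one]
    exact hq

theorem bot_iff {C : ∀ (G : Type) [Group G], Prop} (hC : Closed C) :
    C (H ⋊[(⊥ : Subgroup (MulAut H)).subtype] (⊥ : Subgroup (MulAut H))) ↔ C H := by
  constructor
  · intro h
    exact hC.of_injective _ _ (SemidirectProduct.inl :
      H →* H ⋊[(⊥ : Subgroup (MulAut H)).subtype] (⊥ : Subgroup (MulAut H)))
      SemidirectProduct.inl_injective h
  · intro h
    refine hC.of_injective _ _ (MonoidHom.mk' (fun z :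
      H ⋊[(⊥ : Subgroup (MulAut H)).subtype] (⊥ : Subgroup (MulAut H)) => z.left) ?_) ?_ h
    · intro a b
      have h1 : (a.right : MulAut H) = 1 := Subgroup.mem_bot.1 a.right.2
      show a.left * (a.right : MulAut H) b.left = a.left * b.left
      rw [h1, MulAut.one_apply]
    · intro a b hab
      exact SemidirectProduct.ext hab (Subsingleton.elim _ _)

end letg

end Pool.Agent.X176.FJ
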