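import Mathlib
import Pool.Agent.Y462.SS.Base

/-!
Residual properties, local embeddability, limits of marked groups and reduced products: definitions.
-/

set_option autoImplicit false

namespace Pool.Agent.X176.FJ

/-- each nontrivial element of `G` has nontrivial image in some group of the class `P` -/
def Res (P : ∀ (G : Type) [Group G], Prop) (G : Type) [Group G] : Prop :=
  ∀ g : G, g ≠ 1 → ∃ (H : Type) (_ : Group H) (f : G →* H), P H ∧ f g ≠ 1

/-- `G` is locally embeddable into the class `P`: for each finite subset `E` there is a map to a group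
in `P` which is injective on `E` and multiplicative on `E` -/
def LocEmb (P : ∀ (G : Type) [Group G], Prop) (G : Type) [Group G] : Prop :=
  ∀ E : Set G, E.Finite → ∃ (H : Type) (_ : Group H) (f : G → H), P H ∧ Set.InjOn f E ∧
    ∀ x ∈ E, ∀ y ∈ E, f (x * y) = f x * f y

/-- the group `G`, marked by `φ`, is the limit of the groups `H n`, marked by `ψ n`: every word is
trivial in `G` if and only if it is trivial in `H n` for all large `n`, and nontrivial in `G` if and
only if it is nontrivial in `H n` for all large `n` -/
def MarkedLimit {X G : Type} [Group G] (φ : FreeGroup X →* G) (H : ℕ → Type) [∀ n, Group (H n)]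
    (ψ : ∀ n, FreeGroup X →* H n) : Prop :=
  Function.Surjective φ ∧ ∀ w : FreeGroup X,
    (φ w = 1 → ∀ᶠ n in Filter.atTop, ψ n w = 1) ∧ (φ w ≠ 1 → ∀ᶠ n in Filter.atTop, ψ n w ≠ 1)

/-- the elements of a product which are trivial in almost all coordinates with respect to a filter -/
def filN {I : Type} (U : Filter I) (G : I → Type) [∀ i, Group (G i)] : Subgroup (∀ i, G i) where
  carrier := {g | ∀ᶠ i in U, g i = 1}
  mul_mem' := fun {a b} ha hb => by
    filter_upwards [ha, hb] with i h1 h2
    rw [Pi.mul_apply, h1, h2, one_mul]
  one_mem' := Filter.Eventually.of_forall fun _ => rfl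
  inv_mem' := fun {a} ha => by
    filter_upwards [ha] with i h1
    rw [Pi.inv_apply, h1, inv_one]

instance filN_normal {I : Type} (U : Filter I) (G : I → Type) [∀ i, Group (G i)] :
    (filN U G).Normal := by
  refine ⟨fun n hn g => ?_⟩
  have hn' : ∀ᶠ i in U, n i = 1 := hn
  show ∀ᶠ i in U, (g * n * g⁻¹) i = 1
  filter_upwards [hn'] with i h1
  rw [Pi.mul_apply, Pi.mul_apply, Pi.inv_apply, h1, mul_one, mul_inv_cancel]

/-- the reduced product with respect to a filter (the ultraproduct, if it is an ultrafilter) -/
abbrev RedProd {I : Type} (U : Filter I) (G : I → Type) [∀ i, Group (G i)] : Type :=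
  (∀ i, G i) ⧸ filN U G

end Pool.Agent.X176.FJ
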