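import Mathlib
import Pool.Agent.X176.FJ.Local

/-!
Quotients by normal subgroups with virtual complements, and subgroups of products.
-/

set_option autoImplicit false

namespace Pool.Agent.X176.FJ

open Pool.Agent.Y110.FJ
open Pool.Agent.Y462.SS (Closed)

/-- `M` has a virtual complement: a subgroup `H` which meets `M` trivially and such that the subgroup
generated by `H` and `M` has finite index -/
def VirtCompl {Γ : Type} [Group Γ] (M : Subgroup Γ) : Prop :=
  ∃ H : Subgroup Γ, H ⊓ M = ⊥ ∧ (H ⊔ M).FiniteIndex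

section quo

variable {Γ : Type} [Group Γ]

theorem c_vc {C : ∀ (G : Type) [Group G], Prop} (hC : Closed C) (hΓ : C Γ) (M : Subgroup Γ)
    [M.Normal] (h : VirtCompl M) : C (Γ ⧸ M) := by
  obtain ⟨H, h1, h2⟩ := h
  let f : Γ →* Γ ⧸ M := QuotientGroup.mk' M
  have hfi : (H.map f).FiniteIndex := by
    refine ⟨?_⟩
    rw [Subgroup.index_map, QuotientGroup.ker_mk']
    refine mul_ne_zero h2.index_ne_zero ?_
    rw [MonoidHom.range_eq_top.2 (QuotientGroup.mk'_surjective M), Subgroup.index_top]
    exact one_ne_zero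
  refine hC.finiteIndex _ (H.map f) hfi ?_
  have hinj : Function.Injective (f.comp H.subtype) := by
    rw [injective_iff_map_eq_one]
    intro x hx
    have hx' : (x : Γ) ∈ M := (QuotientGroup.eq_one_iff _).1 hx
    have h3 : (x : Γ) ∈ H ⊓ M := ⟨x.2, hx'⟩
    rw [h1] at h3
    exact Subtype.ext (Subgroup.mem_bot.1 h3)
  have he : H.map f = (f.comp H.subtype).range := by
    rw [MonoidHom.range_comp, Subgroup.range_subtype]
  rw [he]
  refine hC.of_injective _ H (MonoidHom.ofInjective hinj).symm.toMonoidHom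
    (MonoidHom.ofInjective hinj).symm.injective ?_
  exact hC.of_injective _ _ H.subtype H.subtype_injective hΓ

/-- **quotients by directed unions of normal subgroups with virtual complements** -/
theorem c_quo {C : ∀ (G : Type) [Group G], Prop} (hC : Closed C) (hΓ : C Γ) (J : Type) [Nonempty J]
    (M : J → Subgroup Γ) [hn : ∀ j, (M j).Normal] (hdir : ∀ i j, ∃ k, M i ≤ M k ∧ M j ≤ M k)
    (N : Subgroup Γ) [N.Normal] (hN : ∀ x, x ∈ N ↔ ∃ j, x ∈ M j) (hM : ∀ j, VirtCompl (M j)) :
    C (Γ ⧸ N) := by
  let _ : Preorder J := Preorder.lift M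
  have hle : ∀ j, M j ≤ N := fun j x hx => (hN x).2 ⟨j, hx⟩
  refine hC.colim J (fun i j => hdir i j) (fun j => Γ ⧸ M j)
    (fun i j h => QuotientGroup.map (M i) (M j) (MonoidHom.id Γ) h) (Γ ⧸ N)
    (fun j => QuotientGroup.map (M j) N (MonoidHom.id Γ) (hle j)) ?_ ?_ ?_ ?_ ?_ ?_
  · intro i h x
    induction x using QuotientGroup.induction_on with
    | H x => rfl
  · intro i j k h h' x
    induction x using QuotientGroup.induction_on with
    | H x => rfl
  · intro i j h x
    induction x using QuotientGroup.induction_on with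
    | H x => rfl
  · intro y
    induction y using QuotientGroup.induction_on with
    | H x => exact ⟨Classical.arbitrary J, QuotientGroup.mk x, rfl⟩
  · intro i x hx
    induction x using QuotientGroup.induction_on with
    | H x =>
      have h1 : (QuotientGroup.mk x : Γ ⧸ N) = 1 := hx
      obtain ⟨j, hj⟩ := (hN x).1 ((QuotientGroup.eq_one_iff _).1 h1)
      obtain ⟨k, hik, hjk⟩ := hdir i j
      exact ⟨k, hik, (QuotientGroup.eq_one_iff _).2 (hjk hj)⟩
  · intro j
    exact c_vc hC hΓ (M j) (hM j)

end quo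

/-! ### products -/

section prod

variable {I : Type} {F : I → Type} [∀ i, Group (F i)]

theorem c_piFin {C : ∀ (G : Type) [Group G], Prop} (hC : Closed C) (hF : ∀ i, C (F i))
    (J : Finset I) : C (∀ j : J, F j) := by
  classical
  induction J using Finset.induction_on with
  | empty =>
    refine hC.of_injective _ (Multiplicative ℤ) 1 ?_ hC.int
    intro x y _
    funext j
    exact absurd j.2 (Finset.notMem_empty _)
  | insert a J ha ih =>
    let f : (∀ j : (insert a J : Finset I), F j) →* F a × (∀ j : J, F j) :=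
      (Pi.evalMonoidHom (fun j : (insert a J : Finset I) => F j) ⟨a, Finset.mem_insert_self a J⟩).prod
        (MonoidHom.pi fun j : J => Pi.evalMonoidHom (fun j : (insert a J : Finset I) => F j)
          ⟨j, Finset.mem_insert_of_mem j.2⟩)
    refine hC.of_injective _ _ f ?_ (hC.prod _ _ (hF a) ih)
    intro x y hxy
    funext ⟨j, hj⟩
    rcases Finset.mem_insert.1 hj with h | h
    · subst h
      exact congrArg Prod.fst hxy
    · exact congrFun (congrArg Prod.snd hxy) ⟨j, h⟩

/-- the elements of finite support -/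
def FinSupp (F : I → Type) [∀ i, Group (F i)] : Subgroup (∀ i, F i) where
  carrier := {x | {i | x i ≠ 1}.Finite}
  mul_mem' := by
    intro x y hx hy
    refine (hx.union hy).subset fun i hi => ?_
    by_contra h
    have h1 : x i = 1 := by by_contra h1; exact h (Or.inl h1)
    have h2 : y i = 1 := by by_contra h2; exact h (Or.inr h2)
    exact hi (by rw [Pi.mul_apply, h1, h2, mul_one])
  one_mem' := by
    show Set.Finite _
    simp
  inv_mem' := by
    intro x hx
    refine hx.subset fun i hi h => hi ?_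
    rw [Pi.inv_apply, h, inv_one]

instance : (FinSupp F).Normal := ⟨by
  intro x hx g
  refine hx.subset fun i hi h => hi ?_
  rw [Pi.mul_apply, Pi.mul_apply, h, mul_one, Pi.inv_apply, mul_inv_cancel]⟩

/-- subgroups of products with many groups of the class -/
theorem c_sub_prod {C : ∀ (G : Type) [Group G], Prop} (hC : ClosedE C) (hF : ∀ i, C (F i))
    (Γ : Subgroup (∀ i, F i)) (hQ : C (Γ ⧸ (FinSupp F).subgroupOf Γ)) : C Γ := by
  classical
  refine crit C hC Γ ((FinSupp F).subgroupOf Γ) hQ fun g E hE hEN => ?_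
  have hfin : (⋃ x ∈ E, {i | (x : ∀ i, F i) i ≠ 1}).Finite := hE.biUnion fun x hx => hEN hx
  let J : Finset I := hfin.toFinset
  have hJ : ∀ x ∈ E, ∀ i ∉ J, (x : ∀ i, F i) i = 1 := by
    intro x hx i hi
    by_contra h
    exact hi (hfin.mem_toFinset.2 (Set.mem_biUnion hx h))
  let S : Subgroup Γ := Subgroup.closure (E ∪ (fun x => g * x * g⁻¹) '' E)
  have hS : ∀ x ∈ S, ∀ i ∉ J, (x : ∀ i, F i) i = 1 := by
    intro x hx i hi
    have h1 : S ≤ ((Pi.evalMonoidHom F i).comp Γ.subtype).ker := by
      rw [Subgroup.closure_le]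
      rintro x (hx | ⟨y, hy, rfl⟩)
      · exact hJ x hx i hi
      · show (((g * y * g⁻¹ : Γ) : ∀ i, F i)) i = 1
        have h2 := hJ y hy i hi
        show ((g : ∀ i, F i) i) * ((y : ∀ i, F i) i) * ((g : ∀ i, F i) i)⁻¹ = 1
        rw [h2, mul_one, mul_inv_cancel]
    exact h1 hx
  let r : Γ →* (∀ j : J, F j) :=
    (MonoidHom.pi fun j : J => Pi.evalMonoidHom F (j : I)).comp Γ.subtype
  refine ⟨∀ j : J, F j, inferInstance, r.comp S.subtype, r g, c_piFin hC.base hF J, ?_, ?_⟩
  · rw [injective_iff_map_eq_one]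
    intro x hx
    apply Subtype.ext
    apply Subtype.ext
    funext i
    by_cases hi : i ∈ J
    · exact congrFun hx ⟨i, hi⟩
    · exact hS x x.2 i hi
  · rintro ⟨x, hx'⟩ ⟨y, hy'⟩ hx hy
    have h8 : y = g * x * g⁻¹ := hy
    show r y = r g * r x * (r g)⁻¹
    rw [h8, map_mul, map_mul, map_inv]

/-- the elements with support in `J` -/
def SuppIn (F : I → Type) [∀ i, Group (F i)] (J : Finset I) : Subgroup (∀ i, F i) where
  carrier := {x | ∀ i ∉ J, x i = 1}
  mul_mem' := by
    intro x y hx hy i hi
    rw [Pi.mul_apply, hx i hi, hy i hi, mul_one]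
  one_mem' := fun i _ => rfl
  inv_mem' := by
    intro x hx i hi
    rw [Pi.inv_apply, hx i hi, inv_one]

instance (J : Finset I) : (SuppIn F J).Normal := ⟨by
  intro x hx g i hi
  rw [Pi.mul_apply, Pi.mul_apply, hx i hi, mul_one, Pi.inv_apply, mul_inv_cancel]⟩

/-- the elements `x` of the factor `F i` such that `Γ` contains the element with the value `x` at `i`
and the other values `1` -/
def Coord [DecidableEq I] (Γ : Subgroup (∀ i, F i)) (i : I) : Subgroup (F i) :=
  Γ.comap (MonoidHom.mulSingle F i)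

/-- the group of the values at `i` of the elements of `Γ` -/
def Proj (Γ : Subgroup (∀ i, F i)) (i : I) : Subgroup (F i) := Γ.map (Pi.evalMonoidHom F i)

/-- quotients of subgroups of products by the elements of finite support -/
theorem c_prod_quo {C : ∀ (G : Type) [Group G], Prop} (hC : Closed C) [DecidableEq I]
    (Γ : Subgroup (∀ i, F i)) (hΓ : C Γ) (hfi : ∀ i, (Coord Γ i).relIndex (Proj Γ i) ≠ 0) :
    C (Γ ⧸ (FinSupp F).subgroupOf Γ) := by
  refine c_quo hC hΓ (Finset I) (fun J => (SuppIn F J).subgroupOf Γ) (fun J J' => ⟨J ∪ J', ?_, ?_⟩)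
    _ ?_ ?_
  · intro x hx i hi
    exact hx i (fun h => hi (Finset.mem_union_left _ h))
  · intro x hx i hi
    exact hx i (fun h => hi (Finset.mem_union_right _ h))
  · intro x
    constructor
    · intro hx
      have hx' : {i | (x : ∀ i, F i) i ≠ 1}.Finite := hx
      exact ⟨hx'.toFinset, fun i hi => by
        by_contra h
        exact hi (hx'.mem_toFinset.2 h)⟩
    · rintro ⟨J, hJ⟩
      refine (J.finite_toSet).subset fun i hi => ?_
      by_contra h
      exact hi (hJ i h)
  · intro J
    let H : Subgroup Γ := ⨅ i : J, ((Pi.evalMonoidHom F (i : I)).comp Γ.subtype).ker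
    have hH : ∀ x : Γ, x ∈ H ↔ ∀ i ∈ J, (x : ∀ i, F i) i = 1 := by
      intro x
      rw [Subgroup.mem_iInf]
      exact ⟨fun h i hi => h ⟨i, hi⟩, fun h i => h i i.2⟩
    refine ⟨H, ?_, ?_⟩
    · rw [eq_bot_iff]
      rintro x ⟨hx1, hx2⟩
      rw [Subgroup.mem_bot]
      apply Subtype.ext
      funext i
      by_cases hi : i ∈ J
      · exact (hH x).1 hx1 i hi
      · exact hx2 i hi
    · let L : Subgroup Γ := ⨅ i : J, (Coord Γ i).comap ((Pi.evalMonoidHom F (i : I)).comp Γ.subtype)
      have hL : L.FiniteIndex := by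
        apply Subgroup.finiteIndex_iInf
        intro i
        refine ⟨?_⟩
        rw [Subgroup.index_comap, MonoidHom.range_comp, Subgroup.range_subtype]
        exact hfi i
      have hle : L ≤ H ⊔ (SuppIn F J).subgroupOf Γ := by
        intro x hx
        have hx' : ∀ i ∈ J, Pi.mulSingle i ((x : ∀ i, F i) i) ∈ Γ := by
          intro i hi
          exact (Subgroup.mem_iInf.1 hx) ⟨i, hi⟩
        have h1 : ∀ J' : Finset I, J' ⊆ J →
            (fun i => if i ∈ J' then (x : ∀ i, F i) i else 1 : ∀ i, F i) ∈ Γ := by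
          intro J'
          induction J' using Finset.induction_on with
          | empty =>
            intro _
            have : (fun i => if i ∈ (∅ : Finset I) then (x : ∀ i, F i) i else 1 : ∀ i, F i) = 1 := by
              funext i; simp
            rw [this]
            exact Γ.one_mem
          | insert a J' ha ih =>
            intro hJ'
            have h2 := Γ.mul_mem (ih (fun i hi => hJ' (Finset.mem_insert_of_mem hi)))
              (hx' a (hJ' (Finset.mem_insert_self a J')))
            convert h2 using 1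
            funext i
            rw [Pi.mul_apply]
            by_cases hia : i = a
            · subst hia
              rw [if_pos (Finset.mem_insert_self _ _), if_neg ha, one_mul, Pi.mulSingle_eq_same]
            · rw [Pi.mulSingle_eq_of_ne hia, mul_one]
              by_cases hi : i ∈ J'
              · rw [if_pos hi, if_pos (Finset.mem_insert_of_mem hi)]
              · rw [if_neg hi, if_neg (fun h => (Finset.mem_insert.1 h).elim hia hi)]
        let m : Γ := ⟨_, h1 J (le_refl J)⟩
        have hm : ∀ i, (m : ∀ i, F i) i = if i ∈ J then (x : ∀ i, F i) i else 1 := fun i => rfl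
        have hxm : x = x * m⁻¹ * m := by group
        rw [hxm]
        refine Subgroup.mul_mem _ (Subgroup.mem_sup_left ?_) (Subgroup.mem_sup_right ?_)
        · rw [hH]
          intro i hi
          show (x : ∀ i, F i) i * ((m : ∀ i, F i) i)⁻¹ = 1
          rw [hm, if_pos hi, mul_inv_cancel]
        · intro i hi
          show (m : ∀ i, F i) i = 1
          rw [hm, if_neg hi]
      exact Subgroup.finiteIndex_of_le hle

/-- a group with the generators `t` is the limit of the groups with the generators `s i` -/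
def IsLimit {X G : Type} [Group G] (s : ∀ i, X → F i) (t : X → G) : Prop :=
  Subgroup.closure (Set.range t) = ⊤ ∧
    ∀ w : FreeGroup X, FreeGroup.lift t w = 1 ↔ {i | FreeGroup.lift (s i) w ≠ 1}.Finite

/-- the diagonal product of the groups with the generators `s i` -/
def DiagProd {X : Type} (s : ∀ i, X → F i) : Subgroup (∀ i, F i) :=
  Subgroup.closure (Set.range fun x i => s i x)

theorem diag_iso {X G : Type} [Group G] (s : ∀ i, X → F i) (t : X → G) (h : IsLimit s t) :
    Nonempty (G ≃* DiagProd s ⧸ (FinSupp F).subgroupOf (DiagProd s)) := by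
  let d : X → DiagProd s := fun x => ⟨fun i => s i x, Subgroup.subset_closure ⟨x, rfl⟩⟩
  let p1 : FreeGroup X →* DiagProd s ⧸ (FinSupp F).subgroupOf (DiagProd s) :=
    (QuotientGroup.mk' _).comp (FreeGroup.lift d)
  let p2 : FreeGroup X →* G := FreeGroup.lift t
  have hd : ∀ (w : FreeGroup X) (i : I),
      ((FreeGroup.lift d w : DiagProd s) : ∀ i, F i) i = FreeGroup.lift (s i) w := by
    intro w i
    have h1 : ((Pi.evalMonoidHom F i).comp (DiagProd s).subtype).comp (FreeGroup.lift d) =
        FreeGroup.lift (s i) := by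
      apply FreeGroup.ext_hom
      intro x
      show ((FreeGroup.lift d (FreeGroup.of x) : DiagProd s) : ∀ i, F i) i =
        FreeGroup.lift (s i) (FreeGroup.of x)
      rw [FreeGroup.lift_apply_of, FreeGroup.lift_apply_of]
    exact DFunLike.congr_fun h1 w
  have hs1 : Function.Surjective p1 := by
    have h2 : Function.Surjective (FreeGroup.lift d) := by
      rw [← MonoidHom.range_eq_top, eq_top_iff]
      rintro ⟨y, hy⟩ -
      have h3 : DiagProd s ≤ (FreeGroup.lift d).range.map (DiagProd s).subtype := by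
        conv_lhs => rw [DiagProd]
        rw [Subgroup.closure_le]
        rintro _ ⟨x, rfl⟩
        exact ⟨d x, ⟨FreeGroup.of x, FreeGroup.lift_apply_of⟩, rfl⟩
      obtain ⟨z, hz, hzy⟩ := h3 hy
      have : z = ⟨y, hy⟩ := Subtype.ext hzy
      rw [← this]
      exact hz
    exact (QuotientGroup.mk'_surjective _).comp h2
  have hs2 : Function.Surjective p2 := by
    rw [← MonoidHom.range_eq_top, FreeGroup.range_lift_eq_closure]
    exact h.1
  have hker : p1.ker = p2.ker := by
    ext w
    rw [MonoidHom.mem_ker, MonoidHom.mem_ker]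
    have h4 : p1 w = 1 ↔ {i | FreeGroup.lift (s i) w ≠ 1}.Finite := by
      show (QuotientGroup.mk (FreeGroup.lift d w) :
        DiagProd s ⧸ (FinSupp F).subgroupOf (DiagProd s)) = 1 ↔ _
      rw [QuotientGroup.eq_one_iff]
      show {i | ((FreeGroup.lift d w : DiagProd s) : ∀ i, F i) i ≠ 1}.Finite ↔ _
      simp only [hd]
    rw [h4]
    exact (h.2 w).symm
  exact ⟨(QuotientGroup.quotientKerEquivOfSurjective p2 hs2).symm.trans
    ((QuotientGroup.quotientMulEquivOfEq hker.symm).trans
      (QuotientGroup.quotientKerEquivOfSurjective p1 hs1))⟩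

end prod

/-! ### residually finite groups -/

section rf

variable {Γ : Type} [Group Γ]

/-- residually finite groups -/
def ResFin (Γ : Type) [Group Γ] : Prop := ∀ x : Γ, x ≠ 1 → ∃ H : Subgroup Γ, H.FiniteIndex ∧ x ∉ H

/-- each finite subset of `N` is contained in a finite subgroup of `N` which is normal in `Γ` -/
def FinNormal (N : Subgroup Γ) : Prop :=
  ∀ E : Set Γ, E.Finite → E ⊆ N → ∃ M : Subgroup Γ, M.Normal ∧ Finite M ∧ E ⊆ M ∧ M ≤ N

theorem vc_fin (h : ResFin Γ) (M : Subgroup Γ) [Finite M] : VirtCompl M := by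
  classical
  choose H hH using h
  have hfi : ∀ x : M, (if hx : (x : Γ) ≠ 1 then H x hx else ⊤).FiniteIndex := by
    intro x
    by_cases hx : (x : Γ) ≠ 1
    · rw [dif_pos hx]; exact (hH x hx).1
    · rw [dif_neg hx]; infer_instance
  have hL := Subgroup.finiteIndex_iInf hfi
  refine ⟨⨅ x : M, (if hx : (x : Γ) ≠ 1 then H x hx else ⊤), ?_, Subgroup.finiteIndex_of_le le_sup_left⟩
  rw [eq_bot_iff]
  rintro x ⟨hx1, hx2⟩
  rw [Subgroup.mem_bot]
  by_contra hx
  have h1 := (Subgroup.mem_iInf.1 hx1) ⟨x, hx2⟩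
  rw [dif_pos (show ((⟨x, hx2⟩ : M) : Γ) ≠ 1 from hx)] at h1
  exact (hH x hx).2 h1

theorem rf_quo {C : ∀ (G : Type) [Group G], Prop} (hC : Closed C) (h : ResFin Γ) (N : Subgroup Γ)
    [N.Normal] (hN : FinNormal N) (hΓ : C Γ) : C (Γ ⧸ N) := by
  let J : Type := {M : Subgroup Γ // M.Normal ∧ Finite M ∧ M ≤ N}
  have : Nonempty J := ⟨⟨⊥, inferInstance, inferInstance, bot_le⟩⟩
  refine c_quo hC hΓ J (fun M => M.1) (hn := fun M => M.2.1) ?_ N ?_ ?_
  · rintro ⟨M, h1, h2, h3⟩ ⟨M', h1', h2', h3'⟩
    obtain ⟨M'', h4, h5, h6, h7⟩ := hN ((M : Set Γ) ∪ M')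
      ((Set.toFinite (M : Set Γ)).union (Set.toFinite (M' : Set Γ))) (by
        rintro x (hx | hx)
        · exact h3 hx
        · exact h3' hx)
    exact ⟨⟨M'', h4, h5, h7⟩, fun x hx => h6 (Or.inl hx), fun x hx => h6 (Or.inr hx)⟩
  · intro x
    constructor
    · intro hx
      obtain ⟨M, h4, h5, h6, h7⟩ := hN {x} (Set.finite_singleton x) (by
        rintro y rfl; exact hx)
      exact ⟨⟨M, h4, h5, h7⟩, h6 rfl⟩
    · rintro ⟨M, hM⟩
      exact M.2.2.2 hM
  · rintro ⟨M, h1, h2, h3⟩
    exact vc_fin h M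

theorem rf_ext {C : ∀ (G : Type) [Group G], Prop} (hC : ClosedE C) (N : Subgroup Γ)
    [N.Normal] (hN : FinNormal N) (hQ : C (Γ ⧸ N)) : C Γ := by
  refine crit C hC Γ N hQ fun g E hE hEN => ?_
  obtain ⟨M, h1, h2, h3, -⟩ := hN E hE hEN
  have hle : Subgroup.closure (E ∪ (fun x => g * x * g⁻¹) '' E) ≤ M := by
    rw [Subgroup.closure_le]
    rintro x (hx | ⟨y, hy, rfl⟩)
    · exact h3 hx
    · exact h1.conj_mem _ (h3 hy) g
  let p : Equiv.Perm M := (MulAut.conjNormal g).toEquiv
  refine ⟨Equiv.Perm M, inferInstance, (MulAction.toPermHom M M).comp (Subgroup.inclusion hle), p,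
    c_finite hC.base _, ?_, ?_⟩
  · have h5 : Function.Injective (MulAction.toPermHom M M) := MulAction.toPerm_injective
    exact h5.comp (Subgroup.inclusion_injective hle)
  · rintro ⟨x, hx'⟩ ⟨y, hy'⟩ hx hy
    apply Equiv.ext
    intro z
    apply Subtype.ext
    have h8 : y = g * x * g⁻¹ := hy
    show y * (z : Γ) = g * (x * ((MulAut.conjNormal g).symm z : M)) * g⁻¹
    rw [MulAut.conjNormal_symm_apply, h8]
    group

end rf

end Pool.Agent.X176.FJ
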