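import Mathlib
import Pool.Agent.X176.FJ.LimDef
import Pool.Agent.X176.FJ.Quo
import Pool.Agent.X176.FJ.Tri

/-!
Classes of groups which are closed under unrestricted products, limits of marked groups etc.
-/

set_option autoImplicit false

namespace Pool.Agent.X176.FJ

open Pool.Agent.Y110.FJ
open Pool.Agent.Y462.SS (Closed)

variable {C P : ∀ (G : Type) [Group G], Prop}

/-- a quotient by the union of a directed family of normal subgroups -/
theorem c_ker (hC : Closed C) {F L : Type} [Group F] [Group L] {D : Type} [Preorder D] [Nonempty D]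
    (hdir : ∀ i j : D, ∃ k, i ≤ k ∧ j ≤ k) (K : D → Subgroup F) [∀ d, (K d).Normal]
    (hmono : ∀ d e, d ≤ e → K d ≤ K e) (φ : F →* L) (hφ : Function.Surjective φ)
    (hker : ∀ x, φ x = 1 ↔ ∃ d, x ∈ K d) (h : ∀ d, C (F ⧸ K d)) : C L := by
  have hle : ∀ d, K d ≤ φ.ker := fun d x hx => (hker x).2 ⟨d, hx⟩
  refine hC.colim D hdir (fun d => F ⧸ K d)
    (fun d e hde => QuotientGroup.map _ _ (MonoidHom.id F) (fun x hx => hmono d e hde hx)) L
    (fun d => QuotientGroup.lift _ φ (hle d)) ?_ ?_ ?_ ?_ ?_ h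
  · intro d _ x
    obtain ⟨x, rfl⟩ := QuotientGroup.mk_surjective x
    rfl
  · intro d e f _ _ x
    obtain ⟨x, rfl⟩ := QuotientGroup.mk_surjective x
    rfl
  · intro d e _ x
    obtain ⟨x, rfl⟩ := QuotientGroup.mk_surjective x
    rfl
  · intro y
    obtain ⟨x, rfl⟩ := hφ y
    exact ⟨Classical.arbitrary D, QuotientGroup.mk x, rfl⟩
  · intro d x hx
    obtain ⟨x, rfl⟩ := QuotientGroup.mk_surjective x
    obtain ⟨e, he⟩ := (hker x).1 hx
    obtain ⟨f, hdf, hef⟩ := hdir d e
    exact ⟨f, hdf, (QuotientGroup.eq_one_iff x).2 (hmono e f hef he)⟩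

theorem Res.sub {G : Type} [Group G] (h : Res P G) (K : Subgroup G) : Res P K := by
  intro g hg
  obtain ⟨H, _, f, hH, hf⟩ := h g (fun h1 => hg (Subtype.ext h1))
  exact ⟨H, _, f.comp K.subtype, hH, hf⟩

theorem LocEmb.sub {G : Type} [Group G] (h : LocEmb P G) (K : Subgroup G) : LocEmb P K := by
  intro E hE
  obtain ⟨H, _, f, hH, hf1, hf2⟩ := h (Subtype.val '' E) (hE.image _)
  refine ⟨H, _, fun x => f x, hH, ?_, ?_⟩
  · intro x hx y hy hxy
    exact Subtype.ext (hf1 ⟨x, hx, rfl⟩ ⟨y, hy, rfl⟩ hxy)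
  · intro x hx y hy
    exact hf2 x ⟨x, hx, rfl⟩ y ⟨y, hy, rfl⟩

/-- all residually-`P` groups are in the class -/
def ResIn (P C : ∀ (G : Type) [Group G], Prop) : Prop := ∀ (G : Type) [Group G], Res P G → C G

/-- all finitely generated residually-`P` groups are in the class -/
def ResFgIn (P C : ∀ (G : Type) [Group G], Prop) : Prop :=
  ∀ (G : Type) [Group G], Group.FG G → Res P G → C G

/-- all groups which are locally embeddable into `P` are in the class -/
def LocEmbIn (P C : ∀ (G : Type) [Group G], Prop) : Prop :=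
  ∀ (G : Type) [Group G], LocEmb P G → C G

/-- all limits of sequences of marked groups (with finitely many generators) in `P` are in the class -/
def MLimIn (P C : ∀ (G : Type) [Group G], Prop) : Prop :=
  ∀ (X : Type) [Finite X] (G : Type) [Group G] (φ : FreeGroup X →* G) (H : ℕ → Type)
    [∀ n, Group (H n)] (ψ : ∀ n, FreeGroup X →* H n), MarkedLimit φ H ψ → (∀ n, P (H n)) → C G

theorem res_of_fg (hC : Closed C) (h : ResFgIn P C) : ResIn P C := by
  intro G _ hG
  apply c_loc hC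
  intro E hE
  have h1 : (Subgroup.closure E).FG := ⟨hE.toFinset, by simp⟩
  have h2 : Group.FG (Subgroup.closure E) := (Group.fg_iff_subgroup_fg _).2 h1
  exact h _ h2 (hG.sub _)

/-- limits of marked groups from residual groups -/
theorem mlim_of_res (hC : Closed C) (h : ResFgIn P C) : MLimIn P C := by
  intro X _ G _ φ H _ ψ ⟨hφ, hw⟩ hH
  let K : ℕ → Subgroup (FreeGroup X) := fun k =>
    { carrier := {w | ∀ n, k ≤ n → ψ n w = 1}
      mul_mem' := fun {a b} ha hb n hn => by rw [map_mul, ha n hn, hb n hn, one_mul]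
      one_mem' := fun n _ => map_one _
      inv_mem' := fun {a} ha n hn => by rw [map_inv, ha n hn, inv_one] }
  have hK : ∀ k, (K k).Normal := fun k => ⟨fun w hw g n hn => by
    rw [map_mul, map_mul, hw n hn, mul_one, ← map_mul, mul_inv_cancel, map_one]⟩
  refine c_ker hC (D := ℕ) (fun i j => ⟨max i j, le_max_left _ _, le_max_right _ _⟩) K
    (fun d e hde w hw n hn => hw n (hde.trans hn)) φ hφ ?_ ?_
  · intro w
    constructor
    · intro h1
      obtain ⟨k, hk⟩ := Filter.eventually_atTop.1 ((hw w).1 h1)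
      exact ⟨k, hk⟩
    · rintro ⟨k, hk⟩
      by_contra h1
      obtain ⟨m, hm⟩ := Filter.eventually_atTop.1 ((hw w).2 h1)
      exact hm (max k m) (le_max_right _ _) (hk _ (le_max_left _ _))
  · intro k
    have hfg : Group.FG (FreeGroup X ⧸ K k) := inferInstance
    refine h _ hfg ?_
    intro x hx
    obtain ⟨w, rfl⟩ := QuotientGroup.mk_surjective x
    have h1 : ¬ ∀ n, k ≤ n → ψ n w = 1 := fun h2 => hx ((QuotientGroup.eq_one_iff w).2 h2)
    push Not at h1
    obtain ⟨n, hn, hnw⟩ := h1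
    exact ⟨H n, _, QuotientGroup.lift _ (ψ n) (fun v hv => hv n hn), hH n, hnw⟩

/-- locally embeddable groups from limits of marked groups -/
theorem loc_of_mlim (hC : Closed C) (h : MLimIn P C) : LocEmbIn P C := by
  intro G _ hG
  apply c_loc hC
  intro E hE
  let G0 := Subgroup.closure E
  have hG0 : LocEmb P G0 := hG.sub _
  have : Finite E := hE
  let φ : FreeGroup E →* G0 := FreeGroup.lift fun x => ⟨x, Subgroup.subset_closure x.2⟩
  have hφ : Function.Surjective φ := by
    rw [← MonoidHom.range_eq_top]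
    rw [eq_top_iff]
    have h1 : (⊤ : Subgroup G0) = Subgroup.closure (((↑) : G0 → G) ⁻¹' E) :=
      Subgroup.closure_closure_coe_preimage.symm
    rw [h1, Subgroup.closure_le]
    intro x hx
    exact ⟨FreeGroup.of ⟨x, hx⟩, by rw [FreeGroup.lift_apply_of]⟩
  have hcount : Countable G0 := by
    have h1 : Countable (FreeGroup E) := inferInstance
    exact hφ.countable
  obtain ⟨e, he⟩ := exists_surjective_nat G0
  let B : ℕ → Set G0 := fun n => e '' (Set.Iic n)
  have hB : ∀ n, (B n).Finite := fun n => (Set.finite_Iic n).image e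
  have hBe : ∀ x, ∀ᶠ n in Filter.atTop, x ∈ B n := by
    intro x
    obtain ⟨m, rfl⟩ := he x
    exact Filter.eventually_atTop.2 ⟨m, fun n hn => ⟨m, hn, rfl⟩⟩
  choose H iH f hH hf1 hf2 using fun n => hG0 (B n) (hB n)
  let ψ : ∀ n, FreeGroup E →* H n := fun n => FreeGroup.lift fun x => f n (φ (FreeGroup.of x))
  have hone : ∀ᶠ n in Filter.atTop, f n 1 = 1 := by
    filter_upwards [hBe 1] with n hn
    have h1 := hf2 n 1 hn 1 hn
    rw [mul_one] at h1
    exact left_eq_mul.1 h1
  have key : ∀ w, ∀ᶠ n in Filter.atTop, ψ n w = f n (φ w) := by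
    let S : Subgroup (FreeGroup E) :=
      { carrier := {w | ∀ᶠ n in Filter.atTop, ψ n w = f n (φ w)}
        mul_mem' := fun {a b} ha hb => by
          have ha' : ∀ᶠ n in Filter.atTop, ψ n a = f n (φ a) := ha
          have hb' : ∀ᶠ n in Filter.atTop, ψ n b = f n (φ b) := hb
          show ∀ᶠ n in Filter.atTop, ψ n (a * b) = f n (φ (a * b))
          filter_upwards [ha', hb', hBe (φ a), hBe (φ b)] with n h1 h2 h3 h4
          rw [map_mul, h1, h2, map_mul, hf2 n _ h3 _ h4]
        one_mem' := by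
          show ∀ᶠ n in Filter.atTop, ψ n 1 = f n (φ 1)
          filter_upwards [hone] with n h1
          rw [map_one, map_one, h1]
        inv_mem' := fun {a} ha => by
          have ha' : ∀ᶠ n in Filter.atTop, ψ n a = f n (φ a) := ha
          show ∀ᶠ n in Filter.atTop, ψ n a⁻¹ = f n (φ a⁻¹)
          filter_upwards [ha', hBe (φ a), hBe (φ a)⁻¹, hone] with n h1 h2 h3 h4
          rw [map_inv, map_inv, h1, inv_eq_iff_mul_eq_one, ← hf2 n _ h2 _ h3, mul_inv_cancel, h4] }
    have hS : S = ⊤ := by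
      rw [eq_top_iff, ← FreeGroup.closure_range_of, Subgroup.closure_le]
      rintro _ ⟨x, rfl⟩
      show ∀ᶠ n in Filter.atTop, ψ n (FreeGroup.of x) = f n (φ (FreeGroup.of x))
      exact Filter.Eventually.of_forall fun n => FreeGroup.lift_apply_of
    intro w
    have : w ∈ S := by rw [hS]; trivial
    exact this
  refine h E G0 φ H ψ ⟨hφ, fun w => ⟨fun h1 => ?_, fun h1 => ?_⟩⟩ hH
  · filter_upwards [key w, hone] with n h2 h3
    rw [h2, h1, h3]
  · filter_upwards [key w, hone, hBe (φ w), hBe 1] with n h2 h3 h4 h5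
    rw [h2]
    intro h6
    exact h1 (hf1 n h4 h5 (h6.trans h3.symm))

/-- residual groups from locally embeddable groups -/
theorem res_of_loc (hP1 : P PUnit) (hP2 : ∀ (G H : Type) [Group G] [Group H], P G → P H → P (G × H))
    (h : LocEmbIn P C) : ResIn P C := by
  intro G _ hG
  refine h G ?_
  intro E hE
  have key : ∀ D : Set G, D.Finite → (∀ d ∈ D, d ≠ 1) →
      ∃ (H : Type) (_ : Group H) (f : G →* H), P H ∧ ∀ d ∈ D, f d ≠ 1 := by
    intro D hD
    induction D, hD using Set.Finite.induction_on with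
    | empty => exact fun _ => ⟨PUnit, _, 1, hP1, fun d hd => absurd hd (Set.notMem_empty d)⟩
    | @insert a D _ _ ih =>
      intro hD1
      obtain ⟨H, _, f, hH, hf⟩ := ih (fun d hd => hD1 d (Set.mem_insert_of_mem _ hd))
      obtain ⟨H', _, f', hH', hf'⟩ := hG a (hD1 a (Set.mem_insert _ _))
      refine ⟨H × H', _, f.prod f', hP2 _ _ hH hH', ?_⟩
      intro d hd h1
      rcases Set.mem_insert_iff.1 hd with rfl | hd
      · exact hf' (congrArg Prod.snd h1)
      · exact hf d hd (congrArg Prod.fst h1)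
  obtain ⟨H, _, f, hH, hf⟩ := key {d | ∃ x ∈ E, ∃ y ∈ E, d = x * y⁻¹ ∧ d ≠ 1} (by
    refine ((hE.prod hE).image (fun p : G × G => p.1 * p.2⁻¹)).subset ?_
    rintro d ⟨x, hx, y, hy, rfl, -⟩
    exact ⟨(x, y), ⟨hx, hy⟩, rfl⟩) (fun d hd => by
      obtain ⟨x, _, y, _, _, h1⟩ := hd
      exact h1)
  refine ⟨H, _, f, hH, ?_, fun x _ y _ => map_mul f x y⟩
  intro x hx y hy hxy
  by_contra h1
  have h2 : x * y⁻¹ ≠ 1 := fun h3 => h1 (mul_inv_eq_one.1 h3)
  exact hf _ ⟨x, hx, y, hy, rfl, h2⟩ (by rw [map_mul, map_inv, hxy, mul_inv_cancel])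

/-- **local embeddability**: residually-`P` groups, groups locally embeddable into `P`, limits of
marked groups in `P` -/
theorem lim_tfae (hC : Closed C) (hP1 : P PUnit)
    (hP2 : ∀ (G H : Type) [Group G] [Group H], P G → P H → P (G × H)) :
    (ResFgIn P C ↔ ResIn P C) ∧ (ResFgIn P C ↔ LocEmbIn P C) ∧ (ResFgIn P C ↔ MLimIn P C) := by
  have h1 : ResFgIn P C → MLimIn P C := mlim_of_res hC
  have h2 : MLimIn P C → LocEmbIn P C := loc_of_mlim hC
  have h3 : LocEmbIn P C → ResIn P C := res_of_loc hP1 hP2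
  have h4 : ResIn P C → ResFgIn P C := fun h G _ _ hG => h G hG
  exact ⟨⟨fun h => h3 (h2 (h1 h)), h4⟩, ⟨fun h => h2 (h1 h), fun h => h4 (h3 h)⟩,
    ⟨h1, fun h => h4 (h3 (h2 h))⟩⟩

/-- countable powers -/
def PowersIn (C : ∀ (G : Type) [Group G], Prop) : Prop :=
  ∀ (G : Type) [Group G], C G → C (ℕ → G)

/-- unrestricted products -/
def ProductsIn (C : ∀ (G : Type) [Group G], Prop) : Prop :=
  ∀ (I : Type) (G : I → Type) [∀ i, Group (G i)], (∀ i, C (G i)) → C (∀ i, G i)

/-- reduced products with respect to arbitrary filters -/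
def RedProductsIn (C : ∀ (G : Type) [Group G], Prop) : Prop :=
  ∀ (I : Type) (U : Filter I) (G : I → Type) [∀ i, Group (G i)], (∀ i, C (G i)) → C (RedProd U G)

/-- ultraproducts of sequences of groups with respect to one fixed nonprincipal ultrafilter -/
def UltraproductsIn (C : ∀ (G : Type) [Group G], Prop) : Prop :=
  ∀ (G : ℕ → Type) [∀ n, Group (G n)], (∀ n, C (G n)) →
    C (RedProd ((Filter.hyperfilter ℕ : Ultrafilter ℕ) : Filter ℕ) G)

theorem red_of_prod (hC : Closed C) (h : ProductsIn C) : RedProductsIn C := by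
  classical
  intro I U G _ hG
  let D := {A : Set I // A ∈ U}ᵒᵈ
  have : Nonempty D := ⟨OrderDual.toDual ⟨Set.univ, Filter.univ_mem⟩⟩
  let K : D → Subgroup (∀ i, G i) := fun A =>
    { carrier := {g | ∀ i ∈ (OrderDual.ofDual A).1, g i = 1}
      mul_mem' := fun {a b} ha hb i hi => by rw [Pi.mul_apply, ha i hi, hb i hi, one_mul]
      one_mem' := fun i _ => rfl
      inv_mem' := fun {a} ha i hi => by rw [Pi.inv_apply, ha i hi, inv_one] }
  have hK : ∀ d, (K d).Normal := fun d => ⟨fun w hw g i hi => by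
    rw [Pi.mul_apply, Pi.mul_apply, Pi.inv_apply, hw i hi, mul_one, mul_inv_cancel]⟩
  refine c_ker hC (D := D) ?_ K ?_ (QuotientGroup.mk' (filN U G)) (QuotientGroup.mk'_surjective _)
    ?_ ?_
  · intro A B
    exact ⟨OrderDual.toDual ⟨(OrderDual.ofDual A).1 ∩ (OrderDual.ofDual B).1,
      Filter.inter_mem (OrderDual.ofDual A).2 (OrderDual.ofDual B).2⟩,
      Set.inter_subset_left, Set.inter_subset_right⟩
  · intro A B hAB g hg i hi
    exact hg i (hAB hi)
  · intro g
    rw [QuotientGroup.mk'_apply, QuotientGroup.eq_one_iff]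
    constructor
    · intro h1
      have h2 : {i | g i = 1} ∈ U := h1
      exact ⟨OrderDual.toDual ⟨_, h2⟩, fun i hi => hi⟩
    · rintro ⟨A, hA⟩
      exact Filter.mem_of_superset (OrderDual.ofDual A).2 hA
  · intro A
    let f : (∀ i, G i) →* ∀ i : (OrderDual.ofDual A).1, G i :=
      { toFun := fun g i => g i
        map_one' := rfl
        map_mul' := fun _ _ => rfl }
    let F : (∀ i, G i) ⧸ K A →* ∀ i : (OrderDual.ofDual A).1, G i :=
      QuotientGroup.lift _ f (fun g hg => funext fun i => hg i i.2)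
    refine hC.of_injective _ _ F ?_ (h _ _ (fun i => hG i))
    rw [injective_iff_map_eq_one]
    intro x hx
    obtain ⟨g, rfl⟩ := QuotientGroup.mk_surjective x
    rw [QuotientGroup.eq_one_iff]
    intro i hi
    exact congrFun hx ⟨i, hi⟩

/-- approximation of a countable residually-`C` group -/
theorem res_seq (hC : Closed C) {G : Type} [Group G] [Countable G] (hG : Res C G) :
    ∃ (H : ℕ → Type) (_ : ∀ n, Group (H n)) (f : ∀ n, G →* H n), (∀ n, C (H n)) ∧
      ∀ g, g ≠ 1 → ∀ᶠ n in Filter.atTop, f n g ≠ 1 := by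
  classical
  obtain ⟨e, he⟩ := exists_surjective_nat G
  have h1 : ∀ g : G, ∃ (H : Type) (_ : Group H) (f : G →* H), C H ∧ (g ≠ 1 → f g ≠ 1) := by
    intro g
    by_cases hg : g = 1
    · exact ⟨Multiplicative ℤ, _, 1, hC.int, fun h => absurd hg h⟩
    · obtain ⟨H, _, f, hH, hf⟩ := hG g hg
      exact ⟨H, _, f, hH, fun _ => hf⟩
  choose Q iQ q hQ hq using h1
  refine ⟨fun n => ∀ i : (Finset.range (n + 1) : Finset ℕ), Q (e i), fun n => inferInstance,
    fun n => MonoidHom.pi fun i => q (e i), fun n => ?_, ?_⟩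
  · exact c_piFin hC (F := fun i => Q (e i)) (fun i => hQ _) (Finset.range (n + 1))
  · intro g hg
    obtain ⟨m, rfl⟩ := he g
    refine Filter.eventually_atTop.2 ⟨m, fun n hn h2 => ?_⟩
    exact hq (e m) hg (congrFun h2 ⟨m, Finset.mem_range.2 (by omega)⟩)

theorem fg_countable {G : Type} [Group G] (hG : Group.FG G) : Countable G := by
  obtain ⟨S, hS, f, hf⟩ := Group.fg_iff_exists_freeGroup_hom_surjective.1 hG
  have : Finite S := hS
  have h1 : Countable (FreeGroup S) := inferInstance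
  exact hf.countable

theorem res_of_pow (hC : Closed C) (h : PowersIn C) : ResFgIn C C := by
  intro G _ hfg hG
  have := fg_countable hfg
  obtain ⟨H, _, f, hH, hf⟩ := res_seq hC hG
  let Q := Monoid.CoprodI H
  have hQ : C Q := c_coprodI hC hH
  let F : G →* ℕ → Q := MonoidHom.pi fun n => Monoid.CoprodI.of.comp (f n)
  refine hC.of_injective _ _ F ?_ (h Q hQ)
  rw [injective_iff_map_eq_one]
  intro g hg
  by_contra h1
  obtain ⟨n, hn⟩ := (hf g h1).exists
  have h2 : Monoid.CoprodI.of (f n g) = (1 : Q) := congrFun hg n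
  exact hn (Monoid.CoprodI.of_injective _ (h2.trans (map_one _).symm))

theorem res_of_ultra (hC : Closed C) (h : UltraproductsIn C) : ResFgIn C C := by
  intro G _ hfg hG
  have := fg_countable hfg
  obtain ⟨H, _, f, hH, hf⟩ := res_seq hC hG
  let F : G →* RedProd ((Filter.hyperfilter ℕ : Ultrafilter ℕ) : Filter ℕ) H :=
    (QuotientGroup.mk' _).comp (MonoidHom.pi f)
  refine hC.of_injective _ _ F ?_ (h H hH)
  rw [injective_iff_map_eq_one]
  intro g hg
  by_contra h1
  have h2 : ∀ᶠ n in ((Filter.hyperfilter ℕ : Ultrafilter ℕ) : Filter ℕ), f n g = 1 :=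
    (QuotientGroup.eq_one_iff _).1 hg
  have h3 : ∀ᶠ n in ((Filter.hyperfilter ℕ : Ultrafilter ℕ) : Filter ℕ), f n g ≠ 1 := by
    have h4 : ((Filter.hyperfilter ℕ : Ultrafilter ℕ) : Filter ℕ) ≤ Filter.atTop := by
      rw [← Nat.cofinite_eq_atTop]
      exact Filter.hyperfilter_le_cofinite
    exact h4 (hf g h1)
  obtain ⟨n, hn1, hn2⟩ := (h2.and h3).exists
  exact hn2 hn1

/-- **products**: the equivalences -/
theorem prod_tfae (hC : Closed C) :
    (ProductsIn C ↔ PowersIn C) ∧ (ProductsIn C ↔ RedProductsIn C) ∧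
    (ProductsIn C ↔ UltraproductsIn C) ∧ (ProductsIn C ↔ ResIn C C) ∧
    (ProductsIn C ↔ LocEmbIn C C) ∧ (ProductsIn C ↔ MLimIn C C) := by
  have hP1 : C PUnit := hC.of_injective _ (Multiplicative ℤ) 1
    (fun _ _ _ => Subsingleton.elim _ _) hC.int
  obtain ⟨e1, e2, e3⟩ := lim_tfae (P := C) hC hP1 hC.prod
  have a1 : ProductsIn C → PowersIn C := fun h G _ hG => h ℕ (fun _ => G) (fun _ => hG)
  have a2 : PowersIn C → ResFgIn C C := res_of_pow hC
  have a3 : ResFgIn C C → ProductsIn C := by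
    intro h I G _ hG
    refine (e1.1 h) _ ?_
    intro g hg
    obtain ⟨i, hi⟩ := Function.ne_iff.1 hg
    exact ⟨G i, _, Pi.evalMonoidHom G i, hG i, hi⟩
  have a4 : ProductsIn C → RedProductsIn C := red_of_prod hC
  have a5 : RedProductsIn C → UltraproductsIn C := fun h G _ hG => h ℕ _ G hG
  have a6 : UltraproductsIn C → ResFgIn C C := res_of_ultra hC
  have a7 : ProductsIn C → ResFgIn C C := fun h => a2 (a1 h)
  exact ⟨⟨a1, fun h => a3 (a2 h)⟩, ⟨a4, fun h => a3 (a6 (a5 h))⟩, ⟨fun h => a5 (a4 h),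
    fun h => a3 (a6 h)⟩, ⟨fun h => e1.1 (a7 h), fun h => a3 (e1.2 h)⟩,
    ⟨fun h => e2.1 (a7 h), fun h => a3 (e2.2 h)⟩, ⟨fun h => e3.1 (a7 h), fun h => a3 (e3.2 h)⟩⟩

end Pool.Agent.X176.FJ
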