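import Mathlib

/-!
Symmetric automorphisms of a free product.
-/

set_option autoImplicit false

namespace Pool.Agent.X176.FJ

open Monoid

/-- The holomorph of a group: its semidirect product with its automorphism group. -/
abbrev Holo (H : Type) [Group H] : Type := H ⋊[MonoidHom.id (MulAut H)] (MulAut H)

/-- The automorphism `σ` of the free product of the groups `G i` is symmetric: it maps each factor to a
conjugate of itself, i.e. for each `i` there is `u` such that `n` is in the factor `G i` if and only if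
`u σ(n) u⁻¹` is. -/
def IsSym {ι : Type} (G : ι → Type) [∀ i, Group (G i)] (σ : MulAut (CoprodI G)) : Prop :=
  ∀ i, ∃ u : CoprodI G, ∀ n : CoprodI G,
    n ∈ (CoprodI.of : G i →* CoprodI G).range ↔ u * σ n * u⁻¹ ∈ (CoprodI.of : G i →* CoprodI G).range

theorem isSym_one {ι : Type} (G : ι → Type) [∀ i, Group (G i)] : IsSym G 1 :=
  fun _ => ⟨1, fun n => by rw [one_mul, inv_one, mul_one]; rfl⟩

theorem isSym_mul {ι : Type} (G : ι → Type) [∀ i, Group (G i)] {σ τ : MulAut (CoprodI G)}
    (hσ : IsSym G σ) (hτ : IsSym G τ) : IsSym G (σ * τ) := by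
  intro i
  obtain ⟨u, hu⟩ := hσ i
  obtain ⟨v, hv⟩ := hτ i
  refine ⟨u * σ v, fun n => ?_⟩
  rw [hv, hu, map_mul, map_mul, map_inv]
  have h : u * (σ v * σ (τ n) * (σ v)⁻¹) * u⁻¹ = u * σ v * (σ * τ) n * (u * σ v)⁻¹ := by
    show u * (σ v * σ (τ n) * (σ v)⁻¹) * u⁻¹ = u * σ v * σ (τ n) * (u * σ v)⁻¹
    group
  rw [h]

theorem isSym_inv {ι : Type} (G : ι → Type) [∀ i, Group (G i)] {σ : MulAut (CoprodI G)}
    (hσ : IsSym G σ) : IsSym G σ⁻¹ := by
  intro i
  obtain ⟨u, hu⟩ := hσ i
  refine ⟨σ⁻¹ u⁻¹, fun n => ?_⟩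
  rw [hu (σ⁻¹ u⁻¹ * σ⁻¹ n * (σ⁻¹ u⁻¹)⁻¹), map_mul, map_mul, map_inv σ, MulAut.apply_inv_self,
    MulAut.apply_inv_self]
  have h : u * (u⁻¹ * n * u⁻¹⁻¹) * u⁻¹ = n := by group
  rw [h]

/-- The group of the symmetric automorphisms of the free product of the groups `G i`. -/
def SymAut {ι : Type} (G : ι → Type) [∀ i, Group (G i)] : Subgroup (MulAut (CoprodI G)) where
  carrier := {σ | IsSym G σ}
  one_mem' := isSym_one G
  mul_mem' := isSym_mul G
  inv_mem' := isSym_inv G

/-- The inner automorphisms, as a subgroup of the symmetric automorphisms. -/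
def InnS {ι : Type} (G : ι → Type) [∀ i, Group (G i)] : Subgroup (SymAut G) :=
  (MulAut.conj : CoprodI G →* MulAut (CoprodI G)).range.subgroupOf (SymAut G)

instance {ι : Type} (G : ι → Type) [∀ i, Group (G i)] : (InnS G).Normal := by
  refine Subgroup.Normal.comap (H := (MulAut.conj : CoprodI G →* MulAut (CoprodI G)).range) ?_ _
  constructor
  rintro _ ⟨n, rfl⟩ σ
  refine ⟨σ n, ?_⟩
  ext x
  show σ n * x * (σ n)⁻¹ = σ (n * (σ⁻¹ x) * n⁻¹)
  rw [map_mul, map_mul, map_inv, MulAut.apply_inv_self]

/-- The symmetric outer automorphisms. -/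
abbrev SymOut {ι : Type} (G : ι → Type) [∀ i, Group (G i)] : Type := SymAut G ⧸ InnS G

/-- The class `C` contains the group of the symmetric outer automorphisms of the free product of the
groups `G i` if and only if it contains the holomorphs of the `G i`. -/
def OutIff (C : ∀ (G : Type) [Group G], Prop) {ι : Type} (G : ι → Type) [∀ i, Group (G i)] : Prop :=
  C (SymOut G) ↔ ∀ i, C (Holo (G i))

/-- The class `C` contains the group of the symmetric automorphisms of the free product of the groups
`G i` if and only if it contains the holomorphs of the `G i`. -/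
def AutIff (C : ∀ (G : Type) [Group G], Prop) {ι : Type} (G : ι → Type) [∀ i, Group (G i)] : Prop :=
  C (SymAut G) ↔ ∀ i, C (Holo (G i))

/-- The class `C` is closed under extensions with free kernel. -/
def FreeKer (C : ∀ (G : Type) [Group G], Prop) : Prop :=
  ∀ (H : Type) [Group H] (K : Subgroup H) [K.Normal], IsFreeGroup K → C (H ⧸ K) → C H

end Pool.Agent.X176.FJ
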