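import Mathlib
import Pool.Agent.X176.FJ.Tower

/-!
Embeddings in groups with two generators.
-/

set_option autoImplicit false

namespace Pool.Agent.X176.FJ

open Pool.Agent.Y110.FJ
open Pool.Agent.Y462.SS (Closed Wr)

section aux

variable {A : Type} [Group A]

theorem addR_mul (m m' : ℤ) : (Equiv.addRight m : Equiv.Perm ℤ) * Equiv.addRight m' =
    Equiv.addRight (m + m') := by
  apply Equiv.ext
  intro y
  show y + m' + m = y + (m + m')
  ring

theorem addR_inv (m : ℤ) : (Equiv.addRight m : Equiv.Perm ℤ)⁻¹ = Equiv.addRight (-m) := by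
  rw [inv_eq_iff_mul_eq_one, addR_mul, add_neg_cancel]
  apply Equiv.ext
  intro y
  show y + 0 = y
  ring

theorem addR_zero : (Equiv.addRight (0 : ℤ) : Equiv.Perm ℤ) = 1 := by
  apply Equiv.ext
  intro y
  show y + 0 = y
  ring

/-- elements of the wreath product which shift are of infinite order -/
theorem tf_wr (hA : IsTF A) (w : Wr ℤ A) (m : ℤ) (hw : w.p = Equiv.addRight m) (n : ℕ) (hn : 0 < n)
    (h : w ^ n = 1) : w = 1 := by
  have hp : ∀ k : ℕ, (w ^ k).p = Equiv.addRight (k * m) := by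
    intro k
    induction k with
    | zero =>
      rw [pow_zero, Nat.cast_zero, zero_mul, addR_zero]
      rfl
    | succ k ih =>
      rw [pow_succ, Wr.mul_p, ih, hw, addR_mul]
      congr 1
      push_cast
      ring
  have h1 := hp n
  rw [h] at h1
  have h2 : (0 : ℤ) = 0 + n * m := by
    have := congrArg (fun e : Equiv.Perm ℤ => e 0) h1
    exact this
  have h3 : m = 0 := by
    have : (n : ℤ) * m = 0 := by linarith
    rcases mul_eq_zero.1 this with h4 | h4
    · exfalso
      have : n = 0 := by exact_mod_cast h4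
      omega
    · exact h4
  rw [h3, addR_zero] at hw
  have hs : ∀ (k : ℕ) (y : ℤ), (w ^ k).s y = (w.s y) ^ k := by
    intro k y
    induction k with
    | zero =>
      rw [pow_zero, pow_zero]
      rfl
    | succ k ih =>
      rw [pow_succ, Wr.mul_s, hw, pow_succ]
      show (w ^ k).s y * w.s y = _
      rw [ih]
  apply Wr.ext
  · funext y
    have h4 := hs n y
    rw [h] at h4
    exact hA _ n hn h4.symm
  · exact hw

theorem tf_int : IsTF (Multiplicative ℤ) := by
  intro g n hn h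
  have h1 : (n : ℤ) * Multiplicative.toAdd g = 0 := by
    have := congrArg Multiplicative.toAdd h
    rw [toAdd_pow] at this
    simpa using this
  rcases mul_eq_zero.1 h1 with h2 | h2
  · exfalso
    have : n = 0 := by exact_mod_cast h2
    omega
  · exact h2

end aux

/-! ### the restricted wreath product with the integers -/

section wz

variable (A : Type) [Group A]

/-- the restricted wreath product -/
def WZ : Subgroup (Wr ℤ A) where
  carrier := {w | (∃ m, w.p = Equiv.addRight m) ∧ {c | w.s c ≠ 1}.Finite}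
  one_mem' := by
    refine ⟨⟨0, addR_zero.symm⟩, ?_⟩
    have : {c : ℤ | (1 : Wr ℤ A).s c ≠ 1} = ∅ := by
      ext c
      simp
    rw [this]
    exact Set.finite_empty
  mul_mem' := by
    rintro w w' ⟨⟨m, hm⟩, hf⟩ ⟨⟨m', hm'⟩, hf'⟩
    refine ⟨⟨m + m', by rw [Wr.mul_p, hm, hm', addR_mul]⟩, ?_⟩
    have h1 : ((fun c : ℤ => c + m') ⁻¹' {c | w.s c ≠ 1}).Finite :=
      hf.preimage (add_left_injective m').injOn
    refine Set.Finite.subset (h1.union hf') ?_
    intro c hc
    by_contra hn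
    rw [Set.mem_union, not_or] at hn
    apply hc
    have e1 : w.s (c + m') = 1 := by
      by_contra h; exact hn.1 h
    have e2 : w'.s c = 1 := by
      by_contra h; exact hn.2 h
    rw [Wr.mul_s, hm']
    show w.s (c + m') * w'.s c = 1
    rw [e1, e2, mul_one]
  inv_mem' := by
    rintro w ⟨⟨m, hm⟩, hf⟩
    refine ⟨⟨-m, by rw [Wr.inv_p, hm, addR_inv]⟩, ?_⟩
    have h1 : ((fun c : ℤ => c + -m) ⁻¹' {c | w.s c ≠ 1}).Finite :=
      hf.preimage (add_left_injective (-m)).injOn
    refine Set.Finite.subset h1 ?_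
    intro c hc
    by_contra hn
    apply hc
    have e1 : w.s (c + -m) = 1 := by
      by_contra h; exact hn h
    rw [Wr.inv_s, hm, addR_inv]
    show (w.s (c + -m))⁻¹ = 1
    rw [e1, inv_one]

variable {A}

theorem WZ.p_eq (w : WZ A) : (w : Wr ℤ A).p = Equiv.addRight ((w : Wr ℤ A).p 0) := by
  obtain ⟨m, hm⟩ := w.2.1
  rw [hm]
  congr 1
  show m = 0 + m
  ring

/-- the homomorphism to the integers -/
def WZ.sh (A : Type) [Group A] : WZ A →* Multiplicative ℤ where
  toFun w := Multiplicative.ofAdd ((w : Wr ℤ A).p 0)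
  map_one' := rfl
  map_mul' w w' := by
    show Multiplicative.ofAdd ((w : Wr ℤ A).p ((w' : Wr ℤ A).p 0)) =
      Multiplicative.ofAdd ((w : Wr ℤ A).p 0 + (w' : Wr ℤ A).p 0)
    congr 1
    obtain ⟨m, hm⟩ := w.2.1
    rw [hm]
    show (w' : Wr ℤ A).p 0 + m = 0 + m + (w' : Wr ℤ A).p 0
    ring

theorem c_WZ {C : ∀ (G : Type) [Group G], Prop} (hC : ClosedE C) (hA : C A) : C (WZ A) := by
  refine mono2 hC hA hC.base.int (WZ A).subtype (WZ.sh A) ?_ ?_
  · intro w hw
    have h0 : (w : Wr ℤ A).p 0 = 0 := hw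
    have hp : (w : Wr ℤ A).p = 1 := by rw [WZ.p_eq w, h0, addR_zero]
    refine Set.Finite.subset w.2.2 ?_
    intro c hc
    rcases hc with hc | hc
    · exact hc
    · exfalso
      apply hc
      show (w : Wr ℤ A).p c = c
      rw [hp]
      rfl
  · intro w _ h
    exact Subtype.ext h

end wz

/-! ### the first step -/

section step1

variable (G : Type) [Group G]

/-- functions which are constant near infinity and trivial near minus infinity, with shifts -/
structure IsH1 (x : Wr ℤ G × (G × Multiplicative ℤ)) : Prop where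
  p : x.1.p = Equiv.addRight (Multiplicative.toAdd x.2.2)
  lim : ∃ B : ℤ, (∀ y, B ≤ y → x.1.s y = x.2.1) ∧ ∀ y, y ≤ -B → x.1.s y = 1

/-- the group of these functions -/
def H1 : Subgroup (Wr ℤ G × (G × Multiplicative ℤ)) where
  carrier := {x | IsH1 G x}
  one_mem' := ⟨addR_zero.symm, 0, fun _ _ => rfl, fun _ _ => rfl⟩
  mul_mem' := by
    intro x x' hx hx'
    have h : IsH1 G x := hx
    have h' : IsH1 G x' := hx'
    obtain ⟨B, hB1, hB2⟩ := h.lim
    obtain ⟨B', hB1', hB2'⟩ := h'.lim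
    have e1 := neg_abs_le (Multiplicative.toAdd x'.2.2)
    have e2 := le_abs_self (Multiplicative.toAdd x'.2.2)
    refine ⟨?_, max (B + |Multiplicative.toAdd x'.2.2|) B', fun y hy => ?_, fun y hy => ?_⟩
    · show x.1.p * x'.1.p = _
      rw [h.p, h'.p, addR_mul]
      rfl
    · show x.1.s (x'.1.p y) * x'.1.s y = x.2.1 * x'.2.1
      have e3 := le_trans (le_max_left _ _) hy
      have e4 := le_trans (le_max_right _ _) hy
      rw [h'.p, hB1' y e4]
      show x.1.s (y + Multiplicative.toAdd x'.2.2) * x'.2.1 = _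
      rw [hB1 _ (by linarith)]
    · show x.1.s (x'.1.p y) * x'.1.s y = 1
      have e3 := le_max_left (B + |Multiplicative.toAdd x'.2.2|) B'
      have e4 := le_max_right (B + |Multiplicative.toAdd x'.2.2|) B'
      rw [h'.p, hB2' y (by linarith)]
      show x.1.s (y + Multiplicative.toAdd x'.2.2) * 1 = 1
      rw [hB2 _ (by linarith), one_mul]
  inv_mem' := by
    intro x hx
    have h : IsH1 G x := hx
    obtain ⟨B, hB1, hB2⟩ := h.lim
    have e1 := neg_abs_le (Multiplicative.toAdd x.2.2)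
    have e2 := le_abs_self (Multiplicative.toAdd x.2.2)
    refine ⟨?_, B + |Multiplicative.toAdd x.2.2|, fun y hy => ?_, fun y hy => ?_⟩
    · show (x.1.p)⁻¹ = _
      rw [h.p, addR_inv]
      rfl
    · show (x.1.s ((x.1.p)⁻¹ y))⁻¹ = (x.2.1)⁻¹
      rw [h.p, addR_inv]
      show (x.1.s (y + -Multiplicative.toAdd x.2.2))⁻¹ = _
      rw [hB1 _ (by linarith)]
    · show (x.1.s ((x.1.p)⁻¹ y))⁻¹ = 1
      rw [h.p, addR_inv]
      show (x.1.s (y + -Multiplicative.toAdd x.2.2))⁻¹ = _
      rw [hB2 _ (by linarith), inv_one]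

variable {G}

theorem c_H1 {C : ∀ (G : Type) [Group G], Prop} (hC : ClosedE C) (hG : C G) : C (H1 G) := by
  refine mono2 hC hG (hC.base.prod _ _ hG hC.base.int) ((MonoidHom.fst _ _).comp (H1 G).subtype)
    ((MonoidHom.snd _ _).comp (H1 G).subtype) ?_ ?_
  · rintro ⟨x, hx⟩ h
    have h' : IsH1 G x := hx
    have h2 : x.2 = 1 := h
    obtain ⟨B, hB1, hB2⟩ := h'.lim
    refine Set.Finite.subset (Set.finite_Icc (-B) B) ?_
    intro y hy
    have hp : x.1.p = 1 := by
      rw [h'.p, h2]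
      exact addR_zero
    by_contra hn
    have hn' : ¬ (-B ≤ y ∧ y ≤ B) := hn
    rcases hy with hy | hy
    · apply hy
      show x.1.s y = 1
      by_cases h3 : B ≤ y
      · rw [hB1 y h3, h2]
        rfl
      · apply hB2
        by_contra h4
        apply hn'
        constructor <;> omega
    · apply hy
      show x.1.p y = y
      rw [hp]
      rfl
  · rintro ⟨x, hx⟩ h1 h2
    exact Subtype.ext (Prod.ext h2 h1)

theorem tf_H1 (hG : IsTF G) : IsTF (H1 G) := by
  rintro ⟨x, hx⟩ n hn h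
  have h' : IsH1 G x := hx
  have h0 : x ^ n = 1 := congrArg Subtype.val h
  apply Subtype.ext
  refine Prod.ext (tf_wr hG x.1 _ h'.p n hn (congrArg Prod.fst h0)) (Prod.ext ?_ ?_)
  · exact hG _ n hn (congrArg (fun z => z.2.1) h0)
  · exact tf_int _ n hn (congrArg (fun z => z.2.2) h0)

/-- the half line -/
def kH (g : G) : H1 G := ⟨(⟨fun y => if 0 ≤ y then g else 1, 1⟩, (g, 1)), by
  refine ⟨addR_zero.symm, 1, fun y hy => if_pos (by omega), fun y hy => if_neg (by omega)⟩⟩

/-- the shift -/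
def tH : H1 G := ⟨(⟨fun _ => 1, Equiv.addRight 1⟩, (1, Multiplicative.ofAdd 1)), by
  refine ⟨rfl, 0, fun y _ => rfl, fun y _ => rfl⟩⟩

/-- the embedding -/
def e1H (G : Type) [Group G] : G →* H1 G where
  toFun g := ⟨(⟨fun y => if y = 0 then g else 1, 1⟩, 1), by
    refine ⟨addR_zero.symm, 1, fun y hy => if_neg (by omega), fun y hy => if_neg (by omega)⟩⟩
  map_one' := by
    apply Subtype.ext
    refine Prod.ext (Wr.ext ?_ rfl) rfl
    funext y
    show (if y = 0 then (1 : G) else 1) = 1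
    split_ifs <;> rfl
  map_mul' g h := by
    apply Subtype.ext
    refine Prod.ext (Wr.ext ?_ rfl) (mul_one _).symm
    funext y
    show (if y = 0 then g * h else 1) = (if y = 0 then g else 1) * (if y = 0 then h else 1)
    split_ifs
    · rfl
    · exact (mul_one _).symm

theorem e1H_inj : Function.Injective (e1H G) := by
  intro g h hgh
  have h1 : (e1H G g).1.1.s 0 = (e1H G h).1.1.s 0 := by rw [hgh]
  exact h1

theorem e1H_eq (g : G) : kH g * tH * (kH g)⁻¹ * tH⁻¹ = e1H G g := by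
  apply Subtype.ext
  refine Prod.ext (Wr.ext ?_ ?_) ?_
  · funext y
    show (⟨fun y => if 0 ≤ y then g else 1, 1⟩ * ⟨fun _ => 1, Equiv.addRight 1⟩ *
      (⟨fun y => if 0 ≤ y then g else 1, 1⟩)⁻¹ * (⟨fun _ => 1, Equiv.addRight 1⟩)⁻¹ : Wr ℤ G).s y =
      if y = 0 then g else 1
    simp only [Wr.mul_s, Wr.inv_s, Wr.inv_p, inv_one, mul_one, addR_inv, Equiv.Perm.one_apply,
      Equiv.coe_addRight]
    show (if 0 ≤ y + -1 + 1 then g else (1 : G)) * (if 0 ≤ y + -1 then g else 1)⁻¹ =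
      if y = 0 then g else 1
    by_cases h0 : y = 0
    · subst h0
      simp
    · rw [if_neg h0]
      by_cases h1 : 0 ≤ y
      · rw [if_pos (show 0 ≤ y + -1 + 1 by omega), if_pos (show 0 ≤ y + -1 by omega)]
        simp
      · rw [if_neg (show ¬ 0 ≤ y + -1 + 1 by omega), if_neg (show ¬ 0 ≤ y + -1 by omega)]
        simp
  · show (1 : Equiv.Perm ℤ) * Equiv.addRight 1 * 1⁻¹ * (Equiv.addRight 1)⁻¹ = 1
    rw [one_mul, inv_one, mul_one, mul_inv_cancel]
  · refine Prod.ext ?_ ?_
    · show g * 1 * g⁻¹ * 1⁻¹ = 1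
      simp
    · show (1 : Multiplicative ℤ) * Multiplicative.ofAdd 1 * 1⁻¹ * (Multiplicative.ofAdd 1)⁻¹ = 1
      simp

end step1

/-! ### the second step -/

section step2

variable {H : Type} [Group H]

/-- the value `u` at `y` is the power of `h n` given by the exponent at `c` if `y = c + a n` -/
def Gd (a : ℕ → ℤ) (h : ℕ → H) (u : H) (f : ℤ → Multiplicative ℤ) (y : ℤ) : Prop :=
  (∀ n c, y = c + a n → f c ≠ 1 → u = h n ^ (Multiplicative.toAdd (f c))) ∧
    ((∀ n c, y = c + a n → f c = 1) → u = 1)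

variable {a : ℕ → ℤ} {h : ℕ → H}

theorem Gd.mul {u u' : H} {f f' : ℤ → Multiplicative ℤ} {y : ℤ} (g : Gd a h u f y)
    (g' : Gd a h u' f' y) (hu : ∀ n c n' c', y = c + a n → y = c' + a n' → (f c ≠ 1 ∨ f' c ≠ 1) →
      (f c' ≠ 1 ∨ f' c' ≠ 1) → n = n' ∧ c = c') : Gd a h (u * u') (fun c => f c * f' c) y := by
  by_cases hex : ∃ n c, y = c + a n ∧ (f c ≠ 1 ∨ f' c ≠ 1)
  · obtain ⟨n, c, hy, hc⟩ := hex
    have e1 : u = h n ^ (Multiplicative.toAdd (f c)) := by
      by_cases h1 : f c = 1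
      · rw [h1]
        show u = h n ^ (0 : ℤ)
        rw [zpow_zero]
        apply g.2
        intro n' c' hy'
        by_contra h2
        obtain ⟨-, h3⟩ := hu n c n' c' hy hy' hc (Or.inl h2)
        exact h2 (h3 ▸ h1)
      · exact g.1 n c hy h1
    have e2 : u' = h n ^ (Multiplicative.toAdd (f' c)) := by
      by_cases h1 : f' c = 1
      · rw [h1]
        show u' = h n ^ (0 : ℤ)
        rw [zpow_zero]
        apply g'.2
        intro n' c' hy'
        by_contra h2
        obtain ⟨-, h3⟩ := hu n c n' c' hy hy' hc (Or.inr h2)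
        exact h2 (h3 ▸ h1)
      · exact g'.1 n c hy h1
    have e3 : u * u' = h n ^ (Multiplicative.toAdd (f c * f' c)) := by
      rw [e1, e2, ← zpow_add]
      rfl
    refine ⟨fun n' c' hy' hne => ?_, fun hall => ?_⟩
    · have h4 : f c' ≠ 1 ∨ f' c' ≠ 1 := by
        by_contra h5
        push Not at h5
        apply hne
        show f c' * f' c' = 1
        rw [h5.1, h5.2, mul_one]
      obtain ⟨h6, h7⟩ := hu n c n' c' hy hy' hc h4
      rw [e3, h6, h7]
    · have h8 := hall n c hy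
      rw [e3]
      have h9 : f c * f' c = 1 := h8
      rw [h9]
      exact zpow_zero _
  · push Not at hex
    have e1 : u = 1 := g.2 fun n c hy => (hex n c hy).1
    have e2 : u' = 1 := g'.2 fun n c hy => (hex n c hy).2
    refine ⟨fun n' c' hy' hne => ?_, fun _ => by rw [e1, e2, mul_one]⟩
    exfalso
    apply hne
    show f c' * f' c' = 1
    rw [(hex n' c' hy').1, (hex n' c' hy').2, mul_one]

theorem Gd.inv {u : H} {f : ℤ → Multiplicative ℤ} {y : ℤ} (g : Gd a h u f y) :
    Gd a h u⁻¹ (fun c => (f c)⁻¹) y := by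
  refine ⟨fun n c hy hc => ?_, fun hall => ?_⟩
  · have h1 : f c ≠ 1 := fun h2 => hc (inv_eq_one.2 h2)
    rw [g.1 n c hy h1, ← zpow_neg]
    rfl
  · rw [g.2 fun n c hy => inv_eq_one.1 (hall n c hy), inv_one]

theorem Gd.shift {u : H} {f : ℤ → Multiplicative ℤ} {y m : ℤ} (g : Gd a h u f (y + m)) :
    Gd a h u (fun c => f (c + m)) y := by
  refine ⟨fun n c hy hc => g.1 n (c + m) (by rw [hy]; ring) hc, fun hall => g.2 fun n c hy => ?_⟩
  have := hall n (c - m) (by linarith)
  simpa using this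

/-- the exponents -/
def ex (x : Wr ℤ H × WZ (Multiplicative ℤ)) : ℤ → Multiplicative ℤ := (x.2 : Wr ℤ (Multiplicative ℤ)).s

/-- membership -/
structure IsSp (a : ℕ → ℤ) (h : ℕ → H) (x : Wr ℤ H × WZ (Multiplicative ℤ)) : Prop where
  p : x.1.p = (x.2 : Wr ℤ (Multiplicative ℤ)).p
  good : {y | ¬ Gd a h (x.1.s y) (ex x) y}.Finite

theorem uniq_fin (ha : Function.Injective a)
    (hU : ∀ i j k l, a i - a j = a k - a l → k ≠ l → i = k ∧ j = l) (D : Set ℤ) (hD : D.Finite) :
    {y | ¬ ∀ n c n' c', y = c + a n → y = c' + a n' → c ∈ D → c' ∈ D → n = n' ∧ c = c'}.Finite := by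
  have h1 : ∀ c ∈ D, ∀ c' ∈ D, {y | c ≠ c' ∧ ∃ n n', y = c + a n ∧ y = c' + a n'}.Finite := by
    intro c _ c' _
    apply Set.Subsingleton.finite
    rintro y ⟨hne, n, n', hn, hn'⟩ z ⟨-, k, l, hk, hl⟩
    have hkl : k ≠ l := by
      rintro rfl
      apply hne
      linarith
    obtain ⟨h2, -⟩ := hU n n' k l (by linarith) hkl
    rw [hn, hk, h2]
  refine Set.Finite.subset (hD.biUnion fun c hc => hD.biUnion fun c' hc' => h1 c hc c' hc') ?_
  intro y hy
  by_contra hn
  apply hy
  intro n c n' c' e1 e2 hc hc'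
  have h2 : c = c' := by
    by_contra hne
    apply hn
    simp only [Set.mem_iUnion]
    exact ⟨c, hc, c', hc', hne, n, n', e1, e2⟩
  refine ⟨ha ?_, h2⟩
  rw [h2] at e1
  linarith

/-- the group -/
def Sp (a : ℕ → ℤ) (h : ℕ → H) (ha : Function.Injective a)
    (hU : ∀ i j k l, a i - a j = a k - a l → k ≠ l → i = k ∧ j = l) :
    Subgroup (Wr ℤ H × WZ (Multiplicative ℤ)) where
  carrier := {x | IsSp a h x}
  one_mem' := by
    refine ⟨rfl, ?_⟩
    have : {y | ¬ Gd a h ((1 : Wr ℤ H × WZ (Multiplicative ℤ)).1.s y)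
        (ex (1 : Wr ℤ H × WZ (Multiplicative ℤ))) y} = ∅ := by
      ext y
      simp only [Set.mem_ofPred_eq, Set.mem_empty_iff_false, iff_false, not_not]
      exact ⟨fun _ _ _ h => absurd rfl h, fun _ => rfl⟩
    rw [this]
    exact Set.finite_empty
  mul_mem' := by
    intro x x' hx hx'
    have h1 : IsSp a h x := hx
    have h2 : IsSp a h x' := hx'
    obtain ⟨m, hm⟩ := x'.2.2.1
    have hfin1 : {c | (x.2 : Wr ℤ (Multiplicative ℤ)).s c ≠ 1}.Finite := x.2.2.2
    have hfin2 : {c | (x'.2 : Wr ℤ (Multiplicative ℤ)).s c ≠ 1}.Finite := x'.2.2.2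
    have hfin3 : ((fun c : ℤ => c + m) ⁻¹' {c | (x.2 : Wr ℤ (Multiplicative ℤ)).s c ≠ 1}).Finite :=
      hfin1.preimage (add_left_injective m).injOn
    refine ⟨by
      show x.1.p * x'.1.p = (x.2 : Wr ℤ (Multiplicative ℤ)).p * (x'.2 : Wr ℤ (Multiplicative ℤ)).p
      rw [h1.p, h2.p], ?_⟩
    have hb1 : ((fun y : ℤ => y + m) ⁻¹' {y | ¬ Gd a h (x.1.s y) (ex x) y}).Finite :=
      h1.good.preimage (add_left_injective m).injOn
    have hb3 := uniq_fin ha hU _ (hfin3.union hfin2)
    refine Set.Finite.subset ((hb1.union h2.good).union hb3) ?_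
    intro y hy
    by_contra hn
    rw [Set.mem_union, Set.mem_union, not_or, not_or] at hn
    obtain ⟨⟨hn1, hn2⟩, hn3⟩ := hn
    apply hy
    have g1 : Gd a h (x.1.s (y + m)) (ex x) (y + m) := by
      by_contra h3; exact hn1 h3
    have g2 : Gd a h (x'.1.s y) (ex x') y := by
      by_contra h3; exact hn2 h3
    have g3 : ∀ n c n' c', y = c + a n → y = c' + a n' →
        c ∈ ((fun c : ℤ => c + m) ⁻¹' {c | (x.2 : Wr ℤ (Multiplicative ℤ)).s c ≠ 1}) ∪
          {c | (x'.2 : Wr ℤ (Multiplicative ℤ)).s c ≠ 1} →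
        c' ∈ ((fun c : ℤ => c + m) ⁻¹' {c | (x.2 : Wr ℤ (Multiplicative ℤ)).s c ≠ 1}) ∪
          {c | (x'.2 : Wr ℤ (Multiplicative ℤ)).s c ≠ 1} → n = n' ∧ c = c' := by
      by_contra h3; exact hn3 h3
    have g4 := g1.shift.mul g2 (fun n c n' c' e1 e2 e3 e4 => g3 n c n' c' e1 e2 e3 e4)
    have e5 : (x * x').1.s y = x.1.s (y + m) * x'.1.s y := by
      show x.1.s (x'.1.p y) * x'.1.s y = _
      rw [h2.p, hm]
      rfl
    have e6 : ex (x * x') = fun c => ex x (c + m) * ex x' c := by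
      funext c
      show (x.2 : Wr ℤ (Multiplicative ℤ)).s ((x'.2 : Wr ℤ (Multiplicative ℤ)).p c) *
        (x'.2 : Wr ℤ (Multiplicative ℤ)).s c = _
      rw [hm]
      rfl
    rw [e5, e6]
    exact g4
  inv_mem' := by
    intro x hx
    have h1 : IsSp a h x := hx
    obtain ⟨m, hm⟩ := x.2.2.1
    refine ⟨by
      show (x.1.p)⁻¹ = ((x.2 : Wr ℤ (Multiplicative ℤ)).p)⁻¹
      rw [h1.p], ?_⟩
    have hb1 : ((fun y : ℤ => y + -m) ⁻¹' {y | ¬ Gd a h (x.1.s y) (ex x) y}).Finite :=
      h1.good.preimage (add_left_injective (-m)).injOn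
    refine Set.Finite.subset hb1 ?_
    intro y hy
    by_contra hn
    apply hy
    have g1 : Gd a h (x.1.s (y + -m)) (ex x) (y + -m) := by
      by_contra h3; exact hn h3
    have e5 : (x⁻¹).1.s y = (x.1.s (y + -m))⁻¹ := by
      show (x.1.s ((x.1.p)⁻¹ y))⁻¹ = _
      rw [h1.p, hm, addR_inv]
      rfl
    have e6 : ex x⁻¹ = fun c => (ex x (c + -m))⁻¹ := by
      funext c
      show ((x.2 : Wr ℤ (Multiplicative ℤ)).s (((x.2 : Wr ℤ (Multiplicative ℤ)).p)⁻¹ c))⁻¹ = _
      rw [hm, addR_inv]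
      rfl
    rw [e5, e6]
    exact g1.shift.inv

variable {ha : Function.Injective a}
  {hU : ∀ i j k l, a i - a j = a k - a l → k ≠ l → i = k ∧ j = l}

theorem c_Sp {C : ∀ (G : Type) [Group G], Prop} (hC : ClosedE C) (hH : C H) : C (Sp a h ha hU) := by
  refine mono2 hC hH (c_WZ (A := Multiplicative ℤ) hC hC.base.int)
    ((MonoidHom.fst _ _).comp (Sp a h ha hU).subtype)
    ((MonoidHom.snd _ _).comp (Sp a h ha hU).subtype) ?_ ?_
  · rintro ⟨x, hx⟩ h1
    have hx' : IsSp a h x := hx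
    have h2 : x.2 = 1 := h1
    have hp : x.1.p = 1 := by
      rw [hx'.p, h2]
      rfl
    refine Set.Finite.subset hx'.good ?_
    intro y hy hg
    rcases hy with hy | hy
    · apply hy
      show x.1.s y = 1
      apply hg.2
      intro n c _
      show (x.2 : Wr ℤ (Multiplicative ℤ)).s c = 1
      rw [h2]
      rfl
    · apply hy
      show x.1.p y = y
      rw [hp]
      rfl
  · rintro ⟨x, hx⟩ h1 h2
    exact Subtype.ext (Prod.ext h2 h1)

theorem tf_Sp (hH : IsTF H) : IsTF (Sp a h ha hU) := by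
  rintro ⟨x, hx⟩ n hn h1
  have hx' : IsSp a h x := hx
  have h0 : x ^ n = 1 := congrArg Subtype.val h1
  obtain ⟨m, hm⟩ := x.2.2.1
  apply Subtype.ext
  refine Prod.ext (tf_wr hH x.1 m (by rw [hx'.p, hm]) n hn (congrArg Prod.fst h0)) ?_
  apply Subtype.ext
  exact tf_wr tf_int _ m hm n hn (congrArg (fun z => (z.2 : Wr ℤ (Multiplicative ℤ))) h0)

end step2

/-! ### the embedding -/

section final

variable {H : Type} [Group H] {a : ℕ → ℤ} {h : ℕ → H}

/-- shifts -/
def Tz (H : Type) [Group H] : Multiplicative ℤ →* Wr ℤ H × WZ (Multiplicative ℤ) where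
  toFun k := (⟨fun _ => 1, Equiv.addRight (Multiplicative.toAdd k)⟩,
    ⟨⟨fun _ => 1, Equiv.addRight (Multiplicative.toAdd k)⟩, ⟨_, rfl⟩, by
      have : {c : ℤ | (1 : Multiplicative ℤ) ≠ 1} = ∅ := by
        ext c
        simp
      show {c : ℤ | (1 : Multiplicative ℤ) ≠ 1}.Finite
      rw [this]
      exact Set.finite_empty⟩)
  map_one' := Prod.ext (Wr.ext rfl addR_zero) (Subtype.ext (Wr.ext rfl addR_zero))
  map_mul' k l := by
    refine Prod.ext (Wr.ext ?_ (addR_mul _ _).symm) (Subtype.ext (Wr.ext ?_ (addR_mul _ _).symm))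
    · funext y
      exact (mul_one (1 : H)).symm
    · funext y
      exact (mul_one (1 : Multiplicative ℤ)).symm

/-- the element with the values `h n` at `a n` -/
noncomputable def Dl (a : ℕ → ℤ) (h : ℕ → H) : Wr ℤ H × WZ (Multiplicative ℤ) :=
  (⟨Function.extend a h (fun _ => 1), 1⟩,
    ⟨⟨fun c => if c = 0 then Multiplicative.ofAdd 1 else 1, 1⟩, ⟨0, addR_zero.symm⟩, by
      refine Set.Finite.subset (Set.finite_singleton (0 : ℤ)) ?_
      intro c hc
      by_contra hn
      exact hc (if_neg hn)⟩)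

/-- the embedding of a group at the origin -/
def E0 {G : Type} [Group G] (e : G →* H) : G →* Wr ℤ H × WZ (Multiplicative ℤ) where
  toFun g := (⟨fun y => if y = 0 then e g else 1, 1⟩, 1)
  map_one' := by
    refine Prod.ext (Wr.ext ?_ rfl) rfl
    funext y
    show (if y = 0 then e 1 else 1) = 1
    split_ifs
    · exact map_one e
    · rfl
  map_mul' g g' := by
    refine Prod.ext (Wr.ext ?_ rfl) (mul_one _).symm
    funext y
    show (if y = 0 then e (g * g') else 1) = (if y = 0 then e g else 1) * (if y = 0 then e g' else 1)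
    split_ifs
    · exact map_mul e g g'
    · exact (mul_one _).symm

theorem Tz_mem (k : Multiplicative ℤ) : IsSp a h (Tz H k) := by
  refine ⟨rfl, ?_⟩
  have : {y | ¬ Gd a h ((Tz H k).1.s y) (ex (Tz H k)) y} = ∅ := by
    ext y
    simp only [Set.mem_ofPred_eq, Set.mem_empty_iff_false, iff_false, not_not]
    exact ⟨fun _ _ _ h => absurd rfl h, fun _ => rfl⟩
  rw [this]
  exact Set.finite_empty

theorem Dl_mem (ha : Function.Injective a) : IsSp a h (Dl a h) := by
  refine ⟨rfl, ?_⟩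
  have : {y | ¬ Gd a h ((Dl a h).1.s y) (ex (Dl a h)) y} = ∅ := by
    ext y
    simp only [Set.mem_ofPred_eq, Set.mem_empty_iff_false, iff_false, not_not]
    refine ⟨fun n c hy hc => ?_, fun hall => ?_⟩
    · have hc0 : c = 0 := by
        by_contra hne
        exact hc (if_neg hne)
      subst hc0
      have hy' : y = a n := by linarith
      rw [hy']
      show Function.extend a h (fun _ => 1) (a n) = h n ^ (1 : ℤ)
      rw [ha.extend_apply, zpow_one]
    · show Function.extend a h (fun _ => 1) y = 1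
      rw [Function.extend_apply']
      rintro ⟨n, hn⟩
      have h1 := hall n 0 (by linarith)
      have h2 : (Multiplicative.ofAdd (1 : ℤ)) = 1 := h1
      exact absurd (congrArg Multiplicative.toAdd h2) one_ne_zero
  rw [this]
  exact Set.finite_empty

/-- the commutators of the conjugates -/
theorem comm_eq (ha : Function.Injective a)
    (hU : ∀ i j k l, a i - a j = a k - a l → k ≠ l → i = k ∧ j = l) (n m : ℕ) (hnm : n ≠ m) (u : H)
    (hu : h n * h m * (h n)⁻¹ * (h m)⁻¹ = u) :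
    (Tz H (Multiplicative.ofAdd (-a n)) * Dl a h * (Tz H (Multiplicative.ofAdd (-a n)))⁻¹) *
    (Tz H (Multiplicative.ofAdd (-a m)) * Dl a h * (Tz H (Multiplicative.ofAdd (-a m)))⁻¹) *
    (Tz H (Multiplicative.ofAdd (-a n)) * Dl a h * (Tz H (Multiplicative.ofAdd (-a n)))⁻¹)⁻¹ *
    (Tz H (Multiplicative.ofAdd (-a m)) * Dl a h * (Tz H (Multiplicative.ofAdd (-a m)))⁻¹)⁻¹ =
    (⟨fun y => if y = 0 then u else 1, 1⟩, 1) := by
  -- the conjugates
  have hc1 : ∀ k : ℤ, (Tz H (Multiplicative.ofAdd k) * Dl a h * (Tz H (Multiplicative.ofAdd k))⁻¹).1 =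
      ⟨fun y => Function.extend a h (fun _ => 1) (y - k), 1⟩ := by
    intro k
    refine Wr.ext ?_ ?_
    · funext y
      show (1 : H) * Function.extend a h (fun _ => 1) ((Equiv.addRight k : Equiv.Perm ℤ)⁻¹ y) * 1⁻¹ = _
      rw [one_mul, inv_one, mul_one, addR_inv]
      rfl
    · show Equiv.addRight k * 1 * (Equiv.addRight k : Equiv.Perm ℤ)⁻¹ = 1
      rw [mul_one, mul_inv_cancel]
  have hc2 : ∀ k : ℤ, ((Tz H (Multiplicative.ofAdd k) * Dl a h *
      (Tz H (Multiplicative.ofAdd k))⁻¹).2 : Wr ℤ (Multiplicative ℤ)) =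
      ⟨fun y => if y - k = 0 then Multiplicative.ofAdd 1 else 1, 1⟩ := by
    intro k
    refine Wr.ext ?_ ?_
    · funext y
      show (1 : Multiplicative ℤ) * (if (Equiv.addRight k : Equiv.Perm ℤ)⁻¹ y = 0 then
        Multiplicative.ofAdd 1 else 1) * 1⁻¹ = _
      rw [one_mul, inv_one, mul_one, addR_inv]
      rfl
    · show Equiv.addRight k * 1 * (Equiv.addRight k : Equiv.Perm ℤ)⁻¹ = 1
      rw [mul_one, mul_inv_cancel]
  refine Prod.ext ?_ ?_
  · rw [Prod.fst_mul, Prod.fst_mul, Prod.fst_mul, Prod.fst_inv, Prod.fst_inv, hc1, hc1]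
    refine Wr.ext ?_ ?_
    · funext y
      show Function.extend a h (fun _ => 1) (y - -a n) * Function.extend a h (fun _ => 1) (y - -a m) *
        (Function.extend a h (fun _ => 1) (y - -a n))⁻¹ *
        (Function.extend a h (fun _ => 1) (y - -a m))⁻¹ = if y = 0 then u else 1
      by_cases hy : y = 0
      · subst hy
        rw [if_pos rfl, zero_sub, neg_neg, zero_sub, neg_neg, ha.extend_apply, ha.extend_apply, hu]
      · rw [if_neg hy]
        by_cases h1 : ∃ i, a i = y - -a n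
        · by_cases h2 : ∃ j, a j = y - -a m
          · exfalso
            obtain ⟨i, hi⟩ := h1
            obtain ⟨j, hj⟩ := h2
            obtain ⟨h3, -⟩ := hU i j n m (by linarith) hnm
            apply hy
            rw [h3] at hi
            linarith
          · rw [Function.extend_apply' _ _ _ h2]
            group
        · rw [Function.extend_apply' _ _ _ h1]
          group
    · show (1 : Equiv.Perm ℤ) * 1 * 1⁻¹ * 1⁻¹ = 1
      group
  · apply Subtype.ext
    have h1 : ∀ z w : WZ (Multiplicative ℤ), ((z * w * z⁻¹ * w⁻¹ : WZ (Multiplicative ℤ)) :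
        Wr ℤ (Multiplicative ℤ)) = (z : Wr ℤ (Multiplicative ℤ)) * (w : Wr ℤ (Multiplicative ℤ)) *
          (z : Wr ℤ (Multiplicative ℤ))⁻¹ * (w : Wr ℤ (Multiplicative ℤ))⁻¹ :=
      fun _ _ => rfl
    show ((_ * _ * _⁻¹ * _⁻¹ : WZ (Multiplicative ℤ)) : Wr ℤ (Multiplicative ℤ)) = 1
    rw [h1, hc2, hc2]
    refine Wr.ext ?_ ?_
    · funext y
      show (if y - -a n = 0 then Multiplicative.ofAdd (1 : ℤ) else 1) *
        (if y - -a m = 0 then Multiplicative.ofAdd (1 : ℤ) else 1) *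
        (if y - -a n = 0 then Multiplicative.ofAdd (1 : ℤ) else 1)⁻¹ *
        (if y - -a m = 0 then Multiplicative.ofAdd (1 : ℤ) else 1)⁻¹ = 1
      rw [mul_comm (if y - -a n = 0 then Multiplicative.ofAdd (1 : ℤ) else 1), mul_inv_cancel_right,
        mul_inv_cancel]
    · show (1 : Equiv.Perm ℤ) * 1 * 1⁻¹ * 1⁻¹ = 1
      group

/-- powers of two -/
theorem two_U (i j k l : ℕ) (h : (2 : ℤ) ^ i - 2 ^ j = 2 ^ k - 2 ^ l) (hkl : k ≠ l) :
    i = k ∧ j = l := by
  have key : ∀ i j k l : ℕ, l < k → (2 : ℤ) ^ i - 2 ^ j = 2 ^ k - 2 ^ l → i = k ∧ j = l := by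
    intro i j k l hlk h
    have hpos : (0 : ℤ) < 2 ^ k - 2 ^ l := by
      have := pow_lt_pow_right₀ (a := (2 : ℤ)) (by norm_num) hlk
      linarith
    have hji : j < i := by
      by_contra hn
      have := pow_le_pow_right₀ (a := (2 : ℤ)) (by norm_num) (not_lt.1 hn)
      linarith
    have half : ∀ p q : ℕ, q < p → (2 : ℤ) ^ p ≤ 2 * (2 ^ p - 2 ^ q) := by
      intro p q hqp
      have h1 := pow_le_pow_right₀ (a := (2 : ℤ)) (by norm_num) (Nat.succ_le_of_lt hqp)
      rw [Nat.succ_eq_add_one, pow_succ] at h1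
      linarith
    have less : ∀ p q : ℕ, (2 : ℤ) ^ p - 2 ^ q < 2 ^ p := by
      intro p q
      have : (0 : ℤ) < 2 ^ q := by positivity
      linarith
    have hik : i = k := by
      rcases lt_trichotomy i k with h1 | h1 | h1
      · exfalso
        have h2 := pow_le_pow_right₀ (a := (2 : ℤ)) (by norm_num) (Nat.succ_le_of_lt h1)
        rw [Nat.succ_eq_add_one, pow_succ] at h2
        have h3 := half k l hlk
        have h4 := less i j
        linarith
      · exact h1
      · exfalso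
        have h2 := pow_le_pow_right₀ (a := (2 : ℤ)) (by norm_num) (Nat.succ_le_of_lt h1)
        rw [Nat.succ_eq_add_one, pow_succ] at h2
        have h3 := half i j hji
        have h4 := less k l
        linarith
    refine ⟨hik, ?_⟩
    rw [hik] at h
    have h5 : (2 : ℤ) ^ j = 2 ^ l := by linarith
    exact Nat.pow_right_injective (le_refl 2) (by exact_mod_cast h5)
  rcases lt_or_gt_of_ne hkl with h1 | h1
  · obtain ⟨h2, h3⟩ := key j i l k h1 (by linarith)
    exact ⟨h3, h2⟩
  · exact key i j k l h1 h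

/-- **embeddings in groups with two generators** -/
theorem two_gen {C : ∀ (G : Type) [Group G], Prop} (hC : ClosedE C) (G : Type) [Group G] [Countable G]
    (hG : C G) : ∃ (M : Type) (_ : Group M) (x y : M) (f : G →* M), C M ∧
      Subgroup.closure {x, y} = ⊤ ∧ Function.Injective f ∧ (IsTF G → IsTF M) := by
  obtain ⟨g, hg⟩ := exists_surjective_nat G
  let a : ℕ → ℤ := fun n => 2 ^ n
  have ha : Function.Injective a := by
    intro i j hij
    have : (2 : ℤ) ^ i = 2 ^ j := hij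
    exact Nat.pow_right_injective (le_refl 2) (by exact_mod_cast this)
  have hU : ∀ i j k l, a i - a j = a k - a l → k ≠ l → i = k ∧ j = l := two_U
  let h : ℕ → H1 G := fun n => if n = 0 then tH else kH (g (n - 1))
  let S := Sp a h ha hU
  let x0 : S := ⟨Dl a h, Dl_mem ha⟩
  let y0 : S := ⟨Tz (H1 G) (Multiplicative.ofAdd 1), Tz_mem _⟩
  let M : Subgroup S := Subgroup.closure {x0, y0}
  have hx0 : x0 ∈ M := Subgroup.subset_closure (Or.inl rfl)
  have hy0 : y0 ∈ M := Subgroup.subset_closure (Or.inr rfl)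
  have hE : ∀ u : G, IsSp a h (E0 (e1H G) u) := by
    intro u
    refine ⟨rfl, ?_⟩
    refine Set.Finite.subset (Set.finite_singleton (0 : ℤ)) ?_
    intro y hy
    by_contra hn
    apply hy
    refine ⟨fun _ _ _ hne => absurd rfl hne, fun _ => ?_⟩
    exact if_neg hn
  let E1 : G →* S := (E0 (e1H G)).codRestrict S hE
  have hTz : ∀ k : ℤ, (⟨Tz (H1 G) (Multiplicative.ofAdd k), Tz_mem _⟩ : S) = y0 ^ k := by
    intro k
    apply Subtype.ext
    show Tz (H1 G) (Multiplicative.ofAdd k) = ((y0 ^ k : S) : Wr ℤ (H1 G) × WZ (Multiplicative ℤ))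
    rw [Subgroup.coe_zpow]
    show _ = Tz (H1 G) (Multiplicative.ofAdd 1) ^ k
    rw [← map_zpow, ← Int.ofAdd_mul, one_mul]
  have hmem : ∀ u : G, E1 u ∈ M := by
    intro u
    obtain ⟨n, rfl⟩ := hg u
    have h1 : h (n + 1) * h 0 * (h (n + 1))⁻¹ * (h 0)⁻¹ = e1H G (g n) := e1H_eq (g n)
    have h2 := comm_eq (h := h) ha hU (n + 1) 0 (Nat.succ_ne_zero n) _ h1
    have h3 : E1 (g n) = (y0 ^ (-a (n + 1)) * x0 * (y0 ^ (-a (n + 1)))⁻¹) *
        (y0 ^ (-a 0) * x0 * (y0 ^ (-a 0))⁻¹) *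
        (y0 ^ (-a (n + 1)) * x0 * (y0 ^ (-a (n + 1)))⁻¹)⁻¹ *
        (y0 ^ (-a 0) * x0 * (y0 ^ (-a 0))⁻¹)⁻¹ := by
      rw [← hTz, ← hTz]
      exact Subtype.ext h2.symm
    rw [h3]
    have h4 : ∀ k : ℤ, y0 ^ k * x0 * (y0 ^ k)⁻¹ ∈ M := fun k =>
      mul_mem (mul_mem (zpow_mem hy0 k) hx0) (inv_mem (zpow_mem hy0 k))
    exact mul_mem (mul_mem (mul_mem (h4 _) (h4 _)) (inv_mem (h4 _))) (inv_mem (h4 _))
  refine ⟨M, inferInstance, ⟨x0, hx0⟩, ⟨y0, hy0⟩, E1.codRestrict M hmem, ?_, ?_, ?_, ?_⟩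
  · exact hC.base.of_injective _ _ M.subtype M.subtype_injective (c_Sp hC (c_H1 hC hG))
  · rw [eq_top_iff]
    rintro ⟨z, hz⟩ -
    induction hz using Subgroup.closure_induction with
    | mem z hz =>
      apply Subgroup.subset_closure
      rcases hz with rfl | hz
      · exact Or.inl rfl
      · rw [Set.mem_singleton_iff] at hz
        subst hz
        exact Or.inr rfl
    | one => exact one_mem _
    | mul z w hz hw h1 h2 => exact mul_mem h1 h2
    | inv z hz h1 => exact inv_mem h1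
  · intro u v huv
    have h1 : E1 u = E1 v := congrArg Subtype.val huv
    have h2 : E0 (e1H G) u = E0 (e1H G) v := congrArg Subtype.val h1
    have h3 : (E0 (e1H G) u).1.s 0 = (E0 (e1H G) v).1.s 0 := by rw [h2]
    exact e1H_inj h3
  · intro htf z n hn hz
    have h1 : (z : S) ^ n = 1 := congrArg Subtype.val hz
    exact Subtype.ext (tf_Sp (tf_H1 htf) _ n hn h1)

end final


end Pool.Agent.X176.FJ
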