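import Mathlib

/-!
Restricted wreath products.
-/

set_option autoImplicit false

namespace Pool.Agent.X176.FJ

section defs

variable (A B : Type) [Group A] [Group B]

/-- The group of the functions `B → A` with finite support. -/
def FinS : Subgroup (B → A) where
  carrier := {f | {x | f x ≠ 1}.Finite}
  one_mem' := by
    have h : {x : B | (1 : B → A) x ≠ 1} = ∅ := by
      ext x; simp
    show {x : B | (1 : B → A) x ≠ 1}.Finite
    rw [h]; exact Set.finite_empty
  mul_mem' {f g} hf hg := by
    refine (Set.Finite.union hf hg).subset ?_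
    intro x hx
    by_contra h
    rw [Set.mem_union, not_or] at h
    have h1 : f x = 1 := not_not.1 h.1
    have h2 : g x = 1 := not_not.1 h.2
    exact hx (by rw [Pi.mul_apply, h1, h2, one_mul])
  inv_mem' {f} hf := by
    refine Set.Finite.subset hf ?_
    intro x hx h
    exact hx (by rw [Pi.inv_apply, h, inv_one])

variable {A B}

/-- Translation by `b`. -/
def shF (b : B) (f : FinS A B) : FinS A B :=
  ⟨fun x => f.1 (b⁻¹ * x), by
    have h : {x | f.1 (b⁻¹ * x) ≠ 1} = (fun x => b * x) '' {x | f.1 x ≠ 1} := by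
      ext x
      constructor
      · intro hx
        exact ⟨b⁻¹ * x, hx, mul_inv_cancel_left b x⟩
      · rintro ⟨y, hy, rfl⟩
        show f.1 (b⁻¹ * (b * y)) ≠ 1
        rw [inv_mul_cancel_left]; exact hy
    show {x | f.1 (b⁻¹ * x) ≠ 1}.Finite
    rw [h]
    exact f.2.image _⟩

/-- The action of `B` on the functions by translations: `(b f)(x) = f(b⁻¹ x)`. -/
def shA : B →* MulAut (FinS A B) where
  toFun b :=
    { toFun := shF b
      invFun := shF b⁻¹
      left_inv := fun f => Subtype.ext (funext fun x => by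
        show f.1 (b⁻¹ * (b⁻¹⁻¹ * x)) = f.1 x
        rw [inv_inv, inv_mul_cancel_left])
      right_inv := fun f => Subtype.ext (funext fun x => by
        show f.1 (b⁻¹⁻¹ * (b⁻¹ * x)) = f.1 x
        rw [inv_inv, mul_inv_cancel_left])
      map_mul' := fun _ _ => rfl }
  map_one' := MulEquiv.ext fun f => Subtype.ext (funext fun x => by
    show f.1 ((1 : B)⁻¹ * x) = f.1 x
    rw [inv_one, one_mul])
  map_mul' b c := MulEquiv.ext fun f => Subtype.ext (funext fun x => by
    show f.1 ((b * c)⁻¹ * x) = f.1 (c⁻¹ * (b⁻¹ * x))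
    rw [mul_inv_rev, mul_assoc])

variable (A B)

/-- The restricted wreath product of `A` and `B`. -/
abbrev RWr : Type := FinS A B ⋊[shA] B

/-- The group `A` is directly indecomposable: it is not the internal direct product of two nontrivial
subgroups. -/
def DirIndec (A : Type) [Group A] : Prop :=
  ∀ H K : Subgroup A, (∀ h ∈ H, ∀ k ∈ K, h * k = k * h) → H ⊓ K = ⊥ → H ⊔ K = ⊤ → H = ⊥ ∨ K = ⊥

end defs

end Pool.Agent.X176.FJ
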