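import Mathlib
import Pool.Agent.X176.FJ.WrDef
import Pool.Agent.X176.FJ.SyDef
import Pool.Agent.X176.FJ.Bool

/-!
Automorphisms of restricted wreath products.
-/

set_option autoImplicit false

namespace Pool.Agent.X176.FJ

namespace WA

variable {A B : Type} [Group A] [Group B]

section elements

open Classical in
/-- the function with one nontrivial value -/
noncomputable def sg (x : B) (a : A) : FinS A B :=
  ⟨fun y => if y = x then a else 1, by
    refine Set.Finite.subset (Set.finite_singleton x) ?_
    intro y hy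
    by_contra h
    exact hy (if_neg h)⟩

theorem sg_self (x : B) (a : A) : (sg x a).1 x = a := if_pos rfl

theorem sg_ne {x y : B} (h : y ≠ x) (a : A) : (sg x a).1 y = 1 := if_neg h

theorem fin_ext {f g : FinS A B} (h : ∀ x, f.1 x = g.1 x) : f = g := Subtype.ext (funext h)

theorem sg_mul (x : B) (a b : A) : sg x (a * b) = sg x a * sg x b := by
  apply fin_ext
  intro y
  show _ = (sg x a).1 y * (sg x b).1 y
  by_cases h : y = x
  · subst h; rw [sg_self, sg_self, sg_self]
  · rw [sg_ne h, sg_ne h, sg_ne h, one_mul]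

theorem sg_one (x : B) : sg x (1 : A) = 1 := by
  apply fin_ext
  intro y
  show _ = (1 : A)
  by_cases h : y = x
  · subst h; rw [sg_self]
  · rw [sg_ne h]

/-- the basic elements -/
noncomputable def ee (x : B) (a : A) : RWr A B := SemidirectProduct.inl (sg x a)

theorem ee_mul (x : B) (a b : A) : ee x (a * b) = ee x a * ee x b := by
  rw [ee, sg_mul, map_mul]; rfl

theorem ee_one (x : B) : ee x (1 : A) = 1 := by rw [ee, sg_one, map_one]

/-- the coordinate subgroup -/
noncomputable def eH (x : B) : A →* RWr A B := ⟨⟨ee x, ee_one x⟩, ee_mul x⟩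

theorem ee_left (x : B) (a : A) : (ee x a).left = sg x a := rfl

theorem ee_right (x : B) (a : A) : (ee x a : RWr A B).right = 1 := rfl

theorem ee_inj {x y : B} {a b : A} (h : ee x a = ee y b) (ha : a ≠ 1) : x = y ∧ a = b := by
  have h1 : sg x a = sg y b := congrArg SemidirectProduct.left h
  have h2 : x = y := by
    by_contra hne
    have h3 := congrArg (fun f => f.1 x) h1
    simp only [sg_self] at h3
    rw [sg_ne hne] at h3
    exact ha h3
  subst h2
  refine ⟨rfl, ?_⟩
  have h3 := congrArg (fun f => f.1 x) h1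
  simp only [sg_self] at h3
  exact h3

theorem ee_injective (x : B) : Function.Injective (ee (A := A) x) := by
  intro a b h
  have h3 := congrArg (fun f : RWr A B => f.left.1 x) h
  simp only [ee_left, sg_self] at h3
  exact h3

theorem ee_comm {x y : B} (h : x ≠ y) (a b : A) : ee x a * ee y b = ee y b * ee x a := by
  rw [ee, ee, ← map_mul, ← map_mul]
  congr 1
  apply fin_ext
  intro z
  show (sg x a).1 z * (sg y b).1 z = (sg y b).1 z * (sg x a).1 z
  by_cases hz : z = x
  · subst hz; rw [sg_ne h b, one_mul, mul_one]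
  · rw [sg_ne hz a, one_mul, mul_one]

theorem conj_inl (w : RWr A B) (f : FinS A B) :
    w * SemidirectProduct.inl f * w⁻¹ =
      SemidirectProduct.inl (w.left * shA w.right f * w.left⁻¹) := by
  have h1 : w = SemidirectProduct.inl w.left * SemidirectProduct.inr w.right :=
    (SemidirectProduct.inl_left_mul_inr_right w).symm
  conv_lhs => rw [h1]
  rw [mul_inv_rev]
  have h2 : (SemidirectProduct.inr w.right : RWr A B) * SemidirectProduct.inl f *
      (SemidirectProduct.inr w.right)⁻¹ = SemidirectProduct.inl (shA w.right f) := by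
    rw [← map_inv, ← SemidirectProduct.inl_aut]
  calc _ = SemidirectProduct.inl w.left * (SemidirectProduct.inr w.right *
        SemidirectProduct.inl f * (SemidirectProduct.inr w.right)⁻¹) *
        (SemidirectProduct.inl w.left)⁻¹ := by group
    _ = _ := by rw [h2, ← map_inv, ← map_mul, ← map_mul]

theorem conj_ee (w : RWr A B) (x : B) (a : A) :
    w * ee x a * w⁻¹ = ee (w.right * x)
      (w.left.1 (w.right * x) * a * (w.left.1 (w.right * x))⁻¹) := by
  rw [ee, conj_inl, ee]
  congr 1
  apply fin_ext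
  intro y
  show w.left.1 y * (sg x a).1 (w.right⁻¹ * y) * (w.left.1 y)⁻¹ = _
  by_cases h : y = w.right * x
  · subst h; rw [inv_mul_cancel_left, sg_self, sg_self]
  · have h1 : w.right⁻¹ * y ≠ x := by
      rintro rfl
      exact h (mul_inv_cancel_left _ _).symm
    rw [sg_ne h1, sg_ne h, mul_one, mul_inv_cancel]

/-- the base group -/
def InN (w : RWr A B) : Prop := w.right = 1

theorem inN_iff {w : RWr A B} : InN w ↔ ∃ f, w = SemidirectProduct.inl f := by
  constructor
  · intro h
    refine ⟨w.left, ?_⟩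
    apply SemidirectProduct.ext
    · rfl
    · exact h
  · rintro ⟨f, rfl⟩; rfl

theorem InN.mul {v w : RWr A B} (hv : InN v) (hw : InN w) : InN (v * w) := by
  show (v * w).right = 1
  rw [SemidirectProduct.mul_right, hv, hw, one_mul]

theorem InN.inv {v : RWr A B} (hv : InN v) : InN v⁻¹ := by
  show (v⁻¹).right = 1
  rw [SemidirectProduct.inv_right, hv, inv_one]

theorem InN.conj {v : RWr A B} (hv : InN v) (w : RWr A B) : InN (w * v * w⁻¹) := by
  show (w * v * w⁻¹).right = 1
  rw [SemidirectProduct.mul_right, SemidirectProduct.mul_right, SemidirectProduct.inv_right, hv,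
    mul_one, mul_inv_cancel]

theorem InN.left_mul {v : RWr A B} (hv : InN v) (w : RWr A B) (x : B) :
    (v * w).left.1 x = v.left.1 x * w.left.1 x := by
  rw [SemidirectProduct.mul_left, hv, map_one]
  rfl

theorem inl_mem_closure (n : FinS A B) :
    (SemidirectProduct.inl n : RWr A B) ∈ Subgroup.closure {w | ∃ x a, w = ee x a} := by
  classical
  have key : ∀ (s : Finset B) (n : FinS A B), (∀ x, x ∉ s → n.1 x = 1) →
      (SemidirectProduct.inl n : RWr A B) ∈ Subgroup.closure {w | ∃ x a, w = ee x a} := by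
    intro s
    induction s using Finset.induction_on with
    | empty =>
      intro n hn
      have h1 : n = 1 := fin_ext fun x => hn x (Finset.notMem_empty x)
      rw [h1, map_one]
      exact one_mem _
    | insert y s hy ih =>
      intro n hn
      have h1 : n = sg y (n.1 y) * (sg y (n.1 y)⁻¹ * n) := by
        rw [← mul_assoc, ← sg_mul, mul_inv_cancel, sg_one, one_mul]
      rw [h1, map_mul]
      refine mul_mem (Subgroup.subset_closure ⟨y, n.1 y, rfl⟩) (ih _ ?_)
      intro x hx
      show (sg y (n.1 y)⁻¹).1 x * n.1 x = 1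
      by_cases hxy : x = y
      · subst hxy; rw [sg_self, inv_mul_cancel]
      · rw [sg_ne hxy, one_mul]
        refine hn x ?_
        rw [Finset.mem_insert, not_or]
        exact ⟨hxy, hx⟩
  refine key n.2.toFinset n fun x hx => ?_
  by_contra h
  exact hx (n.2.mem_toFinset.2 h)

end elements

section centre

variable (hZ : Subgroup.center A = ⊥)

include hZ in
theorem z_one {a : A} (h : ∀ b : A, a * b * a⁻¹ = b) : a = 1 := by
  have h1 : a ∈ Subgroup.center A := by
    rw [Subgroup.mem_center_iff]
    intro g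
    have h2 := h g
    rw [mul_inv_eq_iff_eq_mul] at h2
    exact h2.symm
  rw [hZ] at h1
  exact Subgroup.mem_bot.1 h1

include hZ in
theorem exists_nc {a : A} (h : a ≠ 1) : ∃ b : A, a * b * a⁻¹ * b⁻¹ ≠ 1 := by
  by_contra hn
  push Not at hn
  apply h
  apply z_one hZ
  intro b
  have h1 := hn b
  exact mul_inv_eq_one.1 h1

variable [Nontrivial A]

include hZ in
theorem cent_one {w : RWr A B} (h : ∀ x a, w * ee x a * w⁻¹ = ee x a) : w = 1 := by
  obtain ⟨a0, ha0⟩ := exists_ne (1 : A)
  have h1 : w.right = 1 := by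
    have h2 := h 1 a0
    rw [conj_ee] at h2
    have h3 := (ee_inj h2.symm ha0).1
    rw [mul_one] at h3
    exact h3.symm
  have h2 : ∀ x, w.left.1 x = 1 := by
    intro x
    apply z_one hZ
    intro b
    have h3 := h x b
    rw [conj_ee, h1, one_mul] at h3
    exact ee_injective x h3
  exact SemidirectProduct.ext (fin_ext h2) h1

/-! ### the base group is characteristic -/

include hZ in
theorem exists_m1 (σ : MulAut (RWr A B)) : ∃ n n0 : FinS A B, n ≠ 1 ∧
    σ (SemidirectProduct.inl n0) = SemidirectProduct.inl n := by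
  by_contra hn
  push Not at hn
  obtain ⟨a0, ha0⟩ := exists_ne (1 : A)
  have key : ∀ f g : FinS A B, σ (SemidirectProduct.inl g) * SemidirectProduct.inl f *
      (σ (SemidirectProduct.inl g))⁻¹ = SemidirectProduct.inl f := by
    intro f g
    let u : RWr A B := SemidirectProduct.inl f
    let v : RWr A B := SemidirectProduct.inl g
    have hu : InN u := rfl
    have hv : InN v := rfl
    have h1 : InN (σ v * u * (σ v)⁻¹ * u⁻¹) := (hu.conj _).mul hu.inv
    have h2 : InN (v * ((σ⁻¹ u) * v⁻¹ * (σ⁻¹ u)⁻¹)) := hv.mul (hv.inv.conj _)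
    obtain ⟨n, hn1⟩ := inN_iff.1 h1
    obtain ⟨n0, hn0⟩ := inN_iff.1 h2
    have h3 : σ (SemidirectProduct.inl n0) = SemidirectProduct.inl n := by
      rw [← hn0, ← hn1, map_mul, map_mul, map_mul, map_inv σ v, map_inv, MulAut.apply_inv_self]
      group
    by_cases h4 : n = 1
    · rw [h4, map_one] at hn1
      exact mul_inv_eq_one.1 hn1
    · exact absurd h3 (hn n n0 h4)
  have h1 : σ (ee 1 a0) = (1 : RWr A B) := by
    apply cent_one hZ
    intro x a
    exact key (sg x a) (sg 1 a0)
  have h2 : ee 1 a0 = (1 : RWr A B) := by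
    rw [← map_one σ] at h1
    exact σ.injective h1
  rw [← ee_one 1] at h2
  exact ha0 (ee_injective 1 h2)

include hZ in
theorem exists_m2 (σ : MulAut (RWr A B)) : ∃ (x : B) (l : A) (n1 : FinS A B), l ≠ 1 ∧
    σ (SemidirectProduct.inl n1) = ee x l := by
  obtain ⟨n, n0, hn, hσ⟩ := exists_m1 hZ σ
  have h1 : ∃ x, n.1 x ≠ 1 := by
    by_contra h
    push Not at h
    exact hn (fin_ext h)
  obtain ⟨x, hx⟩ := h1
  obtain ⟨b, hb⟩ := exists_nc hZ hx
  let v : RWr A B := SemidirectProduct.inl n0
  have hv : InN v := rfl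
  have h2 : InN (v * (σ⁻¹ (ee x b) * v⁻¹ * (σ⁻¹ (ee x b))⁻¹)) := hv.mul (hv.inv.conj _)
  obtain ⟨n1, hn1⟩ := inN_iff.1 h2
  refine ⟨x, _, n1, hb, ?_⟩
  rw [← hn1, map_mul, map_mul, map_mul, map_inv σ v, map_inv σ, MulAut.apply_inv_self]
  show σ v * (ee x b * (σ v)⁻¹ * (ee x b)⁻¹) = _
  rw [show σ v = SemidirectProduct.inl n from hσ]
  have h3 : (SemidirectProduct.inl n : RWr A B) * (ee x b * (SemidirectProduct.inl n)⁻¹ * (ee x b)⁻¹) =
      (SemidirectProduct.inl n * ee x b * (SemidirectProduct.inl n)⁻¹) * (ee x b)⁻¹ := by group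
  have h4 : (ee x b : RWr A B)⁻¹ = ee x b⁻¹ := (map_inv (eH x) b).symm
  rw [h3, conj_ee, h4]
  show ee (1 * x) (n.1 (1 * x) * b * (n.1 (1 * x))⁻¹) * ee x b⁻¹ = _
  rw [one_mul, ← ee_mul]

variable [Infinite B]

include hZ in
theorem base_char (σ : MulAut (RWr A B)) (n : FinS A B) : InN (σ (SemidirectProduct.inl n)) := by
  obtain ⟨x, l, n1, hl, h1⟩ := exists_m2 hZ σ
  obtain ⟨y, hy⟩ := n1.2.exists_notMem
  have hy1 : n1.1 y = 1 := by
    by_contra h
    exact hy h
  have h2 : ∀ a, InN (σ (ee y a)) := by
    intro a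
    have h3 : ee y a * SemidirectProduct.inl n1 * (ee y a)⁻¹ = SemidirectProduct.inl n1 := by
      rw [conj_inl]
      congr 1
      apply fin_ext
      intro z
      show (sg y a).1 z * n1.1 ((1 : B)⁻¹ * z) * ((sg y a).1 z)⁻¹ = n1.1 z
      rw [inv_one, one_mul]
      by_cases hz : z = y
      · subst hz; rw [hy1, mul_one, mul_inv_cancel]
      · rw [sg_ne hz, one_mul, inv_one, mul_one]
    have h4 := congrArg σ h3
    rw [map_mul, map_mul, map_inv, h1, conj_ee] at h4
    have h5 := (ee_inj h4.symm hl).1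
    show (σ (ee y a)).right = 1
    exact mul_eq_right.1 h5.symm
  have h3 : ∀ z a, InN (σ (ee z a)) := by
    intro z a
    have h4 : ee z a = (SemidirectProduct.inr (z * y⁻¹) : RWr A B) * ee y a *
        (SemidirectProduct.inr (z * y⁻¹))⁻¹ := by
      rw [conj_ee]
      show _ = ee (z * y⁻¹ * y) ((1 : A) * a * (1 : A)⁻¹)
      rw [inv_mul_cancel_right, one_mul, inv_one, mul_one]
    rw [h4, map_mul, map_mul, map_inv]
    exact (h2 a).conj _
  let S : Subgroup (RWr A B) :=
    { carrier := {w | InN (σ w)}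
      one_mem' := by
        show InN (σ 1)
        rw [map_one]; rfl
      mul_mem' := by
        intro v w hv hw
        show InN (σ (v * w))
        rw [map_mul]
        exact InN.mul hv hw
      inv_mem' := by
        intro v hv
        show InN (σ v⁻¹)
        rw [map_inv]
        exact InN.inv hv }
  have h4 : Subgroup.closure {w : RWr A B | ∃ x a, w = ee x a} ≤ S := by
    rw [Subgroup.closure_le]
    rintro w ⟨z, a, rfl⟩
    exact h3 z a
  exact h4 (inl_mem_closure n)

/-! ### the factors are permuted -/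

variable (hI : DirIndec A)

include hZ hI in
theorem fac (σ : MulAut (RWr A B)) (x : B) : ∃ y, ∀ a, ∃ a', σ (ee x a) = ee y a' := by
  have hN : ∀ a, InN (σ (ee x a)) := fun a => base_char hZ σ _
  let K : B → Subgroup A := fun y => (eH y).range.comap (σ.toMonoidHom.comp (eH x))
  let L : B → Subgroup A := fun y =>
    { carrier := {a | (σ (ee x a)).left.1 y = 1}
      one_mem' := by
        show (σ (ee x 1)).left.1 y = 1
        rw [ee_one, map_one]; rfl
      mul_mem' := by
        intro a b ha hb
        show (σ (ee x (a * b))).left.1 y = 1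
        rw [ee_mul, map_mul, (hN a).left_mul]
        have ha' : (σ (ee x a)).left.1 y = 1 := ha
        have hb' : (σ (ee x b)).left.1 y = 1 := hb
        rw [ha', hb', one_mul]
      inv_mem' := by
        intro a ha
        show (σ (ee x a⁻¹)).left.1 y = 1
        have h1 : (σ (ee x a⁻¹) * σ (ee x a)).left.1 y = 1 := by
          rw [← map_mul, ← ee_mul, inv_mul_cancel, ee_one, map_one]; rfl
        have ha' : (σ (ee x a)).left.1 y = 1 := ha
        rw [(hN a⁻¹).left_mul, ha', mul_one] at h1
        exact h1 }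
  have hsup : ∀ y, K y ⊔ L y = ⊤ := by
    intro y
    rw [eq_top_iff]
    intro a _
    obtain ⟨m, hm⟩ := inN_iff.1 (hN a)
    obtain ⟨r, hr⟩ := inN_iff.1 (base_char hZ σ⁻¹ (sg y (m.1 y)))
    have hr' : σ (SemidirectProduct.inl r) = ee y (m.1 y) := by
      rw [← hr, MulAut.apply_inv_self]; rfl
    have hrz : ∀ z, z ≠ x → r.1 z = 1 := by
      intro z hz
      apply z_one hZ
      intro b
      obtain ⟨s, hs⟩ := inN_iff.1 (base_char hZ σ (sg z b))
      have h1 : s.1 y * m.1 y = m.1 y * s.1 y := by
        have h2 := congrArg σ (ee_comm hz b a)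
        rw [map_mul, map_mul, show σ (ee z b) = SemidirectProduct.inl s from hs, hm, ← map_mul,
          ← map_mul] at h2
        exact congrArg (fun f => f.1 y) (SemidirectProduct.inl_injective h2)
      have h2 : (SemidirectProduct.inl s : RWr A B) * ee y (m.1 y) =
          ee y (m.1 y) * SemidirectProduct.inl s := by
        rw [ee, ← map_mul, ← map_mul]
        congr 1
        apply fin_ext
        intro t
        show s.1 t * (sg y (m.1 y)).1 t = (sg y (m.1 y)).1 t * s.1 t
        by_cases ht : t = y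
        · subst ht; rw [sg_self, h1]
        · rw [sg_ne ht, one_mul, mul_one]
      have h3 : ee z b * SemidirectProduct.inl r = SemidirectProduct.inl r * ee z b := by
        apply σ.injective
        rw [map_mul, map_mul, hr', show σ (ee z b) = SemidirectProduct.inl s from hs]
        exact h2
      rw [ee, ← map_mul, ← map_mul] at h3
      have h4 : b * r.1 z = r.1 z * b := by
        have h5 := congrArg (fun f => f.1 z) (SemidirectProduct.inl_injective h3)
        have h6 : (sg z b).1 z * r.1 z = r.1 z * (sg z b).1 z := h5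
        rwa [sg_self] at h6
      rw [← h4, mul_inv_cancel_right]
    have hre : (SemidirectProduct.inl r : RWr A B) = ee x (r.1 x) := by
      rw [ee]
      congr 1
      apply fin_ext
      intro z
      by_cases hz : z = x
      · subst hz; rw [sg_self]
      · rw [hrz z hz, sg_ne hz]
    rw [hre] at hr'
    have h1 : r.1 x ∈ K y := ⟨m.1 y, hr'.symm⟩
    have h2 : (r.1 x)⁻¹ * a ∈ L y := by
      show (σ (ee x ((r.1 x)⁻¹ * a))).left.1 y = 1
      rw [ee_mul, map_mul, (hN _).left_mul, hm]
      have h3 : (σ (ee x (r.1 x)⁻¹) * σ (ee x (r.1 x))).left.1 y = 1 := by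
        rw [← map_mul, ← ee_mul, inv_mul_cancel, ee_one, map_one]; rfl
      rw [(hN _).left_mul, hr', ee_left, sg_self] at h3
      exact h3
    have h3 : a = r.1 x * ((r.1 x)⁻¹ * a) := (mul_inv_cancel_left _ _).symm
    rw [h3]
    exact mul_mem (Subgroup.mem_sup_left h1) (Subgroup.mem_sup_right h2)
  have hcomm : ∀ y, ∀ h ∈ K y, ∀ k ∈ L y, h * k = k * h := by
    rintro y h ⟨h', hh⟩ k hk
    have hh' : σ (ee x h) = ee y h' := hh.symm
    obtain ⟨m, hm⟩ := inN_iff.1 (hN k)
    have hk' : m.1 y = 1 := by
      have h1 : (σ (ee x k)).left.1 y = 1 := hk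
      rw [hm] at h1; exact h1
    apply ee_injective x
    apply σ.injective
    rw [ee_mul, ee_mul, map_mul, map_mul, hh', hm, ee, ← map_mul, ← map_mul]
    congr 1
    apply fin_ext
    intro t
    show (sg y h').1 t * m.1 t = m.1 t * (sg y h').1 t
    by_cases ht : t = y
    · subst ht; rw [hk', one_mul, mul_one]
    · rw [sg_ne ht, one_mul, mul_one]
  have hinf : ∀ y, K y ⊓ L y = ⊥ := by
    intro y
    rw [eq_bot_iff]
    rintro a ⟨⟨a', ha'⟩, ha⟩
    have h1 : σ (ee x a) = ee y a' := ha'.symm
    have h2 : (σ (ee x a)).left.1 y = 1 := ha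
    rw [h1, ee_left, sg_self] at h2
    rw [h2, ee_one] at h1
    rw [Subgroup.mem_bot]
    have h3 : ee x a = (1 : RWr A B) := by
      rw [← map_one σ] at h1
      exact σ.injective h1
    rw [← ee_one x] at h3
    exact ee_injective x h3
  by_cases hex : ∃ y, L y = ⊥
  · obtain ⟨y, hy⟩ := hex
    refine ⟨y, fun a => ?_⟩
    have h1 := hsup y
    rw [hy, sup_bot_eq] at h1
    have h2 : a ∈ K y := by rw [h1]; exact Subgroup.mem_top a
    obtain ⟨a', ha'⟩ := h2
    exact ⟨a', ha'.symm⟩
  · exfalso
    push Not at hex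
    have h1 : ∀ y, L y = ⊤ := by
      intro y
      rcases hI (K y) (L y) (hcomm y) (hinf y) (hsup y) with h | h
      · have h2 := hsup y
        rwa [h, bot_sup_eq] at h2
      · exact absurd h (hex y)
    obtain ⟨a0, ha0⟩ := exists_ne (1 : A)
    have h2 : σ (ee x a0) = 1 := by
      apply SemidirectProduct.ext
      · apply fin_ext
        intro y
        have h3 : a0 ∈ L y := by rw [h1]; exact Subgroup.mem_top a0
        exact h3
      · exact hN a0
    rw [← map_one σ] at h2
    have h3 := σ.injective h2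
    rw [← ee_one x] at h3
    exact ha0 (ee_injective x h3)

include hZ hI in
/-- automorphisms permute the coordinate subgroups -/
theorem exists_pi (σ : MulAut (RWr A B)) : ∃ (p p' : B → B) (α : B → MulAut A),
    (∀ x, p' (p x) = x) ∧ (∀ x, p (p' x) = x) ∧ ∀ x a, σ (ee x a) = ee (p x) (α x a) := by
  choose p α hp using fac hZ hI σ
  choose p' α' hp' using fac hZ hI σ⁻¹
  obtain ⟨a0, ha0⟩ := exists_ne (1 : A)
  have h1 : ∀ x a, ee x a = ee (p' (p x)) (α' (p x) (α x a)) := by
    intro x a
    rw [← hp', ← hp, MulAut.inv_apply_self]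
  have h2 : ∀ x a, ee x a = ee (p (p' x)) (α (p' x) (α' x a)) := by
    intro x a
    rw [← hp, ← hp', MulAut.apply_inv_self]
  have h3 : ∀ x, p' (p x) = x := fun x => (ee_inj (h1 x a0) ha0).1.symm
  have h4 : ∀ x, p (p' x) = x := fun x => (ee_inj (h2 x a0) ha0).1.symm
  have h5 : ∀ x a, α' (p x) (α x a) = a := by
    intro x a
    have h6 := h1 x a
    rw [h3] at h6
    exact (ee_injective x h6).symm
  have h6 : ∀ x a, α x (α' (p x) a) = a := by
    intro x a
    have h7 := h2 (p x) a
    rw [h3] at h7
    exact (ee_injective _ h7).symm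
  have h7 : ∀ x a b, α x (a * b) = α x a * α x b := by
    intro x a b
    apply ee_injective (p x)
    rw [← hp, ee_mul, ee_mul, map_mul, hp, hp]
  let β : B → MulAut A := fun x => ⟨⟨α x, α' (p x), h5 x, h6 x⟩, h7 x⟩
  exact ⟨p, p', β, h3, h4, hp⟩

end centre

end WA

end Pool.Agent.X176.FJ
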