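import Mathlib
import Pool.Agent.X176.FJ.Wrp

/-!
Automorphism groups of restricted wreath products and closure properties.
-/

set_option autoImplicit false

namespace Pool.Agent.X176.FJ

open Pool.Agent.Y110.FJ
open Pool.Agent.Y462.SS (Closed)

/-- a multiplicative relation gives a homomorphism -/
theorem exists_hom_of_rel {X Y : Type} [Group X] [Group Y] (R : X → Y → Prop) (htot : ∀ x, ∃ y, R x y)
    (hmul : ∀ {x x' y y'}, R x y → R x' y' → R (x * x') (y * y'))
    (huniq : ∀ {x y y'}, R x y → R x y' → y = y')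
    (hinj : ∀ {x x' y}, R x y → R x' y → x = x') : ∃ f : X →* Y, Function.Injective f := by
  choose f hf using htot
  refine ⟨MonoidHom.mk' f fun a b => huniq (hf (a * b)) (hmul (hf a) (hf b)), fun a b hab => ?_⟩
  have h1 : f a = f b := hab
  have h2 := hf b
  rw [← h1] at h2
  exact hinj (hf a) h2

/-- almost invariant functions on finitely generated groups have finite range -/
theorem range_fin {B Y : Type} [Group B] (hfg : Group.FG B) (f : B → Y)
    (h : ∀ b : B, {x | f (b * x) ≠ f x}.Finite) : (Set.range f).Finite := by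
  obtain ⟨S, hS, hSf⟩ := (Group.fg_iff).1 hfg
  let F : Set B := ⋃ s ∈ S, ({x | f (s * x) ≠ f x} ∪ {x | f (s⁻¹ * x) ≠ f x})
  have hF : F.Finite := hSf.biUnion fun s _ => (h s).union (h s⁻¹)
  let D : Set Y := insert (f 1) (⋃ s ∈ S, ((fun x => f (s * x)) '' F ∪ (fun x => f (s⁻¹ * x)) '' F))
  have hD : D.Finite := (hSf.biUnion fun s _ => (hF.image _).union (hF.image _)).insert _
  refine hD.subset ?_
  rintro _ ⟨g, rfl⟩
  have hg : g ∈ Subgroup.closure S := by rw [hS]; exact Subgroup.mem_top g
  induction hg using Subgroup.closure_induction_left with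
  | one => exact Set.mem_insert _ _
  | mul_left s hs g _ ih =>
    by_cases h1 : g ∈ F
    · exact Set.mem_insert_of_mem _ (Set.mem_biUnion hs (Or.inl ⟨g, h1, rfl⟩))
    · have h2 : f (s * g) = f g := by
        by_contra h3
        exact h1 (Set.mem_biUnion hs (Or.inl h3))
      rw [h2]; exact ih
  | inv_mul_cancel s hs g _ ih =>
    by_cases h1 : g ∈ F
    · exact Set.mem_insert_of_mem _ (Set.mem_biUnion hs (Or.inr ⟨g, h1, rfl⟩))
    · have h2 : f (s⁻¹ * g) = f g := by
        by_contra h3
        exact h1 (Set.mem_biUnion hs (Or.inr h3))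
      rw [h2]; exact ih

namespace WA

variable {A B : Type} [Group A] [Group B]

/-- the affine action of the holomorph -/
instance holAct : MulAction (Holo B) B where
  smul q x := q.left * q.right x
  one_smul x := by
    show (1 : B) * (1 : MulAut B) x = x
    rw [one_mul]; rfl
  mul_smul q r x := by
    show q.left * q.right r.left * (q.right * r.right) x = q.left * q.right (r.left * r.right x)
    rw [map_mul, mul_assoc]; rfl

theorem hol_smul (q : Holo B) (x : B) : q • x = q.left * q.right x := rfl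

theorem hol_faithful {q r : Holo B} (h : ∀ x : B, q • x = r • x) : q = r := by
  have h1 : q.left = r.left := by
    have h2 := h 1
    rwa [hol_smul, hol_smul, map_one, map_one, mul_one, mul_one] at h2
  apply SemidirectProduct.ext h1
  apply MulEquiv.ext
  intro x
  have h2 := h x
  rw [hol_smul, hol_smul, h1] at h2
  exact mul_left_cancel h2

section forward

variable (hZ : Subgroup.center A = ⊥) [Nontrivial A] [Infinite B] (hI : DirIndec A)

/-- the automorphism induced on `B` -/
def beH (σ : MulAut (RWr A B)) : B →* B :=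
  (SemidirectProduct.rightHom.comp σ.toMonoidHom).comp SemidirectProduct.inr

include hZ in
theorem beH_inv (σ : MulAut (RWr A B)) (b : B) : beH σ⁻¹ (beH σ b) = b := by
  have h1 : σ (SemidirectProduct.inr b) = SemidirectProduct.inl (σ (SemidirectProduct.inr b)).left *
      SemidirectProduct.inr (beH σ b) :=
    (SemidirectProduct.inl_left_mul_inr_right _).symm
  have h2 := congrArg (fun w => (σ⁻¹ w).right) h1
  simp only [MulAut.inv_apply_self, map_mul, SemidirectProduct.mul_right] at h2
  have h3 : (σ⁻¹ (SemidirectProduct.inl (σ (SemidirectProduct.inr b)).left)).right = 1 :=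
    base_char hZ σ⁻¹ _
  rw [h3, one_mul] at h2
  exact h2.symm

/-- the automorphism induced on `B` -/
def be (σ : MulAut (RWr A B)) : MulAut B :=
  ⟨⟨beH σ, beH σ⁻¹, beH_inv hZ σ, fun b => by
    have h := beH_inv hZ σ⁻¹ b
    rwa [inv_inv] at h⟩, (beH σ).map_mul⟩

/-- the relation between automorphisms and their data -/
def RR (σ : MulAut (RWr A B)) (w : FR B (MulAut A) ⋊[frAct B (1 : Holo B →* MulAut (MulAut A))] Holo B) :
    Prop :=
  ∀ x a, σ (ee x a) = ee (w.right • x) (w.left.f (w.right • x) a)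

include hZ hI in
theorem rr_tot (hfg : Group.FG B) (σ : MulAut (RWr A B)) : ∃ w, RR σ w := by
  obtain ⟨p, p', α, h1, h2, h3⟩ := exists_pi hZ hI σ
  obtain ⟨a0, ha0⟩ := exists_ne (1 : A)
  have h4 : ∀ (b x : B) (a : A), ee (p (b * x)) (α (b * x) a) =
      ee (beH σ b * p x) ((σ (SemidirectProduct.inr b)).left.1 (beH σ b * p x) * α x a *
        ((σ (SemidirectProduct.inr b)).left.1 (beH σ b * p x))⁻¹) := by
    intro b x a
    have h5 : ee (b * x) a = (SemidirectProduct.inr b : RWr A B) * ee x a *
        (SemidirectProduct.inr b)⁻¹ := by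
      rw [conj_ee]
      show _ = ee (b * x) ((1 : A) * a * (1 : A)⁻¹)
      rw [one_mul, inv_one, mul_one]
    rw [← h3, h5, map_mul, map_mul, map_inv, h3, conj_ee]
    rfl
  have hne : ∀ x, α x a0 ≠ 1 := fun x h => ha0 (by
    rw [← map_one (α x)] at h
    exact (α x).injective h)
  have h5 : ∀ b x, p (b * x) = beH σ b * p x := fun b x => (ee_inj (h4 b x a0) (hne _)).1
  have h6 : ∀ b x a, α (b * x) a = (σ (SemidirectProduct.inr b)).left.1 (beH σ b * p x) * α x a *
      ((σ (SemidirectProduct.inr b)).left.1 (beH σ b * p x))⁻¹ := by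
    intro b x a
    have h7 := h4 b x a
    rw [h5] at h7
    exact ee_injective _ h7
  have h7 : (Set.range α).Finite := by
    refine range_fin hfg α fun b => ?_
    have h8 : Set.InjOn (fun x => beH σ b * p x)
        ((fun x => beH σ b * p x) ⁻¹' {y | (σ (SemidirectProduct.inr b)).left.1 y ≠ 1}) := by
      intro x _ y _ hxy
      have h9 : p x = p y := mul_left_cancel hxy
      rw [← h1 x, h9, h1]
    refine ((σ (SemidirectProduct.inr b)).left.2.preimage h8).subset ?_
    intro x hx h9
    apply hx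
    apply MulEquiv.ext
    intro a
    rw [h6, h9, one_mul, inv_one, mul_one]
  let q : Holo B := ⟨p 1, (MulAut.conj (p 1))⁻¹ * be hZ σ⟩
  have hq : ∀ x, q • x = p x := by
    intro x
    rw [hol_smul]
    show p 1 * (MulAut.conj (p 1))⁻¹ (beH σ x) = p x
    rw [MulAut.conj_inv_apply]
    have h8 := h5 x 1
    rw [mul_one] at h8
    rw [h8]
    group
  refine ⟨⟨⟨fun y => α (q⁻¹ • y), Set.Finite.subset h7 ?_⟩, q⟩, ?_⟩
  · rintro _ ⟨y, rfl⟩
    exact ⟨_, rfl⟩
  · intro x a
    show σ (ee x a) = ee (q • x) (α (q⁻¹ • q • x) a)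
    rw [inv_smul_smul, hq, h3]

theorem rr_mul {σ τ : MulAut (RWr A B)}
    {v w : FR B (MulAut A) ⋊[frAct B (1 : Holo B →* MulAut (MulAut A))] Holo B}
    (hv : RR σ v) (hw : RR τ w) : RR (σ * τ) (v * w) := by
  intro x a
  show σ (τ (ee x a)) = ee ((v.right * w.right) • x)
    ((v.left.f ((v.right * w.right) • x) *
      w.left.f ((v.right)⁻¹ • (v.right * w.right) • x)) a)
  rw [hw, hv, mul_smul, inv_smul_smul]
  rfl

theorem rr_uniq {σ : MulAut (RWr A B)}
    {v w : FR B (MulAut A) ⋊[frAct B (1 : Holo B →* MulAut (MulAut A))] Holo B}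
    (hv : RR σ v) (hw : RR σ w) : v = w := by
  obtain ⟨a0, ha0⟩ := exists_ne (1 : A)
  have h1 : ∀ x a, ee (v.right • x) (v.left.f (v.right • x) a) =
      ee (w.right • x) (w.left.f (w.right • x) a) := fun x a => (hv x a).symm.trans (hw x a)
  have h2 : v.right = w.right := by
    apply hol_faithful
    intro x
    refine (ee_inj (h1 x a0) ?_).1
    intro h
    rw [← map_one (v.left.f (v.right • x))] at h
    exact ha0 ((v.left.f (v.right • x)).injective h)
  refine SemidirectProduct.ext (FR.ext (funext fun y => MulEquiv.ext fun a => ?_)) h2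
  have h3 := h1 ((v.right)⁻¹ • y) a
  rw [← h2, smul_inv_smul] at h3
  exact ee_injective _ h3

include hZ in
theorem rr_inj {σ τ : MulAut (RWr A B)}
    {w : FR B (MulAut A) ⋊[frAct B (1 : Holo B →* MulAut (MulAut A))] Holo B}
    (hv : RR σ w) (hw : RR τ w) : σ = τ := by
  have h1 : ∀ x a, σ (ee x a) = τ (ee x a) := fun x a => (hv x a).trans (hw x a).symm
  have h2 : ∀ n, σ (SemidirectProduct.inl n) = τ (SemidirectProduct.inl n) := by
    intro n
    let S : Subgroup (RWr A B) := σ.toMonoidHom.eqLocus τ.toMonoidHom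
    have h3 : Subgroup.closure {w : RWr A B | ∃ x a, w = ee x a} ≤ S := by
      rw [Subgroup.closure_le]
      rintro w ⟨z, a, rfl⟩
      exact h1 z a
    exact h3 (inl_mem_closure n)
  have h3 : ∀ b, σ (SemidirectProduct.inr b) = τ (SemidirectProduct.inr b) := by
    intro b
    rw [← inv_mul_eq_one]
    apply σ⁻¹.injective
    rw [map_one]
    apply cent_one hZ
    intro x a
    apply σ.injective
    have h4 : ∀ w : RWr A B, σ (σ⁻¹ w) = w := MulAut.apply_inv_self _ σ
    rw [map_mul, map_mul, map_inv, h4]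
    -- `σ (ee x a)` is conjugated by `σ(b)⁻¹ τ(b)`
    have h5 : (SemidirectProduct.inr b : RWr A B) * ee x a * (SemidirectProduct.inr b)⁻¹ =
        ee (b * x) a := by
      rw [conj_ee]
      show ee (b * x) ((1 : A) * a * (1 : A)⁻¹) = _
      rw [one_mul, inv_one, mul_one]
    have h6 := congrArg σ h5
    have h7 := congrArg τ h5
    rw [map_mul, map_mul, map_inv] at h6 h7
    rw [← h1, ← h1, ← h6] at h7
    calc _ = (σ (SemidirectProduct.inr b))⁻¹ * (τ (SemidirectProduct.inr b) * σ (ee x a) *
          (τ (SemidirectProduct.inr b))⁻¹) * σ (SemidirectProduct.inr b) := by group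
      _ = σ (ee x a) := by rw [h7]; group
  apply MulEquiv.ext
  intro w
  rw [← SemidirectProduct.inl_left_mul_inr_right w, map_mul, map_mul, h2, h3]

include hZ hI in
theorem c_autW {C : ∀ (G : Type) [Group G], Prop} (hC : ClosedE C) (hfg : Group.FG B)
    (hA : C (MulAut A)) (hB : C (Holo B)) : C (MulAut (RWr A B)) := by
  obtain ⟨f, hf⟩ := exists_hom_of_rel (RR (A := A) (B := B)) (rr_tot hZ hI hfg) rr_mul rr_uniq
    (rr_inj hZ)
  exact hC.base.of_injective _ _ f hf (c_fr hC hA hB)

end forward

section backward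

/-- the action on functions -/
def actN (d : MulAut A × Holo B) (n : FinS A B) : FinS A B :=
  ⟨fun x => d.1 (n.1 (d.2⁻¹ • x)), by
    have h : {x | d.1 (n.1 (d.2⁻¹ • x)) ≠ 1} ⊆ (fun x => d.2 • x) '' {x | n.1 x ≠ 1} := by
      intro x hx
      refine ⟨d.2⁻¹ • x, fun h => hx ?_, smul_inv_smul _ _⟩
      rw [h, map_one]
    exact (n.2.image _).subset h⟩

/-- the action on `B` -/
def actB (d : MulAut A × Holo B) (b : B) : B := d.2.left * d.2.right b * d.2.left⁻¹

theorem actN_mul (d : MulAut A × Holo B) (m n : FinS A B) :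
    actN d (m * n) = actN d m * actN d n := fin_ext fun x => map_mul d.1 _ _

theorem actB_mul (d : MulAut A × Holo B) (b c : B) : actB d (b * c) = actB d b * actB d c := by
  unfold actB
  rw [map_mul]
  group

theorem actN_comp (d e : MulAut A × Holo B) (n : FinS A B) :
    actN (d * e) n = actN d (actN e n) := by
  apply fin_ext
  intro x
  show (d.1 * e.1) (n.1 ((d.2 * e.2)⁻¹ • x)) = d.1 (e.1 (n.1 (e.2⁻¹ • d.2⁻¹ • x)))
  rw [mul_inv_rev, mul_smul]
  rfl

theorem actB_comp (d e : MulAut A × Holo B) (b : B) : actB (d * e) b = actB d (actB e b) := by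
  show (d.2.left * d.2.right e.2.left) * (d.2.right * e.2.right) b *
    (d.2.left * d.2.right e.2.left)⁻¹ = d.2.left * d.2.right (e.2.left * e.2.right b * e.2.left⁻¹) *
      d.2.left⁻¹
  rw [map_mul, map_mul, map_inv]
  show (d.2.left * d.2.right e.2.left) * d.2.right (e.2.right b) *
    (d.2.left * d.2.right e.2.left)⁻¹ = _
  group

theorem actN_one (n : FinS A B) : actN 1 n = n := by
  apply fin_ext
  intro x
  show (1 : MulAut A) (n.1 ((1 : Holo B)⁻¹ • x)) = n.1 x
  rw [inv_one, one_smul]
  rfl

theorem actB_one (b : B) : actB (1 : MulAut A × Holo B) b = b := by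
  show (1 : B) * (1 : MulAut B) b * (1 : B)⁻¹ = b
  rw [one_mul, inv_one, mul_one]
  rfl

theorem act_smul (q : Holo B) (b x : B) :
    q • (b * x) = (q.left * q.right b * q.left⁻¹) * q • x := by
  rw [hol_smul, hol_smul, map_mul]
  group

theorem actN_sh (d : MulAut A × Holo B) (b : B) (n : FinS A B) :
    actN d (shA b n) = shA (actB d b) (actN d n) := by
  apply fin_ext
  intro x
  show d.1 (n.1 (b⁻¹ * d.2⁻¹ • x)) = d.1 (n.1 (d.2⁻¹ • ((actB d b)⁻¹ * x)))
  have h : b⁻¹ * d.2⁻¹ • x = d.2⁻¹ • ((actB d b)⁻¹ * x) := by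
    rw [eq_inv_smul_iff, act_smul, smul_inv_smul]
    congr 1
    unfold actB
    rw [map_inv]
    group
  rw [h]

/-- the action on the wreath product -/
def actW (d : MulAut A × Holo B) (w : RWr A B) : RWr A B := ⟨actN d w.left, actB d w.right⟩

theorem actW_mul (d : MulAut A × Holo B) (v w : RWr A B) : actW d (v * w) = actW d v * actW d w := by
  apply SemidirectProduct.ext
  · show actN d (v.left * shA v.right w.left) = actN d v.left * shA (actB d v.right) (actN d w.left)
    rw [actN_mul, actN_sh]
  · exact actB_mul d _ _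

theorem actW_comp (d e : MulAut A × Holo B) (w : RWr A B) : actW (d * e) w = actW d (actW e w) :=
  SemidirectProduct.ext (actN_comp d e _) (actB_comp d e _)

theorem actW_one (w : RWr A B) : actW 1 w = w := SemidirectProduct.ext (actN_one _) (actB_one _)

/-- the homomorphism to the automorphism group -/
def aW : MulAut A × Holo B →* MulAut (RWr A B) where
  toFun d := ⟨⟨actW d, actW d⁻¹, fun w => by rw [← actW_comp, inv_mul_cancel, actW_one],
    fun w => by rw [← actW_comp, mul_inv_cancel, actW_one]⟩, actW_mul d⟩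
  map_one' := MulEquiv.ext actW_one
  map_mul' d e := MulEquiv.ext (actW_comp d e)

theorem aW_ee (d : MulAut A × Holo B) (x : B) (a : A) : aW d (ee x a) = ee (d.2 • x) (d.1 a) := by
  apply SemidirectProduct.ext
  · apply fin_ext
    intro y
    show d.1 ((sg x a).1 (d.2⁻¹ • y)) = (sg (d.2 • x) (d.1 a)).1 y
    by_cases h : y = d.2 • x
    · subst h; rw [inv_smul_smul, sg_self, sg_self]
    · rw [sg_ne h, sg_ne, map_one]
      rintro rfl
      exact h (smul_inv_smul _ _).symm
  · show d.2.left * d.2.right 1 * d.2.left⁻¹ = 1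
    rw [map_one, mul_one, mul_inv_cancel]

theorem aW_injective [Nontrivial A] : Function.Injective (aW : MulAut A × Holo B →* MulAut (RWr A B)) := by
  intro d e h
  obtain ⟨a0, ha0⟩ := exists_ne (1 : A)
  have h1 : ∀ (x : B) (a : A), ee (d.2 • x) (d.1 a) = ee (e.2 • x) (e.1 a) := by
    intro x a
    rw [← aW_ee, ← aW_ee, h]
  have h2 : d.2 = e.2 := by
    apply hol_faithful
    intro x
    refine (ee_inj (h1 x a0) ?_).1
    intro h3
    rw [← map_one d.1] at h3
    exact ha0 (d.1.injective h3)
  refine Prod.ext (MulEquiv.ext fun a => ?_) h2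
  have h3 := h1 1 a
  rw [h2] at h3
  exact ee_injective _ h3

end backward

/-- **automorphism groups of restricted wreath products** -/
theorem autW_iff {C : ∀ (G : Type) [Group G], Prop} (hC : ClosedE C) [Nontrivial A] [Infinite B]
    (hZ : Subgroup.center A = ⊥) (hI : DirIndec A) (hfg : Group.FG B) :
    C (MulAut (RWr A B)) ↔ C (MulAut A) ∧ C (Holo B) := by
  constructor
  · intro h
    have h1 : C (MulAut A × Holo B) := hC.base.of_injective _ _ aW aW_injective h
    refine ⟨hC.base.of_injective _ _ (MonoidHom.inl (MulAut A) (Holo B)) ?_ h1,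
      hC.base.of_injective _ _ (MonoidHom.inr (MulAut A) (Holo B)) ?_ h1⟩
    · intro a b hab
      exact congrArg Prod.fst hab
    · intro a b hab
      exact congrArg Prod.snd hab
  · rintro ⟨hA, hB⟩
    exact c_autW hZ hI hC hfg hA hB

end WA

end Pool.Agent.X176.FJ
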